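import Mathlib

/-! Tool kit for parameter inequalities that hold for large `L` (`L = log X`). -/

namespace Pool.Agent.H84D

open Filter Topology Real

/-- transfer from the real variable `L` to `L = log X`, `X` natural -/
theorem par_nat {p : ℝ → Prop} (h : ∀ᶠ L : ℝ in atTop, p L) :
    ∀ᶠ X : ℕ in atTop, p (Real.log X) :=
  (Real.tendsto_log_atTop.comp tendsto_natCast_atTop_atTop).eventually h

/-- transfer from the real variable `L` to `L = log X`, `X` real -/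
theorem par_real {p : ℝ → Prop} (h : ∀ᶠ L : ℝ in atTop, p L) :
    ∀ᶠ X : ℝ in atTop, p (Real.log X) :=
  Real.tendsto_log_atTop.eventually h

theorem par_const_rpow (C : ℝ) {b : ℝ} (hb : 0 < b) : ∀ᶠ L : ℝ in atTop, C ≤ L ^ b :=
  (tendsto_rpow_atTop hb).eventually_ge_atTop C

theorem par_const_log (C : ℝ) : ∀ᶠ L : ℝ in atTop, C ≤ Real.log L :=
  Real.tendsto_log_atTop.eventually_ge_atTop C

/-- `C (log L)^m ≤ L^e` -/
theorem par_log_pow (C : ℝ) (m : ℕ) {e : ℝ} (he : 0 < e) :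
    ∀ᶠ L : ℝ in atTop, C * Real.log L ^ m ≤ L ^ e := by
  have h := (isLittleO_log_rpow_rpow_atTop (m : ℝ) he).bound
    (show (0 : ℝ) < 1 / (|C| + 1) by positivity)
  filter_upwards [h, eventually_ge_atTop (1 : ℝ)] with L hL h1
  have hl : 0 ≤ Real.log L := Real.log_nonneg h1
  rw [Real.rpow_natCast, Real.norm_of_nonneg (pow_nonneg hl m),
    Real.norm_of_nonneg (by positivity)] at hL
  have h2 : (0 : ℝ) < |C| + 1 := by positivity
  calc C * Real.log L ^ m ≤ (|C| + 1) * Real.log L ^ m :=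
        mul_le_mul_of_nonneg_right ((le_abs_self C).trans (by linarith)) (pow_nonneg hl m)
    _ ≤ (|C| + 1) * (1 / (|C| + 1) * L ^ e) := mul_le_mul_of_nonneg_left hL h2.le
    _ = L ^ e := by field_simp

/-- polynomial level: `C L^a (log L)^m ≤ L^b / (log L)^k` for `a < b` -/
theorem par_poly (C : ℝ) (m k : ℕ) {a b : ℝ} (hab : a < b) :
    ∀ᶠ L : ℝ in atTop, C * L ^ a * Real.log L ^ m ≤ L ^ b / Real.log L ^ k := by
  filter_upwards [par_log_pow C (m + k) (sub_pos.2 hab), eventually_gt_atTop (1 : ℝ)] with L h h1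
  have hl : 0 < Real.log L := Real.log_pos h1
  have h0 : 0 < L := by linarith
  rw [le_div_iff₀ (pow_pos hl k)]
  calc C * L ^ a * Real.log L ^ m * Real.log L ^ k = L ^ a * (C * Real.log L ^ (m + k)) := by
        ring
    _ ≤ L ^ a * L ^ (b - a) := mul_le_mul_of_nonneg_left h (by positivity)
    _ = L ^ b := by rw [← Real.rpow_add h0]; congr 1; ring

/-- `C L^a ≤ L^b` for `a < b` -/
theorem par_rpow (C : ℝ) {a b : ℝ} (hab : a < b) : ∀ᶠ L : ℝ in atTop, C * L ^ a ≤ L ^ b := by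
  simpa using par_poly C 0 0 hab

/-- `C L^a (log L)^m ≤ c L^b` for `a < b`, `c > 0` -/
theorem par_rpow_log (C : ℝ) (m : ℕ) {a b c : ℝ} (hab : a < b) (hc : 0 < c) :
    ∀ᶠ L : ℝ in atTop, C * L ^ a * Real.log L ^ m ≤ c * L ^ b := by
  filter_upwards [par_poly (C / c) m 0 hab] with L h
  rw [pow_zero, div_one] at h
  have := mul_le_mul_of_nonneg_left h hc.le
  calc C * L ^ a * Real.log L ^ m = c * (C / c * L ^ a * Real.log L ^ m) := by field_simp
    _ ≤ c * L ^ b := this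

/-- `C L^A ≤ exp ((|A| + 1) log L)` -/
theorem par_mul_rpow_le_exp (C A : ℝ) :
    ∀ᶠ L : ℝ in atTop, C * L ^ A ≤ Real.exp ((|A| + 1) * Real.log L) := by
  filter_upwards [eventually_ge_atTop C, eventually_ge_atTop (1 : ℝ)] with L hC h1
  have h0 : 0 < L := by linarith
  rw [mul_comm (|A| + 1), ← Real.rpow_def_of_pos h0, Real.rpow_add h0, Real.rpow_one]
  calc C * L ^ A ≤ L * L ^ A := mul_le_mul_of_nonneg_right hC (by positivity)
    _ ≤ L * L ^ |A| :=
        mul_le_mul_of_nonneg_left (Real.rpow_le_rpow_of_exponent_le h1 (le_abs_self A)) h0.le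
    _ = L ^ |A| * L := mul_comm _ _

/-- master lemma: `C L^A exp (c L^a (log L)^m) ≤ exp (c' L^b / (log L)^k)` for `a < b`, `0 < b` -/
theorem par_master (C A c : ℝ) (m k : ℕ) {a b c' : ℝ} (hab : a < b) (hb : 0 < b) (hc' : 0 < c') :
    ∀ᶠ L : ℝ in atTop, C * L ^ A * Real.exp (c * L ^ a * Real.log L ^ m) ≤
      Real.exp (c' * L ^ b / Real.log L ^ k) := by
  filter_upwards [par_mul_rpow_le_exp C A, par_poly (2 * c / c') m k hab,
    par_poly (2 * (|A| + 1) / c') 1 k hb] with L h1 h2 h3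
  refine (mul_le_mul_of_nonneg_right h1 (Real.exp_pos _).le).trans ?_
  rw [← Real.exp_add, Real.exp_le_exp]
  rw [Real.rpow_zero, mul_one, pow_one] at h3
  have h4 := mul_le_mul_of_nonneg_left h2 (half_pos hc').le
  have h5 := mul_le_mul_of_nonneg_left h3 (half_pos hc').le
  have e1 : c' / 2 * (2 * c / c' * L ^ a * Real.log L ^ m) = c * L ^ a * Real.log L ^ m := by
    field_simp
  have e2 : c' / 2 * (2 * (|A| + 1) / c' * Real.log L) = (|A| + 1) * Real.log L := by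
    field_simp
  have e3 : c' * L ^ b / Real.log L ^ k = c' / 2 * (L ^ b / Real.log L ^ k) +
      c' / 2 * (L ^ b / Real.log L ^ k) := by ring
  rw [e1] at h4
  rw [e2] at h5
  linarith

/-- `C L^A exp (c L^a) ≤ exp (c' L^b)` for `a < b`, `0 < b`, `0 < c'` -/
theorem par_exp_exp (C A c : ℝ) {a b c' : ℝ} (hab : a < b) (hb : 0 < b) (hc' : 0 < c') :
    ∀ᶠ L : ℝ in atTop, C * L ^ A * Real.exp (c * L ^ a) ≤ Real.exp (c' * L ^ b) := by
  simpa using par_master C A c 0 0 hab hb hc'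

/-- `C L^A ≤ exp (c' L^b)` -/
theorem par_rpow_exp (C A : ℝ) {b c' : ℝ} (hb : 0 < b) (hc' : 0 < c') :
    ∀ᶠ L : ℝ in atTop, C * L ^ A ≤ Real.exp (c' * L ^ b) := by
  simpa using par_master C A 0 0 0 hb hb hc'

/-- decay form: `C L^A exp (c L^a) exp (-c' L^b) ≤ L^(-A')` -/
theorem par_decay (C A A' c : ℝ) {a b c' : ℝ} (hab : a < b) (hb : 0 < b) (hc' : 0 < c') :
    ∀ᶠ L : ℝ in atTop,
      C * L ^ A * Real.exp (c * L ^ a) * Real.exp (-(c' * L ^ b)) ≤ L ^ (-A') := by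
  filter_upwards [par_exp_exp C (A + A') c hab hb hc', eventually_gt_atTop (0 : ℝ)] with L h h0
  rw [Real.exp_neg, Real.rpow_neg h0.le, mul_inv_le_iff₀ (Real.exp_pos _),
    le_inv_mul_iff₀ (Real.rpow_pos_of_pos h0 _)]
  rw [Real.rpow_add h0] at h
  linarith [h]

/-- `C L^A ≤ exp (c (log L)^2)` (the saving `exp (-c ka^2)` beats every power of `L`) -/
theorem par_rpow_exp_log_sq (C A : ℝ) {c : ℝ} (hc : 0 < c) :
    ∀ᶠ L : ℝ in atTop, C * L ^ A ≤ Real.exp (c * Real.log L ^ 2) := by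
  filter_upwards [par_mul_rpow_le_exp C A, par_const_log ((|A| + 1) / c),
    eventually_ge_atTop (1 : ℝ)] with L h1 h2 h3
  refine h1.trans (Real.exp_le_exp.2 ?_)
  have hl : 0 ≤ Real.log L := Real.log_nonneg h3
  rw [div_le_iff₀ hc] at h2
  nlinarith [mul_le_mul_of_nonneg_right h2 hl]

/-- decay form of `par_rpow_exp_log_sq` -/
theorem par_decay_log_sq (C A A' : ℝ) {c : ℝ} (hc : 0 < c) :
    ∀ᶠ L : ℝ in atTop, C * L ^ A * Real.exp (-(c * Real.log L ^ 2)) ≤ L ^ (-A') := by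
  filter_upwards [par_rpow_exp_log_sq C (A + A') hc, eventually_gt_atTop (0 : ℝ)] with L h h0
  rw [Real.exp_neg, Real.rpow_neg h0.le, mul_inv_le_iff₀ (Real.exp_pos _),
    le_inv_mul_iff₀ (Real.rpow_pos_of_pos h0 _)]
  rw [Real.rpow_add h0] at h
  linarith [h]

/-- `8^(3 ka) = L^(0.3 log 8)`, `ka = log L / 10` -/
theorem par_eight_rpow {L : ℝ} (h0 : 0 < L) (s : ℝ) :
    (8 : ℝ) ^ (s * Real.log L) = L ^ (s * Real.log 8) := by
  rw [Real.rpow_def_of_pos (by norm_num : (0 : ℝ) < 8), Real.rpow_def_of_pos h0]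
  congr 1; ring

theorem par_log_eight : Real.log 8 < 2.08 := by
  have : Real.log 8 = 3 * Real.log 2 := by
    rw [show (8 : ℝ) = 2 ^ 3 by norm_num, Real.log_pow]; norm_num
  rw [this]
  have := Real.log_two_lt_d9
  linarith

/-- for a natural number `K ≤ 3 (log L / 10) + j`: `8^K ≤ 8^j L^0.624` -/
theorem par_eight_pow {L : ℝ} (h1 : 1 ≤ L) {K j : ℕ} (hK : (K : ℝ) ≤ 3 * (Real.log L / 10) + j) :
    (8 : ℝ) ^ K ≤ 8 ^ j * L ^ (0.624 : ℝ) := by
  have h0 : 0 < L := by linarith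
  calc (8 : ℝ) ^ K = (8 : ℝ) ^ (K : ℝ) := (Real.rpow_natCast _ _).symm
    _ ≤ (8 : ℝ) ^ ((j : ℝ) + 0.3 * Real.log L) :=
        Real.rpow_le_rpow_of_exponent_le (by norm_num) (by linarith)
    _ = 8 ^ j * L ^ (0.3 * Real.log 8) := by
        rw [Real.rpow_add (by norm_num), Real.rpow_natCast, par_eight_rpow h0]
    _ ≤ 8 ^ j * L ^ (0.624 : ℝ) := by
        refine mul_le_mul_of_nonneg_left (Real.rpow_le_rpow_of_exponent_le h1 ?_) (by positivity)
        have := par_log_eight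
        linarith

end Pool.Agent.H84D
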