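import Pool.Agent.H84D.Defs
import Pool.Agent.H84D.Par

set_option autoImplicit false

/-! Row ASM: the block estimate from the statements of the other rows. -/

namespace Pool.Agent.H84D

open Finset Filter Pool.Agent.MP_a96b63_al

lemma block_TT_split (c X : ℕ) (D : Fm) {G : Finset (ℕ × ℕ)} (hG : G ⊆ D.F) (φ : ℤ → ℝ) :
    TT c X D D.F φ = TT c X D (D.F \ G) φ + TT c X D G φ := by
  simp only [TT]
  rw [← mul_add, sum_sdiff hG]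

lemma block_TT_add (c X : ℕ) (D : Fm) (G : Finset (ℕ × ℕ)) (φ ψ : ℤ → ℝ) :
    TT c X D G (fun m => φ m + ψ m) = TT c X D G φ + TT c X D G ψ := by
  simp only [TT, mul_add, sum_add_distrib]

lemma block_TT_nonneg (c X : ℕ) (D : Fm) (G : Finset (ℕ × ℕ)) {φ : ℤ → ℝ} (h : ∀ m, 0 ≤ φ m) :
    0 ≤ TT c X D G φ := by
  refine mul_nonneg (by positivity) (sum_nonneg fun z _ => sum_nonneg fun q _ =>
    sum_nonneg fun p₁ _ => sum_nonneg fun p₂ _ => sum_nonneg fun p₃ _ => ?_)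
  have h1 := Real.log_natCast_nonneg p₁
  have h2 := Real.log_natCast_nonneg p₂
  have h3 := Real.log_natCast_nonneg p₃
  exact mul_nonneg (by positivity) (h _)

/-- `L^B / 2 ≤ Q ≤ L^B` -/
lemma block_QB {B X : ℕ} (hX : 1 ≤ LL X) : LL X ^ B ≤ 2 * QB B X ∧ (QB B X : ℝ) ≤ LL X ^ B := by
  have h1 : 1 ≤ LL X ^ B := one_le_pow₀ hX
  refine ⟨?_, Nat.floor_le (by linarith)⟩
  have h2 : LL X ^ B < (QB B X : ℝ) + 1 := Nat.lt_floor_add_one _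
  have h3 : (1 : ℝ) ≤ QB B X := by exact_mod_cast (Nat.one_le_floor_iff _).2 h1
  linarith

lemma block_hW_pos (B : ℕ) : ∀ᶠ X : ℕ in atTop, 0 < hW B X := by
  filter_upwards [par_nat (eventually_ge_atTop (1 : ℝ)),
    par_nat (par_rpow_exp 1 B (b := 3 / 20) (c' := 1) (by norm_num) one_pos)] with X hX h
  have h1 : 1 ≤ LL X ^ B := one_le_pow₀ hX
  refine Nat.div_pos (Nat.floor_le_floor ?_) ((Nat.one_le_floor_iff _).2 h1)
  rw [one_mul, one_mul, Real.rpow_natCast] at h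
  exact h

theorem block_of
    (fam : ∃ c : ℕ, 1 ≤ c ∧ ∀ a₀ B : ℕ, a₀ = 1 ∨ a₀ = 2 →
      ∀ᶠ X : ℕ in atTop, ∃ D : Fm, Fam c B a₀ X D)
    (mass : ∀ c B a₀ : ℕ, ∀ᶠ X : ℕ in atTop, ∀ D : Fm, Fam c B a₀ X D → ∀ G ⊆ D.F,
      ∀ (φ : ℤ → ℝ) (M : ℝ), (∀ m, |φ m| ≤ M) →
        |TT c X D G φ| * #D.F ≤ 10 ^ 6 * c * X * M * #G)
    (good_card : ∀ c B a₀ : ℕ, ∀ᶠ X : ℕ in atTop, ∀ D : Fm, Fam c B a₀ X D →
      (#(D.F \ good D (QB B X)) : ℝ) * (QB B X : ℝ) ^ 3 ≤ 3 * LL X ^ c * #D.F)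
    (cv_le : ∀ {Q h : ℕ}, 0 < h → ∀ (S : Finset ℤ) (m : ℤ), |cv Q h S m| ≤ (Q : ℝ) ^ 2)
    (dirty : ∀ c B a₀ : ℕ, ∀ᶠ X : ℕ in atTop, ∀ D : Fm, Fam c B a₀ X D →
      ∀ S : Finset ℤ, (∀ k : ℕ, (k : ℤ) ∈ S → ¬ V2 k) → TT c X D D.F (ind S) ≤ X / LL X)
    (minor : ∀ c : ℕ, ∃ B₀ : ℕ, ∀ B a₀ : ℕ, B₀ ≤ B → ∀ᶠ X : ℕ in atTop, ∀ D : Fm,
      Fam c B a₀ X D → ∀ S ⊆ Ioc (X : ℤ) (2 * X),
        |TT c X D (good D (QB B X)) (gg (QB B X) (hW B X) S)| ≤ X / LL X)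
    (major : ∀ c B a₀ : ℕ, 1 ≤ c → ∀ᶠ X : ℕ in atTop, ∀ D : Fm, Fam c B a₀ X D →
      ∀ S ⊆ Ioc (X : ℤ) (2 * X),
        |TT c X D D.F (cv (QB B X) (hW B X) S) - ∑ k ∈ S, SS D (QB B X) k| ≤ X / LL X)
    (series : ∀ (c : ℕ) {δ : ℝ}, 0 < δ → ∃ η : ℝ, 0 < η ∧ ∀ B a₀ : ℕ, 1 ≤ B →
      a₀ = 1 ∨ a₀ = 2 → ∀ᶠ X : ℕ in atTop, ∀ D : Fm, Fam c B a₀ X D → ∀ S ⊆ Ioc (X : ℤ) (2 * X),
        (∀ k ∈ S, k % 2 = 1 ∧ k % 3 ≠ a₀) → δ * X ≤ #S → η * X ≤ ∑ k ∈ S, SS D (QB B X) k)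
    {δ : ℝ} (hδ : 0 < δ) {a₀ : ℕ} (ha : a₀ = 1 ∨ a₀ = 2) : ∀ᶠ X : ℕ in atTop,
    ({k : ℕ | X < k ∧ k ≤ 2 * X ∧ k % 2 = 1 ∧ k % 3 ≠ a₀ ∧ ¬ V2 k}.ncard : ℝ) ≤ δ * X := by
  classical
  obtain ⟨c, hc, hfam⟩ := fam
  obtain ⟨η, hη, hser⟩ := series c hδ
  obtain ⟨B₀, hmin⟩ := minor c
  set B := max B₀ (c + 1) with hB
  have hB1 : c + 1 ≤ B := le_max_right _ _
  filter_upwards [hfam a₀ B ha, mass c B a₀, good_card c B a₀, dirty c B a₀,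
    hmin B a₀ (le_max_left _ _), major c B a₀ hc, hser B a₀ (by omega) ha, block_hW_pos B,
    par_nat (eventually_ge_atTop (1 : ℝ)),
    par_nat (eventually_gt_atTop ((3 + 6 * 10 ^ 6 * (c : ℝ)) / η)), eventually_gt_atTop 0]
    with X hD hmass hgood hdirty hminor hmajor hseries hh hL1 hL2 hX0
  obtain ⟨D, hD⟩ := hD
  by_contra hcon
  rw [not_le] at hcon
  set T : Finset ℕ := (Ioc X (2 * X)).filter fun k => k % 2 = 1 ∧ k % 3 ≠ a₀ ∧ ¬ V2 k with hT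
  have hTs : {k : ℕ | X < k ∧ k ≤ 2 * X ∧ k % 2 = 1 ∧ k % 3 ≠ a₀ ∧ ¬ V2 k} = (T : Set ℕ) := by
    ext k
    simp only [hT, Set.mem_ofPred_eq, coe_filter, mem_Ioc, and_assoc]
  rw [hTs, Set.ncard_coe_finset] at hcon
  set S : Finset ℤ := T.image fun k : ℕ => (k : ℤ) with hS
  have hcard : #S = #T := card_image_of_injective _ Nat.cast_injective
  have hmem : ∀ m ∈ S, ∃ k ∈ T, (k : ℤ) = m := fun m hm => mem_image.1 hm
  have hsub : S ⊆ Ioc (X : ℤ) (2 * X) := by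
    intro m hm
    obtain ⟨k, hk, rfl⟩ := hmem m hm
    have := mem_Ioc.1 (mem_filter.1 hk).1
    rw [mem_Ioc]
    omega
  have hcl : ∀ k ∈ S, k % 2 = 1 ∧ k % 3 ≠ a₀ := by
    intro m hm
    obtain ⟨k, hk, rfl⟩ := hmem m hm
    have := (mem_filter.1 hk).2
    omega
  have hbad : ∀ k : ℕ, (k : ℤ) ∈ S → ¬ V2 k := by
    intro k hk
    obtain ⟨k', hk', e⟩ := hmem _ hk
    obtain rfl : k' = k := by exact_mod_cast e
    exact (mem_filter.1 hk').2.2.2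
  set Q := QB B X with hQ
  set h := hW B X with hh'
  have hL1' : 1 ≤ LL X := hL1
  have hL0 : 0 < LL X := by linarith
  have e1 := hseries D hD S hsub hcl (by rw [hcard]; exact hcon.le)
  have e2 := (abs_le.1 (hmajor D hD S hsub)).1
  have e3 := (abs_le.1 (hminor D hD S hsub)).1
  have e4 := hdirty D hD S hbad
  have hgs : good D Q ⊆ D.F := filter_subset _ _
  have e5 := hmass D hD (D.F \ good D Q) sdiff_subset (cv Q h S) _ (cv_le hh S)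
  have e6 := hgood D hD
  have e7 := block_TT_split c X D hgs (ind S)
  have e8 := block_TT_split c X D hgs (cv Q h S)
  have e9 : 0 ≤ TT c X D (D.F \ good D Q) (ind S) :=
    block_TT_nonneg _ _ _ _ fun m => by unfold ind; split_ifs <;> norm_num
  have e10 : TT c X D (good D Q) (ind S) =
      TT c X D (good D Q) (gg Q h S) + TT c X D (good D Q) (cv Q h S) := by
    rw [← block_TT_add]
    congr 1
    funext m
    simp [gg]
  have hN : (0 : ℝ) < #D.F := by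
    refine lt_of_lt_of_le ?_ hD.many
    have := hD.ypos
    positivity
  obtain ⟨hQ1, -⟩ := block_QB (B := B) hL1'
  have hLc : LL X ^ c * LL X ≤ 2 * Q := by
    rw [← pow_succ]
    exact (pow_le_pow_right₀ hL1' hB1).trans hQ1
  have hLc0 : 0 < LL X ^ c := pow_pos hL0 c
  have hQ0 : (0 : ℝ) < Q := by nlinarith [mul_pos hLc0 hL0]
  have hXr : (0 : ℝ) < X := Nat.cast_pos.2 hX0
  have hc0 : (0 : ℝ) ≤ c := Nat.cast_nonneg c
  -- the contribution of the large fibres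
  have e11 : |TT c X D (D.F \ good D Q) (cv Q h S)| ≤ 6 * 10 ^ 6 * c * (X / LL X) := by
    set t := |TT c X D (D.F \ good D Q) (cv Q h S)| with ht
    have a1 : t * #D.F * Q ≤ 10 ^ 6 * c * X * (3 * LL X ^ c * #D.F) := by
      calc t * #D.F * Q ≤ 10 ^ 6 * c * X * (Q : ℝ) ^ 2 * #(D.F \ good D Q) * Q :=
            mul_le_mul_of_nonneg_right e5 hQ0.le
        _ = 10 ^ 6 * c * X * ((#(D.F \ good D Q) : ℝ) * (Q : ℝ) ^ 3) := by ring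
        _ ≤ _ := mul_le_mul_of_nonneg_left e6 (by positivity)
    have a2 : t * Q ≤ 3 * 10 ^ 6 * c * X * LL X ^ c := by
      refine le_of_mul_le_mul_right ?_ hN
      nlinarith
    have ht0 : 0 ≤ t := abs_nonneg _
    have a3 : t * (LL X ^ c * LL X) ≤ 6 * 10 ^ 6 * c * X * LL X ^ c := by
      nlinarith [mul_le_mul_of_nonneg_left hLc ht0]
    rw [← mul_div_assoc, le_div_iff₀ hL0]
    refine le_of_mul_le_mul_right ?_ hLc0
    nlinarith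
  have e12 := (abs_le.1 e11).2
  have e13 : (3 + 6 * 10 ^ 6 * (c : ℝ)) * (X / LL X) < η * X := by
    have hL2' : (3 + 6 * 10 ^ 6 * (c : ℝ)) / η < LL X := hL2
    rw [div_lt_iff₀ hη] at hL2'
    rw [← mul_div_assoc, div_lt_iff₀ hL0]
    nlinarith [mul_lt_mul_of_pos_right hL2' hXr]
  nlinarith

end Pool.Agent.H84D
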