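import Pool.Agent.H84D.Defs

set_option autoImplicit false

/-! Cauchy-Schwarz over `(q, a, n)` at the head of the minor arc estimate. -/

namespace Pool.Agent.H84D

open Finset Filter Pool.Agent.MP_a96b63_al

/-- `18 Y₁ exp (L ^ (1/8)) ≤ X` for large `X` -/
theorem cs_size : ∀ᶠ X : ℕ in atTop, 18 * (Y1 X : ℝ) * EE X (1 / 8) ≤ X := by
  have hL : Tendsto (fun X : ℕ => LL X) atTop atTop :=
    Real.tendsto_log_atTop.comp tendsto_natCast_atTop_atTop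
  filter_upwards [hL.eventually_ge_atTop 100, eventually_ge_atTop 1] with X h100 hX1
  have hX : (0 : ℝ) < X := by exact_mod_cast hX1
  have h1 : (1 : ℝ) ≤ LL X := by linarith
  have hs : ∀ θ : ℝ, θ ≤ 1 / 2 → LL X ^ θ ≤ LL X / 10 := by
    intro θ hθ
    have a1 : LL X ^ θ ≤ LL X ^ (1 / 2 : ℝ) := Real.rpow_le_rpow_of_exponent_le h1 hθ
    have a2 : LL X ^ (1 / 2 : ℝ) = Real.sqrt (LL X) := (Real.sqrt_eq_rpow _).symm
    have a3 : Real.sqrt (LL X) ≤ LL X / 10 := by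
      rw [Real.sqrt_le_left (by linarith)]
      nlinarith
    linarith
  have hY : (Y1 X : ℝ) ≤ Real.exp (LL X / 10) :=
    (Nat.floor_le (Real.exp_pos _).le).trans (Real.exp_le_exp.2 (hs _ (by norm_num)))
  have hE : EE X (1 / 8) ≤ Real.exp (LL X / 10) := Real.exp_le_exp.2 (hs _ (by norm_num))
  have h18 : (18 : ℝ) ≤ Real.exp (8 * LL X / 10) := by
    have := Real.add_one_le_exp (8 * LL X / 10)
    linarith
  have hE0 : 0 ≤ EE X (1 / 8) := (Real.exp_pos _).le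
  calc 18 * (Y1 X : ℝ) * EE X (1 / 8)
      ≤ Real.exp (8 * LL X / 10) * Real.exp (LL X / 10) * Real.exp (LL X / 10) := by
        gcongr
    _ = Real.exp (LL X) := by rw [← Real.exp_add, ← Real.exp_add]; congr 1; ring
    _ = X := Real.exp_log hX

/-- the products `(p₁ + 2) (p₂ + 2) (p₃ + 2)` lie below this bound -/
noncomputable def csI (c X : ℕ) (D : Fm) : Finset ℕ :=
  range ((2 * P1 X + 2) * (2 * P2 X + 2) * (N4 c X D + 2) + 1)

/-- regrouping of the triple sum by the product -/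
theorem cs_regroup (c X : ℕ) (D : Fm) (x : ℕ) (Φ : ℕ → ℝ) :
    ∑ p₁ ∈ PP (P1 X) (2 * P1 X), ∑ p₂ ∈ PP (P2 X) (2 * P2 X), ∑ p₃ ∈ PP (N3 X D) (N4 c X D),
      Real.log p₁ / P1 X * (Real.log p₂ / P2 X) *
        ((x * (p₁ + 2) * (p₂ + 2) : ℕ) * Real.log p₃) * Φ ((p₁ + 2) * (p₂ + 2) * (p₃ + 2))
      = ∑ n ∈ csI c X D, (x : ℝ) * hh3 c X D n * Φ n := by
  unfold hh3
  simp_rw [Finset.mul_sum, Finset.sum_mul]
  rw [Finset.sum_comm (s := csI c X D)]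
  refine Finset.sum_congr rfl fun p₁ h₁ => ?_
  rw [Finset.sum_comm (s := csI c X D)]
  refine Finset.sum_congr rfl fun p₂ h₂ => ?_
  rw [Finset.sum_comm (s := csI c X D)]
  refine Finset.sum_congr rfl fun p₃ h₃ => ?_
  have hm : (p₁ + 2) * (p₂ + 2) * (p₃ + 2) ∈ csI c X D := by
    have a1 := (mem_Ioc.1 (mem_filter.1 h₁).1).2
    have a2 := (mem_Ioc.1 (mem_filter.1 h₂).1).2
    have a3 := (mem_Ioc.1 (mem_filter.1 h₃).1).2
    refine mem_range.2 (Nat.lt_succ_of_le ?_)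
    gcongr
  rw [Finset.sum_eq_single_of_mem _ hm]
  · rw [if_pos rfl]
    push_cast
    ring
  · intro n _ hn
    rw [if_neg (fun h => hn h.symm)]
    ring

/-- the pairing as a sum over `(q, a, n)` -/
theorem cs_TT (c X : ℕ) (D : Fm) (G : Finset (ℕ × ℕ)) (g : ℤ → ℝ) :
    TT c X D G g = 1 / ((#D.F : ℝ) * #D.QQ) * ∑ q ∈ D.QQ, ∑ a ∈ G.image Prod.fst,
      ∑ n ∈ csI c X D, ((((q + 4) * a : ℕ) : ℝ) * hh3 c X D n) *
        GG G g q a (((q + 4) * a * n : ℕ) : ℤ) := by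
  unfold TT
  congr 1
  rw [Finset.sum_comm]
  refine Finset.sum_congr rfl fun q _ => ?_
  rw [← Finset.sum_fiberwise_of_maps_to (s := G) (t := G.image Prod.fst) (g := Prod.fst)
    (fun z hz => mem_image_of_mem _ hz)]
  refine Finset.sum_congr rfl fun a _ => ?_
  unfold GG fib
  simp_rw [Finset.mul_sum]
  rw [Finset.sum_comm (s := csI c X D)]
  refine Finset.sum_congr rfl fun z hz => ?_
  have hza : z.1 = a := (mem_filter.1 hz).2
  rw [← cs_regroup c X D ((q + 4) * a)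
    (fun n => g ((((q + 4) * a * n : ℕ) : ℤ) + 8 * (q + 2) * z.2))]
  refine Finset.sum_congr rfl fun p₁ _ => Finset.sum_congr rfl fun p₂ _ =>
    Finset.sum_congr rfl fun p₃ _ => ?_
  have : ((val z q p₁ p₂ p₃ : ℕ) : ℤ)
      = (((q + 4) * a * ((p₁ + 2) * (p₂ + 2) * (p₃ + 2)) : ℕ) : ℤ) + 8 * (q + 2) * z.2 := by
    unfold val
    rw [hza]
    push_cast
    ring
  rw [this, hza]

/-- Cauchy-Schwarz for a triple sum -/
theorem cs_three {α β γ : Type*} (s : Finset α) (t : Finset β) (u : Finset γ)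
    (f g : α → β → γ → ℝ) :
    (∑ a ∈ s, ∑ b ∈ t, ∑ c ∈ u, f a b c * g a b c) ^ 2 ≤
      (∑ a ∈ s, ∑ b ∈ t, ∑ c ∈ u, f a b c ^ 2) * ∑ a ∈ s, ∑ b ∈ t, ∑ c ∈ u, g a b c ^ 2 := by
  have := Finset.sum_mul_sq_le_sq_mul_sq (s ×ˢ (t ×ˢ u)) (fun w => f w.1 w.2.1 w.2.2)
    (fun w => g w.1 w.2.1 w.2.2)
  simpa only [Finset.sum_product] using this

/-- ROW CS from ROW HH -/
theorem cs_of (c B a₀ : ℕ)
    (hH : ∀ᶠ X : ℕ in atTop, ∀ D : Fm, Fam c B a₀ X D → ∀ I : Finset ℕ,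
      (∑ n ∈ I, hh3 c X D n ^ 2) * (Y1 X * D.Y2) ≤ LL X ^ 14 * X) :
    ∀ᶠ X : ℕ in atTop, ∀ D : Fm, Fam c B a₀ X D → ∀ G ⊆ D.F,
    ∀ g : ℤ → ℝ, (∀ m, g m ≠ 0 → (X : ℤ) < 2 * m ∧ m ≤ 5 * X / 2) →
      TT c X D G g ^ 2 ≤ LL X ^ 14 * X *
        (c0 X D * SF G D.QQ (Icc (Y1 X * D.Y2 : ℤ) (3 * X)) g) := by
  filter_upwards [hH, cs_size] with X hH hsz D hD G hG g hg
  have hH := hH D hD (csI c X D)
  have h18 : 18 * (Y1 X * D.Y2) ≤ X := by
    have : (18 : ℝ) * (Y1 X * D.Y2) ≤ X := by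
      refine le_trans ?_ hsz
      rw [mul_assoc]
      gcongr
      exact hD.yle
    exact_mod_cast this
  have ha : ∀ a ∈ G.image Prod.fst, 0 < a ∧ a ≤ D.Y2 := by
    intro a ha
    obtain ⟨z, hz, rfl⟩ := mem_image.1 ha
    obtain ⟨h1, h2, h3, -⟩ := hD.size z (hG hz)
    exact ⟨by omega, h3⟩
  have hcard : #(G.image Prod.fst) ≤ D.Y2 := by
    have : G.image Prod.fst ⊆ Icc 1 D.Y2 := fun a h => mem_Icc.2 ⟨(ha a h).1, (ha a h).2⟩
    simpa using card_le_card this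
  -- first factor
  have hA : (∑ q ∈ D.QQ, ∑ a ∈ G.image Prod.fst, ∑ n ∈ csI c X D,
      ((((q + 4) * a : ℕ) : ℝ) * hh3 c X D n) ^ 2)
      ≤ #D.QQ * (D.Y2 * ((Y1 X * D.Y2) * (LL X ^ 14 * X))) := by
    have step : ∀ q ∈ D.QQ, ∀ a ∈ G.image Prod.fst, ∑ n ∈ csI c X D,
        ((((q + 4) * a : ℕ) : ℝ) * hh3 c X D n) ^ 2 ≤ (Y1 X * D.Y2) * (LL X ^ 14 * X) := by
      intro q hq a haa
      have hx : (((q + 4) * a : ℕ) : ℝ) ≤ Y1 X * D.Y2 := by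
        exact_mod_cast Nat.mul_le_mul (hD.qpr q hq).2.2.1 (ha a haa).2
      simp_rw [mul_pow]
      rw [← Finset.mul_sum]
      have h0 : 0 ≤ ∑ n ∈ csI c X D, hh3 c X D n ^ 2 := sum_nonneg fun _ _ => sq_nonneg _
      calc (((q + 4) * a : ℕ) : ℝ) ^ 2 * ∑ n ∈ csI c X D, hh3 c X D n ^ 2
          ≤ ((Y1 X : ℝ) * D.Y2) ^ 2 * ∑ n ∈ csI c X D, hh3 c X D n ^ 2 := by gcongr
        _ = (Y1 X * D.Y2) * ((∑ n ∈ csI c X D, hh3 c X D n ^ 2) * (Y1 X * D.Y2)) := by ring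
        _ ≤ _ := by gcongr
    have hpos : (0 : ℝ) ≤ (Y1 X * D.Y2) * (LL X ^ 14 * X) := by positivity
    calc _ ≤ ∑ _q ∈ D.QQ, (D.Y2 : ℝ) * ((Y1 X * D.Y2) * (LL X ^ 14 * X)) := by
          refine sum_le_sum fun q hq => ?_
          refine (sum_le_sum fun a haa => step q hq a haa).trans ?_
          rw [sum_const, nsmul_eq_mul]
          gcongr
      _ = _ := by rw [sum_const, nsmul_eq_mul]
  -- second factor
  have hB : (∑ q ∈ D.QQ, ∑ a ∈ G.image Prod.fst, ∑ n ∈ csI c X D,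
      GG G g q a (((q + 4) * a * n : ℕ) : ℤ) ^ 2)
      ≤ SF G D.QQ (Icc (Y1 X * D.Y2 : ℤ) (3 * X)) g := by
    unfold SF
    refine sum_le_sum fun q hq => sum_le_sum fun a haa => ?_
    have hx : 0 < (q + 4) * a := Nat.mul_pos (by omega) (ha a haa).1
    rw [← Finset.sum_filter, ← Finset.sum_filter_ne_zero (csI c X D)]
    have hinj : Set.InjOn (fun n : ℕ => (((q + 4) * a * n : ℕ) : ℤ))
        ↑((csI c X D).filter fun n => GG G g q a (((q + 4) * a * n : ℕ) : ℤ) ^ 2 ≠ 0) := by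
      intro n _ n' _ h
      have h' : (q + 4) * a * n = (q + 4) * a * n' := Int.ofNat_inj.1 h
      exact Nat.eq_of_mul_eq_mul_left hx h'
    rw [← Finset.sum_image (f := fun m : ℤ => GG G g q a m ^ 2) hinj]
    refine sum_le_sum_of_subset_of_nonneg ?_ fun _ _ _ => sq_nonneg _
    intro m hm
    obtain ⟨n, hn, rfl⟩ := mem_image.1 hm
    have hne : GG G g q a (((q + 4) * a * n : ℕ) : ℤ) ≠ 0 := fun h => (mem_filter.1 hn).2 (by
      rw [h]; ring)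
    obtain ⟨z, hz, hgz⟩ := Finset.exists_ne_zero_of_sum_ne_zero hne
    obtain ⟨h1, h2⟩ := hg _ hgz
    obtain ⟨hzG, hza⟩ := mem_filter.1 hz
    obtain ⟨s1, s2, s3, -⟩ := hD.size z (hG hzG)
    have hq4 := (hD.qpr q hq).2.2.1
    have hsh : (q + 2) * z.2 ≤ Y1 X * D.Y2 := Nat.mul_le_mul (by omega) (by omega)
    have hsh' : ((q : ℤ) + 2) * z.2 ≤ Y1 X * D.Y2 := by exact_mod_cast hsh
    have hsh0 : (0 : ℤ) ≤ ((q : ℤ) + 2) * z.2 := by positivity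
    have h18' : 18 * ((Y1 X : ℤ) * D.Y2) ≤ X := by exact_mod_cast h18
    refine mem_filter.2 ⟨mem_Icc.2 ⟨?_, ?_⟩, ?_⟩
    · nlinarith
    · have : (5 * (X : ℤ)) / 2 ≤ 3 * X := by omega
      nlinarith
    · exact ⟨n, by push_cast; ring⟩
  have hSF : 0 ≤ SF G D.QQ (Icc (Y1 X * D.Y2 : ℤ) (3 * X)) g :=
    le_trans (sum_nonneg fun _ _ => sum_nonneg fun _ _ => sum_nonneg fun _ _ => sq_nonneg _) hB
  rw [cs_TT, mul_pow]
  have hcs := cs_three D.QQ (G.image Prod.fst) (csI c X D)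
    (fun q a n => (((q + 4) * a : ℕ) : ℝ) * hh3 c X D n)
    (fun q a n => GG G g q a (((q + 4) * a * n : ℕ) : ℤ))
  calc _ ≤ (1 / ((#D.F : ℝ) * #D.QQ)) ^ 2 * ((#D.QQ * (D.Y2 * ((Y1 X * D.Y2) * (LL X ^ 14 * X)))) *
        SF G D.QQ (Icc (Y1 X * D.Y2 : ℤ) (3 * X)) g) := by
        refine mul_le_mul_of_nonneg_left (hcs.trans ?_) (sq_nonneg _)
        exact mul_le_mul hA hB
          (sum_nonneg fun _ _ => sum_nonneg fun _ _ => sum_nonneg fun _ _ => sq_nonneg _)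
          (by positivity)
    _ = _ := by
        unfold c0
        rcases eq_or_ne (#D.QQ : ℝ) 0 with h | h
        · simp [h]
        · rcases eq_or_ne (#D.F : ℝ) 0 with h' | h'
          · simp [h']
          · field_simp

end Pool.Agent.H84D
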