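import Pool.Agent.MP_a96b63_al.Ladder

set_option autoImplicit false

/-! Definitions for the density one theorem. -/

namespace Pool.Agent.H84D

open Finset Pool.Agent.MP_a96b63_al

/-- all numbers `2 ^ j * k` are group counts of squarefree orders -/
def V2 (k : ℕ) : Prop := ∀ j : ℕ, ∃ n, Squarefree n ∧ IsGnu n (2 ^ j * k)

/-- `L = log X` -/
noncomputable def LL (X : ℕ) : ℝ := Real.log X

/-- `exp (L ^ θ)` -/
noncomputable def EE (X : ℕ) (θ : ℝ) : ℝ := Real.exp (LL X ^ θ)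

/-- size of the prime `q` -/
noncomputable def Y1 (X : ℕ) : ℕ := ⌊EE X (3 / 20)⌋₊

/-- the ratio of the two rungs -/
noncomputable def ka (X : ℕ) : ℝ := Real.log (LL X) / 10

/-- size of the prime `p₁` -/
noncomputable def P1 (X : ℕ) : ℕ := ⌊Real.exp (LL X / ka X)⌋₊

/-- size of the prime `p₂` -/
noncomputable def P2 (X : ℕ) : ℕ := ⌊Real.exp (LL X / ka X ^ 2)⌋₊

/-- the level `Q = L ^ B` of the major arcs -/
noncomputable def QB (B X : ℕ) : ℕ := ⌊LL X ^ B⌋₊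

/-- half width `h = Y₁ / Q` of the window -/
noncomputable def hW (B X : ℕ) : ℕ := Y1 X / QB B X

/-- primes in `(a, b]` -/
def PP (a b : ℕ) : Finset ℕ := (Ioc a b).filter Nat.Prime

/-- a family of pairs `(a, b)`, a set of primes `q` and the size of `a` -/
structure Fm where
  F : Finset (ℕ × ℕ)
  QQ : Finset ℕ
  Y2 : ℕ

/-- lower end of the range of `p₃` -/
noncomputable def N3 (X : ℕ) (D : Fm) : ℕ := X / (20 * Y1 X * D.Y2 * P1 X * P2 X)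

/-- upper end of the range of `p₃` -/
noncomputable def N4 (c X : ℕ) (D : Fm) : ℕ := 20000 * c * N3 X D

/-- the group count -/
def val (z : ℕ × ℕ) (q p₁ p₂ p₃ : ℕ) : ℕ :=
  (q + 4) * z.1 * (p₁ + 2) * (p₂ + 2) * (p₃ + 2) + 8 * (q + 2) * z.2

/-- the weighted sum of a test function over the representations with `(a, b) ∈ G` -/
noncomputable def TT (c X : ℕ) (D : Fm) (G : Finset (ℕ × ℕ)) (φ : ℤ → ℝ) : ℝ :=
  1 / ((#D.F : ℝ) * #D.QQ) * ∑ z ∈ G, ∑ q ∈ D.QQ, ∑ p₁ ∈ PP (P1 X) (2 * P1 X),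
    ∑ p₂ ∈ PP (P2 X) (2 * P2 X), ∑ p₃ ∈ PP (N3 X D) (N4 c X D),
      Real.log p₁ / P1 X * (Real.log p₂ / P2 X) *
        (((q + 4) * z.1 * (p₁ + 2) * (p₂ + 2) : ℕ) * Real.log p₃) * φ (val z q p₁ p₂ p₃)

/-- the weight of `n = (p₁ + 2) (p₂ + 2) (p₃ + 2)` -/
noncomputable def hh3 (c X : ℕ) (D : Fm) (n : ℕ) : ℝ :=
  ∑ p₁ ∈ PP (P1 X) (2 * P1 X), ∑ p₂ ∈ PP (P2 X) (2 * P2 X), ∑ p₃ ∈ PP (N3 X D) (N4 c X D),
    if (p₁ + 2) * (p₂ + 2) * (p₃ + 2) = n then Real.log p₁ / P1 X * (Real.log p₂ / P2 X) *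
      (((p₁ + 2) * (p₂ + 2) : ℕ) * Real.log p₃) else 0

/-- the tent of total mass one -/
noncomputable def psi (h : ℕ) (j : ℤ) : ℝ := max 0 ((h : ℝ) - |(j : ℝ)|) / (h : ℝ) ^ 2

/-- reduced residues -/
def un (d : ℕ) : Finset ℕ := (range d).filter fun c => c.Coprime d

/-- Ramanujan sums -/
noncomputable def ram (d : ℕ) (j : ℤ) : ℝ := ∑ c ∈ un d, Real.cos (2 * Real.pi * (c * j / d))

/-- the major arc kernel -/
noncomputable def KK (Q h : ℕ) (j : ℤ) : ℝ := psi h j * ∑ d ∈ Icc 1 Q, ram d j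

/-- indicator function -/
noncomputable def ind (S : Finset ℤ) (m : ℤ) : ℝ := if m ∈ S then 1 else 0

/-- major part of an indicator function -/
noncomputable def cv (Q h : ℕ) (S : Finset ℤ) (m : ℤ) : ℝ := ∑ k ∈ S, KK Q h (m - k)

/-- minor part of an indicator function -/
noncomputable def gg (Q h : ℕ) (S : Finset ℤ) (m : ℤ) : ℝ := ind S m - cv Q h S m

/-- Fourier transform of a function on a finite set of integers -/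
noncomputable def ft (I : Finset ℤ) (g : ℤ → ℝ) (θ : ℝ) : ℂ := 
  ∑ k ∈ I, (g k : ℂ) * Complex.exp (-(2 * Real.pi * Complex.I * k * θ))

/-- one term of the singular series -/
noncomputable def sd (D : Fm) (d : ℕ) (k : ℤ) : ℝ :=
  1 / ((#D.F : ℝ) * #D.QQ) * ∑ z ∈ D.F, ∑ q ∈ D.QQ, 1 / (d.totient : ℝ) ^ 3 *
    ∑ c₁ ∈ un d, ∑ c₂ ∈ un d, ∑ c₃ ∈ un d, ram d (k - val z q c₁ c₂ c₃)

/-- the singular series -/
noncomputable def SS (D : Fm) (Q : ℕ) (k : ℤ) : ℝ := ∑ d ∈ Icc 1 Q, sd D d k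

/-- the fibre above `a` -/
def fib (G : Finset (ℕ × ℕ)) (a : ℕ) : Finset (ℕ × ℕ) := G.filter fun z => z.1 = a

/-- pairs in one fibre with a divisibility condition -/
def Xi (G : Finset (ℕ × ℕ)) (d : ℕ) : ℕ :=
  #((G ×ˢ G).filter fun w => w.1.1 = w.2.1 ∧ w.1.2 ≠ w.2.2 ∧
    (d : ℤ) ∣ 8 * w.1.1 * ((w.1.2 : ℤ) - w.2.2))

/-- the pairs in small fibres -/
def good (D : Fm) (Q : ℕ) : Finset (ℕ × ℕ) :=
  D.F.filter fun z => #(fib D.F z.1) * D.Y2 ≤ Q ^ 3 * #D.F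

/-- the properties of the family -/
structure Fam (c B a₀ X : ℕ) (D : Fm) : Prop where
  cop : ∀ z ∈ D.F, z.1.Coprime (2 * z.2)
  size : ∀ z ∈ D.F, 0 < z.2 ∧ z.2 ≤ z.1 ∧ z.1 ≤ D.Y2 ∧ D.Y2 ≤ c * z.1
  md : ∀ z ∈ D.F, z.1 % 3 = a₀
  ra : ∀ z ∈ D.F, ∀ p : ℕ, p.Prime → p ∣ z.1 → EE X (11 / 100) < p
  rb : ∀ z ∈ D.F, ∀ p : ℕ, p.Prime → p ∣ z.2 → p = 2 ∨ EE X (11 / 100) < p
  om : ∀ z ∈ D.F, ArithmeticFunction.cardFactors z.1 ≤ c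
  ypos : 0 < D.Y2
  yle : (D.Y2 : ℝ) ≤ EE X (1 / 8)
  many : (D.Y2 : ℝ) * Real.exp (LL X ^ (1 / 10 : ℝ) / 10) ≤ #D.F
  xi : ∀ d : ℕ, 0 < d → d ≤ 64 * D.Y2 ^ 2 →
    (Xi D.F d : ℝ) * D.Y2 ≤ LL X ^ c * (1 / d + 1 / EE X (9 / 100)) * (#D.F : ℝ) ^ 2
  lst : ∀ z ∈ D.F, ∃ u : List ℕ, Clean u ∧ st u = z ∧ (u.length : ℝ) ≤ LL X ∧
    ∀ y ∈ u, LL X ^ 5 ≤ y ∧ (y : ℝ) ≤ EE X (1 / 8)
  qpr : ∀ q ∈ D.QQ, q.Prime ∧ q % 6 = 1 ∧ q + 4 ≤ Y1 X ∧ Y1 X ≤ 60 * q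
  qr : ∀ q ∈ D.QQ, ∀ p : ℕ, p.Prime → p ∣ q + 4 → EE X (7 / 50) < p
  qom : ∀ q ∈ D.QQ, ArithmeticFunction.cardFactors (q + 4) ≤ c
  qmany : (Y1 X : ℝ) ≤ LL X * #D.QQ
  qap : ∀ e r : ℕ, Squarefree e → e.Coprime 6 → e ≤ QB B X →
    (#(D.QQ.filter fun q => q ≡ r [MOD e]) : ℝ) * e ≤ c * 3 ^ #e.primeFactors * #D.QQ

/-- the sum over a fibre -/
noncomputable def GG (G : Finset (ℕ × ℕ)) (g : ℤ → ℝ) (q a : ℕ) (m : ℤ) : ℝ :=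
  ∑ z ∈ fib G a, g (m + 8 * (q + 2) * z.2)

/-- the centred indicator -/
noncomputable def xi (q a : ℕ) (m : ℤ) : ℝ :=
  if (a : ℤ) ∣ m then (if (q + 4 : ℤ) ∣ m then 1 else 0) - 1 / (q + 4 : ℝ) else 0

/-- the full quadratic form -/
noncomputable def SF (G : Finset (ℕ × ℕ)) (QQ : Finset ℕ) (J : Finset ℤ) (g : ℤ → ℝ) : ℝ :=
  ∑ q ∈ QQ, ∑ a ∈ G.image Prod.fst, ∑ m ∈ J,
    if ((q + 4) * a : ℤ) ∣ m then GG G g q a m ^ 2 else 0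

/-- the averaged quadratic form -/
noncomputable def S2 (G : Finset (ℕ × ℕ)) (QQ : Finset ℕ) (J : Finset ℤ) (g : ℤ → ℝ) : ℝ :=
  ∑ q ∈ QQ, ∑ a ∈ G.image Prod.fst, ∑ m ∈ J,
    if (a : ℤ) ∣ m then GG G g q a m ^ 2 / (q + 4 : ℝ) else 0

/-- the centred quadratic form -/
noncomputable def DF (G : Finset (ℕ × ℕ)) (QQ : Finset ℕ) (J : Finset ℤ) (g : ℤ → ℝ) : ℝ :=
  ∑ q ∈ QQ, ∑ a ∈ G.image Prod.fst, ∑ m ∈ J, xi q a m * GG G g q a m ^ 2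

/-- the normalising constant of the quadratic forms -/
noncomputable def c0 (X : ℕ) (D : Fm) : ℝ :=
  (Y1 X : ℝ) * (D.Y2 : ℝ) ^ 2 / ((#D.QQ : ℝ) * (#D.F : ℝ) ^ 2)

end Pool.Agent.H84D
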