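import Pool.Agent.H84D.TrSum

/-!
The localised trace bound.
-/

open Finset

namespace Pool.Agent.H84D

variable {QQ : Finset ℕ} {F : Finset (ℕ × ℕ)} {Y1 Y2 z s : ℕ} {φ : ℝ}

/-- the contribution of the point `m` to the centred quadratic form -/
noncomputable def tT (W : Finset TStep) (g : ℤ → ℝ) (m : ℤ) : ℝ :=
  ∑ w ∈ W, txi (ta w) (tal w) m * (g (m + tsh w) * g (m + tsh' w))

theorem tker_symm (QQ : Finset ℕ) (F : Finset (ℕ × ℕ)) (H : ℕ) (u k j : ℤ) :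
    tker (tW QQ F) H u k j = tker (tW QQ F) H u j k := by
  have hm : ∀ w ∈ tW QQ F, ((w.1, w.2.2, w.2.1) : TStep) ∈ tW QQ F := by
    intro w hw
    obtain ⟨h1, h2, h3, h4⟩ := mem_tW hw
    rw [tW, Finset.mem_product, Finset.mem_filter, Finset.mem_product]
    exact ⟨h1, ⟨h3, h2⟩, h4.symm⟩
  unfold tker
  refine Finset.sum_nbij' (fun w => (w.1, w.2.2, w.2.1)) (fun w => (w.1, w.2.2, w.2.1)) hm hm
    (fun _ _ => rfl) (fun _ _ => rfl) fun w hw => ?_
  have e1 : tsh (w.1, w.2.2, w.2.1) = tsh' w := rfl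
  have e2 : tsh' (w.1, w.2.2, w.2.1) = tsh w := rfl
  have e3 : ta (w.1, w.2.2, w.2.1) = ta w := (mem_tW hw).2.2.2.symm
  have e4 : tal (w.1, w.2.2, w.2.1) = tal w := rfl
  simp only [tnx, tst, e1, e2, e3, e4]
  by_cases hj : j = k - tsh w + tsh' w
  · have e5 : j - tsh' w = k - tsh w := by rw [hj]; ring
    rw [if_pos hj, e5, if_pos (show k = k - tsh w + tsh w by ring)]
  · rw [if_neg hj, if_neg fun h => hj (by rw [h]; ring)]

theorem form_eq (h : TrHyp QQ F Y1 Y2 z s φ) (g : ℤ → ℝ) (u : ℤ) :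
    ∑ k ∈ Ico (0 : ℤ) (9 * ((Y1 * Y2 : ℕ) : ℤ)), ∑ j ∈ Ico (0 : ℤ) (9 * ((Y1 * Y2 : ℕ) : ℤ)),
        g (u + k) * tker (tW QQ F) (Y1 * Y2) u k j * g (u + j)
      = ∑ t ∈ range (Y1 * Y2), tT (tW QQ F) g (u + t) := by
  set H := Y1 * Y2 with hH
  set I := Ico (0 : ℤ) (9 * (H : ℤ)) with hI
  have e1 : ∀ k : ℤ, ∑ j ∈ I, g (u + k) * tker (tW QQ F) H u k j * g (u + j)
      = ∑ w ∈ tW QQ F, if 0 ≤ k - tsh w ∧ k - tsh w < H then
          txi (ta w) (tal w) (u + (k - tsh w)) * (g (u + k) * g (u + tnx k w)) else 0 := by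
    intro k
    simp only [tker, Finset.mul_sum, Finset.sum_mul]
    rw [Finset.sum_comm]
    refine Finset.sum_congr rfl fun w hw => ?_
    simp only [mul_ite, ite_mul, mul_zero, zero_mul, Finset.sum_ite_eq']
    by_cases ht : 0 ≤ k - tsh w ∧ k - tsh w < H
    · obtain ⟨_, _, b3, b4⟩ := tnx_mem h hw
      have : tnx k w ∈ I := by
        rw [hI, Finset.mem_Ico, tnx]
        constructor <;> linarith [ht.1, ht.2]
      rw [if_pos this, if_pos ht, tst, if_pos ht]; ring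
    · rw [if_neg ht, tst, if_neg ht]; simp
  simp only [e1, tT]
  rw [Finset.sum_comm, Finset.sum_comm (s := range H)]
  refine Finset.sum_congr rfl fun w hw => ?_
  obtain ⟨b1, b2, _, _⟩ := tnx_mem h hw
  rw [← Finset.sum_filter]
  symm
  refine Finset.sum_bij (fun t _ => (t : ℤ) + tsh w) ?_ ?_ ?_ ?_
  · intro t ht
    have ht' : (t : ℤ) < H := by exact_mod_cast Finset.mem_range.1 ht
    have ht0 : (0 : ℤ) ≤ t := Int.natCast_nonneg t
    rw [Finset.mem_filter, hI, Finset.mem_Ico]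
    refine ⟨⟨?_, ?_⟩, ?_, ?_⟩ <;> linarith
  · intro t _ t' _ he
    exact_mod_cast add_right_cancel he
  · intro k hk
    rw [Finset.mem_filter] at hk
    obtain ⟨t, ht⟩ := Int.eq_ofNat_of_zero_le hk.2.1
    refine ⟨t, Finset.mem_range.2 ?_, by linarith⟩
    have := hk.2.2
    rw [ht] at this
    exact_mod_cast this
  · intro t _
    rw [tnx, add_sub_cancel_right, add_assoc, add_assoc]

theorem lhs_eq (QQ : Finset ℕ) (F : Finset (ℕ × ℕ)) (g : ℤ → ℝ) (M : Finset ℤ) :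
    ∑ q ∈ QQ, ∑ a ∈ F.image Prod.fst, ∑ m ∈ M, txi a (q + 4) m *
        (∑ x ∈ F.filter (fun x => x.1 = a), g (m + 8 * ((q : ℤ) + 2) * (x.2 : ℤ))) ^ 2
      = ∑ m ∈ M, tT (tW QQ F) g m := by
  simp only [tT, tW]
  rw [Finset.sum_comm (s := M), Finset.sum_product]
  refine Finset.sum_congr rfl fun q _ => ?_
  rw [Finset.sum_filter, Finset.sum_product,
    ← Finset.sum_fiberwise_of_maps_to (s := F) (t := F.image Prod.fst) (g := Prod.fst)
      (fun x hx => Finset.mem_image_of_mem _ hx)]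
  refine Finset.sum_congr rfl fun a _ => ?_
  simp only [sq, Finset.sum_mul_sum]
  simp only [Finset.mul_sum]
  rw [Finset.sum_comm]
  refine Finset.sum_congr rfl fun x hx => ?_
  have hxa : x.1 = a := (Finset.mem_filter.1 hx).2
  rw [Finset.sum_comm, ← Finset.sum_filter]
  refine Finset.sum_congr (Finset.filter_congr fun y _ => by rw [hxa, eq_comm]) fun y _ => ?_
  refine Finset.sum_congr rfl fun m _ => ?_
  simp only [ta, tal, tsh, tsh', hxa]

theorem localise (T : ℤ → ℝ) (lo hi : ℤ) (hT : ∀ m, T m ≠ 0 → lo ≤ m ∧ m < hi) (M : Finset ℤ)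
    (hM : ∀ m, lo ≤ m → m < hi → m ∈ M) (c : ℤ) (len : ℕ) (h1 : c ≤ lo) (h2 : hi ≤ c + len) :
    ∑ i ∈ range len, T (c + i) = ∑ m ∈ M, T m := by
  have e1 : ∑ m ∈ Ico lo hi, T m = ∑ m ∈ M, T m :=
    Finset.sum_subset (fun m hm => hM m (Finset.mem_Ico.1 hm).1 (Finset.mem_Ico.1 hm).2)
      fun m _ hm => by_contra fun h => hm (Finset.mem_Ico.2 (hT m h))
  have e2 : ∑ m ∈ Ico lo hi, T m = ∑ m ∈ (range len).image (fun i : ℕ => c + (i : ℤ)), T m := by
    refine Finset.sum_subset (fun m hm => ?_)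
      fun m _ hm => by_contra fun h => hm (Finset.mem_Ico.2 (hT m h))
    rw [Finset.mem_Ico] at hm
    obtain ⟨t, ht⟩ := Int.eq_ofNat_of_zero_le (show 0 ≤ m - c by linarith [hm.1])
    exact Finset.mem_image.2 ⟨t, Finset.mem_range.2 (by omega), by omega⟩
  rw [← e1, e2, Finset.sum_image]
  intro i _ j _ he
  exact_mod_cast add_left_cancel he

theorem trace_bound (h : TrHyp QQ F Y1 Y2 z s φ) (r X : ℕ) (A : ℤ) (g : ℤ → ℝ) (G0 Hl η NF : ℝ)
    (M : Finset ℤ) (hr : 1 ≤ r) (hHl : 0 < Hl) (hNF0 : 0 < NF) (hNF : (F.card : ℝ) ≤ NF)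
    (hlow : ∀ q ∈ QQ, ∀ x ∈ F, Hl ≤ (x.1 : ℝ) * ((q : ℝ) + 4))
    (hg : ∀ k, |g k| ≤ G0) (hsupp : ∀ k, g k ≠ 0 → A ≤ k ∧ k < A + X)
    (hM : ∀ m : ℤ, A - 8 * (Y1 : ℤ) * Y2 ≤ m → m < A + X → m ∈ M)
    (hη0 : 0 < η) (hη1 : η ≤ 1)
    (h1 : ((2 * (s + 1) * r * s : ℕ) : ℝ) * (1 / (z : ℝ) + (Y2 : ℝ) / Y1)
        + 4 ^ (2 * (s + 1) * r * s) * ((Y2 : ℝ) / NF) ≤ η ^ (2 * (s + 1)))
    (h2 : 9 * ((Y1 : ℝ) * Y2) * η ^ (2 * (s + 1) * r) ≤ 1)
    (h3 : 18 * ((Y1 : ℝ) * Y2) * (((Y1 : ℝ) * Y2) ^ 2 / η) ^ (2 * (s + 1) * r) ≤ X) :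
    |∑ q ∈ QQ, ∑ a ∈ F.image Prod.fst, ∑ m ∈ M, txi a (q + 4) m *
        (∑ x ∈ F.filter (fun x => x.1 = a), g (m + 8 * ((q : ℤ) + 2) * (x.2 : ℤ))) ^ 2|
      ≤ 216 * η * (NF * φ * Y1 / Hl) * G0 ^ 2 * ((X : ℝ) + 9 * ((Y1 : ℝ) * Y2)) := by
  have hφ0 := tr_phi_nonneg h
  rw [lhs_eq]
  rcases (tW QQ F).eq_empty_or_nonempty with hW | ⟨w0, hw0⟩
  · simp only [tT, hW, Finset.sum_empty, Finset.sum_const_zero, abs_zero]
    positivity
  obtain ⟨m1, m2, _, _⟩ := mem_tW hw0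
  have hY1 : 0 < Y1 := by have := h.qle _ m1; omega
  have hY2 : 0 < Y2 := (h.apos _ m2).trans_le (h.ale _ m2)
  have hY1' : (0 : ℝ) < Y1 := by exact_mod_cast hY1
  have hY2' : (0 : ℝ) < Y2 := by exact_mod_cast hY2
  have hφ : 0 < φ := by
    refine lt_of_lt_of_le ?_ (h.fib w0.2.1.1)
    have : 0 < (F.filter fun x => x.1 = w0.2.1.1).card :=
      Finset.card_pos.2 ⟨w0.2.1, Finset.mem_filter.2 ⟨m2, rfl⟩⟩
    exact_mod_cast this
  have hHl2 : Hl ≤ (Y1 : ℝ) * Y2 := by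
    refine (hlow _ m1 _ m2).trans ?_
    have a1 : (w0.2.1.1 : ℝ) ≤ Y2 := by exact_mod_cast h.ale _ m2
    have a2 : (w0.1 : ℝ) + 4 ≤ Y1 := by exact_mod_cast h.qle _ m1
    rw [mul_comm (Y1 : ℝ)]
    gcongr
  have hmean := trace_mean h r NF (η ^ (2 * (s + 1))) Hl hNF0 hNF (by positivity)
    (pow_le_one₀ hη0.le hη1) hY1 hHl hlow h1 (A - 9 * ((Y1 * Y2 : ℕ) : ℤ)) (X + 9 * (Y1 * Y2))
  have hcard := tW_card h
  have hform := form_eq h g
  have hsh := fun w hw => tnx_mem (w := w) h hw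
  set W := tW QQ F with hWdef
  set n := 2 * (s + 1) * r with hn
  have hM' : ∀ m : ℤ, A - 8 * ((Y1 * Y2 : ℕ) : ℤ) ≤ m → m < A + X → m ∈ M :=
    fun m a1 a2 => hM m (by push_cast at a1; linarith) a2
  have hHr : ((Y1 * Y2 : ℕ) : ℝ) = (Y1 : ℝ) * Y2 := by push_cast; rfl
  set Hr := (Y1 : ℝ) * Y2 with hHrdef
  have hHr0 : 0 < Hr := by positivity
  set H := Y1 * Y2 with hH
  set I := Ico (0 : ℤ) (9 * (H : ℤ)) with hI
  set A0 := A - 9 * (H : ℤ) with hA0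
  set len := X + 9 * H with hlen
  set B := 8 * (NF * φ * Y1) / Hl with hB
  have hB0 : 0 < B := by positivity
  have hlenr : (len : ℝ) = X + 9 * Hr := by rw [hlen, ← hHr]; push_cast; rfl
  have hT : ∀ m, tT W g m ≠ 0 → A - 8 * (H : ℤ) ≤ m ∧ m < A + X := by
    intro m hm
    obtain ⟨w, hw, hne⟩ := Finset.exists_ne_zero_of_sum_ne_zero hm
    have := hsupp _ (left_ne_zero_of_mul (right_ne_zero_of_mul hne))
    obtain ⟨b1, b2, _, _⟩ := hsh w hw
    constructor <;> linarith [this.1, this.2]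
  have hloc : Hr * ∑ m ∈ M, tT W g m = ∑ i ∈ range len, ∑ t ∈ range H, tT W g (A0 + i + t) := by
    rw [Finset.sum_comm]
    have : ∀ t ∈ range H, ∑ i ∈ range len, tT W g (A0 + i + t) = ∑ m ∈ M, tT W g m := by
      intro t ht
      have ht' : (t : ℤ) < H := by exact_mod_cast Finset.mem_range.1 ht
      have ht0 : (0 : ℤ) ≤ t := Int.natCast_nonneg t
      rw [← localise (tT W g) _ _ hT M hM' (A0 + t) len (by rw [hA0]; linarith)
        (by rw [hA0, hlen]; push_cast; linarith)]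
      exact Finset.sum_congr rfl fun i _ => by rw [add_right_comm]
    rw [Finset.sum_congr rfl this, Finset.sum_const, Finset.card_range, nsmul_eq_mul, hHr]
  have hG0 : 0 ≤ G0 := (abs_nonneg _).trans (hg 0)
  have hIc : (I.card : ℝ) = 9 * Hr := by
    rw [hI, Int.card_Ico, show (9 * (H : ℤ) - 0).toNat = 9 * H by omega, ← hHr]
    push_cast; rfl
  have hθ : 0 < η * B := by positivity
  have hn2 : n = 2 * ((s + 1) * r) := by rw [hn]; ring
  have hone : ∀ u : ℤ, |∑ t ∈ range H, tT W g (u + t)|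
      ≤ η * B * (9 * Hr * G0 ^ 2) * (1 + (∑ k ∈ I, tKp (tker W H u) I n k k) / (η * B) ^ n) := by
    intro u
    have a1 := ker_le_trace (tker W H u) I (tker_symm QQ F H u) ((s + 1) * r)
      (Nat.mul_pos (Nat.succ_pos s) hr) (η * B) hθ (fun k => g (u + k))
    have a0 := ker_le_trace (tker W H u) I (tker_symm QQ F H u) ((s + 1) * r)
      (Nat.mul_pos (Nat.succ_pos s) hr) (η * B) hθ (fun _ => 1)
    rw [← hn2] at a1 a0
    rw [hform u] at a1
    have a2 : ∑ k ∈ I, g (u + k) ^ 2 ≤ 9 * Hr * G0 ^ 2 := by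
      rw [← hIc, ← nsmul_eq_mul]
      refine Finset.sum_le_card_nsmul _ _ _ fun k _ => ?_
      rw [← sq_abs]
      exact pow_le_pow_left₀ (abs_nonneg _) (hg _) 2
    have a3 : 0 ≤ η * B * (1 + (∑ k ∈ I, tKp (tker W H u) I n k k) / (η * B) ^ n) := by
      have a4 := (abs_nonneg _).trans a0
      simp only [one_pow, Finset.sum_const, nsmul_eq_mul, mul_one, hIc] at a4
      exact nonneg_of_mul_nonneg_left a4 (by positivity)
    calc _ ≤ _ := a1
      _ ≤ η * B * (1 + (∑ k ∈ I, tKp (tker W H u) I n k k) / (η * B) ^ n) * (9 * Hr * G0 ^ 2) :=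
          mul_le_mul_of_nonneg_left a2 a3
      _ = _ := by ring
  have hX0 : (0 : ℝ) ≤ X := Nat.cast_nonneg X
  have hlen0 : (0 : ℝ) ≤ len := Nat.cast_nonneg len
  have b1 : 9 * Hr * (len * (B ^ n * (η ^ (2 * (s + 1))) ^ (2 * r))) / (η * B) ^ n ≤ len := by
    have e : (η ^ (2 * (s + 1))) ^ (2 * r) = η ^ n * η ^ n := by
      rw [← pow_mul, ← pow_add, hn]; congr 1; ring
    have e2 : 9 * Hr * (len * (B ^ n * (η ^ n * η ^ n))) / (η * B) ^ n
        = len * (9 * Hr * η ^ n) := by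
      rw [mul_pow]; field_simp
    rw [e, e2]
    exact mul_le_of_le_one_right hlen0 h2
  have b2 : 9 * Hr * ((W.card : ℝ) ^ n * Hr ^ n) / (η * B) ^ n ≤ X := by
    have e : (W.card : ℝ) * Hr / (η * B) ≤ Hr ^ 2 / η := by
      have c1 : (W.card : ℝ) ≤ NF * φ * Y1 := hcard.trans (by gcongr)
      have c2 : NF * φ * Y1 ≤ Hr * B := by
        have : NF * φ * Y1 = Hl * B / 8 := by rw [hB]; field_simp
        rw [this]
        have := mul_le_mul_of_nonneg_right hHl2 hB0.le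
        have := mul_pos hHl hB0
        linarith
      calc _ ≤ Hr * B * Hr / (η * B) := by gcongr; exact c1.trans c2
        _ = _ := by field_simp
    have e3 : 0 ≤ (Hr ^ 2 / η) ^ n := by positivity
    calc _ = 9 * Hr * ((W.card : ℝ) * Hr / (η * B)) ^ n := by
          rw [div_pow, mul_pow (W.card : ℝ)]; ring
      _ ≤ 9 * Hr * (Hr ^ 2 / η) ^ n := by gcongr
      _ ≤ X := by nlinarith [mul_nonneg hHr0.le e3]
  have b3 : (∑ i ∈ range len, ∑ k ∈ I, tKp (tker W H (A0 + i)) I n k k) / (η * B) ^ n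
      ≤ 2 * len := by
    refine (div_le_div_of_nonneg_right hmean (by positivity)).trans ?_
    rw [mul_add, add_div]
    linarith
  have b4 : Hr * |∑ m ∈ M, tT W g m| ≤ η * B * (9 * Hr * G0 ^ 2) * (3 * len) := by
    rw [← abs_of_pos hHr0, ← abs_mul, hloc, abs_of_pos hHr0]
    refine (Finset.abs_sum_le_sum_abs _ _).trans
      ((Finset.sum_le_sum fun (i : ℕ) _ => hone (A0 + i)).trans ?_)
    rw [← Finset.mul_sum, Finset.sum_add_distrib, ← Finset.sum_div]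
    refine mul_le_mul_of_nonneg_left ?_ (by positivity)
    simp only [Finset.sum_const, Finset.card_range, nsmul_eq_mul, mul_one]
    linarith
  refine le_of_mul_le_mul_left (b4.trans (le_of_eq ?_)) hHr0
  rw [hlenr, hB]
  ring

end Pool.Agent.H84D
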