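import Pool.Agent.H84D.Defs
import Pool.Agent.H84D.Par
import Pool.Agent.H84D.Tr

set_option autoImplicit false

/-! The centred quadratic form is small: instantiation of the trace bound. -/

namespace Pool.Agent.H84D

open Finset Filter Pool.Agent.MP_a96b63_al

/-- the parameter inequalities used by `df_le` -/
theorem df_par (c B A : ℕ) : ∀ᶠ L : ℝ in atTop, 1 ≤ L ∧
    (16 * ((c : ℝ) + 1) ^ 2 * L ^ (0.06 : ℝ) * Real.exp (1 * L ^ (1 / 10 : ℝ)) ≤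
      Real.exp (1 * L ^ (7 / 50 : ℝ))) ∧
    (32 * ((c : ℝ) + 1) ^ 2 * L ^ (0.06 : ℝ) * Real.exp (2 * L ^ (1 / 8 : ℝ)) ≤
      Real.exp (1 * L ^ (3 / 20 : ℝ))) ∧
    (2 * L ^ (0 : ℝ) * Real.exp (8 * ((c : ℝ) + 1) ^ 2 * L ^ (0.06 : ℝ)) ≤
      Real.exp (2 / 25 * L ^ (1 / 10 : ℝ))) ∧
    (9 * L ^ (0 : ℝ) * Real.exp (2 * L ^ (3 / 20 : ℝ)) ≤ Real.exp (1 / 50 * L ^ (0.16 : ℝ))) ∧
    (18 * L ^ (0 : ℝ) * Real.exp ((20 * ((c : ℝ) + 1) + 2) * L ^ (0.21 : ℝ)) ≤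
      Real.exp (1 * L ^ (1 : ℝ))) ∧
    (155520 * (c : ℝ) * L ^ ((7 * B + 1 + A : ℕ) : ℝ) ≤
      Real.exp (1 / (100 * ((c : ℝ) + 1)) * L ^ (1 / 10 : ℝ))) := by
  filter_upwards [eventually_ge_atTop (1 : ℝ),
    par_exp_exp (16 * ((c : ℝ) + 1) ^ 2) (0.06 : ℝ) 1 (show (1 / 10 : ℝ) < 7 / 50 by norm_num)
      (by norm_num) one_pos,
    par_exp_exp (32 * ((c : ℝ) + 1) ^ 2) (0.06 : ℝ) 2 (show (1 / 8 : ℝ) < 3 / 20 by norm_num)
      (by norm_num) one_pos,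
    par_exp_exp 2 0 (8 * ((c : ℝ) + 1) ^ 2) (show (0.06 : ℝ) < 1 / 10 by norm_num)
      (by norm_num) (show (0 : ℝ) < 2 / 25 by norm_num),
    par_exp_exp 9 0 2 (show (3 / 20 : ℝ) < 0.16 by norm_num)
      (by norm_num) (show (0 : ℝ) < 1 / 50 by norm_num),
    par_exp_exp 18 0 (20 * ((c : ℝ) + 1) + 2) (show (0.21 : ℝ) < 1 by norm_num)
      (by norm_num) one_pos,
    par_rpow_exp (155520 * (c : ℝ)) ((7 * B + 1 + A : ℕ) : ℝ) (show (0 : ℝ) < 1 / 10 by norm_num)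
      (show (0 : ℝ) < 1 / (100 * ((c : ℝ) + 1)) by positivity)] with L h0 h1 h2 h3 h4 h5 h6
  exact ⟨h0, h1, h2, h3, h4, h5, h6⟩

theorem df_four_pow (k : ℕ) : (4 : ℝ) ^ k ≤ Real.exp (2 * k) := by
  have h1 : (2 : ℝ) ≤ Real.exp 1 := by linarith [Real.add_one_le_exp (1 : ℝ)]
  have h2 : (4 : ℝ) ≤ Real.exp 2 := by
    rw [show (2 : ℝ) = 1 + 1 by norm_num, Real.exp_add]; nlinarith
  calc (4 : ℝ) ^ k ≤ Real.exp 2 ^ k := pow_le_pow_left₀ (by norm_num) h2 k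
    _ = Real.exp (2 * k) := by rw [← Real.exp_nat_mul, mul_comm]

/-- first condition of the trace bound -/
theorem df_h1 {c r : ℕ} {u t e1 e2 e3 z y1 y2 nf : ℝ} (ht : 0 ≤ t) (hr : (r : ℝ) ≤ 2 * u)
    (ht1 : t ≤ e1) (hz : Real.exp e2 ≤ z) (hy1 : Real.exp e3 ≤ 2 * y1) (hy2 : y2 ≤ Real.exp e1)
    (hy0 : 0 < y2) (hnf : y2 * Real.exp (t / 10) ≤ nf)
    (p1 : 16 * ((c : ℝ) + 1) ^ 2 * u * Real.exp t ≤ Real.exp e2)
    (p2 : 32 * ((c : ℝ) + 1) ^ 2 * u * Real.exp (2 * e1) ≤ Real.exp e3)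
    (p3 : 2 * Real.exp (8 * ((c : ℝ) + 1) ^ 2 * u) ≤ Real.exp (2 / 25 * t)) :
    ((2 * (c + 1) * r * c : ℕ) : ℝ) * (1 / z + y2 / y1) + 4 ^ (2 * (c + 1) * r * c) * (y2 / nf) ≤
      Real.exp (-(t / 50)) := by
  set N : ℕ := 2 * (c + 1) * r * c with hN
  set K : ℝ := 4 * ((c : ℝ) + 1) ^ 2 * u with hK
  have hc0 : (0 : ℝ) ≤ c := Nat.cast_nonneg c
  have hr0 : (0 : ℝ) ≤ r := Nat.cast_nonneg r
  have hNK : (N : ℝ) ≤ K := by
    rw [hN, hK]; push_cast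
    calc 2 * ((c : ℝ) + 1) * r * c ≤ 2 * ((c : ℝ) + 1) * (2 * u) * (c + 1) := by
          have hu0 : 0 ≤ 2 * u := hr0.trans hr
          exact mul_le_mul (mul_le_mul_of_nonneg_left hr (by positivity)) (by linarith) hc0
            (by positivity)
      _ = 4 * ((c : ℝ) + 1) ^ 2 * u := by ring
  have hN0 : (0 : ℝ) ≤ N := Nat.cast_nonneg N
  have hz0 : 0 < z := lt_of_lt_of_le (Real.exp_pos _) hz
  have hy10 : 0 < y1 := by linarith [Real.exp_pos e3]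
  have hnf0 : 0 < nf := lt_of_lt_of_le (by positivity) hnf
  set E : ℝ := Real.exp (-(t / 50)) with hE
  have hE0 : 0 < E := Real.exp_pos _
  have hEt : 1 ≤ E * Real.exp t := by
    rw [hE, ← Real.exp_add]; exact Real.one_le_exp (by linarith)
  have hEe : 1 ≤ E * Real.exp e1 := by
    rw [hE, ← Real.exp_add]; exact Real.one_le_exp (by linarith)
  have hK0 : 0 ≤ K := hN0.trans hNK
  have a1 : (N : ℝ) * (1 / z) ≤ E / 4 := by
    rw [mul_one_div, div_le_div_iff₀ hz0 (by norm_num)]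
    calc (N : ℝ) * 4 ≤ K * 4 * (E * Real.exp t) := by nlinarith
      _ = E * (16 * ((c : ℝ) + 1) ^ 2 * u * Real.exp t) := by rw [hK]; ring
      _ ≤ E * z := mul_le_mul_of_nonneg_left (p1.trans hz) hE0.le
  have a2 : (N : ℝ) * (y2 / y1) ≤ E / 4 := by
    rw [← mul_div_assoc, div_le_div_iff₀ hy10 (by norm_num)]
    have b1 : (N : ℝ) * y2 ≤ K * Real.exp e1 := mul_le_mul hNK hy2 hy0.le hK0
    have b2 : 0 ≤ K * Real.exp e1 := by positivity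
    have b3 : Real.exp (2 * e1) = Real.exp e1 * Real.exp e1 := by
      rw [← Real.exp_add]; congr 1; ring
    have b4 : 8 * K * (Real.exp e1 * Real.exp e1) ≤ 2 * y1 := by
      refine le_trans (le_of_eq ?_) (p2.trans hy1)
      rw [b3, hK]; ring
    calc (N : ℝ) * y2 * 4 ≤ K * Real.exp e1 * 4 * (E * Real.exp e1) := by nlinarith
      _ = E * (8 * K * (Real.exp e1 * Real.exp e1)) / 2 := by ring
      _ ≤ E * (2 * y1) / 2 := by gcongr
      _ = E * y1 := by ring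
  have a3 : (4 : ℝ) ^ N * (y2 / nf) ≤ E / 2 := by
    rw [← mul_div_assoc, div_le_div_iff₀ hnf0 (by norm_num)]
    have b1 : (4 : ℝ) ^ N ≤ Real.exp (8 * ((c : ℝ) + 1) ^ 2 * u) :=
      (df_four_pow N).trans (Real.exp_le_exp.2 (by rw [hK] at hNK; linarith))
    have b2 : Real.exp (2 / 25 * t) = E * Real.exp (t / 10) := by
      rw [hE, ← Real.exp_add]; congr 1; ring
    calc (4 : ℝ) ^ N * y2 * 2 = y2 * (2 * 4 ^ N) := by ring
      _ ≤ y2 * (E * Real.exp (t / 10)) := by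
          refine mul_le_mul_of_nonneg_left ?_ hy0.le
          rw [← b2]; linarith
      _ = E * (y2 * Real.exp (t / 10)) := by ring
      _ ≤ E * nf := mul_le_mul_of_nonneg_left hnf hE0.le
  rw [mul_add]; linarith

/-- the hypotheses of the trace bound for the good pairs -/
theorem df_hyp {c B a₀ X : ℕ} {D : Fm} (h : Fam c B a₀ X D) (Q : ℕ) (hL : 1 ≤ LL X)
    (h3 : 2 ≤ EE X (7 / 50)) :
    TrHyp D.QQ (good D Q) (Y1 X) D.Y2 (⌊EE X (7 / 50)⌋₊ + 1) c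
      ((Q : ℝ) ^ 3 * #D.F / D.Y2) := by
  have hsub : ∀ x ∈ good D Q, x ∈ D.F := fun x hx => (mem_filter.1 hx).1
  have hmono : ∀ {a b : ℝ}, a ≤ b → EE X a ≤ EE X b := fun hab =>
    Real.exp_le_exp.2 (Real.rpow_le_rpow_of_exponent_le hL hab)
  have hy0 : (0 : ℝ) < D.Y2 := by exact_mod_cast h.ypos
  refine ⟨fun q hq => (h.qpr q hq).2.2.1, fun q hq p hp hd => ?_, fun q hq => ?_,
    fun x hx => ?_, fun x hx => (h.size x (hsub x hx)).2.2.1, fun x hx => ?_,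
    fun x hx => h.cop x (hsub x hx), fun x hx => ?_, ?_, ?_, ?_, fun a => ?_⟩
  · have h1 := h.qr q hq p hp hd
    have h2 : ⌊EE X (7 / 50)⌋₊ < p := (Nat.floor_lt (by linarith)).2 h1
    omega
  · have := h.qom q hq
    rwa [ArithmeticFunction.cardFactors_apply] at this
  · have := h.size x (hsub x hx); omega
  · have := h.size x (hsub x hx); omega
  · have := h.om x (hsub x hx)
    rwa [ArithmeticFunction.cardFactors_apply] at this
  · have : 2 ≤ ⌊EE X (7 / 50)⌋₊ := Nat.le_floor (by exact_mod_cast h3)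
    omega
  · have : D.Y2 ≤ ⌊EE X (7 / 50)⌋₊ := Nat.le_floor (h.yle.trans (hmono (by norm_num)))
    omega
  · exact Nat.le_floor (h.yle.trans (hmono (by norm_num)))
  · rcases ((good D Q).filter fun x => x.1 = a).eq_empty_or_nonempty with he | ⟨x, hx⟩
    · rw [he]; simp only [card_empty, Nat.cast_zero]; positivity
    · obtain ⟨hx1, hx2⟩ := mem_filter.1 hx
      have h1 : #(fib D.F x.1) * D.Y2 ≤ Q ^ 3 * #D.F := (mem_filter.1 hx1).2
      have h2 : #((good D Q).filter fun x => x.1 = a) ≤ #(fib D.F x.1) := by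
        rw [hx2]; exact card_le_card (filter_subset_filter _ (filter_subset _ _))
      rw [le_div_iff₀ hy0]
      have h4 : #((good D Q).filter fun x => x.1 = a) * D.Y2 ≤ Q ^ 3 * #D.F :=
        (Nat.mul_le_mul_right _ h2).trans h1
      exact_mod_cast h4

theorem df_eq (G : Finset (ℕ × ℕ)) (QQ : Finset ℕ) (J : Finset ℤ) (g : ℤ → ℝ) :
    DF G QQ J g = ∑ q ∈ QQ, ∑ a ∈ G.image Prod.fst, ∑ m ∈ J, txi a (q + 4) m *
      (∑ x ∈ G.filter (fun x => x.1 = a), g (m + 8 * ((q : ℤ) + 2) * (x.2 : ℤ))) ^ 2 := by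
  simp only [DF, xi, txi, GG, fib, Nat.cast_add, Nat.cast_ofNat]

/-- second condition of the trace bound -/
theorem df_h2 {r : ℕ} {u t e3 H : ℝ} (ht : 0 ≤ t) (hur : u ≤ r) (hH : H ≤ Real.exp (2 * e3))
    (p4 : 9 * Real.exp (2 * e3) ≤ Real.exp (1 / 50 * (u * t))) :
    9 * H * Real.exp (-(t / 50)) ^ r ≤ 1 := by
  rw [← Real.exp_nat_mul]
  have a1 : Real.exp (r * -(t / 50)) ≤ Real.exp (-(1 / 50 * (u * t))) := by
    refine Real.exp_le_exp.2 ?_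
    have := mul_le_mul_of_nonneg_right hur ht
    linarith
  calc 9 * H * Real.exp (r * -(t / 50)) ≤ Real.exp (1 / 50 * (u * t)) *
        Real.exp (-(1 / 50 * (u * t))) :=
        mul_le_mul (le_trans (by linarith) p4) a1 (Real.exp_pos _).le (Real.exp_pos _).le
    _ = 1 := by rw [← Real.exp_add]; simp

/-- third condition of the trace bound -/
theorem df_h3 {c r : ℕ} {u k e3 H X : ℝ} (hu1 : 1 ≤ u) (hk : k ≤ e3) (he : 0 ≤ e3)
    (hru : (r : ℝ) ≤ 2 * u) (hH0 : 0 ≤ H) (hH : H ≤ Real.exp (2 * e3))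
    (p5 : 18 * Real.exp ((20 * ((c : ℝ) + 1) + 2) * (u * e3)) ≤ X) :
    18 * H ≤ X ∧ 18 * H * (H ^ 2 / Real.exp (-k)) ^ (2 * (c + 1) * r) ≤ X := by
  have hc0 : (0 : ℝ) ≤ c := Nat.cast_nonneg c
  have he3u : e3 ≤ u * e3 := le_mul_of_one_le_left he hu1
  have hue0 : 0 ≤ u * e3 := he.trans he3u
  have a1 : H ^ 2 / Real.exp (-k) ≤ Real.exp (5 * e3) := by
    rw [div_le_iff₀ (Real.exp_pos _), ← Real.exp_add]
    calc H ^ 2 ≤ Real.exp (2 * e3) ^ 2 := pow_le_pow_left₀ hH0 hH 2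
      _ = Real.exp (4 * e3) := by rw [← Real.exp_nat_mul]; congr 1; push_cast; ring
      _ ≤ _ := Real.exp_le_exp.2 (by linarith)
  have a2 : (H ^ 2 / Real.exp (-k)) ^ (2 * (c + 1) * r) ≤
      Real.exp (20 * ((c : ℝ) + 1) * (u * e3)) := by
    refine (pow_le_pow_left₀ (by positivity) a1 _).trans ?_
    rw [← Real.exp_nat_mul]
    refine Real.exp_le_exp.2 ?_
    push_cast
    calc 2 * ((c : ℝ) + 1) * r * (5 * e3) ≤ 2 * ((c : ℝ) + 1) * (2 * u) * (5 * e3) := by gcongr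
      _ = 20 * ((c : ℝ) + 1) * (u * e3) := by ring
  have a3 : H ≤ Real.exp (2 * (u * e3)) := hH.trans (Real.exp_le_exp.2 (by linarith))
  refine ⟨le_trans ?_ p5, le_trans ?_ p5⟩
  · refine mul_le_mul_of_nonneg_left (a3.trans (Real.exp_le_exp.2 ?_)) (by norm_num)
    have := mul_nonneg hc0 hue0
    linarith
  · calc 18 * H * (H ^ 2 / Real.exp (-k)) ^ (2 * (c + 1) * r) ≤
          18 * Real.exp (2 * (u * e3)) * Real.exp (20 * ((c : ℝ) + 1) * (u * e3)) := by gcongr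
      _ = 18 * Real.exp ((20 * ((c : ℝ) + 1) + 2) * (u * e3)) := by
          rw [mul_assoc, ← Real.exp_add]; congr 2; ring

/-- the final numerical step -/
theorem df_fin {B A : ℕ} {c k L X y1 y2 nq nf Q : ℝ} (hc : 0 < c) (hL : 1 ≤ L) (hX : 0 < X)
    (hy1 : 0 < y1) (hy2 : 0 < y2) (hnq : 0 < nq) (hnf : 0 < nf) (hQ0 : 0 ≤ Q) (hQ : Q ≤ L ^ B)
    (hq : y1 ≤ L * nq) (h18 : 18 * (y1 * y2) ≤ X)
    (p6 : 155520 * c * L ^ (7 * B + 1 + A) ≤ Real.exp k) :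
    y1 * y2 ^ 2 / (nq * nf ^ 2) * (216 * Real.exp (-k) *
      (nf * (Q ^ 3 * nf / y2) * y1 / (y1 * y2 / (60 * c))) * (1 + Q ^ 2) ^ 2 *
        (2 * X + 9 * (y1 * y2))) ≤ X / L ^ A := by
  have hL0 : 0 < L := by linarith
  have hη0 : 0 < Real.exp (-k) := Real.exp_pos _
  have b4 : Real.exp (-k) * (155520 * c * L ^ (7 * B + 1 + A)) ≤ 1 := by
    refine (mul_le_mul_of_nonneg_left p6 hη0.le).trans (le_of_eq ?_)
    rw [← Real.exp_add]; simp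
  generalize Real.exp (-k) = η at hη0 b4
  have e : y1 * y2 ^ 2 / (nq * nf ^ 2) * (216 * η *
      (nf * (Q ^ 3 * nf / y2) * y1 / (y1 * y2 / (60 * c))) * (1 + Q ^ 2) ^ 2 *
        (2 * X + 9 * (y1 * y2))) =
      12960 * c * η * (y1 / nq) * Q ^ 3 * (1 + Q ^ 2) ^ 2 * (2 * X + 9 * (y1 * y2)) := by
    field_simp; ring
  rw [e]
  have b1 : y1 / nq ≤ L := by rwa [div_le_iff₀ hnq]
  have b2 : 1 + Q ^ 2 ≤ 2 * (L ^ B) ^ 2 := by
    have i1 : Q ^ 2 ≤ (L ^ B) ^ 2 := pow_le_pow_left₀ hQ0 hQ 2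
    have i2 : 1 ≤ (L ^ B) ^ 2 := one_le_pow₀ (one_le_pow₀ hL)
    linarith
  have b3 : 2 * X + 9 * (y1 * y2) ≤ 3 * X := by linarith
  rw [le_div_iff₀ (by positivity)]
  calc 12960 * c * η * (y1 / nq) * Q ^ 3 * (1 + Q ^ 2) ^ 2 * (2 * X + 9 * (y1 * y2)) * L ^ A ≤
      12960 * c * η * L * (L ^ B) ^ 3 * (2 * (L ^ B) ^ 2) ^ 2 * (3 * X) * L ^ A := by gcongr
    _ = η * (155520 * c * L ^ (7 * B + 1 + A)) * X := by ring
    _ ≤ 1 * X := mul_le_mul_of_nonneg_right b4 hX.le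
    _ = X := one_mul _

/-- ROW TR (section 3b) -/
theorem df_le (c B a₀ A : ℕ) (hB : c + 1 ≤ B) : ∀ᶠ X : ℕ in atTop, ∀ D : Fm, Fam c B a₀ X D →
    ∀ g : ℤ → ℝ, (∀ m, |g m| ≤ 1 + (QB B X : ℝ) ^ 2) →
      (∀ m, g m ≠ 0 → (X : ℤ) < 2 * m ∧ m ≤ 5 * X / 2) →
      c0 X D * |DF (good D (QB B X)) D.QQ (Icc (Y1 X * D.Y2 : ℤ) (3 * X)) g| ≤
        X / LL X ^ A := by
  filter_upwards [par_nat (df_par c B A)] with X hX D h g hg hsupp
  have hLdef : Real.log X = LL X := rfl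
  rw [hLdef] at hX
  obtain ⟨hL, p1, p2, p3, p4, p5, p6⟩ := hX
  simp only [Real.rpow_zero, mul_one, one_mul, Real.rpow_one, Real.rpow_natCast]
    at p1 p2 p3 p4 p5 p6
  have hL0 : 0 < LL X := by linarith only [hL]
  have hX0 : (0 : ℝ) < X := by
    rcases Nat.eq_zero_or_pos X with h0 | h0
    · exfalso
      have : LL X = 0 := by rw [LL, h0]; simp
      linarith only [this, hL]
    · exact_mod_cast h0
  have hXe : Real.exp (LL X) = X := by rw [LL, Real.exp_log hX0]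
  have hm : ∀ {a b : ℝ}, a ≤ b → LL X ^ a ≤ LL X ^ b := fun hab =>
    Real.rpow_le_rpow_of_exponent_le hL hab
  have h1p : ∀ {a : ℝ}, 0 ≤ a → 1 ≤ LL X ^ a := fun ha => Real.one_le_rpow hL ha
  have hu1 : 1 ≤ LL X ^ (0.06 : ℝ) := h1p (by norm_num)
  have ht1 : 1 ≤ LL X ^ (1 / 10 : ℝ) := h1p (by norm_num)
  have hte1 : LL X ^ (1 / 10 : ℝ) ≤ LL X ^ (1 / 8 : ℝ) := hm (by norm_num)
  have he13 : LL X ^ (1 / 8 : ℝ) ≤ LL X ^ (3 / 20 : ℝ) := hm (by norm_num)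
  have he21 : 1 ≤ LL X ^ (7 / 50 : ℝ) := h1p (by norm_num)
  have hut : LL X ^ (0.16 : ℝ) = LL X ^ (0.06 : ℝ) * LL X ^ (1 / 10 : ℝ) := by
    rw [← Real.rpow_add hL0]; norm_num
  have hue : LL X ^ (0.21 : ℝ) = LL X ^ (0.06 : ℝ) * LL X ^ (3 / 20 : ℝ) := by
    rw [← Real.rpow_add hL0]; norm_num
  rw [hut] at p4
  rw [hue, hXe] at p5
  have hy2 : (D.Y2 : ℝ) ≤ Real.exp (LL X ^ (1 / 8 : ℝ)) := h.yle
  have hnf : (D.Y2 : ℝ) * Real.exp (LL X ^ (1 / 10 : ℝ) / 10) ≤ #D.F := h.many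
  have hy1u : (Y1 X : ℝ) ≤ Real.exp (LL X ^ (3 / 20 : ℝ)) := Nat.floor_le (Real.exp_pos _).le
  have hy1a : Real.exp (LL X ^ (3 / 20 : ℝ)) < Y1 X + 1 := Nat.lt_floor_add_one _
  have hy11 : (1 : ℝ) ≤ Y1 X := by
    have : 1 ≤ Y1 X := Nat.le_floor (by
      rw [Nat.cast_one]; exact Real.one_le_exp (by positivity))
    exact_mod_cast this
  have hE2 : 2 ≤ EE X (7 / 50) := by
    have := Real.add_one_le_exp (LL X ^ (7 / 50 : ℝ))
    unfold EE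
    linarith only [this, he21]
  have hz : Real.exp (LL X ^ (7 / 50 : ℝ)) ≤ ((⌊EE X (7 / 50)⌋₊ + 1 : ℕ) : ℝ) := by
    push_cast
    exact (Nat.lt_floor_add_one _).le
  have hQL : (QB B X : ℝ) ≤ LL X ^ B := Nat.floor_le (by positivity)
  have hyp := df_hyp h (QB B X) hL hE2
  generalize LL X ^ (0.06 : ℝ) = u at *
  generalize LL X ^ (1 / 10 : ℝ) = t at *
  generalize LL X ^ (1 / 8 : ℝ) = e1 at *
  generalize LL X ^ (7 / 50 : ℝ) = e2 at *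
  generalize LL X ^ (3 / 20 : ℝ) = e3 at *
  have hur : u ≤ ⌈u⌉₊ := Nat.le_ceil u
  have hru : (⌈u⌉₊ : ℝ) ≤ 2 * u := by
    have := Nat.ceil_lt_add_one (show 0 ≤ u by linarith only [hu1])
    linarith only [this, hu1]
  have hr1 : 1 ≤ ⌈u⌉₊ := by
    have : (1 : ℝ) ≤ ⌈u⌉₊ := hu1.trans hur
    exact_mod_cast this
  generalize ⌈u⌉₊ = r at hur hru hr1
  have hc0 : (0 : ℝ) ≤ c := Nat.cast_nonneg c
  have ht0 : 0 ≤ t := by linarith only [ht1]
  have hκ : 0 ≤ 1 / (100 * ((c : ℝ) + 1)) * t := by positivity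
  have hκ1 : 1 / (100 * ((c : ℝ) + 1)) * t ≤ t := by
    refine mul_le_of_le_one_left ht0 ?_
    rw [div_le_one (by positivity)]; linarith only [hc0]
  have hηs : Real.exp (-(1 / (100 * ((c : ℝ) + 1)) * t)) ^ (2 * (c + 1)) =
      Real.exp (-(t / 50)) := by
    rw [← Real.exp_nat_mul]; congr 1; push_cast; field_simp; ring
  generalize 1 / (100 * ((c : ℝ) + 1)) * t = k at hκ hκ1 hηs p6
  have hy0 : (0 : ℝ) < D.Y2 := by exact_mod_cast h.ypos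
  have hnf0 : (0 : ℝ) < #D.F := lt_of_lt_of_le (by positivity) hnf
  have hy1l : Real.exp e3 ≤ 2 * Y1 X := by linarith only [hy1a, hy11]
  have hy10 : (0 : ℝ) < Y1 X := by linarith only [hy11]
  have hc1 : (0 : ℝ) < c := by
    obtain ⟨x, hx⟩ := card_pos.1 (show 0 < #D.F by exact_mod_cast hnf0)
    have h1 := (h.size x hx).2.2.2
    have h2 := h.ypos
    have : 0 < c := Nat.pos_of_ne_zero fun h0 => by rw [h0] at h1; omega
    exact_mod_cast this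
  have hqq : (Y1 X : ℝ) ≤ LL X * #D.QQ := h.qmany
  have hq0 : (0 : ℝ) < #D.QQ := by
    by_contra hn
    have : (#D.QQ : ℝ) = 0 := le_antisymm (not_lt.1 hn) (Nat.cast_nonneg _)
    rw [this] at hqq; linarith only [hqq, hy11]
  have hH0 : (0 : ℝ) < (Y1 X : ℝ) * D.Y2 := mul_pos hy10 hy0
  have hHe : (Y1 X : ℝ) * D.Y2 ≤ Real.exp (2 * e3) := by
    rw [two_mul, Real.exp_add]
    exact mul_le_mul hy1u (hy2.trans (Real.exp_le_exp.2 he13)) hy0.le (Real.exp_pos _).le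
  obtain ⟨h18, h3⟩ := df_h3 (k := k) hu1 (hκ1.trans (hte1.trans he13))
    (ht0.trans (hte1.trans he13)) hru hH0.le hHe p5
  have h18z : 18 * ((Y1 X : ℤ) * D.Y2) ≤ X := by exact_mod_cast h18
  have key := trace_bound hyp r (2 * X) ((X : ℤ) / 2 + 1) g (1 + (QB B X : ℝ) ^ 2)
    ((Y1 X : ℝ) * D.Y2 / (60 * c)) (Real.exp (-k)) (#D.F) (Icc (Y1 X * D.Y2 : ℤ) (3 * X)) hr1
    (div_pos hH0 (mul_pos (by norm_num) hc1)) hnf0
    (by exact_mod_cast card_le_card (filter_subset _ _))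
    (fun q hq x hx => by
      have a1 : (Y1 X : ℝ) ≤ 60 * q := by exact_mod_cast (h.qpr q hq).2.2.2
      have a2 : (D.Y2 : ℝ) ≤ c * x.1 := by
        exact_mod_cast (h.size x (mem_filter.1 hx).1).2.2.2
      rw [div_le_iff₀ (mul_pos (by norm_num) hc1)]
      calc (Y1 X : ℝ) * D.Y2 ≤ 60 * ((q : ℝ) + 4) * (c * x.1) :=
            mul_le_mul (by linarith only [a1]) a2 hy0.le (by positivity)
        _ = (x.1 : ℝ) * ((q : ℝ) + 4) * (60 * c) := by ring)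
    hg (fun k hk => by have := hsupp k hk; push_cast; omega)
    (fun m h1 h2 => by
      rw [mem_Icc]; push_cast at h2
      rw [mul_assoc] at h1
      generalize (Y1 X : ℤ) * D.Y2 = w at h1 h18z ⊢
      omega)
    (Real.exp_pos _) (Real.exp_le_one_iff.2 (by linarith only [hκ]))
    (by rw [hηs]; exact df_h1 ht0 hru hte1 hz hy1l hy2 hy0 hnf p1 p2 p3)
    (by rw [pow_mul, hηs]; exact df_h2 ht0 hur hHe p4)
    (h3.trans (by push_cast; linarith only [hX0]))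
  rw [← df_eq] at key
  have hc00 : 0 ≤ c0 X D := by unfold c0; positivity
  refine (mul_le_mul_of_nonneg_left key hc00).trans ?_
  rw [c0, Nat.cast_mul, Nat.cast_ofNat]
  exact df_fin hc1 hL hX0 hy10 hy0 hq0 hnf0 (Nat.cast_nonneg _) hQL hqq h18 p6

end Pool.Agent.H84D
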