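import Pool.Agent.H84D.Defs

set_option autoImplicit false

/-! Realisation of the values and the dyadic reduction. -/

namespace Pool.Agent.H84D

open Finset Filter Pool.Agent.MP_a96b63_al

lemma hol_leaf {V : Finset ℕ} {y : ℕ} (hy : y ∉ V) (h1 : ∀ v ∈ V, ¬ y ∣ v - 1)
    (h2 : ∀ v ∈ V, ¬ v ∣ y - 1) (W : Finset ℕ) :
    Hol (insert y V) W = (1 + gs y (cc y W)) * Hol V W := by
  rw [hol_insert hy h1, hol_target h2]; ring

lemma not_dvd_of_lt {r s : ℕ} (h2 : 2 ≤ r) (h : r < s) : ¬ s ∣ r - 1 := fun h3 =>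
  absurd (Nat.le_of_dvd (by omega) h3) (by omega)

lemma hol_top {V : Finset ℕ} {s : ℕ} (hV : ∀ v ∈ V, v.Prime ∧ v ≠ 2) (h : ∀ v ∈ V, v < s)
    (W : Finset ℕ) : Hol (insert s V) W = Hol V (insert s W) + gs s (cc s W) * Hol V W :=
  hol_insert (fun h1 => absurd (h s h1) (lt_irrefl _))
    fun v hv => not_dvd_of_lt (hV v hv).1.two_le (h v hv)

lemma cc_empty (p : ℕ) : cc p ∅ = 0 := by simp [cc]

lemma cc_insert_pos {p w : ℕ} {W : Finset ℕ} (hw : w ∉ W) (h : p ∣ w - 1) :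
    cc p (insert w W) = cc p W + 1 := by
  rw [cc, cc, filter_insert, if_pos h, card_insert_of_notMem fun h1 => hw (mem_filter.mp h1).1]

lemma cc_insert_neg {p w : ℕ} {W : Finset ℕ} (h : ¬ p ∣ w - 1) : cc p (insert w W) = cc p W := by
  rw [cc, cc, filter_insert, if_neg h]

lemma exists_top (S T : Finset ℕ) (hS : ∀ r ∈ S, r.Prime ∧ r ≠ 2) :
    ∃ q, (q.Prime ∧ q ≠ 2) ∧ (∀ r ∈ S, r < q) ∧ ∀ r ∈ S, (r ∣ q - 1 ↔ r ∈ T) := by
  obtain ⟨q, h1, h2, h3⟩ := exists_prime_pattern S T hS (S.sup id + 2)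
  refine ⟨q, ⟨h2, by omega⟩, fun r hr => ?_, h3⟩
  have : r ≤ S.sup id := le_sup (f := id) hr
  omega

lemma hol_double {V : Finset ℕ} (hV : ∀ v ∈ V, v.Prime ∧ v ≠ 2) :
    ∃ V' : Finset ℕ, (∀ v ∈ V', v.Prime ∧ v ≠ 2) ∧ Hol V' ∅ = 2 * Hol V ∅ := by
  obtain ⟨r, a1, a2, a3⟩ := exists_top V ∅ hV
  have hV1 : ∀ v ∈ insert r V, v.Prime ∧ v ≠ 2 := forall_mem_insert _ _ _ |>.mpr ⟨a1, hV⟩
  obtain ⟨s, b1, b2, b3⟩ := exists_top (insert r V) {r} hV1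
  refine ⟨insert s (insert r V), forall_mem_insert _ _ _ |>.mpr ⟨b1, hV1⟩, ?_⟩
  have c1 : ∀ v ∈ V, ¬ v ∣ r - 1 := fun v hv h => by simpa using (a3 v hv).mp h
  have c2 : ∀ v ∈ V, ¬ v ∣ s - 1 := fun v hv h => by
    have := (b3 v (mem_insert_of_mem hv)).mp h
    have := a2 v hv
    simp only [mem_singleton] at *
    omega
  have c3 : r ∣ s - 1 := (b3 r (mem_insert_self _ _)).mpr (mem_singleton_self _)
  rw [hol_top hV1 b2, hol_top hV a2, hol_target c1, hol_target c2,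
    cc_insert_pos (notMem_empty _) c3, cc_empty, cc_empty]
  simp [gs]; ring

lemma V2_hol {V : Finset ℕ} (hV : ∀ v ∈ V, v.Prime ∧ v ≠ 2) : V2 (Hol V ∅) := by
  intro j
  have : ∃ V' : Finset ℕ, (∀ v ∈ V', v.Prime ∧ v ≠ 2) ∧ Hol V' ∅ = 2 ^ j * Hol V ∅ := by
    induction j with
    | zero => exact ⟨V, hV, by simp⟩
    | succ j ih =>
      obtain ⟨V1, h1, h2⟩ := ih
      obtain ⟨V2, h3, h4⟩ := hol_double h1
      exact ⟨V2, h3, by rw [h4, h2]; ring⟩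
  obtain ⟨V', h1, h2⟩ := this
  exact ⟨_, squarefree_prod fun p hp => (h1 p hp).1, h2 ▸ isGnu_hol fun p hp => (h1 p hp).1⟩

/-- ROW R2 (section 0) -/
theorem real_val {u : List ℕ} {q p₁ p₂ p₃ : ℕ} (h : Clean (p₃ :: p₁ :: p₂ :: q :: u)) :
    V2 (val (st u) q p₁ p₂ p₃) := by
  obtain ⟨hn, hp, hd⟩ := h
  have hn' := hn
  simp only [List.nodup_cons, List.mem_cons, not_or] at hn'
  obtain ⟨⟨n31, n32, n3q, n3u⟩, ⟨n12, n1q, n1u⟩, ⟨n2q, n2u⟩, nqu, hu⟩ := hn'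
  obtain ⟨V, u₀, a1, a2, a3, a4, a5, a6, a7, a8, a9, a10, a11⟩ :=
    ladder (p₃ :: p₁ :: p₂ :: q :: u).toFinset
    (fun y hy => hp y (List.mem_toFinset.mp hy))
    (fun y hy y' hy' => hd y (List.mem_toFinset.mp hy) y' (List.mem_toFinset.mp hy')) u hu
    (fun y hy => List.mem_toFinset.mpr (by simp [hy])) {p₁, p₂, p₃}
  simp only [List.mem_toFinset] at a5 a6 a7 a8 a9
  have m3 : p₃ ∈ p₃ :: p₁ :: p₂ :: q :: u := by simp
  have m1 : p₁ ∈ p₃ :: p₁ :: p₂ :: q :: u := by simp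
  have m2 : p₂ ∈ p₃ :: p₁ :: p₂ :: q :: u := by simp
  have mq : q ∈ p₃ :: p₁ :: p₂ :: q :: u := by simp
  have v3 : p₃ ∉ V := fun h => n3u (a6 _ h m3)
  have v1 : p₁ ∉ V := fun h => n1u (a6 _ h m1)
  have v2 : p₂ ∉ V := fun h => n2u (a6 _ h m2)
  have vq : q ∉ V := fun h => nqu (a6 _ h mq)
  have key : ∀ W, Hol (insert p₃ (insert p₁ (insert p₂ (insert q V)))) W =
      (1 + gs p₃ (cc p₃ W)) * ((1 + gs p₁ (cc p₁ W)) * ((1 + gs p₂ (cc p₂ W)) *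
        ((1 + gs q (cc q W)) * Hol V W))) := by
    intro W
    rw [hol_leaf, hol_leaf, hol_leaf, hol_leaf vq (a7 q mq nqu) fun v hv => a9 v hv q mq]
    · simp [n2q, v2]
    · simp only [forall_mem_insert]; exact ⟨hd _ m2 _ mq, a7 _ m2 n2u⟩
    · simp only [forall_mem_insert]; exact ⟨hd _ mq _ m2, fun v hv => a9 v hv _ m2⟩
    · simp [n12, n1q, v1]
    · simp only [forall_mem_insert]; exact ⟨hd _ m1 _ m2, hd _ m1 _ mq, a7 _ m1 n1u⟩
    · simp only [forall_mem_insert]; exact ⟨hd _ m2 _ m1, hd _ mq _ m1, fun v hv => a9 v hv _ m1⟩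
    · simp [n31, n32, n3q, v3]
    · simp only [forall_mem_insert]; exact ⟨hd _ m3 _ m1, hd _ m3 _ m2, hd _ m3 _ mq, a7 _ m3 n3u⟩
    · simp only [forall_mem_insert]
      exact ⟨hd _ m1 _ m3, hd _ m2 _ m3, hd _ mq _ m3, fun v hv => a9 v hv _ m3⟩
  obtain ⟨V4, hV4⟩ : ∃ V4, V4 = insert p₃ (insert p₁ (insert p₂ (insert q V))) := ⟨_, rfl⟩
  rw [← hV4] at key
  have b1 : ∀ v ∈ V4, v.Prime ∧ v ≠ 2 := by
    simp only [hV4, forall_mem_insert]; exact ⟨hp _ m3, hp _ m1, hp _ m2, hp _ mq, a1⟩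
  have b2 : ∀ v ∈ V4, v < u₀ := by
    simp only [hV4, forall_mem_insert]; exact ⟨a5 _ m3, a5 _ m1, a5 _ m2, a5 _ mq, a4⟩
  have b3 : ∀ v ∈ insert u₀ V4, v.Prime ∧ v ≠ 2 :=
    forall_mem_insert _ _ _ |>.mpr ⟨⟨a2, by omega⟩, b1⟩
  obtain ⟨w, c1, c2, c3⟩ := exists_top (insert u₀ V4) {u₀, q} b3
  have b4 : ∀ v ∈ insert w (insert u₀ V4), v.Prime ∧ v ≠ 2 :=
    forall_mem_insert _ _ _ |>.mpr ⟨c1, b3⟩
  obtain ⟨r, d1, d2, d3⟩ := exists_top (insert w (insert u₀ V4)) {w, q, p₁, p₂, p₃} b4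
  have b5 : ∀ v ∈ insert r (insert w (insert u₀ V4)), v.Prime ∧ v ≠ 2 :=
    forall_mem_insert _ _ _ |>.mpr ⟨d1, b4⟩
  suffices hs : Hol (insert r (insert w (insert u₀ V4))) ∅ = val (st u) q p₁ p₂ p₃ from
    hs ▸ V2_hol b5
  have l3 := a5 _ m3
  have l1 := a5 _ m1
  have l2 := a5 _ m2
  have lq := a5 _ mq
  simp only [hV4, forall_mem_insert] at c2 c3 d2 d3
  obtain ⟨luw, -⟩ := c2
  obtain ⟨lwr, -⟩ := d2
  obtain ⟨wu, w3, w1, w2, wq, wV⟩ := c3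
  obtain ⟨rw', ru, r3, r1, r2, rq, rV⟩ := d3
  have u3 := a8 _ m3 n3u
  have u1 := a8 _ m1 n1u
  have u2 := a8 _ m2 n2u
  have uq := a8 _ mq nqu
  simp only [mem_insert, mem_singleton, true_or, or_true, iff_true] at wu w3 w1 w2 wq wV rw' ru r3 r1 r2 rq rV u3 u1 u2 uq
  replace w3 : ¬ p₃ ∣ w - 1 := fun h => by have := w3.mp h; omega
  replace w1 : ¬ p₁ ∣ w - 1 := fun h => by have := w1.mp h; omega
  replace w2 : ¬ p₂ ∣ w - 1 := fun h => by have := w2.mp h; omega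
  replace ru : ¬ u₀ ∣ r - 1 := fun h => by have := ru.mp h; omega
  replace uq : ¬ q ∣ u₀ - 1 := fun h => by have := uq.mp h; omega
  replace wV : ∀ v ∈ V, ¬ v ∣ w - 1 := fun v hv h => by
    have := a4 v hv
    rcases (wV v hv).mp h with h | h
    · omega
    · exact vq (h ▸ hv)
  replace rV : ∀ v ∈ V, ¬ v ∣ r - 1 := fun v hv h => by
    have := a4 v hv
    rcases (rV v hv).mp h with h | h | h | h | h
    · omega
    · exact vq (h ▸ hv)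
    · exact v1 (h ▸ hv)
    · exact v2 (h ▸ hv)
    · exact v3 (h ▸ hv)
  have e0 : r ∉ (∅ : Finset ℕ) := notMem_empty _
  have e1 : w ∉ insert r (∅ : Finset ℕ) := by simp; omega
  have e2 : u₀ ∉ insert r (∅ : Finset ℕ) := by simp; omega
  have e3 : u₀ ∉ insert w (insert r (∅ : Finset ℕ)) := by simp; omega
  have f1 : Hol V (insert w (insert r ∅)) = lb u := by rw [hol_target wV, hol_target rV, a11]
  have f2 : Hol V (insert u₀ (insert r ∅)) = la u := by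
    rw [insert_comm, hol_target rV, insert_empty, a10]
  have f3 : Hol V (insert u₀ (insert w (insert r ∅))) = la u := by
    rw [insert_comm, hol_target wV, f2]
  have g1 : ∀ v ∈ insert u₀ V4, v < w := fun v hv => by
    rcases mem_insert.mp hv with rfl | hv
    · exact luw
    · exact (b2 v hv).trans luw
  have g2 : ∀ v ∈ insert w (insert u₀ V4), v < r := fun v hv => by
    rcases mem_insert.mp hv with rfl | hv
    · exact lwr
    · exact (g1 v hv).trans lwr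
  rw [hol_top b4 g2, hol_top b3 g1, hol_top b1 b2, hol_top b1 b2, key, key, key, f1, f2, f3]
  simp only [cc_insert_pos e0 r3, cc_insert_pos e0 r1, cc_insert_pos e0 r2, cc_insert_pos e0 rq,
    cc_insert_pos e0 rw', cc_insert_neg ru, cc_insert_pos e1 wu, cc_insert_pos e1 wq,
    cc_insert_neg w3, cc_insert_neg w1, cc_insert_neg w2, cc_insert_neg uq,
    cc_insert_pos e2 u3, cc_insert_pos e2 u1, cc_insert_pos e2 u2,
    cc_insert_pos e3 u3, cc_insert_pos e3 u1, cc_insert_pos e3 u2, cc_empty]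
  simp only [gs, sum_range_succ, range_zero, sum_empty, val, la, lb]
  ring

lemma rec_bound (f : ℕ → ℝ) (hf : ∀ n, f n ≤ n) {a : ℝ} (ha : 0 < a)
    (h : ∀ᶠ n : ℕ in atTop, f n ≤ f ((n + 1) / 2) + a * n) :
    ∀ᶠ n : ℕ in atTop, f n ≤ 4 * a * n := by
  obtain ⟨n₀, h⟩ := eventually_atTop.mp h
  have h1 : ∀ n, f n ≤ (n₀ + 3 : ℕ) + 3 * a * n := by
    intro n
    induction n using Nat.strong_induction_on with
    | _ n ih =>
      rcases le_or_gt n (n₀ + 3) with h2 | h2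
      · have : (n : ℝ) ≤ (n₀ + 3 : ℕ) := by exact_mod_cast h2
        have := hf n
        have : 0 ≤ 3 * a * n := by positivity
        linarith
      · have h3 := ih ((n + 1) / 2) (by omega)
        have h4 := h n (by omega)
        have h5 : (3 : ℝ) * ((n + 1) / 2 : ℕ) ≤ 2 * n := by
          exact_mod_cast (by omega : 3 * ((n + 1) / 2) ≤ 2 * n)
        nlinarith
  filter_upwards [(tendsto_natCast_atTop_atTop (R := ℝ)).eventually_ge_atTop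
    ((n₀ + 3 : ℕ) / a)] with n hn
  rw [div_le_iff₀ ha] at hn
  have := h1 n
  nlinarith

lemma V2.two_mul {k : ℕ} (h : V2 k) : V2 (2 * k) := fun j => by
  have := h (j + 1)
  rwa [pow_succ, mul_assoc] at this

open Classical in
/-- ROW R1, with `block` as a hypothesis -/
theorem density_of_block
    (hb : ∀ {δ : ℝ}, 0 < δ → ∀ {a₀ : ℕ}, a₀ = 1 ∨ a₀ = 2 → ∀ᶠ X : ℕ in atTop,
      ({k : ℕ | X < k ∧ k ≤ 2 * X ∧ k % 2 = 1 ∧ k % 3 ≠ a₀ ∧ ¬ V2 k}.ncard : ℝ) ≤ δ * X)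
    {ε : ℝ} (hε : 0 < ε) : ∀ᶠ N : ℕ in atTop,
    ({y : ℕ | 1 ≤ y ∧ y ≤ N ∧ ¬ ∃ x, Squarefree x ∧ IsGnu x y}.ncard : ℝ) ≤ ε * N := by
  have hδ : 0 < ε / 32 := by positivity
  have fin : ∀ X a₀ : ℕ,
      {k : ℕ | X < k ∧ k ≤ 2 * X ∧ k % 2 = 1 ∧ k % 3 ≠ a₀ ∧ ¬ V2 k}.Finite := fun X a₀ =>
    (Set.finite_Iic (2 * X)).subset fun y hy => hy.2.1
  have finB : ∀ n : ℕ, {k : ℕ | 1 ≤ k ∧ k ≤ n ∧ k % 2 = 1 ∧ ¬ V2 k}.Finite := fun n =>
    (Set.finite_Iic n).subset fun y hy => hy.2.1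
  have finA : ∀ n : ℕ, {k : ℕ | 1 ≤ k ∧ k ≤ n ∧ ¬ V2 k}.Finite := fun n =>
    (Set.finite_Iic n).subset fun y hy => hy.2.1
  have triv : ∀ (n : ℕ) (P : ℕ → Prop), (({k : ℕ | 1 ≤ k ∧ k ≤ n ∧ P k}.ncard : ℕ) : ℝ) ≤ n := by
    intro n P
    have := Set.ncard_le_ncard (s := {k : ℕ | 1 ≤ k ∧ k ≤ n ∧ P k}) (t := ↑(Icc 1 n))
      (fun k hk => by simpa using ⟨hk.1, hk.2.1⟩) (finite_toSet _)
    rw [Set.ncard_coe_finset, Nat.card_Icc] at this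
    exact_mod_cast this
  have half : Tendsto (fun n : ℕ => (n + 1) / 2) atTop atTop :=
    tendsto_atTop_atTop.mpr fun b => ⟨2 * b, fun n hn => by omega⟩
  have hB := rec_bound (fun n => ({k : ℕ | 1 ≤ k ∧ k ≤ n ∧ k % 2 = 1 ∧ ¬ V2 k}.ncard : ℝ))
    (fun n => triv n _) (a := 2 * (ε / 32)) (by positivity) (by
      filter_upwards [half.eventually (hb hδ (Or.inl rfl)), half.eventually (hb hδ (Or.inr rfl))]
        with n h1 h2
      obtain ⟨m, hm⟩ : ∃ m, m = (n + 1) / 2 := ⟨_, rfl⟩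
      rw [← hm] at h1 h2 ⊢
      have h3 : (m : ℝ) ≤ n := by exact_mod_cast (by omega : m ≤ n)
      have h4 := (Set.ncard_le_ncard (s := {k : ℕ | 1 ≤ k ∧ k ≤ n ∧ k % 2 = 1 ∧ ¬ V2 k})
        (t := {k : ℕ | 1 ≤ k ∧ k ≤ m ∧ k % 2 = 1 ∧ ¬ V2 k} ∪
          ({k : ℕ | m < k ∧ k ≤ 2 * m ∧ k % 2 = 1 ∧ k % 3 ≠ 1 ∧ ¬ V2 k} ∪
            {k : ℕ | m < k ∧ k ≤ 2 * m ∧ k % 2 = 1 ∧ k % 3 ≠ 2 ∧ ¬ V2 k}))
        (fun k ⟨k1, k2, k3, k4⟩ => by
          rcases le_or_gt k m with k5 | k5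
          · exact Or.inl ⟨k1, k5, k3, k4⟩
          · by_cases k6 : k % 3 = 1
            · exact Or.inr (Or.inr ⟨k5, by omega, k3, by omega, k4⟩)
            · exact Or.inr (Or.inl ⟨k5, by omega, k3, k6, k4⟩))
        ((finB m).union ((fin m 1).union (fin m 2)))).trans
        ((Set.ncard_union_le _ _).trans (Nat.add_le_add_left (Set.ncard_union_le _ _) _))
      have h5 := (Nat.cast_le (α := ℝ)).mpr h4
      push_cast at h5
      nlinarith)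
  have hA := rec_bound (fun n => ({k : ℕ | 1 ≤ k ∧ k ≤ n ∧ ¬ V2 k}.ncard : ℝ))
    (fun n => triv n _) (a := 4 * (2 * (ε / 32))) (by positivity) (by
      filter_upwards [hB] with n h1
      have h4 := (Set.ncard_le_ncard (s := {k : ℕ | 1 ≤ k ∧ k ≤ n ∧ ¬ V2 k})
        (t := (fun k => 2 * k) '' {k : ℕ | 1 ≤ k ∧ k ≤ (n + 1) / 2 ∧ ¬ V2 k} ∪
          {k : ℕ | 1 ≤ k ∧ k ≤ n ∧ k % 2 = 1 ∧ ¬ V2 k})
        (fun k ⟨k1, k2, k4⟩ => by
          by_cases k3 : k % 2 = 1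
          · exact Or.inr ⟨k1, k2, k3, k4⟩
          · have k5 : 2 * (k / 2) = k := by omega
            exact Or.inl ⟨k / 2, ⟨by omega, by omega, fun h => k4 (k5 ▸ h.two_mul)⟩, k5⟩)
        (((finA _).image _).union (finB n))).trans
        ((Set.ncard_union_le _ _).trans (Nat.add_le_add_right (Set.ncard_image_le (finA _)) _))
      have h5 := (Nat.cast_le (α := ℝ)).mpr h4
      push_cast at h5
      linarith)
  filter_upwards [hA] with n h1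
  have h2 := Set.ncard_le_ncard
    (s := {y : ℕ | 1 ≤ y ∧ y ≤ n ∧ ¬ ∃ x, Squarefree x ∧ IsGnu x y})
    (t := {k : ℕ | 1 ≤ k ∧ k ≤ n ∧ ¬ V2 k})
    (fun k ⟨k1, k2, k3⟩ => ⟨k1, k2, fun h => k3 (by simpa using h 0)⟩) (finA n)
  have h3 := (Nat.cast_le (α := ℝ)).mpr h2
  linarith

end Pool.Agent.H84D
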