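import Pool.Agent.H84D.Mass
import Pool.Agent.H84D.Real

set_option autoImplicit false

/-! Representations with an unwanted divisibility relation. -/

namespace Pool.Agent.H84D

open Finset Filter Pool.Agent.MP_a96b63_al

/-- some entry of the list divides `n - 1` -/
def Hit (l : List ℕ) (n : ℕ) : Prop := ∃ y ∈ l, y ∣ n - 1

instance (l : List ℕ) (n : ℕ) : Decidable (Hit l n) := by unfold Hit; infer_instance

/-- the indicator of `Hit` -/
noncomputable def hit (l : List ℕ) (n : ℕ) : ℝ := if Hit l n then 1 else 0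

lemma hit_nonneg (l : List ℕ) (n : ℕ) : 0 ≤ hit l n := by
  unfold hit; split_ifs <;> norm_num

lemma dt_clean {l : List ℕ} {p : ℕ} (hl : Clean l) (hp : p.Prime) (h2 : 2 < p)
    (hlt : ∀ y ∈ l, y < p) (hh : ¬ Hit l p) : Clean (p :: l) := by
  refine ⟨List.nodup_cons.2 ⟨fun h => lt_irrefl _ (hlt p h), hl.1⟩, fun y hy => ?_,
    fun y hy y' hy' => ?_⟩
  · rcases List.mem_cons.1 hy with rfl | hy
    · exact ⟨hp, by omega⟩
    · exact hl.2.1 y hy
  · rcases List.mem_cons.1 hy with rfl | h1 <;> rcases List.mem_cons.1 hy' with rfl | h2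
    · exact fun h => absurd (Nat.le_of_dvd (by omega) h) (by omega)
    · have := hlt y' h2
      have := (hl.2.1 y' h2).1.two_le
      exact fun h => absurd (Nat.le_of_dvd (by omega) h) (by omega)
    · exact fun h => hh ⟨y, h1, h⟩
    · exact hl.2.2 y h1 y' h2

lemma dt_one (y : ℕ) {T : ℕ} {s : Finset ℕ} (hs : ∀ n ∈ s, 1 ≤ n ∧ n ≤ T) :
    (#(s.filter fun n => y ∣ n - 1) : ℝ) ≤ T / y + 1 := by
  have h1 : #(s.filter fun n => y ∣ n - 1) ≤ #(range (T / y + 1)) := by
    refine card_le_card_of_injOn (fun n => (n - 1) / y) (fun n hn => ?_) fun n hn m hm h => ?_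
    · have := (hs n (mem_filter.1 hn).1).2
      exact mem_coe.2 (mem_range.2 (Nat.lt_succ_of_le (Nat.div_le_div_right (by omega))))
    · obtain ⟨a1, a2⟩ := mem_filter.1 hn
      obtain ⟨b1, b2⟩ := mem_filter.1 hm
      have e1 := Nat.div_mul_cancel a2
      have e2 := Nat.div_mul_cancel b2
      have := (hs n a1).1
      have := (hs m b1).1
      have h' : (n - 1) / y = (m - 1) / y := h
      rw [h'] at e1
      omega
  rw [card_range] at h1
  have h2 : ((T / y : ℕ) : ℝ) ≤ T / y := Nat.cast_div_le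
  have h3 : (#(s.filter fun n => y ∣ n - 1) : ℝ) ≤ (T / y : ℕ) + 1 := by exact_mod_cast h1
  linarith

lemma dt_count {T : ℕ} {m : ℝ} (hm : 0 < m) (hT : m ≤ T) {s : Finset ℕ}
    (hs : ∀ n ∈ s, 1 ≤ n ∧ n ≤ T) (l : List ℕ) (hl : ∀ y ∈ l, m ≤ y) :
    ∑ n ∈ s, hit l n ≤ l.length * (2 * T / m) := by
  induction l with
  | nil => simp [hit, Hit]
  | cons y l ih =>
    have hy := hl y List.mem_cons_self
    have h1 : ∑ n ∈ s, hit (y :: l) n ≤ ∑ n ∈ s, ((if y ∣ n - 1 then 1 else 0) + hit l n) := by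
      refine sum_le_sum fun n _ => ?_
      have := hit_nonneg l n
      by_cases h : y ∣ n - 1
      · rw [if_pos h, hit]; split_ifs <;> linarith
      · rw [if_neg h, zero_add]
        unfold hit Hit
        simp [h]
    rw [sum_add_distrib, sum_boole] at h1
    have h2 := dt_one y hs
    have h3 := ih fun z hz => hl z (List.mem_cons_of_mem _ hz)
    have h4 : (T : ℝ) / y ≤ T / m := div_le_div_of_nonneg_left (Nat.cast_nonneg _) hm hy
    have h5 : 1 ≤ (T : ℝ) / m := (one_le_div hm).2 hT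
    have h6 : 2 * (T : ℝ) / m = 2 * (T / m) := by ring
    rw [List.length_cons]
    push_cast
    rw [h6] at h3 ⊢
    linarith

/-- weights bounded by `w`, lists of length at most `2 L` with entries at least `L ^ 5` -/
lemma dt_wsum {P T : ℕ} {L w : ℝ} (hL : 1 ≤ L) (hT : L ^ 5 ≤ T) {l : List ℕ}
    (hl : ∀ y ∈ l, L ^ 5 ≤ y) (hlen : (l.length : ℝ) ≤ 2 * L) {f : ℕ → ℝ} (hw : 0 ≤ w)
    (hf : ∀ p ∈ PP P T, f p ≤ w * L) : ∑ p ∈ PP P T, f p * hit l p ≤ 4 * w * T / L ^ 3 := by
  have h0 : 0 < L := by linarith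
  have h1 := dt_count (s := PP P T) (pow_pos h0 5) hT
    (fun n hn => ⟨(ms_mem.1 hn).2.2.one_le, (ms_mem.1 hn).2.1⟩) l hl
  calc _ ≤ ∑ p ∈ PP P T, w * L * hit l p :=
        sum_le_sum fun p hp => mul_le_mul_of_nonneg_right (hf p hp) (hit_nonneg ..)
    _ ≤ w * L * (2 * L * (2 * T / L ^ 5)) := by
        rw [← mul_sum]
        exact mul_le_mul_of_nonneg_left (h1.trans (by gcongr)) (by positivity)
    _ = _ := by field_simp; ring

lemma dt_log {X n : ℕ} (h : n ≤ X) : Real.log n ≤ LL X := by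
  rcases Nat.eq_zero_or_pos n with rfl | h0
  · simpa [LL] using Real.log_natCast_nonneg X
  · exact Real.log_le_log (by exact_mod_cast h0) (by exact_mod_cast h)

variable {c X : ℕ} {D : Fm}

lemma dt_three (hs : Siz c X D) (hL : 3 ≤ LL X) {l : List ℕ} (hl : ∀ y ∈ l, LL X ^ 5 ≤ y)
    (hlen : (l.length : ℝ) ≤ LL X + 1) (hY : LL X ^ 5 ≤ Y1 X) :
    ms3 c X D (fun p₁ p₂ p₃ => hit l p₂ + hit (p₂ :: l) p₁ + hit (p₁ :: p₂ :: l) p₃) ≤
      4096 * (P1 X * P2 X * N4 c X D) / LL X ^ 3 := by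
  have h0 : 0 < LL X := by linarith
  obtain ⟨s1, s2, s3, s4, s5, s6⟩ := id hs
  have big : ∀ n : ℕ, Y1 X ≤ n → LL X ^ 5 ≤ n := fun n hn => hY.trans (by exact_mod_cast hn)
  have b1 := ms_sum hs.P1_pos
  have b2 := ms_sum hs.P2_pos
  have b3 := ms_log (N3 X D) (N4 c X D)
  have n1 : 0 ≤ ∑ p ∈ PP (P1 X) (2 * P1 X), msw (P1 X) p := sum_nonneg fun _ _ => msw_nonneg ..
  have n2 : 0 ≤ ∑ p ∈ PP (P2 X) (2 * P2 X), msw (P2 X) p := sum_nonneg fun _ _ => msw_nonneg ..
  have n3 : 0 ≤ ∑ p ∈ PP (N3 X D) (N4 c X D), Real.log p :=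
    sum_nonneg fun p _ => Real.log_natCast_nonneg p
  have w : ∀ P : ℕ, 1 ≤ P → 2 * P ≤ X → ∀ p ∈ PP P (2 * P), msw P p ≤ 4 * LL X :=
    fun P hP hX p hp => (msw_le hP hp).trans (by
      have := dt_log ((ms_mem.1 hp).2.1.trans hX); linarith)
  have t2 : ms3 c X D (fun _ p₂ _ => hit l p₂) ≤ 1024 * (P1 X * P2 X * N4 c X D) / LL X ^ 3 := by
    have e : ms3 c X D (fun _ p₂ _ => hit l p₂) = (∑ p ∈ PP (P1 X) (2 * P1 X), msw (P1 X) p) *
        ((∑ p ∈ PP (P2 X) (2 * P2 X), msw (P2 X) p * hit l p) *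
          ∑ p ∈ PP (N3 X D) (N4 c X D), Real.log p) := by
      rw [sum_mul_sum, sum_mul, ms3]
      refine sum_congr rfl fun _ _ => ?_
      rw [mul_sum]
      refine sum_congr rfl fun _ _ => ?_
      rw [mul_sum]
      exact sum_congr rfl fun _ _ => by ring
    have a := dt_wsum (P := P2 X) (T := 2 * P2 X) (w := 4) (by linarith) (big _ (by omega)) hl
      (by linarith) (by norm_num) (w _ hs.P2_pos (by omega))
    rw [e]
    refine (mul_le_mul b1 (mul_le_mul a b3 n3 (by positivity))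
      (mul_nonneg (sum_nonneg fun _ _ => mul_nonneg (msw_nonneg ..) (hit_nonneg ..)) n3)
      (by positivity)).trans_eq ?_
    push_cast; ring
  have t1 : ms3 c X D (fun p₁ p₂ _ => hit (p₂ :: l) p₁) ≤
      1024 * (P1 X * P2 X * N4 c X D) / LL X ^ 3 := by
    have e : ms3 c X D (fun p₁ p₂ _ => hit (p₂ :: l) p₁) =
        ∑ p₂ ∈ PP (P2 X) (2 * P2 X), msw (P2 X) p₂ *
        ((∑ p ∈ PP (P1 X) (2 * P1 X), msw (P1 X) p * hit (p₂ :: l) p) *
          ∑ p ∈ PP (N3 X D) (N4 c X D), Real.log p) := by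
      rw [ms3, sum_comm]
      refine sum_congr rfl fun _ _ => ?_
      rw [sum_mul_sum, mul_sum]
      refine sum_congr rfl fun _ _ => ?_
      rw [mul_sum]
      exact sum_congr rfl fun _ _ => by ring
    rw [e]
    calc _ ≤ ∑ p₂ ∈ PP (P2 X) (2 * P2 X), msw (P2 X) p₂ *
          (4 * 4 * ((2 * P1 X : ℕ) : ℝ) / LL X ^ 3 * (2 * N4 c X D)) := by
          refine sum_le_sum fun p₂ h2 => mul_le_mul_of_nonneg_left (mul_le_mul ?_ b3 n3
            (by positivity)) (msw_nonneg ..)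
          have := (ms_mem.1 h2).1
          refine dt_wsum (by linarith) (big _ (by omega)) (fun y hy => ?_)
            (by rw [List.length_cons]; push_cast; linarith) (by norm_num)
            (w _ hs.P1_pos (by omega))
          rcases List.mem_cons.1 hy with rfl | hy
          · exact big _ (by omega)
          · exact hl y hy
      _ ≤ 16 * P2 X * (4 * 4 * ((2 * P1 X : ℕ) : ℝ) / LL X ^ 3 * (2 * N4 c X D)) := by
          rw [← sum_mul]; exact mul_le_mul_of_nonneg_right b2 (by positivity)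
      _ = _ := by push_cast; ring
  have t3 : ms3 c X D (fun p₁ p₂ p₃ => hit (p₁ :: p₂ :: l) p₃) ≤
      1024 * (P1 X * P2 X * N4 c X D) / LL X ^ 3 := by
    calc _ ≤ ∑ p₁ ∈ PP (P1 X) (2 * P1 X), ∑ p₂ ∈ PP (P2 X) (2 * P2 X),
          msw (P1 X) p₁ * msw (P2 X) p₂ * (4 * 1 * (N4 c X D : ℝ) / LL X ^ 3) := by
          refine sum_le_sum fun p₁ h1 => sum_le_sum fun p₂ h2 => ?_
          simp only [mul_assoc (msw (P1 X) p₁ * msw (P2 X) p₂), ← mul_sum]
          refine mul_le_mul_of_nonneg_left ?_ (mul_nonneg (msw_nonneg ..) (msw_nonneg ..))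
          have := (ms_mem.1 h1).1
          have := (ms_mem.1 h2).1
          refine dt_wsum (by linarith) (big _ (by omega)) (fun y hy => ?_)
            (by rw [List.length_cons, List.length_cons]; push_cast; linarith) (by norm_num)
            fun p hp => by rw [one_mul]; exact dt_log ((ms_mem.1 hp).2.1.trans s6)
          rcases List.mem_cons.1 hy with rfl | hy
          · exact big _ (by omega)
          rcases List.mem_cons.1 hy with rfl | hy
          · exact big _ (by omega)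
          · exact hl y hy
      _ = (∑ p ∈ PP (P1 X) (2 * P1 X), msw (P1 X) p) * (∑ p ∈ PP (P2 X) (2 * P2 X), msw (P2 X) p) *
          (4 * 1 * (N4 c X D : ℝ) / LL X ^ 3) := by
          rw [sum_mul_sum, sum_mul]
          exact sum_congr rfl fun _ _ => by rw [sum_mul]
      _ ≤ 16 * P1 X * (16 * P2 X) * (4 * 1 * (N4 c X D : ℝ) / LL X ^ 3) := by gcongr
      _ = _ := by ring
  rw [ms3_add, ms3_add]
  have : 0 ≤ (P1 X * P2 X * N4 c X D : ℝ) / LL X ^ 3 := by positivity
  simp only [mul_div_assoc] at t1 t2 t3 this ⊢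
  linarith

/-- ROW DIRTY, with the realisation statement as a hypothesis -/
theorem dirty_of (hR : ∀ {u : List ℕ} {q p₁ p₂ p₃ : ℕ}, Clean (p₃ :: p₁ :: p₂ :: q :: u) →
      V2 (val (st u) q p₁ p₂ p₃)) (c B a₀ : ℕ) : ∀ᶠ X : ℕ in atTop, ∀ D : Fm, Fam c B a₀ X D →
    ∀ S : Finset ℤ, (∀ k : ℕ, (k : ℤ) ∈ S → ¬ V2 k) → TT c X D D.F (ind S) ≤ X / LL X := by
  filter_upwards [siz c B a₀, siz_L 3, siz_L (10 ^ 7 * c),
    siz_Y1 61 0 1 (show (1 / 8 : ℝ) < 3 / 20 by norm_num),
    siz_pow_EE 1 5 (show (0 : ℝ) < 1 / 8 by norm_num)] with X hX hL hc hY hE D hD S hS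
  have hs := hX D hD
  obtain ⟨s1, s2, s3, s4, s5, s6⟩ := id hs
  simp only [pow_zero, pow_one, mul_one, one_mul] at hY hE
  have h0 : 0 < LL X := by linarith
  have hE3 : (3 : ℝ) ≤ EE X (1 / 8) := by
    refine le_trans ?_ hE
    calc (3 : ℝ) ≤ LL X := hL
      _ = LL X ^ 1 := (pow_one _).symm
      _ ≤ _ := pow_le_pow_right₀ (by linarith) (by norm_num)
  have hF : (0 : ℝ) < #D.F := by exact_mod_cast hD.F_ne.card_pos
  have hQ : (0 : ℝ) < #D.QQ := by exact_mod_cast hD.QQ_ne.card_pos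
  have hq : ∀ q ∈ D.QQ, EE X (1 / 8) < q := fun q hq => by
    have : (Y1 X : ℝ) ≤ 60 * q := by exact_mod_cast (hD.qpr q hq).2.2.2
    linarith
  set Z : ℝ := P1 X * P2 X * N4 c X D with hZ
  have hZ0 : 0 ≤ Z := by positivity
  have h1 : ∀ z ∈ D.F, ∑ q ∈ D.QQ, ((q : ℝ) + 4) * z.1 *
      ms3 c X D (fun p₁ p₂ p₃ => ind S (val z q p₁ p₂ p₃)) ≤
      #D.QQ * (Y1 X * D.Y2 * Z * (5120 / LL X ^ 3)) := fun z hz => by
    obtain ⟨u, u1, u2, u3, u4⟩ := hD.lst z hz
    have a1 : ∀ q ∈ D.QQ, ms3 c X D (fun p₁ p₂ p₃ => ind S (val z q p₁ p₂ p₃)) ≤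
        512 * Z * hit u q + 4096 * Z / LL X ^ 3 := fun q hq' => by
      obtain ⟨q1, q2, q3, q4⟩ := hD.qpr q hq'
      have q5 := hq q hq'
      refine le_trans ?_ (add_le_add (ms3_const_le hs.P1_pos hs.P2_pos (hit_nonneg u q))
        (dt_three hs hL (l := q :: u) (fun y hy => ?_)
          (by rw [List.length_cons]; push_cast; linarith) (by linarith)))
      · rw [← ms3_add]
        refine ms3_mono fun p₁ m1 p₂ m2 p₃ m3 => ?_
        obtain ⟨b1, b2, b3⟩ := ms_mem.1 m1
        obtain ⟨c1, c2, c3⟩ := ms_mem.1 m2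
        obtain ⟨d1, d2, d3⟩ := ms_mem.1 m3
        have g0 := hit_nonneg u q
        have g1 := hit_nonneg (q :: u) p₂
        have g2 := hit_nonneg (p₂ :: q :: u) p₁
        have g3 := hit_nonneg (p₁ :: p₂ :: q :: u) p₃
        unfold ind
        split_ifs with hm
        swap
        · linarith
        by_contra hcon
        have k0 : ¬ Hit u q := fun h => by rw [hit, if_pos h] at hcon; linarith
        have k1 : ¬ Hit (q :: u) p₂ := fun h => by
          rw [show hit (q :: u) p₂ = 1 from if_pos h] at hcon; linarith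
        have k2 : ¬ Hit (p₂ :: q :: u) p₁ := fun h => by
          rw [show hit (p₂ :: q :: u) p₁ = 1 from if_pos h] at hcon; linarith
        have k3 : ¬ Hit (p₁ :: p₂ :: q :: u) p₃ := fun h => by
          rw [show hit (p₁ :: p₂ :: q :: u) p₃ = 1 from if_pos h] at hcon; linarith
        have lq : ∀ y ∈ u, y < q := fun y hy => by exact_mod_cast (u4 y hy).2.trans_lt q5
        have q6 : 2 < q := by exact_mod_cast (show (2 : ℝ) < q by linarith)
        have e0 := dt_clean u1 q1 q6 lq k0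
        have e1 := dt_clean e0 c3 (by omega) (fun y hy => by
          rcases List.mem_cons.1 hy with rfl | hy
          · omega
          · have := lq y hy; omega) k1
        have e2 := dt_clean e1 b3 (by omega) (fun y hy => by
          simp only [List.mem_cons] at hy
          rcases hy with rfl | rfl | hy
          · omega
          · omega
          · have := lq y hy; omega) k2
        have e3 := dt_clean e2 d3 (by omega) (fun y hy => by
          simp only [List.mem_cons] at hy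
          rcases hy with rfl | rfl | rfl | hy
          · omega
          · omega
          · omega
          · have := lq y hy; omega) k3
        exact hS _ hm (u2 ▸ hR e3)
      · rcases List.mem_cons.1 hy with rfl | hy
        · linarith
        · exact (u4 y hy).1
    have a2 := dt_count (T := Y1 X) (s := D.QQ) (pow_pos h0 5) (by linarith)
      (fun n hn => ⟨(hD.qpr n hn).1.one_le, by have := (hD.qpr n hn).2.2.1; omega⟩) u
      fun y hy => (u4 y hy).1
    have a3 : ∑ q ∈ D.QQ, hit u q ≤ #D.QQ * (2 / LL X ^ 3) := by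
      refine a2.trans ?_
      calc (u.length : ℝ) * (2 * Y1 X / LL X ^ 5) ≤ LL X * (2 * (LL X * #D.QQ) / LL X ^ 5) := by
            gcongr; exact hD.qmany
        _ = _ := by field_simp
    calc _ ≤ ∑ q ∈ D.QQ, Y1 X * D.Y2 * (512 * Z * hit u q + 4096 * Z / LL X ^ 3) := by
          refine sum_le_sum fun q hq' => ?_
          have := hit_nonneg u q
          exact (mul_le_mul_of_nonneg_left (a1 q hq') (by positivity)).trans
            (mul_le_mul_of_nonneg_right (hD.al_le hz hq') (by positivity))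
      _ = Y1 X * D.Y2 * (512 * Z * ∑ q ∈ D.QQ, hit u q + #D.QQ * (4096 * Z / LL X ^ 3)) := by
          rw [← mul_sum, sum_add_distrib, ← mul_sum, sum_const, nsmul_eq_mul]
      _ ≤ Y1 X * D.Y2 * (512 * Z * (#D.QQ * (2 / LL X ^ 3)) + #D.QQ * (4096 * Z / LL X ^ 3)) := by
          gcongr
      _ = _ := by ring
  have h2 := sum_le_card_nsmul _ _ _ h1
  rw [nsmul_eq_mul] at h2
  rw [TT_eq]
  calc _ ≤ 1 / ((#D.F : ℝ) * #D.QQ) *
        (#D.F * (#D.QQ * (Y1 X * D.Y2 * Z * (5120 / LL X ^ 3)))) := by gcongr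
    _ = Y1 X * D.Y2 * Z * (5120 / LL X ^ 3) := by field_simp
    _ ≤ 1000 * c * X * (5120 / LL X ^ 3) := 
        mul_le_mul_of_nonneg_right (ms_scale c X D) (by positivity)
    _ = X / LL X * (5120000 * c / LL X ^ 2) := by field_simp; ring
    _ ≤ X / LL X * 1 := by
        refine mul_le_mul_of_nonneg_left ((div_le_one (by positivity)).2 ?_) (by positivity)
        have : (0 : ℝ) ≤ c := Nat.cast_nonneg c
        nlinarith
    _ = _ := mul_one _

/-- ROW DIRTY -/
theorem dirty (c B a₀ : ℕ) : ∀ᶠ X : ℕ in atTop, ∀ D : Fm, Fam c B a₀ X D →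
    ∀ S : Finset ℤ, (∀ k : ℕ, (k : ℤ) ∈ S → ¬ V2 k) → TT c X D D.F (ind S) ≤ X / LL X :=
  dirty_of real_val c B a₀

end Pool.Agent.H84D
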