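import Pool.Agent.MP_a96b63_al.Fam

set_option autoImplicit false

namespace Pool.Agent.H84D
open Pool.Agent.MP_a96b63_al Finset

/-- the forbidden unit class of the new prime modulo `π`. -/
lemma fam_exists_Z {v : List ℕ} (hv : Adm v) (π : ℕ) : ∃ Z : Finset ℕ, #Z ≤ 1 ∧
    (∀ r ∈ Z, Nat.Coprime r π ∧ r < π) ∧
    (π.Prime → ∀ p : ℕ, p.Prime → π < p → π ∣ la (p :: v) → ∃ r ∈ Z, p ≡ r [MOD π]) := by
  by_cases h : π.Prime ∧ ∃ p : ℕ, p.Prime ∧ π < p ∧ π ∣ la (p :: v)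
  · obtain ⟨hπ, p, hp, h1, h2⟩ := h
    refine ⟨{p % π}, by simp, fun r hr => ?_, fun _ p' _ _ h3 => ⟨p % π, mem_singleton_self _, ?_⟩⟩
    · rw [mem_singleton.mp hr]
      refine ⟨?_, Nat.mod_lt _ hπ.pos⟩
      have : Nat.Coprime p π := (Nat.coprime_primes hp hπ).mpr (by omega)
      rw [Nat.Coprime, ← Nat.gcd_rec, Nat.gcd_comm]
      exact this
    · exact (modEq_of_dvd_la hv hπ.pos h3 h2).trans (Nat.mod_modEq p π).symm
  · exact ⟨∅, by simp, by simp, fun hπ p hp h1 h2 => absurd ⟨hπ, p, hp, h1, h2⟩ h⟩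

lemma fam_card_one_mod {y P : ℕ} (S : Finset ℕ) (hS : ∀ p ∈ S, 1 ≤ p ∧ p ≤ P) :
    #{p ∈ S | y ∣ p - 1} ≤ P / y + 1 := by
  refine le_trans (card_le_card_of_injOn (fun p => (p - 1) / y) (t := range (P / y + 1))
    (fun p hp => ?_) fun p hp p' hp' h => ?_) (by simp)
  · have h1 := hS p (mem_filter.mp (mem_coe.mp hp)).1
    have : (p - 1) / y ≤ P / y := Nat.div_le_div_right (by omega)
    simp only [coe_range, Set.mem_Iio]; omega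
  · obtain ⟨a1, a2⟩ := mem_filter.mp (mem_coe.mp hp)
    obtain ⟨b1, b2⟩ := mem_filter.mp (mem_coe.mp hp')
    have c1 := Nat.div_mul_cancel a2
    have c2 := Nat.div_mul_cancel b2
    have := (hS p a1).1
    have := (hS p' b1).1
    simp only at h
    rw [h] at c1
    omega

lemma fam_card_bad {Y P : ℕ} (hY : 0 < Y) (v : List ℕ) (hv : ∀ y ∈ v, Y ≤ y) (S : Finset ℕ)
    (hS : ∀ p ∈ S, 1 ≤ p ∧ p ≤ P) :
    #{p ∈ S | ∃ y ∈ v, y ∣ p - 1} ≤ v.length * (P / Y + 1) := by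
  induction v with
  | nil => simp
  | cons y v ih =>
    have h1 := ih fun z hz => hv z (List.mem_cons_of_mem _ hz)
    have hy := hv y List.mem_cons_self
    have h2 := fam_card_one_mod (y := y) S hS
    have h3 : P / y ≤ P / Y := Nat.div_le_div_left hy hY
    have h4 : {p ∈ S | ∃ z ∈ y :: v, z ∣ p - 1} ⊆
        {p ∈ S | y ∣ p - 1} ∪ {p ∈ S | ∃ z ∈ v, z ∣ p - 1} := by
      intro p hp
      obtain ⟨a1, z, a2, a3⟩ := mem_filter.mp hp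
      rcases List.mem_cons.mp a2 with rfl | a2
      · exact mem_union_left _ (mem_filter.mpr ⟨a1, a3⟩)
      · exact mem_union_right _ (mem_filter.mpr ⟨a1, z, a2, a3⟩)
    have h5 := (card_le_card h4).trans (card_union_le _ _)
    rw [List.length_cons, add_mul, one_mul]
    omega

/-- One layer above a clean list, from a set `S` of primes larger than all entries. -/
lemma fam_layer {Y P n : ℕ} (hY : 0 < Y) {v : List ℕ} (hv : Clean v) (hvY : ∀ y ∈ v, Y ≤ y)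
    (S : Finset ℕ) (hS : ∀ p ∈ S, p.Prime ∧ 2 < p ∧ p ≤ P ∧ ∀ y ∈ v, y < p)
    (hn : n + v.length * (P / Y + 1) ≤ #S) :
    ∃ T ⊆ S, #T = n ∧ ∀ p ∈ T, Clean (p :: v) := by
  classical
  have h1 := fam_card_bad hY v hvY S fun p hp => ⟨(hS p hp).1.one_le, (hS p hp).2.2.1⟩
  have h2 := card_filter_add_card_filter_not (s := S) fun p => ∃ y ∈ v, y ∣ p - 1
  obtain ⟨T, h3, h4⟩ := exists_subset_card_eq (s := {p ∈ S | ¬ ∃ y ∈ v, y ∣ p - 1}) (n := n)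
    (by omega)
  refine ⟨T, h3.trans (filter_subset _ _), h4, fun p hp => ?_⟩
  obtain ⟨a1, a2⟩ := mem_filter.mp (h3 hp)
  obtain ⟨b1, b2, -, b4⟩ := hS p a1
  refine clean_cons hv b1 (by omega) fun y hy h => ?_
  have b5 := b4 y hy
  have b6 := (hv.2.1 y hy).1.two_le
  rcases h with h | h | h
  · omega
  · exact a2 ⟨y, hy, h⟩
  · exact absurd (Nat.le_of_dvd (by omega) h) (by omega)

/-- The walk modulo three. -/
lemma fam_walk : ∀ a b : ZMod 3, ¬ (a = 0 ∧ b = 0) → ∀ a0 : ZMod 3, a0 ≠ 0 →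
    ∃ c1 c2 c3 c4 : ZMod 3, c1 ≠ 0 ∧ c2 ≠ 0 ∧ c3 ≠ 0 ∧ c4 ≠ 0 ∧
      (c2 + 2) * ((c1 + 2) * a + 2 * b) + 2 * (2 * a) ≠ 0 ∧
      (c3 + 2) * ((c2 + 2) * ((c1 + 2) * a + 2 * b) + 2 * (2 * a)) +
        2 * (2 * ((c1 + 2) * a + 2 * b)) ≠ 0 ∧
      (c4 + 2) * ((c3 + 2) * ((c2 + 2) * ((c1 + 2) * a + 2 * b) + 2 * (2 * a)) +
        2 * (2 * ((c1 + 2) * a + 2 * b))) +
        2 * (2 * ((c2 + 2) * ((c1 + 2) * a + 2 * b) + 2 * (2 * a))) = a0 := by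
  decide

/-- Pigeonhole on the dyadic size. -/
lemma fam_pigeon (L : Finset (List ℕ)) {n : ℕ} (hn : 0 < n) (hL : ∀ l ∈ L, la l < 2 ^ n) {W : ℝ}
    (hW : W ≤ wt L) : ∃ j < n, ∃ U ⊆ L, (∀ l ∈ U, 2 ^ j ≤ la l ∧ la l < 2 * 2 ^ j) ∧
      W * 2 ^ j ≤ n * #U := by
  have h1 : ∀ l ∈ L, Nat.log 2 (la l) ∈ range n := fun l hl =>
    mem_range.mpr (Nat.log_lt_of_lt_pow (la_pos l).ne' (hL l hl))
  have h2 : wt L = ∑ j ∈ range n, ∑ l ∈ L with Nat.log 2 (la l) = j, (la l : ℝ)⁻¹ :=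
    (sum_fiberwise_of_maps_to h1 _).symm
  have hn' : (0 : ℝ) < n := by exact_mod_cast hn
  obtain ⟨j, hj, h3⟩ := exists_le_of_sum_le (s := range n) (f := fun _ => W / n)
    (g := fun j => ∑ l ∈ L with Nat.log 2 (la l) = j, (la l : ℝ)⁻¹) ⟨0, mem_range.mpr hn⟩ (by
      rw [← h2, sum_const, card_range, nsmul_eq_mul, mul_div_cancel₀ _ hn'.ne']
      exact hW)
  have h4 : ∀ l ∈ L.filter fun l => Nat.log 2 (la l) = j, 2 ^ j ≤ la l ∧ la l < 2 * 2 ^ j := by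
    intro l hl
    rw [← (mem_filter.mp hl).2, ← pow_succ']
    exact ⟨Nat.pow_log_le_self 2 (la_pos l).ne', Nat.lt_pow_succ_log_self one_lt_two _⟩
  refine ⟨j, mem_range.mp hj, _, filter_subset _ _, h4, ?_⟩
  have h5 := h3.trans (sum_le_card_nsmul _ _ ((2 : ℝ) ^ j)⁻¹ fun l hl =>
    inv_anti₀ (by positivity) (by exact_mod_cast (h4 l hl).1))
  rw [nsmul_eq_mul, ← div_eq_mul_inv, div_le_div_iff₀ hn' (by positivity)] at h5
  linarith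

/-- The inner family with all sizes in one dyadic interval. -/
lemma fam_inner {lam k M : ℕ} (h15 : 15 ≤ lam) (hk : k = 2 * (2 ^ 80 * lam))
    (hM : M * ((3 + 2 * k : ℝ) / (4 ^ lam : ℕ)) ≤ 1) :
    ∃ (Y0 : ℕ) (U : Finset (List ℕ)), 0 < Y0 ∧ Y0 ≤ 4 ^ ((k + 1) * M) ∧
      (∀ l ∈ U, Gd (4 ^ lam) k M l ∧ Y0 ≤ la l ∧ la l < 2 * Y0) ∧
      (2 : ℝ) ^ M * Y0 ≤ (2 * ((k + 1) * M) + 1 : ℕ) * #U := by
  have h4 : 4 ≤ 4 ^ lam := le_self_pow₀ (by norm_num) (by omega)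
  have e : ∀ a : ℕ, 4 ^ a = 2 ^ (2 * a) := fun a => by rw [pow_mul]; rfl
  obtain ⟨h1, h2⟩ := inner_spec (Y := 4 ^ lam) (k := k) (M := M)
    (R := PR (4 ^ lam) (4 ^ (2 ^ 80 * lam))) h4 (by omega)
    (fun x hx => by rw [hk, ← e]; exact mem_PR.mp hx)
    (le_trans (by norm_num) (weight_inner h15 80)) hM M le_rfl
  obtain ⟨j, hj, U, hU, h3, h5⟩ := fam_pigeon _ (n := 2 * ((k + 1) * M) + 1) (by omega)
    (fun l hl => lt_of_le_of_lt (h1 l hl).2 (by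
      rw [e]; exact Nat.pow_lt_pow_right one_lt_two (by omega))) h2
  refine ⟨2 ^ j, U, by positivity, ?_, fun l hl => ⟨(h1 l (hU hl)).1, h3 l hl⟩, by
    exact_mod_cast h5⟩
  rw [e]
  exact Nat.pow_le_pow_right two_pos (by omega)

/-- Many primes in `(lo, hi]` in a unit class modulo three avoid one unit class modulo every prime
of `[5, z]`. -/
def RG (lo hi : ℕ) (z : ℝ) (n : ℕ) : Prop :=
  ∀ c : ℕ, c = 1 ∨ c = 2 → ∀ Z : ℕ → Finset ℕ,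
    (∀ π, #(Z π) ≤ 1 ∧ ∀ r ∈ Z π, Nat.Coprime r π ∧ r < π) →
    ∃ S : Finset ℕ, n ≤ #S ∧ ∀ p ∈ S, p.Prime ∧ lo < p ∧ p ≤ hi ∧ p % 3 = c ∧
      ∀ π : ℕ, π.Prime → 5 ≤ π → (π : ℝ) ≤ z → ∀ r ∈ Z π, ¬ p ≡ r [MOD π]

/-- One layer above a family of clean lists. -/
theorem fam_step {Y lo hi m n : ℕ} {z : ℝ} (hY : 0 < Y) (hlo : 2 ≤ lo) (hz : z ≤ lo)
    (L : Finset (List ℕ)) (Q : List ℕ → Prop)
    (hQ : ∀ v ∈ L, ∃ c, (c = 1 ∨ c = 2) ∧ ∀ p, p % 3 = c → Q (p :: v))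
    (hL : ∀ v ∈ L, Clean v ∧ v.length ≤ m ∧ ∀ y ∈ v, Y ≤ y ∧ y ≤ lo)
    (hR : RG lo hi z (n + m * (hi / Y + 1))) :
    ∃ L' : Finset (List ℕ), #L' = n * #L ∧ ∀ u ∈ L', ∃ p, ∃ v ∈ L, u = p :: v ∧ lo < p ∧ p ≤ hi ∧
      Clean u ∧ Q u ∧ ∀ π : ℕ, π.Prime → 5 ≤ π → (π : ℝ) ≤ z → ¬ π ∣ la u := by
  classical
  have key : ∀ v ∈ L, ∃ T : Finset ℕ, #T = n ∧ ∀ p ∈ T, lo < p ∧ p ≤ hi ∧ Clean (p :: v) ∧
      Q (p :: v) ∧ ∀ π : ℕ, π.Prime → 5 ≤ π → (π : ℝ) ≤ z → ¬ π ∣ la (p :: v) := by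
    intro v hv
    obtain ⟨h1, h2, h3⟩ := hL v hv
    obtain ⟨c, hc, h4⟩ := hQ v hv
    choose Z z1 z2 z3 using fam_exists_Z h1.adm
    obtain ⟨S, s1, s2⟩ := hR c hc Z fun π => ⟨z1 π, z2 π⟩
    obtain ⟨T, t1, t2, t3⟩ := fam_layer (P := hi) (n := n) hY h1 (fun y hy => (h3 y hy).1) S
      (fun p hp => ⟨(s2 p hp).1, by have := (s2 p hp).2.1; omega, (s2 p hp).2.2.1, fun y hy =>
        (h3 y hy).2.trans_lt (s2 p hp).2.1⟩)
      (le_trans (Nat.add_le_add_left (Nat.mul_le_mul_right _ h2) _) s1)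
    refine ⟨T, t2, fun p hp => ?_⟩
    obtain ⟨a1, a2, a3, a4, a5⟩ := s2 p (t1 hp)
    refine ⟨a2, a3, t3 p hp, h4 p a4, fun π b1 b2 b3 b4 => ?_⟩
    have b5 : π ≤ lo := by exact_mod_cast b3.trans hz
    obtain ⟨r, hr, b6⟩ := z3 π b1 p a1 (by omega) b4
    exact a5 π b1 b2 b3 r hr b6
  choose! T t1 t2 using key
  refine ⟨L.biUnion fun v => (T v).image (· :: v), ?_, fun u hu => ?_⟩
  · rw [card_biUnion, sum_congr rfl (g := fun _ => n), sum_const, smul_eq_mul, mul_comm]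
    · intro v hv
      rw [card_image_of_injective _ (fun p p' h => (List.cons.inj h).1), t1 v hv]
    · intro v _ v' _ hne
      refine disjoint_left.mpr fun u h h' => hne ?_
      obtain ⟨p, -, rfl⟩ := mem_image.mp h
      obtain ⟨p', -, h2⟩ := mem_image.mp h'
      exact (List.cons.inj h2).2.symm
  · obtain ⟨v, hv, h⟩ := mem_biUnion.mp hu
    obtain ⟨p, hp, rfl⟩ := mem_image.mp h
    exact ⟨p, v, hv, rfl, t2 v hv p hp⟩

end Pool.Agent.H84D
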