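import Pool.Agent.H84D.FamA
import Pool.Agent.H84D.Par

set_option autoImplicit false

/-! The inner family in terms of `L`. -/

namespace Pool.Agent.H84D

open Finset Filter Pool.Agent.MP_a96b63_al

lemma fam_two_pow_le (n : ℕ) : ((2 ^ n : ℕ) : ℝ) ≤ Real.exp n := by
  rw [← mul_one (n : ℝ), Real.exp_nat_mul]
  push_cast
  gcongr
  have := Real.add_one_le_exp 1
  linarith

theorem fam_inn : ∀ᶠ L : ℝ in atTop, ∃ (Y M Y₀ : ℕ) (U : Finset (List ℕ)), L ^ 5 ≤ Y ∧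
    (Y : ℝ) ≤ Real.exp (L ^ (11 / 100 : ℝ)) ∧ (M : ℝ) ≤ L ^ (11 / 100 : ℝ) ∧ 0 < Y₀ ∧
    (Y₀ : ℝ) ≤ Real.exp (L ^ (11 / 100 : ℝ)) ∧
    (Y₀ : ℝ) * Real.exp (L ^ (1 / 10 : ℝ) / 2) ≤ L * #U ∧
    ∀ v ∈ U, Clean v ∧ v.length ≤ M ∧ (∀ y ∈ v, Y ≤ y ∧ (y : ℝ) ≤ Real.exp (L ^ (11 / 100 : ℝ))) ∧
      Y₀ ≤ la v ∧ la v ≤ 2 * Y₀ := by
  obtain ⟨K, hK⟩ : ∃ K : ℕ, K = 2 * 2 ^ 80 := ⟨_, rfl⟩
  have hK1 : (1 : ℝ) ≤ K := by rw [hK]; norm_num
  filter_upwards [par_rpow_log (54 * K) 1 (show (1 / 10 : ℝ) < 11 / 100 by norm_num) one_pos,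
    par_const_log 2, eventually_ge_atTop (64 : ℝ)] with L h1 h2 h3
  have hL1 : (1 : ℝ) ≤ L := by linarith
  obtain ⟨n, n1, n2⟩ := exists_nat_pow_near (x := L ^ 5) (y := 4) (one_le_pow₀ hL1) (by norm_num)
  have h15 : 15 ≤ n + 1 := by
    have : (4 : ℝ) ^ 15 < 4 ^ (n + 1) :=
      lt_of_le_of_lt (le_trans (by norm_num) (pow_le_pow_left₀ (by norm_num) h3 5)) n2
    exact ((pow_lt_pow_iff_right₀ (by norm_num)).mp this).le
  have hn : (n : ℝ) ≤ 5 * Real.log L := by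
    have a1 := Real.log_le_log (by positivity) n1
    rw [Real.log_pow, Real.log_pow] at a1
    have a2 : 1 ≤ Real.log 4 := by
      rw [Real.le_log_iff_exp_le (by norm_num)]
      have := Real.exp_one_lt_d9; linarith
    have : (0 : ℝ) ≤ n := by positivity
    push_cast at a1
    nlinarith
  obtain ⟨k, hk⟩ : ∃ k : ℕ, k = K * (n + 1) := ⟨_, rfl⟩
  obtain ⟨M, hM⟩ : ∃ M : ℕ, M = ⌈L ^ (1 / 10 : ℝ)⌉₊ := ⟨_, rfl⟩
  have t1 : 1 ≤ L ^ (1 / 10 : ℝ) := Real.one_le_rpow hL1 (by norm_num)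
  have m1 : L ^ (1 / 10 : ℝ) ≤ M := hM ▸ Nat.le_ceil _
  have m2 : (M : ℝ) ≤ 2 * L ^ (1 / 10 : ℝ) := by
    have := Nat.ceil_lt_add_one (le_trans zero_le_one t1)
    rw [hM]; linarith
  have m3 : 1 ≤ M := by exact_mod_cast t1.trans m1
  have k1 : (k : ℝ) + 1 ≤ 12 * K * Real.log L := by
    rw [hk]; push_cast; nlinarith
  have hW : ((2 * ((k + 1) * M) + 1 : ℕ) : ℝ) ≤ L ^ (11 / 100 : ℝ) := by
    have a1 : ((k : ℝ) + 1) * M ≤ 12 * K * Real.log L * (2 * L ^ (1 / 10 : ℝ)) := by gcongr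
    have a2 : (1 : ℝ) ≤ K * Real.log L * L ^ (1 / 10 : ℝ) :=
      one_le_mul_of_one_le_of_one_le (one_le_mul_of_one_le_of_one_le hK1 (by linarith)) t1
    rw [pow_one, one_mul] at h1
    push_cast
    nlinarith
  have hW1 : L ^ (11 / 100 : ℝ) ≤ L := by
    simpa using Real.rpow_le_rpow_of_exponent_le hL1 (show (11 / 100 : ℝ) ≤ 1 by norm_num)
  have up : ∀ a j : ℕ, a ≤ 2 ^ j → j ≤ 2 * ((k + 1) * M) + 1 →
      (a : ℝ) ≤ Real.exp (L ^ (11 / 100 : ℝ)) := fun a j ha hj =>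
    le_trans (by exact_mod_cast ha) ((fam_two_pow_le j).trans
      (Real.exp_le_exp.mpr (le_trans (by exact_mod_cast hj) hW)))
  have e : ∀ a : ℕ, 4 ^ a = 2 ^ (2 * a) := fun a => by rw [pow_mul]; rfl
  have kM : k + 1 ≤ (k + 1) * M := Nat.le_mul_of_pos_right _ m3
  have kM' : M ≤ (k + 1) * M := Nat.le_mul_of_pos_left _ (by omega)
  have hY : L ^ 5 ≤ (4 ^ (n + 1) : ℕ) := by exact_mod_cast n2.le
  obtain ⟨Y₀, U, y1, y2, y3, y4⟩ := fam_inner (k := k) (M := M) h15 (by rw [hk, hK]; ring) (by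
    rw [← mul_div_assoc, div_le_one (by positivity)]
    refine le_trans ?_ hY
    have a1 : (2 : ℝ) * L ≤ L ^ 5 := by
      have : L ^ 2 ≤ L ^ 5 := pow_le_pow_right₀ hL1 (by norm_num)
      nlinarith
    have a2 : (0 : ℝ) ≤ M := by positivity
    have a3 : (0 : ℝ) ≤ k * M := by positivity
    push_cast at hW
    nlinarith)
  refine ⟨4 ^ (n + 1), M, Y₀, U, hY, up _ (2 * (n + 1)) (e _).le ?_,
    le_trans (by exact_mod_cast (by omega)) hW, y1, up _ _ (y2.trans (e _).le) (by omega), ?_,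
    fun v hv => ?_⟩
  · have : 2 * (n + 1) ≤ k := by rw [hk, hK]; exact Nat.mul_le_mul_right _ (by norm_num)
    omega
  · have a1 : Real.exp (L ^ (1 / 10 : ℝ) / 2) ≤ 2 ^ M := by
      calc _ ≤ Real.exp (M * Real.log 2) := by
            refine Real.exp_le_exp.mpr ?_
            have := Real.log_two_gt_d9
            nlinarith
        _ = _ := by rw [Real.exp_nat_mul, Real.exp_log two_pos]
    calc _ ≤ (Y₀ : ℝ) * 2 ^ M := by gcongr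
      _ ≤ _ := (mul_comm _ _).le.trans y4
      _ ≤ _ := mul_le_mul_of_nonneg_right (hW.trans hW1) (by positivity)
  · obtain ⟨⟨a1, a2, a3⟩, a4, a5⟩ := y3 v hv
    exact ⟨a1, a2.le, fun y hy => ⟨(a3 y hy).1.le, up _ _ (a3 y hy).2 (by omega)⟩, a4, a5.le⟩

end Pool.Agent.H84D
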