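import Pool.Agent.MP_48b1c3_nt.H54.Sifted

set_option autoImplicit false

/-! Primes in a progression that avoid at most two residue classes modulo small primes. -/

namespace Pool.Agent.H84D

open Finset Filter Pool.Agent.MP_48b1c3_nt.H54

theorem rgh_crt {N q : ℕ} (h : N.Coprime q) (hN : 0 < N) (hq : 0 < q) {T Z : Finset ℕ}
    (hT : T ⊆ range N) (hZ : Z ⊆ range q) :
    #((range (N * q)).filter fun a => a % N ∈ T ∧ a % q ∈ Z) = #T * #Z := by
  rw [← card_product]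
  refine card_nbij (fun a => (a % N, a % q)) (fun a ha => ?_) (fun a ha b hb e => ?_)
    (fun w hw => ?_)
  · simp only [coe_filter, Set.mem_ofPred_eq] at ha
    simpa using ha.2
  · simp only [coe_filter, Set.mem_ofPred_eq, mem_range] at ha hb
    simp only [Prod.mk.injEq] at e
    have h1 : a ≡ b [MOD N * q] := (Nat.modEq_and_modEq_iff_modEq_mul h).1 ⟨e.1, e.2⟩
    exact Nat.ModEq.eq_of_lt_of_lt h1 ha.1 hb.1
  · simp only [coe_product, Set.mem_prod, mem_coe] at hw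
    have h1 := mem_range.1 (hT hw.1)
    have h2 := mem_range.1 (hZ hw.2)
    obtain ⟨e1, e2⟩ := (Nat.chineseRemainder h w.1 w.2).2
    have h3 := Nat.chineseRemainder_lt_mul h w.1 w.2 hN.ne' hq.ne'
    rw [Nat.ModEq, Nat.mod_eq_of_lt h1] at e1
    rw [Nat.ModEq, Nat.mod_eq_of_lt h2] at e2
    refine ⟨Nat.chineseRemainder h w.1 w.2, ?_, ?_⟩
    · simp only [coe_filter, Set.mem_ofPred_eq, mem_range]
      exact ⟨h3, by rw [e1]; exact hw.1, by rw [e2]; exact hw.2⟩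
    · exact Prod.ext e1 e2

theorem rgh_classes {M c : ℕ} (hM : 0 < M) (hc : c.Coprime M) (Z : ℕ → Finset ℕ) (S : Finset ℕ)
    (hS : ∀ q ∈ S, q.Prime ∧ ¬ q ∣ M ∧ Z q ⊆ Ioo 0 q) :
    ∃ T ⊆ range (M * ∏ q ∈ S, q), #T = ∏ q ∈ S, #(Z q) ∧
      (∀ a ∈ T, a.Coprime (M * ∏ q ∈ S, q)) ∧
      ∀ n, (n ≡ c [MOD M] ∧ ∀ q ∈ S, n % q ∈ Z q) ↔ n % (M * ∏ q ∈ S, q) ∈ T := by
  induction S using Finset.induction_on with
  | empty =>
    refine ⟨{c % M}, by simpa using Nat.mod_lt c hM, by simp, ?_, fun n => by simp [Nat.ModEq]⟩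
    intro a ha
    rw [mem_singleton.1 ha, prod_empty, mul_one, Nat.Coprime, (Nat.mod_modEq c M).gcd_eq]
    exact hc
  | insert q S hq ih =>
    obtain ⟨T, h1, h2, h3, h4⟩ := ih fun p hp => hS p (mem_insert_of_mem hp)
    obtain ⟨g1, g2, g3⟩ := hS q (mem_insert_self _ _)
    have hp : ∀ p ∈ S, p.Prime := fun p hp => (hS p (mem_insert_of_mem hp)).1
    set N := M * ∏ q ∈ S, q with hN
    have hN0 : 0 < N := Nat.mul_pos hM (prod_pos fun p h => (hp p h).pos)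
    have hco : N.Coprime q := by
      refine Nat.Coprime.mul_left ((Nat.Prime.coprime_iff_not_dvd g1).2 g2).symm
        (Nat.Coprime.prod_left fun p h => ?_)
      exact (Nat.coprime_primes (hp p h) g1).2 fun e => hq (e ▸ h)
    have e : M * ∏ p ∈ insert q S, p = N * q := by rw [prod_insert hq, hN]; ring
    have hZ : Z q ⊆ range q := fun a ha => mem_range.2 (mem_Ioo.1 (g3 ha)).2
    rw [e]
    refine ⟨(range (N * q)).filter fun a => a % N ∈ T ∧ a % q ∈ Z q, filter_subset _ _, ?_,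
      fun a ha => ?_, fun n => ?_⟩
    · rw [rgh_crt hco hN0 g1.pos h1 hZ, prod_insert hq, h2, mul_comm]
    · obtain ⟨-, k1, k2⟩ := mem_filter.1 ha
      refine Nat.Coprime.mul_right ?_ ?_
      · rw [Nat.Coprime, ← (Nat.mod_modEq a N).gcd_eq]
        exact h3 _ k1
      · refine ((Nat.Prime.coprime_iff_not_dvd g1).2 fun hd => ?_).symm
        have := (mem_Ioo.1 (g3 k2)).1
        rw [Nat.mod_eq_zero_of_dvd hd] at this
        exact lt_irrefl _ this
    · rw [mem_filter, mem_range, Nat.mod_mod_of_dvd _ (Dvd.intro _ rfl),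
        Nat.mod_mod_of_dvd _ (Dvd.intro_left _ rfl), ← h4, forall_mem_insert]
      have := Nat.mod_lt n (Nat.mul_pos hN0 g1.pos)
      tauto

open Classical in
theorem rgh_rem {M c : ℕ} (hM : 0 < M) (hc : c.Coprime M) (Z : ℕ → Finset ℕ) (x Q R : ℝ)
    (T : Finset (Finset ℕ))
    (hT : ∀ S ∈ T, (∀ q ∈ S, q.Prime ∧ ¬ q ∣ M ∧ Z q ⊆ Ioo 0 q ∧ #(Z q) ≤ 2) ∧
      ((M * ∏ q ∈ S, q : ℕ) : ℝ) ≤ Q)
    (hR : ∀ (D : Finset ℕ) (a : ℕ → ℕ), (∀ N ∈ D, 0 < N ∧ (N : ℝ) ≤ Q ∧ (a N).Coprime N) →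
      ∑ N ∈ D, ((128 : ℕ) : ℝ) ^ #N.primeFactors * |Err x N (a N)| ≤ R) :
    ∑ S ∈ T, 64 ^ #S * |∑ n ∈ ((Icc 1 ⌊x⌋₊).filter fun n => n ≡ c [MOD M]).filter
      (fun n => ∀ q ∈ S, n % q ∈ Z q), wt x n -
      (∑ n ∈ Icc 1 ⌊x⌋₊, wt x n) / M.totient * ∏ q ∈ S, (#(Z q) : ℝ) / ((q : ℝ) - 1)| ≤ R := by
  have h1 : ∀ N : ℕ, ∃ a : ℕ, 0 < N → a.Coprime N ∧
      ∀ b, b < N → b.Coprime N → |Err x N b| ≤ |Err x N a| := fun N => by
    by_cases h : 0 < N
    · obtain ⟨a, ha, hb⟩ := exists_max_image ((range N).filter fun a => a.Coprime N)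
        (fun a => |Err x N a|) ⟨1 % N, mem_filter.2 ⟨mem_range.2 (Nat.mod_lt _ h), by
          rw [Nat.Coprime, (Nat.mod_modEq 1 N).gcd_eq, Nat.gcd_one_left]⟩⟩
      exact ⟨a, fun _ => ⟨(mem_filter.1 ha).2, fun b h1 h2 =>
        hb b (mem_filter.2 ⟨mem_range.2 h1, h2⟩)⟩⟩
    · exact ⟨0, fun h' => absurd h' h⟩
  choose a ha using h1
  have hp : ∀ S ∈ T, ∀ q ∈ S, q.Prime := fun S hS q hq => ((hT S hS).1 q hq).1
  have h0 : ∀ S ∈ T, 0 < M * ∏ q ∈ S, q := fun S hS =>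
    Nat.mul_pos hM (prod_pos fun q hq => (hp S hS q hq).pos)
  have h2 : ∀ S ∈ T, M.Coprime (∏ q ∈ S, q) := fun S hS => Nat.Coprime.prod_right fun q hq =>
    ((Nat.Prime.coprime_iff_not_dvd (hp S hS q hq)).2 ((hT S hS).1 q hq).2.1).symm
  refine le_trans ?_ (hR (T.image fun S => M * ∏ q ∈ S, q) a fun N hN => ?_)
  · rw [sum_image fun S hS S' hS' h => by
      rw [← Nat.primeFactors_prod (hp S hS), ← Nat.primeFactors_prod (hp S' hS'),
        Nat.eq_of_mul_eq_mul_left hM h]]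
    refine sum_le_sum fun S hS => ?_
    obtain ⟨U, u1, u2, u3, u4⟩ := rgh_classes hM hc Z S fun q hq =>
      ⟨hp S hS q hq, ((hT S hS).1 q hq).2.1, ((hT S hS).1 q hq).2.2.1⟩
    set N := M * ∏ q ∈ S, q with hN
    have k1 : ∑ n ∈ ((Icc 1 ⌊x⌋₊).filter fun n => n ≡ c [MOD M]).filter
        (fun n => ∀ q ∈ S, n % q ∈ Z q), wt x n -
        (∑ n ∈ Icc 1 ⌊x⌋₊, wt x n) / M.totient * ∏ q ∈ S, (#(Z q) : ℝ) / ((q : ℝ) - 1) =
        ∑ b ∈ U, Err x N b := by
      simp only [Err]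
      rw [sum_sub_distrib, sum_const, nsmul_eq_mul, u2, hN, Nat.totient_mul (h2 S hS), Nat.cast_mul,
        sifted_totient S (hp S hS), prod_div_distrib, ← hN]
      congr 1
      · rw [filter_filter, ← sum_fiberwise_of_maps_to (g := fun n => n % N) (t := U)
          (fun n hn => (u4 n).1 (mem_filter.1 hn).2)]
        refine sum_congr rfl fun b hb => sum_congr (Finset.ext fun n => ?_) fun _ _ => rfl
        have hb' := mem_range.1 (u1 hb)
        simp only [mem_filter, Nat.ModEq, Nat.mod_eq_of_lt hb']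
        refine ⟨fun h => ⟨h.1.1, h.2⟩, fun h => ⟨⟨h.1, (u4 n).2 (by rw [h.2]; exact hb)⟩, h.2⟩⟩
      · push_cast
        ring
    have k2 : |∑ b ∈ U, Err x N b| ≤ 2 ^ #S * |Err x N (a N)| := by
      refine (abs_sum_le_sum_abs _ _).trans ((sum_le_card_nsmul _ _ _ fun b hb =>
        (ha N (h0 S hS)).2 b (mem_range.1 (u1 hb)) (u3 b hb)).trans ?_)
      rw [nsmul_eq_mul]
      refine mul_le_mul_of_nonneg_right ?_ (abs_nonneg _)
      have : #U ≤ 2 ^ #S := by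
        rw [u2]
        exact prod_le_pow_card _ _ _ fun q hq => ((hT S hS).1 q hq).2.2.2
      exact_mod_cast this
    have k3 : #S ≤ #N.primeFactors := by
      refine card_le_card ?_
      conv_lhs => rw [← Nat.primeFactors_prod (hp S hS)]
      exact Nat.primeFactors_mono (Dvd.intro_left _ rfl) (h0 S hS).ne'
    rw [k1]
    calc (64 : ℝ) ^ #S * |∑ b ∈ U, Err x N b| ≤ 64 ^ #S * (2 ^ #S * |Err x N (a N)|) := by gcongr
      _ = 128 ^ #S * |Err x N (a N)| := by rw [← mul_assoc, ← mul_pow]; norm_num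
      _ ≤ _ := by
        push_cast
        exact mul_le_mul_of_nonneg_right (pow_le_pow_right₀ (by norm_num) k3) (abs_nonneg _)
  · obtain ⟨S, hS, rfl⟩ := mem_image.1 hN
    exact ⟨h0 S hS, (hT S hS).2, (ha _ (h0 S hS)).1⟩

open Classical in
theorem rgh_core (B : ℕ) : ∃ C : ℝ, ∀ᶠ x : ℝ in atTop, ∀ (M c : ℕ) (P : Finset ℕ)
    (Z : ℕ → Finset ℕ), 0 < M → (M : ℝ) ≤ x ^ (1 / 125 : ℝ) → c.Coprime M →
    (∀ q ∈ P, q.Prime ∧ ¬ q ∣ M ∧ 5 ≤ q ∧ (q : ℝ) ≤ x ^ (1 / 4500 : ℝ) ∧ Z q ⊆ Ioo 0 q ∧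
      #(Z q) ≤ 2) →
    (∑ n ∈ Icc 1 ⌊x⌋₊, wt x n) / M.totient * (∏ q ∈ P, (1 - (#(Z q) : ℝ) / ((q : ℝ) - 1))) / 8 -
        C * x / Real.log x ^ B ≤
      ∑ n ∈ ((Icc 1 ⌊x⌋₊).filter fun n => n ≡ c [MOD M]).filter
        (fun n => ∀ q ∈ P, ¬ n % q ∈ Z q), wt x n ∧
    ∑ n ∈ ((Icc 1 ⌊x⌋₊).filter fun n => n ≡ c [MOD M]).filter
        (fun n => ∀ q ∈ P, ¬ n % q ∈ Z q), wt x n ≤
      8 * ((∑ n ∈ Icc 1 ⌊x⌋₊, wt x n) / M.totient *
        ∏ q ∈ P, (1 - (#(Z q) : ℝ) / ((q : ℝ) - 1)) + C * x / Real.log x ^ B) := by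
  obtain ⟨C₁, hC₁, hm⟩ := mertens1
  obtain ⟨C, hBV⟩ := bombieri_vinogradov 128 B
  refine ⟨C, ?_⟩
  filter_upwards [hBV, eventually_gt_atTop 1,
    Real.tendsto_log_atTop.eventually_ge_atTop (30000 * C₁)] with x hBV hx e2 M c P Z hM hMx hc hP
  have hx0 : 0 < x := by linarith
  have hφ : (0 : ℝ) < M.totient := by exact_mod_cast Nat.totient_pos.2 hM
  set L := Real.log x with hL
  have hL0 : 0 < L := Real.log_pos hx
  set y := x ^ (1 / 4500 : ℝ) with hy
  have hly : Real.log y = 1 / 4500 * L := Real.log_rpow hx0 _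
  have hy1 : 1 ≤ y := Real.one_le_rpow hx.le (by norm_num)
  have h5 : ∀ q ∈ P, (5 : ℝ) ≤ q := fun q hq => by exact_mod_cast (hP q hq).2.2.1
  have hk : ∀ q ∈ P, (#(Z q) : ℝ) ≤ 2 := fun q hq => by exact_mod_cast (hP q hq).2.2.2.2.2
  have hS := sieve P (fun q => (#(Z q) : ℝ) / ((q : ℝ) - 1)) (fun q => Real.log q / (7 / 500 * L))
    ((Icc 1 ⌊x⌋₊).filter fun n => n ≡ c [MOD M]) (wt x) (fun q n => n % q ∈ Z q)
    ((∑ n ∈ Icc 1 ⌊x⌋₊, wt x n) / M.totient) (fun n _ => wt_nonneg x n)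
    (div_nonneg (sum_nonneg fun n _ => wt_nonneg x n) hφ.le)
    (fun q hq => ⟨div_nonneg (Nat.cast_nonneg _) (by linarith [h5 q hq]), by
      rw [div_le_iff₀ (by linarith [h5 q hq])]
      linarith [h5 q hq, hk q hq]⟩)
    (fun q hq => ⟨div_nonneg (Real.log_natCast_nonneg q) (by positivity), by
      rw [div_le_iff₀ (by positivity)]
      linarith [Real.log_le_log (by linarith [h5 q hq]) (hP q hq).2.2.2.1]⟩) (by
      refine le_trans (b := ∑ q ∈ PI 0 y, Real.log q / q * (5 / 2 / (7 / 500 * L)))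
        (le_trans (sum_le_sum fun q hq => ?_) (sum_le_sum_of_subset_of_nonneg (fun q hq =>
          mem_PI.2 ⟨by linarith [h5 q hq], (hP q hq).2.2.2.1, (hP q hq).1⟩)
          fun q _ _ => mul_nonneg (div_nonneg (Real.log_natCast_nonneg q) q.cast_nonneg)
            (by positivity))) ?_
      · have h3 := h5 q hq
        have h4 : (#(Z q) : ℝ) / ((q : ℝ) - 1) ≤ 5 / 2 / q := by
          rw [div_le_div_iff₀ (by linarith) (by linarith)]
          nlinarith [hk q hq]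
        refine (mul_le_mul_of_nonneg_right h4
          (div_nonneg (Real.log_natCast_nonneg q) (by positivity))).trans (le_of_eq (by ring))
      · rw [← sum_mul, ← mul_div_assoc, div_le_iff₀ (by positivity)]
        linarith [hm y hy1]) (C * x / L ^ B) (by
      convert rgh_rem hM hc Z x _ _ _ (fun S hS => ?_) hBV
      obtain ⟨h3, h4⟩ := mem_filter.1 hS
      have h6 := fun q hq => hP q (mem_powerset.1 h3 hq)
      have h7 := fun q hq => h5 q (mem_powerset.1 h3 hq)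
      refine ⟨fun q hq => ⟨(h6 q hq).1, (h6 q hq).2.1, (h6 q hq).2.2.2.2⟩, ?_⟩
      have h8 : ∀ q ∈ S, (q : ℝ) ≠ 0 := fun q hq => by linarith [h7 q hq]
      have h9 : (0 : ℝ) < M := by exact_mod_cast hM
      have h10 : Real.log M ≤ 1 / 125 * L := by
        rw [hL, ← Real.log_rpow hx0]
        exact Real.log_le_log h9 hMx
      rw [← sum_div, div_le_iff₀ (by positivity)] at h4
      push_cast
      rw [Real.rpow_def_of_pos hx0, ← Real.log_le_iff_le_exp (by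
        exact mul_pos h9 (prod_pos fun q hq => by linarith [h7 q hq])),
        Real.log_mul h9.ne' (prod_ne_zero_iff.2 h8), Real.log_prod h8]
      linarith)
  convert hS

theorem rgh_V : ∃ v : ℝ, 0 < v ∧ ∀ y : ℝ, 2 ≤ y → ∀ (K : ℕ) (P : Finset ℕ) (k : ℕ → ℕ), K ≤ 2 →
    (∀ q ∈ P, q.Prime ∧ 5 ≤ q ∧ (q : ℝ) ≤ y ∧ k q ≤ K) →
      v / Real.log y ^ K ≤ ∏ q ∈ P, (1 - (k q : ℝ) / ((q : ℝ) - 1)) := by
  obtain ⟨C, hC0, hC⟩ := mertens2
  refine ⟨Real.exp (-(2 * C + 4)), Real.exp_pos _, fun y hy K P k hK hP => ?_⟩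
  have hK' : (K : ℝ) ≤ 2 := by exact_mod_cast hK
  have hK0 : (0 : ℝ) ≤ K := K.cast_nonneg
  have h5 : ∀ q ∈ P, (5 : ℝ) ≤ q := fun q hq => by exact_mod_cast (hP q hq).2.1
  have h1 : ∑ q ∈ P, (1 : ℝ) / q ≤ ∑ q ∈ PI 0 y, (1 : ℝ) / q :=
    sum_le_sum_of_subset_of_nonneg (fun q hq => mem_PI.2
      ⟨by linarith [h5 q hq], (hP q hq).2.2.1, (hP q hq).1⟩) fun _ _ _ => by positivity
  have h2 : ∑ q ∈ P, ((q : ℝ) ^ 2)⁻¹ ≤ 1 / 4 := by
    have h3 := sum_Ioc_inv_sq_le_sub (α := ℝ) (k := 4) (n := ⌊y⌋₊ + 4) (by norm_num) (by omega)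
    refine le_trans (sum_le_sum_of_subset_of_nonneg (fun q hq => mem_Ioc.2 ⟨(hP q hq).2.1, ?_⟩)
      fun _ _ _ => by positivity) (h3.trans ?_)
    · have := Nat.le_floor (hP q hq).2.2.1
      omega
    · have : (0 : ℝ) ≤ ((⌊y⌋₊ + 4 : ℕ) : ℝ)⁻¹ := by positivity
      have e : ((4 : ℕ) : ℝ)⁻¹ = 1 / 4 := by norm_num
      linarith
  have h4 : ∏ q ∈ P, Real.exp (-(K * (1 / q) + 15 * ((q : ℝ) ^ 2)⁻¹)) ≤
      ∏ q ∈ P, (1 - (k q : ℝ) / ((q : ℝ) - 1)) := by
    refine prod_le_prod (fun _ _ => (Real.exp_pos _).le) fun q hq => ?_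
    have h6 := h5 q hq
    have hk : (k q : ℝ) ≤ K := by exact_mod_cast (hP q hq).2.2.2
    have h7 : K / ((q : ℝ) - 1 - K) ≤ K * (1 / q) + 15 * ((q : ℝ) ^ 2)⁻¹ := by
      rw [show K * (1 / (q : ℝ)) + 15 * ((q : ℝ) ^ 2)⁻¹ = (K * q + 15) / q ^ 2 by field_simp,
        div_le_div_iff₀ (by linarith) (by positivity)]
      have : K * (1 + K) * (q : ℝ) ≤ 6 * q :=
        mul_le_mul_of_nonneg_right (by nlinarith) (by linarith)
      nlinarith
    have h8 := (Real.add_one_le_exp _).trans (Real.exp_le_exp.2 h7)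
    have h9 : (q : ℝ) - 1 - K ≠ 0 := by linarith
    have h10 : (q : ℝ) - 1 ≠ 0 := by linarith
    rw [Real.exp_neg]
    refine (inv_anti₀ (by
      have : 0 ≤ K / ((q : ℝ) - 1 - K) := div_nonneg hK0 (by linarith)
      linarith) h8).trans ?_
    have h11 : (k q : ℝ) / ((q : ℝ) - 1) ≤ K / ((q : ℝ) - 1) :=
      div_le_div_of_nonneg_right hk (by linarith)
    have h12 : (K / ((q : ℝ) - 1 - K) + 1)⁻¹ = 1 - K / ((q : ℝ) - 1) := by
      rw [show K / ((q : ℝ) - 1 - K) + 1 = (q - 1) / (q - 1 - K) by field_simp; ring]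
      field_simp
    linarith
  refine le_trans ?_ h4
  have h7 : 0 < Real.log y := Real.log_pos (by linarith)
  rw [← Real.exp_sum, ← Real.exp_log (pow_pos h7 K), ← Real.exp_sub, Real.exp_le_exp,
    Real.log_pow, sum_neg_distrib, sum_add_distrib, ← mul_sum, ← mul_sum]
  have h8 := mul_le_mul_of_nonneg_left (h1.trans (by linarith [(abs_le.1 (hC y hy)).2] :
    _ ≤ Real.log (Real.log y) + C)) hK0
  have h9 := mul_le_mul_of_nonneg_right hK' hC0.le
  linarith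

theorem rgh_ratio {e : ℕ} (he : Squarefree e) (h6 : e.Coprime 6) (P : Finset ℕ) (k : ℕ → ℕ)
    (hP : ∀ q ∈ P, q.Prime ∧ 5 ≤ q ∧ k q ≤ 2) :
    (∏ q ∈ P.filter (fun q => ¬ q ∣ e), (1 - (k q : ℝ) / ((q : ℝ) - 1))) * e ≤
      (∏ q ∈ P, (1 - (k q : ℝ) / ((q : ℝ) - 1))) * 3 ^ #e.primeFactors * e.totient := by
  have h5 : ∀ q ∈ e.primeFactors, (5 : ℝ) ≤ q := fun q hq => by
    have hp := Nat.prime_of_mem_primeFactors hq
    have hd := Nat.dvd_of_mem_primeFactors hq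
    have h1 : ¬ q ∣ 6 := (Nat.Prime.coprime_iff_not_dvd hp).1 (h6.coprime_dvd_left hd)
    have : 5 ≤ q := by
      by_contra h
      have := hp.two_le
      interval_cases q
      · exact h1 (by norm_num)
      · exact h1 (by norm_num)
      · exact absurd hp (by norm_num)
    exact_mod_cast this
  have hg : ∀ q ∈ P, ((q : ℝ) - 3) / ((q : ℝ) - 1) ≤ 1 - (k q : ℝ) / ((q : ℝ) - 1) := fun q hq => by
    have h1 : (5 : ℝ) ≤ q := by exact_mod_cast (hP q hq).2.1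
    have hk : (k q : ℝ) ≤ 2 := by exact_mod_cast (hP q hq).2.2
    rw [le_sub_iff_add_le, ← add_div, div_le_one (by linarith)]
    linarith
  have h0 : 0 ≤ ∏ q ∈ P.filter (fun q => ¬ q ∣ e), (1 - (k q : ℝ) / ((q : ℝ) - 1)) :=
    prod_nonneg fun q hq => by
      have h1 : (5 : ℝ) ≤ q := by exact_mod_cast (hP q (mem_filter.1 hq).1).2.1
      exact le_trans (div_nonneg (by linarith) (by linarith)) (hg q (mem_filter.1 hq).1)
  have h1 : ∏ q ∈ e.primeFactors, ((q : ℝ) - 3) / ((q : ℝ) - 1) ≤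
      ∏ q ∈ P.filter (fun q => q ∣ e), (1 - (k q : ℝ) / ((q : ℝ) - 1)) := by
    have hs : P.filter (fun q => q ∣ e) ⊆ e.primeFactors := fun q hq =>
      Nat.mem_primeFactors.2 ⟨(hP q (mem_filter.1 hq).1).1, (mem_filter.1 hq).2, he.ne_zero⟩
    refine le_trans (prod_le_prod_of_subset_of_le_one hs (fun q hq => ?_) fun q hq _ => ?_)
      (prod_le_prod (fun q hq => ?_) fun q hq => hg q (mem_filter.1 hq).1)
    · exact div_nonneg (by linarith [h5 q hq]) (by linarith [h5 q hq])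
    · rw [div_le_one (by linarith [h5 q hq])]
      linarith
    · exact div_nonneg (by linarith [h5 q (hs hq)]) (by linarith [h5 q (hs hq)])
  have h2 : (e.totient : ℝ) = ∏ q ∈ e.primeFactors, ((q : ℝ) - 1) := by
    conv_lhs => rw [← Nat.prod_primeFactors_of_squarefree he]
    exact sifted_totient _ fun q hq => Nat.prime_of_mem_primeFactors hq
  have h3 : (e : ℝ) ≤ (∏ q ∈ e.primeFactors, ((q : ℝ) - 3) / ((q : ℝ) - 1)) *
      3 ^ #e.primeFactors * e.totient := by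
    rw [h2, ← prod_const, ← prod_mul_distrib, ← prod_mul_distrib]
    conv_lhs => rw [← Nat.prod_primeFactors_of_squarefree he]
    push_cast
    refine prod_le_prod (fun q _ => q.cast_nonneg) fun q hq => ?_
    have h4 := h5 q hq
    have h7 : (q : ℝ) - 1 ≠ 0 := by linarith
    rw [show ((q : ℝ) - 3) / (q - 1) * 3 * (q - 1) = 3 * (q - 3) by field_simp]
    linarith
  rw [← prod_filter_not_mul_prod_filter P (fun q => q ∣ e), mul_assoc, mul_assoc]
  refine mul_le_mul_of_nonneg_left (h3.trans ?_) h0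
  rw [mul_assoc]
  exact mul_le_mul_of_nonneg_right h1 (by positivity)

theorem rgh_wt_le {x : ℝ} (hx : 0 ≤ x) : ∑ n ∈ Icc 1 ⌊x⌋₊, wt x n ≤ 2 * x := by
  have h1 := Chebyshev.theta_le_log4_mul_x hx
  have h7 : Real.log 4 = 2 * Real.log 2 := by
    rw [show (4 : ℝ) = 2 ^ 2 by norm_num, Real.log_pow]; norm_num
  have h9 := Real.log_two_lt_d9
  have h2 : ∑ n ∈ Icc 1 ⌊x⌋₊, wt x n ≤ Chebyshev.theta x := by
    rw [Chebyshev.theta, sum_filter]
    refine sum_le_sum fun n _ => ?_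
    split_ifs with h
    · exact wt_le x n
    · simp [wt, h]
  rw [h7] at h1
  nlinarith

theorem rgh_cover {x : ℝ} (hx : 0 < x) {p : ℕ} (hp : p ∈ PI (x / Real.exp 4) x) :
    Real.log x - 4 ≤ wt (x * Real.exp 1) p + wt (x / Real.exp 1) p := by
  obtain ⟨h1, h2, h3⟩ := mem_PI.1 hp
  have h0 : (0 : ℝ) < p := by exact_mod_cast h3.pos
  have h4 : Real.log x - 4 ≤ Real.log p := by
    have := Real.log_le_log (by positivity) h1.le
    rwa [Real.log_div hx.ne' (Real.exp_pos _).ne', Real.log_exp] at this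
  have h5 : Real.log p ≤ Real.log x := Real.log_le_log h0 h2
  have e1 : Real.log (p / (x * Real.exp 1)) = Real.log p - Real.log x - 1 := by
    rw [Real.log_div h0.ne' (by positivity), Real.log_mul hx.ne' (Real.exp_pos _).ne', Real.log_exp]
    ring
  have e2 : Real.log (p / (x / Real.exp 1)) = Real.log p - Real.log x + 1 := by
    rw [Real.log_div h0.ne' (by positivity), Real.log_div hx.ne' (Real.exp_pos _).ne', Real.log_exp]
    ring
  rcases le_total (Real.log x - 2) (Real.log p) with h | h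
  · have : wt (x * Real.exp 1) p = Real.log p := by
      rw [wt, if_pos h3, bump_eq_one (by rw [e1]; linarith) (by rw [e1]; linarith), mul_one]
    linarith [wt_nonneg (x / Real.exp 1) p]
  · have : wt (x / Real.exp 1) p = Real.log p := by
      rw [wt, if_pos h3, bump_eq_one (by rw [e2]; linarith) (by rw [e2]; linarith), mul_one]
    linarith [wt_nonneg (x * Real.exp 1) p]

open Classical in
/-- upper bound at a shifted point -/
theorem rgh_up (A : ℕ) {v : ℝ} (hv : 0 < v) : ∀ᶠ x : ℝ in atTop, ∀ x' : ℝ, x / 3 ≤ x' → x' ≤ 3 * x →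
    ∀ (M c : ℕ) (P U : Finset ℕ) (Z : ℕ → Finset ℕ), 0 < M → (M : ℝ) ≤ 18 * Real.log x ^ A →
    c.Coprime M →
    (∀ q ∈ P, q.Prime ∧ ¬ q ∣ M ∧ 5 ≤ q ∧ (q : ℝ) ≤ x ^ (1 / 5000 : ℝ) ∧ Z q ⊆ Ioo 0 q ∧
      #(Z q) ≤ 2) → (∀ n ∈ U, n ≡ c [MOD M] ∧ ∀ q ∈ P, ¬ n % q ∈ Z q) →
    ∑ n ∈ U, wt x' n ≤ 8 * (6 * x / M.totient *
        ∏ q ∈ P, (1 - (#(Z q) : ℝ) / ((q : ℝ) - 1)) + v * x / Real.log x ^ (A + 2)) := by
  obtain ⟨C, hC⟩ := rgh_core (A + 3)
  obtain ⟨x₀, hx₀⟩ := eventually_atTop.1 hC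
  have hlo := (isLittleO_log_rpow_rpow_atTop (A : ℝ) (s := 1 / 250) (by norm_num)).bound
    (c := 1 / 18) (by norm_num)
  filter_upwards [eventually_ge_atTop (3 * x₀), eventually_ge_atTop 9, hlo,
    Real.tendsto_log_atTop.eventually_ge_atTop 20,
    Real.tendsto_log_atTop.eventually_ge_atTop (3 * |C| * 2 ^ (A + 3) / v)]
    with x e0 e1 e2 e3 e4 x' h1 h2 M c P U Z hM hMx hc hP hU
  have hx0 : 0 < x := by linarith
  have hx' : 0 < x' := by linarith
  set L := Real.log x with hL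
  have hl3 : Real.log 3 ≤ 2 := by linarith [Real.log_le_sub_one_of_pos (x := 3) (by norm_num)]
  have hL' : L - 2 ≤ Real.log x' := by
    have := Real.log_le_log (by positivity) h1
    rw [Real.log_div hx0.ne' (by norm_num)] at this
    linarith
  rw [Real.rpow_natCast, Real.norm_of_nonneg (by positivity),
    Real.norm_of_nonneg (by positivity)] at e2
  have k1 : x ^ (1 / 250 : ℝ) ≤ x' ^ (1 / 125 : ℝ) := by
    rw [Real.rpow_def_of_pos hx0, Real.rpow_def_of_pos hx', Real.exp_le_exp]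
    linarith
  have k2 : x ^ (1 / 5000 : ℝ) ≤ x' ^ (1 / 4500 : ℝ) := by
    rw [Real.rpow_def_of_pos hx0, Real.rpow_def_of_pos hx', Real.exp_le_exp]
    linarith
  have k3 := (hx₀ x' (by linarith) M c P Z hM (by linarith) hc fun q hq =>
    ⟨(hP q hq).1, (hP q hq).2.1, (hP q hq).2.2.1, (hP q hq).2.2.2.1.trans k2,
      (hP q hq).2.2.2.2⟩).2
  have hφ : (0 : ℝ) < M.totient := by exact_mod_cast Nat.totient_pos.2 hM
  have hV : 0 ≤ ∏ q ∈ P, (1 - (#(Z q) : ℝ) / ((q : ℝ) - 1)) := prod_nonneg fun q hq => by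
    have h5 : (5 : ℝ) ≤ q := by exact_mod_cast (hP q hq).2.2.1
    have hk : (#(Z q) : ℝ) ≤ 2 := by exact_mod_cast (hP q hq).2.2.2.2.2
    rw [sub_nonneg, div_le_one (by linarith)]
    linarith
  have k4 : C * x' / Real.log x' ^ (A + 3) ≤ v * x / L ^ (A + 2) := by
    have hLp : 0 < L := by linarith
    calc C * x' / Real.log x' ^ (A + 3) ≤ |C| * (3 * x) / (L / 2) ^ (A + 3) := by
          refine div_le_div₀ (by positivity) ?_ (by positivity)
            (pow_le_pow_left₀ (by positivity) (by linarith) _)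
          exact (mul_le_mul_of_nonneg_right (le_abs_self C) hx'.le).trans
            (mul_le_mul_of_nonneg_left h2 (abs_nonneg C))
      _ = 3 * |C| * 2 ^ (A + 3) / L * x / L ^ (A + 2) := by
          rw [div_pow]; field_simp; ring
      _ ≤ _ := by
          gcongr
          rw [div_le_iff₀ hv] at e4
          rw [div_le_iff₀ hLp]
          linarith
  have k5 : (∑ n ∈ Icc 1 ⌊x'⌋₊, wt x' n) / M.totient ≤ 6 * x / M.totient :=
    div_le_div_of_nonneg_right (by linarith [rgh_wt_le hx'.le]) hφ.le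
  refine le_trans ?_ (k3.trans (by linarith [mul_le_mul_of_nonneg_right k5 hV]))
  rw [← sum_filter_ne_zero]
  refine sum_le_sum_of_subset_of_nonneg (fun n hn => ?_) fun n _ _ => wt_nonneg _ _
  obtain ⟨h3, h4⟩ := mem_filter.1 hn
  obtain ⟨-, h5, h6⟩ := mem_PI.1 (mem_PI_of_wt hx' h4)
  exact mem_filter.2 ⟨mem_filter.2 ⟨mem_Icc.2 ⟨h6.pos, Nat.le_floor h5⟩, (hU n h3).1⟩, (hU n h3).2⟩

open Classical in
/-- the primes in `(x / e ^ 4, x]` in the class `c` modulo `m` that avoid the residues `Z q`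
modulo every prime `q` in `[5, z]` -/
noncomputable def rghS (x z : ℝ) (m c : ℕ) (Z : ℕ → Finset ℕ) : Finset ℕ :=
  (PI (x / Real.exp 4) x).filter fun p => p ≡ c [MOD m] ∧
    ∀ q : ℕ, q.Prime → 5 ≤ q → (q : ℝ) ≤ z → p % q ∉ Z q

open Classical in
theorem mem_rghS {x z : ℝ} {m c : ℕ} {Z : ℕ → Finset ℕ} {p : ℕ} : p ∈ rghS x z m c Z ↔
    (x / Real.exp 4 < p ∧ (p : ℝ) ≤ x ∧ p.Prime) ∧ p ≡ c [MOD m] ∧
      ∀ q : ℕ, q.Prime → 5 ≤ q → (q : ℝ) ≤ z → p % q ∉ Z q := by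
  rw [rghS, mem_filter, mem_PI]

theorem rgh : ∃ C : ℝ, 1 ≤ C ∧ ∀ A : ℕ, ∀ᶠ x : ℝ in atTop, ∀ (K m c : ℕ) (z : ℝ)
    (Z : ℕ → Finset ℕ), K ≤ 2 → m ∣ 18 → c.Coprime m → z ≤ x ^ (1 / 5000 : ℝ) →
    (∀ q : ℕ, q.Prime → 5 ≤ q → (q : ℝ) ≤ z → Z q ⊆ Ioo 0 q ∧ #(Z q) ≤ K) →
    x ≤ C * Real.log x ^ (K + 1) * #(rghS x z m c Z) ∧
    ∀ e r : ℕ, Squarefree e → e.Coprime 6 → (e : ℝ) ≤ Real.log x ^ A →
      (#((rghS x z m c Z).filter fun p => p ≡ r [MOD e]) : ℝ) * e ≤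
        C * 3 ^ #e.primeFactors * #(rghS x z m c Z) := by
  classical
  obtain ⟨v, hv, hV⟩ := rgh_V
  obtain ⟨C, hC⟩ := rgh_core 3
  refine ⟨max (2880 / v) 645120, le_max_of_le_right (by norm_num), fun A => ?_⟩
  have hlo := (isLittleO_log_rpow_rpow_atTop (A : ℝ) (s := 1) (by norm_num)).bound
    (c := 1 / Real.exp 4) (by positivity)
  filter_upwards [hC, rgh_up A hv, wt_sum_lower, eventually_ge_atTop 2, hlo,
    Real.tendsto_log_atTop.eventually_ge_atTop 400,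
    Real.tendsto_log_atTop.eventually_ge_atTop (2880 * C / v)]
    with x hC hup hw e1 e2 e3 e4 K m c z Z hK hm hc hz hZ
  have hx0 : 0 < x := by linarith
  set L := Real.log x with hL
  have hL0 : 0 < L := by linarith
  have hm0 : 0 < m := Nat.pos_of_dvd_of_pos hm (by norm_num)
  have hm18 : (m : ℝ) ≤ 18 := by exact_mod_cast Nat.le_of_dvd (by norm_num) hm
  have hφ : (0 : ℝ) < m.totient := by exact_mod_cast Nat.totient_pos.2 hm0
  have hφ1 : (1 : ℝ) ≤ m.totient := by exact_mod_cast Nat.totient_pos.2 hm0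
  have hφ' : (m.totient : ℝ) ≤ 18 := le_trans (by exact_mod_cast Nat.totient_le m) hm18
  rw [Real.rpow_natCast, Real.norm_of_nonneg (by positivity), Real.rpow_one,
    Real.norm_of_nonneg hx0.le] at e2
  set P := PI 4 z with hPdef
  have hP : ∀ q, q ∈ P ↔ q.Prime ∧ 5 ≤ q ∧ (q : ℝ) ≤ z := fun q => by
    rw [hPdef, mem_PI]
    constructor
    · rintro ⟨h1, h2, h3⟩
      exact ⟨h3, by exact_mod_cast h1, h2⟩
    · rintro ⟨h1, h2, h3⟩
      exact ⟨by exact_mod_cast h2, h3, h1⟩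
  have hPm : ∀ q ∈ P, ¬ q ∣ m := fun q hq hd => by
    obtain ⟨h1, h2, -⟩ := (hP q).1 hq
    have h3 : q ∣ 2 * 3 ^ 2 := hd.trans hm
    rcases (Nat.Prime.dvd_mul h1).1 h3 with h | h
    · have := Nat.le_of_dvd (by norm_num) h; omega
    · have := Nat.le_of_dvd (by norm_num) (h1.dvd_of_dvd_pow h); omega
  have hPK : ∀ q ∈ P, Z q ⊆ Ioo 0 q ∧ #(Z q) ≤ K := fun q hq =>
    hZ q ((hP q).1 hq).1 ((hP q).1 hq).2.1 ((hP q).1 hq).2.2
  have hPZ : ∀ q ∈ P, Z q ⊆ Ioo 0 q ∧ #(Z q) ≤ 2 := fun q hq =>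
    ⟨(hPK q hq).1, (hPK q hq).2.trans hK⟩
  have hz1 : z ≤ x ^ (1 / 4500 : ℝ) :=
    hz.trans (Real.rpow_le_rpow_of_exponent_le (by linarith) (by norm_num))
  have hz2 : z ≤ x := hz.trans (by
    conv_rhs => rw [← Real.rpow_one x]
    exact Real.rpow_le_rpow_of_exponent_le (by linarith) (by norm_num))
  set V := ∏ q ∈ P, (1 - (#(Z q) : ℝ) / ((q : ℝ) - 1)) with hVdef
  have hV1 : v / L ^ 2 ≤ V := hV x e1 2 P (fun q => #(Z q)) le_rfl fun q hq =>
    ⟨((hP q).1 hq).1, ((hP q).1 hq).2.1, ((hP q).1 hq).2.2.trans hz2, (hPZ q hq).2⟩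
  have hVK : v / L ^ K ≤ V := hV x e1 K P (fun q => #(Z q)) hK fun q hq =>
    ⟨((hP q).1 hq).1, ((hP q).1 hq).2.1, ((hP q).1 hq).2.2.trans hz2, (hPK q hq).2⟩
  have hV0 : 0 < V := lt_of_lt_of_le (by positivity) hV1
  set S := rghS x z m c Z with hS
  have low : x * V ≤ 2880 * L * #S := by
    have k1 := (hC m c P Z hm0 (hm18.trans (by
      rw [Real.rpow_def_of_pos hx0]
      have := Real.add_one_le_exp (L * (1 / 125) / 2)
      have h2 : Real.exp (L * (1 / 125)) = Real.exp (L * (1 / 125) / 2) ^ 2 := by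
        rw [← Real.exp_nat_mul]; congr 1; push_cast; ring
      have h3 : Real.exp (16 / 5) ≤ Real.exp (L * (1 / 125)) := Real.exp_le_exp.2 (by linarith)
      have h4 : Real.exp (16 / 5) = Real.exp 1 ^ 3 * Real.exp (1 / 5) := by
        rw [← Real.exp_nat_mul, ← Real.exp_add]; norm_num
      have h5 : (18 : ℝ) ≤ Real.exp 1 ^ 3 :=
        le_trans (by norm_num) (pow_le_pow_left₀ (by norm_num) Real.exp_one_gt_d9.le 3)
      have h6 := Real.one_le_exp (x := 1 / 5) (by norm_num)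
      nlinarith)) hc fun q hq => ⟨((hP q).1 hq).1, hPm q hq, ((hP q).1 hq).2.1,
        ((hP q).1 hq).2.2.trans hz1, hPZ q hq⟩).1
    have k2 : x / 180 ≤ (∑ n ∈ Icc 1 ⌊x⌋₊, wt x n) / m.totient := by
      rw [le_div_iff₀ hφ]
      nlinarith
    have k3 : C * x / L ^ 3 ≤ x * V / 2880 := by
      rw [div_le_iff₀ hv] at e4
      calc C * x / L ^ 3 = 2880 * C / L * (x / L ^ 2) / 2880 := by field_simp
        _ ≤ v * (x / L ^ 2) / 2880 := by
          gcongr
          rw [div_le_iff₀ hL0]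
          linarith
        _ = x * (v / L ^ 2) / 2880 := by ring
        _ ≤ _ := by gcongr
    have k4 : ∑ n ∈ ((Icc 1 ⌊x⌋₊).filter fun n => n ≡ c [MOD m]).filter
        (fun n => ∀ q ∈ P, ¬ n % q ∈ Z q), wt x n ≤ #S * L := by
      rw [← sum_filter_ne_zero, ← nsmul_eq_mul]
      refine (sum_le_card_nsmul _ _ L fun n hn => ?_).trans
        (nsmul_le_nsmul_left hL0.le (card_le_card fun n hn => ?_))
      · obtain ⟨-, h6, h7⟩ := mem_PI.1 (mem_PI_of_wt hx0 (mem_filter.1 hn).2)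
        exact (wt_le x n).trans (Real.log_le_log (by exact_mod_cast h7.pos) h6)
      · simp only [mem_filter] at hn
        obtain ⟨⟨⟨-, h6⟩, h7⟩, h8⟩ := hn
        exact mem_rghS.2 ⟨mem_PI.1 (mem_PI_of_wt hx0 h8), h6, fun q h1 h2 h3 =>
          h7 q ((hP q).2 ⟨h1, h2, h3⟩)⟩
    have k5 := mul_le_mul_of_nonneg_right k2 hV0.le
    have k6 := k1.trans (le_of_eq_of_le (by convert rfl) k4)
    nlinarith
  refine ⟨?_, fun e r he h6 heA => ?_⟩
  · calc x = x * (v / L ^ K) * (L ^ K / v) := by field_simp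
      _ ≤ 2880 * L * #S * (L ^ K / v) :=
        mul_le_mul_of_nonneg_right ((mul_le_mul_of_nonneg_left hVK hx0.le).trans low)
          (by positivity)
      _ = 2880 / v * L ^ (K + 1) * #S := by ring
      _ ≤ _ := by gcongr; exact le_max_left _ _
  have he0 : 0 < e := Nat.pos_of_ne_zero he.ne_zero
  have he0' : (0 : ℝ) < e := by exact_mod_cast he0
  by_cases hr : r.Coprime e
  swap
  · rw [filter_false_of_mem, card_empty, Nat.cast_zero, zero_mul]
    · have : (0 : ℝ) ≤ max (2880 / v) 645120 := le_max_of_le_right (by norm_num)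
      positivity
    · intro p hp h
      obtain ⟨⟨h1, -, h3⟩, -⟩ := mem_rghS.1 hp
      refine hr ?_
      rw [Nat.Coprime, ← h.gcd_eq]
      refine (Nat.Prime.coprime_iff_not_dvd h3).2 (Nat.not_dvd_of_pos_of_lt he0 ?_)
      have : (e : ℝ) < p := by
        rw [div_eq_inv_mul, ← one_div] at h1
        linarith
      exact_mod_cast this
  have hme : m.Coprime e := by
    refine Nat.Coprime.coprime_dvd_left (hm.trans (by norm_num : 18 ∣ 6 ^ 2)) ?_
    exact Nat.Coprime.pow_left 2 h6.symm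
  obtain ⟨c', c1, c2⟩ := Nat.chineseRemainder hme c r
  have hc' : c'.Coprime (m * e) := Nat.Coprime.mul_right
    (by rw [Nat.Coprime, c1.gcd_eq]; exact hc) (by rw [Nat.Coprime, c2.gcd_eq]; exact hr)
  set U := S.filter fun p => p ≡ r [MOD e] with hU
  set V₁ := ∏ q ∈ P.filter (fun q => ¬ q ∣ e), (1 - (#(Z q) : ℝ) / ((q : ℝ) - 1)) with hV₁
  have hrat : V₁ * e ≤ V * 3 ^ #e.primeFactors * e.totient :=
    rgh_ratio he h6 P (fun q => #(Z q)) fun q hq =>
      ⟨((hP q).1 hq).1, ((hP q).1 hq).2.1, (hPZ q hq).2⟩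
  have hφe : (0 : ℝ) < e.totient := by exact_mod_cast Nat.totient_pos.2 he0
  have h3 : (1 : ℝ) ≤ 3 ^ #e.primeFactors := one_le_pow₀ (by norm_num)
  have up : ∀ x' : ℝ, x / 3 ≤ x' → x' ≤ 3 * x →
      (∑ n ∈ U, wt x' n) * e ≤ 56 * (x * V) * 3 ^ #e.primeFactors := fun x' h1 h2 => by
    have k1 := hup x' h1 h2 (m * e) c' (P.filter fun q => ¬ q ∣ e) U Z (Nat.mul_pos hm0 he0)
      (by push_cast; exact mul_le_mul hm18 heA he0'.le (by norm_num)) hc' (fun q hq => by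
        obtain ⟨g1, g2⟩ := mem_filter.1 hq
        refine ⟨((hP q).1 g1).1, fun hd => ?_, ((hP q).1 g1).2.1, ((hP q).1 g1).2.2.trans hz,
          hPZ q g1⟩
        exact ((Nat.Prime.dvd_mul ((hP q).1 g1).1).1 hd).elim (hPm q g1) g2) (fun n hn => by
        obtain ⟨g1, g2⟩ := mem_filter.1 hn
        obtain ⟨-, g3, g4⟩ := mem_rghS.1 g1
        refine ⟨(Nat.modEq_and_modEq_iff_modEq_mul hme).1 ⟨g3.trans c1.symm, g2.trans c2.symm⟩,
          fun q hq => ?_⟩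
        obtain ⟨g5, g6, g7⟩ := (hP q).1 (mem_filter.1 hq).1
        exact g4 q g5 g6 g7)
    rw [Nat.totient_mul hme, Nat.cast_mul, ← hV₁] at k1
    have k2 : 6 * x / (m.totient * e.totient) * V₁ * e ≤ 6 * (x * V) * 3 ^ #e.primeFactors := by
      calc 6 * x / (m.totient * e.totient) * V₁ * e
          = 6 * x / (m.totient * e.totient) * (V₁ * e) := by ring
        _ ≤ 6 * x / (m.totient * e.totient) * (V * 3 ^ #e.primeFactors * e.totient) := by gcongr
        _ = 6 * (x * V) * 3 ^ #e.primeFactors / m.totient := by field_simp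
        _ ≤ _ := div_le_self (by positivity) hφ1
    have k3 : v * x / L ^ (A + 2) * e ≤ x * V * 3 ^ #e.primeFactors := by
      calc v * x / L ^ (A + 2) * e ≤ v * x / L ^ (A + 2) * L ^ A := by gcongr
        _ = x * (v / L ^ 2) := by rw [pow_add]; field_simp
        _ ≤ x * V := by gcongr
        _ ≤ _ := le_mul_of_one_le_right (by positivity) h3
    have k4 := mul_le_mul_of_nonneg_right k1 he0'.le
    linarith
  have ee1 := Real.exp_one_lt_d9
  have ee2 := Real.exp_one_gt_d9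
  have u1 := up (x * Real.exp 1) (by nlinarith) (by nlinarith)
  have u2 := up (x / Real.exp 1) (div_le_div_of_nonneg_left hx0.le (Real.exp_pos _) (by linarith))
    ((div_le_self hx0.le (by linarith)).trans (by linarith))
  have u3 : #U * (L / 2) ≤ ∑ n ∈ U, wt (x * Real.exp 1) n + ∑ n ∈ U, wt (x / Real.exp 1) n := by
    rw [← sum_add_distrib, ← nsmul_eq_mul]
    refine card_nsmul_le_sum _ _ _ fun n hn => ?_
    have := rgh_cover hx0 (mem_PI.2 (mem_rghS.1 (mem_filter.1 hn).1).1)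
    linarith
  have u4 := mul_le_mul_of_nonneg_right u3 he0'.le
  have u5 := mul_le_mul_of_nonneg_right low (by positivity : (0 : ℝ) ≤ 3 ^ #e.primeFactors)
  calc (#U : ℝ) * e ≤ 645120 * 3 ^ #e.primeFactors * #S :=
        le_of_mul_le_mul_right (a := L) (by nlinarith) hL0
    _ ≤ _ := by gcongr; exact le_max_right _ _

section Final

open Pool.Agent.MP_48b1c3_nt

open Classical in
/-- primes in `(x / e ^ 4, x]`, equal to `c` mod 6, outside the class `Z π` mod `π` for small `π` -/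
noncomputable def RGS (x : ℝ) (c : ℕ) (Z : ℕ → ℕ) : Finset ℕ :=
  (H54.PI (x / Real.exp 4) x).filter fun p => p % 6 = c ∧
    ∀ π : ℕ, π.Prime → 5 ≤ π → (π : ℝ) ≤ x ^ (1 / 5000 : ℝ) → ¬ p ≡ Z π [MOD π]

open Classical in
theorem rgh_eq : ∀ᶠ x : ℝ in atTop, ∀ c : ℕ, c < 6 → ∀ Z : ℕ → ℕ, RGS x c Z =
    rghS x (x ^ (1 / 5000 : ℝ)) 6 c fun π => if π ∣ Z π then ∅ else {Z π % π} := by
  filter_upwards [eventually_gt_atTop 0, Real.tendsto_log_atTop.eventually_ge_atTop 5]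
    with x hx hL c hc Z
  have h1 : x ^ (1 / 5000 : ℝ) ≤ x / Real.exp 4 := by
    rw [Real.rpow_def_of_pos hx, le_div_iff₀ (Real.exp_pos _), ← Real.exp_add,
      ← Real.le_log_iff_exp_le hx]
    linarith
  ext p
  rw [mem_rghS, RGS, mem_filter, mem_PI, Nat.ModEq, Nat.mod_eq_of_lt hc]
  refine and_congr_right fun hp => and_congr_right fun _ => forall_congr' fun π =>
    forall_congr' fun g1 => forall_congr' fun _ => forall_congr' fun g3 => ?_
  split_ifs with h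
  · refine iff_of_true (fun e => ?_) (notMem_empty _)
    have h2 : π ∣ p := (e.dvd_iff dvd_rfl).2 h
    have h3 : (π : ℝ) < p := (g3.trans h1).trans_lt hp.1
    rw [(Nat.prime_dvd_prime_iff_eq g1 hp.2.2).1 h2] at h3
    exact lt_irrefl _ h3
  · rw [mem_singleton, Nat.ModEq]

theorem rgh_one {Z : ℕ → ℕ} {π : ℕ} (h : π.Prime) :
    (if π ∣ Z π then (∅ : Finset ℕ) else {Z π % π}) ⊆ Ioo 0 π ∧
      #(if π ∣ Z π then (∅ : Finset ℕ) else {Z π % π}) ≤ 1 := by
  split_ifs with g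
  · simp
  · refine ⟨singleton_subset_iff.2 (mem_Ioo.2 ⟨Nat.pos_of_ne_zero fun e => g ?_,
      Nat.mod_lt _ h.pos⟩), by simp⟩
    exact Nat.dvd_of_mod_eq_zero e

/-- RGH (i). H54.sieve (lower half) with weights H54.wt, modulus 6, P = primes in [5, x^(1/5000)]
not dividing Z π (the others exclude nothing), g π = 1/(π-1), bombieri_vinogradov 64; model sifted_lower. -/
theorem rgh_lower : ∃ κ : ℝ, 0 < κ ∧ ∀ᶠ x : ℝ in atTop, ∀ c : ℕ, c = 1 ∨ c = 5 → ∀ Z : ℕ → ℕ,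
    κ * x / Real.log x ^ 2 ≤ #(RGS x c Z) := by
  obtain ⟨C, hC, h⟩ := rgh
  refine ⟨1 / C, by positivity, ?_⟩
  filter_upwards [h 0, rgh_eq, eventually_gt_atTop 1] with x h he hx c hc Z
  have hL := Real.log_pos hx
  have h1 := (h 1 6 c _ _ (by norm_num) (by norm_num) (by rcases hc with rfl | rfl <;> norm_num)
    le_rfl fun π g _ _ => rgh_one (Z := Z) g).1
  rw [he c (by omega) Z, div_le_iff₀ (by positivity), one_div, inv_mul_le_iff₀ (by linarith)]
  linarith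

/-- RGH (ii). Upper half of H54.sieve in the class (c mod 6, r mod e) with the primes not dividing e, at the
two scales x * e and x / e (bump = 1 on [-3,-1]); lower half at scale x; ratio prod 1/(π-2) <= prod 3/π;
r not a unit mod e gives the empty set. -/
theorem rgh_class : ∃ C : ℝ, ∀ A : ℕ, ∀ᶠ x : ℝ in atTop, ∀ c : ℕ, c = 1 ∨ c = 5 → ∀ Z : ℕ → ℕ,
    (∀ π : ℕ, π.Prime → 5 ≤ π → ¬ π ∣ Z π) → ∀ e r : ℕ, Squarefree e → e.Coprime 6 →
      (e : ℝ) ≤ Real.log x ^ A →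
        (#((RGS x c Z).filter fun p => p ≡ r [MOD e]) : ℝ) * e ≤
          C * 3 ^ #e.primeFactors * #(RGS x c Z) := by
  obtain ⟨C, -, h⟩ := rgh
  refine ⟨C, fun A => ?_⟩
  filter_upwards [h A, rgh_eq] with x h he c hc Z _ e r h1 h2 h3
  rw [he c (by omega) Z]
  exact (h 1 6 c _ _ (by norm_num) (by norm_num) (by rcases hc with rfl | rfl <;> norm_num)
    le_rfl fun π g _ _ => rgh_one (Z := Z) g).2 e r h1 h2 h3

end Final

end Pool.Agent.H84D
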