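import Pool.Agent.H84D.Defs

set_option autoImplicit false

/-! Counting pairs in one fibre of a layered family. -/

namespace Pool.Agent.H84D

open Finset

namespace XiB

/-- one rung of the ladder on states -/
def stp (p : ℕ) (s : ℕ × ℕ) : ℕ × ℕ := ((p + 2) * s.1 + 2 * s.2, 2 * s.1)

/-- all prime factors are at least `z` -/
def Rg (z : ℝ) (n : ℕ) : Prop := ∀ p : ℕ, p.Prime → p ∣ n → z ≤ p

open Classical in
/-- rough divisors above one -/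
noncomputable def RD (z : ℝ) (m : ℕ) : Finset ℕ := m.divisors.filter fun e => 1 < e ∧ Rg z e

lemma Rg.of_dvd {z : ℝ} {n e : ℕ} (h : Rg z n) (he : e ∣ n) : Rg z e :=
  fun p hp h1 => h p hp (h1.trans he)

lemma cnt (S : Finset ℕ) (k Y m : ℕ) (hk : 0 < k) (hS : ∀ a ∈ S, a ≤ Y)
    (h : ∀ a ∈ S, ∀ b ∈ S, k * a ≡ k * b [MOD m]) : (#S : ℝ) ≤ k * Y / m + 1 := by
  have h1 : #S ≤ #(range (k * Y / m + 1)) := by
    refine card_le_card_of_injOn (fun a => k * a / m) (fun a ha => ?_) fun a ha b hb hab => ?_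
    · exact mem_coe.2 (mem_range.2 (Nat.lt_succ_of_le
        (Nat.div_le_div_right (Nat.mul_le_mul_left k (hS a ha)))))
    · have h2 : k * a % m = k * b % m := h a ha b hb
      have h3 : k * a / m = k * b / m := hab
      have h4 := Nat.div_add_mod (k * a) m
      have h5 := Nat.div_add_mod (k * b) m
      rw [h2, h3, h5] at h4
      exact (Nat.eq_of_mul_eq_mul_left hk h4).symm
  rw [card_range] at h1
  have h2 : ((k * Y / m : ℕ) : ℝ) ≤ (k * Y : ℕ) / m := Nat.cast_div_le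
  have h3 : (#S : ℝ) ≤ (k * Y / m : ℕ) + 1 := by exact_mod_cast h1
  push_cast at h2
  linarith

lemma tau {z : ℝ} (hz : 2 ≤ z) (s : ℕ) :
    ∀ n : ℕ, n ≠ 0 → Rg z n → (n : ℝ) ≤ z ^ s → #n.divisors ≤ 2 ^ s := by
  induction s with
  | zero =>
    intro n hn _ h
    have h1 : n ≤ 1 := by exact_mod_cast (h.trans_eq (pow_zero z))
    obtain rfl : n = 1 := by omega
    simp
  | succ s ih =>
    intro n hn hr h
    by_cases h1 : n = 1
    · subst h1; simpa using Nat.one_le_two_pow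
    obtain ⟨p, hp, m, rfl⟩ := Nat.exists_prime_and_dvd h1
    have hm : m ≠ 0 := fun h0 => hn (by simp [h0])
    have h2 := hr p hp (dvd_mul_right _ _)
    have h3 : (m : ℝ) ≤ z ^ s := by
      have h4 : z * m ≤ z * z ^ s := by
        calc z * m ≤ p * m := by gcongr
          _ ≤ z ^ (s + 1) := by exact_mod_cast h
          _ = _ := by ring
      exact le_of_mul_le_mul_left h4 (by linarith)
    have h5 := ih m hm (hr.of_dvd (dvd_mul_left _ _)) h3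
    rw [Nat.divisors_mul]
    refine card_mul_le.trans ?_
    rw [hp.divisors, card_pair hp.one_lt.ne, pow_succ]
    omega

lemma mem_RD {z : ℝ} {m e : ℕ} : e ∈ RD z m ↔ (e ∣ m ∧ m ≠ 0) ∧ 1 < e ∧ Rg z e := by
  simp [RD]

lemma rd_card {z : ℝ} (hz : 2 ≤ z) {s m : ℕ} (hm : m ≠ 0) (h : (m : ℝ) ≤ z ^ s) :
    (#(RD z m) : ℝ) ≤ 2 ^ s := by
  have h1 : (RD z m).lcm id ∣ m :=
    Finset.lcm_dvd fun e he => (mem_RD.1 he).1.1
  have h0 : (RD z m).lcm id ≠ 0 := fun h2 => hm (by rwa [h2, zero_dvd_iff] at h1)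
  have h2 : Rg z ((RD z m).lcm id) := by
    intro p hp h3
    have h4 : (RD z m).lcm id ∣ ∏ e ∈ RD z m, e :=
      Finset.lcm_dvd fun e he => dvd_prod_of_mem (fun e => e) he
    obtain ⟨e, he, h5⟩ := (hp.prime.dvd_finsetProd_iff _).1 (h3.trans h4)
    exact (mem_RD.1 he).2.2 p hp h5
  have h3 := tau hz s _ h0 h2
    (le_trans (by exact_mod_cast Nat.le_of_dvd (Nat.pos_of_ne_zero hm) h1) h)
  have h4 : #(RD z m) ≤ #((RD z m).lcm id).divisors :=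
    card_le_card fun e he => Nat.mem_divisors.2 ⟨Finset.dvd_lcm (f := id) he, h0⟩
  exact_mod_cast h4.trans h3

lemma rd_ge {z : ℝ} {m e : ℕ} (h : e ∈ RD z m) : z ≤ e := by
  obtain ⟨_, h1, h2⟩ := mem_RD.1 h
  exact (h2 _ (Nat.minFac_prime h1.ne') (Nat.minFac_dvd e)).trans
    (by exact_mod_cast Nat.minFac_le (by omega))

lemma gcd_sum {A : ℕ} (Am : ℕ) (hA : A ≠ 0) :
    ∑ x ∈ Ioc 0 Am, (A.gcd x : ℝ) ≤ #A.divisors * Am := by
  calc ∑ x ∈ Ioc 0 Am, (A.gcd x : ℝ)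
      ≤ ∑ x ∈ Ioc 0 Am, ∑ e ∈ A.divisors, if e ∣ x then (e : ℝ) else 0 := by
        refine sum_le_sum fun x _ => ?_
        refine le_trans ?_ (single_le_sum (f := fun e => if e ∣ x then (e : ℝ) else 0)
          (fun e _ => by positivity) (Nat.mem_divisors.2 ⟨Nat.gcd_dvd_left A x, hA⟩))
        simp [Nat.gcd_dvd_right]
    _ ≤ ∑ e ∈ A.divisors, (Am : ℝ) := by
        rw [sum_comm]
        refine sum_le_sum fun e _ => ?_
        rw [← sum_filter, sum_const, Nat.Ioc_filter_dvd_card_eq_div, nsmul_eq_mul]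
        exact_mod_cast Nat.div_mul_le_self Am e
    _ = _ := by rw [sum_const, nsmul_eq_mul]

lemma lay {S T : Finset (ℕ × ℕ)} {P : ℕ}
    (h : ∀ t ∈ T, ∃ s ∈ S, ∃ p, 1 ≤ p ∧ p ≤ P ∧ t = stp p s) (f : ℕ × ℕ → ℝ) (hf : ∀ t, 0 ≤ f t) :
    ∑ t ∈ T, f t ≤ ∑ s ∈ S, ∑ p ∈ Icc 1 P, f (stp p s) := by
  rw [← sum_product' (f := fun s p => f (stp p s))]
  refine le_trans (sum_le_sum_of_subset_of_nonneg (t := (S ×ˢ Icc 1 P).image
    fun w => stp w.2 w.1) (fun t ht => ?_) fun t _ _ => hf t) (sum_image_le_of_nonneg fun t _ => hf t)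
  obtain ⟨s, hs, p, h1, h2, rfl⟩ := h t ht
  exact mem_image.2 ⟨(s, p), mem_product.2 ⟨hs, mem_Icc.2 ⟨h1, h2⟩⟩, rfl⟩

lemma cls (P e k A : ℕ) (r : ℤ) (hk : 0 < k) (hc : e.Coprime A) :
    (#((Icc 1 P).filter fun y : ℕ => (e : ℤ) ∣ k * (r - y * A)) : ℝ) ≤ k * P / e + 1 := by
  refine cnt _ k P e hk (fun a ha => (mem_Icc.1 (mem_filter.1 ha).1).2) fun a ha b hb => ?_
  rw [Nat.modEq_iff_dvd]
  have h1 := dvd_sub (mem_filter.1 ha).2 (mem_filter.1 hb).2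
  have h2 : (k : ℤ) * (r - a * A) - k * (r - b * A) = ((k * b : ℕ) - (k * a : ℕ)) * A := by
    push_cast; ring
  rw [h2] at h1
  exact (Nat.isCoprime_iff_coprime.2 hc).dvd_of_dvd_mul_right h1

lemma cls0 (P e : ℕ) {s : ℕ × ℕ} (hc : s.1.Coprime (2 * s.2)) :
    ∑ y ∈ Icc 1 P, (if e ∣ (stp y s).1 then (1 : ℝ) else 0) ≤ P / e + 1 := by
  rw [sum_boole]
  rcases eq_empty_or_nonempty {y ∈ Icc 1 P | e ∣ (stp y s).1} with h | ⟨y, hy⟩
  · rw [h, card_empty, Nat.cast_zero]; positivity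
  have h1 : e.Coprime s.1 := by
    have h2 : e.gcd s.1 ∣ 2 * s.2 :=
      (Nat.dvd_add_right ((Nat.gcd_dvd_right _ _).mul_left _)).1
        ((Nat.gcd_dvd_left _ _).trans (mem_filter.1 hy).2)
    exact Nat.eq_one_of_dvd_coprimes hc (Nat.gcd_dvd_right _ _) h2
  have h2 := cls P e 1 s.1 (-(2 * s.1 + 2 * s.2)) one_pos h1
  simp only [Nat.cast_one, one_mul] at h2
  refine le_trans (Nat.cast_le.2 (card_le_card fun a ha => ?_)) h2
  refine mem_filter.2 ⟨(mem_filter.1 ha).1, ?_⟩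
  have h3 : (e : ℤ) ∣ ((stp a s).1 : ℕ) := Int.natCast_dvd_natCast.2 (mem_filter.1 ha).2
  rw [← dvd_neg] at h3
  refine h3.trans (dvd_of_eq ?_)
  simp only [stp]; push_cast; ring

open Classical in
/-- weight of a pair with a common rough factor -/
noncomputable def fb (z : ℝ) (t t' : ℕ × ℕ) : ℝ :=
  if t.2 ≠ t'.2 ∧ 1 < t.1.gcd t'.1 ∧ (t.1.gcd t'.1 : ℤ) ∣ (t.2 : ℤ) - t'.2 ∧ Rg z (t.1.gcd t'.1)
  then t.1.gcd t'.1 else 0

lemma fb_nonneg (z : ℝ) (t t' : ℕ × ℕ) : 0 ≤ fb z t t' := by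
  unfold fb; split_ifs <;> positivity

lemma wb1 {z : ℝ} (hz : 2 ≤ z) {s P : ℕ} (hP : (2 * P : ℝ) ≤ z ^ s) {u u' : ℕ × ℕ}
    (hu : u.1.Coprime (2 * u.2)) (hu' : u'.1.Coprime (2 * u'.2)) (h : u.1 ≤ P) (h' : u'.1 ≤ P) :
    ∑ y ∈ Icc 1 P, ∑ y' ∈ Icc 1 P, fb z (stp y u) (stp y' u') ≤ 2 ^ s * (9 * P ^ 2 / z) := by
  have z0 : 0 < z := by linarith
  by_cases h0 : u.1 = u'.1
  · refine le_trans (le_of_eq (sum_eq_zero fun y _ => sum_eq_zero fun y' _ => ?_)) (by positivity)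
    exact if_neg fun h1 => h1.1 (by simp [stp, h0])
  set m := ((2 * u.1 : ℕ) - (2 * u'.1 : ℕ) : ℤ).natAbs with hm
  have m0 : m ≠ 0 := by omega
  have m1 : m ≤ 2 * P := by omega
  have m2 : (m : ℝ) ≤ 2 * P := by exact_mod_cast m1
  calc _ ≤ ∑ y ∈ Icc 1 P, ∑ y' ∈ Icc 1 P, ∑ e ∈ RD z m, (e : ℝ) *
        ((if e ∣ (stp y u).1 then (1 : ℝ) else 0) * if e ∣ (stp y' u').1 then (1 : ℝ) else 0) := by
        refine sum_le_sum fun y _ => sum_le_sum fun y' _ => ?_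
        unfold fb
        split_ifs with h1
        · refine le_trans ?_ (single_le_sum (fun e _ => by positivity)
            (mem_RD.2 ⟨⟨Int.natCast_dvd.1 h1.2.2.1, m0⟩, h1.2.1, h1.2.2.2⟩))
          rw [if_pos (Nat.gcd_dvd_left _ _), if_pos (Nat.gcd_dvd_right _ _)]
          simp
        · positivity
    _ = ∑ e ∈ RD z m, (e : ℝ) * ((∑ y ∈ Icc 1 P, if e ∣ (stp y u).1 then (1 : ℝ) else 0) *
          ∑ y' ∈ Icc 1 P, if e ∣ (stp y' u').1 then (1 : ℝ) else 0) := by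
        simp_rw [sum_mul_sum, mul_sum]
        rw [sum_comm (s := RD z m)]
        exact sum_congr rfl fun y _ => sum_comm
    _ ≤ ∑ _e ∈ RD z m, 9 * (P : ℝ) ^ 2 / z := by
        refine sum_le_sum fun e he => ?_
        have e1 := rd_ge he
        have e0 : (0 : ℝ) < e := by linarith
        have e2 : (e : ℝ) ≤ 2 * P := le_trans
          (by exact_mod_cast Nat.le_of_dvd (Nat.pos_of_ne_zero m0) (mem_RD.1 he).1.1) m2
        have e3 : (P : ℝ) / e + 1 ≤ 3 * P / e := by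
          rw [div_add_one e0.ne']; gcongr; linarith
        calc _ ≤ (e : ℝ) * (3 * P / e * (3 * P / e)) := by
              gcongr
              · exact (cls0 P e hu).trans e3
              · exact (cls0 P e hu').trans e3
          _ = 9 * P ^ 2 / e := by field_simp; ring
          _ ≤ _ := by gcongr
    _ ≤ _ := by
        rw [sum_const, nsmul_eq_mul]
        gcongr
        exact rd_card hz m0 (m2.trans hP)

lemma wb {z : ℝ} (hz : 2 ≤ z) {s P : ℕ} (hP : (2 * P : ℝ) ≤ z ^ s) {S T : Finset (ℕ × ℕ)}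
    (h : ∀ t ∈ T, ∃ u ∈ S, ∃ p, 1 ≤ p ∧ p ≤ P ∧ t = stp p u)
    (hc : ∀ u ∈ S, u.1.Coprime (2 * u.2)) (hs : ∀ u ∈ S, u.1 ≤ P) :
    ∑ t ∈ T, ∑ t' ∈ T, fb z t t' ≤ #S ^ 2 * (2 ^ s * (9 * P ^ 2 / z)) := by
  refine (lay h _ fun t => sum_nonneg fun t' _ => fb_nonneg z t t').trans ?_
  calc _ ≤ ∑ u ∈ S, ∑ u' ∈ S, (2 : ℝ) ^ s * (9 * P ^ 2 / z) := by
        refine sum_le_sum fun u hu => ?_
        refine (sum_le_sum fun y _ => lay h _ (fb_nonneg z _)).trans ?_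
        rw [sum_comm]
        exact sum_le_sum fun u' hu' => wb1 hz hP (hc u hu) (hc u' hu') (hs u hu) (hs u' hu')
    _ = _ := by simp only [sum_const, nsmul_eq_mul]; ring

lemma wa {z : ℝ} (hz : 2 ≤ z) {s Am : ℕ} (hA : (Am : ℝ) ≤ z ^ s) {T : Finset (ℕ × ℕ)}
    (h : ∀ t ∈ T, 0 < t.1 ∧ t.1 ≤ Am) (hr : ∀ t ∈ T, Rg z t.1) :
    ∑ t ∈ T, ∑ t' ∈ T, (if t.2 = t'.2 then (t.1.gcd t'.1 : ℝ) else 0) ≤ #T * (2 ^ s * Am) := by
  rw [← nsmul_eq_mul]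
  refine sum_le_card_nsmul _ _ _ fun t ht => ?_
  have h1 := tau hz s _ (h t ht).1.ne' (hr t ht) (le_trans (by exact_mod_cast (h t ht).2) hA)
  have h2 : (#t.1.divisors : ℝ) ≤ 2 ^ s := by exact_mod_cast h1
  refine le_trans ?_ ((gcd_sum Am (h t ht).1.ne').trans (by gcongr))
  rw [← sum_filter, ← sum_image (g := Prod.fst) (f := fun x : ℕ => (t.1.gcd x : ℝ))]
  · refine sum_le_sum_of_subset_of_nonneg (fun x hx => ?_) fun _ _ _ => by positivity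
    obtain ⟨t', h3, rfl⟩ := mem_image.1 hx
    exact mem_Ioc.2 (h t' (mem_filter.1 h3).1)
  · intro a ha b hb hab
    exact Prod.ext hab ((mem_filter.1 ha).2.symm.trans (mem_filter.1 hb).2)

lemma wc {z : ℝ} (hz : 2 ≤ z) {s d Q P : ℕ} (d0 : d ≠ 0) (hd : (d : ℝ) ≤ z ^ s)
    {R S T : Finset (ℕ × ℕ)} (h1 : ∀ t ∈ S, ∃ u ∈ R, ∃ p, 1 ≤ p ∧ p ≤ Q ∧ t = stp p u)
    (h2 : ∀ t ∈ T, ∃ u ∈ S, ∃ p, 1 ≤ p ∧ p ≤ P ∧ t = stp p u)
    (hc : ∀ u ∈ R, u.1.Coprime (2 * u.2)) (hr : ∀ u ∈ S, Rg z u.1) (A : ℕ) :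
    ∑ t ∈ T, (if (d : ℤ) ∣ 16 * ((A : ℤ) - t.1) then (1 : ℝ) else 0) ≤
      #S * (16 * P / d + 1) + #R * (2 ^ s * (Q / z + 1)) * P := by
  have z0 : 0 < z := by linarith
  refine (lay h2 _ fun t => by positivity).trans ?_
  have a1 : ∀ u ∈ S, ∑ y ∈ Icc 1 P, (if (d : ℤ) ∣ 16 * ((A : ℤ) - (stp y u).1) then (1 : ℝ) else 0) ≤
      (16 * P / d + 1) + (∑ e ∈ RD z d, if e ∣ u.1 then (1 : ℝ) else 0) * P := by
    intro u hu
    rw [sum_boole]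
    by_cases a2 : d.Coprime u.1
    · have a3 := cls P d 16 u.1 (A - (2 * u.1 + 2 * u.2)) (by norm_num) a2
      refine le_trans (le_trans (Nat.cast_le.2 (card_le_card fun a ha => ?_)) a3) ?_
      · refine mem_filter.2 ⟨(mem_filter.1 ha).1, ?_⟩
        convert (mem_filter.1 ha).2 using 1
        simp only [stp]; push_cast; ring
      · push_cast
        exact le_add_of_nonneg_right (by positivity)
    · have a3 : d.gcd u.1 ∈ RD z d := mem_RD.2 ⟨⟨Nat.gcd_dvd_left _ _, d0⟩,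
        lt_of_le_of_ne (Nat.gcd_pos_of_pos_left _ (Nat.pos_of_ne_zero d0)) (Ne.symm a2),
        (hr u hu).of_dvd (Nat.gcd_dvd_right _ _)⟩
      have a4 := single_le_sum (f := fun e => if e ∣ u.1 then (1 : ℝ) else 0)
        (fun e _ => by positivity) a3
      simp only [Nat.gcd_dvd_right, if_true] at a4
      have a5 : (#((Icc 1 P).filter fun y => (d : ℤ) ∣ 16 * ((A : ℤ) - (stp y u).1)) : ℝ) ≤ P := by
        exact_mod_cast (card_filter_le _ _).trans (by simp)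
      have a6 := mul_le_mul_of_nonneg_right a4 (Nat.cast_nonneg (α := ℝ) P)
      have a7 : (0 : ℝ) ≤ 16 * P / d + 1 := by positivity
      linarith
  refine (sum_le_sum a1).trans ?_
  rw [sum_add_distrib, sum_const, nsmul_eq_mul, ← sum_mul]
  gcongr
  refine (lay h1 _ fun t => by positivity).trans ?_
  rw [← nsmul_eq_mul]
  refine sum_le_card_nsmul _ _ _ fun u hu => ?_
  rw [sum_comm]
  refine (sum_le_card_nsmul _ _ (Q / z + 1 : ℝ) fun e he => ?_).trans ?_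
  · refine (cls0 Q e (hc u hu)).trans ?_
    gcongr
    exact rd_ge he
  · rw [nsmul_eq_mul]
    gcongr
    exact rd_card hz d0 hd

open Classical in
/-- the common values above two states -/
noncomputable def NN (z : ℝ) (Y d : ℕ) (t t' : ℕ × ℕ) : Finset ℕ :=
  (range (Y + 1)).filter fun a => t.1 ≠ t'.1 ∧ a ≡ 2 * t.2 [MOD t.1] ∧ a ≡ 2 * t'.2 [MOD t'.1] ∧
    Rg z a ∧ (d : ℤ) ∣ a * (16 * ((t.1 : ℤ) - t'.1))

lemma mem_NN {z : ℝ} {Y d a : ℕ} {t t' : ℕ × ℕ} : a ∈ NN z Y d t t' ↔ a ≤ Y ∧ t.1 ≠ t'.1 ∧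
    a ≡ 2 * t.2 [MOD t.1] ∧ a ≡ 2 * t'.2 [MOD t'.1] ∧ Rg z a ∧
      (d : ℤ) ∣ a * (16 * ((t.1 : ℤ) - t'.1)) := by
  simp [NN]

lemma nn1 {z : ℝ} {Y d e : ℕ} {t t' : ℕ × ℕ} (h : t.1.Coprime (2 * t.2))
    (h' : t'.1.Coprime (2 * t'.2)) (p : 0 < t.1) (p' : 0 < t'.1) (e0 : 0 < e) :
    (#((NN z Y d t t').filter fun a => e ∣ a) : ℝ) ≤ Y * t.1.gcd t'.1 / (t.1 * t'.1) / e + 1 := by
  have h1 := cnt ((NN z Y d t t').filter fun a => e ∣ a) 1 Y (t.1.lcm t'.1 * e) one_pos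
    (fun a ha => (mem_NN.1 (mem_filter.1 ha).1).1) fun a ha b hb => by
      obtain ⟨⟨_, _, a1, a2, _⟩, a3⟩ := (mem_filter.1 ha).imp_left mem_NN.1
      obtain ⟨⟨_, _, b1, b2, _⟩, b3⟩ := (mem_filter.1 hb).imp_left mem_NN.1
      have c1 : a.Coprime t.1 := by rw [Nat.Coprime, a1.gcd_eq]; exact h.symm
      have c2 : a.Coprime t'.1 := by rw [Nat.Coprime, a2.gcd_eq]; exact h'.symm
      have c3 : (t.1.lcm t'.1).Coprime e :=
        (((c1.mul_right c2).coprime_dvd_left a3).coprime_dvd_right (Nat.lcm_dvd_mul _ _)).symm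
      rw [one_mul, one_mul, ← Nat.modEq_and_modEq_iff_modEq_mul c3]
      exact ⟨Nat.mod_lcm (a1.trans b1.symm) (a2.trans b2.symm),
        (Nat.modEq_zero_iff_dvd.2 a3).trans (Nat.modEq_zero_iff_dvd.2 b3).symm⟩
  refine h1.trans (le_of_eq ?_)
  have h2 : (t.1 : ℝ) * t'.1 = t.1.gcd t'.1 * t.1.lcm t'.1 := by
    exact_mod_cast (Nat.gcd_mul_lcm _ _).symm
  have h3 : (0 : ℝ) < t.1.gcd t'.1 := by exact_mod_cast Nat.gcd_pos_of_pos_left _ p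
  have h4 : (0 : ℝ) < t.1.lcm t'.1 := by exact_mod_cast Nat.lcm_pos p p'
  rw [h2]; push_cast; field_simp

lemma nn2 {z : ℝ} (hz : 2 ≤ z) {Y d s : ℕ} (d0 : d ≠ 0) (hd : (d : ℝ) ≤ z ^ s) {t t' : ℕ × ℕ}
    (h : t.1.Coprime (2 * t.2)) (h' : t'.1.Coprime (2 * t'.2)) (p : 0 < t.1) (p' : 0 < t'.1)
    (hY : t.1 * t'.1 * z ≤ Y) :
    (#(NN z Y d t t') : ℝ) ≤ 2 * (Y * t.1.gcd t'.1 / (t.1 * t'.1)) *
      ((if (d : ℤ) ∣ 16 * ((t.1 : ℤ) - t'.1) then 1 else 0) + 2 ^ s / z) := by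
  have z0 : 0 < z := by linarith
  set W : ℝ := Y * t.1.gcd t'.1 / (t.1 * t'.1) with hW
  have h3 : (1 : ℝ) ≤ t.1.gcd t'.1 := by exact_mod_cast Nat.gcd_pos_of_pos_left _ p
  have w1 : z ≤ W := by
    rw [hW, le_div_iff₀ (by positivity)]
    have := mul_le_mul_of_nonneg_left h3 (Nat.cast_nonneg (α := ℝ) Y)
    linarith
  have a1 : NN z Y d t t' ⊆ ((NN z Y d t t').filter fun a => a.Coprime d) ∪
      (RD z d).biUnion fun e => (NN z Y d t t').filter fun a => e ∣ a := by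
    intro a ha
    by_cases a2 : a.Coprime d
    · exact mem_union_left _ (mem_filter.2 ⟨ha, a2⟩)
    · refine mem_union_right _ (mem_biUnion.2 ⟨a.gcd d, mem_RD.2 ⟨⟨Nat.gcd_dvd_right _ _, d0⟩,
        lt_of_le_of_ne (Nat.gcd_pos_of_pos_right _ (Nat.pos_of_ne_zero d0)) (Ne.symm a2),
        (mem_NN.1 ha).2.2.2.2.1.of_dvd (Nat.gcd_dvd_left _ _)⟩,
        mem_filter.2 ⟨ha, Nat.gcd_dvd_left _ _⟩⟩)
  have a2 : (#((NN z Y d t t').filter fun a => a.Coprime d) : ℝ) ≤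
      2 * W * if (d : ℤ) ∣ 16 * ((t.1 : ℤ) - t'.1) then 1 else 0 := by
    split_ifs with a3
    · have a4 := nn1 (z := z) (Y := Y) (d := d) h h' p p' one_pos
      simp only [one_dvd, filter_true, Nat.cast_one, div_one, ← hW] at a4
      have a5 : (#((NN z Y d t t').filter fun a => a.Coprime d) : ℝ) ≤ #(NN z Y d t t') := by
        exact_mod_cast card_filter_le _ _
      linarith
    · rw [filter_false_of_mem fun a ha a4 => a3
        ((Nat.isCoprime_iff_coprime.2 a4.symm).dvd_of_dvd_mul_left (mem_NN.1 ha).2.2.2.2.2)]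
      simp
  have a3 : ∑ e ∈ RD z d, (#((NN z Y d t t').filter fun a => e ∣ a) : ℝ) ≤ 2 ^ s * (2 * W / z) := by
    refine (sum_le_card_nsmul _ _ (2 * W / z) fun e he => ?_).trans ?_
    · have e1 := rd_ge he
      refine (nn1 h h' p p' (by exact_mod_cast z0.trans_le e1)).trans ?_
      have b1 : W / e ≤ W / z := by gcongr
      have b2 : 1 ≤ W / z := (one_le_div z0).2 w1
      rw [mul_div_assoc 2 W z]
      linarith
    · rw [nsmul_eq_mul]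
      have : 0 ≤ 2 * W / z := by positivity
      gcongr
      exact rd_card hz d0 hd
  have a4 : (#(NN z Y d t t') : ℝ) ≤ #((NN z Y d t t').filter fun a => a.Coprime d) +
      ∑ e ∈ RD z d, (#((NN z Y d t t').filter fun a => e ∣ a) : ℝ) := by
    exact_mod_cast (card_le_card a1).trans ((card_union_le _ _).trans
      (Nat.add_le_add_left card_biUnion_le _))
  have a5 : 2 ^ s * (2 * W / z) = 2 * W * (2 ^ s / z) := by ring
  rw [mul_add]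
  linarith

lemma nn3 {z : ℝ} (hz : 2 ≤ z) {Y d s : ℕ} (d0 : d ≠ 0) (hd : (d : ℝ) ≤ z ^ s) {t t' : ℕ × ℕ}
    (h : t.1.Coprime (2 * t.2)) (h' : t'.1.Coprime (2 * t'.2)) (hr : Rg z t.1)
    (hY : t.1 * t'.1 * z ≤ Y) {R : ℝ} (hR : Y / (t.1 * t'.1) ≤ R) :
    (#(NN z Y d t t') : ℝ) ≤ 2 * R * (2 * 2 ^ s *
      ((if t.2 = t'.2 then (t.1.gcd t'.1 : ℝ) else 0) + fb z t t') +
        (if (d : ℤ) ∣ 16 * ((t.1 : ℤ) - t'.1) then 1 else 0) + 2 ^ s / z) := by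
  have z0 : 0 < z := by linarith
  have R0 : 0 ≤ R := le_trans (by positivity) hR
  have f0 := fb_nonneg z t t'
  rcases eq_empty_or_nonempty (NN z Y d t t') with h0 | ⟨a, ha⟩
  · rw [h0, card_empty, Nat.cast_zero]; positivity
  have o : ∀ u : ℕ × ℕ, u.1.Coprime (2 * u.2) → 0 < u.1 := fun u hu => by
    by_contra h1
    rw [show u.1 = 0 by omega, Nat.coprime_zero_left] at hu
    omega
  refine (nn2 hz d0 hd h h' (o t h) (o t' h') hY).trans ?_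
  rw [mul_div_right_comm, ← mul_assoc, mul_assoc (2 * _)]
  refine mul_le_mul (by gcongr) ?_ (by positivity) (by positivity)
  set I : ℝ := if (d : ℤ) ∣ 16 * ((t.1 : ℤ) - t'.1) then 1 else 0 with hI
  have I1 : I ≤ 1 := by rw [hI]; split_ifs <;> norm_num
  have s1 : (1 : ℝ) ≤ 2 ^ s := one_le_pow₀ one_le_two
  have s2 : 2 ^ s / z ≤ 2 ^ s := div_le_self (by positivity) (by linarith)
  have I0 : 0 ≤ I := by positivity
  have s0 : 0 ≤ 2 ^ s / z := by positivity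
  by_cases g1 : t.1.gcd t'.1 = 1
  · rw [g1, Nat.cast_one, one_mul, add_assoc]
    exact le_add_of_nonneg_left (by positivity)
  have g2 : (t.1.gcd t'.1 : ℝ) ≤ (if t.2 = t'.2 then (t.1.gcd t'.1 : ℝ) else 0) + fb z t t' := by
    split_ifs with g3
    · linarith
    · obtain ⟨_, _, a1, a2, _⟩ := mem_NN.1 ha
      have g4 : 2 * t'.2 ≡ 2 * t.2 [MOD t.1.gcd t'.1] :=
        (a2.of_dvd (Nat.gcd_dvd_right _ _)).symm.trans (a1.of_dvd (Nat.gcd_dvd_left _ _))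
      have g5 := g4.cancel_left_of_coprime
        ((h.coprime_dvd_left (Nat.gcd_dvd_left _ t'.1)).coprime_dvd_right (dvd_mul_right _ _))
      rw [fb, if_pos ⟨g3, lt_of_le_of_ne (Nat.gcd_pos_of_pos_left _ (o t h)) (Ne.symm g1),
        g5.dvd, hr.of_dvd (Nat.gcd_dvd_left _ _)⟩, zero_add]
  calc _ ≤ (t.1.gcd t'.1 : ℝ) * (2 * 2 ^ s) := by gcongr; linarith
    _ ≤ _ := by
      have := mul_le_mul_of_nonneg_left g2 (show (0 : ℝ) ≤ 2 * 2 ^ s by positivity)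
      linarith

lemma xi_le {z : ℝ} {Y P : ℕ} (d : ℕ) {T F : Finset (ℕ × ℕ)}
    (h : ∀ t ∈ F, ∃ u ∈ T, ∃ p, 1 ≤ p ∧ p ≤ P ∧ t = stp p u) (hY : ∀ t ∈ F, t.1 ≤ Y)
    (hr : ∀ t ∈ F, Rg z t.1) : Xi F d ≤ ∑ t ∈ T, ∑ t' ∈ T, #(NN z Y d t t') := by
  rw [← sum_product' (f := fun t t' => #(NN z Y d t t'))]
  refine le_trans (card_le_card (t := (T ×ˢ T).biUnion fun w => (NN z Y d w.1 w.2).image
    fun a => ((a, 2 * w.1.1), (a, 2 * w.2.1))) fun w hw => ?_)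
    (card_biUnion_le.trans (sum_le_sum fun w _ => card_image_le))
  obtain ⟨h1, h2, h3, h4⟩ := mem_filter.1 hw
  obtain ⟨h5, h6⟩ := mem_product.1 h1
  obtain ⟨u, hu, p, _, _, e⟩ := h _ h5
  obtain ⟨u', hu', p', _, _, e'⟩ := h _ h6
  have b : w.1.2 = 2 * u.1 := by rw [e]; rfl
  have b' : w.2.2 = 2 * u'.1 := by rw [e']; rfl
  have a : w.1.1 = (p + 2) * u.1 + 2 * u.2 := by rw [e]; rfl
  have a' : w.1.1 = (p' + 2) * u'.1 + 2 * u'.2 := by rw [h2, e']; rfl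
  refine mem_biUnion.2 ⟨(u, u'), mem_product.2 ⟨hu, hu'⟩, mem_image.2 ⟨w.1.1, mem_NN.2
    ⟨hY _ h5, fun c => h3 (by rw [b, b']; exact congrArg _ c), ?_, ?_, hr _ h5, ?_⟩, ?_⟩⟩
  · rw [a]; simp [Nat.ModEq]
  · rw [a']; simp [Nat.ModEq]
  · refine h4.trans (dvd_of_eq ?_)
    rw [b, b']; push_cast; ring
  · exact Prod.ext (Prod.ext rfl b.symm) (Prod.ext h2 b'.symm)

end XiB

open XiB in
theorem xi_bound (S1 S2 S3 F : Finset (ℕ × ℕ)) (Pz Py Px Am Y s : ℕ) (z C lam : ℝ)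
    (l2 : ∀ t ∈ S2, ∃ u ∈ S1, ∃ p, 1 ≤ p ∧ p ≤ Pz ∧ t = stp p u)
    (l3 : ∀ t ∈ S3, ∃ u ∈ S2, ∃ p, 1 ≤ p ∧ p ≤ Py ∧ t = stp p u)
    (l4 : ∀ t ∈ F, ∃ u ∈ S3, ∃ p, 1 ≤ p ∧ p ≤ Px ∧ t = stp p u)
    (c1 : ∀ t ∈ S1, t.1.Coprime (2 * t.2)) (c2 : ∀ t ∈ S2, t.1.Coprime (2 * t.2))
    (c3 : ∀ t ∈ S3, t.1.Coprime (2 * t.2))
    (r2 : ∀ t ∈ S2, ∀ p : ℕ, p.Prime → p ∣ t.1 → z ≤ p)
    (r3 : ∀ t ∈ S3, ∀ p : ℕ, p.Prime → p ∣ t.1 → z ≤ p)
    (r4 : ∀ t ∈ F, ∀ p : ℕ, p.Prime → p ∣ t.1 → z ≤ p)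
    (hz : 2 ≤ z) (hC : 1 ≤ C) (hl : 1 ≤ lam) (hs : 64 * (Y : ℝ) ^ 2 ≤ z ^ s)
    (zz : z ≤ Pz) (zy : z ≤ Py) (hPy : Py ≤ Y) (s2 : ∀ t ∈ S2, t.1 ≤ Py)
    (s3 : ∀ t ∈ S3, t.1 ≤ Am ∧ (Am : ℝ) ≤ C * t.1) (s4 : ∀ t ∈ F, t.1 ≤ Y)
    (y1 : (Am : ℝ) ^ 2 * z ≤ Y) (y2 : (Y : ℝ) ≤ C * (Px * Am)) (y3 : (Px : ℝ) * Am ≤ C * Y)
    (n2 : (#S1 : ℝ) * Pz ≤ lam * #S2) (n3 : (#S2 : ℝ) * Py ≤ lam * #S3)
    (n4 : (#S3 : ℝ) * Px ≤ lam * #F) (d : ℕ) (d0 : 0 < d) (hd : d ≤ 64 * Y ^ 2) :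
    (Xi F d : ℝ) * Y ≤ 44 * C ^ 5 * lam ^ 4 * 4 ^ s * (1 / d + 1 / z + Y / #F) * (#F : ℝ) ^ 2 := by
  have z0 : 0 < z := by linarith
  rcases F.eq_empty_or_nonempty with rfl | hF
  · simp [Xi]
  have F0 : (0 : ℝ) < #F := by exact_mod_cast hF.card_pos
  have Y2 : (2 : ℝ) ≤ Y := hz.trans (zy.trans (by exact_mod_cast hPy))
  have PA : (0 : ℝ) < Px * Am := by
    by_contra h
    have := mul_le_mul_of_nonneg_left (not_lt.1 h) (show 0 ≤ C by linarith)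
    linarith
  have A0 : (0 : ℝ) < Am := pos_of_mul_pos_right PA (by positivity)
  have A1 : (1 : ℝ) ≤ Am := by exact_mod_cast (show 0 < Am by exact_mod_cast A0)
  have T0 : ∀ t ∈ S3, (0 : ℝ) < t.1 := fun t ht =>
    pos_of_mul_pos_right (A0.trans_le (s3 t ht).2) (by linarith)
  have hd' : (d : ℝ) ≤ z ^ s := le_trans (by exact_mod_cast hd) hs
  have hY : (2 * Y : ℝ) ≤ z ^ s := by nlinarith
  have hA : (Am : ℝ) ≤ z ^ s := by nlinarith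
  have hP : (2 * Py : ℝ) ≤ z ^ s := le_trans (by gcongr) hY
  have Wa := wa hz hA (fun t ht => ⟨by exact_mod_cast T0 t ht, (s3 t ht).1⟩) r3
  have Wb := wb hz hP l3 c2 s2
  have Wc := sum_le_card_nsmul S3 _ _ fun t _ => wc hz d0.ne' hd' l2 l3 c1 r2 t.1
  have NF : (#F : ℝ) ≤ #S3 * Px := by simpa using lay l4 (fun _ => 1) fun _ => zero_le_one
  set σ : ℝ := 2 ^ s with hσ
  have σ1 : 1 ≤ σ := one_le_pow₀ one_le_two
  have h4 : (4 : ℝ) ^ s = σ ^ 2 := by rw [hσ, ← pow_mul, mul_comm, pow_mul]; norm_num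
  set R : ℝ := C ^ 2 * Y / Am ^ 2 with hR
  have X1 : (Xi F d : ℝ) ≤ ∑ t ∈ S3, ∑ t' ∈ S3, 2 * R * (2 * σ *
      ((if t.2 = t'.2 then (t.1.gcd t'.1 : ℝ) else 0) + fb z t t') +
        (if (d : ℤ) ∣ 16 * ((t.1 : ℤ) - t'.1) then 1 else 0) + σ / z) := by
    refine le_trans (by exact_mod_cast xi_le (z := z) d l4 s4 r4) 
      (sum_le_sum fun t ht => sum_le_sum fun t' ht' =>
        nn3 hz d0.ne' hd' (c3 t ht) (c3 t' ht') (r3 t ht) ?_ ?_)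
    · refine le_trans ?_ y1
      rw [sq]
      gcongr
      · exact (s3 t ht).1
      · exact (s3 t' ht').1
    · have a := T0 t ht
      have a' := T0 t' ht'
      rw [hR, div_le_div_iff₀ (by positivity) (by positivity)]
      calc (Y : ℝ) * Am ^ 2 = Y * (Am * Am) := by ring
        _ ≤ Y * (C * t.1 * (C * t'.1)) := by
          gcongr
          · exact (s3 t ht).2
          · exact (s3 t' ht').2
        _ = _ := by ring
  simp only [← mul_sum, sum_add_distrib, sum_const, nsmul_eq_mul] at X1 Wc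
  set N : ℝ := (#S3 : ℝ) with hN
  have N0 : 0 ≤ N := by positivity
  set ζ : ℝ := Y / #F with hζ
  have ζ0 : 0 ≤ ζ := by positivity
  have b1 : (Am : ℝ) ≤ C * ζ * N := by
    rw [hζ, mul_div_assoc', div_mul_eq_mul_div, le_div_iff₀ F0]
    calc (Am : ℝ) * #F ≤ Am * (N * Px) := by gcongr
      _ = Px * Am * N := by ring
      _ ≤ _ := by gcongr
  have b2 : N * (σ * Am) ≤ σ * C * ζ * N ^ 2 := by
    calc _ ≤ N * (σ * (C * ζ * N)) := by gcongr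
      _ = _ := by ring
  have b3 : (#S2 : ℝ) ^ 2 * (σ * (9 * Py ^ 2 / z)) ≤ 9 * σ * lam ^ 2 * (1 / z) * N ^ 2 := by
    calc _ = 9 * σ * (1 / z) * (#S2 * Py) ^ 2 := by ring
      _ ≤ 9 * σ * (1 / z) * (lam * N) ^ 2 := by gcongr
      _ = _ := by ring
  have b4 : (#S2 : ℝ) * (16 * Py / d + 1) + #S1 * (σ * (Pz / z + 1)) * Py ≤
      (16 * lam * (1 / d) + (lam + 2 * σ * lam ^ 2) * (1 / z)) * N := by
    have a1 : 1 ≤ (Py : ℝ) / z := (one_le_div z0).2 zy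
    have a2 : 1 ≤ (Pz : ℝ) / z := (one_le_div z0).2 zz
    calc _ ≤ (#S2 : ℝ) * (16 * Py / d + Py / z) + #S1 * (σ * (Pz / z + Pz / z)) * Py := by gcongr
      _ = (16 * (1 / d) + 1 / z) * (#S2 * Py) + 2 * σ * (1 / z) * (#S1 * Pz) * Py := by ring
      _ ≤ (16 * (1 / d) + 1 / z) * (#S2 * Py) + 2 * σ * (1 / z) * (lam * #S2) * Py := by gcongr
      _ = (16 * (1 / d) + 1 / z + 2 * σ * lam * (1 / z)) * (#S2 * Py) := by ring
      _ ≤ (16 * (1 / d) + 1 / z + 2 * σ * lam * (1 / z)) * (lam * N) := by gcongr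
      _ = _ := by ring
  have b5 : R * N ^ 2 * Y ≤ C ^ 4 * lam ^ 2 * (#F : ℝ) ^ 2 := by
    rw [hR, div_mul_eq_mul_div, div_mul_eq_mul_div, div_le_iff₀ (by positivity)]
    calc _ = C ^ 2 * N ^ 2 * (Y : ℝ) ^ 2 := by ring
      _ ≤ C ^ 2 * N ^ 2 * (C * (Px * Am)) ^ 2 := by gcongr
      _ = C ^ 4 * (N * Px) ^ 2 * Am ^ 2 := by ring
      _ ≤ C ^ 4 * (lam * #F) ^ 2 * Am ^ 2 := by gcongr
      _ = _ := by ring
  set K : ℝ := σ ^ 2 * lam ^ 2 * C with hK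
  have k0 : ∀ i ≤ 2, ∀ j ≤ 2, ∀ k ≤ 1, σ ^ i * lam ^ j * C ^ k ≤ K := fun i hi j hj k hk => by
    refine le_trans (b := σ ^ 2 * lam ^ 2 * C ^ 1) (by gcongr) (by rw [pow_one])
  have k1 := k0 2 le_rfl 0 (by norm_num) 1 le_rfl
  have k2 := k0 2 le_rfl 2 le_rfl 0 (by norm_num)
  have k3 := k0 0 (by norm_num) 1 (by norm_num) 0 (by norm_num)
  have k4 := k0 1 (by norm_num) 2 le_rfl 0 (by norm_num)
  have k5 := k0 1 (by norm_num) 0 (by norm_num) 0 (by norm_num)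
  simp only [pow_zero, pow_one, mul_one, one_mul] at k1 k2 k3 k4 k5
  have X2 : (Xi F d : ℝ) ≤ 2 * R * ((2 * (σ ^ 2 * C) * ζ + 16 * lam * (1 / d) +
      (18 * (σ ^ 2 * lam ^ 2) + lam + 2 * (σ * lam ^ 2) + σ) * (1 / z)) * N ^ 2) := by
    refine X1.trans ?_
    calc _ ≤ 2 * R * (2 * σ * (σ * C * ζ * N ^ 2 + 9 * σ * lam ^ 2 * (1 / z) * N ^ 2) +
          N * ((16 * lam * (1 / d) + (lam + 2 * σ * lam ^ 2) * (1 / z)) * N) + N * (N * (σ / z))) := by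
          gcongr
          · exact Wa.trans b2
          · exact Wb.trans b3
          · exact Wc.trans (by gcongr)
      _ = _ := by ring
  have X3 : (Xi F d : ℝ) ≤ 2 * R * ((22 * K * ζ + 22 * K * (1 / d) + 22 * K * (1 / z)) * N ^ 2) := by
    refine X2.trans ?_
    gcongr <;> linarith
  calc _ ≤ 2 * R * ((22 * K * ζ + 22 * K * (1 / d) + 22 * K * (1 / z)) * N ^ 2) * Y := by gcongr
    _ = 44 * K * (1 / d + 1 / z + ζ) * (R * N ^ 2 * Y) := by ring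
    _ ≤ 44 * K * (1 / d + 1 / z + ζ) * (C ^ 4 * lam ^ 2 * (#F : ℝ) ^ 2) := by gcongr
    _ = _ := by rw [hK, h4]; ring

end Pool.Agent.H84D
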