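import Pool.Agent.H84D.FamT
import Pool.Agent.H84D.FamI
import Pool.Agent.H84D.Rgh
import Pool.Agent.H84D.Xi

set_option autoImplicit false

/-! The family of pairs. -/

namespace Pool.Agent.H84D

open Finset Filter Pool.Agent.MP_a96b63_al

lemma famF_exp4 : Real.exp 4 ≤ 55 := by
  have h : Real.exp 4 = Real.exp 1 ^ 4 := by rw [← Real.exp_nat_mul]; norm_num
  have h1 := Real.exp_one_lt_d9
  rw [h]
  exact le_trans (pow_le_pow_left₀ (Real.exp_pos 1).le h1.le 4) (by norm_num)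

lemma famF_rg : ∃ κ P₀ : ℝ, 0 < κ ∧ ∀ P : ℝ, P₀ ≤ P → ∀ (z : ℝ) (n : ℕ), z ≤ P ^ (1 / 5000 : ℝ) →
    (n : ℝ) ≤ κ * P / Real.log P ^ 2 → RG ⌊P / Real.exp 4⌋₊ ⌊P⌋₊ z n := by
  classical
  obtain ⟨κ, hκ, h⟩ := rgh_lower
  obtain ⟨P₀, h⟩ := eventually_atTop.mp h
  refine ⟨κ, max P₀ 0, hκ, fun P hP z n hz hn c hc Z hZ => ?_⟩
  have hP0 : 0 ≤ P := le_of_max_le_right hP
  have h1 : ∀ π, ∃ r₀, ∀ r ∈ Z π, r = r₀ := by
    intro π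
    rcases (Z π).eq_empty_or_nonempty with h0 | ⟨r₀, h0⟩
    · exact ⟨0, by simp [h0]⟩
    · exact ⟨r₀, fun r hr => card_le_one.mp (hZ π).1 r hr r₀ h0⟩
  choose Z' hZ' using h1
  obtain ⟨c', c1, c2⟩ : ∃ c' : ℕ, (c' = 1 ∨ c' = 5) ∧ c' % 3 = c := by
    rcases hc with rfl | rfl
    · exact ⟨1, Or.inl rfl, rfl⟩
    · exact ⟨5, Or.inr rfl, rfl⟩
  refine ⟨RGS P c' Z', by exact_mod_cast hn.trans (h P (le_of_max_le_left hP) c' c1 Z'),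
    fun p hp => ?_⟩
  rw [RGS, mem_filter, MP_48b1c3_nt.H54.mem_PI] at hp
  obtain ⟨⟨a1, a2, a3⟩, a4, a5⟩ := hp
  exact ⟨a3, (Nat.floor_lt (by positivity)).mpr a1, Nat.le_floor a2, by omega,
    fun π b1 b2 b3 r hr => hZ' π r hr ▸ a5 π b1 b2 (b3.trans hz)⟩

lemma famF_num {κ L P : ℝ} {m Y : ℕ} (h1 : 1 ≤ L) (hL : L ^ 2 ≤ P) (hP : 1 < P)
    (hlog : 4 * Real.log P ^ 2 ≤ κ * L) (hm : (m : ℝ) ≤ L) (hY : L ^ 2 ≤ Y) :
    ((⌈P / L⌉₊ + m * (⌊P⌋₊ / Y + 1) : ℕ) : ℝ) ≤ κ * P / Real.log P ^ 2 := by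
  have h0 : 0 < L := by linarith
  have hP0 : 0 < P := by linarith
  have hl := Real.log_pos hP
  have a1 := (Nat.ceil_lt_add_one (show 0 ≤ P / L by positivity)).le
  have a2 : ((⌊P⌋₊ / Y : ℕ) : ℝ) ≤ P / L ^ 2 :=
    Nat.cast_div_le.trans (div_le_div₀ hP0.le (Nat.floor_le hP0.le) (by positivity) hY)
  have a3 : L ≤ P / L := by rw [le_div_iff₀ h0]; linarith
  have a4 : (m : ℝ) * (((⌊P⌋₊ / Y : ℕ) : ℝ) + 1) ≤ L * (P / L ^ 2 + 1) := by gcongr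
  have a5 : L * (P / L ^ 2 + 1) = P / L + L := by field_simp
  have a6 : 4 * (P / L) ≤ κ * P / Real.log P ^ 2 := by
    rw [← mul_div_assoc, div_le_div_iff₀ h0 (by positivity)]
    nlinarith
  rw [Nat.cast_add, Nat.cast_mul, Nat.cast_add, Nat.cast_one]
  linarith

lemma famF_fl {P : ℝ} (hP : 110 ≤ P) : 2 ≤ ⌊P / Real.exp 4⌋₊ ∧ ⌊P / Real.exp 4⌋₊ ≤ ⌊P⌋₊ ∧
    ⌊P⌋₊ + 4 ≤ 110 * (⌊P / Real.exp 4⌋₊ + 1) ∧ ((⌊P⌋₊ + 4 : ℕ) : ℝ) ≤ 2 * P ∧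
    P ≤ (⌊P⌋₊ + 4 : ℕ) := by
  have h0 := Real.exp_pos 4
  have h1 : P / 55 ≤ P / Real.exp 4 := div_le_div_of_nonneg_left (by linarith) h0 famF_exp4
  have h2 := Nat.floor_le (show 0 ≤ P by linarith)
  have h3 := Nat.lt_floor_add_one (P / Real.exp 4)
  have h4 := Nat.lt_floor_add_one P
  refine ⟨Nat.le_floor (by push_cast; linarith), Nat.floor_mono
    (div_le_self (by linarith) (Real.one_le_exp (by norm_num))), ?_, by push_cast; linarith,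
    by push_cast; linarith⟩
  have : (⌊P⌋₊ : ℝ) + 4 ≤ 110 * (⌊P / Real.exp 4⌋₊ + 1) := by linarith
  exact_mod_cast this

lemma famF_size {L L' : Finset (List ℕ)} {l h A K : ℕ}
    (hst : ∀ u ∈ L', ∃ p, ∃ v ∈ L, u = p :: v ∧ l < p ∧ p ≤ h) (hK : h + 4 ≤ 110 * (l + 1))
    (hA : ∀ v ∈ L, la v ≤ A ∧ A ≤ K * la v) :
    ∀ u ∈ L', la u ≤ A * (h + 4) ∧ A * (h + 4) ≤ 110 * K * la u := by
  intro u hu
  obtain ⟨p, v, hv, rfl, h1, h2⟩ := hst u hu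
  refine ⟨(la_cons_le p v).trans ?_, ?_⟩
  · rw [mul_comm]
    exact Nat.mul_le_mul (hA v hv).1 (by omega)
  · calc _ ≤ K * la v * (110 * p) := Nat.mul_le_mul (hA v hv).2 (by omega)
      _ = 110 * K * (p * la v) := by ring
      _ ≤ _ := Nat.mul_le_mul_left _ (le_la_cons p v)

lemma famF_img {L L' : Finset (List ℕ)} {l h : ℕ}
    (hst : ∀ u ∈ L', ∃ p, ∃ v ∈ L, u = p :: v ∧ l < p ∧ p ≤ h) :
    ∀ t ∈ L'.image st, ∃ u ∈ L.image st, ∃ p, 1 ≤ p ∧ p ≤ h ∧ t = XiB.stp p u := by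
  intro t ht
  obtain ⟨u, hu, rfl⟩ := mem_image.mp ht
  obtain ⟨p, v, hv, rfl, h1, h2⟩ := hst u hu
  exact ⟨st v, mem_image_of_mem _ hv, p, by omega, h2, rfl⟩

lemma famF_card {L : Finset (List ℕ)} (h : ∀ u ∈ L, Clean u) : #(L.image st) = #L :=
  card_image_of_injOn fun u hu v hv e =>
    eq_of_st (h u hu).adm (h v hv).adm (congrArg Prod.fst e) (congrArg Prod.snd e)

lemma famF_all {L : Finset (List ℕ)} {p : ℕ × ℕ → Prop} (h : ∀ u ∈ L, p (la u, lb u)) :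
    ∀ t ∈ L.image st, p t := by
  intro t ht
  obtain ⟨u, hu, rfl⟩ := mem_image.mp ht
  exact h u hu

lemma famF_om {z : ℝ} (hz : 1 < z) {a s : ℕ} (ha : a ≠ 0) (h : ∀ p : ℕ, p.Prime → p ∣ a → z < p)
    (hs : (a : ℝ) ≤ z ^ s) : ArithmeticFunction.cardFactors a ≤ s := by
  have key : ∀ l : List ℕ, (∀ p ∈ l, z ≤ p) → z ^ l.length ≤ (l.prod : ℕ) := by
    intro l hl
    induction l with
    | nil => simp
    | cons p l ih =>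
      rw [List.length_cons, List.prod_cons, pow_succ', Nat.cast_mul]
      exact mul_le_mul (hl p List.mem_cons_self) (ih fun q hq => hl q (List.mem_cons_of_mem _ hq))
        (by positivity) (by positivity)
  have h1 := key a.primeFactorsList fun p hp =>
    (h p (Nat.prime_of_mem_primeFactorsList hp) (Nat.dvd_of_mem_primeFactorsList hp)).le
  rw [Nat.prod_primeFactorsList ha] at h1
  rw [ArithmeticFunction.cardFactors_apply]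
  exact (pow_le_pow_iff_right₀ hz).mp (h1.trans hs)

lemma famF_gap {U : ℝ} (hU : 110 ≤ U) {i j : ℕ} (h : i < j) : ⌊U ^ i⌋₊ ≤ ⌊U ^ j / Real.exp 4⌋₊ := by
  refine Nat.floor_mono ?_
  rw [le_div_iff₀ (Real.exp_pos 4)]
  have h1 : (0 : ℝ) < U ^ i := by positivity
  calc _ ≤ U ^ i * U := mul_le_mul_of_nonneg_left (famF_exp4.trans (by linarith)) h1.le
    _ = U ^ (i + 1) := (pow_succ _ _).symm
    _ ≤ _ := pow_le_pow_right₀ (by linarith) h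

lemma famF_core {κ P₀ L z U : ℝ} {a₀ s Y M Y₀ : ℕ} (ha : a₀ = 1 ∨ a₀ = 2)
    (hR : ∀ P : ℝ, P₀ ≤ P → ∀ (z : ℝ) (n : ℕ), z ≤ P ^ (1 / 5000 : ℝ) →
      (n : ℝ) ≤ κ * P / Real.log P ^ 2 → RG ⌊P / Real.exp 4⌋₊ ⌊P⌋₊ z n)
    (hU : 65536 ≤ U) (hP₀ : P₀ ≤ U) (hz : 2 ≤ z) (hzU : 110 * z ≤ U) (hz1 : z ≤ U ^ (1 / 5000 : ℝ))
    (hs : U ^ 61 ≤ z ^ s) (h1 : 1 ≤ L) (hL : L ^ 2 ≤ U) (hlog : 4 * (17 * Real.log U) ^ 2 ≤ κ * L)
    (hY : L ^ 5 ≤ Y) (hYz : (Y : ℝ) ≤ z) (hM : (M : ℝ) + 4 ≤ L) (hY₀ : 0 < Y₀) (hY₀z : (Y₀ : ℝ) ≤ z)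
    (S : Finset (List ℕ)) (hS : ∀ v ∈ S, Clean v ∧ v.length ≤ M ∧ (∀ y ∈ v, Y ≤ y ∧ (y : ℝ) ≤ z) ∧
      Y₀ ≤ la v ∧ la v ≤ 2 * Y₀) :
    ∃ (F : Finset (ℕ × ℕ)) (Y2 : ℕ),
      (∀ t ∈ F, t.1.Coprime (2 * t.2)) ∧
      (∀ t ∈ F, 0 < t.2 ∧ t.2 ≤ t.1 ∧ t.1 ≤ Y2 ∧ Y2 ≤ 292820000 * t.1) ∧
      (∀ t ∈ F, t.1 % 3 = a₀) ∧
      (∀ t ∈ F, ∀ p : ℕ, p.Prime → p ∣ t.1 → z < p) ∧
      (∀ t ∈ F, ∀ p : ℕ, p.Prime → p ∣ t.2 → p = 2 ∨ z < p) ∧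
      (∀ t ∈ F, ArithmeticFunction.cardFactors t.1 ≤ s) ∧
      0 < Y2 ∧ (Y2 : ℝ) ≤ U ^ 31 ∧ (Y2 : ℝ) * #S ≤ 32 * L ^ 4 * Y₀ * #F ∧
      (∀ d : ℕ, 0 < d → d ≤ 64 * Y2 ^ 2 → (Xi F d : ℝ) * Y2 ≤
        44 * 292820000 ^ 5 * L ^ 4 * 4 ^ s * (1 / d + 1 / z + Y2 / #F) * (#F : ℝ) ^ 2) ∧
      ∀ t ∈ F, ∃ u : List ℕ, Clean u ∧ st u = t ∧ (u.length : ℝ) ≤ L ∧
        ∀ y ∈ u, L ^ 5 ≤ y ∧ (y : ℝ) ≤ U ^ 17 := by
  have hU1 : 1 ≤ U := by linarith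
  have hU0 : 0 < U := by linarith
  have hL0 : 0 < L := by linarith
  have hle : ∀ i : ℕ, 1 ≤ i → U ≤ U ^ i := fun i hi => le_self_pow₀ hU1 (by omega)
  have rg : ∀ i : ℕ, 1 ≤ i → i ≤ 17 → RG ⌊U ^ i / Real.exp 4⌋₊ ⌊U ^ i⌋₊ z
      (⌈U ^ i / L⌉₊ + (M + 3) * (⌊U ^ i⌋₊ / Y + 1)) := by
    intro i hi hi'
    have a1 := hle i hi
    refine hR _ (hP₀.trans a1) _ _ (hz1.trans (Real.rpow_le_rpow hU0.le a1 (by norm_num)))
      (famF_num h1 (hL.trans a1) (by linarith) (le_trans ?_ hlog) (by push_cast; linarith)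
        ((pow_le_pow_right₀ h1 (by norm_num)).trans hY))
    have a2 := Real.log_nonneg hU1
    have a3 : (i : ℝ) ≤ 17 := by exact_mod_cast hi'
    rw [Real.log_pow]
    gcongr
  have fl := fun (i : ℕ) (hi : 1 ≤ i) => famF_fl (P := U ^ i) (by linarith [hle i hi])
  have nn : ∀ i : ℕ, U ^ i ≤ L * ⌈U ^ i / L⌉₊ := fun i => by
    rw [← div_le_iff₀' hL0]; exact Nat.le_ceil _
  have zl : z ≤ ⌊U ^ 1 / Real.exp 4⌋₊ := by
    have a1 : U / 55 ≤ U / Real.exp 4 :=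
      div_le_div_of_nonneg_left hU0.le (Real.exp_pos 4) famF_exp4
    have a2 := Nat.lt_floor_add_one (U / Real.exp 4)
    rw [pow_one]; linarith
  have hY0 : 0 < Y := by exact_mod_cast (pow_pos hL0 5).trans_le hY
  obtain ⟨f1, f2, f3, f4, f5⟩ := fl 1 le_rfl
  obtain ⟨-, g2, g3, g4, g5⟩ := fl 3 (by norm_num)
  obtain ⟨-, k2, k3, k4, k5⟩ := fl 8 (by norm_num)
  obtain ⟨j1, j2, j3, j4, j5⟩ := fl 17 (by norm_num)
  have hU' : 110 ≤ U := by linarith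
  have q1 := famF_gap hU' (show 1 < 3 by norm_num)
  have q2 := famF_gap hU' (show 3 < 8 by norm_num)
  have q3 := famF_gap hU' (show 8 < 17 by norm_num)
  obtain ⟨L₁, L₂, L₃, L₄, c1, c2, c3, c4, s1, s2, s3, s4, r1, r2, r3, r4, r5⟩ :=
    fam_tower ha hY0 f1 zl (by exact_mod_cast hYz.trans zl) f2 q1 g2 q2 k2 q3 j2
      (rg 1 le_rfl (by norm_num)) (rg 3 (by norm_num) (by norm_num))
      (rg 8 (by norm_num) (by norm_num)) (rg 17 (by norm_num) le_rfl) S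
      fun v hv => ⟨(hS v hv).1, (hS v hv).2.1, fun y hy => ⟨((hS v hv).2.2.1 y hy).1,
        by exact_mod_cast ((hS v hv).2.2.1 y hy).2.trans zl⟩⟩
  have n1 := nn 1
  have n2 := nn 3
  have n3 := nn 8
  have n4 := nn 17
  have u2 := Nat.floor_le (show 0 ≤ U ^ 3 by positivity)
  have u3 := Nat.floor_le (show 0 ≤ U ^ 8 by positivity)
  have u4 := Nat.floor_le (show 0 ≤ U ^ 17 by positivity)
  have w3 : ∀ a : ℕ, (a : ℝ) ≤ U ^ 8 → a ≤ ⌊U ^ 8⌋₊ := fun a h => Nat.le_floor h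
  have z1 := famF_size (A := 2 * Y₀) (K := 2) s1 f3 fun v hv =>
    ⟨(hS v hv).2.2.2.2, by have := (hS v hv).2.2.2.1; omega⟩
  have z2 := famF_size s2 g3 z1
  have z3 := famF_size s3 k3 z2
  have z4 := famF_size s4 j3 z3
  generalize ⌈U ^ 1 / L⌉₊ = m₁ at *
  generalize ⌈U ^ 3 / L⌉₊ = m₂ at *
  generalize ⌈U ^ 8 / L⌉₊ = m₃ at *
  generalize ⌈U ^ 17 / L⌉₊ = m₄ at *
  generalize ⌊U ^ 1 / Real.exp 4⌋₊ = l₁ at *
  generalize ⌊U ^ 3 / Real.exp 4⌋₊ = l₂ at *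
  generalize ⌊U ^ 8 / Real.exp 4⌋₊ = l₃ at *
  generalize ⌊U ^ 17 / Real.exp 4⌋₊ = l₄ at *
  generalize ⌊U ^ 1⌋₊ = p₁ at *
  generalize ⌊U ^ 3⌋₊ = p₂ at *
  generalize ⌊U ^ 8⌋₊ = p₃ at *
  generalize ⌊U ^ 17⌋₊ = p₄ at *
  obtain ⟨A₂, hA₂⟩ : ∃ A₂, A₂ = 2 * Y₀ * (p₁ + 4) * (p₂ + 4) := ⟨_, rfl⟩
  rw [← hA₂] at z2 z3 z4
  obtain ⟨A₃, hA₃⟩ : ∃ A₃, A₃ = A₂ * (p₃ + 4) := ⟨_, rfl⟩
  rw [← hA₃] at z3 z4
  obtain ⟨A₄, hA₄⟩ : ∃ A₄, A₄ = A₃ * (p₄ + 4) := ⟨_, rfl⟩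
  rw [← hA₄] at z4
  have hzU' : z ≤ U := by linarith
  have hY₀U : (Y₀ : ℝ) ≤ U := hY₀z.trans hzU'
  have b2 : (A₂ : ℝ) ≤ 8 * Y₀ * U ^ 4 := by
    rw [hA₂, Nat.cast_mul, Nat.cast_mul, Nat.cast_mul]
    calc _ ≤ ((2 : ℕ) : ℝ) * Y₀ * (2 * U ^ 1) * (2 * U ^ 3) := by gcongr
      _ = _ := by push_cast; ring
  have b3 : (A₃ : ℝ) ≤ 16 * Y₀ * U ^ 12 := by
    rw [hA₃, Nat.cast_mul]
    calc _ ≤ 8 * Y₀ * U ^ 4 * (2 * U ^ 8) := by gcongr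
      _ = _ := by ring
  have b4 : (A₄ : ℝ) ≤ 32 * Y₀ * U ^ 29 := by
    rw [hA₄, Nat.cast_mul]
    calc _ ≤ 16 * Y₀ * U ^ 12 * (2 * U ^ 17) := by gcongr
      _ = _ := by ring
  have b5 : (A₄ : ℝ) ≤ 32 * U ^ 30 := by
    calc _ ≤ 32 * U * U ^ 29 := b4.trans (by gcongr)
      _ = _ := by ring
  have b6 : 64 * (A₄ : ℝ) ^ 2 ≤ z ^ s := by
    calc _ ≤ 64 * (32 * U ^ 30) ^ 2 := by gcongr
      _ = 65536 * U ^ 60 := by ring
      _ ≤ U * U ^ 60 := by gcongr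
      _ = U ^ 61 := by ring
      _ ≤ _ := hs
  have A2p : 0 < A₂ := by rw [hA₂]; positivity
  have A3p : 0 < A₃ := by rw [hA₃]; positivity
  have A4p : 0 < A₄ := by rw [hA₄]; positivity
  have e1 := famF_card r1
  have e2 := famF_card fun u hu => (r2 u hu).1
  have e3 := famF_card fun u hu => (r3 u hu).1
  have e4 := famF_card fun u hu => (r4 u hu).1
  have cn : ∀ {a b m p : ℕ} {P : ℝ}, b = m * a → (p : ℝ) ≤ P → P ≤ L * m → (a : ℝ) * p ≤ L * b := by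
    intro a b m p P h h2 h3
    rw [h, Nat.cast_mul, ← mul_assoc, mul_comm]
    exact mul_le_mul_of_nonneg_right (h2.trans h3) (by positivity)
  have pz : ∀ p : ℕ, l₁ ≤ p → z ≤ p := fun p h => zl.trans (by exact_mod_cast h)
  refine ⟨L₄.image st, A₄, famF_all fun u hu => coprime_la (r4 u hu).1.adm,
    famF_all fun u hu => ⟨lb_pos u, lb_le u, z4 u hu⟩, famF_all fun u hu => (r5 u hu).1,
    famF_all fun u hu => (r4 u hu).2, famF_all fun u hu p hp hd => ?_,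
    famF_all fun u hu => famF_om (by linarith) (la_pos u).ne' (r4 u hu).2 ?_, A4p, ?_, ?_,
    fun d d0 hd => ?_, fun t ht => ?_⟩
  · obtain ⟨x, v, hv, rfl, -⟩ := s4 u hu
    rcases (Nat.Prime.dvd_mul hp).mp hd with h | h
    · exact Or.inl ((Nat.prime_dvd_prime_iff_eq hp Nat.prime_two).mp h)
    · exact Or.inr ((r3 v hv).2 p hp h)
  · have a1 : (la u : ℝ) ≤ A₄ := by exact_mod_cast (z4 u hu).1
    have a2 : (1 : ℝ) ≤ A₄ := by exact_mod_cast A4p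
    have a3 : (A₄ : ℝ) ≤ A₄ ^ 2 := le_self_pow₀ a2 two_ne_zero
    exact a1.trans (le_trans (by linarith) b6)
  · calc _ ≤ U * U ^ 30 := b5.trans (by gcongr; linarith)
      _ = _ := by ring
  · rw [e4, c4, c3, c2, c1]
    calc _ ≤ 32 * Y₀ * U ^ 29 * #S := by gcongr
      _ = 32 * Y₀ * (U ^ 1 * U ^ 3 * U ^ 8 * U ^ 17) * #S := by ring
      _ ≤ 32 * Y₀ * (L * m₁ * (L * m₂) * (L * m₃) * (L * m₄)) * #S := by gcongr
      _ = _ := by push_cast; ring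
  · refine xi_bound (L₁.image st) (L₂.image st) (L₃.image st) _ p₂ p₃ p₄ A₃ A₄ s z 292820000 L
      (famF_img s2) (famF_img s3) (famF_img s4) (famF_all fun u hu => coprime_la (r1 u hu).adm)
      (famF_all fun u hu => coprime_la (r2 u hu).1.adm)
      (famF_all fun u hu => coprime_la (r3 u hu).1.adm)
      (famF_all fun u hu p hp h => ((r2 u hu).2 p hp h).le)
      (famF_all fun u hu p hp h => ((r3 u hu).2 p hp h).le)
      (famF_all fun u hu p hp h => ((r4 u hu).2 p hp h).le) hz (by norm_num) h1 b6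
      (pz _ (by omega)) (pz _ (by omega)) ?_ (famF_all fun u hu => (z2 u hu).1.trans (w3 _ ?_))
      (famF_all fun u hu => ⟨(z3 u hu).1, ?_⟩) (famF_all fun u hu => (z4 u hu).1) ?_ ?_ ?_
      (by rw [e1, e2]; exact cn c2 u2 n2) (by rw [e2, e3]; exact cn c3 u3 n3)
      (by rw [e3, e4]; exact cn c4 u4 n4) d d0 hd
    · have a1 : p₃ + 4 ≤ A₃ := hA₃ ▸ Nat.le_mul_of_pos_left _ A2p
      have a2 : A₃ ≤ A₄ := hA₄ ▸ Nat.le_mul_of_pos_right _ (by omega)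
      omega
    · calc _ ≤ U * U * U ^ 4 := b2.trans (by gcongr; linarith)
        _ = U ^ 6 := by ring
        _ ≤ _ := pow_le_pow_right₀ hU1 (by norm_num)
    · have : A₃ ≤ 292820000 * la u := by have := (z3 u hu).2; omega
      exact_mod_cast this
    · have a1 : (A₃ : ℝ) * z ≤ U ^ 17 := by
        calc _ ≤ U * U * U ^ 12 * U := by
              gcongr
              exact b3.trans (by gcongr; linarith)
          _ = U ^ 15 := by ring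
          _ ≤ _ := pow_le_pow_right₀ hU1 (by norm_num)
      rw [hA₄, Nat.cast_mul, sq, mul_assoc]
      exact mul_le_mul_of_nonneg_left (a1.trans j5) (by positivity)
    · have : A₄ ≤ 292820000 * (p₄ * A₃) := by
        rw [hA₄, mul_comm, ← mul_assoc]
        exact Nat.mul_le_mul_right _ (by omega)
      exact_mod_cast this
    · have a1 : p₄ * A₃ ≤ A₄ := by
        rw [hA₄, mul_comm]
        exact Nat.mul_le_mul_left _ (by omega)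
      have : p₄ * A₃ ≤ 292820000 * A₄ := by omega
      exact_mod_cast this
  · obtain ⟨u, hu, rfl⟩ := mem_image.mp ht
    obtain ⟨-, a1, a2⟩ := r5 u hu
    exact ⟨u, (r4 u hu).1, rfl, le_trans (by exact_mod_cast a1) hM, fun y hy =>
      ⟨hY.trans (by exact_mod_cast (a2 y hy).1), le_trans (by exact_mod_cast (a2 y hy).2) u4⟩⟩

theorem fam_F : ∃ c : ℕ, 1 ≤ c ∧ ∀ a₀ : ℕ, a₀ = 1 ∨ a₀ = 2 → ∀ᶠ X : ℕ in atTop,
    ∃ (F : Finset (ℕ × ℕ)) (Y2 : ℕ),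
      (∀ z ∈ F, z.1.Coprime (2 * z.2)) ∧
      (∀ z ∈ F, 0 < z.2 ∧ z.2 ≤ z.1 ∧ z.1 ≤ Y2 ∧ Y2 ≤ c * z.1) ∧
      (∀ z ∈ F, z.1 % 3 = a₀) ∧
      (∀ z ∈ F, ∀ p : ℕ, p.Prime → p ∣ z.1 → EE X (11 / 100) < p) ∧
      (∀ z ∈ F, ∀ p : ℕ, p.Prime → p ∣ z.2 → p = 2 ∨ EE X (11 / 100) < p) ∧
      (∀ z ∈ F, ArithmeticFunction.cardFactors z.1 ≤ c) ∧
      0 < Y2 ∧ (Y2 : ℝ) ≤ EE X (1 / 8) ∧
      (Y2 : ℝ) * Real.exp (LL X ^ (1 / 10 : ℝ) / 10) ≤ #F ∧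
      (∀ d : ℕ, 0 < d → d ≤ 64 * Y2 ^ 2 →
        (Xi F d : ℝ) * Y2 ≤ LL X ^ c * (1 / d + 1 / EE X (9 / 100)) * (#F : ℝ) ^ 2) ∧
      ∀ z ∈ F, ∃ u : List ℕ, Clean u ∧ st u = z ∧ (u.length : ℝ) ≤ LL X ∧
        ∀ y ∈ u, LL X ^ 5 ≤ y ∧ (y : ℝ) ≤ EE X (1 / 8) := by
  obtain ⟨κ, P₀, hκ, hR⟩ := famF_rg
  obtain ⟨s, hs⟩ : ∃ s : ℕ, s = 5000 * 61 := ⟨_, rfl⟩
  refine ⟨292820000, by norm_num, fun a₀ ha => ?_⟩
  have hev : ∀ᶠ L : ℝ in atTop, 1 ≤ L ∧ max 65536 P₀ ≤ L ∧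
      88 * 292820000 ^ 5 * 4 ^ s ≤ L ∧
      5000 * L ^ (11 / 100 : ℝ) ≤ L ^ (3 / 25 : ℝ) ∧ 220 ≤ L ^ (3 / 25 : ℝ) ∧
      1 * L ^ (2 : ℝ) ≤ Real.exp (1 * L ^ (3 / 25 : ℝ)) ∧
      1156 / κ * L ^ (6 / 25 : ℝ) ≤ L ^ (1 : ℝ) ∧ 5 * L ^ (11 / 100 : ℝ) ≤ L ^ (1 : ℝ) ∧
      31 * L ^ (3 / 25 : ℝ) ≤ L ^ (1 / 8 : ℝ) ∧ 10 * L ^ (9 / 100 : ℝ) ≤ L ^ (1 / 10 : ℝ) ∧
      32 * L ^ (5 : ℝ) ≤ Real.exp (2 / 5 * L ^ (1 / 10 : ℝ)) := by
    filter_upwards [eventually_ge_atTop (1 : ℝ), eventually_ge_atTop (max 65536 P₀),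
      eventually_ge_atTop (88 * 292820000 ^ 5 * 4 ^ s : ℝ),
      par_rpow 5000 (show (11 / 100 : ℝ) < 3 / 25 by norm_num),
      par_const_rpow 220 (show (0 : ℝ) < 3 / 25 by norm_num),
      par_rpow_exp 1 2 (show (0 : ℝ) < 3 / 25 by norm_num) one_pos,
      par_rpow (1156 / κ) (show (6 / 25 : ℝ) < 1 by norm_num),
      par_rpow 5 (show (11 / 100 : ℝ) < 1 by norm_num),
      par_rpow 31 (show (3 / 25 : ℝ) < 1 / 8 by norm_num),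
      par_rpow 10 (show (9 / 100 : ℝ) < 1 / 10 by norm_num),
      par_rpow_exp 32 5 (show (0 : ℝ) < 1 / 10 by norm_num) (show (0 : ℝ) < 2 / 5 by norm_num)]
      with L h1 h2 h3 h4 h5 h6 h7 h8 h9 h10 h11
    exact ⟨h1, h2, h3, h4, h5, h6, h7, h8, h9, h10, h11⟩
  filter_upwards [par_nat hev, par_nat fam_inn] with X hX hI
  unfold EE LL
  generalize Real.log X = L at *
  obtain ⟨h1, h2, h3, h4, h5, h6, h7, h8, h9, h10, h11⟩ := hX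
  obtain ⟨Y, M, Y₀, S, i1, i2, i3, i4, i5, i6, i7⟩ := hI
  have hL0 : 0 < L := by linarith
  have t2 : L ^ (6 / 25 : ℝ) = (L ^ (3 / 25 : ℝ)) ^ 2 := by
    rw [← Real.rpow_natCast, ← Real.rpow_mul hL0.le]; norm_num
  have t3 : 1 ≤ L ^ (11 / 100 : ℝ) := Real.one_le_rpow h1 (by norm_num)
  have t4 : L ^ (9 / 100 : ℝ) ≤ L ^ (11 / 100 : ℝ) :=
    Real.rpow_le_rpow_of_exponent_le h1 (by norm_num)
  rw [Real.rpow_one] at h7 h8
  rw [one_mul, one_mul, Real.rpow_two] at h6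
  rw [show (5 : ℝ) = (5 : ℕ) by norm_num, Real.rpow_natCast, Nat.cast_ofNat] at h11
  rw [t2, div_mul_eq_mul_div, div_le_iff₀' hκ] at h7
  generalize L ^ (3 / 25 : ℝ) = t at *
  generalize L ^ (11 / 100 : ℝ) = e at *
  generalize L ^ (1 / 8 : ℝ) = w at *
  generalize L ^ (9 / 100 : ℝ) = g at *
  generalize L ^ (1 / 10 : ℝ) = v at *
  have ez : Real.exp e ≤ Real.exp (t / 5000) := Real.exp_le_exp.mpr (by linarith)
  have hLU : L ≤ Real.exp t := le_trans (le_self_pow₀ h1 two_ne_zero) h6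
  have pw : ∀ n : ℕ, n ≤ 31 → Real.exp t ^ n ≤ Real.exp w := fun n hn => by
    have : (n : ℝ) ≤ 31 := by exact_mod_cast hn
    rw [← Real.exp_nat_mul]
    exact Real.exp_le_exp.mpr (le_trans (mul_le_mul_of_nonneg_right this (by linarith)) h9)
  obtain ⟨F, Y2, f1, f2, f3, f4, f5, f6, f7, f8, f9, f10, f11⟩ := famF_core (z := Real.exp (t / 5000))
    (U := Real.exp t) (s := s) ha hR ((le_max_left _ _).trans (h2.trans hLU))
    ((le_max_right _ _).trans (h2.trans hLU))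
    (le_trans (by linarith [Real.add_one_le_exp e]) ez)
    (by
      have a1 : Real.exp t = Real.exp (t / 2) * Real.exp (t / 2) := by
        rw [← Real.exp_add]; congr 1; ring
      rw [a1]
      exact mul_le_mul (by linarith [Real.add_one_le_exp (t / 2)])
        (Real.exp_le_exp.mpr (by linarith)) (Real.exp_pos _).le (Real.exp_pos _).le)
    (by rw [← Real.exp_mul]; exact Real.exp_le_exp.mpr (by linarith))
    (by
      rw [← Real.exp_nat_mul, ← Real.exp_nat_mul, hs]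
      exact Real.exp_le_exp.mpr (by push_cast; linarith))
    h1 h6 (by rw [Real.log_exp]; linarith) i1 (i2.trans ez) (by linarith) i4 (i5.trans ez) S
    fun u hu => ⟨(i7 u hu).1, (i7 u hu).2.1, fun y hy => ⟨((i7 u hu).2.2.1 y hy).1,
      ((i7 u hu).2.2.1 y hy).2.trans ez⟩, (i7 u hu).2.2.2⟩
  have many : (Y2 : ℝ) * Real.exp (v / 10) ≤ #F := by
    have y0 : (0 : ℝ) < Y₀ := by exact_mod_cast i4
    have a1 : Real.exp (v / 2) = Real.exp (v / 10) * Real.exp (2 / 5 * v) := by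
      rw [← Real.exp_add]; congr 1; ring
    refine le_of_mul_le_mul_right ?_ (mul_pos y0 (Real.exp_pos (2 / 5 * v)))
    calc _ = Y2 * (Y₀ * Real.exp (v / 2)) := by rw [a1]; ring
      _ ≤ Y2 * (L * #S) := by gcongr
      _ = L * (Y2 * #S) := by ring
      _ ≤ L * (32 * L ^ 4 * Y₀ * #F) := by gcongr
      _ = #F * (Y₀ * (32 * L ^ 5)) := by ring
      _ ≤ _ := by gcongr
  refine ⟨F, Y2, f1, f2, f3, fun z hz p hp hd => ez.trans_lt (f4 z hz p hp hd),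
    fun z hz p hp hd => (f5 z hz p hp hd).imp id ez.trans_lt,
    fun z hz => (f6 z hz).trans (by omega), f7, f8.trans (pw 31 le_rfl), many,
    fun d d0 hd => (f10 d d0 hd).trans ?_, fun z hz => ?_⟩
  · have y0 : (0 : ℝ) < Y2 := by exact_mod_cast f7
    have y1 : (0 : ℝ) < #F := lt_of_lt_of_le (by positivity) many
    have a1 : 1 / Real.exp (t / 5000) ≤ 1 / Real.exp g :=
      one_div_le_one_div_of_le (Real.exp_pos _) ((Real.exp_le_exp.mpr t4).trans ez)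
    have a2 : (Y2 : ℝ) / #F ≤ 1 / Real.exp g := by
      rw [div_le_div_iff₀ y1 (Real.exp_pos _), one_mul]
      exact le_trans (by gcongr; linarith) many
    have a3 : (0 : ℝ) < 1 / d := by positivity
    have a4 : L ^ 5 ≤ L ^ 292820000 := pow_le_pow_right₀ h1 (by norm_num)
    generalize L ^ 292820000 = R at *
    generalize (4 : ℝ) ^ s = q at *
    refine mul_le_mul_of_nonneg_right ?_ (by positivity)
    have a5 : 44 * 292820000 ^ 5 * L ^ 4 * q * 2 ≤ R := by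
      calc _ = 88 * 292820000 ^ 5 * q * L ^ 4 := by ring
        _ ≤ L * L ^ 4 := by gcongr
        _ = L ^ 5 := by ring
        _ ≤ _ := a4
    have a6 : 0 < 1 / Real.exp g := by positivity
    calc _ ≤ R / 2 * (2 * (1 / d + 1 / Real.exp g)) :=
          mul_le_mul (by linarith) (by linarith) (by positivity) (by linarith [pow_pos hL0 5])
      _ = _ := by ring
  · obtain ⟨u, a1, a2, a3, a4⟩ := f11 z hz
    exact ⟨u, a1, a2, a3, fun y hy => ⟨(a4 y hy).1, (a4 y hy).2.trans (pw 17 (by norm_num))⟩⟩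

end Pool.Agent.H84D
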