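import Pool.Agent.H84D.Rgh
import Pool.Agent.H84D.Defs
import Pool.Agent.H84D.Par

set_option autoImplicit false

/-! The set of primes `q`. -/

namespace Pool.Agent.H84D

open Finset Filter Pool.Agent.MP_48b1c3_nt

theorem qq_omega {n s : ℕ} {z : ℝ} (hz : 1 < z) (hn : n ≠ 0) (h : ∀ p : ℕ, p.Prime → p ∣ n → z < p)
    (hs : (n : ℝ) ≤ z ^ s) : ArithmeticFunction.cardFactors n ≤ s := by
  rw [ArithmeticFunction.cardFactors_apply]
  have h1 : ∀ l : List ℕ, (∀ p ∈ l, z < p) → z ^ l.length ≤ (l.prod : ℕ) := by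
    intro l hl
    induction l with
    | nil => simp
    | cons p l ih =>
      rw [List.length_cons, List.prod_cons, pow_succ', Nat.cast_mul]
      exact mul_le_mul (hl p List.mem_cons_self).le (ih fun q hq => hl q (List.mem_cons_of_mem _ hq))
        (by positivity) (Nat.cast_nonneg _)
  have h2 := h1 n.primeFactorsList fun p hp =>
    h p (Nat.prime_of_mem_primeFactorsList hp) (Nat.dvd_of_mem_primeFactorsList hp)
  rw [Nat.prod_primeFactorsList hn] at h2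
  exact (pow_le_pow_iff_right₀ hz).1 (h2.trans hs)

theorem qq_size : ∀ᶠ L : ℝ in atTop, ∀ x : ℝ, Real.exp (L ^ (3 / 20 : ℝ)) - 5 ≤ x →
    x ≤ Real.exp (L ^ (3 / 20 : ℝ)) → 1000 ≤ x ∧ L ^ (3 / 20 : ℝ) / 2 ≤ Real.log x ∧
      Real.log x ≤ L ^ (3 / 20 : ℝ) := by
  filter_upwards [par_const_rpow 2000 (show (0 : ℝ) < 3 / 20 by norm_num)] with L h x h1 h2
  set t := L ^ (3 / 20 : ℝ)
  have h3 := Real.add_one_le_exp t
  have h4 := Real.add_one_le_exp (t / 2)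
  have h5 : Real.exp t = Real.exp (t / 2) * Real.exp (t / 2) := by rw [← Real.exp_add, add_halves]
  have hx : 0 < x := by linarith
  refine ⟨by linarith, (Real.le_log_iff_exp_le hx).2 (by nlinarith), (Real.log_le_iff_le_exp hx).2 h2⟩

theorem qq_tend : Tendsto (fun X : ℕ => (Y1 X : ℝ) - 4) atTop atTop := by
  refine tendsto_atTop_add_const_right _ (-4) (tendsto_natCast_atTop_atTop.comp
    (tendsto_nat_floor_atTop.comp (Real.tendsto_exp_atTop.comp
      ((tendsto_rpow_atTop (by norm_num)).comp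
        (Real.tendsto_log_atTop.comp tendsto_natCast_atTop_atTop)))))

theorem fam_Q : ∃ c : ℕ, 1 ≤ c ∧ ∀ B : ℕ, ∀ᶠ X : ℕ in atTop, ∃ QQ : Finset ℕ,
    (∀ q ∈ QQ, q.Prime ∧ q % 6 = 1 ∧ q + 4 ≤ Y1 X ∧ Y1 X ≤ 60 * q) ∧
    (∀ q ∈ QQ, ∀ p : ℕ, p.Prime → p ∣ q + 4 → EE X (7 / 50) < p) ∧
    (∀ q ∈ QQ, ArithmeticFunction.cardFactors (q + 4) ≤ c) ∧
    (Y1 X : ℝ) ≤ LL X * #QQ ∧
    ∀ e r : ℕ, Squarefree e → e.Coprime 6 → e ≤ QB B X →
      (#(QQ.filter fun q => q ≡ r [MOD e]) : ℝ) * e ≤ c * 3 ^ #e.primeFactors * #QQ := by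
  obtain ⟨κ, hκ, h1⟩ := rgh_lower
  obtain ⟨C, h2⟩ := rgh_class
  refine ⟨⌈C⌉₊ + 10000, by omega, fun B => ?_⟩
  filter_upwards [qq_tend.eventually h1, qq_tend.eventually (h2 (10 * B)), par_nat qq_size,
    par_nat (par_rpow 10000 (show (7 / 50 : ℝ) < 3 / 20 by norm_num)),
    par_nat (par_rpow 2 (show (1 / 10 : ℝ) < 3 / 20 by norm_num)),
    par_nat (par_rpow (2 / κ) (show (3 / 10 : ℝ) < 1 by norm_num)),
    par_nat (eventually_ge_atTop 1)] with X a1 a2 a3 a4 a5 a6 a7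
  set L := Real.log X with hL
  set x : ℝ := (Y1 X : ℝ) - 4 with hx
  have b1 : (Y1 X : ℝ) ≤ Real.exp (L ^ (3 / 20 : ℝ)) := Nat.floor_le (Real.exp_pos _).le
  have b2 : Real.exp (L ^ (3 / 20 : ℝ)) < (Y1 X : ℝ) + 1 := Nat.lt_floor_add_one _
  obtain ⟨b3, b4, b5⟩ := a3 x (by linarith) (by linarith)
  have x0 : 0 < x := by linarith
  have L0 : 0 < L := by linarith
  have t0 : 0 < L ^ (3 / 20 : ℝ) := by positivity
  have hm : ∀ q ∈ RGS x 1 fun π => π - 4, q.Prime ∧ q % 6 = 1 ∧ x / Real.exp 4 < q ∧ (q : ℝ) ≤ x ∧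
      ∀ p : ℕ, p.Prime → p ∣ q + 4 → x ^ (1 / 5000 : ℝ) < p := by
    intro q hq
    classical
    obtain ⟨c1, c2, c3⟩ := mem_filter.1 hq
    obtain ⟨c4, c5, c6⟩ := H54.mem_PI.1 c1
    refine ⟨c6, c2, c4, c5, fun p hp hd => lt_of_not_ge fun hle => ?_⟩
    have h5 : 5 ≤ p := by
      by_contra h
      have := hp.two_le
      have : p = 2 ∨ p = 3 ∨ p = 4 := by omega
      rcases this with rfl | rfl | rfl
      · omega
      · omega
      · exact absurd hp (by norm_num)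
    refine c3 p hp h5 hle (Nat.ModEq.add_right_cancel' 4 ?_)
    rw [Nat.sub_add_cancel (by omega)]
    exact (Nat.modEq_zero_iff_dvd.2 hd).trans (Nat.modEq_zero_iff_dvd.2 dvd_rfl).symm
  have he : Real.exp 4 ≤ 55 := by
    calc Real.exp 4 = Real.exp 1 ^ 4 := by rw [← Real.exp_nat_mul]; norm_num
      _ ≤ 2.7182818286 ^ 4 := by gcongr; exact Real.exp_one_lt_d9.le
      _ ≤ 55 := by norm_num
  have hz : Real.exp (L ^ (7 / 50 : ℝ)) ≤ x ^ (1 / 5000 : ℝ) := by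
    rw [Real.rpow_def_of_pos x0, Real.exp_le_exp]; linarith
  refine ⟨RGS x 1 fun π => π - 4, fun q hq => ?_, fun q hq p hp hd => hz.trans_lt ((hm q hq).2.2.2.2 p hp hd),
    fun q hq => ?_, ?_, fun e r he1 he2 he3 => ?_⟩
  · obtain ⟨c1, c2, c3, c4, -⟩ := hm q hq
    refine ⟨c1, c2, by exact_mod_cast (by linarith : (q : ℝ) + 4 ≤ Y1 X), ?_⟩
    rw [div_lt_iff₀ (Real.exp_pos _)] at c3
    have : (q : ℝ) * Real.exp 4 ≤ q * 55 := by gcongr
    exact_mod_cast (by linarith : (Y1 X : ℝ) ≤ 60 * q)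
  · obtain ⟨-, -, -, c4, c5⟩ := hm q hq
    refine (qq_omega (s := 10000) (Real.one_lt_rpow (by linarith) (by norm_num)) (by omega) c5 ?_).trans
      (by omega)
    rw [← Real.rpow_natCast, ← Real.rpow_mul x0.le, show (1 / 5000 : ℝ) * (10000 : ℕ) = (2 : ℕ) by norm_num,
      Real.rpow_natCast]
    push_cast
    nlinarith
  · refine le_trans ?_ (mul_le_mul_of_nonneg_left (a1 1 (Or.inl rfl) _) L0.le)
    have c1 : Real.log x ^ 2 ≤ L ^ (3 / 10 : ℝ) := by
      rw [show (3 / 10 : ℝ) = 3 / 20 * (2 : ℕ) by norm_num, Real.rpow_mul L0.le, Real.rpow_natCast]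
      exact pow_le_pow_left₀ (by linarith) b5 2
    have c2 : 0 < Real.log x ^ 2 := pow_pos (by linarith) 2
    rw [Real.rpow_one, div_mul_eq_mul_div, div_le_iff₀ hκ] at a6
    rw [← mul_div_assoc, le_div_iff₀ c2]
    change _ ≤ L * _
    nlinarith
  · have c1 : (e : ℝ) ≤ Real.log x ^ (10 * B) := by
      have c2 : L ≤ Real.log x ^ 10 := by
        calc L = (L ^ (1 / 10 : ℝ)) ^ 10 := by
              rw [← Real.rpow_natCast, ← Real.rpow_mul L0.le]; norm_num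
          _ ≤ _ := pow_le_pow_left₀ (by positivity) (by linarith) 10
      rw [pow_mul]
      exact (Nat.cast_le.2 he3).trans ((Nat.floor_le (by unfold LL; positivity)).trans
        (pow_le_pow_left₀ L0.le c2 B))
    refine (a2 1 (Or.inl rfl) _ (fun π hπ h5 hd => ?_) e r he1 he2 c1).trans ?_
    · exact absurd (Nat.le_of_dvd (by omega) hd) (by omega)
    · have := Nat.le_ceil C
      push_cast
      gcongr
      linarith

end Pool.Agent.H84D
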