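import Pool.Agent.H84D.FamF
import Pool.Agent.H84D.QFam

set_option autoImplicit false

/-! Existence of the family. -/

namespace Pool.Agent.H84D

open Finset Filter Pool.Agent.MP_a96b63_al

theorem fam : ∃ c : ℕ, 1 ≤ c ∧ ∀ a₀ B : ℕ, a₀ = 1 ∨ a₀ = 2 →
    ∀ᶠ X : ℕ in atTop, ∃ D : Fm, Fam c B a₀ X D := by
  obtain ⟨c₁, h₁, H₁⟩ := fam_F
  obtain ⟨c₂, -, H₂⟩ := fam_Q
  refine ⟨c₁ + c₂, by omega, fun a₀ B ha => ?_⟩
  filter_upwards [H₁ a₀ ha, H₂ B, par_nat (eventually_ge_atTop 1)] with X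
    ⟨F, Y2, a1, a2, a3, a4, a5, a6, a7, a8, a9, a10, a11⟩ ⟨QQ, b1, b2, b3, b4, b5⟩ hL
  refine ⟨⟨F, QQ, Y2⟩, a1, fun z hz => ?_, a3, a4, a5, fun z hz => (a6 z hz).trans (by omega), a7, a8,
    a9, fun d h1 h2 => (a10 d h1 h2).trans ?_, a11, b1, b2, fun q hq => (b3 q hq).trans (by omega), b4,
    fun e r h1 h2 h3 => (b5 e r h1 h2 h3).trans ?_⟩
  · obtain ⟨e1, e2, e3, e4⟩ := a2 z hz
    exact ⟨e1, e2, e3, e4.trans (Nat.mul_le_mul_right _ (by omega))⟩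
  · have : 0 < EE X (9 / 100) := Real.exp_pos _
    have : LL X ^ c₁ ≤ LL X ^ (c₁ + c₂) := pow_le_pow_right₀ hL (by omega)
    gcongr
  · gcongr
    omega

end Pool.Agent.H84D
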