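import Pool.Agent.H84D.FamA

set_option autoImplicit false

namespace Pool.Agent.H84D
open Pool.Agent.MP_a96b63_al Finset

/-- the step modulo three -/
def w3 (c : ZMod 3) (s : ZMod 3 × ZMod 3) : ZMod 3 × ZMod 3 := ((c + 2) * s.1 + 2 * s.2, 2 * s.1)

/-- the state modulo three -/
def s3 (u : List ℕ) : ZMod 3 × ZMod 3 := ((la u : ZMod 3), (lb u : ZMod 3))

lemma s3_cons (p : ℕ) (v : List ℕ) : s3 (p :: v) = w3 p (s3 v) := by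
  simp only [s3, w3, la_cons, lb_cons]; push_cast; rfl

lemma fam_cls {G : ZMod 3 × ZMod 3 → Prop} {v : List ℕ} (h : ∃ c, c ≠ 0 ∧ G (w3 c (s3 v))) :
    ∃ c, (c = 1 ∨ c = 2) ∧ ∀ p, p % 3 = c → G (s3 (p :: v)) := by
  obtain ⟨c, h1, h2⟩ := h
  refine ⟨c.val, ?_, fun p hp => ?_⟩
  · clear h2; revert c; decide
  · rwa [s3_cons, ← ZMod.natCast_mod p 3, hp, ZMod.natCast_zmod_val]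

lemma fam_walk' : ∀ a0 : ZMod 3, a0 ≠ 0 → ∀ s : ZMod 3 × ZMod 3, ¬ (s.1 = 0 ∧ s.2 = 0) →
    ∃ c1, c1 ≠ 0 ∧ ∃ c2, c2 ≠ 0 ∧ (w3 c2 (w3 c1 s)).1 ≠ 0 ∧ ∃ c3, c3 ≠ 0 ∧
      (w3 c3 (w3 c2 (w3 c1 s))).1 ≠ 0 ∧ ∃ c4, c4 ≠ 0 ∧ (w3 c4 (w3 c3 (w3 c2 (w3 c1 s)))).1 = a0 := by
  decide

lemma fam_s3_ne {v : List ℕ} (hv : Adm v) : ¬ ((s3 v).1 = 0 ∧ (s3 v).2 = 0) := by
  rintro ⟨h1, h2⟩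
  have a1 : 3 ∣ la v := (ZMod.natCast_eq_zero_iff _ _).mp h1
  have a2 : 3 ∣ lb v := (ZMod.natCast_eq_zero_iff _ _).mp h2
  have := Nat.eq_one_of_dvd_coprimes (coprime_la hv) a1 (a2.mul_left 2)
  omega

lemma fam_rough {u : List ℕ} (hu : Clean u) (h3 : (s3 u).1 ≠ 0) {z : ℝ}
    (h : ∀ π : ℕ, π.Prime → 5 ≤ π → (π : ℝ) ≤ z → ¬ π ∣ la u) (π : ℕ) (hπ : π.Prime)
    (hd : π ∣ la u) : z < π := by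
  by_contra h1
  refine h π hπ ?_ (not_lt.mp h1) hd
  have h2 := la_odd hu.adm
  have h4 : ¬ 3 ∣ la u := fun h5 => h3 ((ZMod.natCast_eq_zero_iff _ _).mpr h5)
  by_contra h5
  have := hπ.two_le
  have h6 : π < 5 := not_le.mp h5
  interval_cases π
  · omega
  · exact h4 hd
  · exact absurd hπ (by decide)

/-- One layer with the invariants needed for the next one. -/
lemma fam_step' {Y lo hi m M n : ℕ} {z : ℝ} (hY : 0 < Y) (hlo : 2 ≤ lo) (hz : z ≤ lo) (hYl : Y ≤ lo)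
    (hlh : lo ≤ hi) (hm : m ≤ M) (L : Finset (List ℕ)) (G : ZMod 3 × ZMod 3 → Prop)
    (hQ : ∀ v ∈ L, ∃ c, c ≠ 0 ∧ G (w3 c (s3 v)))
    (hL : ∀ v ∈ L, Clean v ∧ v.length ≤ m ∧ ∀ y ∈ v, Y ≤ y ∧ y ≤ lo)
    (hR : RG lo hi z (n + M * (hi / Y + 1))) :
    ∃ L' : Finset (List ℕ), #L' = n * #L ∧
      (∀ u ∈ L', ∃ p, ∃ v ∈ L, u = p :: v ∧ lo < p ∧ p ≤ hi) ∧ (∀ u ∈ L', G (s3 u)) ∧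
      (∀ u ∈ L', Clean u ∧ u.length ≤ m + 1 ∧ ∀ y ∈ u, Y ≤ y ∧ y ≤ hi) ∧
      ∀ u ∈ L', (s3 u).1 ≠ 0 → ∀ π : ℕ, π.Prime → π ∣ la u → z < π := by
  obtain ⟨L', h1, h2⟩ := fam_step hY hlo hz L (fun u => G (s3 u)) (fun v hv => fam_cls (hQ v hv))
    (fun v hv => ⟨(hL v hv).1, (hL v hv).2.1.trans hm, (hL v hv).2.2⟩) hR
  refine ⟨L', h1, fun u hu => ?_, fun u hu => ?_, fun u hu => ?_, fun u hu h3 => ?_⟩ <;>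
    obtain ⟨p, v, hv, rfl, a1, a2, a3, a4, a5⟩ := h2 u hu
  · exact ⟨p, v, hv, rfl, a1, a2⟩
  · exact a4
  · refine ⟨a3, Nat.succ_le_succ (hL v hv).2.1, fun y hy => ?_⟩
    rcases List.mem_cons.mp hy with rfl | hy
    · exact ⟨by omega, a2⟩
    · exact ⟨((hL v hv).2.2 y hy).1, ((hL v hv).2.2 y hy).2.trans hlh⟩
  · exact fam_rough a3 h3 a5

/-- The four layers. -/
theorem fam_tower {a₀ Y m l₁ P₁ l₂ P₂ l₃ P₃ l₄ P₄ n₁ n₂ n₃ n₄ : ℕ} {z : ℝ} (ha : a₀ = 1 ∨ a₀ = 2)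
    (hY : 0 < Y) (h2 : 2 ≤ l₁) (hz : z ≤ l₁) (hYl : Y ≤ l₁) (e1 : l₁ ≤ P₁) (e2 : P₁ ≤ l₂)
    (e3 : l₂ ≤ P₂) (e4 : P₂ ≤ l₃) (e5 : l₃ ≤ P₃) (e6 : P₃ ≤ l₄) (e7 : l₄ ≤ P₄)
    (r1 : RG l₁ P₁ z (n₁ + (m + 3) * (P₁ / Y + 1))) (r2 : RG l₂ P₂ z (n₂ + (m + 3) * (P₂ / Y + 1)))
    (r3 : RG l₃ P₃ z (n₃ + (m + 3) * (P₃ / Y + 1))) (r4 : RG l₄ P₄ z (n₄ + (m + 3) * (P₄ / Y + 1)))
    (U : Finset (List ℕ)) (hU : ∀ v ∈ U, Clean v ∧ v.length ≤ m ∧ ∀ y ∈ v, Y ≤ y ∧ y ≤ l₁) :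
    ∃ L₁ L₂ L₃ L₄ : Finset (List ℕ),
      #L₁ = n₁ * #U ∧ #L₂ = n₂ * #L₁ ∧ #L₃ = n₃ * #L₂ ∧ #L₄ = n₄ * #L₃ ∧
      (∀ u ∈ L₁, ∃ p, ∃ v ∈ U, u = p :: v ∧ l₁ < p ∧ p ≤ P₁) ∧
      (∀ u ∈ L₂, ∃ p, ∃ v ∈ L₁, u = p :: v ∧ l₂ < p ∧ p ≤ P₂) ∧
      (∀ u ∈ L₃, ∃ p, ∃ v ∈ L₂, u = p :: v ∧ l₃ < p ∧ p ≤ P₃) ∧
      (∀ u ∈ L₄, ∃ p, ∃ v ∈ L₃, u = p :: v ∧ l₄ < p ∧ p ≤ P₄) ∧
      (∀ u ∈ L₁, Clean u) ∧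
      (∀ u ∈ L₂, Clean u ∧ ∀ π : ℕ, π.Prime → π ∣ la u → z < π) ∧
      (∀ u ∈ L₃, Clean u ∧ ∀ π : ℕ, π.Prime → π ∣ la u → z < π) ∧
      (∀ u ∈ L₄, Clean u ∧ ∀ π : ℕ, π.Prime → π ∣ la u → z < π) ∧
      ∀ u ∈ L₄, la u % 3 = a₀ ∧ u.length ≤ m + 4 ∧ ∀ y ∈ u, Y ≤ y ∧ y ≤ P₄ := by
  have ha0 : (a₀ : ZMod 3) ≠ 0 := by rcases ha with rfl | rfl <;> decide
  have hz' : ∀ l : ℕ, l₁ ≤ l → z ≤ l := fun l h => hz.trans (by exact_mod_cast h)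
  have up : ∀ {L : Finset (List ℕ)} {k a b : ℕ}, a ≤ b →
      (∀ u ∈ L, Clean u ∧ u.length ≤ k ∧ ∀ y ∈ u, Y ≤ y ∧ y ≤ a) →
      ∀ u ∈ L, Clean u ∧ u.length ≤ k ∧ ∀ y ∈ u, Y ≤ y ∧ y ≤ b := fun hab h u hu =>
    ⟨(h u hu).1, (h u hu).2.1, fun y hy => ⟨((h u hu).2.2 y hy).1, ((h u hu).2.2 y hy).2.trans hab⟩⟩
  obtain ⟨L₁, a1, a2, a3, a4, -⟩ := fam_step' hY h2 hz hYl e1 (by omega) U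
    (fun s => ∃ c2, c2 ≠ 0 ∧ (w3 c2 s).1 ≠ 0 ∧ ∃ c3, c3 ≠ 0 ∧
      (w3 c3 (w3 c2 s)).1 ≠ 0 ∧ ∃ c4, c4 ≠ 0 ∧ (w3 c4 (w3 c3 (w3 c2 s))).1 = a₀)
    (fun v hv => fam_walk' _ ha0 _ (fam_s3_ne (hU v hv).1.adm)) hU r1
  obtain ⟨L₂, b1, b2, b3, b4, b5⟩ := fam_step' hY (by omega) (hz' l₂ (by omega)) (by omega) e3
    (by omega) L₁ (fun s => s.1 ≠ 0 ∧ ∃ c3, c3 ≠ 0 ∧
      (w3 c3 s).1 ≠ 0 ∧ ∃ c4, c4 ≠ 0 ∧ (w3 c4 (w3 c3 s)).1 = a₀) a3 (up e2 a4) r2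
  obtain ⟨L₃, c1, c2, c3, c4, c5⟩ := fam_step' hY (by omega) (hz' l₃ (by omega)) (by omega) e5
    (by omega) L₂ (fun s => s.1 ≠ 0 ∧ ∃ c4, c4 ≠ 0 ∧ (w3 c4 s).1 = a₀) (fun v hv => (b3 v hv).2)
    (up e4 b4) r3
  obtain ⟨L₄, d1, d2, d3, d4, d5⟩ := fam_step' hY (by omega) (hz' l₄ (by omega)) (by omega) e7
    (by omega) L₃ (fun s => s.1 = a₀) (fun v hv => (c3 v hv).2) (up e6 c4) r4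
  refine ⟨L₁, L₂, L₃, L₄, a1, b1, c1, d1, a2, b2, c2, d2, fun u hu => (a4 u hu).1,
    fun u hu => ⟨(b4 u hu).1, b5 u hu (b3 u hu).1⟩, fun u hu => ⟨(c4 u hu).1, c5 u hu (c3 u hu).1⟩,
    fun u hu => ⟨(d4 u hu).1, d5 u hu (by rw [d3 u hu]; exact ha0)⟩,
    fun u hu => ⟨?_, (d4 u hu).2⟩⟩
  have := (ZMod.natCast_eq_natCast_iff' _ _ _).mp (d3 u hu)
  omega

end Pool.Agent.H84D
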