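import Pool.Agent.H84D.Defs
import Pool.Agent.H84D.Par

set_option autoImplicit false

/-! Row GOOD: few pairs lie in large fibres (Markov). -/

namespace Pool.Agent.H84D

open Finset Filter Pool.Agent.MP_a96b63_al

lemma good_sum_fib (F : Finset (ℕ × ℕ)) : ∑ z ∈ F, #(fib F z.1) ≤ Xi F 1 + #F := by
  classical
  have h1 : ∑ z ∈ F, #(fib F z.1) = #((F ×ˢ F).filter fun w => w.1.1 = w.2.1) := by
    rw [card_filter, sum_product]
    refine sum_congr rfl fun z _ => ?_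
    rw [fib, card_filter]
    exact sum_congr rfl fun w _ => by simp only [eq_comm]
  rw [h1]
  have h2 : ((F ×ˢ F).filter fun w => w.1.1 = w.2.1) ⊆
      ((F ×ˢ F).filter fun w => w.1.1 = w.2.1 ∧ w.1.2 ≠ w.2.2 ∧
        ((1 : ℕ) : ℤ) ∣ 8 * w.1.1 * ((w.1.2 : ℤ) - w.2.2)) ∪ F.image fun z => (z, z) := by
    intro w hw
    rw [mem_filter] at hw
    rw [mem_union, mem_filter, mem_image]
    by_cases h : w.1.2 = w.2.2
    · exact Or.inr ⟨w.1, (mem_product.1 hw.1).1, Prod.ext rfl (Prod.ext hw.2 h)⟩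
    · exact Or.inl ⟨hw.1, hw.2, h, by simp⟩
  exact (card_le_card h2).trans ((card_union_le _ _).trans (Nat.add_le_add_left card_image_le _))

lemma good_markov (D : Fm) (Q : ℕ) :
    #(D.F \ good D Q) * (Q ^ 3 * #D.F) ≤ (Xi D.F 1 + #D.F) * D.Y2 := by
  calc #(D.F \ good D Q) * (Q ^ 3 * #D.F) = ∑ _z ∈ D.F \ good D Q, Q ^ 3 * #D.F := by
        rw [sum_const, smul_eq_mul]
    _ ≤ ∑ z ∈ D.F \ good D Q, #(fib D.F z.1) * D.Y2 := by
        refine sum_le_sum fun z hz => ?_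
        rw [Finset.mem_sdiff, good, mem_filter] at hz
        exact (not_le.1 fun h => hz.2 ⟨hz.1, h⟩).le
    _ ≤ ∑ z ∈ D.F, #(fib D.F z.1) * D.Y2 := sum_le_sum_of_subset sdiff_subset
    _ = (∑ z ∈ D.F, #(fib D.F z.1)) * D.Y2 := (sum_mul _ _ _).symm
    _ ≤ _ := Nat.mul_le_mul_right _ (good_sum_fib D.F)

lemma Fam.y2_le {c B a₀ X : ℕ} {D : Fm} (h : Fam c B a₀ X D) : (D.Y2 : ℝ) ≤ #D.F := by
  refine le_trans ?_ h.many
  have : 1 ≤ Real.exp (LL X ^ (1 / 10 : ℝ) / 10) :=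
    Real.one_le_exp (div_nonneg (Real.rpow_nonneg (Real.log_natCast_nonneg X) _) (by norm_num))
  exact le_mul_of_one_le_right (Nat.cast_nonneg _) this

lemma Fam.card_pos {c B a₀ X : ℕ} {D : Fm} (h : Fam c B a₀ X D) : (0 : ℝ) < #D.F :=
  lt_of_lt_of_le (Nat.cast_pos.2 h.ypos) h.y2_le

/-- ROW GOOD (Markov) -/
theorem good_card (c B a₀ : ℕ) : ∀ᶠ X : ℕ in atTop, ∀ D : Fm, Fam c B a₀ X D →
    (#(D.F \ good D (QB B X)) : ℝ) * (QB B X : ℝ) ^ 3 ≤ 3 * LL X ^ c * #D.F := by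
  filter_upwards [par_nat (eventually_ge_atTop (1 : ℝ))] with X hX D h
  have hL : 1 ≤ LL X ^ c := one_le_pow₀ hX
  have hN := h.card_pos
  have hY := h.y2_le
  have hy : 1 ≤ 64 * D.Y2 ^ 2 := by
    have := h.ypos
    nlinarith
  have hxi := h.xi 1 one_pos hy
  have hE : 1 / EE X (9 / 100) ≤ 1 := by
    have : 1 ≤ EE X (9 / 100) :=
      Real.one_le_exp (Real.rpow_nonneg (Real.log_natCast_nonneg X) _)
    exact (div_le_one (by linarith)).2 this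
  have hm : (#(D.F \ good D (QB B X)) : ℝ) * ((QB B X : ℝ) ^ 3 * #D.F) ≤
      ((Xi D.F 1 : ℝ) + #D.F) * D.Y2 := by exact_mod_cast good_markov D (QB B X)
  have h2 : LL X ^ c * (1 / ((1 : ℕ) : ℝ) + 1 / EE X (9 / 100)) * (#D.F : ℝ) ^ 2 ≤
      LL X ^ c * 2 * (#D.F : ℝ) ^ 2 := by
    refine mul_le_mul_of_nonneg_right (mul_le_mul_of_nonneg_left ?_ (by linarith)) (by positivity)
    rw [Nat.cast_one, div_one]
    linarith
  have h3 : (#D.F : ℝ) * D.Y2 ≤ LL X ^ c * (#D.F : ℝ) ^ 2 := by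
    calc (#D.F : ℝ) * D.Y2 ≤ #D.F * #D.F := mul_le_mul_of_nonneg_left hY hN.le
      _ = 1 * (#D.F : ℝ) ^ 2 := by ring
      _ ≤ _ := mul_le_mul_of_nonneg_right hL (by positivity)
  refine le_of_mul_le_mul_right ?_ hN
  nlinarith

end Pool.Agent.H84D
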