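import Pool.Agent.H84D.Defs
import Pool.Agent.H84D.Par

set_option autoImplicit false

/-! Second moments of weights collected along a product of three shifted variables. -/

namespace Pool.Agent.H84D.Lg

open Finset Filter

/-- iterated divisor functions -/
noncomputable def tk : ℕ → ℕ → ℝ
  | 0, _ => 1
  | k + 1, n => ∑ d ∈ n.divisors, tk k d

theorem tk_nonneg (k n : ℕ) : 0 ≤ tk k n := by
  induction k generalizing n with
  | zero => exact zero_le_one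
  | succ k ih => exact sum_nonneg fun d _ => ih d

theorem tk_mul (k m n : ℕ) : tk k (m * n) ≤ tk k m * tk k n := by
  induction k generalizing m n with
  | zero => simp [tk]
  | succ k ih =>
    simp only [tk]
    rw [Nat.divisors_mul, sum_mul_sum, ← sum_product', Finset.mul_def]
    exact (sum_image_le_of_nonneg fun u _ => tk_nonneg k u).trans
      (sum_le_sum fun x _ => ih x.1 x.2)

theorem hyp (F : ℕ → ℕ → ℝ) (Y : ℕ) :
    ∑ n ∈ Ioc 0 Y, ∑ d ∈ n.divisors, F d (n / d) =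
      ∑ d ∈ Ioc 0 Y, ∑ e ∈ Ioc 0 (Y / d), F d e := by
  rw [sum_sigma', sum_sigma']
  refine sum_bij' (fun x _ => ⟨x.2, x.1 / x.2⟩) (fun x _ => ⟨x.1 * x.2, x.1⟩) ?_ ?_ ?_ ?_ ?_
  · rintro ⟨n, d⟩ h
    simp only [mem_sigma, mem_Ioc, Nat.mem_divisors] at h ⊢
    obtain ⟨⟨h1, h2⟩, h3, _⟩ := h
    have h4 := Nat.le_of_dvd h1 h3
    have h5 := Nat.pos_of_dvd_of_pos h3 h1
    exact ⟨⟨h5, h4.trans h2⟩, Nat.div_pos h4 h5, Nat.div_le_div_right h2⟩
  · rintro ⟨d, e⟩ h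
    simp only [mem_sigma, mem_Ioc, Nat.mem_divisors] at h ⊢
    obtain ⟨⟨h1, _⟩, h3, h4⟩ := h
    have h5 := Nat.mul_pos h1 h3
    exact ⟨⟨h5, by rw [mul_comm]; exact (Nat.le_div_iff_mul_le h1).1 h4⟩, dvd_mul_right _ _, h5.ne'⟩
  · rintro ⟨n, d⟩ h
    simp only [mem_sigma, mem_Ioc, Nat.mem_divisors] at h
    simp only [Nat.mul_div_cancel' h.2.1]
  · rintro ⟨d, e⟩ h
    simp only [mem_sigma, mem_Ioc] at h
    simp only [Nat.mul_div_cancel_left _ h.1.1]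
  · rintro ⟨n, d⟩ _
    rfl

theorem mom_log {g : ℕ → ℝ} (g0 : ∀ n, 0 ≤ g n) (gm : ∀ m n, g (m * n) ≤ g m * g n) {Y : ℕ}
    {G : ℝ} (hG : ∑ n ∈ Ioc 0 Y, g n / n ≤ G) (k : ℕ) :
    ∑ n ∈ Ioc 0 Y, g n * tk k n / n ≤ G ^ (k + 1) := by
  have G0 : 0 ≤ G := (sum_nonneg fun n _ => div_nonneg (g0 n) n.cast_nonneg).trans hG
  induction k with
  | zero => simpa [tk] using hG
  | succ k ih =>
    calc ∑ n ∈ Ioc 0 Y, g n * tk (k + 1) n / n
        ≤ ∑ n ∈ Ioc 0 Y, ∑ d ∈ n.divisors, g d * tk k d / d * (g (n / d) / (n / d : ℕ)) := by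
          refine sum_le_sum fun n hn => ?_
          simp only [tk]
          rw [mul_sum, sum_div]
          refine sum_le_sum fun d hd => ?_
          obtain ⟨e, rfl⟩ := Nat.dvd_of_mem_divisors hd
          have h1 : 0 < d := Nat.pos_of_mem_divisors hd
          rw [Nat.mul_div_cancel_left _ h1, div_mul_div_comm, Nat.cast_mul]
          refine div_le_div_of_nonneg_right ?_ (by positivity)
          have := mul_le_mul_of_nonneg_right (gm d e) (tk_nonneg k d)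
          linarith
      _ = ∑ d ∈ Ioc 0 Y, ∑ e ∈ Ioc 0 (Y / d), g d * tk k d / d * (g e / e) :=
          hyp (fun d e => g d * tk k d / d * (g e / e)) Y
      _ ≤ ∑ d ∈ Ioc 0 Y, g d * tk k d / d * G := by
          refine sum_le_sum fun d _ => ?_
          rw [← mul_sum]
          refine mul_le_mul_of_nonneg_left (le_trans ?_ hG)
            (div_nonneg (mul_nonneg (g0 d) (tk_nonneg k d)) d.cast_nonneg)
          exact sum_le_sum_of_subset_of_nonneg (Ioc_subset_Ioc_right (Nat.div_le_self _ _))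
            fun n _ _ => div_nonneg (g0 n) n.cast_nonneg
      _ ≤ G ^ (k + 1 + 1) := by
          rw [← sum_mul, pow_succ]
          exact mul_le_mul_of_nonneg_right ih G0

theorem mom_lin {g : ℕ → ℝ} (g0 : ∀ n, 0 ≤ g n) (gm : ∀ m n, g (m * n) ≤ g m * g n) {Y : ℕ}
    {G c : ℝ} (hG : ∑ n ∈ Ioc 0 Y, g n / n ≤ G) (c0 : 0 ≤ c)
    (hc : ∀ y ≤ Y, ∑ n ∈ Ioc 0 y, g n ≤ c * y) (k : ℕ) :
    ∑ n ∈ Ioc 0 Y, g n * tk (k + 1) n ≤ G ^ (k + 1) * (c * Y) := by
  calc ∑ n ∈ Ioc 0 Y, g n * tk (k + 1) n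
      ≤ ∑ n ∈ Ioc 0 Y, ∑ d ∈ n.divisors, g d * tk k d * g (n / d) := by
        refine sum_le_sum fun n hn => ?_
        simp only [tk]
        rw [mul_sum]
        refine sum_le_sum fun d hd => ?_
        obtain ⟨e, rfl⟩ := Nat.dvd_of_mem_divisors hd
        rw [Nat.mul_div_cancel_left _ (Nat.pos_of_mem_divisors hd)]
        have := mul_le_mul_of_nonneg_right (gm d e) (tk_nonneg k d)
        linarith
    _ = ∑ d ∈ Ioc 0 Y, ∑ e ∈ Ioc 0 (Y / d), g d * tk k d * g e :=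
        hyp (fun d e => g d * tk k d * g e) Y
    _ ≤ ∑ d ∈ Ioc 0 Y, g d * tk k d / d * (c * Y) := by
        refine sum_le_sum fun d hd => ?_
        have h1 : (0 : ℝ) < d := by exact_mod_cast (mem_Ioc.1 hd).1
        have h2 := mul_nonneg (g0 d) (tk_nonneg k d)
        rw [← mul_sum, div_mul_eq_mul_div, mul_div_assoc, mul_div_assoc]
        refine mul_le_mul_of_nonneg_left ((hc _ (Nat.div_le_self _ _)).trans ?_) h2
        exact mul_le_mul_of_nonneg_left Nat.cast_div_le c0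
    _ ≤ G ^ (k + 1) * (c * Y) := by
        rw [← sum_mul]
        exact mul_le_mul_of_nonneg_right (mom_log g0 gm hG k) (by positivity)

theorem harm (Y : ℕ) : ∑ n ∈ Ioc 0 Y, (1 : ℝ) / n ≤ 1 + Real.log Y := by
  have h := harmonic_le_one_add_log Y
  simp only [harmonic_eq_sum_Icc, Rat.cast_sum, Rat.cast_inv, Rat.cast_natCast] at h
  have e : Ioc 0 Y = Icc 1 Y := by ext n; simp only [mem_Ioc, mem_Icc]; omega
  simpa only [one_div, e] using h

/-- second moment of the ternary divisor function -/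
theorem tk_sq (Y : ℕ) : ∑ n ∈ Ioc 0 Y, tk 2 n ^ 2 ≤ Y * (1 + Real.log Y) ^ 8 := by
  have l0 : 0 ≤ 1 + Real.log Y := by have := Real.log_natCast_nonneg Y; linarith
  have a1 := mom_log (g := fun _ => 1) (fun _ => zero_le_one) (fun _ _ => by simp) (harm Y) 2
  have a2 : ∀ y ≤ Y, ∑ n ∈ Ioc 0 y, tk 2 n ≤ (1 + Real.log Y) ^ 2 * y := fun y hy => by
    have h : ∑ n ∈ Ioc 0 y, (1 : ℝ) / n ≤ 1 + Real.log Y :=
      (sum_le_sum_of_subset_of_nonneg (Ioc_subset_Ioc_right hy)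
        fun n _ _ => by positivity).trans (harm Y)
    have := mom_lin (g := fun _ => 1) (fun _ => zero_le_one) (fun _ _ => by simp) h zero_le_one
      (fun y _ => by simp) 1
    simpa only [one_mul] using this
  simp only [one_mul] at a1
  have a3 := mom_lin (tk_nonneg 2) (tk_mul 2) a1 (by positivity) a2 1
  calc _ = ∑ n ∈ Ioc 0 Y, tk 2 n * tk (1 + 1) n := sum_congr rfl fun n _ => sq _
    _ ≤ _ := a3
    _ = _ := by ring

theorem fib_card (S : Finset (ℕ × ℕ × ℕ)) (n : ℕ) :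
    (#{s ∈ S | (s.1 + 2) * (s.2.1 + 2) * (s.2.2 + 2) = n} : ℝ) ≤ tk 2 n := by
  have e : tk 2 n = #(n.divisors.sigma fun d => d.divisors) := by
    simp [tk, card_sigma]
  rw [e, Nat.cast_le]
  refine card_le_card_of_injOn (fun s => ⟨(s.1 + 2) * (s.2.1 + 2), s.1 + 2⟩) ?_ ?_
  · intro s hs
    have h := (mem_filter.1 hs).2
    simp only [coe_sigma, Set.mem_sigma_iff, mem_coe, Nat.mem_divisors]
    exact ⟨⟨h ▸ dvd_mul_right _ _, by rw [← h]; positivity⟩, dvd_mul_right _ _, by positivity⟩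
  · rintro ⟨a, b, c⟩ hs ⟨a', b', c'⟩ hs' h
    have h1 := (mem_filter.1 hs).2
    have h2 := (mem_filter.1 hs').2
    simp only [Sigma.mk.injEq, heq_eq_eq] at h h1 h2
    obtain ⟨h3, h4⟩ := h
    have ha : a = a' := by omega
    subst ha
    have hb : b = b' := by have := Nat.eq_of_mul_eq_mul_left (by omega) h3; omega
    subst hb
    have hc : c = c' := by
      have := Nat.eq_of_mul_eq_mul_left (by positivity) (h1.trans h2.symm); omega
    rw [hc]

/-- complex weights bounded by `W`, collected along the product of the shifted variables -/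
theorem hhC (S : Finset (ℕ × ℕ × ℕ)) (u : ℕ × ℕ × ℕ → ℂ) {W : ℝ} {Y : ℕ}
    (hu : ∀ s ∈ S, ‖u s‖ ≤ W) (hY : ∀ s ∈ S, (s.1 + 2) * (s.2.1 + 2) * (s.2.2 + 2) ≤ Y)
    (T : Finset ℕ) :
    ∑ n ∈ T, ‖∑ s ∈ S with (s.1 + 2) * (s.2.1 + 2) * (s.2.2 + 2) = n, u s‖ ^ 2 ≤
      W ^ 2 * (Y * (1 + Real.log Y) ^ 8) := by
  calc _ ≤ ∑ n ∈ T, if n ∈ Ioc 0 Y then W ^ 2 * tk 2 n ^ 2 else 0 := by
        refine sum_le_sum fun n _ => ?_
        rcases (S.filter fun s => (s.1 + 2) * (s.2.1 + 2) * (s.2.2 + 2) = n).eq_empty_or_nonempty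
          with h | ⟨s, hs⟩
        · rw [h]
          split_ifs
          · simp only [sum_empty, norm_zero]; nlinarith [sq_nonneg (W * tk 2 n)]
          · simp
        · obtain ⟨h1, h2⟩ := mem_filter.1 hs
          have W0 : 0 ≤ W := (norm_nonneg _).trans (hu s h1)
          rw [if_pos (mem_Ioc.2 ⟨by rw [← h2]; positivity, h2 ▸ hY s h1⟩), ← mul_pow]
          refine pow_le_pow_left₀ (norm_nonneg _) ((norm_sum_le _ _).trans ?_) 2
          refine (sum_le_card_nsmul _ _ W fun x hx => hu x (mem_filter.1 hx).1).trans ?_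
          rw [nsmul_eq_mul, mul_comm]
          exact mul_le_mul_of_nonneg_left (fib_card S n) W0
    _ ≤ ∑ n ∈ Ioc 0 Y, W ^ 2 * tk 2 n ^ 2 := by
        rw [← sum_filter]
        exact sum_le_sum_of_subset_of_nonneg (fun n hn => (mem_filter.1 hn).2)
          fun n _ _ => by positivity
    _ ≤ _ := by
        rw [← mul_sum]
        exact mul_le_mul_of_nonneg_left (tk_sq Y) (sq_nonneg W)

/-- real weights bounded by `W`, collected along the product of the shifted variables -/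
theorem hh (S : Finset (ℕ × ℕ × ℕ)) (u : ℕ × ℕ × ℕ → ℝ) {W : ℝ} {Y : ℕ}
    (hu : ∀ s ∈ S, |u s| ≤ W) (hY : ∀ s ∈ S, (s.1 + 2) * (s.2.1 + 2) * (s.2.2 + 2) ≤ Y)
    (T : Finset ℕ) :
    ∑ n ∈ T, (∑ s ∈ S with (s.1 + 2) * (s.2.1 + 2) * (s.2.2 + 2) = n, u s) ^ 2 ≤
      W ^ 2 * (Y * (1 + Real.log Y) ^ 8) := by
  have h := hhC S (fun s => (u s : ℂ)) (fun s hs => by rw [Complex.norm_real]; exact hu s hs) hY T
  simpa only [← Complex.ofReal_sum, Complex.norm_real, Real.norm_eq_abs, sq_abs] using h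

theorem log_floor_exp {t : ℝ} (ht : 0 ≤ t) :
    t - 1 ≤ Real.log (⌊Real.exp t⌋₊ : ℕ) ∧ ((⌊Real.exp t⌋₊ : ℕ) : ℝ) ≤ Real.exp t := by
  have h1 : 1 ≤ Real.exp t := Real.one_le_exp ht
  have h2 : (1 : ℝ) ≤ (⌊Real.exp t⌋₊ : ℕ) := by exact_mod_cast Nat.le_floor (by simpa using h1)
  have h3 := Nat.lt_floor_add_one (Real.exp t)
  refine ⟨?_, Nat.floor_le (by linarith)⟩
  rw [Real.le_log_iff_exp_le (by linarith), Real.exp_sub, div_le_iff₀ (Real.exp_pos 1)]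
  have := Real.add_one_le_exp 1
  nlinarith

theorem le_of_le_log {t : ℝ} {n : ℕ} (ht : 0 < t) (h : t ≤ Real.log n) : Real.exp t ≤ n := by
  rcases Nat.eq_zero_or_pos n with rfl | hn
  · simp at h; linarith
  · exact (Real.le_log_iff_exp_le (by exact_mod_cast hn)).1 h

/-- sizes of the parameters -/
structure Par (K : ℝ) (X : ℕ) (D : Fm) : Prop where
  L : K ≤ LL X
  ka : K ≤ ka X
  eX : Real.exp (LL X) = X
  y1 : K ≤ Y1 X
  p1 : √(LL X) ≤ Real.log (P1 X)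
  p2 : √(LL X) ≤ Real.log (P2 X)
  n3 : √(LL X) ≤ Real.log (N3 X D)
  p1K : K ≤ P1 X
  p2K : K ≤ P2 X
  n3K : K ≤ N3 X D
  p1u : (P1 X : ℝ) ≤ Real.exp (LL X / H84D.ka X)
  p2u : (P2 X : ℝ) ≤ Real.exp (LL X / H84D.ka X)
  n3u : 20 * (Y1 X : ℝ) * D.Y2 * P1 X * P2 X * N3 X D ≤ X
  n3l : (X : ℝ) ≤ 20 * (Y1 X : ℝ) * D.Y2 * P1 X * P2 X * (N3 X D + 1)

theorem lg_par (K : ℝ) : ∀ᶠ X : ℕ in atTop, ∀ D : Fm, 0 < D.Y2 → (D.Y2 : ℝ) ≤ EE X (1 / 8) →
    Par K X D := by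
  filter_upwards [par_nat (eventually_ge_atTop (|K| + 200)), par_nat (par_const_log (10 * (|K| + 10))),
    par_nat (par_const_rpow (|K| + 1) (show (0 : ℝ) < 3 / 20 by norm_num)),
    par_nat (par_const_rpow (|K| + 1) (show (0 : ℝ) < 1 / 2 by norm_num)),
    par_nat (par_rpow 10 (show (3 / 20 : ℝ) < 1 by norm_num)),
    par_nat (par_rpow 10 (show (1 / 8 : ℝ) < 1 by norm_num)),
    par_nat (par_rpow 4 (show (1 / 2 : ℝ) < 1 by norm_num)),
    par_nat (par_poly 2 0 2 (show (1 / 2 : ℝ) < 1 by norm_num)), eventually_gt_atTop 0]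
    with X h1 h2 h3 h4 h5 h6 h7 h8 X0 D d0 d1
  change |K| + 200 ≤ LL X at h1
  change 10 * (|K| + 10) ≤ Real.log (LL X) at h2
  change |K| + 1 ≤ LL X ^ (3 / 20 : ℝ) at h3
  change |K| + 1 ≤ LL X ^ (1 / 2 : ℝ) at h4
  change 10 * LL X ^ (3 / 20 : ℝ) ≤ LL X ^ (1 : ℝ) at h5
  change 10 * LL X ^ (1 / 8 : ℝ) ≤ LL X ^ (1 : ℝ) at h6
  change 4 * LL X ^ (1 / 2 : ℝ) ≤ LL X ^ (1 : ℝ) at h7
  change 2 * LL X ^ (1 / 2 : ℝ) * Real.log (LL X) ^ 0 ≤ LL X ^ (1 : ℝ) / Real.log (LL X) ^ 2 at h8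
  rw [Real.rpow_one] at h5 h6 h7 h8
  rw [← Real.sqrt_eq_rpow] at h4 h7 h8
  have K0 := abs_nonneg K
  have K1 := le_abs_self K
  have eX : Real.exp (LL X) = X := Real.exp_log (by exact_mod_cast X0)
  have k1 : |K| + 10 ≤ ka X := by unfold H84D.ka; linarith
  have L0 : 0 < LL X := by linarith
  have k0 : 0 < ka X := by linarith
  have a1 : LL X / ka X ^ 2 ≤ LL X / ka X :=
    div_le_div_of_nonneg_left L0.le k0 (by nlinarith)
  have a2 : LL X / ka X ≤ LL X / 10 := div_le_div_of_nonneg_left L0.le (by norm_num) (by linarith)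
  have a3 : 2 * √(LL X) ≤ LL X / ka X ^ 2 := by
    rw [pow_zero, mul_one] at h8
    refine h8.trans (div_le_div_of_nonneg_left L0.le (by positivity) ?_)
    have : ka X ≤ Real.log (LL X) := by unfold H84D.ka; linarith
    exact pow_le_pow_left₀ k0.le this 2
  obtain ⟨b1, b2⟩ := log_floor_exp (t := LL X / ka X) (by positivity)
  obtain ⟨b3, b4⟩ := log_floor_exp (t := LL X / ka X ^ 2) (by positivity)
  obtain ⟨b5, b6⟩ := log_floor_exp (t := LL X ^ (3 / 20 : ℝ)) (by positivity)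
  obtain ⟨b7, b8⟩ := log_floor_exp (t := LL X / 2) (by positivity)
  change _ ≤ Real.log (P1 X) at b1
  change (P1 X : ℝ) ≤ _ at b2
  change _ ≤ Real.log (P2 X) at b3
  change (P2 X : ℝ) ≤ _ at b4
  change _ ≤ Real.log (Y1 X) at b5
  change (Y1 X : ℝ) ≤ _ at b6
  have big : ∀ n : ℕ, |K| ≤ Real.log n → K ≤ n := fun n hn =>
    K1.trans (hn.trans (Real.log_le_self n.cast_nonneg))
  have p1 : √(LL X) ≤ Real.log (P1 X) := by linarith
  have p2 : √(LL X) ≤ Real.log (P2 X) := by linarith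
  have s0 : 0 < √(LL X) := by linarith
  have q1 : 0 < P1 X := by exact_mod_cast (Real.exp_pos _).trans_le (le_of_le_log s0 p1)
  have q2 : 0 < P2 X := by exact_mod_cast (Real.exp_pos _).trans_le (le_of_le_log s0 p2)
  have q3 : 0 < Y1 X := Nat.floor_pos.2 (Real.one_le_exp (by positivity))
  have M0 : 0 < 20 * Y1 X * D.Y2 * P1 X * P2 X := by positivity
  have e10 : ∀ t : ℝ, t ≤ LL X / 10 → Real.exp t ≤ Real.exp (LL X / 10) := fun t => Real.exp_le_exp.2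
  have m : 20 * (Y1 X : ℝ) * D.Y2 * P1 X * P2 X ≤ Real.exp (LL X / 2) := by
    have c1 : (20 : ℝ) ≤ Real.exp (LL X / 10) := by linarith [Real.add_one_le_exp (LL X / 10)]
    have c2 := b6.trans (e10 _ (by linarith))
    have c3 : (D.Y2 : ℝ) ≤ Real.exp (LL X / 10) := d1.trans (e10 _ (by linarith))
    have c4 := b2.trans (e10 _ a2)
    have c5 := b4.trans (e10 _ (a1.trans a2))
    calc _ ≤ Real.exp (LL X / 10) * Real.exp (LL X / 10) * Real.exp (LL X / 10) *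
          Real.exp (LL X / 10) * Real.exp (LL X / 10) := by gcongr
      _ = _ := by simp only [← Real.exp_add]; congr 1; ring
  have n1 : ⌊Real.exp (LL X / 2)⌋₊ ≤ N3 X D := by
    refine (Nat.le_div_iff_mul_le M0).2 ?_
    have : ((⌊Real.exp (LL X / 2)⌋₊ : ℕ) : ℝ) * (20 * (Y1 X : ℝ) * D.Y2 * P1 X * P2 X) ≤ X := by
      calc _ ≤ Real.exp (LL X / 2) * Real.exp (LL X / 2) := by gcongr
        _ = X := by rw [← Real.exp_add, add_halves, eX]
    exact_mod_cast this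
  have n2 : √(LL X) ≤ Real.log (N3 X D) := by
    have : (0 : ℝ) < (⌊Real.exp (LL X / 2)⌋₊ : ℕ) := by
      exact_mod_cast Nat.floor_pos.2 (Real.one_le_exp (by positivity))
    have := Real.log_le_log this (show _ ≤ (N3 X D : ℝ) by exact_mod_cast n1)
    linarith
  refine ⟨by linarith, by linarith, eX, big _ (by linarith), p1, p2, n2, big _ (by linarith),
    big _ (by linarith), big _ (by linarith), b2, b4.trans (Real.exp_le_exp.2 a1), ?_, ?_⟩
  · exact_mod_cast Nat.mul_div_le X (20 * Y1 X * D.Y2 * P1 X * P2 X)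
  · exact_mod_cast (Nat.lt_mul_div_succ X M0).le

theorem mem_PP {a b p : ℕ} (h : p ∈ PP a b) : a < p ∧ p ≤ b ∧ p.Prime := by
  simp only [PP, mem_filter, mem_Ioc] at h
  exact ⟨h.1.1, h.1.2, h.2⟩

theorem Par.n4 {c X : ℕ} {D : Fm} {K : ℝ} (h : Par K X D) (hK : 10 ^ 9 * (c + 1 : ℝ) ≤ K)
    (d0 : 0 < D.Y2) : (32 * P1 X * P2 X * N4 c X D : ℝ) * (Y1 X * D.Y2) ≤ 32000 * c * X ∧
      3 * (32 * P1 X * P2 X * N4 c X D : ℝ) ≤ X := by
  have c0 : (0 : ℝ) ≤ c := c.cast_nonneg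
  have e : (N4 c X D : ℝ) = 20000 * c * N3 X D := by simp [N4]
  have a : (32 * P1 X * P2 X * N4 c X D : ℝ) * (Y1 X * D.Y2) ≤ 32000 * c * X := by
    have := mul_le_mul_of_nonneg_left h.n3u (show 0 ≤ 32000 * (c : ℝ) by positivity)
    rw [e]; linarith
  refine ⟨a, ?_⟩
  have d1 : (1 : ℝ) ≤ D.Y2 := by exact_mod_cast d0
  have y := hK.trans h.y1
  have y2 : 96000 * (c + 1 : ℝ) ≤ Y1 X * D.Y2 := by nlinarith
  have z : (0 : ℝ) ≤ 32 * P1 X * P2 X * N4 c X D := by positivity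
  have := mul_le_mul_of_nonneg_left y2 z
  have x0 : (0 : ℝ) ≤ X := X.cast_nonneg
  refine le_of_mul_le_mul_right (a := 32000 * (c + 1 : ℝ)) ?_ (by positivity)
  nlinarith

theorem Par.log_le {X : ℕ} {D : Fm} {K : ℝ} (h : Par K X D) (hK : 1 ≤ K) {P p : ℕ}
    (hP : (P : ℝ) ≤ Real.exp (LL X / H84D.ka X)) (p0 : 0 < p) (hp : p ≤ 2 * P) :
    Real.log p ≤ 2 * LL X / H84D.ka X := by
  have s1 : 1 ≤ √(LL X) := Real.one_le_sqrt.2 (hK.trans h.L)
  have s2 : Real.log (P1 X) ≤ LL X / H84D.ka X :=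
    (Real.log_le_iff_le_exp (by linarith [h.p1K])).2 h.p1u
  have s3 : (p : ℝ) ≤ 2 * P := by exact_mod_cast hp
  have s4 := Real.add_one_le_exp (LL X / H84D.ka X)
  rw [Real.log_le_iff_le_exp (by exact_mod_cast p0), mul_div_assoc, two_mul, Real.exp_add]
  have := h.p1
  nlinarith [Real.exp_pos (LL X / H84D.ka X)]

end Pool.Agent.H84D.Lg

namespace Pool.Agent.H84D

open Finset Filter Lg

theorem hh3_sq (c B a₀ : ℕ) : ∀ᶠ X : ℕ in atTop, ∀ D : Fm, Fam c B a₀ X D → ∀ I : Finset ℕ,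
    (∑ n ∈ I, hh3 c X D n ^ 2) * (Y1 X * D.Y2) ≤ LL X ^ 14 * X := by
  filter_upwards [lg_par (10 ^ 9 * (c + 1 : ℝ))] with X hX D hD I
  have h := hX D hD.ypos hD.yle
  obtain ⟨n1, n2⟩ := h.n4 le_rfl hD.ypos
  have c0 : (0 : ℝ) ≤ c := c.cast_nonneg
  have K1 : 1 ≤ 10 ^ 9 * (c + 1 : ℝ) := by linarith
  have L1 := K1.trans h.L
  have k1 := K1.trans h.ka
  have q1 := K1.trans h.p1K
  have q2 := K1.trans h.p2K
  have r1 : 1 ≤ P1 X := by exact_mod_cast q1
  have r2 : 1 ≤ P2 X := by exact_mod_cast q2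
  have x0 : (0 : ℝ) < X := h.eX ▸ Real.exp_pos _
  have n4 : (N4 c X D : ℝ) ≤ X := by
    have : (1 : ℝ) * N4 c X D ≤ P1 X * P2 X * N4 c X D :=
      mul_le_mul_of_nonneg_right (by nlinarith) (Nat.cast_nonneg _)
    linarith [(Nat.cast_nonneg (N4 c X D) : (0 : ℝ) ≤ _)]
  have key := hh (PP (P1 X) (2 * P1 X) ×ˢ PP (P2 X) (2 * P2 X) ×ˢ PP (N3 X D) (N4 c X D))
    (fun s => Real.log s.1 / P1 X * (Real.log s.2.1 / P2 X) *
      (((s.1 + 2) * (s.2.1 + 2) : ℕ) * Real.log s.2.2))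
    (W := 64 * LL X ^ 3 / ka X ^ 2) (Y := 32 * P1 X * P2 X * N4 c X D) (fun s hs => ?_)
    (fun s hs => ?_) I
  · have l : 1 + Real.log (32 * P1 X * P2 X * N4 c X D : ℕ) ≤ LL X := by
      rcases Nat.eq_zero_or_pos (32 * P1 X * P2 X * N4 c X D) with z | z
      · rw [z]; simpa using L1
      · have z1 : (0 : ℝ) < (32 * P1 X * P2 X * N4 c X D : ℕ) := by exact_mod_cast z
        rw [← le_sub_iff_add_le', Real.log_le_iff_le_exp z1, Real.exp_sub, h.eX,
          le_div_iff₀ (Real.exp_pos 1)]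
        have := Real.exp_one_lt_three
        push_cast at z1 ⊢
        nlinarith
    have l0 : 0 ≤ 1 + Real.log (32 * P1 X * P2 X * N4 c X D : ℕ) := by
      linarith [Real.log_natCast_nonneg (32 * P1 X * P2 X * N4 c X D)]
    have e2 : ∑ n ∈ I, hh3 c X D n ^ 2 ≤ (64 * LL X ^ 3 / ka X ^ 2) ^ 2 *
        ((32 * P1 X * P2 X * N4 c X D : ℕ) * LL X ^ 8) := by
      refine le_trans (le_of_eq ?_) (key.trans ?_)
      · refine sum_congr rfl fun n _ => ?_
        rw [sum_filter, sum_product]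
        simp only [sum_product, hh3]
      · gcongr
    have k4 : 10 ^ 9 * (c + 1 : ℝ) ≤ ka X ^ 4 := h.ka.trans (le_self_pow₀ k1 (by norm_num))
    calc _ ≤ (64 * LL X ^ 3 / ka X ^ 2) ^ 2 * ((32 * P1 X * P2 X * N4 c X D : ℕ) * LL X ^ 8) *
          (Y1 X * D.Y2) := by gcongr
      _ = 4096 * LL X ^ 14 / ka X ^ 4 * ((32 * P1 X * P2 X * N4 c X D : ℝ) * (Y1 X * D.Y2)) := by
          push_cast; field_simp; ring
      _ ≤ 4096 * LL X ^ 14 / ka X ^ 4 * (32000 * c * X) := by gcongr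
      _ = LL X ^ 14 * X * (4096 * 32000 * c / ka X ^ 4) := by ring
      _ ≤ LL X ^ 14 * X * 1 := by
          gcongr
          rw [div_le_one (by positivity)]
          linarith
      _ = _ := mul_one _
  · obtain ⟨s1, s23⟩ := mem_product.1 hs
    obtain ⟨s2, s3⟩ := mem_product.1 s23
    obtain ⟨-, a2, a3⟩ := mem_PP s1
    obtain ⟨-, b2, b3⟩ := mem_PP s2
    obtain ⟨-, c2, c3⟩ := mem_PP s3
    have l1 := h.log_le K1 h.p1u a3.pos a2
    have l2 := h.log_le K1 h.p2u b3.pos b2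
    have l3 : Real.log s.2.2 ≤ LL X :=
      Real.log_le_log (by exact_mod_cast c3.pos) (le_trans (by exact_mod_cast c2) n4)
    have m : (((s.1 + 2) * (s.2.1 + 2) : ℕ) : ℝ) ≤ 16 * P1 X * P2 X := by
      exact_mod_cast (Nat.mul_le_mul (by omega : s.1 + 2 ≤ 4 * P1 X)
        (by omega : s.2.1 + 2 ≤ 4 * P2 X)).trans_eq (by ring)
    have z1 := Real.log_natCast_nonneg s.1
    have z2 := Real.log_natCast_nonneg s.2.1
    have z3 := Real.log_natCast_nonneg s.2.2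
    rw [abs_of_nonneg (by positivity)]
    calc _ ≤ 2 * LL X / ka X / P1 X * (2 * LL X / ka X / P2 X) * (16 * P1 X * P2 X * LL X) := by
          gcongr
      _ = _ := by field_simp; ring
  · obtain ⟨s1, s23⟩ := mem_product.1 hs
    obtain ⟨s2, s3⟩ := mem_product.1 s23
    obtain ⟨-, a2, -⟩ := mem_PP s1
    obtain ⟨-, b2, -⟩ := mem_PP s2
    obtain ⟨-, c2, c3⟩ := mem_PP s3
    have := c3.two_le
    exact (Nat.mul_le_mul (Nat.mul_le_mul (by omega : s.1 + 2 ≤ 4 * P1 X)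
      (by omega : s.2.1 + 2 ≤ 4 * P2 X)) (by omega : s.2.2 + 2 ≤ 2 * N4 c X D)).trans_eq (by ring)

end Pool.Agent.H84D
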