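import Pool.Agent.MP_e4c747_an.Exp

set_option autoImplicit false

open Finset Complex
open scoped Real ComplexConjugate

namespace H84D.Vdc

open Pool.Agent.MP_e4c747_an (kusmin_landau weyl_diff)

/-- `e(x)` -/
noncomputable def zE (x : ℝ) : ℂ := exp (2 * (π * x : ℝ) * I)

theorem zE_norm (x : ℝ) : ‖zE x‖ = 1 := by
  unfold zE
  rw [show (2 * (π * x : ℝ) * I : ℂ) = ((2 * (π * x) : ℝ) : ℂ) * I by push_cast; ring]
  exact norm_exp_ofReal_mul_I _

theorem zE_add (x y : ℝ) : zE (x + y) = zE x * zE y := by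
  unfold zE; rw [← exp_add]; congr 1; push_cast; ring

theorem zE_conj (x : ℝ) : conj (zE x) = zE (-x) := by
  unfold zE; rw [← exp_conj]; congr 1
  simp only [map_mul, conj_ofReal, conj_I, map_ofNat]; push_cast; ring

/-- mean value theorem and monotonicity for a difference -/
theorem z_diff (f g : ℝ → ℝ) (hd : ∀ x, 0 < x → HasDerivAt f (g x) x)
    (ha : AntitoneOn g (Set.Ioi 0)) {h : ℝ} (hh : 0 < h) :
    (∀ x, 0 < x → h * g (x + h) ≤ f (x + h) - f x ∧ f (x + h) - f x ≤ h * g x) ∧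
      AntitoneOn (fun x => f (x + h) - f x) (Set.Ioi 0) := by
  constructor
  · intro x hx
    obtain ⟨c, hc, h1⟩ := exists_hasDerivAt_eq_slope f g (by linarith : x < x + h)
      (fun y hy => (hd y (by linarith [hy.1])).continuousAt.continuousWithinAt)
      (fun y hy => hd y (by linarith [hy.1]))
    have hc0 : 0 < c := by linarith [hc.1]
    have h2 : f (x + h) - f x = h * g c := by
      rw [h1, add_sub_cancel_left]; field_simp
    rw [h2]
    exact ⟨mul_le_mul_of_nonneg_left (ha hc0 (by show 0 < x + h; linarith) hc.2.le) hh.le,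
      mul_le_mul_of_nonneg_left (ha hx hc0 hc.1.le) hh.le⟩
  · have hD : ∀ x, 0 < x → HasDerivAt (fun x => f (x + h) - f x) (g (x + h) - g x) x :=
      fun x hx => ((hd (x + h) (by linarith)).comp_add_const x h).sub (hd x hx)
    refine antitoneOn_of_deriv_nonpos (convex_Ioi 0)
      (fun x hx => (hD x hx).continuousAt.continuousWithinAt)
      (fun x hx => (hD x (by simpa using hx)).differentiableAt.differentiableWithinAt) ?_
    intro x hx
    have hx : 0 < x := by simpa using hx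
    rw [(hD x hx).deriv]
    linarith [ha hx (by show 0 < x + h; linarith) (by linarith : x ≤ x + h)]

/-- first derivative test -/
theorem z_kl (f g : ℝ → ℝ) (hd : ∀ x, 0 < x → HasDerivAt f (g x) x)
    (ha : AntitoneOn g (Set.Ioi 0)) {b : ℝ} (hb : 0 < b) (n : ℕ) (h0 : 0 < g (b + n + 2))
    (h1 : g b ≤ 1 / 2) : ‖∑ j ∈ range n, zE (f (b + 2 + j))‖ ≤ 2 / g (b + n + 2) := by
  obtain ⟨h2, h3⟩ := z_diff f g hd ha one_pos
  have hn : (0 : ℝ) ≤ n := n.cast_nonneg
  have key := kusmin_landau (fun j => zE (-f (b + n + 1 - j)))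
    (fun j => f (b + n - j + 1) - f (b + n - j)) n h0 (fun j => zE_norm _) ?_ ?_ ?_ ?_
  · refine le_trans (le_of_eq ?_) key
    rw [← norm_conj, map_sum, ← sum_range_reflect]
    congr 1
    refine sum_congr rfl fun j hj => ?_
    have hj := mem_range.1 hj
    rw [zE_conj, show ((n - 1 - j : ℕ) : ℝ) = n - 1 - j by
      rw [Nat.cast_sub (by omega), Nat.cast_sub (by omega)]; simp]
    congr 3; ring
  · intro j _
    show zE _ = zE _ * zE _
    rw [← zE_add]; congr 1; push_cast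
    rw [show b + n + 1 - (j + 1 : ℝ) = b + n - j by ring,
      show b + n + 1 - (j : ℝ) = b + n - j + 1 by ring]; ring
  · have := (h2 (b + n) (by linarith)).1
    have h4 := ha (show 0 < b + n + 1 by linarith) (show 0 < b + n + 2 by linarith) (by linarith)
    simp only [Nat.cast_zero, sub_zero]; linarith
  · intro j hj
    have hj : (j : ℝ) + 1 ≤ n := by exact_mod_cast hj
    push_cast
    exact h3 (show 0 < b + n - (j + 1 : ℝ) by linarith) (show 0 < b + n - (j : ℝ) by linarith)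
      (by linarith)
  · intro j hj
    have hj : (j : ℝ) ≤ n := by exact_mod_cast hj
    have := (h2 (b + n - j) (by linarith)).2
    have h4 := ha hb (show 0 < b + n - (j : ℝ) by linarith) (by linarith)
    linarith

/-- `k`-th derivative test on a short block -/
theorem z_vdc (H : ℕ) {η : ℝ} (hη : 1 ≤ η * H) {b : ℝ} (hb : 0 < b) (k : ℕ) :
    ∀ (ω : ℝ) (F : ℕ → ℝ → ℝ) (n : ℕ), 0 < ω → ω ≤ 1 → η ≤ ω ^ 2 ^ k →
      (∀ i x, 0 < x → HasDerivAt (F i) (F (i + 1) x) x) →
      AntitoneOn (F (k + 1)) (Set.Ioi 0) → n ≤ H →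
      2 ≤ F (k + 1) (b + n + 2) * (η * H) ^ (k + 1) → F (k + 1) b * H ^ k ≤ 1 / 2 →
      ‖∑ j ∈ range n, zE (F 0 (b + 2 + j))‖ ≤ 5 * H * ω := by
  have hH0 : (0 : ℝ) ≤ H := H.cast_nonneg
  have hη0 : 0 < η := by
    by_contra h; nlinarith [mul_nonneg (neg_nonneg.2 (not_lt.1 h)) hH0]
  induction k with
  | zero =>
    intro ω F n h0 _ h2 hd ha _ h4 h5
    simp only [zero_add, pow_zero, pow_one, mul_one] at h2 h4 h5 ha
    have h6 : 0 < F 1 (b + n + 2) := by
      by_contra h; nlinarith [mul_nonneg (neg_nonneg.2 (not_lt.1 h)) (by linarith : 0 ≤ η * H)]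
    refine (z_kl (F 0) (F 1) (hd 0) ha hb n h6 h5).trans ?_
    rw [div_le_iff₀ h6]
    have : η * H ≤ 5 * H * ω := by nlinarith
    nlinarith
  | succ k ih =>
    intro ω F n h0 h1 h2 hd ha hn h4 h5
    have hn0 : (0 : ℝ) ≤ n := n.cast_nonneg
    have hω : η ≤ ω ^ 2 := h2.trans (pow_le_pow_of_le_one h0.le h1
      (by rw [pow_succ]; nlinarith [Nat.one_le_two_pow (n := k)]))
    have hp : 0 < (η * H) ^ (k + 1) := pow_pos (by linarith) _
    have h6 : 0 < F (k + 1 + 1) (b + n + 2) := by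
      by_contra h
      nlinarith [mul_nonneg (neg_nonneg.2 (not_lt.1 h)) (pow_pos (by linarith : 0 < η * H) (k + 1 + 1)).le]
    have h7 : 0 < F (k + 1 + 1) b := h6.trans_le (ha hb (show 0 < b + n + 2 by linarith) (by linarith))
    have hw := weyl_diff (fun j => zE (F 0 (b + 2 + j))) (fun _ => zE_norm _) hn
    have hT : ∀ h ∈ range H, ‖∑ i ∈ range (n - (h + 1)),
        zE (F 0 (b + 2 + ((i + (h + 1) : ℕ) : ℝ))) * conj (zE (F 0 (b + 2 + i)))‖ ≤
          5 * H * ω ^ 2 + if (h + 1 : ℝ) < η * H then (H : ℝ) else 0 := by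
      intro h hh
      have hh : (h + 1 : ℝ) ≤ H := by exact_mod_cast mem_range.1 hh
      have hh0 : (0 : ℝ) < h + 1 := by positivity
      have h8 : 0 ≤ 5 * H * ω ^ 2 := by positivity
      split_ifs with hc
      · refine (norm_sum_le _ _).trans ?_
        simp only [norm_mul, norm_conj, zE_norm, mul_one, sum_const, card_range, nsmul_eq_mul]
        have : ((n - (h + 1) : ℕ) : ℝ) ≤ H := by exact_mod_cast (by omega : n - (h + 1) ≤ H)
        linarith
      rcases le_or_gt n (h + 1) with hle | hlt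
      · rw [Nat.sub_eq_zero_of_le hle]; simpa using h8
      have hc := not_lt.1 hc
      obtain ⟨h9, h10⟩ := z_diff (F (k + 1)) (F (k + 1 + 1)) (hd _) ha hh0
      have hcast : ((n - (h + 1) : ℕ) : ℝ) = n - (h + 1) := by
        rw [Nat.cast_sub hlt.le]; push_cast; ring
      have hlt' : (h + 1 : ℝ) ≤ n := by exact_mod_cast hlt.le
      have := ih (ω ^ 2) (fun i x => F i (x + (h + 1)) - F i x) (n - (h + 1)) (by positivity)
        (pow_le_one₀ h0.le h1) (by rw [← pow_mul, ← pow_succ']; exact h2)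
        (fun i x hx => ((hd i (x + (h + 1)) (by linarith)).comp_add_const x _).sub (hd i x hx))
        h10 (by omega) ?_ ?_
      · rw [add_zero]
        refine le_trans (le_of_eq ?_) this
        congr 1
        refine sum_congr rfl fun i _ => ?_
        rw [zE_conj, ← zE_add]; congr 1; push_cast
        rw [show b + 2 + (i + (h + 1) : ℝ) = b + 2 + i + (h + 1) by ring]; ring
      · have h11 := (h9 (b + (n - (h + 1) : ℕ) + 2) (by rw [hcast]; linarith)).1
        rw [show b + (n - (h + 1) : ℕ) + 2 + (h + 1 : ℝ) = b + n + 2 by rw [hcast]; ring] at h11 ⊢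
        refine h4.trans ?_
        rw [pow_succ, mul_comm _ (η * H), ← mul_assoc]
        refine mul_le_mul_of_nonneg_right ?_ hp.le
        nlinarith
      · have h11 := (h9 b hb).2
        refine le_trans ?_ h5
        rw [pow_succ, mul_comm _ (H : ℝ), ← mul_assoc]
        refine mul_le_mul_of_nonneg_right ?_ (by positivity)
        nlinarith
    have hS := sum_le_sum hT
    rw [sum_add_distrib, sum_const, card_range, nsmul_eq_mul, ← sum_filter, sum_const,
      nsmul_eq_mul] at hS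
    have hc : (#((range H).filter fun h : ℕ => (h + 1 : ℝ) < η * H) : ℝ) ≤ η * H := by
      refine le_trans ?_ (Nat.floor_le (by linarith : 0 ≤ η * H))
      rw [Nat.cast_le, ← card_range ⌊η * H⌋₊]
      refine card_le_card fun h hh => mem_range.2 ?_
      exact Nat.lt_of_succ_le (Nat.le_floor (by push_cast; exact (mem_filter.1 hh).2.le))
    refine le_of_sq_le_sq ?_ (by positivity)
    have h12 : (H : ℝ) ≤ η * H * H := by nlinarith
    have h13 : η * H * H ≤ ω ^ 2 * H * H := by gcongr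
    have h14 := mul_le_mul_of_nonneg_right hc hH0
    have h15 : 0 ≤ ω ^ 2 * H * H := by positivity
    nlinarith

theorem z_blocks (z : ℕ → ℂ) {H : ℕ} (hH : 0 < H) {B : ℝ} (hB : 0 ≤ B) (L : ℕ)
    (h : ∀ m n, n ≤ H → m + n ≤ L → ‖∑ j ∈ range n, z (m + j)‖ ≤ B) :
    ‖∑ j ∈ range L, z j‖ ≤ (L / H + 1) * B := by
  induction L using Nat.strong_induction_on with
  | _ L ih =>
    have hH' : (0 : ℝ) < H := by exact_mod_cast hH
    rcases le_or_gt L H with hle | hlt
    · have := h 0 L hle (by omega)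
      simp only [zero_add] at this
      have h1 : 0 ≤ (L / H : ℝ) * B := by positivity
      linarith
    · obtain ⟨m, rfl⟩ : ∃ m, L = m + H := ⟨L - H, by omega⟩
      rw [sum_range_add]
      refine (norm_add_le _ _).trans ?_
      have h1 := ih m (by omega) fun a n hn ha => h a n hn (by omega)
      have h2 := h m H le_rfl le_rfl
      rw [show (((m + H : ℕ) : ℝ) / H + 1) * B = (m / H + 1) * B + B by push_cast; field_simp]
      linarith

/-- derivatives of `c log x` -/
noncomputable def zF (c : ℝ) : ℕ → ℝ → ℝ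
  | 0, x => c * Real.log x
  | i + 1, x => c * (-1) ^ i * i.factorial / x ^ (i + 1)

theorem zF_deriv (c : ℝ) (i : ℕ) (x : ℝ) (hx : 0 < x) :
    HasDerivAt (zF c i) (zF c (i + 1) x) x := by
  cases i with
  | zero =>
    exact ((Real.hasDerivAt_log hx.ne').const_mul c).congr_deriv (by simp [zF, div_eq_mul_inv])
  | succ i =>
    have := ((hasDerivAt_pow (i + 1) x).inv (pow_pos hx _).ne').const_mul
      (c * (-1) ^ i * i.factorial)
    refine HasDerivAt.congr_deriv (f := zF c (i + 1)) (this.congr_of_eventuallyEq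
      (Filter.Eventually.of_forall fun t => by simp [zF, div_eq_mul_inv])) ?_
    simp only [zF, Nat.factorial_succ, Nat.add_sub_cancel]
    push_cast; field_simp; ring

theorem zF_anti {c : ℝ} (hc : 0 ≤ c) {i : ℕ} (hi : Even i) :
    AntitoneOn (zF c (i + 1)) (Set.Ioi 0) := by
  intro x hx y _ hxy
  have hx : 0 < x := hx
  simp only [zF, hi.neg_one_pow]
  gcongr

theorem z_tail {y s : ℝ} (hy : 64 ≤ y) (h1 : 1 ≤ s) (h2 : s ≤ y ^ 700) {b : ℝ} (hb : y ^ 99 ≤ b)
    (L : ℕ) (hL : b + L + 2 ≤ 2 * y ^ 100) {ω : ℝ} (h0 : 0 < ω) (hω : ω ≤ 1)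
    (hω2 : 1 / y ≤ ω ^ 256) :
    ‖∑ j ∈ range L, zE (zF (s / (2 * π)) 0 (b + 2 + j))‖ ≤
      32 * y ^ 100 / s + 30 * y ^ 100 * ω := by
  have hy1 : 1 ≤ y := by linarith
  have hy0 : 0 < y := by linarith
  have hb0 : 0 < b := (pow_pos hy0 _).trans_le hb
  have hπ := Real.pi_gt_three
  have hπ4 := Real.pi_le_four
  have hc : 0 < s / (2 * π) := by positivity
  have hL0 : (0 : ℝ) ≤ L := L.cast_nonneg
  rcases le_total s (y ^ 9) with hs | hs
  · have hg : ∀ x, zF (s / (2 * π)) (0 + 1) x = s / (2 * π * x) := fun x => by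
      simp [zF, div_div]
    have := z_kl _ _ (zF_deriv (s / (2 * π)) 0) (zF_anti hc.le Even.zero) hb0 L
      (by rw [hg]; positivity) (by
        rw [hg, div_le_iff₀ (by positivity)]
        have : y ^ 9 ≤ y ^ 99 := pow_le_pow_right₀ hy1 (by norm_num)
        nlinarith)
    rw [hg, div_div_eq_mul_div] at this
    refine this.trans (le_add_of_le_of_nonneg ?_ (by positivity))
    exact div_le_div_of_nonneg_right (by nlinarith) (by linarith)
  · obtain ⟨r, hr0, rfl⟩ : ∃ r : ℝ, 0 < r ∧ s = r ^ 9 :=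
      ⟨s ^ ((9 : ℕ) : ℝ)⁻¹, by positivity, (Real.rpow_inv_natCast_pow (by linarith) (by norm_num)).symm⟩
    have hr1 : y ≤ r := le_of_pow_le_pow_left₀ (by norm_num) hr0.le hs
    have hr2 : r ≤ y ^ 78 := le_of_pow_le_pow_left₀ (n := 9) (by norm_num) (by positivity)
      (h2.trans (by rw [← pow_mul]; exact pow_le_pow_right₀ hy1 (by norm_num)))
    set H := ⌈2 * y ^ 101 / r⌉₊ with hH
    have hH1 : 2 * y ^ 101 / r ≤ H := Nat.le_ceil _
    have hq : y ≤ y ^ 101 / r := by
      rw [le_div_iff₀ hr0]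
      calc y * r ≤ y * y ^ 78 := by gcongr
        _ = y ^ 79 := by ring
        _ ≤ y ^ 101 := pow_le_pow_right₀ hy1 (by norm_num)
    have hH2 : (H : ℝ) ≤ 3 * y ^ 101 / r := by
      have := (Nat.ceil_lt_add_one (by positivity : 0 ≤ 2 * y ^ 101 / r)).le
      rw [mul_div_assoc] at this ⊢
      rw [hH, mul_div_assoc]; linarith
    have hH3 : y ≤ H := by rw [mul_div_assoc] at hH1; linarith
    have hH4 : (H : ℝ) ≤ 3 * y ^ 100 := hH2.trans (by
      rw [div_le_iff₀ hr0, pow_succ]; nlinarith [pow_pos hy0 100])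
    have hHp : (0 : ℝ) < H := by linarith
    have hg : ∀ x, zF (r ^ 9 / (2 * π)) (8 + 1) x = 20160 / π * (r / x) ^ 9 := fun x => by
      simp only [zF, Nat.factorial]
      rw [div_pow]; push_cast; field_simp; ring
    have hA1 : 2 ≤ 20160 / π := by rw [le_div_iff₀ (by linarith)]; linarith
    have hA2 : 20160 / π ≤ 6720 := by rw [div_le_iff₀ (by linarith)]; linarith
    have := z_blocks (fun j => zE (zF (r ^ 9 / (2 * π)) 0 (b + 2 + j))) (H := H)
      (by exact_mod_cast hHp) (B := 5 * H * ω) (by positivity) L ?_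
    · refine this.trans (le_add_of_nonneg_of_le (by positivity) ?_)
      rw [show ((L : ℝ) / H + 1) * (5 * H * ω) = 5 * (L + H) * ω by field_simp]
      exact mul_le_mul_of_nonneg_right (by linarith) h0.le
    intro m n hn hmn
    have hmn : (m : ℝ) + n ≤ L := by exact_mod_cast hmn
    have hm0 : (0 : ℝ) ≤ m := m.cast_nonneg
    have hn0 : (0 : ℝ) ≤ n := n.cast_nonneg
    have := z_vdc H (η := 1 / y) (by rw [one_div_mul_eq_div, le_div_iff₀ hy0]; linarith)
      (b := b + m) (by linarith) 8 ω (zF (r ^ 9 / (2 * π))) n h0 hω (by norm_num at hω2 ⊢; exact hω2)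
      (zF_deriv _) (zF_anti hc.le (by decide)) hn ?_ ?_
    · refine le_trans (le_of_eq ?_) this
      congr 1
      refine sum_congr rfl fun j _ => ?_
      push_cast; congr 2; ring
    · rw [hg, mul_assoc, ← mul_pow]
      have h3 : 1 ≤ r / (b + m + n + 2) * (1 / y * H) := by
        rw [div_le_iff₀ hr0] at hH1
        rw [div_mul_eq_mul_div, le_div_iff₀ (by linarith), one_div_mul_eq_div, ← mul_div_assoc,
          le_div_iff₀ hy0]
        rw [pow_succ] at hH1
        nlinarith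
      nlinarith [one_le_pow₀ (n := 8 + 1) h3]
    · rw [hg]
      have h3 : (r / (b + m)) ^ 9 * H ^ 8 ≤ 3 ^ 8 / y ^ 5 := by
        calc (r / (b + m)) ^ 9 * H ^ 8 ≤ (r / y ^ 99) ^ 9 * (3 * y ^ 101 / r) ^ 8 := by
              gcongr; linarith
          _ = 3 ^ 8 * r / y ^ 83 := by field_simp
          _ ≤ 3 ^ 8 * y ^ 78 / y ^ 83 := by gcongr
          _ = 3 ^ 8 / y ^ 5 := by field_simp
      have h4 : (3 : ℝ) ^ 8 / y ^ 5 ≤ 3 ^ 8 / 64 ^ 5 := by gcongr
      rw [mul_assoc]
      calc _ ≤ 6720 * (3 ^ 8 / 64 ^ 5 : ℝ) := by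
            gcongr
            exact h3.trans h4
        _ ≤ 1 / 2 := by norm_num

/-- hypothesis (Z): power saving for `∑ n^{is}` -/
theorem zeta_sum (X0 : ℝ) (hX0 : 1 ≤ X0) (X : ℕ) (hX : (X : ℝ) ≤ X0) (s : ℝ) (h1 : 1 ≤ |s|)
    (h2 : |s| ≤ X0 ^ 7) :
    ‖∑ n ∈ Icc 1 X, exp (I * s * Real.log n)‖ ≤
      32 * X0 / |s| + 64 * X0 ^ (1 - 1 / 25600 : ℝ) := by
  have hX1 : 0 < X0 := by linarith
  obtain ⟨u, hu1, rfl⟩ : ∃ u : ℝ, 1 ≤ u ∧ X0 = u ^ 25600 :=
    ⟨X0 ^ ((25600 : ℕ) : ℝ)⁻¹, Real.one_le_rpow hX0 (by positivity),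
      (Real.rpow_inv_natCast_pow hX1.le (by norm_num)).symm⟩
  have hu0 : 0 < u := by linarith
  have hp : (u ^ 25600) ^ (1 - 1 / 25600 : ℝ) = u ^ 25600 * (1 / u) := by
    rw [← Real.rpow_natCast, ← Real.rpow_mul hu0.le, mul_one_div, ← Real.rpow_sub_one hu0.ne']
    congr 1; norm_num
  rw [hp]
  have hω0 : 0 < 1 / u := by positivity
  have hω1 : 1 / u ≤ 1 := by rw [div_le_one hu0]; exact hu1
  have hω2 : 1 / u ^ 256 = (1 / u) ^ 256 := by rw [one_div_pow]
  have hy1 : 1 ≤ u ^ 256 := one_le_pow₀ hu1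
  rw [show u ^ 25600 = (u ^ 256) ^ 100 by rw [← pow_mul]] at *
  generalize u ^ 256 = y at *
  generalize 1 / u = ω at *
  have hy0 : 0 < y := by linarith
  have hω3 : y ^ 99 ≤ y ^ 100 * ω := by
    have : 1 / y ≤ ω := hω2.le.trans (pow_le_of_le_one hω0.le hω1 (by norm_num))
    calc y ^ 99 = y ^ 100 * (1 / y) := by field_simp
      _ ≤ _ := by gcongr
  have hN : ∀ n : ℕ, ‖exp (I * s * Real.log n)‖ = 1 := fun n => by
    rw [show I * s * Real.log n = ((s * Real.log n : ℝ) : ℂ) * I by push_cast; ring]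
    exact norm_exp_ofReal_mul_I _
  have htr : ∀ Y : ℕ, ‖∑ n ∈ Icc 1 Y, exp (I * s * Real.log n)‖ ≤ Y := fun Y =>
    (norm_sum_le _ _).trans (by simp only [hN]; simp)
  have h99 : 1 ≤ y ^ 99 := one_le_pow₀ hy1
  have hs0 : 0 ≤ 32 * y ^ 100 / |s| := by positivity
  rcases le_total y 64 with hy | hy
  · have : y ^ 100 ≤ 64 * y ^ 99 := by rw [pow_succ]; nlinarith
    linarith [htr X]
  set Y := ⌈y ^ 99⌉₊ with hY
  have hY1 : y ^ 99 ≤ Y := Nat.le_ceil _
  have hY2 : (Y : ℝ) ≤ y ^ 99 + 1 := (Nat.ceil_lt_add_one (by positivity)).le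
  rcases le_total X (Y + 1) with hle | hle
  · have : (X : ℝ) ≤ Y + 1 := by exact_mod_cast hle
    linarith [htr X]
  obtain ⟨L, rfl⟩ := Nat.exists_eq_add_of_le hle
  have hsp : ∑ n ∈ Icc 1 (Y + 1 + L), exp (I * s * Real.log n) =
      ∑ n ∈ Icc 1 (Y + 1), exp (I * s * Real.log n) +
        ∑ j ∈ range L, exp (I * s * Real.log (Y + 2 + j : ℕ)) := by
    clear hX hle
    induction L with
    | zero => simp
    | succ L ih =>
      rw [← add_assoc, sum_Icc_succ_top (by omega), ih, sum_range_succ, add_assoc,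
        show Y + 1 + L + 1 = Y + 2 + L by ring]
  have h100 : 1 ≤ y ^ 100 := one_le_pow₀ hy1
  have ht := z_tail hy h1 (by rwa [← pow_mul] at h2) hY1 L (by push_cast at hX; linarith) hω0 hω1
    hω2.le
  have he : ‖∑ j ∈ range L, exp (I * s * Real.log (Y + 2 + j : ℕ))‖ =
      ‖∑ j ∈ range L, zE (zF (|s| / (2 * π)) 0 (Y + 2 + j))‖ := by
    have h3 : ∀ (t : ℝ) (j : ℕ), exp (I * t * Real.log (Y + 2 + j : ℕ)) =
        zE (t / (2 * π) * Real.log (Y + 2 + j)) := fun t j => by
      unfold zE; congr 1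
      have := Real.pi_pos
      rw [show π * (t / (2 * π) * Real.log (Y + 2 + j)) = t * Real.log (Y + 2 + j) / 2 by
        field_simp]
      push_cast; ring
    simp only [h3, zF]
    rcases abs_cases s with h | h
    · rw [h.1]
    · rw [h.1, ← norm_conj, map_sum]
      simp only [zE_conj]
      congr 1
      refine sum_congr rfl fun j _ => ?_
      congr 1; ring
  rw [hsp]
  refine (norm_add_le _ _).trans ?_
  have h4 := (htr (Y + 1)).trans (Nat.cast_succ Y).le
  rw [he]
  have : 0 ≤ y ^ 100 * ω := by positivity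
  linarith

end H84D.Vdc
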