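import Pool.Agent.MP_f0209c_nt.Ch.Mvt
import Pool.Agent.H84D.Vdc

/-! Block HM: the Halasz-Montgomery inequality for polynomials on the integers up to `N`. -/

namespace Pool.Agent.H84D
open Complex Finset MeasureTheory ComplexConjugate
open Pool.Agent.MP_f0209c_nt.Ch (ee Mv gw norm_ee conj_ee ee_add gw_pos)

theorem hm_ker (N : ℕ) (hN : 1 ≤ N) {θ : ℝ} (hθ : |θ| ≤ (N : ℝ) ^ 7) :
    ‖∑ n ∈ Icc 1 N, ee θ n‖ ≤ 64 * N * (1 + |θ|)⁻¹ + 64 * (N : ℝ) ^ (1 - 1 / 25600 : ℝ) := by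
  have N1 : (1 : ℝ) ≤ N := by exact_mod_cast hN
  have a0 := abs_nonneg θ
  have p0 : 0 ≤ (N : ℝ) ^ (1 - 1 / 25600 : ℝ) := by positivity
  rcases le_total |θ| 1 with h | h
  · have h1 : ‖∑ n ∈ Icc 1 N, ee θ n‖ ≤ N :=
      (norm_sum_le _ _).trans (by simp only [norm_ee]; simp)
    have h2 : (N : ℝ) ≤ 64 * N * (1 + |θ|)⁻¹ := by
      rw [← div_eq_mul_inv, le_div_iff₀ (by linarith)]; nlinarith
    linarith
  · have h1 := H84D.Vdc.zeta_sum N N1 N le_rfl (-θ) (by rwa [abs_neg]) (by rwa [abs_neg])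
    rw [abs_neg] at h1
    have h2 : 32 * (N : ℝ) / |θ| ≤ 64 * N * (1 + |θ|)⁻¹ := by
      rw [← div_eq_mul_inv, div_le_div_iff₀ (by linarith) (by linarith)]; nlinarith
    refine le_trans (le_of_eq ?_) (h1.trans (by linarith))
    congr 1
    refine sum_congr rfl fun n _ => ?_
    rw [ee]; congr 1; push_cast; ring

theorem hm_int {M : ℝ} (hM : 0 ≤ M) (x : ℝ) :
    ∫ u in Set.Icc (x - M) (x + M), (1 + |u - x|)⁻¹ = 2 * Real.log (1 + M) := by
  have c : Continuous fun u : ℝ => (1 + |u|)⁻¹ :=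
    Continuous.inv₀ (by fun_prop) fun u => by positivity
  have h1 : ∫ u in (0 : ℝ)..M, (1 + |u|)⁻¹ = Real.log (1 + M) := by
    rw [intervalIntegral.integral_congr (g := fun u => (1 + u)⁻¹) fun u hu => by
      rw [Set.uIcc_of_le hM] at hu
      simp only [abs_of_nonneg hu.1], intervalIntegral.integral_comp_add_left (fun u => u⁻¹),
      integral_inv_of_pos (by norm_num) (by linarith)]
    simp
  have h2 : ∫ u in (-M)..0, (1 + |u|)⁻¹ = Real.log (1 + M) := by
    rw [← h1]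
    have := intervalIntegral.integral_comp_neg (a := 0) (b := M) fun u : ℝ => (1 + |u|)⁻¹
    simp only [abs_neg, neg_zero] at this
    exact this.symm
  rw [integral_Icc_eq_integral_Ioc, ← intervalIntegral.integral_of_le (by linarith),
    intervalIntegral.integral_comp_sub_right (fun u => (1 + |u|)⁻¹), sub_sub_cancel_left,
    add_sub_cancel_left, ← intervalIntegral.integral_add_adjacent_intervals (b := 0)
      (c.intervalIntegrable _ _) (c.intervalIntegrable _ _), h1, h2]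
  ring

/-- Halasz-Montgomery for polynomials on the integers up to `N` -/
theorem hm (N : ℕ) (hN : 1 ≤ N) (S : Finset ℕ) (hS : S ⊆ Icc 1 N) (a : ℕ → ℂ) {R : ℝ}
    (hR : 2 * R ≤ (N : ℝ) ^ 7) {E : Set ℝ} (hE : MeasurableSet E) (hER : E ⊆ Set.Icc (-R) R) :
    ∫ t in E, ‖∑ n ∈ S, a n * ee t n‖ ^ 2 ≤ 1024 * (∑ n ∈ S, ‖a n‖ ^ 2) *
      (N * (1 + Real.log N) + volume.real E * (N : ℝ) ^ (1 - 1 / 25600 : ℝ)) := by
  have N1 : (1 : ℝ) ≤ N := by exact_mod_cast hN
  obtain ⟨D, hD⟩ : ∃ D, D = (N : ℝ) ^ (1 - 1 / 25600 : ℝ) := ⟨_, rfl⟩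
  have D0 : 0 ≤ D := by rw [hD]; positivity
  have c0 : Continuous fun u : ℝ => (1 + |u|)⁻¹ :=
    Continuous.inv₀ (by fun_prop) fun u => by positivity
  obtain ⟨k, hk⟩ : ∃ k : ℝ → ℝ, k = fun θ => 64 * N * (1 + |θ|)⁻¹ + 64 * D := ⟨_, rfl⟩
  have ck : Continuous k := by rw [hk]; fun_prop
  have ke : ∀ x y, k (x - y) = k (y - x) := fun x y => by simp only [hk, abs_sub_comm x y]
  have bk : ∀ s ∈ E, ∀ t ∈ E, ‖∑ n ∈ Icc 1 N, ee (t - s) n‖ ≤ k (t - s) := fun s hs t ht => by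
    rw [hk, hD]
    exact hm_ker N hN (abs_le.2 ⟨by linarith [(hER hs).2, (hER ht).1],
      by linarith [(hER hs).1, (hER ht).2]⟩)
  rw [← hD]
  set μ := volume.restrict E with hμ
  have iE : ∀ {F : Type} [NormedAddCommGroup F] (g : ℝ → F), Continuous g → Integrable g μ :=
    fun g hg => (hg.continuousOn.integrableOn_compact isCompact_Icc).mono_set hER
  have iP : ∀ {F : Type} [NormedAddCommGroup F] (g : ℝ × ℝ → F), Continuous g →
      Integrable g (μ.prod μ) := fun g hg => by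
    rw [hμ, Measure.prod_restrict]
    exact (hg.continuousOn.integrableOn_compact (isCompact_Icc.prod isCompact_Icc)).mono_set
      (Set.prod_mono hER hER)
  obtain ⟨Q, hQ⟩ : ∃ Q : ℝ → ℂ, Q = fun t => ∑ n ∈ S, a n * ee t n := ⟨_, rfl⟩
  have cQ : Continuous Q := by rw [hQ]; fun_prop
  have eQ : ∀ t, ∑ n ∈ S, a n * ee t n = Q t := fun t => by rw [hQ]
  simp only [eQ]
  set J := ∫ t, ‖Q t‖ ^ 2 ∂μ with hJ
  have J0 : 0 ≤ J := integral_nonneg fun _ => by positivity
  have l0 := Real.log_nonneg N1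
  have v0 : 0 ≤ volume.real E := measureReal_nonneg
  obtain ⟨K, hK⟩ : ∃ K, K = 1024 * (N * (1 + Real.log N) + volume.real E * D) := ⟨_, rfl⟩
  have K0 : 0 ≤ K := by rw [hK]; positivity
  have bK : ∀ x ∈ E, ∫ u, k (u - x) ∂μ ≤ K := fun x hx => by
    have : IsFiniteMeasure μ := isFiniteMeasure_restrict.2
      (ne_top_of_le_ne_top measure_Icc_lt_top.ne (measure_mono hER))
    have c1 : Continuous fun u : ℝ => (1 + |u - x|)⁻¹ := c0.comp (by fun_prop)
    simp only [hk]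
    rw [integral_add (iE _ (by fun_prop)) (integrable_const _), integral_const_mul, integral_const,
      smul_eq_mul, hμ, measureReal_restrict_apply_univ]
    have N7 : (1 : ℝ) ≤ (N : ℝ) ^ 7 := one_le_pow₀ N1
    have a1 : ∫ u in E, (1 + |u - x|)⁻¹ ≤ 2 * Real.log (1 + (N : ℝ) ^ 7) := by
      rw [← hm_int (by linarith) x]
      refine setIntegral_mono_set (c1.continuousOn.integrableOn_compact isCompact_Icc)
        (ae_of_all _ fun u => by positivity) (LE.le.eventuallyLE fun u hu => ?_)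
      exact ⟨by linarith [(hER hx).2, (hER hu).1], by linarith [(hER hx).1, (hER hu).2]⟩
    have a2 : Real.log (1 + (N : ℝ) ^ 7) ≤ 1 + 7 * Real.log N := by
      refine (Real.log_le_log (by linarith) (by linarith : 1 + (N : ℝ) ^ 7 ≤ 2 * N ^ 7)).trans ?_
      rw [Real.log_mul (by norm_num) (by positivity), Real.log_pow]
      have := Real.log_two_lt_d9
      push_cast; linarith
    have a3 := mul_le_mul_of_nonneg_left (a1.trans (by linarith :
      2 * Real.log (1 + (N : ℝ) ^ 7) ≤ 16 * (1 + Real.log N))) (show 0 ≤ 64 * (N : ℝ) by positivity)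
    rw [hK]
    nlinarith [mul_nonneg v0 D0]
  obtain ⟨φ, hφ⟩ : ∃ φ : ℕ → ℂ, φ = fun n => ∫ t, Q t * ee (-t) n ∂μ := ⟨_, rfl⟩
  have b1 : ∑ n ∈ Icc 1 N, ‖φ n‖ ^ 2 ≤ K * J := by
    have e : ((∑ n ∈ Icc 1 N, ‖φ n‖ ^ 2 : ℝ) : ℂ) = ∫ z : ℝ × ℝ,
        Q z.1 * conj (Q z.2) * ∑ n ∈ Icc 1 N, ee (z.2 - z.1) n ∂μ.prod μ := by
      simp only [Finset.mul_sum]
      rw [integral_finsetSum _ fun n _ => iP _ (by fun_prop), ofReal_sum]
      refine Finset.sum_congr rfl fun n _ => ?_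
      rw [← normSq_eq_norm_sq, ← mul_conj, hφ, ← integral_conj, ← integral_prod_mul]
      refine integral_congr_ae (ae_of_all _ fun z => ?_)
      simp only [map_mul, conj_ee, neg_neg, sub_eq_add_neg, ee_add]; ring
    refine (le_abs_self _).trans (((norm_real _).symm.trans (congrArg norm e)).trans_le ?_)
    have i1 := iP (fun z => ‖Q z.1‖ ^ 2 / 2 * k (z.2 - z.1)) (by fun_prop)
    have i2 := iP (fun z => ‖Q z.2‖ ^ 2 / 2 * k (z.1 - z.2)) (by fun_prop)
    refine (norm_integral_le_of_norm_le (i1.add i2) ?_).trans ?_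
    · rw [hμ, Measure.prod_restrict]
      filter_upwards [ae_restrict_mem (hE.prod hE)] with z hz
      have := bk _ hz.1 _ hz.2
      rw [Pi.add_apply, ke z.1 z.2, ← add_mul, norm_mul, norm_mul, norm_conj]
      exact mul_le_mul (by nlinarith [sq_nonneg (‖Q z.1‖ - ‖Q z.2‖)]) this (norm_nonneg _)
        (by positivity)
    · have half : ∫ x, ∫ u, ‖Q x‖ ^ 2 / 2 * k (u - x) ∂μ ∂μ ≤ K / 2 * J := by
        rw [hJ, ← integral_const_mul]
        refine integral_mono_ae i1.integral_prod_left (iE _ (by fun_prop)) ?_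
        filter_upwards [ae_restrict_mem hE] with x hx
        rw [integral_const_mul]
        exact (mul_le_mul_of_nonneg_left (bK x hx) (by positivity)).trans (le_of_eq (by ring))
      rw [integral_add' i1 i2, integral_prod _ i1, integral_prod_symm _ i2]
      linarith
  have b2 : J ≤ ∑ p ∈ S, ‖a p‖ * ‖φ p‖ := by
    have e : (J : ℂ) = ∑ p ∈ S, conj (a p) * φ p := by
      simp only [hφ, ← integral_const_mul]
      rw [← integral_finsetSum _ fun n _ => iE _ (by fun_prop), hJ, ← integral_complex_ofReal]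
      refine integral_congr_ae (ae_of_all _ fun t => ?_)
      dsimp only
      rw [← normSq_eq_norm_sq, ← mul_conj]
      nth_rewrite 2 [← eQ]
      simp only [map_sum, map_mul, conj_ee, Finset.mul_sum]
      exact Finset.sum_congr rfl fun _ _ => by ring
    refine (le_abs_self _).trans (((norm_real _).symm.trans (congrArg norm e)).trans_le
      (norm_sum_le_of_le _ fun p _ => by rw [norm_mul, norm_conj]))
  have s0 : 0 ≤ ∑ n ∈ S, ‖a n‖ ^ 2 := sum_nonneg fun _ _ => by positivity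
  have b4 := (pow_le_pow_left₀ J0 b2 2).trans ((sum_mul_sq_le_sq_mul_sq S _ _).trans
    (mul_le_mul_of_nonneg_left ((sum_le_sum_of_subset_of_nonneg hS fun _ _ _ =>
      sq_nonneg _).trans b1) s0))
  rw [mul_right_comm, ← hK]
  rcases J0.eq_or_lt with h | h
  · rw [← h]; positivity
  · refine le_of_mul_le_mul_right ?_ h
    nlinarith

theorem hm_mv (T : ℝ) (N : ℕ) (hN : 1 ≤ N) (S : Finset ℕ) (hS : S ⊆ Icc 1 N) (a : ℕ → ℂ) {R : ℝ}
    (hR : 2 * R ≤ (N : ℝ) ^ 7) {E : Set ℝ} (hE : MeasurableSet E) (hER : E ⊆ Set.Icc (-R) R) :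
    Mv T (E.indicator fun t => ‖∑ n ∈ S, a n * ee t n‖ ^ 2) (1024 * (∑ n ∈ S, ‖a n‖ ^ 2) *
      (N * (1 + Real.log N) + volume.real E * (N : ℝ) ^ (1 - 1 / 25600 : ℝ))) := by
  have e : ∀ t, (E.indicator (fun t => ‖∑ n ∈ S, a n * ee t n‖ ^ 2) t) * gw T t =
      E.indicator (fun t => ‖∑ n ∈ S, a n * ee t n‖ ^ 2 * gw T t) t := fun t => by
    by_cases c : t ∈ E <;> simp [c]
  have iE : ∀ g : ℝ → ℝ, Continuous g → IntegrableOn g E :=
    fun g hg => (hg.continuousOn.integrableOn_compact isCompact_Icc).mono_set hER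
  have i1 := iE (fun t => ‖∑ n ∈ S, a n * ee t n‖ ^ 2 * gw T t) (by unfold gw; fun_prop)
  refine ⟨_, ?_, fun _ => le_rfl, ?_⟩
  · simp only [e]; exact i1.integrable_indicator hE
  · simp only [e]
    rw [integral_indicator hE]
    refine le_trans (integral_mono i1 (iE _ (by fun_prop)) fun t => ?_) (hm N hN S hS a hR hE hER)
    exact mul_le_of_le_one_right (by positivity) (Real.exp_le_one_iff.2 (neg_nonpos.2
      (by positivity)))

end Pool.Agent.H84D
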