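import Pool.Agent.H84D.Defs

set_option autoImplicit false

/-! Elementary facts on the tent, the Ramanujan sums and the major arc kernel. -/

namespace Pool.Agent.H84D

open Finset

theorem psi_nonneg (h : ℕ) (j : ℤ) : 0 ≤ psi h j := by
  unfold psi
  exact div_nonneg (le_max_left _ _) (by positivity)

theorem psi_neg (h : ℕ) (j : ℤ) : psi h (-j) = psi h j := by
  unfold psi
  simp

theorem psi_eq_zero {h : ℕ} {j : ℤ} (hj : j ∉ Ioo (-(h : ℤ)) h) : psi h j = 0 := by
  unfold psi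
  have h1 : (h : ℤ) ≤ |j| := by
    rw [mem_Ioo] at hj
    rcases abs_cases j with h2 | h2 <;> omega
  have h2 : (h : ℝ) ≤ |(j : ℝ)| := by exact_mod_cast h1
  rw [max_eq_left (by linarith), zero_div]

theorem psi_le (h : ℕ) (j : ℤ) : psi h j ≤ 1 / (h : ℝ) := by
  unfold psi
  rcases Nat.eq_zero_or_pos h with rfl | hh
  · simp
  have h0 : (0 : ℝ) < h := by exact_mod_cast hh
  rw [div_le_div_iff₀ (by positivity) h0]
  have : max 0 ((h : ℝ) - |(j : ℝ)|) ≤ h := max_le h0.le (by linarith [abs_nonneg (j : ℝ)])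
  nlinarith

theorem psi_lip (h : ℕ) (i j : ℤ) : |psi h i - psi h j| ≤ |(i : ℝ) - j| / (h : ℝ) ^ 2 := by
  unfold psi
  rw [← sub_div, abs_div, abs_of_nonneg (by positivity : (0 : ℝ) ≤ (h : ℝ) ^ 2)]
  refine div_le_div_of_nonneg_right ?_ (by positivity)
  have h1 := abs_max_sub_max_le_abs ((h : ℝ) - |(i : ℝ)|) ((h : ℝ) - |(j : ℝ)|) 0
  rw [max_comm ((h : ℝ) - |(i : ℝ)|), max_comm ((h : ℝ) - |(j : ℝ)|)] at h1
  refine h1.trans ?_
  have h2 := abs_abs_sub_abs_le_abs_sub (i : ℝ) j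
  have h3 : (h : ℝ) - |(i : ℝ)| - ((h : ℝ) - |(j : ℝ)|) = -(|(i : ℝ)| - |(j : ℝ)|) := by ring
  rw [h3, abs_neg]
  exact h2

theorem card_diff (h : ℕ) (j : ℤ) :
    #((range h ×ˢ range h).filter fun p => (p.1 : ℤ) - p.2 = j) = h - j.natAbs := by
  rcases le_total 0 j with hj | hj
  · have : ((range h ×ˢ range h).filter fun p => (p.1 : ℤ) - p.2 = j)
        = (range (h - j.natAbs)).image fun y => (y + j.natAbs, y) := by
      ext ⟨x, y⟩
      simp only [mem_filter, mem_product, mem_range, mem_image, Prod.mk.injEq]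
      constructor
      · rintro ⟨⟨h1, h2⟩, h3⟩
        exact ⟨y, by omega, by omega, rfl⟩
      · rintro ⟨z, h1, h2, h3⟩
        omega
    rw [this, card_image_of_injective _ (fun a b hab => by simpa using (Prod.mk.inj hab).2),
      card_range]
  · have : ((range h ×ˢ range h).filter fun p => (p.1 : ℤ) - p.2 = j)
        = (range (h - j.natAbs)).image fun y => (y, y + j.natAbs) := by
      ext ⟨x, y⟩
      simp only [mem_filter, mem_product, mem_range, mem_image, Prod.mk.injEq]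
      constructor
      · rintro ⟨⟨h1, h2⟩, h3⟩
        exact ⟨x, by omega, rfl, by omega⟩
      · rintro ⟨z, h1, h2, h3⟩
        omega
    rw [this, card_image_of_injective _ (fun a b hab => by simpa using (Prod.mk.inj hab).1),
      card_range]

theorem psi_eq_card (h : ℕ) (j : ℤ) :
    psi h j = (#((range h ×ˢ range h).filter fun p => (p.1 : ℤ) - p.2 = j) : ℝ) / (h : ℝ) ^ 2 := by
  rw [card_diff]
  unfold psi
  congr 1
  have h1 : |(j : ℝ)| = (j.natAbs : ℝ) := by
    rw [← Int.cast_abs, ← Int.natCast_natAbs, Int.cast_natCast]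
  rw [h1]
  rcases le_total h j.natAbs with h2 | h2
  · have h3 : (h : ℝ) ≤ (j.natAbs : ℝ) := by exact_mod_cast h2
    rw [Nat.sub_eq_zero_of_le h2, max_eq_left (by linarith), Nat.cast_zero]
  · have h3 : (j.natAbs : ℝ) ≤ (h : ℝ) := by exact_mod_cast h2
    rw [Nat.cast_sub h2, max_eq_right (by linarith)]

/-- the tent is the law of a difference of two uniform variables -/
theorem tent_sum {E : Type} [AddCommGroup E] [Module ℝ E] (h : ℕ) (F : ℤ → E) :
    ∑ j ∈ Ioo (-(h : ℤ)) h, psi h j • F j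
      = (1 / (h : ℝ) ^ 2) • ∑ p ∈ range h ×ˢ range h, F ((p.1 : ℤ) - p.2) := by
  have hmap : ∀ p ∈ range h ×ˢ range h, (p.1 : ℤ) - p.2 ∈ Ioo (-(h : ℤ)) h := by
    intro p hp
    rw [mem_product, mem_range, mem_range] at hp
    rw [mem_Ioo]
    omega
  rw [← sum_fiberwise_of_maps_to hmap, smul_sum]
  refine sum_congr rfl fun j _ => ?_
  rw [sum_congr rfl (g := fun _ => F j) (fun p hp => by rw [(mem_filter.1 hp).2]), sum_const,
    psi_eq_card, ← Nat.cast_smul_eq_nsmul ℝ, smul_smul]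
  congr 1
  ring

theorem sum_psi {h : ℕ} (hh : 0 < h) : ∑ j ∈ Ioo (-(h : ℤ)) h, psi h j = 1 := by
  have h0 : (0 : ℝ) < h := by exact_mod_cast hh
  have := tent_sum (E := ℝ) h fun _ => 1
  simp only [smul_eq_mul, mul_one, sum_const, card_product, card_range, nsmul_eq_mul] at this
  rw [this]
  push_cast
  field_simp

theorem sum_psi_le {h : ℕ} (hh : 0 < h) (S : Finset ℤ) (m : ℤ) :
    ∑ k ∈ S, psi h (m - k) ≤ 1 := by
  rw [← sum_psi hh, ← sum_image (s := S) (g := fun k => m - k) (f := fun j => psi h j)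
    (fun a _ b _ hab => by simpa using hab)]
  rw [← sum_filter_ne_zero]
  refine sum_le_sum_of_subset_of_nonneg (fun j hj => ?_) fun j _ _ => psi_nonneg h j
  by_contra hc
  exact (mem_filter.1 hj).2 (psi_eq_zero hc)

theorem card_un_le (d : ℕ) : #(un d) ≤ d := by
  unfold un
  exact (card_filter_le _ _).trans (card_range d).le

theorem abs_ram_le (d : ℕ) (j : ℤ) : |ram d j| ≤ d := by
  unfold ram
  refine (abs_sum_le_sum_abs _ _).trans ?_
  refine (sum_le_card_nsmul _ _ 1 fun c _ => Real.abs_cos_le_one _).trans ?_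
  simpa using card_un_le d

theorem ram_neg (d : ℕ) (j : ℤ) : ram d (-j) = ram d j := by
  unfold ram
  refine sum_congr rfl fun c _ => ?_
  rw [← Real.cos_neg]
  congr 1
  push_cast
  ring

theorem ram_congr {d : ℕ} {i j : ℤ} (hij : (d : ℤ) ∣ i - j) : ram d i = ram d j := by
  obtain ⟨t, ht⟩ := hij
  unfold ram
  refine sum_congr rfl fun c hc => ?_
  have hd : 0 < d := by
    have := mem_range.1 (mem_filter.1 hc).1
    omega
  have hd' : (d : ℝ) ≠ 0 := by exact_mod_cast hd.ne'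
  have hi : (i : ℝ) = j + d * t := by
    have : i = j + d * t := by omega
    exact_mod_cast this
  rw [← Real.cos_add_int_mul_two_pi (2 * Real.pi * (c * j / d)) (c * t)]
  congr 1
  rw [hi]
  push_cast
  field_simp

theorem KK_neg (Q h : ℕ) (j : ℤ) : KK Q h (-j) = KK Q h j := by
  unfold KK
  rw [psi_neg]
  simp only [ram_neg]

theorem KK_eq_zero {Q h : ℕ} {j : ℤ} (hj : j ∉ Ioo (-(h : ℤ)) h) : KK Q h j = 0 := by
  unfold KK
  rw [psi_eq_zero hj, zero_mul]

theorem abs_KK_le (Q h : ℕ) (j : ℤ) : |KK Q h j| ≤ psi h j * (Q : ℝ) ^ 2 := by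
  unfold KK
  rw [abs_mul, abs_of_nonneg (psi_nonneg h j)]
  refine mul_le_mul_of_nonneg_left ?_ (psi_nonneg h j)
  refine (abs_sum_le_sum_abs _ _).trans ?_
  refine (sum_le_card_nsmul _ _ (Q : ℝ) fun d hd => (abs_ram_le d j).trans ?_).trans ?_
  · exact_mod_cast (mem_Icc.1 hd).2
  · simp [sq]

theorem cv_le {Q h : ℕ} (hh : 0 < h) (S : Finset ℤ) (m : ℤ) : |cv Q h S m| ≤ (Q : ℝ) ^ 2 := by
  unfold cv
  refine (abs_sum_le_sum_abs _ _).trans ?_
  refine (sum_le_sum fun k _ => abs_KK_le Q h (m - k)).trans ?_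
  rw [← sum_mul]
  have := sum_psi_le hh S m
  nlinarith [sq_nonneg (Q : ℝ)]

theorem gg_le {Q h : ℕ} (hh : 0 < h) (S : Finset ℤ) (m : ℤ) :
    |gg Q h S m| ≤ 1 + (Q : ℝ) ^ 2 := by
  unfold gg
  refine (abs_sub _ _).trans (add_le_add ?_ (cv_le hh S m))
  unfold ind
  split_ifs <;> simp

theorem gg_supp {Q h : ℕ} (hh : 0 < h) {S : Finset ℤ} {A B : ℤ} (hS : S ⊆ Ioc A B) {m : ℤ}
    (hm : gg Q h S m ≠ 0) : A - h < m ∧ m < B + h := by
  by_contra hc
  apply hm
  unfold gg ind cv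
  have h1 : m ∉ S := fun h2 => by
    have := mem_Ioc.1 (hS h2)
    omega
  rw [if_neg h1, sum_eq_zero, sub_zero]
  intro k hk
  apply KK_eq_zero
  have := mem_Ioc.1 (hS hk)
  rw [mem_Ioo]
  omega

theorem Xi_mono {G G' : Finset (ℕ × ℕ)} (hG : G ⊆ G') (d : ℕ) : Xi G d ≤ Xi G' d := by
  unfold Xi
  exact card_le_card (filter_subset_filter _ (product_subset_product hG hG))

end Pool.Agent.H84D
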