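import Pool.Agent.H84D.Defs

set_option autoImplicit false

namespace Pool.Agent.H84D

open Finset

/-- Fourier transform of a finitely supported function on the integers. -/
noncomputable def FT (g : ℤ → ℝ) (t : ℝ) : ℂ :=
  ∑' k : ℤ, (g k : ℂ) * Complex.exp (-(2 * Real.pi * Complex.I * k * t))

/-- Block sum along an arithmetic progression. -/
def s2B (g : ℤ → ℝ) (d : ℤ) (N : ℕ) (k : ℤ) : ℝ := ∑ i ∈ range N, g (k + i * d)

lemma s2_shift {g : ℤ → ℝ} (hg : (Function.support g).Finite) (c : ℤ) :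
    (Function.support fun k => g (k + c)).Finite :=
  (hg.preimage (f := fun k => k + c) fun _ _ _ _ h => by simpa using h).subset fun _ h => h

lemma s2_sm {g : ℤ → ℝ} (hg : (Function.support g).Finite) (c : ℤ) (w : ℤ → ℝ) :
    Summable fun k => w k * g (k + c) :=
  summable_of_hasFiniteSupport ((s2_shift hg c).subset fun k h => by
    intro h0; apply h; simp only [] at h0 ⊢; rw [h0, mul_zero])

lemma s2_smc {g : ℤ → ℝ} (hg : (Function.support g).Finite) (c : ℤ) (w : ℤ → ℂ) :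
    Summable fun k => (g (k + c) : ℂ) * w k :=
  summable_of_hasFiniteSupport ((s2_shift hg c).subset fun k h => by
    intro h0; apply h; simp only [] at h0 ⊢; rw [h0]; simp)

lemma s2B_fin {g : ℤ → ℝ} (hg : (Function.support g).Finite) (d : ℤ) (N : ℕ) :
    (Function.support (s2B g d N)).Finite := by
  refine (Set.Finite.biUnion (range N).finite_toSet fun i _ => s2_shift hg (i * d)).subset ?_
  intro k hk
  by_contra h
  apply hk
  refine sum_eq_zero fun i hi => ?_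
  by_contra h1
  exact h (Set.mem_biUnion (Finset.mem_coe.mpr hi) h1)

lemma s2_orth (n : ℤ) :
    ∫ t in (0 : ℝ)..1, Complex.exp (2 * Real.pi * Complex.I * n * t) = if n = 0 then 1 else 0 := by
  split_ifs with h
  · simp [h]
  · have h0 : (2 * Real.pi * Complex.I * n : ℂ) ≠ 0 := by
      simp [h, Real.pi_ne_zero]
    rw [integral_exp_mul_complex h0]
    have : Complex.exp (2 * Real.pi * Complex.I * n) = 1 := by
      rw [mul_comm]; exact Complex.exp_int_mul_two_pi_mul_I n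
    simp [this]

lemma FT_eq {u : ℤ → ℝ} (hu : (Function.support u).Finite) (t : ℝ) :
    FT u t = ∑ k ∈ hu.toFinset, (u k : ℂ) * Complex.exp (-(2 * Real.pi * Complex.I * k * t)) := by
  refine tsum_eq_sum fun k hk => ?_
  have : u k = 0 := by simpa using hk
  simp [this]

lemma FT_cont {u : ℤ → ℝ} (hu : (Function.support u).Finite) : Continuous (FT u) := by
  have : FT u = fun t : ℝ => ∑ k ∈ hu.toFinset,
      (u k : ℂ) * Complex.exp (-(2 * Real.pi * Complex.I * k * t)) := funext (FT_eq hu)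
  rw [this]; fun_prop

lemma parseval {u : ℤ → ℝ} (hu : (Function.support u).Finite) :
    ∑' k, u k ^ 2 = ∫ t in (0 : ℝ)..1, ‖FT u t‖ ^ 2 := by
  have h1 : ∑' k, u k ^ 2 = ∑ k ∈ hu.toFinset, u k ^ 2 := by
    refine tsum_eq_sum fun k hk => ?_
    have : u k = 0 := by simpa using hk
    simp [this]
  have h2 : ∀ t : ℝ, ((‖FT u t‖ ^ 2 : ℝ) : ℂ) = ∑ k ∈ hu.toFinset, ∑ j ∈ hu.toFinset,
      (u k * u j : ℂ) * Complex.exp (2 * Real.pi * Complex.I * (j - k : ℤ) * t) := by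
    intro t
    rw [← Complex.normSq_eq_norm_sq, ← Complex.mul_conj, FT_eq hu, map_sum, sum_mul_sum]
    refine sum_congr rfl fun k _ => sum_congr rfl fun j _ => ?_
    rw [map_mul, Complex.conj_ofReal, ← Complex.exp_conj, mul_mul_mul_comm, ← Complex.exp_add]
    congr 2
    simp only [map_neg, map_mul, Complex.conj_ofReal, Complex.conj_I, map_intCast, map_ofNat]
    push_cast; ring
  apply Complex.ofReal_injective
  rw [← intervalIntegral.integral_ofReal, h1]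
  simp_rw [h2]
  rw [intervalIntegral.integral_finsetSum fun k _ => Continuous.intervalIntegrable (by fun_prop) _ _]
  push_cast
  refine sum_congr rfl fun k hk => ?_
  rw [intervalIntegral.integral_finsetSum fun k _ => Continuous.intervalIntegrable (by fun_prop) _ _]
  have h3 : ∀ j : ℤ, ∫ t in (0 : ℝ)..1, (u k * u j : ℂ) *
      Complex.exp (2 * Real.pi * Complex.I * ((j : ℂ) - k) * t) =
      if j = k then (u k * u j : ℂ) else 0 := by
    intro j
    rw [intervalIntegral.integral_const_mul]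
    have := s2_orth (j - k)
    push_cast at this
    rw [this]
    simp [sub_eq_zero]
  simp_rw [h3]
  rw [sum_ite_eq' hu.toFinset k, if_pos hk, sq]

lemma FT_B {g : ℤ → ℝ} (hg : (Function.support g).Finite) (d : ℤ) (N : ℕ) (t : ℝ) :
    FT (s2B g d N) t =
      FT g t * ∑ i ∈ range N, Complex.exp (2 * Real.pi * Complex.I * i * ((d * t : ℝ) : ℂ)) := by
  unfold FT s2B
  push_cast
  simp_rw [sum_mul]
  rw [Summable.tsum_finsetSum fun i _ => s2_smc hg _ _, mul_sum]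
  refine sum_congr rfl fun i _ => ?_
  rw [← tsum_mul_right, ← (Equiv.addRight (i * d : ℤ)).tsum_eq fun k => (g k : ℂ) *
    Complex.exp (-(2 * Real.pi * Complex.I * k * t)) *
      Complex.exp (2 * Real.pi * Complex.I * i * (d * t))]
  refine tsum_congr fun k => ?_
  simp only [Equiv.coe_addRight]
  rw [mul_assoc (g _ : ℂ), ← Complex.exp_add]
  congr 2
  push_cast; ring

lemma s2_norm_e (i : ℕ) (x : ℝ) : ‖Complex.exp (2 * Real.pi * Complex.I * i * (x : ℂ))‖ = 1 := by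
  have : (2 * Real.pi * Complex.I * i * (x : ℂ)) = ((2 * Real.pi * i * x : ℝ) : ℂ) * Complex.I := by
    push_cast; ring
  rw [this, Complex.norm_exp_ofReal_mul_I]

lemma s2_dk1 (N : ℕ) (x : ℝ) :
    ‖∑ i ∈ range N, Complex.exp (2 * Real.pi * Complex.I * i * (x : ℂ))‖ ≤ N := by
  refine (norm_sum_le _ _).trans ?_
  simp [s2_norm_e]

lemma s2_dk2 (N : ℕ) {x η : ℝ} (hη : 0 < η) (h : η ≤ |x - round x|) :
    ‖∑ i ∈ range N, Complex.exp (2 * Real.pi * Complex.I * i * (x : ℂ))‖ ≤ 1 / (2 * η) := by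
  set z := Complex.exp (2 * Real.pi * Complex.I * (x : ℂ)) with hz
  have h1 : ∀ i : ℕ, Complex.exp (2 * Real.pi * Complex.I * i * (x : ℂ)) = z ^ i := by
    intro i
    rw [hz, ← Complex.exp_nat_mul]; congr 1; ring
  have h2 : 4 * η ≤ ‖z - 1‖ := by
    set y := x - round x with hy
    have e1 : z = Complex.exp (Complex.I * ((2 * Real.pi * y : ℝ) : ℂ)) := by
      have := Complex.exp_int_mul_two_pi_mul_I (round x)
      rw [hz, hy, ← mul_one (Complex.exp (Complex.I * _)), ← this, ← Complex.exp_add]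
      congr 1; push_cast; ring
    rw [e1, Complex.norm_exp_I_mul_ofReal_sub_one, Real.norm_eq_abs, abs_mul, abs_two]
    have hy2 : |y| ≤ 1 / 2 := abs_sub_round x
    have p := Real.pi_pos
    have e2 : 2 * Real.pi * y / 2 = Real.pi * y := by ring
    have e3 : |Real.pi * y| = Real.pi * |y| := by rw [abs_mul, abs_of_pos p]
    have := Real.mul_abs_le_abs_sin (x := Real.pi * y) (by rw [e3]; nlinarith)
    rw [e3] at this
    have e4 : 2 / Real.pi * (Real.pi * |y|) = 2 * |y| := by field_simp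
    rw [e2]; linarith
  have h3 : ‖∑ i ∈ range N, z ^ i‖ * ‖z - 1‖ ≤ 2 := by
    rw [← norm_mul, geom_sum_mul]
    refine (norm_sub_le _ _).trans ?_
    rw [← h1, s2_norm_e]; norm_num
  simp_rw [h1]
  rw [le_div_iff₀ (by positivity)]
  nlinarith [norm_nonneg (∑ i ∈ range N, z ^ i)]

lemma s2_one {a b : ℕ} (hab : Nat.Coprime a (2 * b)) (k : ℤ) (w : ℝ) (hw : 0 ≤ w) :
    ∑ r ∈ range a, (if (a : ℤ) ∣ k - 8 * r * b then (1 : ℝ) else 0) * w ≤ w := by
  rw [← sum_mul, sum_boole]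
  have : #((range a).filter fun r : ℕ => (a : ℤ) ∣ k - 8 * r * b) ≤ 1 := by
    refine card_le_one.mpr fun r hr r' hr' => ?_
    rw [mem_filter, mem_range] at hr hr'
    have h1 : (a : ℤ) ∣ (8 * b : ℕ) * (r - r' : ℤ) := by
      have e : ((8 * b : ℕ) : ℤ) * (r - r' : ℤ) = k - 8 * r' * b - (k - 8 * r * b) := by
        push_cast; ring
      rw [e]; exact dvd_sub hr'.2 hr.2
    have h2 : Nat.Coprime a (8 * b) := by
      have h3 := Nat.Coprime.pow_right 3 (Nat.Coprime.coprime_mul_right_right hab)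
      exact Nat.Coprime.mul_right h3 (Nat.Coprime.coprime_mul_left_right hab)
    have h4 := (Nat.isCoprime_iff_coprime.mpr h2).dvd_of_dvd_mul_left h1
    have h5 := Int.eq_zero_of_abs_lt_dvd h4 (by rw [abs_lt]; omega)
    omega
  have h6 : ((#((range a).filter fun r : ℕ => (a : ℤ) ∣ k - 8 * r * b) : ℕ) : ℝ) ≤ 1 := by exact_mod_cast this
  nlinarith

lemma s2_phys {g : ℤ → ℝ} (hg : (Function.support g).Finite) {a b b' : ℕ}
    (hb : Nat.Coprime a (2 * b)) (hb' : Nat.Coprime a (2 * b')) (N : ℕ) :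
    ∑ r ∈ range a, ∑ i ∈ range N, ∑ j ∈ range N, ∑' m : ℤ, (if (a : ℤ) ∣ m then (1 : ℝ) else 0) *
      g (m + 8 * (r + a * (i - j)) * b) * g (m + 8 * (r + a * (i - j)) * b') ≤
    ∑' k, s2B g (8 * a * (b' - b)) N k ^ 2 := by
  set d : ℤ := 8 * a * (b' - b) with hd
  set B := s2B g d N with hB
  have hBf : (Function.support B).Finite := s2B_fin hg d N
  have sq0 : ∀ w : ℤ → ℝ, Summable fun k => w k * B k ^ 2 := fun w => by
    simpa [sq, mul_assoc] using s2_sm hBf 0 fun k => w k * B k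
  have h1 : ∀ r : ℕ, ∑ i ∈ range N, ∑ j ∈ range N, ∑' m : ℤ, (if (a : ℤ) ∣ m then (1 : ℝ) else 0) *
      g (m + 8 * (r + a * (i - j)) * b) * g (m + 8 * (r + a * (i - j)) * b') ≤
      (∑' k, (if (a : ℤ) ∣ k - 8 * r * b then (1 : ℝ) else 0) * B k ^ 2) / 2 +
      (∑' k, (if (a : ℤ) ∣ k - 8 * r * b' then (1 : ℝ) else 0) * B k ^ 2) / 2 := by
    intro r
    have e1 : ∀ i j : ℕ, ∑' m : ℤ, (if (a : ℤ) ∣ m then (1 : ℝ) else 0) *
        g (m + 8 * (r + a * (i - j)) * b) * g (m + 8 * (r + a * (i - j)) * b') =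
        ∑' k : ℤ, (if (a : ℤ) ∣ k - 8 * r * b then (1 : ℝ) else 0) * g (k + j * d) *
          g (k + (8 * r * (b' - b) + i * d)) := by
      intro i j
      rw [← (Equiv.addRight (j * d - 8 * (r + a * (i - j)) * b : ℤ)).tsum_eq]
      refine tsum_congr fun k => ?_
      simp only [Equiv.coe_addRight]
      have e2 : (a : ℤ) ∣ k + (j * d - 8 * (r + a * (i - j)) * b) ↔ (a : ℤ) ∣ k - 8 * r * b := by
        have : k + (j * d - 8 * (r + a * (i - j)) * b) =
            (k - 8 * r * b) + a * (8 * j * (b' - b) - 8 * (i - j) * b) := by rw [hd]; ring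
        rw [this]; exact dvd_add_left (dvd_mul_right _ _)
      simp only [e2]
      congr 2
      · congr 1; ring
      · rw [hd]; ring
    simp_rw [e1]
    have e3 : ∑ i ∈ range N, ∑ j ∈ range N, ∑' k : ℤ,
        (if (a : ℤ) ∣ k - 8 * r * b then (1 : ℝ) else 0) * g (k + j * d) *
          g (k + (8 * r * (b' - b) + i * d)) =
        ∑' k : ℤ, (if (a : ℤ) ∣ k - 8 * r * b then (1 : ℝ) else 0) * B k *
          B (k + 8 * r * (b' - b)) := by
      have e4 : ∀ k : ℤ, (if (a : ℤ) ∣ k - 8 * r * b then (1 : ℝ) else 0) * B k *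
          B (k + 8 * r * (b' - b)) = ∑ i ∈ range N, ∑ j ∈ range N,
          (if (a : ℤ) ∣ k - 8 * r * b then (1 : ℝ) else 0) * g (k + j * d) *
          g (k + (8 * r * (b' - b) + i * d)) := by
        intro k
        rw [hB, s2B, s2B, mul_sum, mul_sum]
        refine sum_congr rfl fun i _ => ?_
        rw [sum_mul, add_assoc]
      simp_rw [e4]
      rw [Summable.tsum_finsetSum fun i _ => summable_sum fun j _ => s2_sm hg _ _]
      refine sum_congr rfl fun i _ => ?_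
      rw [Summable.tsum_finsetSum fun j _ => s2_sm hg _ _]
    rw [e3]
    have e5 : ∑' k, (if (a : ℤ) ∣ k - 8 * r * b' then (1 : ℝ) else 0) * B k ^ 2 =
        ∑' k, (if (a : ℤ) ∣ k - 8 * r * b then (1 : ℝ) else 0) * B (k + 8 * r * (b' - b)) ^ 2 := by
      rw [← (Equiv.addRight (8 * r * (b' - b) : ℤ)).tsum_eq]
      refine tsum_congr fun k => ?_
      simp only [Equiv.coe_addRight]
      have : k + 8 * r * (b' - b) - 8 * r * b' = k - 8 * r * b := by ring
      simp only [this]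
    have sq1 : Summable fun k => (if (a : ℤ) ∣ k - 8 * r * b then (1 : ℝ) else 0) *
        B (k + 8 * r * (b' - b)) ^ 2 := by
      simpa only [sq, mul_assoc] using s2_sm hBf (8 * r * (b' - b)) fun k =>
        (if (a : ℤ) ∣ k - 8 * r * b then (1 : ℝ) else 0) * B (k + 8 * r * (b' - b))
    rw [e5, ← add_div, ← (sq0 _).tsum_add sq1, ← tsum_div_const]
    refine (s2_sm hBf _ _).tsum_le_tsum (fun k => ?_) (((sq0 _).add sq1).div_const 2)
    split_ifs
    · nlinarith [sq_nonneg (B k - B (k + 8 * r * (b' - b)))]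
    · simp
  refine (sum_le_sum fun r _ => h1 r).trans ?_
  have h2 : ∀ c : ℕ, Nat.Coprime a (2 * c) →
      ∑ r ∈ range a, ∑' k, (if (a : ℤ) ∣ k - 8 * r * c then (1 : ℝ) else 0) * B k ^ 2 ≤
      ∑' k, B k ^ 2 := by
    intro c hc
    rw [← Summable.tsum_finsetSum fun r _ => sq0 _]
    exact (summable_sum fun r _ => sq0 _).tsum_le_tsum (fun k => s2_one hc k _ (sq_nonneg _))
      (by simpa using sq0 fun _ => 1)
  rw [sum_add_distrib, ← sum_div, ← sum_div]
  linarith [h2 b hb, h2 b' hb']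

lemma s2_maj (QQ : Finset ℕ) {a y : ℕ} (ha : 0 < a) (hQ : ∀ q ∈ QQ, q + 2 < a * y)
    (Φ : ℤ → ℝ) (h0 : ∀ x, 0 ≤ Φ x) :
    y * ∑ q ∈ QQ, Φ (q + 2) ≤
      ∑ r ∈ range a, ∑ i ∈ range (2 * y), ∑ j ∈ range (2 * y), Φ (r + a * (i - j)) := by
  have h1 : y * ∑ q ∈ QQ, Φ (q + 2) = ∑ x ∈ QQ ×ˢ range y, Φ (x.1 + 2) := by
    rw [sum_product, mul_sum]; simp
  let φ : ℕ × ℕ → ℕ × ℕ × ℕ := fun x => ((x.1 + 2) % a, x.2 + (x.1 + 2) / a, x.2)
  let Ψ : ℕ × ℕ × ℕ → ℝ := fun z => Φ (z.1 + a * (z.2.1 - z.2.2))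
  have h2 : ∀ x : ℕ × ℕ, Ψ (φ x) = Φ (x.1 + 2) := by
    intro x
    have := Nat.mod_add_div (x.1 + 2) a
    simp only [Ψ, φ]
    congr 1
    generalize (x.1 + 2) % a = u at *
    generalize (x.1 + 2) / a = v at *
    have h3 : (u : ℤ) + a * v = x.1 + 2 := by exact_mod_cast this
    push_cast; linarith
  have h3 : Set.InjOn φ (QQ ×ˢ range y : Finset _) := by
    intro x _ x' _ h
    simp only [φ, Prod.mk.injEq] at h
    have e1 := Nat.mod_add_div (x.1 + 2) a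
    have e2 := Nat.mod_add_div (x'.1 + 2) a
    have e3 : (x.1 + 2) / a = (x'.1 + 2) / a := by omega
    rw [h.1, e3] at e1
    exact Prod.ext (by omega) h.2.2
  rw [h1, ← sum_congr rfl fun x _ => h2 x, ← sum_image h3]
  have h4 : ∑ r ∈ range a, ∑ i ∈ range (2 * y), ∑ j ∈ range (2 * y), Φ (r + a * (i - j)) =
      ∑ z ∈ range a ×ˢ range (2 * y) ×ˢ range (2 * y), Ψ z := by
    rw [sum_product]; simp only [sum_product, Ψ]
  rw [h4]
  refine sum_le_sum_of_subset_of_nonneg (fun z hz => ?_) fun z _ _ => h0 _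
  obtain ⟨x, hx, rfl⟩ := mem_image.mp hz
  rw [mem_product, mem_range] at hx
  have e1 : (x.1 + 2) / a < y := Nat.div_lt_of_lt_mul (hQ _ hx.1)
  simp only [φ, mem_product, mem_range]
  exact ⟨Nat.mod_lt _ ha, by omega, by omega⟩

lemma s2_near {t β : ℝ} {D : ℕ} (hβ : 2 * β * (D : ℝ) ^ 2 < 1) {n n' c c' : ℤ} (hn : n ≠ 0)
    (hn' : n' ≠ 0) (h1 : |n| ≤ D) (h2 : |n'| ≤ D) (h3 : |t - c / n| ≤ β) (h4 : |t - c' / n'| ≤ β) :
    (c / n : ℚ) = c' / n' := by
  have a1 : (n : ℝ) ≠ 0 := by exact_mod_cast hn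
  have a2 : (n' : ℝ) ≠ 0 := by exact_mod_cast hn'
  have h5 : |(c : ℝ) / n - c' / n'| ≤ 2 * β := by
    have := abs_sub_le ((c : ℝ) / n) t (c' / n')
    rw [abs_sub_comm _ t] at this
    linarith
  have h6 : ((c * n' - c' * n : ℤ) : ℝ) = ((c : ℝ) / n - c' / n') * (n * n') := by
    push_cast; field_simp
  have h7 : |((c * n' - c' * n : ℤ) : ℝ)| < 1 := by
    rw [h6, abs_mul, abs_mul]
    have b1 : |(n : ℝ)| ≤ D := by exact_mod_cast h1
    have b2 : |(n' : ℝ)| ≤ D := by exact_mod_cast h2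
    have b3 : 0 ≤ 2 * β := (abs_nonneg _).trans h5
    calc _ ≤ 2 * β * ((D : ℝ) * D) := by gcongr
      _ < 1 := by rw [← sq]; exact hβ
  have h8 : c * n' - c' * n = 0 := by
    have : |c * n' - c' * n| < 1 := by exact_mod_cast h7
    exact Int.abs_lt_one_iff.mp this
  rw [div_eq_div_iff (by exact_mod_cast hn) (by exact_mod_cast hn')]
  exact_mod_cast sub_eq_zero.mp h8

/-- the pairs in one fibre -/
def s2P (G : Finset (ℕ × ℕ)) : Finset ((ℕ × ℕ) × (ℕ × ℕ)) :=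
  (G ×ˢ G).filter fun w => w.1.1 = w.2.1

/-- the frequency of a pair -/
def s2n (w : (ℕ × ℕ) × (ℕ × ℕ)) : ℤ := 8 * w.1.1 * ((w.2.2 : ℤ) - w.1.2)

lemma s2_pt (G : Finset (ℕ × ℕ)) {Y A N : ℕ} {η : ℝ} (hA : 0 < A)
    (hG : ∀ z ∈ G, A ≤ z.1 ∧ z.1 ≤ Y ∧ z.2 ≤ Y) (hη : 0 < η) (hη2 : 16 * η * (Y : ℝ) ^ 4 < A)
    (t : ℝ) : ∃ (x : ℝ), (x = 0 ∨ ∃ (c : ℤ) (d : ℕ), 0 < d ∧ d ≤ 8 * Y ^ 2 ∧ IsCoprime c d ∧
      |t - c / d| ≤ η / (8 * A) ∧ x = Xi G d) ∧
    ∑ w ∈ s2P G, ‖∑ i ∈ range N,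
      Complex.exp (2 * Real.pi * Complex.I * i * ((s2n w * t : ℝ) : ℂ))‖ ^ 2 ≤
      (N : ℝ) ^ 2 * #G + Xi G 1 / (4 * η ^ 2) + (N : ℝ) ^ 2 * x := by
  classical
  set T := (s2P G).filter fun w => w.1.2 ≠ w.2.2 ∧ |s2n w * t - round (s2n w * t)| < η with hT
  have hA' : (0 : ℝ) < A := by exact_mod_cast hA
  have h1 : ∀ w ∈ s2P G, ‖∑ i ∈ range N,
      Complex.exp (2 * Real.pi * Complex.I * i * ((s2n w * t : ℝ) : ℂ))‖ ^ 2 ≤
      (N : ℝ) ^ 2 * (if w.1.2 = w.2.2 then 1 else 0) +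
      (if w.1.2 ≠ w.2.2 then 1 else 0) / (4 * η ^ 2) +
      (N : ℝ) ^ 2 * (if w.1.2 ≠ w.2.2 ∧ |s2n w * t - round (s2n w * t)| < η then 1 else 0) := by
    intro w _
    have e1 := pow_le_pow_left₀ (norm_nonneg _) (s2_dk1 N (s2n w * t)) 2
    by_cases h : w.1.2 = w.2.2
    · simpa [h] using e1
    · by_cases h' : |s2n w * t - round (s2n w * t)| < η
      · simp only [h, h', ne_eq, not_false_eq_true, and_self, if_true, if_false]
        have : 0 ≤ 1 / (4 * η ^ 2) := by positivity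
        linarith
      · have e2 := pow_le_pow_left₀ (norm_nonneg _) (s2_dk2 N hη (not_lt.mp h')) 2
        simp only [h, h', ne_eq, not_false_eq_true, and_false, if_true, if_false]
        have : (1 / (2 * η)) ^ 2 = 1 / (4 * η ^ 2) := by field_simp; norm_num
        linarith
  have h2 := sum_le_sum h1
  rw [sum_add_distrib, sum_add_distrib, ← mul_sum, ← mul_sum, ← sum_div, sum_boole, sum_boole,
    sum_boole, ← hT] at h2
  have h3 : #((s2P G).filter fun w => w.1.2 = w.2.2) ≤ #G := by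
    refine card_le_card_of_injOn Prod.fst (fun w hw => ?_) fun w hw w' hw' h => ?_
    · simp only [s2P, coe_filter, mem_filter, mem_product, Set.mem_ofPred_eq] at hw
      exact hw.1.1.1
    · simp only [s2P, coe_filter, mem_filter, mem_product, Set.mem_ofPred_eq] at hw hw'
      have e1 : w.2 = w.1 := Prod.ext hw.1.2.symm hw.2.symm
      have e2 : w'.2 = w'.1 := Prod.ext hw'.1.2.symm hw'.2.symm
      exact Prod.ext h (by rw [e1, e2, h])
  have h4 : #((s2P G).filter fun w => w.1.2 ≠ w.2.2) = Xi G 1 := by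
    simp [s2P, Xi, filter_filter]
  have h5 : ∀ w ∈ T, s2n w ≠ 0 ∧ |s2n w| ≤ (8 * Y ^ 2 : ℕ) ∧
      |t - (round (s2n w * t) : ℤ) / s2n w| ≤ η / (8 * A) := by
    intro w hw
    simp only [hT, s2P, mem_filter, mem_product] at hw
    obtain ⟨⟨⟨a1, a2⟩, -⟩, a3, a4⟩ := hw
    obtain ⟨b1, b2, b3⟩ := hG _ a1
    obtain ⟨-, -, b4⟩ := hG _ a2
    have c1 : 1 ≤ |(w.2.2 : ℤ) - w.1.2| := Int.one_le_abs (by omega)
    have c2 : |(w.2.2 : ℤ) - w.1.2| ≤ Y := by rw [abs_le]; omega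
    have c3 : |s2n w| = 8 * w.1.1 * |(w.2.2 : ℤ) - w.1.2| := by
      rw [s2n, abs_mul, abs_of_nonneg (by positivity)]
    have c4 : (8 * A : ℤ) ≤ |s2n w| := by
      rw [c3]; nlinarith [show (A : ℤ) ≤ w.1.1 by exact_mod_cast b1]
    have c5 : s2n w ≠ 0 := by
      intro h; rw [h, abs_zero] at c4; omega
    refine ⟨c5, ?_, ?_⟩
    · rw [c3]; push_cast
      nlinarith [show (w.1.1 : ℤ) ≤ Y by exact_mod_cast b2]
    · have d1 : (s2n w : ℝ) ≠ 0 := by exact_mod_cast c5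
      have d2 : (8 * A : ℝ) ≤ |(s2n w : ℝ)| := by exact_mod_cast c4
      have d3 : t - (round (s2n w * t) : ℤ) / s2n w =
          (s2n w * t - round (s2n w * t)) / s2n w := by field_simp
      rw [d3, abs_div]
      exact div_le_div₀ hη.le a4.le (by positivity) d2
  have h6 : ∃ x : ℝ, (x = 0 ∨ ∃ (c : ℤ) (d : ℕ), 0 < d ∧ d ≤ 8 * Y ^ 2 ∧ IsCoprime c d ∧
      |t - c / d| ≤ η / (8 * A) ∧ x = Xi G d) ∧ (#T : ℝ) ≤ x := by
    rcases T.eq_empty_or_nonempty with h | ⟨w, hw⟩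
    · exact ⟨0, Or.inl rfl, by simp [h]⟩
    obtain ⟨a1, a2, a3⟩ := h5 w hw
    set ρ : ℚ := (round (s2n w * t) : ℤ) / s2n w with hρ
    have hd : ∀ (c n : ℤ), ρ = c / n → (ρ.den : ℤ) ∣ n := by
      intro c n h
      rw [h, ← Rat.divInt_eq_div]; exact Rat.den_dvd c n
    refine ⟨_, Or.inr ⟨ρ.num, ρ.den, ρ.den_pos, ?_, ?_, ?_, rfl⟩, ?_⟩
    · have := Int.le_of_dvd (abs_pos.mpr a1) ((dvd_abs _ _).mpr (hd _ _ hρ))
      exact_mod_cast this.trans a2
    · exact Int.isCoprime_iff_gcd_eq_one.mpr ρ.reduced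
    · have : ((ρ.num : ℝ) / ρ.den) = (round (s2n w * t) : ℤ) / s2n w := by
        rw [← Rat.cast_def, hρ]; push_cast; rfl
      rwa [this]
    · refine Nat.cast_le.mpr (card_le_card fun v hv => ?_)
      obtain ⟨b1, b2, b3⟩ := h5 v hv
      have e := s2_near (D := 8 * Y ^ 2) (β := η / (8 * A)) ?_ a1 b1 a2 b2 a3 b3
      · have e2 := hd _ _ e
        simp only [hT, s2P, mem_filter, mem_product] at hv ⊢
        refine ⟨hv.1.1, hv.1.2, hv.2.1, ?_⟩
        have e3 : 8 * (v.1.1 : ℤ) * ((v.1.2 : ℤ) - v.2.2) = -s2n v := by unfold s2n; ring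
        rw [e3]; exact e2.neg_right
      · push_cast
        have : 2 * (η / (8 * A)) * (8 * (Y : ℝ) ^ 2) ^ 2 = 16 * η * Y ^ 4 / A := by
          field_simp; ring
        rw [this, div_lt_one hA']; exact hη2
  obtain ⟨x, hx, hx2⟩ := h6
  refine ⟨x, hx, h2.trans ?_⟩
  rw [h4]
  gcongr

theorem four (G : Finset (ℕ × ℕ)) (QQ : Finset ℕ) (J : Finset ℤ) {f g : ℤ → ℝ} {Y A y Q : ℕ}
    {η κ κ' XQ : ℝ} (hf : (Function.support f).Finite) (hg : (Function.support g).Finite)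
    (hA : 0 < A) (hG : ∀ z ∈ G, A ≤ z.1 ∧ z.1 ≤ Y ∧ z.2 ≤ Y)
    (hc : ∀ z ∈ G, z.1.Coprime (2 * z.2)) (hQ : ∀ q ∈ QQ, q + 2 < A * y)
    (hη : 0 < η) (hη2 : 16 * η * (Y : ℝ) ^ 4 < A) (hκ : 0 ≤ κ) (hκ' : 0 ≤ κ') (hX : 0 ≤ XQ)
    (h1 : ∀ t, ‖FT g t‖ ^ 2 ≤ κ' * ‖FT f t‖ ^ 2)
    (h2 : ∀ (t : ℝ) (c : ℤ) (d : ℕ), 0 < d → d ≤ Q → IsCoprime c d → |t - c / d| ≤ η / (8 * A) →
      ‖FT g t‖ ^ 2 ≤ κ * ‖FT f t‖ ^ 2)
    (hXQ : ∀ d : ℕ, Q < d → d ≤ 8 * Y ^ 2 → (Xi G d : ℝ) ≤ XQ) :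
    y * ∑ q ∈ QQ, ∑ a ∈ G.image Prod.fst, ∑ m ∈ J, (if (a : ℤ) ∣ m then GG G g q a m ^ 2 else 0) ≤
      (κ' * (4 * (y : ℝ) ^ 2 * #G + Xi G 1 / (4 * η ^ 2) + 4 * (y : ℝ) ^ 2 * XQ) +
        κ * (4 * (y : ℝ) ^ 2 * Xi G 1)) * ∑' k, f k ^ 2 := by
  have h3 : ∀ a ∈ G.image Prod.fst,
      y * ∑ q ∈ QQ, ∑ m ∈ J, (if (a : ℤ) ∣ m then GG G g q a m ^ 2 else 0) ≤
      ∑ z ∈ fib G a, ∑ z' ∈ fib G a, ∑' k, s2B g (s2n (z, z')) (2 * y) k ^ 2 := by
    intro a ha
    obtain ⟨z0, hz0, rfl⟩ := mem_image.mp ha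
    have a0 := (hG _ hz0).1
    set a := z0.1
    let Φ : ℤ → ℝ := fun x => ∑ m ∈ J,
      if (a : ℤ) ∣ m then (∑ z ∈ fib G a, g (m + 8 * x * z.2)) ^ 2 else 0
    have e1 := s2_maj QQ (a := a) (y := y) (by omega)
      (fun q hq => (hQ q hq).trans_le (Nat.mul_le_mul_right _ a0)) Φ
      fun x => sum_nonneg fun m _ => by split_ifs <;> positivity
    refine le_trans e1 ?_
    have e2 : ∀ x : ℤ, Φ x ≤ ∑ z ∈ fib G a, ∑ z' ∈ fib G a, ∑' m : ℤ,
        (if (a : ℤ) ∣ m then (1 : ℝ) else 0) * g (m + 8 * x * z.2) * g (m + 8 * x * z'.2) := by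
      intro x
      have e3 : ∀ m : ℤ, (if (a : ℤ) ∣ m then (∑ z ∈ fib G a, g (m + 8 * x * z.2)) ^ 2 else 0) =
          ∑ z ∈ fib G a, ∑ z' ∈ fib G a,
          (if (a : ℤ) ∣ m then (1 : ℝ) else 0) * g (m + 8 * x * z.2) * g (m + 8 * x * z'.2) := by
        intro m
        split_ifs
        · simp [sq, sum_mul_sum]
        · simp
      simp_rw [← Summable.tsum_finsetSum fun z' (_ : z' ∈ fib G a) => s2_sm hg (8 * x * z'.2) _]
      rw [← Summable.tsum_finsetSum fun z _ => summable_sum fun z' _ => s2_sm hg _ _]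
      simp_rw [← e3]
      refine Summable.sum_le_tsum J (fun m _ => by split_ifs <;> positivity) ?_
      simp_rw [e3]
      exact summable_sum fun z _ => summable_sum fun z' _ => s2_sm hg _ _
    refine (sum_le_sum fun r _ => sum_le_sum fun i _ => sum_le_sum fun j _ => e2 _).trans ?_
    simp_rw [sum_comm (s := range (2 * y)) (t := fib G a), sum_comm (s := range a) (t := fib G a)]
    refine sum_le_sum fun z hz => sum_le_sum fun z' hz' => ?_
    rw [fib, mem_filter] at hz hz'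
    have := s2_phys hg (hz.2 ▸ hc z hz.1) (hz'.2 ▸ hc z' hz'.1) (2 * y)
    simpa only [s2n, hz.2] using this
  have h4 : ∑ a ∈ G.image Prod.fst, ∑ z ∈ fib G a, ∑ z' ∈ fib G a,
      ∑' k, s2B g (s2n (z, z')) (2 * y) k ^ 2 = ∑ w ∈ s2P G, ∑' k, s2B g (s2n w) (2 * y) k ^ 2 := by
    rw [← sum_fiberwise_of_maps_to (s := s2P G) (t := G.image Prod.fst) (g := fun w => w.1.1)]
    · refine sum_congr rfl fun a _ => ?_
      rw [← sum_product']
      refine sum_congr ?_ fun _ _ => rfl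
      ext w
      simp only [fib, s2P, mem_product, mem_filter]
      constructor
      · rintro ⟨⟨a1, a2⟩, a3, a4⟩
        exact ⟨⟨⟨a1, a3⟩, a2.trans a4.symm⟩, a2⟩
      · rintro ⟨⟨⟨a1, a3⟩, a2⟩, a4⟩
        exact ⟨⟨a1, a4⟩, a3, a2.symm.trans a4⟩
    · intro w hw
      simp only [s2P, mem_product, mem_filter] at hw
      exact mem_image_of_mem _ hw.1.1
  rw [sum_comm, mul_sum]
  refine (sum_le_sum h3).trans ?_
  rw [h4]
  have cf := FT_cont hf
  have cB := fun w => FT_cont (s2B_fin hg (s2n w) (2 * y))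
  simp_rw [fun w => parseval (s2B_fin hg (s2n w) (2 * y))]
  rw [parseval hf, ← intervalIntegral.integral_const_mul,
    ← intervalIntegral.integral_finsetSum fun w _ =>
      Continuous.intervalIntegrable (by have := cB w; fun_prop) _ _]
  refine intervalIntegral.integral_mono_on zero_le_one
    (Continuous.intervalIntegrable (continuous_finsetSum _ fun w _ => by have := cB w; fun_prop) _ _)
    (Continuous.intervalIntegrable (by fun_prop) _ _) fun t _ => ?_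
  simp_rw [FT_B hg, norm_mul, mul_pow]
  rw [← mul_sum]
  obtain ⟨x, hx, hx2⟩ := s2_pt G (N := 2 * y) hA hG hη hη2 t
  have e0 : ((2 * y : ℕ) : ℝ) ^ 2 = 4 * (y : ℝ) ^ 2 := by push_cast; ring
  rw [e0] at hx2
  refine (mul_le_mul_of_nonneg_left hx2 (sq_nonneg _)).trans ?_
  have e1 := h1 t
  set u := ‖FT g t‖ ^ 2
  set v := ‖FT f t‖ ^ 2
  have u0 : 0 ≤ u := sq_nonneg _
  have v0 : 0 ≤ v := sq_nonneg _
  have e2 : u * x ≤ κ' * v * XQ + κ * v * Xi G 1 := by
    have p1 : 0 ≤ κ' * v * XQ := by positivity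
    have p2 : 0 ≤ κ * v * Xi G 1 := by positivity
    rcases hx with rfl | ⟨c, d, d0, d1, d2, d3, rfl⟩
    · linarith
    · rcases le_or_gt d Q with h | h
      · have e3 := h2 t c d d0 h d2 d3
        have e4 : (Xi G d : ℝ) ≤ Xi G 1 := by
          refine Nat.cast_le.mpr (card_le_card fun w hw => ?_)
          simp only [mem_filter] at hw ⊢
          exact ⟨hw.1, hw.2.1, hw.2.2.1, by simp⟩
        have := mul_le_mul e3 e4 (Nat.cast_nonneg _) (by positivity)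
        linarith
      · have := mul_le_mul e1 (hXQ d h d1) (Nat.cast_nonneg _) (by positivity)
        linarith
  have e5 := mul_le_mul_of_nonneg_right e1
    (show 0 ≤ 4 * (y : ℝ) ^ 2 * #G + Xi G 1 / (4 * η ^ 2) by positivity)
  have e6 := mul_le_mul_of_nonneg_left e2 (show 0 ≤ 4 * (y : ℝ) ^ 2 by positivity)
  nlinarith

end Pool.Agent.H84D
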