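import Pool.Agent.H84D.Ker
import Pool.Agent.H84D.S2

set_option autoImplicit false

/-! The Fourier transform of the major arc kernel. -/

namespace Pool.Agent.H84D

open Finset

/-- Fourier transform of the tent -/
noncomputable def psiH (h : ℕ) (x : ℝ) : ℝ :=
  ∑ j ∈ Ioo (-(h : ℤ)) h, psi h j * Real.cos (2 * Real.pi * j * x)

theorem psiH_eq (h : ℕ) (x : ℝ) : psiH h x =
    ‖∑ i ∈ range h, Complex.exp (2 * Real.pi * Complex.I * i * (x : ℂ))‖ ^ 2 / (h : ℝ) ^ 2 := by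
  have h1 := tent_sum (E := ℝ) h fun j => Real.cos (2 * Real.pi * j * x)
  simp only [smul_eq_mul] at h1
  have h2 : ∀ i : ℕ, Complex.exp (2 * Real.pi * Complex.I * i * (x : ℂ))
      = Complex.exp (((2 * Real.pi * i * x : ℝ) : ℂ) * Complex.I) := by
    intro i
    congr 1
    push_cast
    ring
  unfold psiH
  rw [h1, Complex.sq_norm, Complex.normSq_apply, Complex.re_sum, Complex.im_sum]
  simp only [h2, Complex.exp_ofReal_mul_I_re, Complex.exp_ofReal_mul_I_im]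
  rw [sum_mul_sum, sum_mul_sum, ← sum_add_distrib, sum_product, one_div, inv_mul_eq_div]
  congr 1
  refine sum_congr rfl fun i _ => ?_
  rw [← sum_add_distrib]
  refine sum_congr rfl fun k _ => ?_
  rw [← Real.cos_sub]
  congr 1
  push_cast
  ring

theorem psiH_nonneg (h : ℕ) (x : ℝ) : 0 ≤ psiH h x := by
  rw [psiH_eq]
  positivity

theorem psiH_le_one {h : ℕ} (hh : 0 < h) (x : ℝ) : psiH h x ≤ 1 := by
  have h0 : (0 : ℝ) < h := by exact_mod_cast hh
  rw [psiH_eq, div_le_one (by positivity)]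
  exact pow_le_pow_left₀ (norm_nonneg _) (s2_dk1 h x) 2

theorem psiH_far {h : ℕ} {x η : ℝ} (hη : 0 < η) (hx : η ≤ |x - round x|) :
    psiH h x ≤ (1 / (2 * η)) ^ 2 / (h : ℝ) ^ 2 := by
  rw [psiH_eq]
  exact div_le_div_of_nonneg_right (pow_le_pow_left₀ (norm_nonneg _) (s2_dk2 h hη hx) 2)
    (by positivity)

theorem psiH_neg (h : ℕ) (x : ℝ) : psiH h (-x) = psiH h x := by
  unfold psiH
  refine sum_congr rfl fun j _ => ?_
  rw [mul_neg, Real.cos_neg]

theorem psiH_add_int (h : ℕ) (x : ℝ) (n : ℤ) : psiH h (x + n) = psiH h x := by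
  unfold psiH
  refine sum_congr rfl fun j _ => ?_
  rw [← Real.cos_add_int_mul_two_pi (2 * Real.pi * j * x) (j * n)]
  congr 2
  push_cast
  ring

theorem psiH_ge {h : ℕ} (hh : 0 < h) (x : ℝ) : 1 - 20 * ((h : ℝ) * x) ^ 2 ≤ psiH h x := by
  have h1 : (1 - 20 * ((h : ℝ) * x) ^ 2)
      = ∑ j ∈ Ioo (-(h : ℤ)) h, psi h j * (1 - 20 * ((h : ℝ) * x) ^ 2) := by
    rw [← sum_mul, sum_psi hh, one_mul]
  rw [h1]
  unfold psiH
  refine sum_le_sum fun j hj => mul_le_mul_of_nonneg_left ?_ (psi_nonneg h j)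
  refine le_trans ?_ (Real.one_sub_sq_div_two_le_cos (x := 2 * Real.pi * j * x))
  rw [mem_Ioo] at hj
  have h2 : (j : ℝ) ^ 2 ≤ (h : ℝ) ^ 2 := by
    have a1 : -(h : ℝ) ≤ j := by exact_mod_cast hj.1.le
    have a2 : (j : ℝ) ≤ h := by exact_mod_cast hj.2.le
    exact sq_le_sq' a1 a2
  have h3 : Real.pi ^ 2 ≤ 10 := by
    have := Real.pi_lt_d2
    have := Real.pi_pos
    nlinarith
  have h4 : Real.pi ^ 2 * (j : ℝ) ^ 2 ≤ 10 * (h : ℝ) ^ 2 :=
    mul_le_mul h3 h2 (sq_nonneg _) (by norm_num)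
  have h5 := mul_le_mul_of_nonneg_right h4 (sq_nonneg x)
  nlinarith

/-- one half of the transform of the kernel -/
noncomputable def kH1 (Q h : ℕ) (t : ℝ) : ℝ :=
  ∑ d ∈ Icc 1 Q, ∑ c ∈ un d, psiH h (t - (c : ℝ) / d)

theorem farey_sep {Q d d' c c' : ℕ} (hd : d ∈ Icc 1 Q) (hd' : d' ∈ Icc 1 Q) (hc : c ∈ un d)
    (hc' : c' ∈ un d') {n : ℤ} (hn : |(c : ℝ) / d - c' / d' - n| < 1 / (Q : ℝ) ^ 2) :
    d = d' ∧ c = c' := by
  rw [mem_Icc] at hd hd'
  unfold un at hc hc'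
  rw [mem_filter, mem_range] at hc hc'
  have p1 : (0 : ℝ) < d := by exact_mod_cast hd.1
  have p2 : (0 : ℝ) < d' := by exact_mod_cast hd'.1
  have q1 : (d : ℝ) ≤ Q := by exact_mod_cast hd.2
  have q2 : (d' : ℝ) ≤ Q := by exact_mod_cast hd'.2
  have pQ : (0 : ℝ) < Q := p1.trans_le q1
  have e1 : (((c : ℤ) * d' - c' * d - n * d * d' : ℤ) : ℝ)
      = ((c : ℝ) / d - c' / d' - n) * (d * d') := by
    push_cast
    field_simp
  have e2 : |(((c : ℤ) * d' - c' * d - n * d * d' : ℤ) : ℝ)| < 1 := by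
    rw [e1, abs_mul, abs_of_pos (mul_pos p1 p2)]
    have a1 : (d : ℝ) * d' ≤ (Q : ℝ) ^ 2 := by nlinarith
    calc _ < 1 / (Q : ℝ) ^ 2 * (d * d') := mul_lt_mul_of_pos_right hn (mul_pos p1 p2)
      _ ≤ 1 / (Q : ℝ) ^ 2 * (Q : ℝ) ^ 2 := mul_le_mul_of_nonneg_left a1 (by positivity)
      _ = 1 := by field_simp
  have e3 : (c : ℤ) * d' - c' * d - n * d * d' = 0 := by
    have : |(c : ℤ) * d' - c' * d - n * d * d'| < 1 := by exact_mod_cast e2
    exact Int.abs_lt_one_iff.1 this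
  have f1 : d ∣ d' := by
    have : (d : ℤ) ∣ c * d' := ⟨c' + n * d', by linarith⟩
    have h2 : d ∣ c * d' := by exact_mod_cast this
    exact hc.2.symm.dvd_of_dvd_mul_left h2
  have f2 : d' ∣ d := by
    have : (d' : ℤ) ∣ c' * d := ⟨c - n * d, by linarith⟩
    have h2 : d' ∣ c' * d := by exact_mod_cast this
    exact hc'.2.symm.dvd_of_dvd_mul_left h2
  have f3 : d = d' := Nat.dvd_antisymm f1 f2
  subst f3
  refine ⟨rfl, ?_⟩
  have p3 : (0 : ℤ) < d := by exact_mod_cast hd.1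
  have g1 : (c : ℤ) - c' = n * d := by
    apply mul_right_cancel₀ p3.ne'
    linarith
  have g2 : (d : ℤ) ∣ (c : ℤ) - c' := ⟨n, by linarith⟩
  have g3 : (c : ℤ) - c' = 0 := Int.eq_zero_of_abs_lt_dvd g2 (by rw [abs_lt]; omega)
  omega

theorem kH1_nonneg (Q h : ℕ) (t : ℝ) : 0 ≤ kH1 Q h t :=
  sum_nonneg fun _ _ => sum_nonneg fun _ _ => psiH_nonneg _ _

theorem kH1_le {Q h : ℕ} (hQ : 1 ≤ Q) (hh : 0 < h) (t : ℝ) :
    kH1 Q h t ≤ 1 + (Q : ℝ) ^ 6 / (h : ℝ) ^ 2 := by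
  have pQ : (0 : ℝ) < Q := by exact_mod_cast hQ
  unfold kH1
  rw [sum_sigma']
  set P := (Icc 1 Q).sigma un with hP
  set nr : (Σ _ : ℕ, ℕ) → Prop := fun z =>
    |t - (z.2 : ℝ) / z.1 - round (t - (z.2 : ℝ) / z.1)| < 1 / (2 * (Q : ℝ) ^ 2) with hnr
  classical
  rw [← sum_filter_add_sum_filter_not P nr]
  refine add_le_add ?_ ?_
  · refine (sum_le_card_nsmul _ _ 1 fun z _ => psiH_le_one hh _).trans ?_
    have : #(P.filter nr) ≤ 1 := by
      rw [card_le_one]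
      rintro ⟨d, c⟩ hz ⟨d', c'⟩ hz'
      rw [mem_filter, hP, mem_sigma] at hz hz'
      have a1 := hz.2
      have a2 := hz'.2
      simp only [hnr] at a1 a2
      have key := farey_sep hz.1.1 hz'.1.1 hz.1.2 hz'.1.2
        (n := round (t - (c' : ℝ) / d') - round (t - (c : ℝ) / d)) (by
          have e : (1 : ℝ) / (Q : ℝ) ^ 2 = 1 / (2 * (Q : ℝ) ^ 2) + 1 / (2 * (Q : ℝ) ^ 2) := by
            field_simp
            norm_num
          rw [abs_lt] at a1 a2 ⊢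
          push_cast
          constructor <;> linarith [a1.1, a1.2, a2.1, a2.2])
      obtain ⟨rfl, rfl⟩ := key
      rfl
    simpa using this
  · have b1 : ∀ z ∈ P.filter fun z => ¬ nr z,
        psiH h (t - (z.2 : ℝ) / z.1) ≤ (Q : ℝ) ^ 4 / (h : ℝ) ^ 2 := by
      intro z hz
      have a1 := not_lt.1 (mem_filter.1 hz).2
      refine (psiH_far (by positivity) a1).trans (le_of_eq ?_)
      congr 1
      field_simp
    refine (sum_le_card_nsmul _ _ _ b1).trans ?_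
    have b2 : #(P.filter fun z => ¬ nr z) ≤ Q * Q := by
      refine (card_filter_le _ _).trans ?_
      rw [hP, card_sigma]
      refine (sum_le_card_nsmul _ _ Q fun d hd => (card_un_le d).trans (mem_Icc.1 hd).2).trans ?_
      simp
    have b3 : (#(P.filter fun z => ¬ nr z) : ℝ) ≤ Q * Q := by exact_mod_cast b2
    rw [nsmul_eq_mul]
    calc _ ≤ (Q * Q : ℝ) * ((Q : ℝ) ^ 4 / (h : ℝ) ^ 2) :=
          mul_le_mul_of_nonneg_right b3 (by positivity)
      _ = _ := by ring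

theorem kH1_ge {Q h : ℕ} (hh : 0 < h) {β t : ℝ} {c : ℤ} {d : ℕ} (hd : 0 < d) (hdQ : d ≤ Q)
    (hc : IsCoprime c d) (ht : |t - c / d| ≤ β) : 1 - 20 * ((h : ℝ) * β) ^ 2 ≤ kH1 Q h t := by
  have p1 : (0 : ℤ) < d := by exact_mod_cast hd
  have p2 : (0 : ℝ) < d := by exact_mod_cast hd
  obtain ⟨r, hr⟩ : ∃ r : ℕ, (r : ℤ) = c % d := ⟨(c % d).toNat,
    Int.toNat_of_nonneg (Int.emod_nonneg _ p1.ne')⟩
  have e1 : c = r + d * (c / d) := by rw [hr]; exact (Int.emod_add_mul_ediv c d).symm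
  have hm : r ∈ un d := by
    unfold un
    rw [mem_filter, mem_range]
    refine ⟨by have := Int.emod_lt_of_pos c p1; omega, ?_⟩
    rw [← Nat.isCoprime_iff_coprime]
    rw [e1] at hc
    exact hc.of_add_mul_left_left
  have e2 : t - (r : ℝ) / d = (t - c / d) + ((c / d : ℤ) : ℝ) := by
    have : (c : ℝ) = r + d * ((c / d : ℤ) : ℝ) := by exact_mod_cast e1
    rw [this]
    field_simp
    ring
  have a1 : psiH h (t - (r : ℝ) / d) ≤ kH1 Q h t := by
    unfold kH1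
    refine le_trans ?_ (single_le_sum (f := fun d : ℕ => ∑ c ∈ un d, psiH h (t - (c : ℝ) / d))
      (fun _ _ => sum_nonneg fun _ _ => psiH_nonneg _ _) (mem_Icc.2 ⟨hd, hdQ⟩))
    exact single_le_sum (f := fun c : ℕ => psiH h (t - (c : ℝ) / d))
      (fun _ _ => psiH_nonneg _ _) hm
  refine le_trans ?_ a1
  rw [e2, psiH_add_int]
  refine le_trans ?_ (psiH_ge hh _)
  have a2 : (t - c / d) ^ 2 ≤ β ^ 2 := by
    rw [← sq_abs]
    exact pow_le_pow_left₀ (abs_nonneg _) ht 2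
  have a3 := mul_le_mul_of_nonneg_left a2 (sq_nonneg (h : ℝ))
  nlinarith

/-- the transform of the kernel -/
noncomputable def kH (Q h : ℕ) (t : ℝ) : ℝ := (kH1 Q h t + kH1 Q h (-t)) / 2

theorem kH_cos (Q h : ℕ) (t : ℝ) :
    ∑ j ∈ Ioo (-(h : ℤ)) h, KK Q h j * Real.cos (2 * Real.pi * j * t) = kH Q h t := by
  unfold kH kH1 KK ram
  rw [← sum_add_distrib, sum_div]
  simp only [mul_sum, sum_mul]
  rw [sum_comm]
  refine sum_congr rfl fun d _ => ?_
  rw [sum_comm, ← sum_add_distrib, sum_div]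
  refine sum_congr rfl fun c _ => ?_
  unfold psiH
  rw [← sum_add_distrib, sum_div]
  refine sum_congr rfl fun j _ => ?_
  have e1 : 2 * Real.pi * j * (t - (c : ℝ) / d)
      = 2 * Real.pi * j * t - 2 * Real.pi * (c * j / d) := by ring
  have e2 : 2 * Real.pi * j * (-t - (c : ℝ) / d)
      = -(2 * Real.pi * j * t + 2 * Real.pi * (c * j / d)) := by ring
  rw [e1, e2, Real.cos_neg, Real.cos_sub, Real.cos_add]
  ring

theorem kH_sin (Q h : ℕ) (t : ℝ) :
    ∑ j ∈ Ioo (-(h : ℤ)) h, KK Q h j * Real.sin (2 * Real.pi * j * t) = 0 := by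
  refine sum_involution (fun j _ => -j) (fun j _ => ?_) (fun j _ hj hc => hj ?_)
    (fun j hj => ?_) (fun j _ => neg_neg j)
  · rw [KK_neg]
    push_cast
    rw [mul_neg, neg_mul, Real.sin_neg]
    ring
  · have : j = 0 := by omega
    simp [this]
  · rw [mem_Ioo] at hj ⊢
    omega

theorem FT_KK (Q h : ℕ) (t : ℝ) : FT (KK Q h) t = (kH Q h t : ℂ) := by
  unfold FT
  rw [tsum_eq_sum (s := Ioo (-(h : ℤ)) h) (fun j hj => by rw [KK_eq_zero hj]; simp)]
  have e : ∀ j : ℤ, Complex.exp (-(2 * Real.pi * Complex.I * j * t))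
      = (Real.cos (2 * Real.pi * j * t) : ℂ) - (Real.sin (2 * Real.pi * j * t) : ℂ) * Complex.I := by
    intro j
    have : -(2 * Real.pi * Complex.I * j * t : ℂ) = (-(2 * Real.pi * j * t)) * Complex.I := by ring
    rw [this, Complex.exp_mul_I, Complex.cos_neg, Complex.sin_neg]
    push_cast
    ring
  have a1 := congrArg (fun x : ℝ => (x : ℂ)) (kH_cos Q h t)
  have a2 := congrArg (fun x : ℝ => (x : ℂ)) (kH_sin Q h t)
  simp only [Complex.ofReal_sum, Complex.ofReal_mul (KK Q h _), Complex.ofReal_zero] at a1 a2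
  simp only [e, mul_sub, ← mul_assoc]
  rw [sum_sub_distrib, ← sum_mul, a1, a2, zero_mul, sub_zero]

theorem ind_fin (S : Finset ℤ) : (Function.support (ind S)).Finite := by
  refine S.finite_toSet.subset fun k hk => ?_
  by_contra hc
  exact hk (if_neg hc)

theorem KK_fin (Q h : ℕ) : (Function.support (KK Q h)).Finite := by
  refine (Ioo (-(h : ℤ)) h).finite_toSet.subset fun k hk => ?_
  by_contra hc
  exact hk (KK_eq_zero hc)

theorem gg_fin {Q h : ℕ} (hh : 0 < h) (S : Finset ℤ) :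
    (Function.support (gg Q h S)).Finite := by
  obtain ⟨B, hB⟩ := S.bddAbove
  obtain ⟨A, hA⟩ := S.bddBelow
  have hS : S ⊆ Ioc (A - 1) B := fun k hk => by
    have a1 := hB (mem_coe.2 hk)
    have a2 := hA (mem_coe.2 hk)
    rw [mem_Ioc]
    omega
  exact (Set.finite_Ioo (A - 1 - h) (B + h)).subset fun k hk => gg_supp hh hS hk

theorem tsum_ind_sq (S : Finset ℤ) : ∑' k, ind S k ^ 2 = #S := by
  rw [tsum_eq_sum (s := S) (fun k hk => by simp [ind, hk])]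
  rw [sum_congr rfl (g := fun _ => (1 : ℝ)) (fun k hk => by simp [ind, hk])]
  simp

theorem FT_ind (S : Finset ℤ) (t : ℝ) :
    FT (ind S) t = ∑ k ∈ S, Complex.exp (-(2 * Real.pi * Complex.I * k * t)) := by
  unfold FT
  rw [tsum_eq_sum (s := S) (fun k hk => by simp [ind, hk])]
  exact sum_congr rfl fun k hk => by simp [ind, hk]

theorem FT_gg (Q h : ℕ) (S : Finset ℤ) (t : ℝ) :
    FT (gg Q h S) t = FT (ind S) t * ((1 - kH Q h t : ℝ) : ℂ) := by
  have s1 : Summable fun m : ℤ =>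
      (ind S m : ℂ) * Complex.exp (-(2 * Real.pi * Complex.I * m * t)) := by
    simpa using s2_smc (ind_fin S) 0 fun m => Complex.exp (-(2 * Real.pi * Complex.I * m * t))
  have s2 : ∀ k : ℤ, Summable fun m : ℤ =>
      (KK Q h (m - k) : ℂ) * Complex.exp (-(2 * Real.pi * Complex.I * m * t)) := fun k => by
    simpa only [sub_eq_add_neg] using
      s2_smc (KK_fin Q h) (-k) fun m => Complex.exp (-(2 * Real.pi * Complex.I * m * t))
  have s3 : ∀ k : ℤ, ∑' m : ℤ,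
      (KK Q h (m - k) : ℂ) * Complex.exp (-(2 * Real.pi * Complex.I * m * t))
      = Complex.exp (-(2 * Real.pi * Complex.I * k * t)) * (kH Q h t : ℂ) := fun k => by
    rw [← FT_KK]
    unfold FT
    rw [← tsum_mul_left, ← (Equiv.addRight k).tsum_eq]
    refine tsum_congr fun m => ?_
    simp only [Equiv.coe_addRight, add_sub_cancel_right]
    rw [mul_left_comm, ← Complex.exp_add]
    congr 2
    push_cast
    ring
  have e1 : FT (gg Q h S) t = FT (ind S) t - ∑ k ∈ S, ∑' m : ℤ,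
      (KK Q h (m - k) : ℂ) * Complex.exp (-(2 * Real.pi * Complex.I * m * t)) := by
    rw [← Summable.tsum_finsetSum fun k _ => s2 k]
    unfold FT
    rw [← s1.tsum_sub (summable_sum fun k _ => s2 k)]
    refine tsum_congr fun m => ?_
    unfold gg cv
    push_cast
    rw [sub_mul, sum_mul]
  rw [e1]
  simp only [s3]
  rw [← sum_mul, ← FT_ind]
  push_cast
  ring

theorem FT_gg_sq (Q h : ℕ) (S : Finset ℤ) (t : ℝ) :
    ‖FT (gg Q h S) t‖ ^ 2 = (1 - kH Q h t) ^ 2 * ‖FT (ind S) t‖ ^ 2 := by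
  rw [FT_gg, norm_mul, Complex.norm_real, Real.norm_eq_abs, mul_pow, sq_abs, mul_comm]

theorem FT_gg_le {Q h : ℕ} (hQ : 1 ≤ Q) (hh : Q ^ 3 ≤ h) (S : Finset ℤ) (t : ℝ) :
    ‖FT (gg Q h S) t‖ ^ 2 ≤ 1 * ‖FT (ind S) t‖ ^ 2 := by
  have h0 : 0 < h := lt_of_lt_of_le (pow_pos hQ 3) hh
  have h1 : (0 : ℝ) < h := by exact_mod_cast h0
  have h2 : (Q : ℝ) ^ 3 ≤ h := by exact_mod_cast hh
  have h3 : (Q : ℝ) ^ 6 / (h : ℝ) ^ 2 ≤ 1 := by
    rw [div_le_one (by positivity)]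
    calc (Q : ℝ) ^ 6 = ((Q : ℝ) ^ 3) ^ 2 := by ring
      _ ≤ _ := pow_le_pow_left₀ (by positivity) h2 2
  rw [FT_gg_sq]
  refine mul_le_mul_of_nonneg_right ?_ (sq_nonneg _)
  have a1 := kH1_le hQ h0 t
  have a2 := kH1_le hQ h0 (-t)
  have a3 := kH1_nonneg Q h t
  have a4 := kH1_nonneg Q h (-t)
  rw [sq_le_one_iff_abs_le_one, abs_le]
  unfold kH
  constructor <;> linarith

theorem FT_gg_near {Q h : ℕ} (hQ : 1 ≤ Q) (hh : Q ^ 3 ≤ h) (S : Finset ℤ) {β t : ℝ} {c : ℤ}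
    {d : ℕ} (hd : 0 < d) (hdQ : d ≤ Q) (hc : IsCoprime c d) (ht : |t - c / d| ≤ β) :
    ‖FT (gg Q h S) t‖ ^ 2 ≤ (20 * ((h : ℝ) * β) ^ 2 + (Q : ℝ) ^ 6 / (h : ℝ) ^ 2) ^ 2
      * ‖FT (ind S) t‖ ^ 2 := by
  have h0 : 0 < h := lt_of_lt_of_le (pow_pos hQ 3) hh
  rw [FT_gg_sq]
  refine mul_le_mul_of_nonneg_right ?_ (sq_nonneg _)
  have a1 := kH1_le hQ h0 t
  have a2 := kH1_le hQ h0 (-t)
  have a3 := kH1_ge h0 hd hdQ hc ht
  have a4 := kH1_ge (Q := Q) (β := β) (t := -t) (c := -c) h0 hd hdQ hc.neg_left (by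
    rw [← abs_neg]
    push_cast
    rw [show -(-t - -(c : ℝ) / d) = t - c / d by ring]
    exact ht)
  have a5 : 0 ≤ 20 * ((h : ℝ) * β) ^ 2 := by positivity
  have a6 : 0 ≤ (Q : ℝ) ^ 6 / (h : ℝ) ^ 2 := by positivity
  unfold kH
  apply sq_le_sq' <;> linarith

end Pool.Agent.H84D
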