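import Pool.Agent.H84D.Mdef
import Pool.Agent.H84D.Hh
import Pool.Agent.MP_a96b63_al.V.SW

set_option autoImplicit false

/-! Long averages of the representation weights. -/

namespace Pool.Agent.H84D.Lg

open Finset Filter Pool.Agent.MP_a96b63_al.H5

theorem sw_long (A B k : ℕ) : ∀ᶠ x : ℕ in atTop, ∀ q c j : ℕ, 0 < q → (q : ℝ) ≤ Real.log x ^ B →
    c.Coprime q → x ≤ j → j ≤ 2 ^ k * x →
      |∑ n ∈ Ioc x j, apl q c n - ((j : ℝ) - x) / q.totient| ≤ 2 ^ k * x / Real.log x ^ A := by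
  obtain ⟨x₀, H⟩ := eventually_atTop.1 (sw A B)
  filter_upwards [eventually_ge_atTop x₀, ev_log_ge 1, eventually_gt_atTop 0] with x h0 h1 x0
    q c j hq hqL hc hj
  induction k generalizing j with
  | zero =>
    intro h
    have : j = x := by omega
    subst this
    simp only [Ioc_self, sum_empty, sub_self, zero_div, abs_zero]
    positivity
  | succ k ih =>
    intro h
    have l0 : 0 < Real.log x ^ A := by positivity
    rcases le_total j (2 ^ k * x) with h2 | h2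
    · refine (ih j hj h2).trans ?_
      gcongr
      · norm_num
      · omega
    · have h3 : x ≤ 2 ^ k * x := Nat.le_mul_of_pos_left _ (by positivity)
      have h4 : Real.log x ≤ Real.log (2 ^ k * x : ℕ) :=
        Real.log_le_log (by exact_mod_cast x0) (by exact_mod_cast h3)
      have a := ih _ h3 le_rfl
      have b := H (2 ^ k * x) (h0.trans h3) q c (2 ^ k * x) j hq
        (hqL.trans (pow_le_pow_left₀ (by linarith) h4 B)) hc le_rfl h2 (by rw [pow_succ] at h; linarith)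
      have b2 : ((2 ^ k * x : ℕ) : ℝ) / Real.log (2 ^ k * x : ℕ) ^ A ≤ 2 ^ k * x / Real.log x ^ A := by
        rw [show (2 : ℝ) ^ k * x = (2 ^ k * x : ℕ) by push_cast; rfl]
        exact div_le_div_of_nonneg_left (Nat.cast_nonneg _) l0 (pow_le_pow_left₀ (by linarith) h4 A)
      rw [← sum_Ioc_consecutive _ h3 h2]
      have e : ((j : ℝ) - x) / q.totient = (((2 ^ k * x : ℕ) : ℝ) - x) / q.totient +
          ((j : ℝ) - (2 ^ k * x : ℕ)) / q.totient := by ring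
      have e2 : (2 : ℝ) ^ (k + 1) * x / Real.log x ^ A =
          2 ^ k * x / Real.log x ^ A + 2 ^ k * x / Real.log x ^ A := by ring
      rw [e, e2, add_sub_add_comm]
      exact (abs_add_le _ _).trans (add_le_add a (b.trans b2))

theorem sum_PC (a b d r : ℕ) (p : ℕ → Prop) [DecidablePred p] :
    ∑ n ∈ PC a b d r, (if p n then Real.log n else 0) = ∑ n ∈ Ioc a b with p n, apl d r n := by
  simp only [PC, PP, sum_filter, apl, lam]
  refine sum_congr rfl fun n _ => ?_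
  split_ifs <;> rfl

/-- primes of one class in an interval with real end points -/
theorem pc_real (A B k : ℕ) : ∀ᶠ L : ℝ in atTop, ∀ (d c N N' : ℕ) (t₁ t₂ : ℝ), 0 < d →
    (d : ℝ) ≤ L ^ B → c.Coprime d → √L ≤ Real.log N → N' ≤ 2 ^ k * N → N ≤ t₁ → t₁ ≤ t₂ → t₂ ≤ N' →
      |∑ p ∈ PC N N' d c, (if t₁ < p ∧ p ≤ t₂ then Real.log p else 0) - (t₂ - t₁) / d.totient| ≤
        N / L ^ A := by
  obtain ⟨x₀, H⟩ := eventually_atTop.1 (sw_long (2 * (A + 1)) (2 * B) k)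
  filter_upwards [eventually_ge_atTop (2 ^ (k + 2) : ℝ), eventually_ge_atTop (1 : ℝ),
    par_const_rpow x₀ (show (0 : ℝ) < 1 / 2 by norm_num),
    par_rpow_exp 2 A (show (0 : ℝ) < 1 / 2 by norm_num) one_pos]
    with L h1 h2 h3 h4 d c N N' t₁ t₂ d0 d1 hc hN hN' a1 a2 a3
  rw [one_mul, Real.rpow_natCast] at h4
  rw [← Real.sqrt_eq_rpow] at h3 h4
  have s0 : 0 < √L := Real.sqrt_pos.2 (by linarith)
  have n1 := le_of_le_log s0 hN
  have n0 : (0 : ℝ) ≤ N := N.cast_nonneg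
  have x1 : x₀ ≤ N := by
    exact_mod_cast h3.trans (hN.trans (Real.log_le_self n0))
  have pw : ∀ m : ℕ, L ^ m ≤ Real.log N ^ (2 * m) := fun m => by
    rw [pow_mul]
    refine pow_le_pow_left₀ (by linarith) ?_ m
    rw [← Real.sq_sqrt (show 0 ≤ L by linarith)]
    exact pow_le_pow_left₀ s0.le hN 2
  have t0 : 0 ≤ t₁ := n0.trans a1
  have j1 : N ≤ ⌊t₁⌋₊ := Nat.le_floor a1
  have j2 : ⌊t₁⌋₊ ≤ ⌊t₂⌋₊ := Nat.floor_mono a2
  have j3 : ⌊t₂⌋₊ ≤ N' := Nat.floor_le_of_le a3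
  have e : (Ioc N N').filter (fun p : ℕ => t₁ < p ∧ p ≤ t₂) = Ioc ⌊t₁⌋₊ ⌊t₂⌋₊ := by
    ext n
    simp only [mem_filter, mem_Ioc, ← Nat.floor_lt t0, ← Nat.le_floor_iff (t0.trans a2)]
    omega
  have b1 := H N x1 d c _ d0 (d1.trans (pw B)) hc j1 (j2.trans (j3.trans hN'))
  have b2 := H N x1 d c _ d0 (d1.trans (pw B)) hc (j1.trans j2) (j3.trans hN')
  have L0 : 0 < L ^ A := by positivity
  have b3 : (2 : ℝ) ^ k * N / Real.log N ^ (2 * (A + 1)) ≤ N / L ^ A / 4 := by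
    refine (div_le_div_of_nonneg_left (by positivity) (by positivity) (pw (A + 1))).trans ?_
    rw [div_div, div_le_div_iff₀ (by positivity) (by positivity), pow_succ L]
    have := mul_le_mul_of_nonneg_left h1 (mul_nonneg n0 L0.le)
    rw [pow_add] at this
    nlinarith
  have b4 : 2 ≤ N / L ^ A := by rw [le_div_iff₀ L0]; linarith
  rw [← sum_Ioc_consecutive _ j1 j2] at b2
  rw [sum_PC, e]
  have f1 : (1 : ℝ) ≤ d.totient := by exact_mod_cast Nat.totient_pos.2 d0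
  have f2 : |((⌊t₂⌋₊ : ℝ) - ⌊t₁⌋₊ - (t₂ - t₁)) / d.totient| ≤ 1 := by
    rw [abs_div, abs_of_pos (show (0 : ℝ) < d.totient by linarith), div_le_one (by linarith), abs_le]
    have := Nat.floor_le t0
    have := Nat.floor_le (t0.trans a2)
    have := Nat.lt_floor_add_one t₁
    have := Nat.lt_floor_add_one t₂
    constructor <;> linarith
  rw [abs_le] at b1 b2 f2 ⊢
  simp only [sub_div] at b1 b2 f2 ⊢
  constructor <;> linarith [b1.1, b1.2, b2.1, b2.2, f2.1, f2.2]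

/-- one dyadic block -/
theorem pc_dyad (A B : ℕ) : ∀ᶠ L : ℝ in atTop, ∀ d c P : ℕ, 0 < d → (d : ℝ) ≤ L ^ B →
    c.Coprime d → √L ≤ Real.log P →
      |∑ p ∈ PC P (2 * P) d c, Real.log p / P - 1 / d.totient| ≤ 1 / L ^ A := by
  filter_upwards [pc_real A B 1, eventually_gt_atTop (0 : ℝ)] with L h L0 d c P d0 d1 hc hP
  have p0 : (0 : ℝ) < P := (Real.exp_pos _).trans_le (le_of_le_log (Real.sqrt_pos.2 L0) hP)
  have a := h d c P (2 * P) P (2 * P) d0 d1 hc hP (by rw [pow_one]) le_rfl (by linarith)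
    (by push_cast; rfl)
  rw [sum_congr rfl (g := fun p : ℕ => Real.log p) fun p hp => by
    obtain ⟨h1, h2, -⟩ := mem_PP (mem_filter.1 hp).1
    exact if_pos ⟨by exact_mod_cast h1, by exact_mod_cast h2⟩] at a
  rw [← sum_div, show (∑ p ∈ PC P (2 * P) d c, Real.log p) / P - 1 / d.totient =
    (∑ p ∈ PC P (2 * P) d c, Real.log p - (2 * P - P) / d.totient) / P by field_simp; ring,
    abs_div, abs_of_pos p0, div_le_iff₀ p0]
  exact a.trans_eq (by ring)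

theorem comb {s₁ s₂ : Finset ℕ} {u₁ u₂ : ℕ → ℝ} {F : ℕ → ℕ → ℝ} {ρ ε M E : ℝ}
    (h₁ : ∀ p ∈ s₁, 0 ≤ u₁ p) (h₂ : ∀ p ∈ s₂, 0 ≤ u₂ p) (r0 : 0 ≤ ρ) (r1 : ρ ≤ 1) (e1 : ε ≤ 1)
    (a₁ : |∑ p ∈ s₁, u₁ p - ρ| ≤ ε) (a₂ : |∑ p ∈ s₂, u₂ p - ρ| ≤ ε) (M0 : 0 ≤ M) (E0 : 0 ≤ E)
    (hF : ∀ p ∈ s₁, ∀ q ∈ s₂, |F p q - M| ≤ E) :
    |∑ p ∈ s₁, ∑ q ∈ s₂, u₁ p * u₂ q * F p q - ρ ^ 2 * M| ≤ 4 * E + 3 * ε * M := by
  set S₁ := ∑ p ∈ s₁, u₁ p with hS₁
  set S₂ := ∑ p ∈ s₂, u₂ p with hS₂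
  have z₁ : 0 ≤ S₁ := sum_nonneg h₁
  have z₂ : 0 ≤ S₂ := sum_nonneg h₂
  have e0 : 0 ≤ ε := (abs_nonneg _).trans a₁
  have b : |∑ p ∈ s₁, ∑ q ∈ s₂, u₁ p * u₂ q * (F p q - M)| ≤ S₁ * S₂ * E := by
    rw [hS₁, hS₂, sum_mul_sum, sum_mul]
    refine (abs_sum_le_sum_abs _ _).trans (sum_le_sum fun p hp => ?_)
    rw [sum_mul]
    refine (abs_sum_le_sum_abs _ _).trans (sum_le_sum fun q hq => ?_)
    have := mul_nonneg (h₁ p hp) (h₂ q hq)
    rw [abs_mul, abs_of_nonneg this]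
    exact mul_le_mul_of_nonneg_left (hF p hp q hq) this
  have e : ∑ p ∈ s₁, ∑ q ∈ s₂, u₁ p * u₂ q * F p q - ρ ^ 2 * M =
      ∑ p ∈ s₁, ∑ q ∈ s₂, u₁ p * u₂ q * (F p q - M) + (S₁ * S₂ - ρ ^ 2) * M := by
    rw [hS₁, hS₂, sum_mul_sum]
    simp only [mul_sub, sub_mul, sum_sub_distrib, sum_mul]
    ring
  have c : |S₁ * S₂ - ρ ^ 2| ≤ 3 * ε := by
    rw [show S₁ * S₂ - ρ ^ 2 = (S₁ - ρ) * (S₂ - ρ) + ρ * (S₁ - ρ) + ρ * (S₂ - ρ) by ring]
    refine (abs_add_three _ _ _).trans ?_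
    simp only [abs_mul, abs_of_nonneg r0]
    have := mul_le_mul a₁ (a₂.trans e1) (abs_nonneg _) e0
    have := mul_le_mul r1 a₁ (abs_nonneg _) zero_le_one
    have := mul_le_mul r1 a₂ (abs_nonneg _) zero_le_one
    linarith
  have g : S₁ * S₂ ≤ 2 * 2 :=
    mul_le_mul (by linarith [(abs_le.1 a₁).2]) (by linarith [(abs_le.1 a₂).2]) z₂ (by norm_num)
  rw [e]
  refine (abs_add_le _ _).trans (add_le_add (b.trans (by nlinarith)) ?_)
  rw [abs_mul, abs_of_nonneg M0]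
  exact mul_le_mul_of_nonneg_right c M0

theorem Par.xr {c B a₀ X : ℕ} {D : Fm} {K : ℝ} (h : Par K X D) (hK : 10 ≤ K) (hD : Fam c B a₀ X D)
    {z : ℕ × ℕ} (hz : z ∈ D.F) {q p₁ p₂ : ℕ} (hq : q ∈ D.QQ) (h₁ : P1 X < p₁ ∧ p₁ ≤ 2 * P1 X)
    (h₂ : P2 X < p₂ ∧ p₂ ≤ 2 * P2 X) :
    (((q + 4) * z.1 * (p₁ + 2) * (p₂ + 2) : ℕ) : ℝ) * N3 X D ≤ X / 4 ∧
      (X : ℝ) ≤ 2400 * c * ((q + 4) * z.1 * (p₁ + 2) * (p₂ + 2) : ℕ) * N3 X D := by
  obtain ⟨-, -, q1, q2⟩ := hD.qpr q hq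
  obtain ⟨-, -, z1, z2⟩ := hD.size z hz
  have r1 : 10 ≤ P1 X := by exact_mod_cast hK.trans h.p1K
  have r2 : 10 ≤ P2 X := by exact_mod_cast hK.trans h.p2K
  have r3 : (10 : ℝ) ≤ N3 X D := hK.trans h.n3K
  constructor
  · have a : 25 * ((q + 4) * z.1 * (p₁ + 2) * (p₂ + 2)) ≤ 121 * (Y1 X * D.Y2 * P1 X * P2 X) :=
      calc _ = (q + 4) * z.1 * (5 * (p₁ + 2)) * (5 * (p₂ + 2)) := by ring
        _ ≤ Y1 X * D.Y2 * (11 * P1 X) * (11 * P2 X) :=
          Nat.mul_le_mul (Nat.mul_le_mul (Nat.mul_le_mul q1 z1) (by omega)) (by omega)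
        _ = _ := by ring
    have a' : 25 * (((q + 4) * z.1 * (p₁ + 2) * (p₂ + 2) : ℕ) : ℝ) ≤
        121 * (Y1 X * D.Y2 * P1 X * P2 X) := by exact_mod_cast a
    have := mul_le_mul_of_nonneg_right a' (show (0 : ℝ) ≤ N3 X D by linarith)
    have := h.n3u
    have : (0 : ℝ) ≤ X := X.cast_nonneg
    linarith
  · have a : Y1 X * D.Y2 * P1 X * P2 X ≤ 60 * c * ((q + 4) * z.1 * (p₁ + 2) * (p₂ + 2)) :=
      calc _ ≤ (60 * (q + 4)) * (c * z.1) * (p₁ + 2) * (p₂ + 2) :=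
          Nat.mul_le_mul (Nat.mul_le_mul (Nat.mul_le_mul (by omega) z2) (by omega)) (by omega)
        _ = _ := by ring
    have a' : (Y1 X * D.Y2 * P1 X * P2 X : ℝ) ≤
        60 * c * ((q + 4) * z.1 * (p₁ + 2) * (p₂ + 2) : ℕ) := by exact_mod_cast a
    calc _ ≤ _ := h.n3l
      _ = 20 * (Y1 X * D.Y2 * P1 X * P2 X : ℝ) * (N3 X D + 1) := by ring
      _ ≤ 20 * (60 * c * ((q + 4) * z.1 * (p₁ + 2) * (p₂ + 2) : ℕ)) * (2 * N3 X D) := by
          gcongr; linarith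
      _ = _ := by ring

theorem cheb (a b d r : ℕ) : ∑ p ∈ PC a b d r, Real.log p ≤ 3 / 2 * b := by
  have h := Chebyshev.theta_le_log4_mul_x (x := b) b.cast_nonneg
  rw [Chebyshev.theta, Nat.floor_natCast] at h
  have l : Real.log 4 ≤ 3 / 2 := by
    rw [show (4 : ℝ) = 2 ^ 2 by norm_num, Real.log_pow]
    have := Real.log_two_lt_d9
    push_cast
    linarith
  refine le_trans (sum_le_sum_of_subset_of_nonneg (fun p hp => ?_)
    fun p _ _ => Real.log_natCast_nonneg p) (h.trans (by gcongr))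
  obtain ⟨-, h2, h3⟩ := mem_PP (mem_filter.1 hp).1
  exact mem_filter.2 ⟨mem_Ioc.2 ⟨h3.pos, h2⟩, h3⟩

theorem cheb_dyad (P d r : ℕ) : ∑ p ∈ PC P (2 * P) d r, Real.log p / P ≤ 3 := by
  rcases Nat.eq_zero_or_pos P with rfl | h
  · simp
  · rw [← sum_div, div_le_iff₀ (by exact_mod_cast h)]
    exact (cheb _ _ d r).trans_eq (by push_cast; ring)

theorem cheb_long (N C d r : ℕ) : ∑ p ∈ PC N (C * N) d r, Real.log p / (p + 2) ≤ 3 / 2 * C := by
  rcases Nat.eq_zero_or_pos N with rfl | h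
  · simp [PC, PP]
  · have n0 : (0 : ℝ) < N := by exact_mod_cast h
    refine (sum_le_sum (g := fun p : ℕ => Real.log p / N) fun p hp => ?_).trans ?_
    · have : (N : ℝ) < p := by exact_mod_cast (mem_PP (mem_filter.1 hp).1).1
      exact div_le_div_of_nonneg_left (Real.log_natCast_nonneg p) n0 (by linarith)
    · rw [← sum_div, div_le_iff₀ n0]
      exact (cheb _ _ d r).trans_eq (by push_cast; ring)

end Pool.Agent.H84D.Lg

namespace Pool.Agent.H84D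

open Finset Filter Lg

/-- the long average of the weights of one piece -/
theorem long (c B a₀ A : ℕ) (hc : 1 ≤ c) : ∀ᶠ X : ℕ in atTop, ∀ D : Fm, Fam c B a₀ X D →
    ∀ z ∈ D.F, ∀ d c₁ c₂ c₃ : ℕ, 0 < d → d ≤ QB B X → c₁.Coprime d → c₂.Coprime d →
      c₃.Coprime d → ∀ I ⊆ D.QQ, ∀ y₁ y₂ : ℝ, (X : ℝ) / 2 ≤ y₁ → y₁ ≤ y₂ → y₂ ≤ 7 * X →
      |1 / (#D.QQ : ℝ) * ∑ q ∈ I, ∑ p₁ ∈ PC (P1 X) (2 * P1 X) d c₁,
          ∑ p₂ ∈ PC (P2 X) (2 * P2 X) d c₂, ∑ p₃ ∈ PC (N3 X D) (N4 c X D) d c₃,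
            (if y₁ < ((q + 4) * z.1 * (p₁ + 2) * (p₂ + 2) * (p₃ + 2) : ℕ) ∧
                ((q + 4) * z.1 * (p₁ + 2) * (p₂ + 2) * (p₃ + 2) : ℕ) ≤ y₂ then
              Real.log p₁ / P1 X * (Real.log p₂ / P2 X) *
                (((q + 4) * z.1 * (p₁ + 2) * (p₂ + 2) : ℕ) * Real.log p₃) else 0) -
        #I / #D.QQ / (d.totient : ℝ) ^ 3 * (y₂ - y₁)| ≤ #I / #D.QQ / LL X ^ A * X := by
  filter_upwards [lg_par 22, par_nat (pc_real (A + 1) B (20000 * c)), par_nat (pc_dyad (A + 1) B)]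
    with X hX H3 H1 D hD z hz d c₁ c₂ c₃ d0 d1 k1 k2 k3 I hI y₁ y₂ v1 v2 v3
  have h := hX D hD.ypos hD.yle
  have L1 := h.L
  have x0 : (0 : ℝ) < X := h.eX ▸ Real.exp_pos _
  have d2 : (d : ℝ) ≤ LL X ^ B :=
    le_trans (by exact_mod_cast d1) (Nat.floor_le (a := LL X ^ B) (by positivity))
  have f1 : (1 : ℝ) ≤ d.totient := by exact_mod_cast Nat.totient_pos.2 d0
  have c1 : (1 : ℝ) ≤ c := by exact_mod_cast hc
  have LA : 1 ≤ LL X ^ (A + 1) := one_le_pow₀ (by linarith)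
  have n3 := h.n3K
  have one : ∀ q ∈ I, |∑ p₁ ∈ PC (P1 X) (2 * P1 X) d c₁,
      ∑ p₂ ∈ PC (P2 X) (2 * P2 X) d c₂, ∑ p₃ ∈ PC (N3 X D) (N4 c X D) d c₃,
        (if y₁ < ((q + 4) * z.1 * (p₁ + 2) * (p₂ + 2) * (p₃ + 2) : ℕ) ∧
            ((q + 4) * z.1 * (p₁ + 2) * (p₂ + 2) * (p₃ + 2) : ℕ) ≤ y₂ then
          Real.log p₁ / P1 X * (Real.log p₂ / P2 X) *
            (((q + 4) * z.1 * (p₁ + 2) * (p₂ + 2) : ℕ) * Real.log p₃) else 0) -
      1 / (d.totient : ℝ) ^ 3 * (y₂ - y₁)| ≤ 1 / LL X ^ A * X := fun q hq => by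
    have a := comb (s₁ := PC (P1 X) (2 * P1 X) d c₁) (s₂ := PC (P2 X) (2 * P2 X) d c₂)
      (u₁ := fun p => Real.log p / P1 X) (u₂ := fun p => Real.log p / P2 X)
      (F := fun p₁ p₂ => ∑ p₃ ∈ PC (N3 X D) (N4 c X D) d c₃,
        (if y₁ < ((q + 4) * z.1 * (p₁ + 2) * (p₂ + 2) * (p₃ + 2) : ℕ) ∧
            ((q + 4) * z.1 * (p₁ + 2) * (p₂ + 2) * (p₃ + 2) : ℕ) ≤ y₂ then
          ((q + 4) * z.1 * (p₁ + 2) * (p₂ + 2) : ℕ) * Real.log p₃ else 0))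
      (ρ := 1 / d.totient) (ε := 1 / LL X ^ (A + 1)) (M := (y₂ - y₁) / d.totient)
      (E := X / 4 / LL X ^ (A + 1))
      (fun p _ => div_nonneg (Real.log_natCast_nonneg p) (Nat.cast_nonneg _))
      (fun p _ => div_nonneg (Real.log_natCast_nonneg p) (Nat.cast_nonneg _)) (by positivity)
      ((div_le_one (by linarith)).2 f1) ((div_le_one (by linarith)).2 LA)
      (H1 d c₁ _ d0 d2 k1 h.p1) (H1 d c₂ _ d0 d2 k2 h.p2)
      (div_nonneg (by linarith) (by linarith)) (by positivity) fun p₁ hp₁ p₂ hp₂ => ?_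
    · simp only [mul_sum, mul_ite, mul_zero] at a
      rw [show 1 / (d.totient : ℝ) ^ 3 * (y₂ - y₁) =
        (1 / d.totient) ^ 2 * ((y₂ - y₁) / d.totient) by ring]
      refine a.trans ?_
      have m : (y₂ - y₁) / d.totient ≤ 7 * X := (div_le_self (by linarith) f1).trans (by linarith)
      calc _ ≤ 4 * (X / 4 / LL X ^ (A + 1)) + 3 * (1 / LL X ^ (A + 1)) * (7 * X) := by gcongr
        _ = 1 / LL X ^ A * X * (22 / LL X) := by field_simp; ring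
        _ ≤ 1 / LL X ^ A * X * 1 := by
            gcongr
            exact (div_le_one (by linarith)).2 L1
        _ = _ := mul_one _
    · obtain ⟨b1, b2, -⟩ := mem_PP (mem_filter.1 hp₁).1
      obtain ⟨b3, b4, -⟩ := mem_PP (mem_filter.1 hp₂).1
      obtain ⟨w1, w2⟩ := h.xr (by norm_num) hD hz (hI hq) ⟨b1, b2⟩ ⟨b3, b4⟩
      simp only [Nat.cast_mul ((q + 4) * z.1 * (p₁ + 2) * (p₂ + 2))]
      generalize (((q + 4) * z.1 * (p₁ + 2) * (p₂ + 2) : ℕ) : ℝ) = x at w1 w2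
      have xp : 0 < x := by
        by_contra hx
        have : 2400 * c * x * N3 X D ≤ 0 :=
          mul_nonpos_of_nonpos_of_nonneg (mul_nonpos_of_nonneg_of_nonpos (by positivity)
            (not_lt.1 hx)) (Nat.cast_nonneg _)
        linarith
      have e4 : (N4 c X D : ℝ) = 20000 * c * N3 X D := by simp [N4]
      have t1 : 2 * (N3 X D : ℝ) ≤ y₁ / x := by rw [le_div_iff₀ xp]; linarith
      have t2 : y₂ / x ≤ N4 c X D := by
        rw [div_le_iff₀ xp, e4]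
        have : 0 ≤ c * x * N3 X D := by positivity
        linarith
      have b := H3 d c₃ (N3 X D) (N4 c X D) (y₁ / x - 2) (y₂ / x - 2) d0 d2 k3 h.n3
        (Nat.mul_le_mul_right _ Nat.lt_two_pow_self.le) (by linarith)
        (sub_le_sub_right (div_le_div_of_nonneg_right v2 xp.le) 2) (by linarith)
      have e : ∑ p₃ ∈ PC (N3 X D) (N4 c X D) d c₃,
          (if y₁ < x * (p₃ + 2 : ℕ) ∧ x * (p₃ + 2 : ℕ) ≤ y₂ then x * Real.log p₃ else 0) -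
          (y₂ - y₁) / d.totient = x * (∑ p ∈ PC (N3 X D) (N4 c X D) d c₃,
            (if y₁ / x - 2 < p ∧ p ≤ y₂ / x - 2 then Real.log p else 0) -
              (y₂ / x - 2 - (y₁ / x - 2)) / d.totient) := by
        rw [mul_sub, mul_sum]
        congr 1
        · refine sum_congr rfl fun p _ => ?_
          rw [mul_ite, mul_zero]
          refine if_congr ?_ rfl rfl
          rw [sub_lt_iff_lt_add, le_sub_iff_add_le, div_lt_iff₀' xp, le_div_iff₀' xp]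
          push_cast
          rfl
        · field_simp
          ring
      rw [e, abs_mul, abs_of_pos xp]
      refine (mul_le_mul_of_nonneg_left b xp.le).trans ?_
      rw [← mul_div_assoc]
      exact div_le_div_of_nonneg_right w1 (zero_le_one.trans LA)
  rw [show (#I : ℝ) / #D.QQ / (d.totient : ℝ) ^ 3 * (y₂ - y₁) =
      1 / (#D.QQ : ℝ) * ∑ _q ∈ I, 1 / (d.totient : ℝ) ^ 3 * (y₂ - y₁) by
    rw [sum_const, nsmul_eq_mul]; ring, ← mul_sub, ← sum_sub_distrib, abs_mul,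
    abs_of_nonneg (show 0 ≤ 1 / (#D.QQ : ℝ) by positivity),
    show (#I : ℝ) / #D.QQ / LL X ^ A * X = 1 / (#D.QQ : ℝ) * ∑ _q ∈ I, 1 / LL X ^ A * X by
      rw [sum_const, nsmul_eq_mul]; ring]
  exact mul_le_mul_of_nonneg_left ((abs_sum_le_sum_abs _ _).trans (sum_le_sum one)) (by positivity)

/-- the logarithmic mass of one piece -/
theorem long_R (c X : ℕ) (D : Fm) (a d c₁ c₂ c₃ : ℕ) (I : Finset ℕ) :
    1 / (#D.QQ : ℝ) * ∑ q ∈ I, ∑ p₁ ∈ PC (P1 X) (2 * P1 X) d c₁,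
      ∑ p₂ ∈ PC (P2 X) (2 * P2 X) d c₂, ∑ p₃ ∈ PC (N3 X D) (N4 c X D) d c₃,
        Real.log p₁ / P1 X * (Real.log p₂ / P2 X) *
          (((q + 4) * a * (p₁ + 2) * (p₂ + 2) : ℕ) * Real.log p₃) /
            ((q + 4) * a * (p₁ + 2) * (p₂ + 2) * (p₃ + 2) : ℕ) ≤ 10 ^ 6 * c * (#I / #D.QQ) := by
  have u : ∀ p P : ℕ, 0 ≤ Real.log p / P := fun p P =>
    div_nonneg (Real.log_natCast_nonneg p) (Nat.cast_nonneg _)
  have one : ∀ q ∈ I, ∑ p₁ ∈ PC (P1 X) (2 * P1 X) d c₁,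
      ∑ p₂ ∈ PC (P2 X) (2 * P2 X) d c₂, ∑ p₃ ∈ PC (N3 X D) (N4 c X D) d c₃,
        Real.log p₁ / P1 X * (Real.log p₂ / P2 X) *
          (((q + 4) * a * (p₁ + 2) * (p₂ + 2) : ℕ) * Real.log p₃) /
            ((q + 4) * a * (p₁ + 2) * (p₂ + 2) * (p₃ + 2) : ℕ) ≤ 10 ^ 6 * c := fun q _ => by
    calc _ ≤ ∑ p₁ ∈ PC (P1 X) (2 * P1 X) d c₁, ∑ p₂ ∈ PC (P2 X) (2 * P2 X) d c₂,
          ∑ p₃ ∈ PC (N3 X D) (N4 c X D) d c₃,
            Real.log p₁ / P1 X * (Real.log p₂ / P2 X * (Real.log p₃ / (p₃ + 2))) := by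
          refine sum_le_sum fun p₁ _ => sum_le_sum fun p₂ _ => sum_le_sum fun p₃ _ => ?_
          rw [mul_div_assoc, mul_assoc]
          refine mul_le_mul_of_nonneg_left (mul_le_mul_of_nonneg_left ?_ (u _ _)) (u _ _)
          rw [Nat.cast_mul ((q + 4) * a * (p₁ + 2) * (p₂ + 2))]
          generalize (((q + 4) * a * (p₁ + 2) * (p₂ + 2) : ℕ) : ℝ) = x
          have := Real.log_natCast_nonneg p₃
          rcases eq_or_ne x 0 with rfl | hx
          · rw [zero_mul, zero_div]; positivity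
          · rw [mul_div_mul_left _ _ hx]; push_cast; rfl
      _ = (∑ p₁ ∈ PC (P1 X) (2 * P1 X) d c₁, Real.log p₁ / P1 X) *
          ((∑ p₂ ∈ PC (P2 X) (2 * P2 X) d c₂, Real.log p₂ / P2 X) *
            ∑ p₃ ∈ PC (N3 X D) (N4 c X D) d c₃, Real.log p₃ / (p₃ + 2)) := by
          rw [sum_mul_sum (PC (P2 X) (2 * P2 X) d c₂), sum_mul]
          simp only [mul_sum]
      _ ≤ 3 * (3 * (3 / 2 * (20000 * c : ℕ))) := by
          have z : 0 ≤ ∑ p₃ ∈ PC (N3 X D) (N4 c X D) d c₃, Real.log p₃ / (p₃ + 2) :=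
            sum_nonneg fun p _ => div_nonneg (Real.log_natCast_nonneg p) (by positivity)
          exact mul_le_mul (cheb_dyad _ d c₁) (mul_le_mul (cheb_dyad _ d c₂) (cheb_long _ _ d c₃) z
            (by norm_num)) (mul_nonneg (sum_nonneg fun p _ => u _ _) z) (by norm_num)
      _ ≤ _ := by push_cast; linarith [(c.cast_nonneg : (0 : ℝ) ≤ c)]
  refine (mul_le_mul_of_nonneg_left (sum_le_sum one) (by positivity)).trans_eq ?_
  rw [sum_const, nsmul_eq_mul]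
  ring

end Pool.Agent.H84D
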