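import Mathlib

/-!
# h84d, block MAJ, abstract core

Pieces to the `L^1` claim: if on every piece of labels and every residue class the smoothed count is close to its
expected value in `L^1(k)`, then the kernel average is close to the singular series in `L^1(k)`.
-/

namespace Pool.Agent.H84D

open Finset

/-- One modulus. -/
theorem maj_one {ι τ κ γ : Type*} [DecidableEq κ] [DecidableEq γ]
    (La : Finset ι) (T : Finset τ) (S : Finset ℤ)
    (W : ι → τ → ℝ) (hW : ∀ l ∈ La, ∀ t ∈ T, 0 ≤ W l t) (u : ι → τ → ℤ) (y : ι → ℤ)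
    (ψ R : ℤ → ℝ) (B : ℝ) (hR : ∀ j, |R j| ≤ B)
    (C : Finset γ) (cl : τ → γ) (hcl : ∀ t ∈ T, cl t ∈ C)
    (Pc : Finset κ) (pc : ι → κ) (hpc : ∀ l ∈ La, pc l ∈ Pc)
    (U : ι → γ → ℤ) (V : κ → γ → ℤ)
    (hU : ∀ l ∈ La, ∀ t ∈ T, ∀ k, R (k - (u l t + y l)) = R (k - U l (cl t)))
    (hV : ∀ l ∈ La, ∀ c ∈ C, ∀ k, R (k - U l c) = R (k - V (pc l) c))
    (s0 : κ → ℤ) (Δ Λ : ℝ) (hΛ : 0 ≤ Λ) (hs : ∀ l ∈ La, |((y l - s0 (pc l) : ℤ) : ℝ)| ≤ Δ)
    (hψ : ∀ s s' : ℤ, ∑ k ∈ S, |ψ (k - s) - ψ (k - s')| ≤ Λ * |((s - s' : ℤ) : ℝ)|)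
    (E : κ → γ → ℝ)
    (hMR : ∀ I ∈ Pc, ∀ c ∈ C, ∑ k ∈ S, |(∑ l ∈ La with pc l = I, ∑ t ∈ T with cl t = c,
        W l t * ψ (k - s0 I - u l t)) - (#{l ∈ La | pc l = I} : ℝ) / #C| ≤ E I c) :
    ∑ k ∈ S, |(∑ l ∈ La, ∑ t ∈ T, W l t * (ψ (k - (u l t + y l)) * R (k - (u l t + y l))))
        - ∑ l ∈ La, (∑ c ∈ C, R (k - U l c)) / #C|
      ≤ B * ((∑ I ∈ Pc, ∑ c ∈ C, E I c) + Λ * Δ * ∑ l ∈ La, ∑ t ∈ T, W l t) := by
  classical
  have hB : 0 ≤ B := (abs_nonneg _).trans (hR 0)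
  -- pointwise decomposition
  have key : ∀ k : ℤ,
      (∑ l ∈ La, ∑ t ∈ T, W l t * (ψ (k - (u l t + y l)) * R (k - (u l t + y l))))
        - ∑ l ∈ La, (∑ c ∈ C, R (k - U l c)) / #C
      = (∑ I ∈ Pc, ∑ c ∈ C, R (k - V I c) * ((∑ l ∈ La with pc l = I, ∑ t ∈ T with cl t = c,
            W l t * ψ (k - s0 I - u l t)) - (#{l ∈ La | pc l = I} : ℝ) / #C))
        + ∑ l ∈ La, ∑ t ∈ T, R (k - (u l t + y l)) *
            (W l t * (ψ (k - (u l t + y l)) - ψ (k - (u l t + s0 (pc l))))) := by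
    intro k
    have h1 : (∑ I ∈ Pc, ∑ c ∈ C, R (k - V I c) * (∑ l ∈ La with pc l = I, ∑ t ∈ T with cl t = c,
            W l t * ψ (k - s0 I - u l t)))
        = ∑ l ∈ La, ∑ t ∈ T, R (k - (u l t + y l)) * (W l t * ψ (k - (u l t + s0 (pc l)))) := by
      rw [← Finset.sum_fiberwise_of_maps_to (s := La) (t := Pc) (g := pc) hpc]
      refine Finset.sum_congr rfl fun I _ => ?_
      simp_rw [Finset.mul_sum]
      rw [Finset.sum_comm]
      refine Finset.sum_congr rfl fun l hl => ?_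
      obtain ⟨hl1, hl2⟩ := Finset.mem_filter.1 hl
      rw [← Finset.sum_fiberwise_of_maps_to (s := T) (t := C) (g := cl) hcl]
      refine Finset.sum_congr rfl fun c hc => ?_
      refine Finset.sum_congr rfl fun t ht => ?_
      obtain ⟨ht1, ht2⟩ := Finset.mem_filter.1 ht
      rw [hU l hl1 t ht1 k, ht2, hV l hl1 c hc k, hl2]
      have : k - s0 I - u l t = k - (u l t + s0 I) := by ring
      rw [this]
    have h2 : (∑ I ∈ Pc, ∑ c ∈ C, R (k - V I c) * ((#{l ∈ La | pc l = I} : ℝ) / #C))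
        = ∑ l ∈ La, (∑ c ∈ C, R (k - U l c)) / #C := by
      rw [← Finset.sum_fiberwise_of_maps_to (s := La) (t := Pc) (g := pc) hpc]
      refine Finset.sum_congr rfl fun I _ => ?_
      have : ∑ l ∈ La with pc l = I, (∑ c ∈ C, R (k - U l c)) / #C
          = ∑ l ∈ La with pc l = I, (∑ c ∈ C, R (k - V I c)) / #C := by
        refine Finset.sum_congr rfl fun l hl => ?_
        obtain ⟨hl1, hl2⟩ := Finset.mem_filter.1 hl
        congr 1
        refine Finset.sum_congr rfl fun c hc => ?_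
        rw [hV l hl1 c hc k, hl2]
      rw [this, Finset.sum_const, nsmul_eq_mul, ← Finset.sum_mul]
      ring
    simp_rw [mul_sub, Finset.sum_sub_distrib]
    rw [h1, h2]
    have h3 : (∑ l ∈ La, ∑ t ∈ T, W l t * (ψ (k - (u l t + y l)) * R (k - (u l t + y l))))
        = ∑ l ∈ La, ∑ t ∈ T, R (k - (u l t + y l)) * (W l t * ψ (k - (u l t + y l))) := by
      refine Finset.sum_congr rfl fun l _ => Finset.sum_congr rfl fun t _ => by ring
    rw [h3]
    ring
  have bnd : ∀ k : ℤ,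
      |(∑ l ∈ La, ∑ t ∈ T, W l t * (ψ (k - (u l t + y l)) * R (k - (u l t + y l))))
        - ∑ l ∈ La, (∑ c ∈ C, R (k - U l c)) / #C|
      ≤ B * (∑ I ∈ Pc, ∑ c ∈ C, |(∑ l ∈ La with pc l = I, ∑ t ∈ T with cl t = c,
            W l t * ψ (k - s0 I - u l t)) - (#{l ∈ La | pc l = I} : ℝ) / #C|)
        + B * ∑ l ∈ La, ∑ t ∈ T,
            W l t * |ψ (k - (u l t + y l)) - ψ (k - (u l t + s0 (pc l)))| := by
    intro k
    rw [key k]
    refine (abs_add_le _ _).trans (add_le_add ?_ ?_)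
    · rw [Finset.mul_sum]
      refine (Finset.abs_sum_le_sum_abs _ _).trans (Finset.sum_le_sum fun I _ => ?_)
      rw [Finset.mul_sum]
      refine (Finset.abs_sum_le_sum_abs _ _).trans (Finset.sum_le_sum fun c _ => ?_)
      rw [abs_mul]
      exact mul_le_mul_of_nonneg_right (hR _) (abs_nonneg _)
    · rw [Finset.mul_sum]
      refine (Finset.abs_sum_le_sum_abs _ _).trans (Finset.sum_le_sum fun l hl => ?_)
      rw [Finset.mul_sum]
      refine (Finset.abs_sum_le_sum_abs _ _).trans (Finset.sum_le_sum fun t ht => ?_)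
      rw [abs_mul, abs_mul, abs_of_nonneg (hW l hl t ht)]
      exact mul_le_mul_of_nonneg_right (hR _) (mul_nonneg (hW l hl t ht) (abs_nonneg _))
  refine (Finset.sum_le_sum fun k _ => bnd k).trans ?_
  rw [Finset.sum_add_distrib, ← Finset.mul_sum, ← Finset.mul_sum, mul_add]
  refine add_le_add (mul_le_mul_of_nonneg_left ?_ hB) (mul_le_mul_of_nonneg_left ?_ hB)
  · rw [Finset.sum_comm]
    refine Finset.sum_le_sum fun I hI => ?_
    rw [Finset.sum_comm]
    exact Finset.sum_le_sum fun c hc => hMR I hI c hc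
  · rw [Finset.sum_comm, Finset.mul_sum]
    refine Finset.sum_le_sum fun l hl => ?_
    rw [Finset.sum_comm, Finset.mul_sum]
    refine Finset.sum_le_sum fun t ht => ?_
    rw [← Finset.mul_sum, mul_comm (Λ * Δ)]
    refine mul_le_mul_of_nonneg_left ((hψ _ _).trans ?_) (hW l hl t ht)
    refine mul_le_mul_of_nonneg_left ?_ hΛ
    have : u l t + y l - (u l t + s0 (pc l)) = y l - s0 (pc l) := by ring
    rw [this]
    exact hs l hl

end Pool.Agent.H84D
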