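import Pool.Agent.H84D.Siz

set_option autoImplicit false

/-! The total mass of the representations. -/

namespace Pool.Agent.H84D

open Finset Filter Pool.Agent.MP_a96b63_al

lemma ms_mem {P Q p : ℕ} : p ∈ PP P Q ↔ P < p ∧ p ≤ Q ∧ p.Prime := by
  simp [PP, and_assoc]

lemma ms_log (P Q : ℕ) : ∑ p ∈ PP P Q, Real.log p ≤ 2 * Q := by
  have h1 : ∑ p ∈ PP P Q, Real.log p ≤ Chebyshev.theta Q := by
    rw [Chebyshev.theta, Nat.floor_natCast]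
    refine sum_le_sum_of_subset_of_nonneg (fun p hp => ?_) fun p _ _ => Real.log_natCast_nonneg p
    obtain ⟨h1, h2, h3⟩ := ms_mem.1 hp
    exact mem_filter.2 ⟨mem_Ioc.2 ⟨by omega, h2⟩, h3⟩
  have h2 := Chebyshev.theta_le_log4_mul_x (x := Q) (Nat.cast_nonneg Q)
  have h3 : Real.log 4 ≤ 2 := by
    have : Real.log 4 = 2 * Real.log 2 := by
      rw [show (4 : ℝ) = 2 ^ 2 by norm_num, Real.log_pow]; norm_num
    have := Real.log_two_lt_d9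
    linarith
  have h4 : (0 : ℝ) ≤ Q := Nat.cast_nonneg Q
  nlinarith

/-- the weight of `p₁` or `p₂` -/
noncomputable def msw (P p : ℕ) : ℝ := Real.log p / P * ((p : ℝ) + 2)

lemma msw_nonneg (P p : ℕ) : 0 ≤ msw P p := by
  have := Real.log_natCast_nonneg p
  unfold msw; positivity

lemma msw_le {P p : ℕ} (hP : 1 ≤ P) (hp : p ∈ PP P (2 * P)) : msw P p ≤ 4 * Real.log p := by
  have h0 : (1 : ℝ) ≤ P := by exact_mod_cast hP
  have h : (p : ℝ) ≤ 2 * P := by exact_mod_cast (ms_mem.1 hp).2.1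
  have := Real.log_natCast_nonneg p
  rw [msw, div_mul_eq_mul_div, div_le_iff₀ (by linarith)]
  nlinarith

lemma ms_sum {P : ℕ} (hP : 1 ≤ P) : ∑ p ∈ PP P (2 * P), msw P p ≤ 16 * P := by
  calc _ ≤ ∑ p ∈ PP P (2 * P), 4 * Real.log p := sum_le_sum fun p hp => msw_le hP hp
    _ ≤ 4 * (2 * ((2 * P : ℕ) : ℝ)) := by
        rw [← mul_sum]; exact mul_le_mul_of_nonneg_left (ms_log _ _) (by norm_num)
    _ = _ := by push_cast; ring

/-- the sum over the three primes -/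
noncomputable def ms3 (c X : ℕ) (D : Fm) (Φ : ℕ → ℕ → ℕ → ℝ) : ℝ :=
  ∑ p₁ ∈ PP (P1 X) (2 * P1 X), ∑ p₂ ∈ PP (P2 X) (2 * P2 X), ∑ p₃ ∈ PP (N3 X D) (N4 c X D),
    msw (P1 X) p₁ * msw (P2 X) p₂ * Real.log p₃ * Φ p₁ p₂ p₃

lemma TT_eq (c X : ℕ) (D : Fm) (G : Finset (ℕ × ℕ)) (φ : ℤ → ℝ) :
    TT c X D G φ = 1 / ((#D.F : ℝ) * #D.QQ) * ∑ z ∈ G, ∑ q ∈ D.QQ, ((q : ℝ) + 4) * z.1 *
      ms3 c X D fun p₁ p₂ p₃ => φ (val z q p₁ p₂ p₃) := by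
  unfold TT ms3
  congr 1
  refine sum_congr rfl fun z _ => sum_congr rfl fun q _ => ?_
  rw [mul_sum]
  refine sum_congr rfl fun p₁ _ => ?_
  rw [mul_sum]
  refine sum_congr rfl fun p₂ _ => ?_
  rw [mul_sum]
  refine sum_congr rfl fun p₃ _ => ?_
  unfold msw
  push_cast
  ring

variable {c X : ℕ} {D : Fm}

lemma ms3_mono {Φ Ψ : ℕ → ℕ → ℕ → ℝ} (h : ∀ p₁ ∈ PP (P1 X) (2 * P1 X),
    ∀ p₂ ∈ PP (P2 X) (2 * P2 X), ∀ p₃ ∈ PP (N3 X D) (N4 c X D), Φ p₁ p₂ p₃ ≤ Ψ p₁ p₂ p₃) :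
    ms3 c X D Φ ≤ ms3 c X D Ψ :=
  sum_le_sum fun p₁ h1 => sum_le_sum fun p₂ h2 => sum_le_sum fun p₃ h3 =>
    mul_le_mul_of_nonneg_left (h p₁ h1 p₂ h2 p₃ h3)
      (mul_nonneg (mul_nonneg (msw_nonneg ..) (msw_nonneg ..)) (Real.log_natCast_nonneg _))

lemma ms3_add (Φ Ψ : ℕ → ℕ → ℕ → ℝ) :
    ms3 c X D (fun a b e => Φ a b e + Ψ a b e) = ms3 c X D Φ + ms3 c X D Ψ := by
  simp only [ms3, mul_add, sum_add_distrib]

lemma ms3_const (M : ℝ) : ms3 c X D (fun _ _ _ => M) =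
    (∑ p ∈ PP (P1 X) (2 * P1 X), msw (P1 X) p) * (∑ p ∈ PP (P2 X) (2 * P2 X), msw (P2 X) p) *
      (∑ p ∈ PP (N3 X D) (N4 c X D), Real.log p) * M := by
  simp only [ms3, sum_mul, mul_sum]
  rw [sum_comm]
  refine Eq.trans (sum_congr rfl fun _ _ => sum_comm) ?_
  rw [sum_comm]

lemma ms3_const_le (h1 : 1 ≤ P1 X) (h2 : 1 ≤ P2 X) {M : ℝ} (hM : 0 ≤ M) :
    ms3 c X D (fun _ _ _ => M) ≤ 512 * (P1 X * P2 X * N4 c X D) * M := by
  rw [ms3_const]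
  refine mul_le_mul_of_nonneg_right ?_ hM
  have := mul_le_mul (mul_le_mul (ms_sum h1) (ms_sum h2) (sum_nonneg fun _ _ => msw_nonneg ..)
    (by positivity)) (ms_log (N3 X D) (N4 c X D))
    (sum_nonneg fun p _ => Real.log_natCast_nonneg p) (by positivity)
  exact this.trans_eq (by ring)

lemma ms_scale (c X : ℕ) (D : Fm) :
    (Y1 X : ℝ) * D.Y2 * (P1 X * P2 X * N4 c X D) ≤ 1000 * c * X := by
  have h : ((N3 X D * (20 * Y1 X * D.Y2 * P1 X * P2 X) : ℕ) : ℝ) ≤ X := by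
    exact_mod_cast N3_mul_le X D
  have h2 := mul_le_mul_of_nonneg_left h (show (0 : ℝ) ≤ 1000 * c by positivity)
  refine le_trans (le_of_eq ?_) h2
  unfold N4
  push_cast
  ring

lemma Siz.P2_pos (h : Siz c X D) : 1 ≤ P2 X := (Y1_pos X).trans h.y12

lemma Siz.P1_pos (h : Siz c X D) : 1 ≤ P1 X := by
  have := h.P2_pos
  have := h.p21
  omega

lemma Fam.al_le {B a₀ : ℕ} (h : Fam c B a₀ X D) {z : ℕ × ℕ} (hz : z ∈ D.F) {q : ℕ}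
    (hq : q ∈ D.QQ) : ((q : ℝ) + 4) * z.1 ≤ Y1 X * D.Y2 := by
  have h1 : (q : ℝ) + 4 ≤ Y1 X := by exact_mod_cast (h.qpr q hq).2.2.1
  have h2 : (z.1 : ℝ) ≤ D.Y2 := by exact_mod_cast (h.size z hz).2.2.1
  exact mul_le_mul h1 h2 (Nat.cast_nonneg _) (Nat.cast_nonneg _)

/-- ROW MASS -/
theorem mass (c B a₀ : ℕ) : ∀ᶠ X : ℕ in atTop, ∀ D : Fm, Fam c B a₀ X D → ∀ G ⊆ D.F,
    ∀ (φ : ℤ → ℝ) (M : ℝ), (∀ m, |φ m| ≤ M) →
      |TT c X D G φ| * #D.F ≤ 10 ^ 6 * c * X * M * #G := by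
  filter_upwards [siz c B a₀] with X hX D hD G hG φ M hφ
  have hs := hX D hD
  have hM : 0 ≤ M := (abs_nonneg _).trans (hφ 0)
  have hF : (0 : ℝ) < #D.F := by exact_mod_cast hD.F_ne.card_pos
  have hQ : (0 : ℝ) < #D.QQ := by exact_mod_cast hD.QQ_ne.card_pos
  have h1 : ∀ z ∈ G, ∀ q ∈ D.QQ, |((q : ℝ) + 4) * z.1 *
      ms3 c X D fun p₁ p₂ p₃ => φ (val z q p₁ p₂ p₃)| ≤ 10 ^ 6 * c * X * M := fun z hz q hq => by
    have a1 := ms3_const_le (c := c) (D := D) hs.P1_pos hs.P2_pos hM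
    have a2 : |ms3 c X D fun p₁ p₂ p₃ => φ (val z q p₁ p₂ p₃)| ≤
        512 * (P1 X * P2 X * N4 c X D) * M := by
      refine le_trans (abs_le.2 ⟨?_, ms3_mono fun _ _ _ _ _ _ => (abs_le.1 (hφ _)).2⟩) a1
      refine le_trans (le_of_eq ?_) (ms3_mono (Φ := fun _ _ _ => -M)
        fun _ _ _ _ _ _ => (abs_le.1 (hφ _)).1)
      rw [ms3_const, ms3_const]; ring
    rw [abs_mul, abs_of_nonneg (by positivity)]
    have a3 := mul_le_mul (hD.al_le (hG hz) hq) a2 (abs_nonneg _) (by positivity)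
    have a4 := mul_le_mul_of_nonneg_right (ms_scale c X D) hM
    have a5 : (0 : ℝ) ≤ c * X * M := by positivity
    nlinarith
  have h2 : |∑ z ∈ G, ∑ q ∈ D.QQ, ((q : ℝ) + 4) * z.1 *
      ms3 c X D fun p₁ p₂ p₃ => φ (val z q p₁ p₂ p₃)| ≤ #G * (#D.QQ * (10 ^ 6 * c * X * M)) := by
    refine (abs_sum_le_sum_abs _ _).trans ?_
    rw [← nsmul_eq_mul]
    refine sum_le_card_nsmul _ _ _ fun z hz => (abs_sum_le_sum_abs _ _).trans ?_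
    rw [← nsmul_eq_mul]
    exact sum_le_card_nsmul _ _ _ fun q hq => h1 z hz q hq
  rw [TT_eq, abs_mul, abs_of_nonneg (by positivity)]
  calc _ ≤ 1 / ((#D.F : ℝ) * #D.QQ) * (#G * (#D.QQ * (10 ^ 6 * c * X * M))) * #D.F := by gcongr
    _ = _ := by field_simp

end Pool.Agent.H84D
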