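import Pool.Agent.H84D.Mdef
import Pool.Agent.H84D.MajCore
import Pool.Agent.H84D.Ker
import Pool.Agent.H84D.Mass

set_option autoImplicit false

/-! From the estimate for one piece to the major arc estimate. -/

namespace Pool.Agent.H84D

open Finset Filter

/-- the triples of primes -/
noncomputable def mjT (c X : ℕ) (D : Fm) : Finset (ℕ × ℕ × ℕ) :=
  PP (P1 X) (2 * P1 X) ×ˢ PP (P2 X) (2 * P2 X) ×ˢ PP (N3 X D) (N4 c X D)

/-- the weight of a representation -/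
noncomputable def mjW (X a q : ℕ) (t : ℕ × ℕ × ℕ) : ℝ :=
  Real.log t.1 / P1 X * (Real.log t.2.1 / P2 X) *
    (((q + 4) * a * (t.1 + 2) * (t.2.1 + 2) : ℕ) * Real.log t.2.2)

lemma mjW_nonneg (X a q : ℕ) (t : ℕ × ℕ × ℕ) : 0 ≤ mjW X a q t := by
  have := Real.log_natCast_nonneg t.1
  have := Real.log_natCast_nonneg t.2.1
  have := Real.log_natCast_nonneg t.2.2
  unfold mjW; positivity

lemma mj_TT (c X : ℕ) (D : Fm) (G : Finset (ℕ × ℕ)) (φ : ℤ → ℝ) :
    TT c X D G φ = 1 / ((#D.F : ℝ) * #D.QQ) * ∑ z ∈ G, ∑ q ∈ D.QQ, ∑ t ∈ mjT c X D,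
      mjW X z.1 q t * φ (val z q t.1 t.2.1 t.2.2) := by
  simp only [TT, mjT, mjW, sum_product]

lemma mj_card_un (d : ℕ) : #(un d) = d.totient := by
  rw [un, Nat.totient]
  congr 1
  exact filter_congr fun _ _ => Nat.coprime_comm

lemma mj_psi {h : ℕ} (hh : 0 < h) (S : Finset ℤ) (s s' : ℤ) :
    ∑ k ∈ S, |psi h (k - s) - psi h (k - s')| ≤ 4 / (h : ℝ) * |((s - s' : ℤ) : ℝ)| := by
  have h0 : (0 : ℝ) < h := by exact_mod_cast hh
  have e : ∑ k ∈ S, |psi h (k - s) - psi h (k - s')| =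
      ∑ k ∈ S with k ∈ Ioo (s - h) (s + h) ∪ Ioo (s' - h) (s' + h),
        |psi h (k - s) - psi h (k - s')| := by
    refine (sum_filter_of_ne fun k _ hk => ?_).symm
    by_contra hc
    rw [mem_union, mem_Ioo, mem_Ioo] at hc
    rw [psi_eq_zero (j := k - s) (by rw [mem_Ioo]; omega),
      psi_eq_zero (j := k - s') (by rw [mem_Ioo]; omega)] at hk
    simp at hk
  have c : (#{k ∈ S | k ∈ Ioo (s - h) (s + h) ∪ Ioo (s' - h) (s' + h)} : ℝ) ≤ 4 * h := by
    have : #{k ∈ S | k ∈ Ioo (s - h) (s + h) ∪ Ioo (s' - h) (s' + h)} ≤ 4 * h := by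
      refine (card_le_card fun k hk => (mem_filter.1 hk).2).trans ((card_union_le _ _).trans ?_)
      rw [Int.card_Ioo, Int.card_Ioo]; omega
    exact_mod_cast this
  rw [e]
  refine (sum_le_card_nsmul _ _ (|((s - s' : ℤ) : ℝ)| / (h : ℝ) ^ 2) fun k _ => ?_).trans ?_
  · refine (psi_lip h _ _).trans (le_of_eq ?_)
    push_cast
    rw [show (k : ℝ) - s - (k - s') = -(s - s') by ring, abs_neg]
  · rw [nsmul_eq_mul]
    refine (mul_le_mul_of_nonneg_right c (by positivity)).trans (le_of_eq ?_)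
    field_simp

lemma mj_val (z : ℕ × ℕ) {d q q' a a' b b' e e' : ℕ} (h0 : q ≡ q' [MOD d]) (h1 : a ≡ a' [MOD d])
    (h2 : b ≡ b' [MOD d]) (h3 : e ≡ e' [MOD d]) (k : ℤ) :
    ram d (k - (val z q a b e : ℕ)) = ram d (k - (val z q' a' b' e' : ℕ)) := by
  have h : val z q a b e ≡ val z q' a' b' e' [MOD d] :=
    (((((h0.add_right 4).mul_right _).mul (h1.add_right 2)).mul (h2.add_right 2)).mul
      (h3.add_right 2)).add (((h0.add_right 2).mul_left 8).mul_right _)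
  refine ram_congr ?_
  rw [sub_sub_sub_cancel_left]
  exact h.dvd

lemma mj_un {d P P' p : ℕ} (hd : 0 < d) (hP : d ≤ P) (hp : p ∈ PP P P') : p % d ∈ un d := by
  obtain ⟨h1, -, h3⟩ := ms_mem.1 hp
  refine mem_filter.2 ⟨mem_range.2 (Nat.mod_lt _ hd), ?_⟩
  have : p.Coprime d := Nat.coprime_of_lt_prime hd.ne' (by omega) h3
  rwa [Nat.Coprime, ← Nat.gcd_rec, Nat.gcd_comm]

lemma mj_PC {d r : ℕ} (hr : r ∈ un d) (P P' p : ℕ) :
    p ∈ PC P P' d r ↔ p ∈ PP P P' ∧ p % d = r := by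
  rw [PC, mem_filter, Nat.ModEq, Nat.mod_eq_of_lt (mem_range.1 (mem_filter.1 hr).1)]

lemma mj_one {c B a₀ A X : ℕ} {D : Fm} (hD : Fam c B a₀ X D) (hs : Siz c X D)
    (hM : MR c B A X D) (hh : 0 < hW B X) (hL : 0 ≤ LL X) {z : ℕ × ℕ} (hz : z ∈ D.F) {d : ℕ}
    (hd : 0 < d) (hdQ : d ≤ QB B X) {S : Finset ℤ} (hS : S ⊆ Ioc (X : ℤ) (2 * X)) {l m : ℕ}
    (hl : 0 < l) (hm : Y1 X < l * m) :
    ∑ k ∈ S, |(∑ q ∈ D.QQ, ∑ t ∈ mjT c X D, mjW X z.1 q t *
        (psi (hW B X) (k - (val z q t.1 t.2.1 t.2.2 : ℕ)) *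
          ram d (k - (val z q t.1 t.2.1 t.2.2 : ℕ)))) -
      ∑ q ∈ D.QQ, (∑ r ∈ un d ×ˢ un d ×ˢ un d, ram d (k - (val z q r.1 r.2.1 r.2.2 : ℕ))) /
        #(un d ×ˢ un d ×ˢ un d)| ≤
      d * ((d : ℝ) ^ 3 * (#D.QQ * X * (1 / LL X ^ A + d * m / EE X (13 / 100))) +
        4 / (hW B X : ℝ) * (8 * D.Y2 * l) * ∑ q ∈ D.QQ, ∑ t ∈ mjT c X D, mjW X z.1 q t) := by
  have nq : (0 : ℝ) < #D.QQ := by exact_mod_cast hD.QQ_ne.card_pos
  have hQY : QB B X ≤ Y1 X := by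
    by_contra hc
    rw [hW, Nat.div_eq_of_lt (not_le.1 hc)] at hh
    exact lt_irrefl _ hh
  have s1 := hs.y12
  have s2 := hs.p21
  have s3 := hs.p13
  obtain ⟨b0, b1, b2, -⟩ := hD.size z hz
  have E0 : 0 < EE X (13 / 100) := Real.exp_pos _
  have cC : (#(un d ×ˢ un d ×ˢ un d) : ℝ) = (d.totient : ℝ) ^ 3 := by
    rw [card_product, card_product, mj_card_un]; push_cast; ring
  have key := maj_one D.QQ (mjT c X D) S (mjW X z.1) (fun q _ t _ => mjW_nonneg X z.1 q t)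
    (fun q t => ((q + 4) * z.1 * (t.1 + 2) * (t.2.1 + 2) * (t.2.2 + 2) : ℕ))
    (fun q => (8 * (q + 2) * z.2 : ℕ)) (psi (hW B X)) (ram d) d (abs_ram_le d)
    (un d ×ˢ un d ×ˢ un d) (fun t => (t.1 % d, t.2.1 % d, t.2.2 % d))
    (fun t ht => by
      obtain ⟨t1, t2⟩ := mem_product.1 ht
      obtain ⟨t2, t3⟩ := mem_product.1 t2
      exact mem_product.2 ⟨mj_un hd (by omega) t1,
        mem_product.2 ⟨mj_un hd (by omega) t2, mj_un hd (by omega) t3⟩⟩)
    (D.QQ.image fun q => (q % d, q / l)) (fun q => (q % d, q / l))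
    (fun q hq => mem_image_of_mem _ hq)
    (fun q r => (val z q r.1 r.2.1 r.2.2 : ℕ)) (fun I r => (val z I.1 r.1 r.2.1 r.2.2 : ℕ))
    (fun q _ t _ k => by
      rw [← Nat.cast_add]
      exact mj_val z (Nat.ModEq.refl q) (Nat.mod_modEq _ _).symm (Nat.mod_modEq _ _).symm
        (Nat.mod_modEq _ _).symm k)
    (fun q _ r _ k => mj_val z (Nat.mod_modEq _ _).symm (Nat.ModEq.refl _) (Nat.ModEq.refl _)
      (Nat.ModEq.refl _) k)
    (fun I => (8 * (I.2 * l + 2) * z.2 : ℕ)) (8 * D.Y2 * l) (4 / (hW B X : ℝ)) (by positivity)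
    (fun q _ => by
      have h1 : (q : ℝ) = (q / l : ℕ) * l + (q % l : ℕ) := by
        exact_mod_cast (Nat.div_add_mod' q l).symm
      have h2 : ((q % l : ℕ) : ℝ) ≤ l := by exact_mod_cast (Nat.mod_lt q hl).le
      have h3 : (z.2 : ℝ) ≤ D.Y2 := by exact_mod_cast b1.trans b2
      have h4 : (((8 * (q + 2) * z.2 : ℕ) - (8 * (q / l * l + 2) * z.2 : ℕ) : ℤ) : ℝ) =
          8 * z.2 * (q % l : ℕ) := by
        rw [Int.cast_sub, Int.cast_natCast, Int.cast_natCast]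
        simp only [Nat.cast_mul, Nat.cast_add, Nat.cast_ofNat]
        linear_combination 8 * (z.2 : ℝ) * h1
      rw [h4, abs_of_nonneg (by positivity)]
      gcongr)
    (mj_psi hh S)
    (fun I _ => #D.QQ * (X * (#{q ∈ D.QQ | (q % d, q / l) = I} / #D.QQ / LL X ^ A +
      1 / EE X (13 / 100))))
    (fun I hI r hr => by
      obtain ⟨r1, r2⟩ := mem_product.1 hr
      obtain ⟨r2, r3⟩ := mem_product.1 r2
      obtain ⟨q, hq, rfl⟩ := mem_image.1 hI
      have q1 := (hD.qpr q hq).2.2.1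
      have q2 := Nat.div_mul_le_self q l
      have q3 : 8 * (q / l * l + 2) * z.2 ≤ 8 * Y1 X * D.Y2 :=
        Nat.mul_le_mul (by omega) (b1.trans b2)
      have h := hM z hz d r.1 r.2.1 r.2.2 hd hdQ (mem_filter.1 r1).2 (mem_filter.1 r2).2
        (mem_filter.1 r3).2 {q' ∈ D.QQ | (q' % d, q' / l) = (q % d, q / l)} (filter_subset _ _)
        (8 * (q / l * l + 2) * z.2 : ℕ) (by positivity) (by exact_mod_cast q3)
      refine le_trans ?_ (mul_le_mul_of_nonneg_left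
        ((sum_le_sum_of_subset_of_nonneg hS fun _ _ _ => abs_nonneg _).trans h) nq.le)
      rw [mul_sum]
      refine sum_le_sum fun k _ => le_of_eq ?_
      have e : {t ∈ mjT c X D | (t.1 % d, t.2.1 % d, t.2.2 % d) = r} =
          PC (P1 X) (2 * P1 X) d r.1 ×ˢ PC (P2 X) (2 * P2 X) d r.2.1 ×ˢ
            PC (N3 X D) (N4 c X D) d r.2.2 := by
        ext t
        simp only [mjT, mem_filter, mem_product, mj_PC r1, mj_PC r2, mj_PC r3, Prod.ext_iff]
        tauto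
      rw [← abs_of_pos nq, ← abs_mul, abs_of_pos nq, e, cC, RS, mul_sub, ← mul_assoc,
        mul_one_div_cancel nq.ne', one_mul]
      congr 2
      · refine sum_congr rfl fun q' _ => ?_
        simp only [sum_product, mjW]
        refine sum_congr rfl fun _ _ => sum_congr rfl fun _ _ => sum_congr rfl fun _ _ => ?_
        rw [← psi_neg]
        congr 2
        ring
      · field_simp)
  simp only [← Nat.cast_add] at key
  refine key.trans (mul_le_mul_of_nonneg_left (add_le_add ?_ le_rfl) (Nat.cast_nonneg d))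
  have cP : (#(D.QQ.image fun q => (q % d, q / l)) : ℝ) ≤ d * m := by
    have : #(D.QQ.image fun q => (q % d, q / l)) ≤ #(range d ×ˢ range m) :=
      card_le_card fun I hI => by
        obtain ⟨q, hq, rfl⟩ := mem_image.1 hI
        have q1 := (hD.qpr q hq).2.2.1
        exact mem_product.2 ⟨mem_range.2 (Nat.mod_lt _ hd),
          mem_range.2 (Nat.div_lt_of_lt_mul (by omega))⟩
    rw [card_product, card_range, card_range] at this
    exact_mod_cast this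
  have cs : ∑ I ∈ D.QQ.image fun q => (q % d, q / l),
      (#{q ∈ D.QQ | (q % d, q / l) = I} : ℝ) = #D.QQ := by
    rw [← Nat.cast_sum, ← card_eq_sum_card_image]
  have ct : (d.totient : ℝ) ^ 3 ≤ (d : ℝ) ^ 3 := by
    gcongr; exact Nat.totient_le d
  simp only [sum_const, nsmul_eq_mul, cC]
  rw [← mul_sum, ← mul_sum, ← mul_sum, sum_add_distrib, ← sum_div, ← sum_div, cs, sum_const,
    nsmul_eq_mul, div_self nq.ne', mul_one_div, mul_assoc]
  gcongr

theorem major_of_mr (c B a₀ : ℕ) : ∃ A : ℕ, ∀ᶠ X : ℕ in atTop, ∀ D : Fm, Fam c B a₀ X D →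
    MR c B A X D → ∀ S ⊆ Ioc (X : ℤ) (2 * X),
      |TT c X D D.F (cv (QB B X) (hW B X) S) - ∑ k ∈ S, SS D (QB B X) k| ≤ X / LL X := by
  refine ⟨5 * B + 2, ?_⟩
  filter_upwards [siz c B a₀, mass c B a₀, siz_L 3,
    siz_Y1 2 B 0 (show (1 / 8 : ℝ) < 3 / 20 by norm_num),
    siz_Y1 2 0 1 (show (127 / 1000 : ℝ) < 3 / 20 by norm_num),
    siz_EE_EE (384 * 10 ^ 6 * c) (3 * B + 1) 1 (show (1 / 8 : ℝ) < 127 / 1000 by norm_num)
      (by norm_num),
    siz_EE_EE 6 (6 * B + 1) 1 (show (127 / 1000 : ℝ) < 13 / 100 by norm_num) (by norm_num)]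
    with X hs hmass hL hY hY' hE hE' D hD hM S hS
  simp only [pow_zero, pow_one, mul_one] at hY hY' hE hE'
  have L0 : 0 < LL X := by linarith
  have LB : 1 ≤ LL X ^ B := one_le_pow₀ (by linarith)
  have Q1 : (QB B X : ℝ) ≤ LL X ^ B := Nat.floor_le (by linarith)
  have Q0 : 0 < QB B X := (Nat.one_le_floor_iff _).2 LB
  have hQY : QB B X ≤ Y1 X := by
    have : (QB B X : ℝ) ≤ Y1 X := by linarith
    exact_mod_cast this
  have hh : 0 < hW B X := Nat.div_pos hQY Q0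
  have h0 : (0 : ℝ) < hW B X := by exact_mod_cast hh
  have hh2 : (Y1 X : ℝ) ≤ 2 * QB B X * hW B X := by
    have h1 : Y1 X < QB B X * (hW B X + 1) := Nat.lt_mul_div_succ _ Q0
    have h2 : Y1 X ≤ 2 * QB B X * hW B X := by nlinarith
    exact_mod_cast h2
  obtain ⟨m, hm⟩ : ∃ m, m = ⌈EE X (127 / 1000)⌉₊ := ⟨_, rfl⟩
  have e1 := one_le_EE X (127 / 1000)
  have m1 : EE X (127 / 1000) ≤ m := hm ▸ Nat.le_ceil _
  have m2 : (m : ℝ) ≤ 2 * EE X (127 / 1000) := by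
    have := Nat.ceil_lt_add_one (show 0 ≤ EE X (127 / 1000) by linarith)
    rw [← hm] at this; linarith
  have m0 : (0 : ℝ) < m := by linarith
  have m0' : 0 < m := by exact_mod_cast m0
  obtain ⟨l, hl⟩ : ∃ l, l = Y1 X / m + 1 := ⟨_, rfl⟩
  have l1 : Y1 X < l * m := by rw [hl, mul_comm]; exact Nat.lt_mul_div_succ _ m0'
  have l2 : (l : ℝ) * m ≤ 2 * Y1 X := by
    have h1 : m ≤ Y1 X := by
      have : (m : ℝ) ≤ Y1 X := by linarith
      exact_mod_cast this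
    have h2 := Nat.div_mul_le_self (Y1 X) m
    have h3 : l * m ≤ 2 * Y1 X := by rw [hl, add_mul]; omega
    exact_mod_cast h3
  have nq : (0 : ℝ) < #D.QQ := by exact_mod_cast hD.QQ_ne.card_pos
  have nF : (0 : ℝ) < #D.F := by exact_mod_cast hD.F_ne.card_pos
  have X0 : (0 : ℝ) ≤ X := Nat.cast_nonneg X
  have E0 : 0 < EE X (13 / 100) := Real.exp_pos _
  have ms : 1 / ((#D.F : ℝ) * #D.QQ) * ∑ z ∈ D.F, ∑ q ∈ D.QQ, ∑ t ∈ mjT c X D, mjW X z.1 q t ≤
      10 ^ 6 * c * X := by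
    have h1 := hmass D hD D.F Subset.rfl (fun _ => 1) 1 (fun _ => by simp)
    rw [mj_TT] at h1
    simp only [mul_one] at h1
    exact (le_abs_self _).trans (le_of_mul_le_mul_right h1 nF)
  have eq : TT c X D D.F (cv (QB B X) (hW B X) S) - ∑ k ∈ S, SS D (QB B X) k =
      ∑ d ∈ Icc 1 (QB B X), 1 / ((#D.F : ℝ) * #D.QQ) * ∑ z ∈ D.F, ∑ k ∈ S,
        ((∑ q ∈ D.QQ, ∑ t ∈ mjT c X D, mjW X z.1 q t *
          (psi (hW B X) (k - (val z q t.1 t.2.1 t.2.2 : ℕ)) *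
            ram d (k - (val z q t.1 t.2.1 t.2.2 : ℕ)))) -
        ∑ q ∈ D.QQ, (∑ r ∈ un d ×ˢ un d ×ˢ un d, ram d (k - (val z q r.1 r.2.1 r.2.2 : ℕ))) /
          #(un d ×ˢ un d ×ˢ un d)) := by
    simp only [sum_sub_distrib, mul_sub]
    congr 1
    · rw [mj_TT, ← mul_sum, sum_comm (s := Icc 1 (QB B X))]
      congr 1
      refine sum_congr rfl fun z _ => ?_
      rw [sum_comm (s := Icc 1 (QB B X))]
      simp only [cv, mul_sum]
      rw [sum_congr rfl fun q _ => sum_comm, sum_comm]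
      refine sum_congr rfl fun k _ => ?_
      rw [sum_comm (s := Icc 1 (QB B X))]
      refine sum_congr rfl fun q _ => ?_
      rw [sum_comm (s := Icc 1 (QB B X))]
      refine sum_congr rfl fun t _ => ?_
      rw [← KK_neg, neg_sub, KK, mul_sum, mul_sum]
    · simp only [SS]
      rw [sum_comm]
      refine sum_congr rfl fun d _ => ?_
      simp only [sd]
      rw [← mul_sum, sum_comm]
      congr 1
      refine sum_congr rfl fun z _ => sum_congr rfl fun k _ => sum_congr rfl fun q _ => ?_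
      rw [card_product, card_product, mj_card_un]
      simp only [sum_product]
      push_cast
      ring
  obtain ⟨Q, hQ⟩ : ∃ Q : ℝ, Q = QB B X := ⟨_, rfl⟩
  have Q0' : 0 ≤ Q := hQ ▸ Nat.cast_nonneg _
  have bd : ∀ d ∈ Icc 1 (QB B X), |1 / ((#D.F : ℝ) * #D.QQ) * ∑ z ∈ D.F, ∑ k ∈ S,
        ((∑ q ∈ D.QQ, ∑ t ∈ mjT c X D, mjW X z.1 q t *
          (psi (hW B X) (k - (val z q t.1 t.2.1 t.2.2 : ℕ)) *
            ram d (k - (val z q t.1 t.2.1 t.2.2 : ℕ)))) -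
        ∑ q ∈ D.QQ, (∑ r ∈ un d ×ˢ un d ×ˢ un d, ram d (k - (val z q r.1 r.2.1 r.2.2 : ℕ))) /
          #(un d ×ˢ un d ×ˢ un d))| ≤
      Q * (Q ^ 3 * (X * (1 / LL X ^ (5 * B + 2) + Q * m / EE X (13 / 100))) +
        4 / (hW B X : ℝ) * (8 * D.Y2 * l) * (10 ^ 6 * c * X)) := fun d hd => by
    obtain ⟨d1, d2⟩ := mem_Icc.1 hd
    have d3 : (d : ℝ) ≤ Q := by rw [hQ]; exact_mod_cast d2
    rw [abs_mul, abs_of_nonneg (by positivity)]
    refine (mul_le_mul_of_nonneg_left ((abs_sum_le_sum_abs _ _).trans (sum_le_sum fun z hz =>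
      (abs_sum_le_sum_abs _ _).trans (mj_one hD (hs D hD) hM hh L0.le hz d1 d2 hS
        (hl ▸ Nat.succ_pos _) l1))) (by positivity)).trans ?_
    rw [← mul_sum, sum_add_distrib, sum_const, nsmul_eq_mul, ← mul_sum, mul_left_comm, mul_add,
      mul_left_comm _ (4 / (hW B X : ℝ) * (8 * D.Y2 * l))]
    refine mul_le_mul d3 (add_le_add ?_ (mul_le_mul_of_nonneg_left ms (by positivity))) ?_ Q0'
    · rw [show ∀ u v : ℝ, 1 / ((#D.F : ℝ) * #D.QQ) * (#D.F * (u * (#D.QQ * X * v))) =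
        u * (X * v) from fun u v => by field_simp]
      gcongr
    · have : 0 ≤ ∑ z ∈ D.F, ∑ q ∈ D.QQ, ∑ t ∈ mjT c X D, mjW X z.1 q t :=
        sum_nonneg fun _ _ => sum_nonneg fun _ _ => sum_nonneg fun _ _ => mjW_nonneg _ _ _ _
      positivity
  rw [eq]
  refine (abs_sum_le_sum_abs _ _).trans ((sum_le_card_nsmul _ _ _ bd).trans ?_)
  rw [Nat.card_Icc, Nat.add_sub_cancel, nsmul_eq_mul, ← hQ]
  rw [← hQ] at Q1 hh2
  have t1 : Q ^ 5 / LL X ^ (5 * B + 2) ≤ 1 / (3 * LL X) := by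
    rw [div_le_div_iff₀ (by positivity) (by positivity), one_mul, pow_add, mul_comm 5 B, pow_mul]
    exact mul_le_mul (pow_le_pow_left₀ Q0' Q1 5) (by nlinarith) (by positivity) (by positivity)
  have t2 : Q ^ 6 * m / EE X (13 / 100) ≤ 1 / (3 * LL X) := by
    rw [div_le_div_iff₀ E0 (by positivity), one_mul]
    refine le_trans ?_ hE'
    rw [pow_succ (LL X), mul_comm 6 B, pow_mul]
    calc Q ^ 6 * m * (3 * LL X) ≤ (LL X ^ B) ^ 6 * (2 * EE X (127 / 1000)) * (3 * LL X) := by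
          gcongr
      _ = _ := by ring
  have t3 : Q ^ 2 * (4 / (hW B X : ℝ) * (8 * D.Y2 * l) * (10 ^ 6 * c)) ≤ 1 / (3 * LL X) := by
    have a1 : (l : ℝ) * m ≤ 4 * Q * hW B X := by linarith
    have a2 : (l : ℝ) / hW B X ≤ 4 * Q / m := by
      rw [div_le_div_iff₀ h0 m0]; exact a1
    have a3 := hD.yle
    have a4 := one_le_EE X (1 / 8)
    calc _ = Q ^ 2 * (32 * D.Y2 * (10 ^ 6 * c)) * ((l : ℝ) / hW B X) := by ring
      _ ≤ Q ^ 2 * (32 * D.Y2 * (10 ^ 6 * c)) * (4 * Q / m) := by gcongr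
      _ = 128 * 10 ^ 6 * c * Q ^ 3 * D.Y2 / m := by ring
      _ ≤ _ := by
        rw [div_le_div_iff₀ m0 (by positivity), one_mul]
        refine le_trans ?_ (hE.trans m1)
        rw [pow_succ (LL X), mul_comm 3 B, pow_mul]
        calc _ ≤ 128 * 10 ^ 6 * c * (LL X ^ B) ^ 3 * EE X (1 / 8) * (3 * LL X) := by gcongr
          _ = _ := by ring
  calc _ = X * (Q ^ 5 / LL X ^ (5 * B + 2) + Q ^ 6 * m / EE X (13 / 100) +
        Q ^ 2 * (4 / (hW B X : ℝ) * (8 * D.Y2 * l) * (10 ^ 6 * c))) := by ring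
    _ ≤ X * (1 / (3 * LL X) + 1 / (3 * LL X) + 1 / (3 * LL X)) := by gcongr
    _ = _ := by field_simp; norm_num

end Pool.Agent.H84D
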