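import Pool.Agent.H84D.Defs
import Pool.Agent.H84D.Par

set_option autoImplicit false

/-! The minor arc block from its four inputs. -/

namespace Pool.Agent.H84D

open Finset Filter

theorem minor_half_floor {x : ℝ} (hx : 1 ≤ x) : x / 2 ≤ (⌊x⌋₊ : ℝ) := by
  have h1 : (1 : ℝ) ≤ (⌊x⌋₊ : ℝ) := by
    exact_mod_cast (Nat.one_le_floor_iff x).2 hx
  have h2 := Nat.lt_floor_add_one x
  linarith

theorem minor_sizes (B : ℕ) : ∀ᶠ X : ℕ in atTop, 3 ≤ LL X ∧ LL X ^ B / 2 ≤ (QB B X : ℝ) ∧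
    0 < hW B X ∧ 2 * hW B X ≤ X := by
  filter_upwards [par_nat (eventually_ge_atTop (3 : ℝ)),
    par_nat (par_rpow_exp 2 B (b := 3 / 20) (c' := 1) (by norm_num) one_pos),
    par_nat (par_exp_exp 2 0 1 (a := 3 / 20) (b := 1) (c' := 1) (by norm_num) one_pos one_pos),
    eventually_gt_atTop 0] with X h3 hQ hY hX
  have hX' : (0 : ℝ) < X := by exact_mod_cast hX
  rw [Real.rpow_natCast, one_mul] at hQ
  rw [Real.rpow_zero, mul_one, one_mul, one_mul, Real.rpow_one, Real.exp_log hX'] at hY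
  have hLB : 1 ≤ Real.log X ^ B := one_le_pow₀ (by linarith)
  have hQ1 : LL X ^ B / 2 ≤ (QB B X : ℝ) := minor_half_floor hLB
  have hQ2 : (QB B X : ℝ) ≤ Real.log X ^ B := Nat.floor_le (by unfold LL; linarith)
  have hY1 : EE X (3 / 20) / 2 ≤ (Y1 X : ℝ) :=
    minor_half_floor (Real.one_le_exp (Real.rpow_nonneg (by unfold LL; linarith) _))
  have hY2 : (Y1 X : ℝ) ≤ EE X (3 / 20) := Nat.floor_le (Real.exp_pos _).le
  have hE : EE X (3 / 20) = Real.exp (Real.log X ^ (3 / 20 : ℝ)) := rfl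
  have hQpos : 0 < QB B X := by
    have : (0 : ℝ) < (QB B X : ℝ) := by
      have : (1 : ℝ) ≤ LL X ^ B := hLB
      linarith
    exact_mod_cast this
  have hQY : QB B X ≤ Y1 X := by
    have : (QB B X : ℝ) ≤ (Y1 X : ℝ) := by linarith
    exact_mod_cast this
  refine ⟨h3, hQ1, Nat.div_pos hQY hQpos, ?_⟩
  have h1 : hW B X ≤ Y1 X := Nat.div_le_self _ _
  have h2 : 2 * Y1 X ≤ X := by
    have : (2 : ℝ) * (Y1 X : ℝ) ≤ X := by linarith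
    exact_mod_cast this
  omega

theorem minor_cop {c B a₀ X : ℕ} {D : Fm} (hF : Fam c B a₀ X D) (hL : 1 ≤ LL X) {q : ℕ}
    (hq : q ∈ D.QQ) {z : ℕ × ℕ} (hz : z ∈ D.F) : (q + 4).Coprime z.1 := by
  by_contra hn
  obtain ⟨p, hp, hp1, hp2⟩ := Nat.Prime.not_coprime_iff_dvd.1 hn
  have h1 := hF.qr q hq p hp hp1
  obtain ⟨s1, s2, s3, -⟩ := hF.size z hz
  have h2 : p ≤ D.Y2 := (Nat.le_of_dvd (by omega) hp2).trans s3
  have h3 : (p : ℝ) ≤ D.Y2 := by exact_mod_cast h2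
  have h4 : EE X (1 / 8) ≤ EE X (7 / 50) :=
    Real.exp_le_exp.2 (Real.rpow_le_rpow_of_exponent_le hL (by norm_num))
  have := hF.yle
  linarith

theorem minor_split {G : Finset (ℕ × ℕ)} {QQ : Finset ℕ}
    (h : ∀ q ∈ QQ, ∀ z ∈ G, (q + 4).Coprime z.1) (J : Finset ℤ) (g : ℤ → ℝ) :
    SF G QQ J g = S2 G QQ J g + DF G QQ J g := by
  unfold SF S2 DF
  rw [← sum_add_distrib]
  refine sum_congr rfl fun q hq => ?_
  rw [← sum_add_distrib]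
  refine sum_congr rfl fun a ha => ?_
  rw [← sum_add_distrib]
  refine sum_congr rfl fun m _ => ?_
  obtain ⟨z, hz, rfl⟩ := mem_image.1 ha
  have hc : IsCoprime ((q : ℤ) + 4) (z.1 : ℤ) := by
    have := Nat.isCoprime_iff_coprime.2 (h q hq z hz)
    simpa using this
  unfold xi
  by_cases h1 : (z.1 : ℤ) ∣ m
  · by_cases h2 : ((q : ℤ) + 4) ∣ m
    · rw [if_pos (hc.mul_dvd h2 h1), if_pos h1, if_pos h1, if_pos h2]; ring
    · rw [if_neg (fun hh => h2 (dvd_of_mul_right_dvd hh)), if_pos h1, if_pos h1, if_neg h2]; ring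
  · rw [if_neg (fun hh => h1 (dvd_of_mul_left_dvd hh)), if_neg h1, if_neg h1]; ring

/-- the block `minor` from the statements of `cs`, `s2_le`, `df_le`, `gg_le`, `gg_supp` -/
theorem minor_of (c : ℕ)
    (hcs : ∀ B a₀ : ℕ, ∀ᶠ X : ℕ in atTop, ∀ D : Fm, Fam c B a₀ X D → ∀ G ⊆ D.F,
      ∀ g : ℤ → ℝ, (∀ m, g m ≠ 0 → (X : ℤ) < 2 * m ∧ m ≤ 5 * X / 2) →
        TT c X D G g ^ 2 ≤ LL X ^ 14 * X *
          (c0 X D * SF G D.QQ (Icc (Y1 X * D.Y2 : ℤ) (3 * X)) g))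
    (hs2 : ∃ C : ℕ, ∀ B a₀ : ℕ, 1 ≤ B → ∀ᶠ X : ℕ in atTop, ∀ D : Fm,
      Fam c B a₀ X D → ∀ G ⊆ D.F, ∀ S ⊆ Ioc (X : ℤ) (2 * X), ∀ J : Finset ℤ,
        c0 X D * S2 G D.QQ J (gg (QB B X) (hW B X) S) * QB B X ≤ LL X ^ C * X)
    (hdf : ∀ B a₀ A : ℕ, c + 1 ≤ B → ∀ᶠ X : ℕ in atTop, ∀ D : Fm, Fam c B a₀ X D →
      ∀ g : ℤ → ℝ, (∀ m, |g m| ≤ 1 + (QB B X : ℝ) ^ 2) →
        (∀ m, g m ≠ 0 → (X : ℤ) < 2 * m ∧ m ≤ 5 * X / 2) →
        c0 X D * |DF (good D (QB B X)) D.QQ (Icc (Y1 X * D.Y2 : ℤ) (3 * X)) g| ≤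
          X / LL X ^ A)
    (hgl : ∀ {Q h : ℕ}, 0 < h → ∀ (S : Finset ℤ) (m : ℤ), |gg Q h S m| ≤ 1 + (Q : ℝ) ^ 2)
    (hgs : ∀ {Q h : ℕ}, 0 < h → ∀ {S : Finset ℤ} {A B : ℤ}, S ⊆ Ioc A B → ∀ {m : ℤ},
      gg Q h S m ≠ 0 → A - h < m ∧ m < B + h) :
    ∃ B₀ : ℕ, ∀ B a₀ : ℕ, B₀ ≤ B → ∀ᶠ X : ℕ in atTop, ∀ D : Fm,
      Fam c B a₀ X D → ∀ S ⊆ Ioc (X : ℤ) (2 * X),
        |TT c X D (good D (QB B X)) (gg (QB B X) (hW B X) S)| ≤ X / LL X := by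
  obtain ⟨C, hs2⟩ := hs2
  refine ⟨C + 17 + c + 1, fun B a₀ hB => ?_⟩
  filter_upwards [hcs B a₀, hs2 B a₀ (by omega), hdf B a₀ 17 (by omega), minor_sizes B]
    with X h1 h2 h3 h4 D hF S hS
  obtain ⟨hL, hQ, hh, hhX⟩ := h4
  have hG : good D (QB B X) ⊆ D.F := filter_subset _ _
  have hsupp : ∀ m, gg (QB B X) (hW B X) S m ≠ 0 → (X : ℤ) < 2 * m ∧ m ≤ 5 * X / 2 := by
    intro m hm
    obtain ⟨a1, a2⟩ := hgs hh hS hm
    omega
  have e1 := h1 D hF _ hG _ hsupp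
  have e2 := h2 D hF _ hG S hS (Icc (Y1 X * D.Y2 : ℤ) (3 * X))
  have e3 := h3 D hF _ (hgl hh S) hsupp
  rw [minor_split (fun q hq z hz => minor_cop hF (by linarith) hq (hG hz)), mul_add] at e1
  have hc0 : 0 ≤ c0 X D := by unfold c0; positivity
  have hL0 : 0 < LL X := by linarith
  have hX0 : (0 : ℝ) ≤ X := Nat.cast_nonneg X
  have e4 := (mul_le_mul_of_nonneg_left (le_abs_self _) hc0).trans e3
  have hQ0 : 0 < (QB B X : ℝ) := lt_of_lt_of_le (by positivity) hQ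
  have hpow : LL X ^ C * LL X ^ 17 ≤ LL X ^ B := by
    rw [← pow_add]
    exact pow_le_pow_right₀ (by linarith) (by omega)
  have e5 : LL X ^ C * X ≤ 2 * (X / LL X ^ 17) * QB B X := by
    have : LL X ^ C ≤ 2 * (QB B X : ℝ) / LL X ^ 17 := by
      rw [le_div_iff₀ (by positivity)]
      linarith
    calc LL X ^ C * X ≤ 2 * (QB B X : ℝ) / LL X ^ 17 * X := mul_le_mul_of_nonneg_right this hX0
      _ = _ := by ring
  have e6 := le_of_mul_le_mul_right (e2.trans e5) hQ0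
  have e7 := e1.trans (mul_le_mul_of_nonneg_left (add_le_add e6 e4) (by positivity))
  have e8 : LL X ^ 14 * X * (2 * (X / LL X ^ 17) + X / LL X ^ 17) ≤ (X / LL X) ^ 2 := by
    have : LL X ^ 14 * X * (2 * (X / LL X ^ 17) + X / LL X ^ 17) = 3 / LL X * (X / LL X) ^ 2 := by
      field_simp
      ring
    rw [this]
    exact mul_le_of_le_one_left (by positivity) ((div_le_one hL0).2 hL)
  exact abs_le_of_sq_le_sq' (e7.trans e8) (by positivity) |> abs_le.2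

end Pool.Agent.H84D
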