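import Pool.Agent.MP_f0209c_nt.Ch.Win

/-! WIN: from a mean value of the Dirichlet polynomial and long sharp sums to tent windows. -/

namespace Pool.Agent.H84D
open Finset MeasureTheory Pool.Agent.MP_f0209c_nt.Ch ComplexConjugate

noncomputable def win_ps (h y : ℝ) : ℝ := max (h - |y|) 0 / h ^ 2

@[fun_prop] lemma win_ps_cont (h : ℝ) : Continuous (win_ps h) := by unfold win_ps; fun_prop

lemma win_ps_nonneg (h y : ℝ) : 0 ≤ win_ps h y := by unfold win_ps; positivity

lemma win_ps_le {h : ℝ} (hh : 0 < h) (y : ℝ) : win_ps h y ≤ 1 / h := by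
  unfold win_ps
  rw [div_le_div_iff₀ (by positivity) hh]
  have : max (h - |y|) 0 ≤ h := max_le (by linarith [abs_nonneg y]) hh.le
  nlinarith

lemma win_ps_zero {h y : ℝ} (hy : h ≤ |y|) : win_ps h y = 0 := by
  unfold win_ps; rw [max_eq_right (by linarith), zero_div]

lemma win_ps_lip {h : ℝ} (hh : 0 < h) (x y : ℝ) : |win_ps h x - win_ps h y| ≤ |x - y| / h ^ 2 := by
  unfold win_ps
  rw [← sub_div, abs_div, abs_of_pos (by positivity : 0 < h ^ 2)]
  refine div_le_div_of_nonneg_right ((abs_max_sub_max_le_abs _ _ _).trans ?_) (by positivity)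
  rw [show h - |x| - (h - |y|) = |y| - |x| by ring, abs_sub_comm x y]
  exact abs_abs_sub_abs_le_abs_sub y x

lemma win_card (K : Finset ℤ) (x : ℝ) {h : ℝ} (hh : 1 ≤ h) :
    ((K.filter fun k : ℤ => |(k : ℝ) - x| < h).card : ℝ) ≤ 3 * h := by
  have h1 : (K.filter fun k : ℤ => |(k : ℝ) - x| < h) ⊆ Finset.Icc ⌈x - h⌉ ⌊x + h⌋ := fun k hk => by
    have := abs_lt.1 (mem_filter.1 hk).2
    exact Finset.mem_Icc.2 ⟨Int.ceil_le.2 (by linarith [this.1]), Int.le_floor.2 (by linarith [this.2])⟩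
  have h2 := card_le_card h1
  rw [Int.card_Icc] at h2
  have h3 : (((⌊x + h⌋ + 1 - ⌈x - h⌉).toNat : ℤ) : ℝ) ≤ 3 * h := by
    rw [Int.toNat_eq_max]
    push_cast
    refine max_le ?_ (by linarith)
    linarith [Int.floor_le (x + h), Int.le_ceil (x - h)]
  have h4 : ((K.filter fun k : ℤ => |(k : ℝ) - x| < h).card : ℝ) ≤
    ((⌊x + h⌋ + 1 - ⌈x - h⌉).toNat : ℝ) := by exact_mod_cast h2
  exact h4.trans (by exact_mod_cast h3)

lemma win_sum_ps (K : Finset ℤ) (x : ℝ) {h : ℝ} (hh : 1 ≤ h) :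
    ∑ k ∈ K, win_ps h (k - x) ≤ 3 := by
  have h0 : 0 < h := by linarith
  rw [← sum_filter_of_ne (p := fun k : ℤ => |(k : ℝ) - x| < h)
    fun k _ hk => by by_contra e; exact hk (win_ps_zero (not_lt.1 e))]
  refine (sum_le_card_nsmul _ _ (1 / h) fun k _ => win_ps_le h0 _).trans ?_
  rw [nsmul_eq_mul, mul_one_div, div_le_iff₀ h0]
  exact win_card K x hh

lemma win_sum_lip (K : Finset ℤ) (x y : ℝ) {h : ℝ} (hh : 1 ≤ h) :
    ∑ k ∈ K, |win_ps h (k - x) - win_ps h (k - y)| ≤ 6 * |x - y| / h := by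
  have h0 : 0 < h := by linarith
  have b : ∀ k ∈ K, |win_ps h (k - x) - win_ps h (k - y)| ≤
      (if |(k : ℝ) - x| < h then |x - y| / h ^ 2 else 0) +
      (if |(k : ℝ) - y| < h then |x - y| / h ^ 2 else 0) := fun k _ => by
    have l := win_ps_lip h0 (k - x) (k - y)
    rw [show (k : ℝ) - x - (k - y) = y - x by ring, abs_sub_comm y x] at l
    have p : 0 ≤ |x - y| / h ^ 2 := by positivity
    split_ifs with a1 a2 a2
    · linarith
    · linarith
    · linarith
    · rw [win_ps_zero (not_lt.1 a1), win_ps_zero (not_lt.1 a2)]; simp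
  refine (sum_le_sum b).trans ?_
  rw [sum_add_distrib, ← sum_filter, ← sum_filter, sum_const, sum_const, nsmul_eq_mul, nsmul_eq_mul]
  have p : 0 ≤ |x - y| / h ^ 2 := by positivity
  have c1 := mul_le_mul_of_nonneg_right (win_card K x hh) p
  have c2 := mul_le_mul_of_nonneg_right (win_card K y hh) p
  have e : 3 * h * (|x - y| / h ^ 2) = 3 * |x - y| / h := by field_simp
  have e2 : 6 * |x - y| / h = 3 * |x - y| / h + 3 * |x - y| / h := by ring
  linarith

lemma win_sum_W (K : Finset ℤ) (s0 : ℝ) {x y h : ℝ} (hh : 1 ≤ h) (hx : 0 ≤ x) :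
    ∑ k ∈ K, |x * win_ps h (k - s0 - x) - y * win_ps h (k - s0 - y)| ≤ |x - y| * (3 + 6 * x / h) := by
  have b : ∀ k ∈ K, |x * win_ps h (k - s0 - x) - y * win_ps h (k - s0 - y)| ≤
      |x - y| * win_ps h (k - (s0 + y)) +
        x * |win_ps h (k - (s0 + x)) - win_ps h (k - (s0 + y))| := fun k _ => by
    rw [sub_sub, sub_sub, show x * win_ps h (k - (s0 + x)) - y * win_ps h (k - (s0 + y)) =
      (x - y) * win_ps h (k - (s0 + y)) + x * (win_ps h (k - (s0 + x)) - win_ps h (k - (s0 + y)))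
      by ring]
    refine (abs_add_le _ _).trans ?_
    rw [abs_mul, abs_mul, abs_of_nonneg (win_ps_nonneg _ _), abs_of_nonneg hx]
  refine (sum_le_sum b).trans ?_
  rw [sum_add_distrib, ← mul_sum, ← mul_sum]
  have c1 := mul_le_mul_of_nonneg_left (win_sum_ps K (s0 + y) hh) (abs_nonneg (x - y))
  have c2 := mul_le_mul_of_nonneg_left (win_sum_lip K (s0 + x) (s0 + y) hh) hx
  rw [add_sub_add_left_eq_sub] at c2
  have e : |x - y| * (3 + 6 * x / h) = |x - y| * 3 + x * (6 * |x - y| / h) := by ring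
  linarith

noncomputable def win_G (T u : ℝ) : ℝ := Real.exp (-(T ^ 2 / 2) * u ^ 2) / √(Real.pi / (T ^ 2 / 2))

@[fun_prop] lemma win_G_cont (T : ℝ) : Continuous (win_G T) := by unfold win_G; fun_prop

lemma win_G_nonneg (T u : ℝ) : 0 ≤ win_G T u := by unfold win_G; positivity

lemma win_G_int {T : ℝ} (hT : 0 < T) (x : ℝ) :
    Integrable (fun v => win_G T (v - x)) ∧ ∫ v, win_G T (v - x) = 1 := by
  obtain ⟨a, b⟩ := rgauss (b := T ^ 2 / 2) (by positivity) x
  have p := Real.pi_pos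
  refine ⟨a.div_const _, ?_⟩
  unfold win_G
  rw [integral_div, b, div_self (by positivity)]

lemma win_G_exp {T : ℝ} (hT : 1 ≤ T) (x : ℝ) :
    Integrable (fun v => |1 - Real.exp (v - x)| * win_G T (v - x)) ∧
      ∫ v, |1 - Real.exp (v - x)| * win_G T (v - x) ≤ 110 / T := by
  have T0 : 0 < T := by linarith
  obtain ⟨i2, e2⟩ := rgauss (b := T ^ 2 / 4) (by positivity) x
  have p := Real.pi_pos
  set A := √(Real.pi / (T ^ 2 / 2)) with hA
  have A0 : 0 < A := by positivity
  have A1 : √(Real.pi / (T ^ 2 / 4)) ≤ 2 * A := Real.sqrt_le_iff.2 ⟨by positivity, by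
    rw [mul_pow, hA, Real.sq_sqrt (by positivity), ← mul_div_assoc,
      div_le_div_iff₀ (by positivity) (by positivity)]
    nlinarith [mul_pos p (pow_pos T0 2)]⟩
  have b : ∀ v, |1 - Real.exp (v - x)| * win_G T (v - x) ≤
      55 / T / A * Real.exp (-(T ^ 2 / 4) * (v - x) ^ 2) := fun v => by
    set u := v - x
    have a1 : |1 - Real.exp u| ≤ |u| * Real.exp |u| := by
      have e1 := Real.add_one_le_exp u
      have e2 := Real.add_one_le_exp (-u)
      have e3 : Real.exp u * Real.exp (-u) = 1 := by rw [← Real.exp_add]; simp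
      have e4 := Real.exp_pos u
      rcases le_total 0 u with c | c
      · rw [abs_of_nonneg c, abs_of_nonpos (by linarith)]; nlinarith
      · rw [abs_of_nonpos c, abs_of_nonneg (by linarith [Real.exp_le_one_iff.2 c])]; nlinarith
    have s0 : 0 ≤ T * |u| := by positivity
    have a2 : T * |u| * Real.exp |u| ≤ 55 * Real.exp ((T ^ 2 / 4) * u ^ 2) := by
      have e1 : T * |u| ≤ Real.exp (T * |u|) := by linarith [Real.add_one_le_exp (T * |u|)]
      have e2 : Real.exp |u| ≤ Real.exp (T * |u|) :=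
        Real.exp_le_exp.2 (by nlinarith [abs_nonneg u])
      have e3 : Real.exp (T * |u|) * Real.exp (T * |u|) ≤
          Real.exp 4 * Real.exp ((T ^ 2 / 4) * u ^ 2) := by
        rw [← Real.exp_add, ← Real.exp_add, Real.exp_le_exp, ← sq_abs u]
        nlinarith [sq_nonneg (T * |u| - 4)]
      have e4 : Real.exp 4 ≤ 55 := by
        rw [show (4 : ℝ) = (4 : ℕ) * 1 by norm_num, Real.exp_nat_mul]
        exact (pow_le_pow_left₀ (Real.exp_pos _).le Real.exp_one_lt_d9.le 4).trans (by norm_num)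
      calc _ ≤ Real.exp (T * |u|) * Real.exp (T * |u|) :=
            mul_le_mul e1 e2 (Real.exp_pos _).le (Real.exp_pos _).le
        _ ≤ _ := e3.trans (mul_le_mul_of_nonneg_right e4 (Real.exp_pos _).le)
    have a3 : |1 - Real.exp u| ≤ 55 / T * Real.exp ((T ^ 2 / 4) * u ^ 2) := by
      rw [div_mul_eq_mul_div, le_div_iff₀ T0]; nlinarith
    have e : Real.exp ((T ^ 2 / 4) * u ^ 2) * Real.exp (-(T ^ 2 / 2) * u ^ 2) =
        Real.exp (-(T ^ 2 / 4) * u ^ 2) := by rw [← Real.exp_add]; congr 1; ring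
    calc _ ≤ 55 / T * Real.exp ((T ^ 2 / 4) * u ^ 2) * win_G T u :=
          mul_le_mul_of_nonneg_right a3 (win_G_nonneg _ _)
      _ = _ := by unfold win_G; rw [← e, ← hA]; ring
  have n : ∀ v, 0 ≤ |1 - Real.exp (v - x)| * win_G T (v - x) := fun v =>
    mul_nonneg (abs_nonneg _) (win_G_nonneg _ _)
  have i : Integrable (fun v => |1 - Real.exp (v - x)| * win_G T (v - x)) :=
    (i2.const_mul (55 / T / A)).mono' (Continuous.aestronglyMeasurable (by fun_prop))
      (ae_of_all _ fun v => by rw [Real.norm_of_nonneg (n v)]; exact b v)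
  refine ⟨i, (integral_mono i (i2.const_mul _) b).trans ?_⟩
  rw [integral_const_mul, e2]
  calc _ ≤ 55 / T / A * (2 * A) := mul_le_mul_of_nonneg_left A1 (by positivity)
    _ = _ := by field_simp; norm_num

/-- the window function in the logarithmic variable -/
noncomputable def win_W (h κ v : ℝ) : ℝ := Real.exp v * win_ps h (κ - Real.exp v)

@[fun_prop] lemma win_W_cont (h κ : ℝ) : Continuous (win_W h κ) := by unfold win_W; fun_prop

lemma win_W_nonneg (h κ v : ℝ) : 0 ≤ win_W h κ v :=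
  mul_nonneg (Real.exp_pos _).le (win_ps_nonneg _ _)

lemma win_step1 (K : Finset ℤ) (s0 : ℝ) {x h T : ℝ} (hh : 1 ≤ h) (hx : 0 < x) (hT : 1 ≤ T) :
    (∀ k ∈ K, Integrable fun v => win_W h (k - s0) v * win_G T (v - Real.log x)) ∧
    ∑ k ∈ K, |x * win_ps h (k - s0 - x) - ∫ v, win_W h (k - s0) v * win_G T (v - Real.log x)| ≤
      x * (3 + 6 * x / h) * (110 / T) := by
  have T0 : 0 < T := by linarith
  obtain ⟨i1, e1⟩ := win_G_int T0 (Real.log x)
  obtain ⟨i2, e2⟩ := win_G_exp hT (Real.log x)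
  have c0 : 0 ≤ x * (3 + 6 * x / h) := by positivity
  have b : ∀ v, ∑ k ∈ K, |x * win_ps h (k - s0 - x) - win_W h (k - s0) v| *
      win_G T (v - Real.log x) ≤
      x * (3 + 6 * x / h) * (|1 - Real.exp (v - Real.log x)| * win_G T (v - Real.log x)) := fun v => by
    rw [← sum_mul, ← mul_assoc]
    refine mul_le_mul_of_nonneg_right ((win_sum_W K s0 hh hx.le).trans (le_of_eq ?_))
      (win_G_nonneg _ _)
    rw [Real.exp_sub, Real.exp_log hx, show x - Real.exp v = x * (1 - Real.exp v / x) by field_simp,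
      abs_mul, abs_of_pos hx]
    ring
  have i3 : ∀ k ∈ K, Integrable fun v => (x * win_ps h (k - s0 - x) - win_W h (k - s0) v) *
      win_G T (v - Real.log x) := fun k hk =>
    (i2.const_mul (x * (3 + 6 * x / h))).mono' (Continuous.aestronglyMeasurable (by fun_prop))
      (ae_of_all _ fun v => by
        rw [Real.norm_eq_abs, abs_mul, abs_of_nonneg (win_G_nonneg _ _)]
        exact (single_le_sum (f := fun k : ℤ => |x * win_ps h (k - s0 - x) - win_W h (k - s0) v| *
          win_G T (v - Real.log x)) (fun _ _ => mul_nonneg (abs_nonneg _) (win_G_nonneg _ _))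
          hk).trans (b v))
  have i4 : ∀ k ∈ K, Integrable fun v => win_W h (k - s0) v * win_G T (v - Real.log x) :=
    fun k hk => by
      refine ((i1.const_mul (x * win_ps h (k - s0 - x))).sub (i3 k hk)).congr
        (ae_of_all _ fun v => ?_)
      simp only [Pi.sub_apply]; ring
  have i5 : ∀ k ∈ K, Integrable fun v => |x * win_ps h (k - s0 - x) - win_W h (k - s0) v| *
      win_G T (v - Real.log x) := fun k hk => by
    refine (i3 k hk).abs.congr (ae_of_all _ fun v => ?_)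
    simp only [abs_mul, abs_of_nonneg (win_G_nonneg _ _)]
  refine ⟨i4, ?_⟩
  calc _ ≤ ∑ k ∈ K, ∫ v, |x * win_ps h (k - s0 - x) - win_W h (k - s0) v| *
        win_G T (v - Real.log x) := sum_le_sum fun k hk => by
        have : x * win_ps h (k - s0 - x) - ∫ v, win_W h (k - s0) v * win_G T (v - Real.log x) =
            ∫ v, (x * win_ps h (k - s0 - x) - win_W h (k - s0) v) * win_G T (v - Real.log x) := by
          simp only [sub_mul]
          rw [integral_sub (i1.const_mul _) (i4 k hk), integral_const_mul, e1, mul_one]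
        rw [this]
        refine abs_integral_le_integral_abs.trans (le_of_eq ?_)
        simp only [abs_mul, abs_of_nonneg (win_G_nonneg _ _)]
    _ = ∫ v, ∑ k ∈ K, |x * win_ps h (k - s0 - x) - win_W h (k - s0) v| *
        win_G T (v - Real.log x) := (integral_finsetSum _ i5).symm
    _ ≤ ∫ v, x * (3 + 6 * x / h) * (|1 - Real.exp (v - Real.log x)| * win_G T (v - Real.log x)) :=
        integral_mono (integrable_finsetSum _ i5) (i2.const_mul _) b
    _ ≤ _ := by rw [integral_const_mul]; exact mul_le_mul_of_nonneg_left e2 c0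

lemma win_ps_int {h κ a b : ℝ} (hh : 0 < h) (ha : a ≤ κ - h) (hb : κ + h ≤ b) :
    ∫ y in a..b, win_ps h (κ - y) = 1 := by
  have c : Continuous fun y => win_ps h (κ - y) := by fun_prop
  have i : ∀ x y : ℝ, IntervalIntegrable (fun y => win_ps h (κ - y)) volume x y := fun x y =>
    c.intervalIntegrable x y
  rw [← intervalIntegral.integral_add_adjacent_intervals (i a (κ - h)) (i _ b),
    ← intervalIntegral.integral_add_adjacent_intervals (i (κ - h) κ) (i _ b),
    ← intervalIntegral.integral_add_adjacent_intervals (i κ (κ + h)) (i _ b)]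
  have e1 : ∫ y in a..(κ - h), win_ps h (κ - y) = ∫ y in a..(κ - h), (0 : ℝ) :=
    intervalIntegral.integral_congr fun y hy => by
      rw [Set.uIcc_of_le ha] at hy
      exact win_ps_zero (le_trans (by linarith [hy.2]) (le_abs_self _))
  have e4 : ∫ y in (κ + h)..b, win_ps h (κ - y) = ∫ y in (κ + h)..b, (0 : ℝ) :=
    intervalIntegral.integral_congr fun y hy => by
      rw [Set.uIcc_of_le hb] at hy
      exact win_ps_zero (le_trans (by linarith [hy.1]) (neg_le_abs _))
  have e2 : ∫ y in (κ - h)..κ, win_ps h (κ - y) =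
      ∫ y in (κ - h)..κ, ((h - κ) / h ^ 2 + 1 / h ^ 2 * y) :=
    intervalIntegral.integral_congr fun y hy => by
      rw [Set.uIcc_of_le (by linarith)] at hy
      simp only [win_ps]
      rw [abs_of_nonneg (by linarith [hy.2]), max_eq_left (by linarith [hy.1])]; ring
  have e3 : ∫ y in κ..(κ + h), win_ps h (κ - y) =
      ∫ y in κ..(κ + h), ((h + κ) / h ^ 2 + -1 / h ^ 2 * y) :=
    intervalIntegral.integral_congr fun y hy => by
      rw [Set.uIcc_of_le (by linarith)] at hy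
      simp only [win_ps]
      rw [abs_of_nonpos (by linarith [hy.1]), max_eq_left (by linarith [hy.2])]; ring
  have l : ∀ p q x y : ℝ, ∫ z in x..y, (p + q * z) = (y - x) * p + q * ((y ^ 2 - x ^ 2) / 2) :=
    fun p q x y => by
      rw [intervalIntegral.integral_add (by simp) (Continuous.intervalIntegrable (by fun_prop) _ _),
        intervalIntegral.integral_const_mul, integral_id, intervalIntegral.integral_const, smul_eq_mul]
  rw [e1, e2, e3, e4, l, l]
  simp only [intervalIntegral.integral_zero]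
  field_simp; ring

lemma win_W_int {h κ A B : ℝ} (hh : 0 < h) (hA : 0 < A) (ha : A ≤ κ - h) (hb : κ + h ≤ B) :
    ∫ v in Set.Icc (Real.log A) (Real.log B), win_W h κ v = 1 := by
  have hB : 0 < B := by linarith
  have := intervalIntegral.integral_comp_mul_deriv (a := Real.log A) (b := Real.log B)
    (f := Real.exp) (f' := Real.exp) (g := fun y => win_ps h (κ - y))
    (fun x _ => Real.hasDerivAt_exp x) Real.continuous_exp.continuousOn (by fun_prop)
  rw [Real.exp_log hA, Real.exp_log hB, win_ps_int hh ha hb,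
    intervalIntegral.integral_of_le (Real.log_le_log hA (by linarith)),
    ← integral_Icc_eq_integral_Ioc] at this
  rw [← this]
  exact integral_congr_ae (ae_of_all _ fun v => by simp only [win_W, Function.comp]; ring)

lemma win_W_out {h κ A B v : ℝ} (hh : 0 < h) (hA : 0 < A) (ha : A ≤ κ - h) (hb : κ + h ≤ B)
    (hv : v ∉ Set.Icc (Real.log A) (Real.log B)) : win_W h κ v = 0 := by
  have hB : 0 < B := by linarith
  rw [Set.mem_Icc, not_and_or, not_le, not_le] at hv
  unfold win_W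
  rw [win_ps_zero, mul_zero]
  rcases hv with c | c
  · have := Real.exp_lt_exp.2 c
    rw [Real.exp_log hA] at this
    exact le_trans (by linarith) (le_abs_self _)
  · have := Real.exp_lt_exp.2 c
    rw [Real.exp_log hB] at this
    exact le_trans (by linarith) (neg_le_abs _)

lemma win_quad {ι : Type} (S : Finset ι) (c : ι → ℝ) {k : ι → ℝ → ℂ} {K : ι → ι → ℝ}
    (hk : ∀ m n, Integrable (fun t => k m t * conj (k n t)) ∧
      ∫ t, k m t * conj (k n t) = K m n) :
    Integrable (fun t => ‖∑ m ∈ S, c m * k m t‖ ^ 2) ∧ ∫ t, ‖∑ m ∈ S, c m * k m t‖ ^ 2 =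
      ∑ m ∈ S, ∑ n ∈ S, c m * c n * K m n := by
  have e : ∀ t, ‖∑ m ∈ S, c m * k m t‖ ^ 2 =
      Complex.reCLM (∑ m ∈ S, ∑ n ∈ S, ((c m * c n : ℝ) : ℂ) * (k m t * conj (k n t))) := fun t => by
    rw [← Complex.normSq_eq_norm_sq, ← Complex.ofReal_re (Complex.normSq _), ← Complex.mul_conj,
      map_sum, sum_mul_sum]
    exact congrArg Complex.re (sum_congr rfl fun _ _ => sum_congr rfl fun _ _ => by
      rw [map_mul, Complex.conj_ofReal]; push_cast; ring)
  have i1 : ∀ m, Integrable fun t => ∑ n ∈ S, ((c m * c n : ℝ) : ℂ) * (k m t * conj (k n t)) :=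
    fun m => integrable_finsetSum _ fun n _ => (hk m n).1.const_mul _
  have i2 := integrable_finsetSum S fun m _ => i1 m
  simp only [e]
  refine ⟨Complex.reCLM.integrable_comp i2, ?_⟩
  rw [Complex.reCLM.integral_comp_comm i2, integral_finsetSum _ fun m _ => i1 m, map_sum]
  refine sum_congr rfl fun m _ => ?_
  rw [integral_finsetSum _ fun n _ => (hk m n).1.const_mul _, map_sum]
  refine sum_congr rfl fun n _ => ?_
  rw [integral_const_mul, (hk m n).2, Complex.reCLM_apply, ← Complex.ofReal_mul, Complex.ofReal_re]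

/-- Plancherel for Gaussian windows -/
lemma win_planch {ι : Type} (S : Finset ι) (c x : ι → ℝ) {T : ℝ} (hT : 0 < T) :
    Integrable (fun v => (∑ i ∈ S, c i * win_G T (v - x i)) ^ 2) ∧
    Integrable (fun t : ℝ => ‖∑ i ∈ S, (c i : ℂ) * Complex.exp (Complex.I * t * x i)‖ ^ 2 *
      Real.exp (-(t ^ 2 / T ^ 2))) ∧
    2 * Real.pi * ∫ v, (∑ i ∈ S, c i * win_G T (v - x i)) ^ 2 =
      ∫ t : ℝ, ‖∑ i ∈ S, (c i : ℂ) * Complex.exp (Complex.I * t * x i)‖ ^ 2 *
        Real.exp (-(t ^ 2 / T ^ 2)) := by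
  have p := Real.pi_pos
  obtain ⟨i1, e1⟩ := win_quad S c (k := fun m t => Complex.exp (Complex.I * t * x m) *
      Real.exp (-(t ^ 2 / T ^ 2) / 2))
    (K := fun m n => √Real.pi * T * Real.exp (-(T ^ 2 * (x m - x n) ^ 2 / 4)))
    fun m n => by
      have g := gauss (b := 1 / T ^ 2) (by positivity) (Complex.I * (x m - x n : ℝ)) 0
      have e : ∀ t : ℝ, Complex.exp (Complex.I * t * x m) * Real.exp (-(t ^ 2 / T ^ 2) / 2) *
          conj (Complex.exp (Complex.I * t * x n) * Real.exp (-(t ^ 2 / T ^ 2) / 2)) =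
          Complex.exp (-(1 / T ^ 2 : ℝ) * t ^ 2 + Complex.I * (x m - x n : ℝ) * t + 0) := fun t => by
        rw [map_mul, Complex.conj_ofReal, ← Complex.exp_conj, map_mul, map_mul, Complex.conj_ofReal,
          Complex.conj_ofReal, Complex.conj_I, Complex.ofReal_exp, ← Complex.exp_add,
          ← Complex.exp_add, ← Complex.exp_add]
        push_cast; ring_nf
      simp only [e]
      refine ⟨g.1, g.2.trans ?_⟩
      rw [div_div_eq_mul_div, div_one, Real.sqrt_mul Real.pi_pos.le, Real.sqrt_sq hT.le,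
        Complex.ofReal_mul _ (Real.exp _), Complex.ofReal_exp]
      congr 2
      have : (T : ℂ) ≠ 0 := by exact_mod_cast hT.ne'
      push_cast
      rw [mul_pow, Complex.I_sq]
      field_simp; ring
  have e : ∀ t : ℝ, ‖∑ m ∈ S, c m * (Complex.exp (Complex.I * t * x m) *
      Real.exp (-(t ^ 2 / T ^ 2) / 2))‖ ^ 2 =
      ‖∑ i ∈ S, (c i : ℂ) * Complex.exp (Complex.I * t * x i)‖ ^ 2 * Real.exp (-(t ^ 2 / T ^ 2)) :=
    fun t => by
      simp only [← mul_assoc, ← sum_mul]
      rw [norm_mul, mul_pow, Complex.norm_real, Real.norm_eq_abs, sq_abs, ← Real.exp_nat_mul]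
      congr 2
      push_cast; ring
  simp only [e] at i1 e1
  obtain ⟨i2, e2⟩ := win_quad S c (k := fun m u => win_G T (u - x m))
    (K := fun m n => √Real.pi * T * Real.exp (-(T ^ 2 * (x m - x n) ^ 2 / 4)) / (2 * Real.pi))
    fun m n => by
      obtain ⟨a, b⟩ := rgauss (b := T ^ 2) (by positivity) ((x m + x n) / 2)
      have e : ∀ u : ℝ, (win_G T (u - x m) : ℂ) * conj (win_G T (u - x n) : ℂ) =
          (Real.exp (-T ^ 2 * (u - (x m + x n) / 2) ^ 2) *
            (Real.exp (-(T ^ 2 * (x m - x n) ^ 2 / 4)) / (Real.pi / (T ^ 2 / 2))) : ℝ) := fun u => by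
        rw [Complex.conj_ofReal, ← Complex.ofReal_mul, win_G, win_G, div_mul_div_comm,
          Real.mul_self_sqrt (by positivity), ← mul_div_assoc, ← Real.exp_add, ← Real.exp_add]
        congr 3; ring
      simp only [e]
      refine ⟨(a.mul_const _).ofReal, ?_⟩
      rw [integral_complex_ofReal, integral_mul_const, b, Real.sqrt_div Real.pi_pos.le,
        Real.sqrt_sq hT.le]
      congr 1
      field_simp
  have e' : ∀ u : ℝ, ‖∑ m ∈ S, (c m : ℂ) * (win_G T (u - x m) : ℂ)‖ ^ 2 =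
      (∑ i ∈ S, c i * win_G T (u - x i)) ^ 2 := fun u => by
    simp only [← Complex.ofReal_mul, ← Complex.ofReal_sum]
    rw [Complex.norm_real, Real.norm_eq_abs, sq_abs]
  simp only [e'] at i2 e2
  refine ⟨i2, i1, ?_⟩
  rw [e1, e2]
  simp only [mul_sum]
  exact sum_congr rfl fun _ _ => sum_congr rfl fun _ _ => by field_simp

/-- `L²` norm of the difference with a translate -/
lemma win_shift {ι : Type} (S : Finset ι) (c x : ι → ℝ) {T T1 η R J u : ℝ} (hT : 0 < T)
    (hT1 : 0 ≤ T1) (hc : ∀ i ∈ S, 0 ≤ c i) (hR : ∑ i ∈ S, c i ≤ R) (hu : 0 ≤ u) (hη : u ≤ η)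
    (hJ : ∫ t in {t : ℝ | T1 ≤ |t|}, ‖∑ i ∈ S, (c i : ℂ) * Complex.exp (Complex.I * t * x i)‖ ^ 2 *
      Real.exp (-(t ^ 2 / T ^ 2)) ≤ J) :
    Integrable (fun v => (∑ i ∈ S, c i * win_G T (v - x i) -
      ∑ i ∈ S, c i * win_G T (v + u - x i)) ^ 2) ∧
    ∫ v, (∑ i ∈ S, c i * win_G T (v - x i) - ∑ i ∈ S, c i * win_G T (v + u - x i)) ^ 2 ≤
      R ^ 2 * T1 ^ 3 * η ^ 2 + J := by
  obtain ⟨-, i0, -⟩ := win_planch S c x hT
  obtain ⟨i1, i2, e⟩ := win_planch (S ×ˢ (univ : Finset Bool))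
    (fun i => if i.2 then c i.1 else -c i.1) (fun i => if i.2 then x i.1 else x i.1 - u) hT
  have e1 : ∀ v, ∑ i ∈ S ×ˢ (univ : Finset Bool), (if i.2 then c i.1 else -c i.1) *
      win_G T (v - if i.2 then x i.1 else x i.1 - u) =
      ∑ i ∈ S, c i * win_G T (v - x i) - ∑ i ∈ S, c i * win_G T (v + u - x i) := fun v => by
    rw [sum_product, ← sum_sub_distrib]
    refine sum_congr rfl fun i _ => ?_
    rw [Fintype.sum_bool]
    simp only [if_true, Bool.false_eq_true, if_false]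
    rw [show v - (x i - u) = v + u - x i by ring]; ring
  set F : ℝ → ℂ := fun t => ∑ i ∈ S, (c i : ℂ) * Complex.exp (Complex.I * t * x i) with hF
  have e2 : ∀ t : ℝ, ∑ i ∈ S ×ˢ (univ : Finset Bool), ((if i.2 then c i.1 else -c i.1 : ℝ) : ℂ) *
      Complex.exp (Complex.I * t * (if i.2 then x i.1 else x i.1 - u : ℝ)) =
      F t * (1 - Complex.exp (Complex.I * (-(t * u) : ℝ))) := fun t => by
    rw [sum_product, hF, sum_mul]
    refine sum_congr rfl fun i _ => ?_
    rw [Fintype.sum_bool]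
    simp only [if_true, Bool.false_eq_true, if_false]
    rw [mul_sub, mul_one, mul_assoc (c i : ℂ), ← Complex.exp_add]
    push_cast
    rw [show Complex.I * t * (x i - u) = Complex.I * t * x i + Complex.I * -(t * u) by ring]; ring
  simp only [e1, e2] at i1 i2 e
  refine ⟨i1, ?_⟩
  have R0 : 0 ≤ R := (sum_nonneg hc).trans hR
  have F1 : ∀ t, ‖F t‖ ≤ R := fun t => (norm_sum_le_of_le _ fun i hi => by
    rw [norm_mul, mul_assoc, ← Complex.ofReal_mul, Complex.norm_exp_I_mul_ofReal, mul_one,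
      Complex.norm_real, Real.norm_of_nonneg (hc i hi)]).trans hR
  have ms : MeasurableSet {t : ℝ | T1 ≤ |t|} := measurableSet_le (by fun_prop) (by fun_prop)
  have J0 : 0 ≤ J := (setIntegral_nonneg ms fun t _ => by positivity).trans hJ
  have b1 : ∫ t in {t : ℝ | T1 ≤ |t|}, ‖F t * (1 - Complex.exp (Complex.I * (-(t * u) : ℝ)))‖ ^ 2 *
      Real.exp (-(t ^ 2 / T ^ 2)) ≤ 4 * J := by
    refine le_trans (setIntegral_mono_on i2.integrableOn (i0.const_mul 4).integrableOn ms
      fun t _ => ?_) ?_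
    · have : ‖1 - Complex.exp (Complex.I * (-(t * u) : ℝ))‖ ≤ 2 := (norm_sub_le _ _).trans (by
        rw [Complex.norm_exp_I_mul_ofReal, norm_one]; norm_num)
      rw [norm_mul, mul_pow, ← mul_assoc]
      refine mul_le_mul_of_nonneg_right ?_ (Real.exp_pos _).le
      have := pow_le_pow_left₀ (norm_nonneg _) this 2
      nlinarith [sq_nonneg ‖F t‖]
    · rw [integral_const_mul]; linarith
  have ec : {t : ℝ | T1 ≤ |t|}ᶜ = Set.Ioo (-T1) T1 := by
    ext t; simp only [Set.mem_compl_iff, Set.mem_ofPred_eq, not_le, Set.mem_Ioo, abs_lt]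
  have b2 : ∫ t in {t : ℝ | T1 ≤ |t|}ᶜ, ‖F t * (1 - Complex.exp (Complex.I * (-(t * u) : ℝ)))‖ ^ 2 *
      Real.exp (-(t ^ 2 / T ^ 2)) ≤ 2 * (R ^ 2 * T1 ^ 3 * η ^ 2) := by
    rw [ec]
    refine le_trans (setIntegral_mono_on (g := fun _ => (R * (T1 * η)) ^ 2) i2.integrableOn
      (integrableOn_const (by simp)) measurableSet_Ioo fun t ht => ?_) (le_of_eq ?_)
    · have a1 : ‖1 - Complex.exp (Complex.I * (-(t * u) : ℝ))‖ ≤ T1 * η := by
        rw [norm_sub_rev]
        refine (Real.norm_exp_I_mul_ofReal_sub_one_le).trans ?_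
        rw [norm_neg, Real.norm_eq_abs, abs_mul, abs_of_nonneg hu]
        exact mul_le_mul (abs_lt.2 ht).le hη hu hT1
      refine (mul_le_of_le_one_right (by positivity) (Real.exp_le_one_iff.2 (by
        rw [neg_nonpos]; positivity))).trans (pow_le_pow_left₀ (norm_nonneg _) ?_ 2)
      rw [norm_mul]
      exact mul_le_mul (F1 t) a1 (norm_nonneg _) R0
    · rw [setIntegral_const, Real.volume_real_Ioo_of_le (by linarith), smul_eq_mul]; ring
  rw [← integral_add_compl ms i2] at e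
  have n : 0 ≤ ∫ v, (∑ i ∈ S, c i * win_G T (v - x i) - ∑ i ∈ S, c i * win_G T (v + u - x i)) ^ 2 :=
    integral_nonneg fun v => sq_nonneg _
  have n2 : 0 ≤ R ^ 2 * T1 ^ 3 * η ^ 2 := by positivity
  nlinarith [Real.pi_gt_three]

lemma win_l1 {D : ℝ → ℝ} (hD : Continuous D) (i : Integrable fun v => D v ^ 2) {l a b : ℝ}
    (hl : 0 < l) (h2 : ∫ v, D v ^ 2 ≤ l ^ 2) (hab : a ≤ b) (hb : b - a ≤ 2) :
    ∫ v in Set.Icc a b, |D v| ≤ 2 * l := by
  have i1 : IntegrableOn (fun _ : ℝ => l / 2) (Set.Icc a b) := continuous_const.integrableOn_Icc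
  have i2 : IntegrableOn (fun v => 1 / (2 * l) * D v ^ 2) (Set.Icc a b) :=
    (i.const_mul _).integrableOn
  refine (setIntegral_mono_on (g := fun v => l / 2 + 1 / (2 * l) * D v ^ 2)
    hD.abs.integrableOn_Icc (i1.add i2) measurableSet_Icc fun v _ => ?_).trans ?_
  · rw [← sub_le_iff_le_add', one_div_mul_eq_div, le_div_iff₀ (by positivity), ← sq_abs (D v)]
    nlinarith [sq_nonneg (|D v| - l)]
  · rw [integral_add i1 i2, integral_const_mul, setIntegral_const, Real.volume_real_Icc_of_le hab,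
      smul_eq_mul]
    have := (setIntegral_le_integral (s := Set.Icc a b) i (ae_of_all _ fun v => sq_nonneg _)).trans h2
    have e : 1 / (2 * l) * l ^ 2 = l / 2 := by field_simp
    have := mul_le_mul_of_nonneg_left this (show 0 ≤ 1 / (2 * l) by positivity)
    nlinarith

lemma win_fub {Φ : ℝ → ℝ} (hΦ : Continuous Φ) {a b η B : ℝ} (hη : 0 ≤ η)
    (h : ∀ u ∈ Set.Icc 0 η, ∫ v in Set.Icc a b, |Φ v - Φ (v + u)| ≤ B) :
    IntegrableOn (fun v => ∫ u in Set.Icc 0 η, |Φ v - Φ (v + u)|) (Set.Icc a b) ∧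
    ∫ v in Set.Icc a b, ∫ u in Set.Icc 0 η, |Φ v - Φ (v + u)| ≤ η * B := by
  have i : Integrable (Function.uncurry fun v u => |Φ v - Φ (v + u)|)
      ((volume.restrict (Set.Icc a b)).prod (volume.restrict (Set.Icc 0 η))) := by
    rw [Measure.prod_restrict]
    exact ContinuousOn.integrableOn_compact (isCompact_Icc.prod isCompact_Icc)
      (Continuous.continuousOn (by unfold Function.uncurry; fun_prop))
  refine ⟨i.integral_prod_left, ?_⟩
  rw [integral_integral_swap i]
  refine (setIntegral_mono_on (g := fun _ => B) i.integral_prod_right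
    continuous_const.integrableOn_Icc measurableSet_Icc h).trans (le_of_eq ?_)
  rw [setIntegral_const, Real.volume_real_Icc_of_le hη, smul_eq_mul, sub_zero]

lemma win_avg {Φ : ℝ → ℝ} (hΦ : Continuous Φ) {η : ℝ} (hη : 0 ≤ η) (v : ℝ) :
    |η * Φ v - ∫ u in Set.Ioc v (v + η), Φ u| ≤ ∫ u in Set.Icc 0 η, |Φ v - Φ (v + u)| := by
  have e : ∫ u in Set.Ioc v (v + η), Φ u = ∫ u in Set.Icc 0 η, Φ (v + u) := by
    rw [integral_Icc_eq_integral_Ioc, ← intervalIntegral.integral_of_le hη,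
      intervalIntegral.integral_comp_add_left Φ v, add_zero,
      intervalIntegral.integral_of_le (by linarith)]
  have e2 : η * Φ v = ∫ u in Set.Icc 0 η, Φ v := by
    rw [setIntegral_const, Real.volume_real_Icc_of_le hη, smul_eq_mul, sub_zero]
  rw [e, e2, ← integral_sub continuous_const.integrableOn_Icc
    (Continuous.integrableOn_Icc (by fun_prop))]
  exact abs_integral_le_integral_abs

lemma win_exp_int {T : ℝ} (hT : 0 < T) (x δ a b : ℝ) :
    ∫ v in Set.Icc a b, Real.exp (-(T * |x - (v + δ)|)) ≤ 8 / T := by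
  have i : Integrable fun v : ℝ => (1 + (T * (v - (x - δ))) ^ 2)⁻¹ :=
    (integrable_inv_one_add_sq.comp_mul_left' hT.ne').comp_sub_right (x - δ)
  have e : ∫ v : ℝ, (1 + (T * (v - (x - δ))) ^ 2)⁻¹ = T⁻¹ * Real.pi := by
    rw [integral_sub_right_eq_self (fun v => (1 + (T * v) ^ 2)⁻¹) (x - δ),
      Measure.integral_comp_mul_left (fun v => (1 + v ^ 2)⁻¹) T, integral_univ_inv_one_add_sq,
      abs_of_pos (inv_pos.2 hT), smul_eq_mul]
  refine (setIntegral_mono_on (g := fun v => 2 * (1 + (T * (v - (x - δ))) ^ 2)⁻¹)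
    (Continuous.integrableOn_Icc (by fun_prop)) (i.const_mul 2).integrableOn measurableSet_Icc
    fun v _ => ?_).trans ((setIntegral_le_integral (i.const_mul 2)
      (ae_of_all _ fun v => by positivity)).trans ?_)
  · have s0 : 0 ≤ T * |x - (v + δ)| := by positivity
    have q := Real.quadratic_le_exp_of_nonneg s0
    have e : (T * (v - (x - δ))) ^ 2 = (T * |x - (v + δ)|) ^ 2 := by
      rw [mul_pow, mul_pow, sq_abs]; ring
    rw [e, Real.exp_neg, ← div_eq_mul_inv, inv_eq_one_div,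
      div_le_div_iff₀ (Real.exp_pos _) (by positivity)]
    linarith
  · rw [integral_const_mul, e, div_eq_mul_inv]
    nlinarith [Real.pi_le_four, inv_pos.2 hT]

/-- the long average -/
lemma win_long {ι : Type} (s : Finset ι) (w : ι → ℝ) (m : ι → ℕ) {X η ε μ v : ℝ}
    (hw : ∀ i ∈ s, 0 ≤ w i) (hm : ∀ i ∈ s, 0 < m i) (hX : 0 < X)
    (hη : 0 < η) (hη1 : η ≤ 1) (hμ : 0 ≤ μ)
    (hL : ∀ y1 y2 : ℝ, X / 2 ≤ y1 → y1 ≤ y2 → y2 ≤ 7 * X →
      |(∑ i ∈ s, if y1 < (m i : ℝ) ∧ (m i : ℝ) ≤ y2 then w i else 0) - μ * (y2 - y1)| ≤ ε * X)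
    (hv : v ∈ Set.Icc (Real.log (X / 2)) (Real.log (5 * X / 2))) :
    |(∑ i ∈ s, w i / m i * if v < Real.log (m i) ∧ Real.log (m i) ≤ v + η then 1 else 0) - η * μ| ≤
      μ * η ^ 2 + 2 * ε := by
  have v1 : X / 2 ≤ Real.exp v := by
    have := Real.exp_le_exp.2 hv.1; rwa [Real.exp_log (by positivity)] at this
  have v2 : Real.exp v ≤ 5 * X / 2 := by
    have := Real.exp_le_exp.2 hv.2; rwa [Real.exp_log (by positivity)] at this
  have e0 := Real.exp_pos v
  have e1 : 1 + η ≤ Real.exp η := by linarith [Real.add_one_le_exp η]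
  have e2 : Real.exp η ≤ 1 + η + η ^ 2 := by
    have := Real.abs_exp_sub_one_sub_id_le (x := η) (by rw [abs_of_pos hη]; exact hη1)
    linarith [(abs_le.1 this).2]
  have e3 : Real.exp η ≤ 2.72 :=
    (Real.exp_le_exp.2 hη1).trans (by linarith [Real.exp_one_lt_d9])
  have ε0 : 0 ≤ ε := by
    have := (abs_nonneg _).trans (hL X X (by linarith) le_rfl (by linarith))
    exact nonneg_of_mul_nonneg_left this hX
  have H := abs_le.1 (hL (Real.exp v) (Real.exp v * Real.exp η) v1 (by nlinarith) (by nlinarith))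
  set Z := ∑ i ∈ s, if Real.exp v < (m i : ℝ) ∧ (m i : ℝ) ≤ Real.exp v * Real.exp η then w i else 0
  set Y := ∑ i ∈ s, w i / m i * if v < Real.log (m i) ∧ Real.log (m i) ≤ v + η then 1 else 0
  have c : ∀ i ∈ s, (v < Real.log (m i) ∧ Real.log (m i) ≤ v + η) ↔
      (Real.exp v < (m i : ℝ) ∧ (m i : ℝ) ≤ Real.exp v * Real.exp η) := fun i hi => by
    have : (0 : ℝ) < m i := by exact_mod_cast hm i hi
    rw [Real.lt_log_iff_exp_lt this, Real.log_le_iff_le_exp this, Real.exp_add]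
  have a1 : Y * Real.exp v ≤ Z := by
    rw [sum_mul]
    refine sum_le_sum fun i hi => ?_
    have : (0 : ℝ) < m i := by exact_mod_cast hm i hi
    simp only [c i hi]
    split_ifs with d
    · rw [mul_one, div_mul_eq_mul_div, div_le_iff₀ this]
      exact mul_le_mul_of_nonneg_left d.1.le (hw i hi)
    · simp
  have a2 : Z ≤ Y * (Real.exp v * Real.exp η) := by
    rw [sum_mul]
    refine sum_le_sum fun i hi => ?_
    have : (0 : ℝ) < m i := by exact_mod_cast hm i hi
    simp only [c i hi]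
    split_ifs with d
    · rw [mul_one, div_mul_eq_mul_div, le_div_iff₀ this]
      exact mul_le_mul_of_nonneg_left d.2 (hw i hi)
    · simp
  have x1 : ε * X ≤ 2 * ε * Real.exp v := by nlinarith
  refine abs_le.2 ⟨?_, ?_⟩
  · have e4 : η * (1 - η) * Real.exp η ≤ Real.exp η - 1 := by
      have := Real.abs_exp_sub_one_sub_id_le (x := -η) (by rw [abs_neg, abs_of_pos hη]; exact hη1)
      have q := (abs_le.1 this).2
      have e5 : Real.exp (-η) * Real.exp η = 1 := by rw [← Real.exp_add]; simp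
      nlinarith [Real.exp_pos η]
    have p : 0 < Real.exp v * Real.exp η := by positivity
    refine le_sub_iff_add_le.2 (le_of_mul_le_mul_right (le_trans ?_ a2) p)
    have t1 := mul_le_mul_of_nonneg_left e4 (mul_nonneg hμ e0.le)
    have t2 : 2 * ε * Real.exp v ≤ 2 * ε * (Real.exp v * Real.exp η) :=
      mul_le_mul_of_nonneg_left (by nlinarith) (by positivity)
    nlinarith [H.1]
  · refine sub_le_iff_le_add.2 (le_of_mul_le_mul_right (a1.trans ?_) e0)
    have t1 := mul_le_mul_of_nonneg_left e2 (mul_nonneg hμ e0.le)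
    nlinarith [H.2]

lemma win_block {ι : Type} (s : Finset ι) (c x : ι → ℝ) {T : ℝ} (hT : 0 < T)
    (hc : ∀ i ∈ s, 0 ≤ c i) (α β : ℝ) :
    |(∫ u in Set.Ioc α β, ∑ i ∈ s, c i * win_G T (u - x i)) -
      ∑ i ∈ s, c i * if α < x i ∧ x i ≤ β then 1 else 0| ≤
      ∑ i ∈ s, c i * (6 * (Real.exp (-(T * |x i - α|)) + Real.exp (-(T * |x i - β|)))) := by
  rw [integral_finsetSum _ fun i _ => ((win_G_int hT (x i)).1.const_mul _).integrableOn,
    ← sum_sub_distrib]
  refine (abs_sum_le_sum_abs _ _).trans (sum_le_sum fun i hi => ?_)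
  rw [integral_const_mul, ← mul_sub, abs_mul, abs_of_nonneg (hc i hi), abs_sub_comm]
  refine mul_le_mul_of_nonneg_left ?_ (hc i hi)
  have := window_one hT α β (x i)
  rwa [← integral_div] at this

lemma win_mid {ι : Type} (s : Finset ι) (w : ι → ℝ) (m : ι → ℕ) {X T T1 η ε μ R J l : ℝ}
    (hw : ∀ i ∈ s, 0 ≤ w i) (hm : ∀ i ∈ s, 0 < m i) (hX : 0 < X) (hR : ∑ i ∈ s, w i / m i ≤ R)
    (hT : 0 < T) (hT1 : 0 ≤ T1) (hη : 0 < η) (hη1 : η ≤ 1) (hμ : 0 ≤ μ)
    (hL : ∀ y1 y2 : ℝ, X / 2 ≤ y1 → y1 ≤ y2 → y2 ≤ 7 * X →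
      |(∑ i ∈ s, if y1 < (m i : ℝ) ∧ (m i : ℝ) ≤ y2 then w i else 0) - μ * (y2 - y1)| ≤ ε * X)
    (hJ : ∫ t in {t : ℝ | T1 ≤ |t|},
      ‖∑ i ∈ s, ((w i / m i : ℝ) : ℂ) * Complex.exp (Complex.I * t * Real.log (m i))‖ ^ 2 *
        Real.exp (-(t ^ 2 / T ^ 2)) ≤ J)
    (hl : 0 < l) (hlJ : R ^ 2 * T1 ^ 3 * η ^ 2 + J ≤ l ^ 2) :
    ∫ v in Set.Icc (Real.log (X / 2)) (Real.log (5 * X / 2)),
      |∑ i ∈ s, w i / m i * win_G T (v - Real.log (m i)) - μ| ≤
      2 * l + 96 * (R / (η * T)) + 2 * (μ * η) + 4 * (ε / η) := by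
  have hc : ∀ i ∈ s, 0 ≤ w i / m i := fun i hi => div_nonneg (hw i hi) (Nat.cast_nonneg _)
  set a := Real.log (X / 2) with ha
  set b := Real.log (5 * X / 2) with hb
  have hab : a ≤ b := Real.log_le_log (by positivity) (by linarith)
  have hab2 : b - a ≤ 2 := by
    rw [ha, hb, ← Real.log_div (by positivity) (by positivity), Real.log_le_iff_le_exp (by positivity),
      show 5 * X / 2 / (X / 2) = 5 by field_simp]
    linarith [Real.quadratic_le_exp_of_nonneg (show (0 : ℝ) ≤ 2 by norm_num)]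
  have ε0 : 0 ≤ ε := by
    have := (abs_nonneg _).trans (hL X X (by linarith) le_rfl (by linarith))
    exact nonneg_of_mul_nonneg_left this hX
  set Φ : ℝ → ℝ := fun v => ∑ i ∈ s, w i / m i * win_G T (v - Real.log (m i)) with hΦ
  have cΦ : Continuous Φ := by rw [hΦ]; fun_prop
  obtain ⟨i1, b1⟩ := win_fub cΦ (a := a) (b := b) (B := 2 * l) hη.le fun u hu => by
    obtain ⟨p, q⟩ := win_shift s (fun i => w i / m i) (fun i => Real.log (m i)) hT hT1 hc hR
      hu.1 hu.2 hJ
    exact win_l1 (D := fun v => Φ v - Φ (v + u)) (by fun_prop) p hl (q.trans hlJ) hab hab2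
  set E : ℝ → ℝ := fun v => ∑ i ∈ s, w i / m i * (6 * (Real.exp (-(T * |Real.log (m i) - v|)) +
    Real.exp (-(T * |Real.log (m i) - (v + η)|)))) with hE
  have i2 : IntegrableOn E (Set.Icc a b) := Continuous.integrableOn_Icc (by rw [hE]; fun_prop)
  have b2 : ∫ v in Set.Icc a b, E v ≤ R * (96 / T) := by
    rw [hE, integral_finsetSum _ fun i _ => Continuous.integrableOn_Icc (by fun_prop)]
    refine le_trans ?_ (mul_le_mul_of_nonneg_right hR (by positivity))
    rw [sum_mul]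
    refine sum_le_sum fun i hi => ?_
    rw [integral_const_mul, integral_const_mul, integral_add
      (Continuous.integrableOn_Icc (by fun_prop)) (Continuous.integrableOn_Icc (by fun_prop))]
    refine mul_le_mul_of_nonneg_left ?_ (hc i hi)
    have p := win_exp_int hT (Real.log (m i)) 0 a b
    simp only [add_zero] at p
    have q := win_exp_int hT (Real.log (m i)) η a b
    have e : 96 / T = 6 * (8 / T + 8 / T) := by ring
    linarith
  have i3 : IntegrableOn (fun _ : ℝ => μ * η ^ 2 + 2 * ε) (Set.Icc a b) :=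
    continuous_const.integrableOn_Icc
  have key : ∫ v in Set.Icc a b, η * |Φ v - μ| ≤ ∫ v in Set.Icc a b,
      ((∫ u in Set.Icc 0 η, |Φ v - Φ (v + u)|) + E v + (μ * η ^ 2 + 2 * ε)) := by
    refine setIntegral_mono_on (Continuous.integrableOn_Icc (by fun_prop)) ((i1.add i2).add i3)
      measurableSet_Icc fun v hv => ?_
    have p1 := win_avg cΦ hη.le v
    have p2 := win_block s (fun i => w i / m i) (fun i => Real.log (m i)) hT hc v (v + η)
    have p3 := win_long s w m hw hm hX hη hη1 hμ hL hv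
    rw [← abs_of_pos hη, ← abs_mul, abs_of_pos hη, mul_sub]
    exact ((abs_sub_le _ _ _).trans (add_le_add ((abs_sub_le _ _ _).trans (add_le_add p1 p2)) p3))
  have i4 : IntegrableOn (fun v => (∫ u in Set.Icc 0 η, |Φ v - Φ (v + u)|) + E v) (Set.Icc a b) :=
    i1.add i2
  rw [integral_add i4 i3, integral_add i1 i2, integral_const_mul, setIntegral_const,
    Real.volume_real_Icc_of_le hab, smul_eq_mul] at key
  refine le_of_mul_le_mul_left (key.trans ?_) hη
  have p := mul_le_mul_of_nonneg_right hab2 (show 0 ≤ μ * η ^ 2 + 2 * ε by positivity)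
  have e : η * (2 * l + 96 * (R / (η * T)) + 2 * (μ * η) + 4 * (ε / η)) =
      η * (2 * l) + R * (96 / T) + 2 * (μ * η ^ 2 + 2 * ε) := by field_simp; ring
  linarith

theorem win {ι : Type} (s : Finset ι) (w : ι → ℝ) (m : ι → ℕ) (K : Finset ℤ)
    {X h s0 T T1 η ε μ R Λ J l : ℝ}
    (hw : ∀ i ∈ s, 0 ≤ w i) (hm : ∀ i ∈ s, 0 < m i) (hΛ : ∀ i ∈ s, (m i : ℝ) ≤ Λ * X)
    (hΛ1 : 1 ≤ Λ) (hR : ∑ i ∈ s, w i / m i ≤ R)
    (hh : 1 ≤ h) (hhX : 4 * h ≤ X) (hs : 4 * |s0| ≤ X)
    (hK : ∀ k ∈ K, X ≤ (k : ℝ) ∧ (k : ℝ) ≤ 2 * X)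
    (hT : 1 ≤ T) (hT1 : 0 ≤ T1) (hη : 0 < η) (hη1 : η ≤ 1) (hμ : 0 ≤ μ)
    (hL : ∀ y1 y2 : ℝ, X / 2 ≤ y1 → y1 ≤ y2 → y2 ≤ 7 * X →
      |(∑ i ∈ s, if y1 < (m i : ℝ) ∧ (m i : ℝ) ≤ y2 then w i else 0) - μ * (y2 - y1)| ≤ ε * X)
    (hJ : ∫ t in {t : ℝ | T1 ≤ |t|},
      ‖∑ i ∈ s, ((w i / m i : ℝ) : ℂ) * Complex.exp (Complex.I * t * Real.log (m i))‖ ^ 2 *
        Real.exp (-(t ^ 2 / T ^ 2)) ≤ J)
    (hl : 0 < l) (hlJ : R ^ 2 * T1 ^ 3 * η ^ 2 + J ≤ l ^ 2) :
    ∑ k ∈ K, |∑ i ∈ s, w i * (max (h - |(k : ℝ) - s0 - m i|) 0 / h ^ 2) - μ| ≤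
      1000 * X * (R * Λ ^ 2 * X / (h * T) + R / (η * T) + μ * η + ε / η + l) := by
  have h0 : 0 < h := by linarith
  have hX : 0 < X := by linarith
  have T0 : 0 < T := by linarith
  have hc : ∀ i ∈ s, 0 ≤ w i / m i := fun i hi => div_nonneg (hw i hi) (Nat.cast_nonneg _)
  have R0 : 0 ≤ R := (sum_nonneg hc).trans hR
  have ε0 : 0 ≤ ε := by
    have := (abs_nonneg _).trans (hL X X (by linarith) le_rfl (by linarith))
    exact nonneg_of_mul_nonneg_left this hX
  have hm' : ∀ i ∈ s, (0 : ℝ) < m i := fun i hi => by exact_mod_cast hm i hi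
  have mid := win_mid s w m hw hm hX hR T0 hT1 hη hη1 hμ hL hJ hl hlJ
  set I := Set.Icc (Real.log (X / 2)) (Real.log (5 * X / 2)) with hI
  set Φ : ℝ → ℝ := fun v => ∑ i ∈ s, w i / m i * win_G T (v - Real.log (m i)) with hΦ
  have cΦ : Continuous Φ := by rw [hΦ]; fun_prop
  have k1 : ∀ k ∈ K, X / 2 ≤ (k : ℝ) - s0 - h := fun k hk => by
    linarith [(hK k hk).1, le_abs_self s0]
  have k2 : ∀ k ∈ K, (k : ℝ) - s0 + h ≤ 5 * X / 2 := fun k hk => by
    linarith [(hK k hk).2, neg_le_abs s0]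
  have one : ∀ k ∈ K, |∑ i ∈ s, w i * (max (h - |(k : ℝ) - s0 - m i|) 0 / h ^ 2) - μ| ≤
      ∑ i ∈ s, w i / m i * |m i * win_ps h (k - s0 - m i) -
        ∫ v, win_W h (k - s0) v * win_G T (v - Real.log (m i))| +
      ∫ v in I, win_W h (k - s0) v * |Φ v - μ| := fun k hk => by
    have e1 : ∑ i ∈ s, w i / m i * ∫ v, win_W h (k - s0) v * win_G T (v - Real.log (m i)) =
        ∫ v in I, win_W h (k - s0) v * Φ v := by
      rw [setIntegral_eq_integral_of_forall_compl_eq_zero fun v hv => by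
        rw [win_W_out h0 (by positivity) (k1 k hk) (k2 k hk) hv, zero_mul]]
      simp only [hΦ, mul_sum, mul_left_comm (win_W h _ _)]
      rw [integral_finsetSum _ fun i hi =>
        ((win_step1 K s0 hh (hm' i hi) hT).1 k hk).const_mul _]
      simp only [integral_const_mul]
    have e2 : (∫ v in I, win_W h (k - s0) v * Φ v) - μ =
        ∫ v in I, win_W h (k - s0) v * (Φ v - μ) := by
      simp only [mul_sub]
      rw [integral_sub (Continuous.integrableOn_Icc (by fun_prop))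
        (Continuous.integrableOn_Icc (by fun_prop)), integral_mul_const, hI,
        win_W_int h0 (by positivity) (k1 k hk) (k2 k hk), one_mul]
    refine (abs_sub_le _ (∫ v in I, win_W h (k - s0) v * Φ v) _).trans (add_le_add ?_ ?_)
    · rw [← e1, ← sum_sub_distrib]
      refine (abs_sum_le_sum_abs _ _).trans (sum_le_sum fun i hi => le_of_eq ?_)
      rw [← abs_of_nonneg (hc i hi), ← abs_mul, abs_of_nonneg (hc i hi), mul_sub, ← mul_assoc,
        div_mul_cancel₀ _ (hm' i hi).ne', win_ps]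
    · rw [e2]
      refine abs_integral_le_integral_abs.trans (le_of_eq ?_)
      simp only [abs_mul, abs_of_nonneg (win_W_nonneg _ _ _)]
  refine (sum_le_sum one).trans ?_
  rw [sum_add_distrib, sum_comm, ← integral_finsetSum _ fun k _ =>
    Continuous.integrableOn_Icc (by fun_prop)]
  have b1 : ∑ i ∈ s, ∑ k ∈ K, w i / m i * |m i * win_ps h (k - s0 - m i) -
      ∫ v, win_W h (k - s0) v * win_G T (v - Real.log (m i))| ≤
      R * (990 * (Λ * X) ^ 2 / (h * T)) := by
    refine le_trans ?_ (mul_le_mul_of_nonneg_right hR (by positivity))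
    rw [sum_mul]
    refine sum_le_sum fun i hi => ?_
    rw [← mul_sum]
    refine mul_le_mul_of_nonneg_left ((win_step1 K s0 hh (hm' i hi) hT).2.trans ?_) (hc i hi)
    have p1 := hΛ i hi
    have p2 := hm' i hi
    have p3 : h ≤ Λ * X := by nlinarith
    have p4 : 3 + 6 * (m i : ℝ) / h ≤ 9 * (Λ * X) / h := by
      rw [le_div_iff₀ h0, add_mul, div_mul_cancel₀ _ h0.ne']; linarith
    calc _ ≤ Λ * X * (9 * (Λ * X) / h) * (110 / T) := by gcongr
      _ = _ := by field_simp; norm_num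
  have b2 : ∫ v in I, ∑ k ∈ K, win_W h (k - s0) v * |Φ v - μ| ≤
      ∫ v in I, 8 * X * |Φ v - μ| := by
    refine setIntegral_mono_on (Continuous.integrableOn_Icc (by fun_prop))
      (Continuous.integrableOn_Icc (by fun_prop)) measurableSet_Icc fun v hv => ?_
    rw [← sum_mul]
    refine mul_le_mul_of_nonneg_right ?_ (abs_nonneg _)
    have v2 : Real.exp v ≤ 5 * X / 2 := by
      have := Real.exp_le_exp.2 hv.2; rwa [Real.exp_log (by positivity)] at this
    simp only [win_W, sub_sub, ← mul_sum]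
    have := mul_le_mul_of_nonneg_left (win_sum_ps K (s0 + Real.exp v) hh) (Real.exp_pos v).le
    linarith
  rw [integral_const_mul] at b2
  have b3 := mul_le_mul_of_nonneg_left mid (show 0 ≤ 8 * X by positivity)
  have e : R * (990 * (Λ * X) ^ 2 / (h * T)) = 990 * X * (R * Λ ^ 2 * X / (h * T)) := by ring
  have n1 : 0 ≤ X * (R * Λ ^ 2 * X / (h * T)) := by positivity
  have n2 : 0 ≤ X * (R / (η * T)) := by positivity
  have n3 : 0 ≤ X * (μ * η) := by positivity
  have n4 : 0 ≤ X * (ε / η) := by positivity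
  have n5 : 0 ≤ X * l := by positivity
  nlinarith

end Pool.Agent.H84D
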