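import Pool.Agent.H84D.MriD
import Pool.Agent.H84D.Par
import Pool.Agent.H84D.Win

set_option autoImplicit false

/-! The statement `MR` from the rows WIN, LONG and MRI. -/

namespace Pool.Agent.H84D

open Finset Filter MeasureTheory

/-- the long average with a sharp cut-off -/
def LONG_s : Prop := ∀ c B a₀ A : ℕ, 1 ≤ c → ∀ᶠ X : ℕ in atTop, ∀ D : Fm, Fam c B a₀ X D →
  ∀ z ∈ D.F, ∀ d c₁ c₂ c₃ : ℕ, 0 < d → d ≤ QB B X → c₁.Coprime d → c₂.Coprime d → c₃.Coprime d →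
    ∀ I ⊆ D.QQ, ∀ y₁ y₂ : ℝ, (X : ℝ) / 2 ≤ y₁ → y₁ ≤ y₂ → y₂ ≤ 7 * X →
      |1 / (#D.QQ : ℝ) * ∑ q ∈ I, ∑ p₁ ∈ PC (P1 X) (2 * P1 X) d c₁,
        ∑ p₂ ∈ PC (P2 X) (2 * P2 X) d c₂, ∑ p₃ ∈ PC (N3 X D) (N4 c X D) d c₃,
          (if y₁ < (((q + 4) * z.1 * (p₁ + 2) * (p₂ + 2) * (p₃ + 2) : ℕ) : ℝ) ∧
              (((q + 4) * z.1 * (p₁ + 2) * (p₂ + 2) * (p₃ + 2) : ℕ) : ℝ) ≤ y₂ then
            Real.log p₁ / P1 X * (Real.log p₂ / P2 X) *
              (((q + 4) * z.1 * (p₁ + 2) * (p₂ + 2) : ℕ) * Real.log p₃) else 0) -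
        #I / #D.QQ / (d.totient : ℝ) ^ 3 * (y₂ - y₁)| ≤ #I / #D.QQ / LL X ^ A * X

theorem mr_LL : Tendsto LL atTop atTop :=
  Real.tendsto_log_atTop.comp tendsto_natCast_atTop_atTop

theorem mr_EE {θ : ℝ} (h : 0 < θ) : Tendsto (fun X => EE X θ) atTop atTop :=
  Real.tendsto_exp_atTop.comp ((tendsto_rpow_atTop h).comp mr_LL)

theorem mr_nit_mul (t : ℝ) {m n : ℕ} (hm : 0 < m) (hn : 0 < n) :
    nit t (m * n) = nit t m * nit t n := by
  unfold nit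
  rw [← Complex.exp_add, Nat.cast_mul,
    Real.log_mul (Nat.cast_pos.2 hm).ne' (Nat.cast_pos.2 hn).ne']
  congr 1; push_cast; ring

theorem mr_nit_norm (t : ℝ) (n : ℕ) : ‖nit t n‖ = 1 := by
  unfold nit
  rw [show Complex.I * t * Real.log n = ((t * Real.log n : ℝ) : ℂ) * Complex.I by push_cast; ring]
  exact Complex.norm_exp_ofReal_mul_I _

/-- sizes of the parameters -/
theorem mr_par (c B a₀ K : ℕ) : ∀ᶠ X : ℕ in atTop, ∀ D : Fm, Fam c B a₀ X D →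
    1 ≤ P1 X ∧ 1 ≤ P2 X ∧ 1 ≤ N3 X D ∧ X ≤ N3 X D ^ 2 ∧ N4 c X D ≤ X ∧
    LL X ^ K ≤ hW B X ∧ (Y1 X : ℝ) * D.Y2 * LL X ^ K ≤ X ∧
    (X : ℝ) * LL X ^ K ≤ hW B X * (P1 X * P2 X * N3 X D * EE X (13 / 100)) := by
  have e1 := par_nat (par_rpow (a := 3 / 20) (b := 1) 10 (by norm_num))
  have e2 := par_nat (par_rpow (a := 1 / 8) (b := 1) 10 (by norm_num))
  have e3 := par_nat (par_const_log 100)
  have e4 := par_nat (par_rpow_exp (b := 3 / 20) (c' := 1) 4 (B + K) (by norm_num) one_pos)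
  have e5 := par_nat (par_exp_exp (a := 1 / 8) (b := 13 / 100) (c' := 1) 80 (B + K) 1 (by norm_num)
    (by norm_num) one_pos)
  have e6 := par_nat (par_rpow_exp (b := 1) (c' := 1 / 5) 1600 K one_pos (by norm_num))
  have e7 := (mr_EE (θ := 3 / 20) (by norm_num)).eventually_ge_atTop (1000 * c + 1)
  filter_upwards [e1, e2, e3, e4, e5, e6, e7, mr_LL.eventually_ge_atTop 1, eventually_gt_atTop 0]
    with X h1 h2 h3 h4 h5 h6 h7 hL hX0 D hD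
  change 10 * LL X ^ (3 / 20 : ℝ) ≤ LL X ^ (1 : ℝ) at h1
  change 10 * LL X ^ (1 / 8 : ℝ) ≤ LL X ^ (1 : ℝ) at h2
  change 100 ≤ Real.log (LL X) at h3
  change 4 * LL X ^ ((B : ℝ) + K) ≤ Real.exp (1 * LL X ^ (3 / 20 : ℝ)) at h4
  change 80 * LL X ^ ((B : ℝ) + K) * Real.exp (1 * LL X ^ (1 / 8 : ℝ)) ≤
    Real.exp (1 * LL X ^ (13 / 100 : ℝ)) at h5
  change 1600 * LL X ^ (K : ℝ) ≤ Real.exp (1 / 5 * LL X ^ (1 : ℝ)) at h6
  rw [Real.rpow_one] at h1 h2 h6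
  rw [one_mul] at h4
  rw [one_mul, one_mul] at h5
  rw [← Nat.cast_add, Real.rpow_natCast, pow_add] at h4 h5
  rw [Real.rpow_natCast] at h6
  have hL0 : 0 < LL X := by linarith
  have hX : (X : ℝ) = Real.exp (LL X) := (Real.exp_log (Nat.cast_pos.2 hX0)).symm
  have hka : 10 ≤ ka X := by unfold ka; linarith
  have hLK : 1 ≤ LL X ^ K := one_le_pow₀ hL
  have hLB : 1 ≤ LL X ^ B := one_le_pow₀ hL
  have p1 : 1 ≤ P1 X := Nat.le_floor (by
    rw [Nat.cast_one]; exact Real.one_le_exp (by positivity))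
  have p2 : 1 ≤ P2 X := Nat.le_floor (by
    rw [Nat.cast_one]; exact Real.one_le_exp (by positivity))
  have y1 : 1000 * c + 1 ≤ Y1 X := Nat.le_floor (by push_cast; exact h7)
  have u1 : (P1 X : ℝ) ≤ Real.exp (LL X / 10) :=
    (Nat.floor_le (Real.exp_pos _).le).trans (Real.exp_le_exp.2 (by gcongr))
  have u2 : (P2 X : ℝ) ≤ Real.exp (LL X / 10) :=
    (Nat.floor_le (Real.exp_pos _).le).trans (Real.exp_le_exp.2 (by
      gcongr; nlinarith))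
  have u3 : (Y1 X : ℝ) ≤ Real.exp (LL X / 10) :=
    (Nat.floor_le (Real.exp_pos _).le).trans (Real.exp_le_exp.2 (by linarith))
  have u4 : (D.Y2 : ℝ) ≤ Real.exp (LL X / 10) :=
    hD.yle.trans (Real.exp_le_exp.2 (by linarith))
  set W : ℕ := Y1 X * D.Y2 * P1 X * P2 X with hWd
  have hW1 : Y1 X ≤ W := by
    have := hD.ypos
    calc Y1 X = Y1 X * 1 * 1 * 1 := by ring
      _ ≤ W := by rw [hWd]; gcongr; omega
  have hW0 : 0 < W := by omega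
  have hWu : (W : ℝ) ≤ Real.exp (2 / 5 * LL X) := by
    rw [show 2 / 5 * LL X = LL X / 10 + LL X / 10 + LL X / 10 + LL X / 10 by ring,
      Real.exp_add, Real.exp_add, Real.exp_add, hWd]
    push_cast
    gcongr
  have hsq : 1600 * LL X ^ K * (W : ℝ) ^ 2 ≤ X := by
    rw [hX, show LL X = 1 / 5 * LL X + (2 / 5 * LL X + 2 / 5 * LL X) by ring, Real.exp_add,
      Real.exp_add, ← sq, show 1 / 5 * LL X + (2 / 5 * LL X + 2 / 5 * LL X) = LL X by ring]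
    gcongr
  have hWr : (1 : ℝ) ≤ W := by exact_mod_cast hW0
  have hN : N3 X D = X / (20 * W) := by unfold N3; rw [hWd]; congr 1; ring
  have hsq' : 1600 * W ^ 2 ≤ X := by
    have : (1600 : ℝ) * (W : ℝ) ^ 2 ≤ X := le_trans (by nlinarith [sq_nonneg (W : ℝ)]) hsq
    exact_mod_cast this
  have n1 : 1 ≤ N3 X D := by
    rw [hN, Nat.le_div_iff_mul_le (by omega)]; nlinarith
  have n2 : 20 * W * N3 X D ≤ X := by rw [hN]; exact Nat.mul_div_le _ _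
  have n3 : X ≤ 40 * W * N3 X D := by
    have : X < 20 * W * (N3 X D + 1) := by rw [hN]; exact Nat.lt_mul_div_succ _ (by omega)
    nlinarith
  have q1 : 1 ≤ QB B X := Nat.le_floor (by rw [Nat.cast_one]; exact hLB)
  have q2 : (QB B X : ℝ) ≤ LL X ^ B := Nat.floor_le (by positivity)
  have y2 : EE X (3 / 20) ≤ 2 * Y1 X := by
    have a : EE X (3 / 20) < Y1 X + 1 := Nat.lt_floor_add_one _
    have b : (1 : ℝ) ≤ Y1 X := by exact_mod_cast (by omega : 1 ≤ Y1 X)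
    linarith
  have y3 : 2 * (LL X ^ B * LL X ^ K) ≤ Y1 X := by unfold EE at y2; linarith
  have w1 : (Y1 X : ℝ) < QB B X * (hW B X + 1) := by
    have : Y1 X < QB B X * (hW B X + 1) := Nat.lt_mul_div_succ _ (by omega)
    exact_mod_cast this
  have hh0 : (0 : ℝ) ≤ hW B X := Nat.cast_nonneg _
  have w2 : 2 * LL X ^ K < hW B X + 1 := by
    have : LL X ^ B * (2 * LL X ^ K) < LL X ^ B * (hW B X + 1) := by
      calc _ ≤ (Y1 X : ℝ) := by linarith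
        _ < _ := w1
        _ ≤ _ := by gcongr
    exact lt_of_mul_lt_mul_left this (by positivity)
  have w3 : LL X ^ K ≤ hW B X := by linarith
  have w4 : (Y1 X : ℝ) ≤ LL X ^ B * (2 * hW B X) :=
    w1.le.trans (mul_le_mul q2 (by linarith) (by positivity) (by positivity))
  refine ⟨p1, p2, n1, ?_, ?_, w3, ?_, ?_⟩
  · have : X * X ≤ X * N3 X D ^ 2 := by
      calc X * X ≤ (40 * W * N3 X D) * (40 * W * N3 X D) := Nat.mul_le_mul n3 n3
        _ = 1600 * W ^ 2 * N3 X D ^ 2 := by ring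
        _ ≤ _ := by gcongr
    exact Nat.le_of_mul_le_mul_left this hX0
  · calc N4 c X D = 20 * (1000 * c) * N3 X D := by unfold N4; ring
      _ ≤ 20 * W * N3 X D := by gcongr; omega
      _ ≤ X := n2
  · have a : (Y1 X : ℝ) * D.Y2 ≤ W := by
      have : Y1 X * D.Y2 * 1 * 1 ≤ W := by rw [hWd]; gcongr
      exact_mod_cast (by simpa using this : Y1 X * D.Y2 ≤ W)
    calc _ ≤ (W : ℝ) * LL X ^ K := by gcongr
      _ ≤ 1600 * LL X ^ K * (W : ℝ) ^ 2 := by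
          rw [mul_comm (W : ℝ), mul_assoc]
          exact le_trans (mul_le_mul_of_nonneg_left (le_self_pow₀ hWr two_ne_zero) (by positivity))
            (le_mul_of_one_le_left (by positivity) (by norm_num))
      _ ≤ X := hsq
  · have a : (X : ℝ) ≤ 40 * (Y1 X * D.Y2 * P1 X * P2 X) * N3 X D := by
      have := n3; rw [hWd] at this; exact_mod_cast this
    have b : (D.Y2 : ℝ) ≤ Real.exp (LL X ^ (1 / 8 : ℝ)) := hD.yle
    calc (X : ℝ) * LL X ^ K ≤ 40 * (Y1 X * D.Y2 * P1 X * P2 X) * N3 X D * LL X ^ K := by gcongr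
      _ ≤ 40 * (LL X ^ B * (2 * hW B X) * Real.exp (LL X ^ (1 / 8 : ℝ)) * P1 X * P2 X) * N3 X D *
          LL X ^ K := by gcongr
      _ = hW B X * (P1 X * P2 X * N3 X D *
          (80 * (LL X ^ B * LL X ^ K) * Real.exp (LL X ^ (1 / 8 : ℝ)))) := by ring
      _ ≤ _ := by unfold EE; gcongr

/-- trivial bound for a prime sum -/
theorem mr_pc_le {a b d r : ℕ} {f : ℕ → ℝ} {M : ℝ} (hM : 0 ≤ M)
    (h : ∀ p, a < p → p ≤ b → f p ≤ M) : ∑ p ∈ PC a b d r, f p ≤ (b - a : ℕ) * M := by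
  have hs : PC a b d r ⊆ Ioc a b := (filter_subset _ _).trans (filter_subset _ _)
  calc ∑ p ∈ PC a b d r, f p ≤ #(PC a b d r) • M :=
        sum_le_card_nsmul _ _ _ fun p hp => h p (mem_Ioc.1 (hs hp)).1 (mem_Ioc.1 (hs hp)).2
    _ = #(PC a b d r) * M := nsmul_eq_mul _ _
    _ ≤ _ := by
        have := card_le_card hs
        rw [Nat.card_Ioc] at this
        exact mul_le_mul_of_nonneg_right (by exact_mod_cast this) hM

theorem mr_log_le {p X : ℕ} (h : p ≤ X) : Real.log p ≤ LL X := by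
  rcases p.eq_zero_or_pos with rfl | hp
  · simpa [LL] using Real.log_natCast_nonneg X
  · exact Real.log_le_log (Nat.cast_pos.2 hp) (by exact_mod_cast h)

theorem mr_short {P X d r : ℕ} (hP : 1 ≤ P) (h : 2 * P ≤ X) :
    ∑ p ∈ PC P (2 * P) d r, Real.log p / P ≤ LL X := by
  have h0 : (0 : ℝ) < P := Nat.cast_pos.2 hP
  have hL : 0 ≤ LL X := Real.log_natCast_nonneg X
  refine (mr_pc_le (M := LL X / P) (by positivity) fun p _ hp => ?_).trans_eq ?_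
  · exact div_le_div_of_nonneg_right (mr_log_le (hp.trans h)) h0.le
  · rw [show 2 * P - P = P by omega]; field_simp

theorem mr_long {N C X d r : ℕ} (hN : 1 ≤ N) (h : C * N ≤ X) :
    ∑ p ∈ PC N (C * N) d r, Real.log p / (p + 2) ≤ C * LL X := by
  have h0 : (0 : ℝ) < N := Nat.cast_pos.2 hN
  have hL : 0 ≤ LL X := Real.log_natCast_nonneg X
  refine (mr_pc_le (M := LL X / N) (by positivity) fun p h1 hp => ?_).trans ?_
  · have : (N : ℝ) < p := by exact_mod_cast h1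
    exact div_le_div₀ hL (mr_log_le (hp.trans h)) h0 (by linarith)
  · have : ((C * N - N : ℕ) : ℝ) ≤ C * N := by exact_mod_cast Nat.sub_le _ _
    calc _ ≤ (C * N : ℝ) * (LL X / N) := by gcongr
      _ = _ := by field_simp

/-- the final numerical step -/
theorem mr_num {L E μ ν X h T Λ : ℝ} {A A₁ : ℕ} (hL : 5000 ≤ L) (hE : 1000 ≤ E) (hμ : 0 ≤ μ)
    (hν : ν ≤ μ) (hX : 0 < X) (hh : 0 < h) (hΛ : Λ ^ 2 ≤ L) (hT : T = X * L ^ (A + 6) / h)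
    (hT' : L ^ (2 * A₁ + A + 5) ≤ T) (hA : A + 1 ≤ 2 * A₁) :
    1000 * X * (L ^ 4 * μ * Λ ^ 2 * X / (h * T) + L ^ 4 * μ / (1 / (L ^ A₁) ^ 2 * T) +
      ν * (1 / (L ^ A₁) ^ 2) + μ / L ^ (2 * A₁ + A + 1) / (1 / (L ^ A₁) ^ 2) +
      (μ / L ^ (A + 1) + 1 / E ^ 2)) ≤ X * (μ / L ^ A + 1 / E) := by
  have L0 : 0 < L := by linarith
  have L1 : 1 ≤ L := by linarith
  have T0 : 0 < T := lt_of_lt_of_le (by positivity) hT'
  have t1 : L ^ 4 * μ * Λ ^ 2 * X / (h * T) ≤ μ / L ^ (A + 1) := by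
    calc _ ≤ L ^ 4 * μ * L * X / (h * T) := by gcongr
      _ = _ := by rw [hT]; field_simp; ring
  have t2 : L ^ 4 * μ / (1 / (L ^ A₁) ^ 2 * T) ≤ μ / L ^ (A + 1) := by
    calc _ ≤ L ^ 4 * μ / (1 / (L ^ A₁) ^ 2 * L ^ (2 * A₁ + A + 5)) := by gcongr
      _ = _ := by field_simp; ring
  have t3 : ν * (1 / (L ^ A₁) ^ 2) ≤ μ / L ^ (A + 1) := by
    rw [← pow_mul, mul_one_div]
    exact div_le_div₀ hμ hν (by positivity) (pow_le_pow_right₀ L1 (by omega))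
  have t4 : μ / L ^ (2 * A₁ + A + 1) / (1 / (L ^ A₁) ^ 2) = μ / L ^ (A + 1) := by
    field_simp; ring
  have t5 : 5000 * (μ / L ^ (A + 1)) ≤ μ / L ^ A := by
    calc _ ≤ L * (μ / L ^ (A + 1)) := by gcongr
      _ = _ := by field_simp; ring
  have t6 : 1000 * (1 / E ^ 2) ≤ 1 / E := by
    have : 0 < E := by linarith
    calc _ ≤ E * (1 / E ^ 2) := by gcongr
      _ = _ := by field_simp
  rw [mul_comm 1000 X, mul_assoc X]
  refine mul_le_mul_of_nonneg_left ?_ hX.le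
  linarith

theorem mr_num2 {L E μ : ℝ} {A A₁ : ℕ} (hL : 2 ≤ L) (hE : 0 < E) (hμ : 0 ≤ μ)
    (hA : 2 * A + 11 ≤ A₁) :
    (L ^ 4 * μ) ^ 2 * (L ^ A₁) ^ 3 * (1 / (L ^ A₁) ^ 2) ^ 2 + (μ ^ 2 / L ^ (2 * A + 3) + 1 / E ^ 4) ≤
      (μ / L ^ (A + 1) + 1 / E ^ 2) ^ 2 := by
  have L0 : 0 < L := by linarith
  have t1 : (L ^ 4 * μ) ^ 2 * (L ^ A₁) ^ 3 * (1 / (L ^ A₁) ^ 2) ^ 2 ≤ μ ^ 2 / L ^ (2 * A + 3) := by
    calc _ = L ^ 8 * μ ^ 2 / L ^ A₁ := by field_simp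
      _ ≤ L ^ 8 * μ ^ 2 / L ^ (2 * A + 11) := by
          gcongr; linarith
      _ = _ := by field_simp; ring
  have t2 : 2 * (μ ^ 2 / L ^ (2 * A + 3)) ≤ (μ / L ^ (A + 1)) ^ 2 := by
    calc _ ≤ L * (μ ^ 2 / L ^ (2 * A + 3)) := by gcongr
      _ = _ := by field_simp; ring
  have t3 : 0 ≤ μ / L ^ (A + 1) * (1 / E ^ 2) := by positivity
  have t4 : 1 / E ^ 4 = (1 / E ^ 2) ^ 2 := by field_simp
  nlinarith

theorem mr_psi (h n : ℕ) (s k : ℤ) :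
    psi h (n + s - k) = max (h - |(k : ℝ) - s - n|) 0 / (h : ℝ) ^ 2 := by
  unfold psi
  rw [max_comm, abs_sub_comm ((k : ℝ) - s)]
  congr 4
  push_cast
  ring

theorem mr_wm (u v₁ v₂ v₃ : ℝ) (q p₁ p₂ p₃ : ℕ) {a : ℕ} (ha : 0 < a) :
    u * (v₁ * v₂ * (((q + 4) * a * (p₁ + 2) * (p₂ + 2) : ℕ) * v₃)) /
      ((q + 4) * a * (p₁ + 2) * (p₂ + 2) * (p₃ + 2) : ℕ) = u * v₁ * v₂ * (v₃ / (p₃ + 2)) := by
  have : (0 : ℝ) < a := Nat.cast_pos.2 ha
  push_cast; field_simp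

theorem mr_nit5 (t : ℝ) (q p₁ p₂ p₃ : ℕ) {a : ℕ} (ha : 0 < a) :
    nit t ((q + 4) * a * (p₁ + 2) * (p₂ + 2) * (p₃ + 2)) =
      nit t (q + 4) * nit t a * nit t (p₁ + 2) * nit t (p₂ + 2) * nit t (p₃ + 2) := by
  rw [mr_nit_mul t (by positivity) (by positivity), mr_nit_mul t (by positivity) (by positivity),
    mr_nit_mul t (by positivity) (by positivity), mr_nit_mul t (by positivity) ha]

theorem mr_pos {L E μ : ℝ} (hL : 1 ≤ L) (hE : 0 < E) (hμ : 0 ≤ μ) (j k : ℕ) :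
    0 ≤ L ^ j ∧ 0 < 1 / (L ^ j) ^ 2 ∧ 1 / (L ^ j) ^ 2 ≤ 1 ∧ 0 < μ / L ^ k + 1 / E ^ 2 := by
  have : 0 < L := by linarith
  refine ⟨by positivity, by positivity, ?_, by positivity⟩
  rw [div_le_one (by positivity)]; exact one_le_pow₀ (one_le_pow₀ hL)

theorem mr_w0 (n P P' x p₁ p₂ p₃ : ℕ) : 0 ≤ 1 / (n : ℝ) *
    (Real.log p₁ / P * (Real.log p₂ / P') * ((x : ℝ) * Real.log p₃)) := by
  have := Real.log_natCast_nonneg p₁
  have := Real.log_natCast_nonneg p₂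
  have := Real.log_natCast_nonneg p₃
  positivity

theorem mr_mass {n k a b e L : ℝ} (hn : 0 ≤ n) (hk : 0 ≤ k) (hL : 0 ≤ L) (ha : a ≤ L) (hb : b ≤ L)
    (he : e ≤ L * L) (b0 : 0 ≤ b) (e0 : 0 ≤ e) :
    1 / n * a * b * (k * e) ≤ L ^ 4 * (k / n) :=
  calc _ ≤ 1 / n * L * L * (k * (L * L)) := by gcongr
    _ = _ := by ring

theorem mr_size {q a p₁ p₂ p₃ Y Z P P' N c X : ℕ} (a1 : q + 4 ≤ Y) (a0 : a ≤ Z) (h1 : p₁ ≤ 2 * P)
    (h2 : p₂ ≤ 2 * P') (h3 : p₃ ≤ 20000 * c * N) (p1 : 1 ≤ P) (p2 : 1 ≤ P') (hc : 1 ≤ c)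
    (n1 : 1 ≤ N) (hX : 20 * Y * Z * P * P' * N ≤ X) :
    (((q + 4) * a * (p₁ + 2) * (p₂ + 2) * (p₃ + 2) : ℕ) : ℝ) ≤ 20000 * c * X := by
  have a2 : p₁ + 2 ≤ 4 * P := by omega
  have a3 : p₂ + 2 ≤ 4 * P' := by omega
  have a4 : p₃ + 2 ≤ 25000 * c * N := by
    have b2 : 1 ≤ c * N := Nat.mul_pos hc n1
    rw [mul_assoc] at h3 ⊢
    omega
  have : (q + 4) * a * (p₁ + 2) * (p₂ + 2) * (p₃ + 2) ≤ 20000 * c * X :=
    calc _ ≤ Y * Z * (4 * P) * (4 * P') * (25000 * c * N) := by gcongr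
      _ = 20000 * c * (20 * Y * Z * P * P' * N) := by ring
      _ ≤ _ := by gcongr
  exact_mod_cast this

/-- ROW MR from LONG and MRI -/
theorem mr_of (hlong : LONG_s) (hmri : MRI_s) (c B a₀ A : ℕ) (hc : 1 ≤ c) :
    ∀ᶠ X : ℕ in atTop, ∀ D : Fm, Fam c B a₀ X D → MR c B A X D := by
  obtain ⟨A₀, H⟩ := hmri (2 * A + 3) B (20000 * c) c
  set A₁ := A₀ + (2 * A + 11) with hA₁
  filter_upwards [H, hlong c B a₀ (2 * A₁ + A + 1) hc, mr_par c B a₀ (2 * A₁ + A + 7),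
    mr_LL.eventually_ge_atTop 5000, mr_LL.eventually_ge_atTop ((20000 * c : ℝ) ^ 2),
    (mr_EE (θ := 13 / 100) (by norm_num)).eventually_ge_atTop 1000, eventually_gt_atTop 0]
    with X hI hlg hpar hL hLc hE hX0 D hD z hz d c₁ c₂ c₃ hd hdQ h1 h2 h3 I hIQ s hs0 hs
  obtain ⟨p1, p2, n1, n2, n4, w1, w2, w3⟩ := hpar D hD
  clear H hpar hlong hmri
  have L1 : 1 ≤ LL X := by linarith
  have L0 : 0 < LL X := by linarith
  have X0 : (0 : ℝ) < X := Nat.cast_pos.2 hX0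
  have hz1 : 0 < z.1 := (hD.size z hz).1.trans_le (hD.size z hz).2.1
  have hz2 : z.1 ≤ D.Y2 := (hD.size z hz).2.2.1
  have hK : ∀ j ≤ 2 * A₁ + A + 7, LL X ^ j ≤ LL X ^ (2 * A₁ + A + 7) := fun j hj =>
    pow_le_pow_right₀ L1 hj
  have hLK : 5000 ≤ LL X ^ (2 * A₁ + A + 7) := by
    have := hK 1 (by omega); rw [pow_one] at this; linarith
  have h0 : (1 : ℝ) ≤ hW B X := by linarith
  have hY : (hW B X : ℝ) ≤ Y1 X := by exact_mod_cast Nat.div_le_self _ _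
  have y2 : (1 : ℝ) ≤ D.Y2 := by exact_mod_cast hD.ypos
  have hYY : (hW B X : ℝ) ≤ Y1 X * D.Y2 := hY.trans (le_mul_of_one_le_right (by positivity) y2)
  have hYX : (Y1 X : ℝ) * D.Y2 * 5000 ≤ X :=
    (mul_le_mul_of_nonneg_left hLK (by positivity)).trans w2
  have hy1 : 1 ≤ Y1 X := by exact_mod_cast h0.trans hY
  have hWX : 20 * Y1 X * D.Y2 * P1 X * P2 X * N3 X D ≤ X := Nat.mul_div_le _ _
  have hy2 := hD.ypos
  have hP1 : 2 * P1 X ≤ X := le_trans (by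
    calc 2 * P1 X = 2 * 1 * 1 * P1 X * 1 * 1 := by ring
      _ ≤ _ := by gcongr <;> omega) hWX
  have hP2 : 2 * P2 X ≤ X := le_trans (by
    calc 2 * P2 X = 2 * 1 * 1 * 1 * P2 X * 1 := by ring
      _ ≤ _ := by gcongr <;> omega) hWX
  set T : ℝ := X * LL X ^ (A + 6) / hW B X with hT
  have hT' : LL X ^ (2 * A₁ + A + 7) ≤ T := by
    rw [hT, le_div_iff₀ (by linarith)]
    calc _ ≤ LL X ^ (2 * A₁ + A + 7) * (Y1 X * D.Y2) := by gcongr
      _ ≤ X := by linarith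
      _ ≤ _ := le_mul_of_one_le_right X0.le (one_le_pow₀ L1)
  have hTX : T ≤ X / LL X := by
    rw [hT, div_le_div_iff₀ (by linarith) L0, mul_assoc, ← pow_succ]
    exact mul_le_mul_of_nonneg_left ((hK _ (by omega)).trans w1) X0.le
  have hTN : T ≤ (P1 X : ℝ) * P2 X * N3 X D * EE X (13 / 100) := by
    rw [hT, div_le_iff₀ (by linarith), mul_comm _ (hW B X : ℝ)]
    exact (mul_le_mul_of_nonneg_left (hK _ (by omega)) X0.le).trans w3
  have hJ := hI d c₁ c₂ c₃ (N3 X D) (N4 c X D) (#D.QQ) I T (LL X ^ A₁) hd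
    ((Nat.cast_le.2 hdQ).trans (Nat.floor_le (by positivity))) h3 n2 le_rfl n4
    (fun q hq => ⟨(hD.qpr q (hIQ hq)).2.2.1, hD.qom q (hIQ hq)⟩) hD.qmany (by linarith) hTX hTN
    (pow_le_pow_right₀ L1 (by omega))
  set μ : ℝ := #I / #D.QQ with hμ
  have μ0 : 0 ≤ μ := div_nonneg (Nat.cast_nonneg _) (Nat.cast_nonneg _)
  clear hI
  let S : Finset (ℕ × ℕ × ℕ × ℕ) := I ×ˢ PC (P1 X) (2 * P1 X) d c₁ ×ˢ PC (P2 X) (2 * P2 X) d c₂ ×ˢ
    PC (N3 X D) (N4 c X D) d c₃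
  let m : ℕ × ℕ × ℕ × ℕ → ℕ := fun i =>
    (i.1 + 4) * z.1 * (i.2.1 + 2) * (i.2.2.1 + 2) * (i.2.2.2 + 2)
  let w : ℕ × ℕ × ℕ × ℕ → ℝ := fun i => 1 / (#D.QQ : ℝ) *
    (Real.log i.2.1 / P1 X * (Real.log i.2.2.1 / P2 X) *
      (((i.1 + 4) * z.1 * (i.2.1 + 2) * (i.2.2.1 + 2) : ℕ) * Real.log i.2.2.2))
  have hsum : ∀ {M : Type} [AddCommMonoid M] (f : ℕ × ℕ × ℕ × ℕ → M), ∑ i ∈ S, f i =
      ∑ q ∈ I, ∑ p₁ ∈ PC (P1 X) (2 * P1 X) d c₁, ∑ p₂ ∈ PC (P2 X) (2 * P2 X) d c₂,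
        ∑ p₃ ∈ PC (N3 X D) (N4 c X D) d c₃, f (q, p₁, p₂, p₃) := fun f => by
    simp only [S, sum_product]
  have hwm : ∀ i, w i / m i = 1 / (#D.QQ : ℝ) * (Real.log i.2.1 / P1 X) *
      (Real.log i.2.2.1 / P2 X) * (Real.log i.2.2.2 / (i.2.2.2 + 2)) := fun i =>
    mr_wm _ _ _ _ _ _ _ _ hz1
  have hpc : ∀ {a b r p : ℕ}, p ∈ PC a b d r → p ≤ b := fun h =>
    (mem_Ioc.1 (mem_filter.1 (mem_filter.1 h).1).1).2
  have φ1 : (1 : ℝ) ≤ (d.totient : ℝ) ^ 3 :=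
    one_le_pow₀ (by exact_mod_cast Nat.totient_pos.2 hd)
  have c1 : (1 : ℝ) ≤ c := by exact_mod_cast hc
  have E0 : 0 < EE X (13 / 100) := Real.exp_pos _
  obtain ⟨o1, o2, o3, o4⟩ := mr_pos L1 E0 μ0 A₁ (A + 1)
  have key := win S w m (Ioc (X : ℤ) (2 * X)) (X := X) (h := hW B X) (s0 := s) (T := T)
    (T1 := LL X ^ A₁) (η := 1 / (LL X ^ A₁) ^ 2) (ε := μ / LL X ^ (2 * A₁ + A + 1))
    (μ := μ / (d.totient : ℝ) ^ 3) (R := LL X ^ 4 * μ) (Λ := 20000 * c)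
    (J := μ ^ 2 / LL X ^ (2 * A + 3) + 1 / EE X (13 / 100) ^ 4)
    (l := μ / LL X ^ (A + 1) + 1 / EE X (13 / 100) ^ 2)
    (fun i _ => mr_w0 _ _ _ _ _ _ _)
    (fun i _ => Nat.mul_pos (Nat.mul_pos (Nat.mul_pos (Nat.mul_pos (Nat.succ_pos _) hz1)
      (Nat.succ_pos _)) (Nat.succ_pos _)) (Nat.succ_pos _))
    (fun i hi => by
      simp only [S, mem_product] at hi
      exact mr_size (hD.qpr _ (hIQ hi.1)).2.2.1 hz2 (hpc hi.2.1) (hpc hi.2.2.1) (hpc hi.2.2.2)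
        p1 p2 hc n1 hWX)
    (by linarith only [c1])
    (by
      rw [hsum]
      simp only [hwm, ← mul_sum, ← sum_mul]
      have a1 := mr_short (d := d) (r := c₁) p1 hP1
      have a2 := mr_short (d := d) (r := c₂) p2 hP2
      have a3 := mr_long (d := d) (r := c₃) (C := 20000 * c) n1 n4
      have a4 : ((20000 * c : ℕ) : ℝ) ≤ LL X := by
        push_cast
        exact (le_self_pow₀ (by linarith only [c1]) two_ne_zero).trans hLc
      have b2 : 0 ≤ ∑ p ∈ PC (P2 X) (2 * P2 X) d c₂, Real.log p / P2 X :=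
        sum_nonneg fun p _ => div_nonneg (Real.log_natCast_nonneg p) (Nat.cast_nonneg _)
      have b3 : 0 ≤ ∑ p ∈ PC (N3 X D) (N4 c X D) d c₃, Real.log p / (p + 2) :=
        sum_nonneg fun p _ => div_nonneg (Real.log_natCast_nonneg p)
          (add_nonneg (Nat.cast_nonneg _) zero_le_two)
      rw [sum_const, nsmul_eq_mul]
      exact mr_mass (Nat.cast_nonneg _) (Nat.cast_nonneg _) L0.le a1 a2
        (a3.trans (mul_le_mul_of_nonneg_right a4 L0.le)) b2 b3)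
    h0 (by linarith only [hYY, hYX, h0])
    (by
      have a : (s : ℝ) ≤ 8 * Y1 X * D.Y2 := by exact_mod_cast hs
      rw [abs_of_nonneg (by exact_mod_cast hs0)]
      linarith only [a, hYX, hYY, h0])
    (fun k hk => by
      have := mem_Ioc.1 hk
      exact ⟨by exact_mod_cast this.1.le, by exact_mod_cast this.2⟩)
    (by linarith only [hT', hLK]) o1 o2 o3 (div_nonneg μ0 (zero_le_one.trans φ1))
    (fun y₁ y₂ a1 a2 a3 => by
      refine le_of_eq_of_le ?_ (hlg D hD z hz d c₁ c₂ c₃ hd hdQ h1 h2 h3 I hIQ y₁ y₂ a1 a2 a3)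
      rw [hsum]
      simp only [mul_sum, mul_ite, mul_zero, w, m, hμ])
    (by
      refine le_of_eq_of_le ?_ hJ
      refine integral_congr_ae (ae_of_all _ fun t => ?_)
      have e : ∑ i ∈ S, ((w i / m i : ℝ) : ℂ) * Complex.exp (Complex.I * t * Real.log (m i)) =
          nit t z.1 * (AA (#D.QQ) I t * DD (P1 X) d c₁ t * DD (P2 X) d c₂ t *
            D3 (N3 X D) (N4 c X D) d c₃ t) := by
        have e1 : ∀ i, ((w i / m i : ℝ) : ℂ) * Complex.exp (Complex.I * t * Real.log (m i)) =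
            nit t z.1 * (((1 / (#D.QQ : ℕ) : ℝ) : ℂ) * nit t (i.1 + 4) *
              ((((Real.log i.2.1 / P1 X : ℝ) : ℂ) * nit t (i.2.1 + 2)) *
              ((((Real.log i.2.2.1 / P2 X : ℝ) : ℂ) * nit t (i.2.2.1 + 2)) *
              (((Real.log i.2.2.2 / (i.2.2.2 + 2) : ℝ) : ℂ) * nit t (i.2.2.2 + 2))))) := fun i => by
          rw [hwm]
          change _ * nit t ((i.1 + 4) * z.1 * (i.2.1 + 2) * (i.2.2.1 + 2) * (i.2.2.2 + 2)) = _
          rw [mr_nit5 t _ _ _ _ hz1]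
          simp only [Complex.ofReal_mul]
          ring
        rw [hsum, mul_assoc (AA _ _ _ * _), mul_assoc (AA _ _ _)]
        simp only [e1]
        simp only [← mul_sum]
        simp only [← sum_mul]
        rfl
      simp only [e, norm_mul (nit t z.1), mr_nit_norm, one_mul, gwt])
    o4 (mr_num2 (by linarith only [hL]) E0 μ0 (by omega))
  refine le_trans (le_of_eq ?_) (key.trans (mr_num hL hE μ0 (div_le_self μ0 φ1) X0 (zero_lt_one.trans_le h0) hLc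
    hT ((hK _ (by omega)).trans hT') (by omega)))
  refine sum_congr rfl fun k _ => congrArg (fun x : ℝ => |x - μ / (d.totient : ℝ) ^ 3|) ?_
  rw [hsum]
  simp only [RS, mul_sum, w, m]
  refine sum_congr rfl fun q _ => sum_congr rfl fun p₁ _ => sum_congr rfl fun p₂ _ =>
    sum_congr rfl fun p₃ _ => ?_
  rw [mr_psi, mul_assoc (1 / _)]

end Pool.Agent.H84D
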