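import Pool.Agent.H84D.MriD
import Pool.Agent.H84D.Par

set_option autoImplicit false

/-! The Dirichlet polynomial integral: splitting into five ranges. -/

namespace Pool.Agent.H84D

open Finset Filter MeasureTheory

theorem mri_pt {a d₁ d₂ d₃ w A D₁ D₂ D₃ : ℝ} (h0 : 0 ≤ a) (h1 : 0 ≤ d₁) (h2 : 0 ≤ d₂)
    (h3 : 0 ≤ d₃) (hw : w ≤ 1) (ha : a ≤ A) (k1 : d₁ ≤ D₁) (k2 : d₂ ≤ D₂) (k3 : d₃ ≤ D₃) :
    (a * d₁ * d₂ * d₃) ^ 2 * w ≤ (A * D₁ * D₂ * D₃) ^ 2 := by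
  have hA := h0.trans ha
  have e1 := h1.trans k1
  have e2 := h2.trans k2
  calc (a * d₁ * d₂ * d₃) ^ 2 * w ≤ (a * d₁ * d₂ * d₃) ^ 2 * 1 := by gcongr
    _ ≤ (A * D₁ * D₂ * D₃) ^ 2 := by rw [mul_one]; gcongr

theorem mri_split {A D₁ D₂ D₃ : ℝ → ℂ} (cA : Continuous A) (c1 : Continuous D₁)
    (c2 : Continuous D₂) (c3 : Continuous D₃) {w : ℝ → ℝ} (w0 : ∀ t, 0 ≤ w t)
    (w1 : ∀ t, w t ≤ 1) (iw : Integrable w)
    {T₁ Tl Tm X V μ s₁ s₂ s₃ e₁ e₂ e₃ Mo M₁ M₃ tl : ℝ}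
    (hA : ∀ t, ‖A t‖ ≤ μ) (h1 : ∀ t, ‖D₁ t‖ ≤ s₁) (h2 : ∀ t, ‖D₂ t‖ ≤ s₂) (h3 : ∀ t, ‖D₃ t‖ ≤ s₃)
    (off : ∫ t, ‖D₁ t * D₂ t * D₃ t‖ ^ 2 * w t ≤ Mo)
    (tail : ∫ t in {t : ℝ | X ≤ |t|}, w t ≤ tl)
    (low : ∀ t, T₁ ≤ |t| → |t| ≤ Tl → ‖D₃ t‖ ≤ e₃)
    (lowm : ∫ t in Set.Icc (-Tl) Tl, ‖D₁ t‖ ^ 2 ≤ M₁)
    (mid : ∀ t, Tl ≤ |t| → |t| ≤ Tm → ‖D₂ t‖ ≤ e₂)
    (high : ∀ t, Tm ≤ |t| → |t| ≤ X → ‖D₁ t‖ ≤ e₁)
    (hm : ∫ t in {t : ℝ | |t| ≤ X ∧ V ≤ ‖A t‖}, ‖D₃ t‖ ^ 2 ≤ M₃) :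
    ∫ t in {t : ℝ | T₁ ≤ |t|}, ‖A t * D₁ t * D₂ t * D₃ t‖ ^ 2 * w t ≤
      V ^ 2 * Mo + μ ^ 2 * ((s₁ * s₂ * s₃) ^ 2 * tl + (s₂ * e₃) ^ 2 * M₁ +
        ((s₁ * e₂) ^ 2 + (e₁ * s₂) ^ 2) * M₃) := by
  set S : Set ℝ := {t | T₁ ≤ |t|} with hS
  set U : Set ℝ := {t | X ≤ |t|} with hU
  set E : Set ℝ := {t | |t| ≤ X ∧ V ≤ ‖A t‖} with hE
  have mS : MeasurableSet S := (isClosed_le continuous_const continuous_abs).measurableSet
  have mU : MeasurableSet U := (isClosed_le continuous_const continuous_abs).measurableSet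
  have mE : MeasurableSet E := ((isClosed_le continuous_abs continuous_const).inter
    (isClosed_le continuous_const cA.norm)).measurableSet
  have n1 := (norm_nonneg _).trans (h1 0)
  have n2 := (norm_nonneg _).trans (h2 0)
  have i0 : Integrable fun t => ‖D₁ t * D₂ t * D₃ t‖ ^ 2 * w t := by
    refine iw.bdd_mul (c := (s₁ * s₂ * s₃) ^ 2) (by fun_prop) (.of_forall fun t => ?_)
    rw [Real.norm_of_nonneg (by positivity), norm_mul, norm_mul]
    have := h1 t; have := h2 t; have := h3 t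
    gcongr
  have i1 : Integrable (U.indicator w) := iw.indicator mU
  have i2 : Integrable ((Set.Icc (-Tl) Tl).indicator fun t => ‖D₁ t‖ ^ 2) :=
    (integrable_indicator_iff measurableSet_Icc).2
      (Continuous.integrableOn_Icc (by fun_prop))
  have i3 : Integrable (E.indicator fun t => ‖D₃ t‖ ^ 2) :=
    (integrable_indicator_iff mE).2 ((Continuous.integrableOn_Icc (a := -X) (b := X)
      (by fun_prop)).mono_set fun t ht => abs_le.1 ht.1)
  have key : ∀ t, S.indicator (fun t => ‖A t * D₁ t * D₂ t * D₃ t‖ ^ 2 * w t) t ≤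
      V ^ 2 * (‖D₁ t * D₂ t * D₃ t‖ ^ 2 * w t) + μ ^ 2 * ((s₁ * s₂ * s₃) ^ 2 * U.indicator w t +
        (s₂ * e₃) ^ 2 * (Set.Icc (-Tl) Tl).indicator (fun t => ‖D₁ t‖ ^ 2) t +
        ((s₁ * e₂) ^ 2 + (e₁ * s₂) ^ 2) * E.indicator (fun t => ‖D₃ t‖ ^ 2) t) := fun t => by
    have hw := w0 t
    have p0 : 0 ≤ V ^ 2 * (‖D₁ t * D₂ t * D₃ t‖ ^ 2 * w t) := by positivity
    have q1 : 0 ≤ U.indicator w t := Set.indicator_nonneg (fun t _ => w0 t) t
    have q2 : 0 ≤ (Set.Icc (-Tl) Tl).indicator (fun t => ‖D₁ t‖ ^ 2) t :=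
      Set.indicator_nonneg (fun t _ => by positivity) t
    have q3 : 0 ≤ E.indicator (fun t => ‖D₃ t‖ ^ 2) t :=
      Set.indicator_nonneg (fun t _ => by positivity) t
    have p1 : 0 ≤ μ ^ 2 * ((s₁ * s₂ * s₃) ^ 2 * U.indicator w t) := by positivity
    have p2 : 0 ≤ μ ^ 2 * ((s₂ * e₃) ^ 2 *
      (Set.Icc (-Tl) Tl).indicator (fun t => ‖D₁ t‖ ^ 2) t) := by positivity
    have p3 : 0 ≤ μ ^ 2 * ((s₁ * e₂) ^ 2 * E.indicator (fun t => ‖D₃ t‖ ^ 2) t) := by positivity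
    have p4 : 0 ≤ μ ^ 2 * ((e₁ * s₂) ^ 2 * E.indicator (fun t => ‖D₃ t‖ ^ 2) t) := by positivity
    by_cases ht : t ∈ S
    swap
    · rw [Set.indicator_of_notMem ht]; linarith
    rw [Set.indicator_of_mem ht]
    have a0 := norm_nonneg (A t)
    have a1 := norm_nonneg (D₁ t)
    have a2 := norm_nonneg (D₂ t)
    have a3 := norm_nonneg (D₃ t)
    simp only [norm_mul] at p0 ⊢
    rcases le_total X |t| with hx | hx
    · rw [Set.indicator_of_mem (show t ∈ U from hx)] at p1 ⊢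
      have := mul_le_mul_of_nonneg_right
        (mri_pt a0 a1 a2 a3 le_rfl (hA t) (h1 t) (h2 t) (h3 t)) hw
      linarith
    rcases le_total ‖A t‖ V with hv | hv
    · have := mul_le_mul_of_nonneg_right (mri_pt a0 a1 a2 a3 le_rfl hv le_rfl le_rfl le_rfl) hw
      linarith
    rcases le_total |t| Tl with hl | hl
    · rw [Set.indicator_of_mem (show t ∈ Set.Icc (-Tl) Tl from abs_le.1 hl)] at p2 ⊢
      have := mri_pt a0 a1 a2 a3 (w1 t) (hA t) le_rfl (h2 t) (low t ht hl)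
      linarith
    rw [Set.indicator_of_mem (show t ∈ E from ⟨hx, hv⟩)] at p3 p4 ⊢
    rcases le_total |t| Tm with hm | hm
    · have := mri_pt a0 a1 a2 a3 (w1 t) (hA t) (h1 t) (mid t hl hm) le_rfl
      linarith
    · have := mri_pt a0 a1 a2 a3 (w1 t) (hA t) (high t hm hx) (h2 t) le_rfl
      linarith
  rw [← integral_indicator mS]
  have j1 := i1.const_mul ((s₁ * s₂ * s₃) ^ 2)
  have j2 := i2.const_mul ((s₂ * e₃) ^ 2)
  have j3 := i3.const_mul ((s₁ * e₂) ^ 2 + (e₁ * s₂) ^ 2)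
  have j0 := i0.const_mul (V ^ 2)
  have j4 := ((j1.add j2).add j3).const_mul (μ ^ 2)
  refine (integral_mono_of_nonneg (.of_forall fun t => Set.indicator_nonneg
    (fun t _ => mul_nonneg (by positivity) (w0 t)) t) (j0.add j4) (.of_forall key)).trans ?_
  have := integral_add j0 j4
  simp only [Pi.add_apply] at this ⊢
  rw [this, integral_const_mul, integral_const_mul]
  have e1 := integral_add (j1.add j2) j3
  have e2 := integral_add j1 j2
  simp only [Pi.add_apply] at e1 e2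
  rw [e1, e2, integral_const_mul, integral_const_mul, integral_const_mul,
    integral_indicator mU, integral_indicator measurableSet_Icc, integral_indicator mE]
  gcongr

theorem norm_nit (t : ℝ) (n : ℕ) : ‖nit t n‖ = 1 := by
  rw [nit, Complex.norm_exp]; simp [-Complex.natCast_log]

@[fun_prop] theorem cont_nit (n : ℕ) : Continuous fun t => nit t n := by unfold nit; fun_prop

theorem nit_mul (t : ℝ) {m n : ℕ} (hm : m ≠ 0) (hn : n ≠ 0) :
    nit t (m * n) = nit t m * nit t n := by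
  rw [nit, nit, nit, ← Complex.exp_add, Nat.cast_mul,
    Real.log_mul (by exact_mod_cast hm) (by exact_mod_cast hn)]
  push_cast; ring_nf

theorem cont_DD (P d c : ℕ) : Continuous (DD P d c) := by unfold DD; fun_prop

theorem cont_D3 (N N' d c : ℕ) : Continuous (D3 N N' d c) := by unfold D3; fun_prop

theorem cont_AA (nq : ℕ) (I : Finset ℕ) : Continuous (AA nq I) := by unfold AA; fun_prop

theorem norm_AA_le (nq : ℕ) (I : Finset ℕ) (t : ℝ) : ‖AA nq I t‖ ≤ (#I : ℝ) / nq := by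
  refine (norm_sum_le_of_le (n := fun _ => (1 / nq : ℝ)) _ fun q _ => ?_).trans ?_
  · rw [norm_mul, norm_nit, mul_one, Complex.norm_real, Real.norm_of_nonneg (by positivity)]
  · rw [sum_const, nsmul_eq_mul, mul_one_div]

theorem mri_PC_sub (a b d c : ℕ) : PC a b d c ⊆ Ioc a b :=
  (filter_subset _ _).trans (filter_subset _ _)

theorem mri_log_le {p X : ℕ} (h : p ≤ X) : Real.log p ≤ LL X := by
  rcases Nat.eq_zero_or_pos p with rfl | hp
  · simpa [LL] using Real.log_natCast_nonneg X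
  · exact Real.log_le_log (by exact_mod_cast hp) (by exact_mod_cast h)

theorem norm_DD_le {P X : ℕ} (h : 2 * P ≤ X) (d c : ℕ) (t : ℝ) : ‖DD P d c t‖ ≤ LL X := by
  have hL : 0 ≤ LL X := Real.log_natCast_nonneg X
  refine (norm_sum_le_of_le (n := fun _ => LL X / P) _ fun p hp => ?_).trans ?_
  · rw [norm_mul, norm_nit, mul_one, Complex.norm_real,
      Real.norm_of_nonneg (div_nonneg (Real.log_natCast_nonneg p) (by positivity))]
    gcongr
    exact mri_log_le ((mem_Ioc.1 (mri_PC_sub _ _ _ _ hp)).2.trans h)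
  · rw [sum_const, nsmul_eq_mul]
    have : #(PC P (2 * P) d c) ≤ P := (card_le_card (mri_PC_sub _ _ _ _)).trans (by simp; omega)
    rcases Nat.eq_zero_or_pos P with rfl | hP
    · simpa using hL
    · calc (#(PC P (2 * P) d c) : ℝ) * (LL X / P) ≤ P * (LL X / P) := by gcongr
        _ = LL X := by field_simp

theorem norm_D3_le {N N' X C : ℕ} (h0 : 0 < N) (h : N' ≤ C * N) (hX : N' ≤ X) (d c : ℕ) (t : ℝ) :
    ‖D3 N N' d c t‖ ≤ C * LL X := by
  have hL : 0 ≤ LL X := Real.log_natCast_nonneg X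
  have hN : (0 : ℝ) < N := by exact_mod_cast h0
  refine (norm_sum_le_of_le (n := fun _ => LL X / N) _ fun p hp => ?_).trans ?_
  · have hp' := mem_Ioc.1 (mri_PC_sub _ _ _ _ hp)
    rw [norm_mul, norm_nit, mul_one, Complex.norm_real,
      Real.norm_of_nonneg (div_nonneg (Real.log_natCast_nonneg p) (by positivity))]
    have : (N : ℝ) ≤ p := by exact_mod_cast hp'.1.le
    gcongr
    · exact mri_log_le (hp'.2.trans hX)
    · linarith
  · rw [sum_const, nsmul_eq_mul]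
    have : #(PC N N' d c) ≤ C * N := (card_le_card (mri_PC_sub _ _ _ _)).trans (by simp; omega)
    calc (#(PC N N' d c) : ℝ) * (LL X / N) ≤ (C * N : ℕ) * (LL X / N) := by gcongr
      _ = C * LL X := by push_cast; field_simp

theorem gwt_int {T : ℝ} (hT : 0 < T) : Integrable (gwt T) := by
  have := integrable_exp_neg_mul_sq (b := 1 / T ^ 2) (by positivity)
  refine this.congr (.of_forall fun t => ?_)
  simp only [gwt]; congr 1; ring

theorem gwt_tail {T X L : ℝ} (hT : 0 < T) (hL : 0 ≤ L) (h : T * L ≤ X) :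
    ∫ t in {t : ℝ | X ≤ |t|}, gwt T t ≤ 3 * T * Real.exp (-(L ^ 2 / 2)) := by
  have mU : MeasurableSet {t : ℝ | X ≤ |t|} :=
    (isClosed_le continuous_const continuous_abs).measurableSet
  have hb : 0 < 1 / (2 * T ^ 2) := by positivity
  have i1 := (integrable_exp_neg_mul_sq hb).const_mul (Real.exp (-(L ^ 2 / 2)))
  rw [← integral_indicator mU]
  refine (integral_mono_of_nonneg (.of_forall fun t => Set.indicator_nonneg
    (fun t _ => (Real.exp_pos _).le) t) i1 (.of_forall fun t => ?_)).trans ?_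
  · beta_reduce
    by_cases ht : t ∈ {t : ℝ | X ≤ |t|}
    · rw [Set.indicator_of_mem ht]
      rw [← Real.exp_add, Real.exp_le_exp]
      have h1 : (T * L) ^ 2 ≤ t ^ 2 := by
        rw [← sq_abs t]; exact pow_le_pow_left₀ (by positivity) (h.trans ht) 2
      have h2 : L ^ 2 ≤ t ^ 2 / T ^ 2 := by rw [le_div_iff₀ (by positivity)]; linarith
      have h3 : -(1 / (2 * T ^ 2)) * t ^ 2 = -(t ^ 2 / T ^ 2) / 2 := by field_simp
      linarith
    · rw [Set.indicator_of_notMem ht]; positivity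
  · rw [integral_const_mul, integral_gaussian, mul_comm]
    gcongr
    rw [Real.sqrt_le_iff]
    refine ⟨by positivity, ?_⟩
    have : Real.pi / (1 / (2 * T ^ 2)) = 2 * Real.pi * T ^ 2 := by field_simp
    rw [this]
    nlinarith [Real.pi_lt_d2, sq_nonneg T]

theorem mri_two_P : ∀ᶠ X : ℕ in atTop, 2 * P1 X ≤ X ∧ 2 * P2 X ≤ X := by
  filter_upwards [par_nat (par_const_log 20), par_nat (eventually_ge_atTop (2 : ℝ)),
    eventually_gt_atTop 0] with X h1 h2 h3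
  have hk : 2 ≤ ka X := by unfold ka LL; linarith
  have hX : Real.exp (LL X) = X := Real.exp_log (by exact_mod_cast h3)
  have hL : 2 ≤ LL X := h2
  have key : ∀ k : ℝ, 2 ≤ k → 2 * ⌊Real.exp (LL X / k)⌋₊ ≤ X := fun k hk => by
    have a1 : (⌊Real.exp (LL X / k)⌋₊ : ℝ) ≤ Real.exp (LL X / 2) :=
      (Nat.floor_le (Real.exp_pos _).le).trans (by gcongr)
    have a2 : (2 : ℝ) ≤ Real.exp (LL X / 2) := by linarith [Real.add_one_le_exp (LL X / 2)]
    have a3 : Real.exp (LL X / 2) * Real.exp (LL X / 2) = X := by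
      rw [← Real.exp_add, add_halves, hX]
    have : (2 : ℝ) * ⌊Real.exp (LL X / k)⌋₊ ≤ X := by
      rw [← a3]; exact mul_le_mul a2 a1 (by positivity) (by positivity)
    exact_mod_cast this
  exact ⟨key _ hk, key _ (by nlinarith)⟩

theorem mri_num1 (C A : ℕ) : ∀ᶠ L : ℝ in atTop,
    (L * L * (C * L)) ^ 2 * (3 * Real.exp L * Real.exp (-(L ^ 2 / 2))) ≤ 1 / 4 / L ^ A := by
  filter_upwards [par_decay (12 * C ^ 2) 6 A 1 (show (1 : ℝ) < 2 by norm_num) (by norm_num)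
    (show (0 : ℝ) < 1 / 2 by norm_num), eventually_gt_atTop (0 : ℝ)] with L h h0
  rw [Real.rpow_neg h0.le, Real.rpow_natCast, Real.rpow_one, Real.rpow_two,
    show (6 : ℝ) = (6 : ℕ) by norm_num, Real.rpow_natCast, one_mul,
    show 1 / 2 * L ^ 2 = L ^ 2 / 2 by ring] at h
  rw [div_eq_mul_inv (1 / 4)]
  linarith

theorem mri_num2 {L : ℝ} (h : 4 ≤ L) (A E : ℕ) :
    (L * (1 / L ^ (A + E + 2))) ^ 2 * L ^ E ≤ 1 / 4 / L ^ A := by
  have h0 : 0 < L := by linarith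
  have h1 : 1 ≤ L := by linarith
  have e : (L * (1 / L ^ (A + E + 2))) ^ 2 * L ^ E = 1 / (L ^ (A + E + 1) * L) / L ^ A := by
    field_simp; ring
  rw [e]
  gcongr
  nlinarith [one_le_pow₀ h1 (n := A + E + 1)]

theorem mri (s1 : SUP1_s) (s2 : SUP2_s) (s3 : SUP3_s) (off : OFF_s) (lowm : LOWM_s)
    (hm3 : HM3_s) : MRI_s := by
  intro A B C s
  obtain ⟨E, hE⟩ := off C
  obtain ⟨E', hE'⟩ := hm3 C s
  obtain ⟨A₁, hA₁⟩ := s3 (A + 3 + 2) B C
  refine ⟨A₁, ?_⟩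
  filter_upwards [hE, hE', hA₁, s1 (A + E' + 2), s2 (A + E' + 2), lowm, mri_two_P,
    par_nat (mri_num1 C A), par_nat (eventually_ge_atTop (4 : ℝ)), eventually_gt_atTop 0,
    par_nat (par_rpow_exp 2 E (show (0 : ℝ) < 13 / 100 by norm_num) one_pos)]
    with X hE hE' hA₁ s1 s2 lowm hP n1 hL hX n2
  intro d c₁ c₂ c₃ N N' nq I T T₁ hd hdB hc hN hN' hNX hI hq hT hTX hTP hT₁
  have hL : 4 ≤ LL X := hL
  have hT0 : 0 < T := by linarith
  have hN0 : 0 < N := Nat.pos_of_ne_zero fun e => by simp [e] at hN; omega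
  have hTL : T * LL X ≤ X := by rwa [le_div_iff₀ (by linarith)] at hTX
  have hXe : Real.exp (LL X) = X := Real.exp_log (by exact_mod_cast hX)
  have := mri_split (cont_AA nq I) (cont_DD (P1 X) d c₁) (cont_DD (P2 X) d c₂) (cont_D3 N N' d c₃)
    (fun t => (Real.exp_pos _).le)
    (fun t => Real.exp_le_one_iff.2 (neg_nonpos.2 (by positivity))) (gwt_int hT0)
    (norm_AA_le nq I) (norm_DD_le hP.1 d c₁) (norm_DD_le hP.2 d c₂) (norm_D3_le hN0 hN' hNX d c₃)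
    (hE d c₁ c₂ c₃ N N' T hN hN' hNX hT) (gwt_tail hT0 (by linarith) hTL)
    (fun t h1 h2 => hA₁ d c₃ N N' hd hdB hc hN hN' hNX t (hT₁.trans h1) h2) (lowm d c₁)
    (s2 d c₂ hd) (s1 d c₁ hd) (hE' d c₃ N N' nq I hN hN' hNX hI hq)
  refine this.trans ?_
  rw [add_comm]
  refine add_le_add ?_ ?_
  · refine le_trans (mul_le_mul_of_nonneg_left (c := 1 / LL X ^ A) ?_ (by positivity))
      (mul_one_div _ _).le
    have a1 := mri_num2 hL A 3
    have a2 := mri_num2 hL A E'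
    have a3 : (LL X * LL X * (C * LL X)) ^ 2 * (3 * T * Real.exp (-(LL X ^ 2 / 2))) ≤
        1 / 4 / LL X ^ A := by
      refine le_trans ?_ n1
      change _ ≤ (LL X * LL X * (C * LL X)) ^ 2 * (3 * Real.exp (LL X) * Real.exp (-(LL X ^ 2 / 2)))
      gcongr
      rw [hXe]; nlinarith
    have a4 : 1 / LL X ^ A = 4 * (1 / 4 / LL X ^ A) := by ring
    rw [mul_comm (1 / LL X ^ (A + E' + 2))]
    linarith
  · set e := EE X (13 / 100) with he
    have e1 : 1 ≤ e := Real.one_le_exp (Real.rpow_nonneg (by linarith) _)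
    have e2 : 2 * LL X ^ E ≤ e := by
      rw [one_mul, Real.rpow_natCast] at n2; exact n2
    have e3 : T / ((P1 X : ℝ) * P2 X * N) ≤ e :=
      div_le_of_le_mul₀ (by positivity) (by linarith) (by linarith)
    have e4 : LL X ^ E * (T / ((P1 X : ℝ) * P2 X * N) + 1) ≤ e * e := by
      calc _ ≤ LL X ^ E * (e + e) := by gcongr
        _ = 2 * LL X ^ E * e := by ring
        _ ≤ e * e := by gcongr
    calc _ ≤ (1 / e ^ 3) ^ 2 * (e * e) := by gcongr
      _ = 1 / e ^ 4 := by field_simp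

/-- the fourfold sum factors -/
theorem mri_prod (P₁ P₂ N N' d c₁ c₂ c₃ nq : ℕ) {a : ℕ} (ha : a ≠ 0) (I : Finset ℕ) (t : ℝ) :
    ∑ q ∈ I, ∑ p₁ ∈ PC P₁ (2 * P₁) d c₁, ∑ p₂ ∈ PC P₂ (2 * P₂) d c₂, ∑ p₃ ∈ PC N N' d c₃,
      ((1 / nq * (Real.log p₁ / P₁ * (Real.log p₂ / P₂) * (Real.log p₃ / (p₃ + 2))) : ℝ) : ℂ) *
        nit t ((q + 4) * a * (p₁ + 2) * (p₂ + 2) * (p₃ + 2)) =
      nit t a * (AA nq I t * DD P₁ d c₁ t * DD P₂ d c₂ t * D3 N N' d c₃ t) := by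
  rw [AA, DD, DD, D3, mul_assoc, mul_assoc, sum_mul, mul_sum]
  refine sum_congr rfl fun q _ => ?_
  rw [sum_mul, mul_sum, mul_sum]
  refine sum_congr rfl fun p₁ _ => ?_
  rw [sum_mul, mul_sum, mul_sum, mul_sum]
  refine sum_congr rfl fun p₂ _ => ?_
  rw [mul_sum, mul_sum, mul_sum, mul_sum]
  refine sum_congr rfl fun p₃ _ => ?_
  rw [nit_mul t (by positivity) (by positivity), nit_mul t (by positivity) (by positivity),
    nit_mul t (by positivity) (by positivity), nit_mul t (by positivity) ha]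
  push_cast; ring

end Pool.Agent.H84D
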