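import Pool.Agent.MP_f0209c_nt.Ch.Mvt

/-! MOM: the set where a short Dirichlet polynomial over almost primes is large is small. -/

namespace H84D
open Complex Finset MeasureTheory
open Pool.Agent.MP_f0209c_nt.Ch

/-- at most `j ^ Ω m` ordered factorisations of `m` into `j` factors -/
lemma card_fact_le (j m : ℕ) :
    (Nat.finMulAntidiag j m).card ≤ j ^ ArithmeticFunction.cardFactors m := by
  induction m using induction_on_primes with
  | zero => simp
  | one => simp [Nat.finMulAntidiag_one]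
  | prime_mul p m hp ih =>
    rcases eq_or_ne m 0 with rfl | hm
    · simp
    have sub : Nat.finMulAntidiag j (p * m) ⊆ (univ ×ˢ Nat.finMulAntidiag j m).image
        fun x : Fin j × (Fin j → ℕ) => Function.update x.2 x.1 (p * x.2 x.1) := by
      intro f hf
      have e := (Nat.mem_finMulAntidiag.1 hf).1
      obtain ⟨i, -, g, hg⟩ := (hp.prime.dvd_finsetProd_iff f).1 (e ▸ dvd_mul_right p m)
      refine mem_image.2 ⟨(i, Function.update f i g), mem_product.2 ⟨mem_univ _,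
        Nat.mem_finMulAntidiag.2 ⟨?_, hm⟩⟩, ?_⟩
      · rw [← mul_prod_erase univ f (mem_univ i), hg, mul_assoc] at e
        rw [prod_update_of_mem (mem_univ i), sdiff_singleton_eq_erase]
        exact Nat.eq_of_mul_eq_mul_left hp.pos e
      · simp [← hg]
    refine (card_le_card sub).trans (card_image_le.trans ?_)
    rw [card_product, card_univ, Fintype.card_fin, ArithmeticFunction.cardFactors_mul hp.ne_zero hm,
      ArithmeticFunction.cardFactors_apply_prime hp, pow_add, pow_one]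
    exact Nat.mul_le_mul_left _ ih

lemma omega_prod_le {j s : ℕ} {f : Fin j → ℕ} (h0 : ∀ i, f i ≠ 0)
    (h : ∀ i, ArithmeticFunction.cardFactors (f i) ≤ s) :
    ArithmeticFunction.cardFactors (∏ i, f i) ≤ s * j := by
  induction j with
  | zero => simp
  | succ j ih =>
    rw [Fin.prod_univ_succ, ArithmeticFunction.cardFactors_mul (h0 0)
      (prod_ne_zero_iff.2 fun i _ => h0 _), mul_add_one, add_comm]
    exact add_le_add (ih (fun i => h0 _) fun i => h _) (h 0)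

lemma ee_prod (t : ℝ) {j : ℕ} {f : Fin j → ℕ} (h0 : ∀ i, f i ≠ 0) :
    ee t (∏ i, f i) = ∏ i, ee t (f i) := by
  induction j with
  | zero => simp [ee]
  | succ j ih =>
    rw [Fin.prod_univ_succ, Fin.prod_univ_succ, ee_mul t (h0 0)
      (prod_ne_zero_iff.2 fun i _ => h0 _), ih fun i => h0 _]

lemma pow_le_of_le_mul {j s k : ℕ} (h : k ≤ s * j) : j ^ k ≤ j ^ (s * j) := by
  rcases j.eq_zero_or_pos with rfl | hj
  · simp_all
  · exact Nat.pow_le_pow_right hj h

/-- mean value of the `j`-th power -/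
theorem mom_mv {S : Finset ℕ} {a : ℕ → ℂ} {Y T : ℝ} {s : ℕ} (j : ℕ) (h0 : 0 ∉ S)
    (hY : ∀ n ∈ S, (n : ℝ) ≤ Y) (hs : ∀ n ∈ S, ArithmeticFunction.cardFactors n ≤ s)
    (ha : ∀ n ∈ S, ‖a n‖ ≤ 1) (hT : 2 ≤ T) :
    Mv T (fun t => ‖∑ n ∈ S, a n * ee t n‖ ^ (2 * j))
      (24 * (T + Y ^ j) * (j : ℝ) ^ (s * j) * (S.card : ℝ) ^ j) := by
  classical
  set W := Fintype.piFinset fun _ : Fin j => S with hW
  have w0 : ∀ f ∈ W, ∀ i, f i ≠ 0 := fun f hf i e => h0 (e ▸ Fintype.mem_piFinset.1 hf i)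
  let c : ℕ → ℂ := fun m => ∑ f ∈ W with ∏ i, f i = m, ∏ i, a (f i)
  have hc : Sup c (W.image fun f => ∏ i, f i) := by
    refine ⟨fun h => ?_, fun m hm => ?_⟩
    · obtain ⟨f, hf, e⟩ := mem_image.1 h
      exact prod_ne_zero_iff.2 (fun i _ => w0 f hf i) e
    · obtain ⟨f, hf, -⟩ := exists_ne_zero_of_sum_ne_zero hm
      exact mem_image.2 ⟨f, (mem_filter.1 hf).1, (mem_filter.1 hf).2⟩
  have e : ∀ t, dp c t = (∑ n ∈ S, a n * ee t n) ^ j := fun t => by
    rw [hc.dp_eq, sum_pow', ← hW, ← sum_fiberwise_of_maps_to (s := W)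
      (g := fun f : Fin j → ℕ => ∏ i, f i) (fun f hf => mem_image_of_mem _ hf)]
    refine sum_congr rfl fun m _ => ?_
    rw [sum_mul]
    refine sum_congr rfl fun f hf => ?_
    rw [← (mem_filter.1 hf).2, ee_prod t (w0 f (mem_filter.1 hf).1), prod_mul_distrib]
  let r : ℕ → ℕ := fun m => (W.filter fun f => ∏ i, f i = m).card
  have c1 : ∀ m, ‖c m‖ ≤ r m := fun m => by
    refine (norm_sum_le_of_le (n := fun _ => (1 : ℝ)) _ fun f hf => ?_).trans (by simp [r])
    rw [norm_prod]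
    exact prod_le_one (fun _ _ => norm_nonneg _) fun i _ =>
      ha _ (Fintype.mem_piFinset.1 (mem_filter.1 hf).1 i)
  have c2 : ∀ m ∈ W.image fun f => ∏ i, f i, (r m : ℝ) ≤ (j : ℝ) ^ (s * j) := fun m hm => by
    have m0 : m ≠ 0 := fun e => hc.1 (e ▸ hm)
    obtain ⟨f, hf, rfl⟩ := mem_image.1 hm
    have : r (∏ i, f i) ≤ j ^ (s * j) :=
      (card_le_card fun g hg => Nat.mem_finMulAntidiag.2 ⟨(mem_filter.1 hg).2, m0⟩).trans
        ((card_fact_le j _).trans (pow_le_of_le_mul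
          (omega_prod_le (w0 f hf) fun i => hs _ (Fintype.mem_piFinset.1 hf i))))
    exact_mod_cast this
  have c3 : ∀ m : ℕ, m ∈ (W.image fun f => ∏ i, f i) → (m : ℝ) ≤ Y ^ j := fun m hm => by
    obtain ⟨f, hf, rfl⟩ := mem_image.1 hm
    rw [Nat.cast_prod]
    exact (prod_le_prod (fun _ _ => Nat.cast_nonneg _) fun i _ =>
      hY _ (Fintype.mem_piFinset.1 hf i)).trans (by simp)
  have c4 : ∑ m ∈ W.image fun f => ∏ i, f i, (r m : ℝ) = (S.card : ℝ) ^ j := by
    have := card_eq_sum_card_image (fun f : Fin j → ℕ => ∏ i, f i) W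
    rw [hW, Fintype.card_piFinset_const, ← hW] at this
    exact_mod_cast this.symm
  refine (mvt hc hT).mono (fun t => ?_) ?_
  · rw [e, norm_pow, ← pow_mul, mul_comm j]
  · rw [← c4, mul_assoc, mul_assoc, ← mul_assoc (T + Y ^ j),
      mul_sum _ _ ((T + Y ^ j) * (j : ℝ) ^ (s * j))]
    refine mul_le_mul_of_nonneg_left (sum_le_sum fun m hm => ?_) (by norm_num)
    have m0 : (0 : ℝ) ≤ m := Nat.cast_nonneg _
    rw [mul_assoc, sq]
    exact mul_le_mul (by linarith [c3 m hm]) (mul_le_mul ((c1 m).trans (c2 m hm)) (c1 m)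
      (norm_nonneg _) (by positivity)) (by positivity) (by linarith [c3 m hm])

lemma mv_vol {T M : ℝ} (hT : 0 < T) {E : Set ℝ} (hE : MeasurableSet E) (h1 : E ⊆ Set.Icc (-T) T)
    (h : Mv T (E.indicator 1) M) : volume.real E ≤ 3 * M := by
  have a := h.int_le fun t => Set.indicator_nonneg (fun _ _ => zero_le_one) t
  have e : ∀ t, E.indicator 1 t * gw T t = E.indicator (gw T) t := fun t => by
    by_cases c : t ∈ E <;> simp [c]
  simp only [e, integral_indicator hE] at a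
  have := setIntegral_ge_of_const_le_real (μ := volume) (c := 1 / 3) hE
    (ne_top_of_le_ne_top measure_Icc_lt_top.ne (measure_mono h1)) (f := gw T)
    (fun t ht => le_trans (by norm_num) (Real.exp_neg_one_gt_d9.le.trans
      (Real.exp_le_exp.2 (neg_le_neg ((div_le_one (by positivity)).2
        (sq_le_sq' (h1 ht).1 (h1 ht).2))))))
    ((Continuous.continuousOn (by unfold gw; fun_prop)).integrableOn_compact isCompact_Icc
      |>.mono_set h1)
  linarith

theorem mom_meas (J : Finset ℕ) (a : ℕ → ℂ) (T W : ℝ) :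
    MeasurableSet {t : ℝ | |t| ≤ T ∧ W ≤ ‖∑ n ∈ J, a n * ee t n‖} :=
  ((isClosed_le continuous_abs continuous_const).inter
    (isClosed_le (g := fun t : ℝ => ‖∑ n ∈ J, a n * ee t n‖) continuous_const
      (by fun_prop))).measurableSet

/-- MOM, sharp form with a real bound `Y` -/
theorem mom' {S : Finset ℕ} {a : ℕ → ℂ} {Y X V : ℝ} {s : ℕ} (j : ℕ) (h0 : 0 ∉ S)
    (hY : ∀ n ∈ S, (n : ℝ) ≤ Y) (hs : ∀ n ∈ S, ArithmeticFunction.cardFactors n ≤ s)
    (ha : ∀ n ∈ S, ‖a n‖ ≤ 1) (hX : 2 ≤ X) (hV : 0 < V) :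
    volume.real {t : ℝ | |t| ≤ X ∧ V ≤ ‖∑ n ∈ S, a n * ee t n‖} ≤
      72 * (X + Y ^ j) * (j : ℝ) ^ (s * j) * (S.card : ℝ) ^ j / V ^ (2 * j) := by
  have h := (mom_mv j h0 hY hs ha hX).mul (c := 1 / V ^ (2 * j)) (by positivity)
  refine (mv_vol (by linarith) (mom_meas S a X V) (fun t ht => abs_le.1 ht.1)
    (h.mono (fun t => ?_) le_rfl)).trans (le_of_eq (by ring))
  by_cases c : t ∈ {t : ℝ | |t| ≤ X ∧ V ≤ ‖∑ n ∈ S, a n * ee t n‖}
  · rw [Set.indicator_of_mem c, Pi.one_apply, one_div, ← div_eq_inv_mul, one_le_div (by positivity)]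
    exact pow_le_pow_left₀ hV.le c.2 _
  · rw [Set.indicator_of_notMem c]; positivity

/-- large values of a polynomial on almost primes are rare -/
theorem mom (J : Finset ℕ) (Y s j : ℕ)
    (hJ : ∀ n ∈ J, 1 ≤ n ∧ n ≤ Y ∧ ArithmeticFunction.cardFactors n ≤ s) (a : ℕ → ℂ)
    (ha : ∀ n ∈ J, ‖a n‖ ≤ 1) {T W : ℝ} (hT : 2 ≤ T) (hW : 0 < W) :
    volume.real {t : ℝ | |t| ≤ T ∧ W ≤ ‖∑ n ∈ J, a n * ee t n‖} ≤
      72 * (T + (Y : ℝ) ^ j) * ((s * j + 1 : ℝ) ^ s * #J / W ^ 2) ^ j := by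
  refine (mom' (Y := Y) j (fun h => by simpa using (hJ 0 h).1)
    (fun n hn => by exact_mod_cast (hJ n hn).2.1) (fun n hn => (hJ n hn).2.2) ha hT hW).trans ?_
  have e : (j : ℝ) ^ s ≤ (s * j + 1 : ℝ) ^ s := by
    rcases s.eq_zero_or_pos with rfl | hs
    · simp
    · have : (1 : ℝ) ≤ s := by exact_mod_cast hs
      have : (0 : ℝ) ≤ j := Nat.cast_nonneg _
      exact pow_le_pow_left₀ this (by nlinarith) _
  rw [div_pow, mul_pow, pow_mul, pow_mul, mul_assoc (72 * _), mul_div_assoc]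
  gcongr

end H84D
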