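import Pool.Agent.H84D.MriD
import Pool.Agent.H84D.Hm
import Pool.Agent.H84D.Mom
import Pool.Agent.H84D.Hh
import Pool.Agent.H84D.Par

/-! Mean values of the Dirichlet polynomials of the major arc integral. -/

namespace Pool.Agent.H84D.MM
open Complex Finset Filter MeasureTheory ComplexConjugate Pool.Agent.MP_f0209c_nt.Ch

lemma conj_nit (t : ℝ) (n : ℕ) : conj (nit t n) = ee t n := by
  rw [nit, ee, ← exp_conj]; simp [-natCast_log]

lemma mv_fin (S : Finset ℕ) (hS : 0 ∉ S) (c : ℕ → ℂ) {T : ℝ} (hT : 2 ≤ T) :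
    Mv T (fun t => ‖∑ n ∈ S, c n * nit t n‖ ^ 2) (24 * ∑ n ∈ S, (T + n) * ‖c n‖ ^ 2) := by
  classical
  have h : Sup (fun n => if n ∈ S then conj (c n) else 0) S :=
    ⟨hS, fun n hn => by by_contra e; exact hn (if_neg e)⟩
  refine (mvt h hT).mono (fun t => le_of_eq ?_) (le_of_eq ?_)
  · rw [h.dp_eq, ← norm_conj, map_sum]
    congr 2
    exact sum_congr rfl fun n hn => by rw [if_pos hn, map_mul, conj_nit]
  · congr 1
    exact sum_congr rfl fun n hn => by rw [if_pos hn, norm_conj]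

lemma nit_mul (t : ℝ) {m n : ℕ} (hm : m ≠ 0) (hn : n ≠ 0) : nit t (m * n) = nit t m * nit t n := by
  rw [nit, nit, nit, ← exp_add, Nat.cast_mul,
    Real.log_mul (by exact_mod_cast hm) (by exact_mod_cast hn)]
  push_cast; ring_nf

/-- mean value theorem for a family indexed by any finite set, coefficients collected by value -/
lemma mv_idx {ι : Type*} (s : Finset ι) (v : ι → ℕ) (hv : ∀ i ∈ s, v i ≠ 0) (w : ι → ℂ) {T : ℝ}
    (hT : 2 ≤ T) : Mv T (fun t => ‖∑ i ∈ s, w i * nit t (v i)‖ ^ 2)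
      (24 * ∑ n ∈ s.image v, (T + n) * ‖∑ i ∈ s with v i = n, w i‖ ^ 2) := by
  refine (mv_fin (s.image v) (fun h => ?_) (fun n => ∑ i ∈ s with v i = n, w i) hT).mono
    (fun t => le_of_eq ?_) le_rfl
  · obtain ⟨i, hi, e⟩ := mem_image.1 h; exact hv i hi e
  · congr 2
    rw [← sum_fiberwise_of_maps_to (g := v) (t := s.image v) fun i hi => mem_image_of_mem v hi]
    refine sum_congr rfl fun n _ => ?_
    rw [sum_mul]
    exact sum_congr rfl fun i hi => by rw [(mem_filter.1 hi).2]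

/-- from the Gaussian weight to a sharp cut-off -/
lemma mv_cut {T M : ℝ} {φ : ℝ → ℝ} (h : Mv T φ M) (h0 : ∀ t, 0 ≤ φ t) (hT : 0 < T)
    {E : Set ℝ} (hE : MeasurableSet E) (hET : ∀ t ∈ E, |t| ≤ T) : ∫ t in E, φ t ≤ 3 * M := by
  obtain ⟨ψ, a, b, c⟩ := h
  have g0 : ∀ t, 0 ≤ 3 * (ψ t * gw T t) := fun t =>
    mul_nonneg (by norm_num) (mul_nonneg ((h0 t).trans (b t)) (gw_pos _ _).le)
  have k : ∀ t ∈ E, φ t ≤ 3 * (ψ t * gw T t) := fun t ht => by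
    have h1 : t ^ 2 / T ^ 2 ≤ 1 := by
      rw [div_le_one (by positivity), ← sq_abs]; exact pow_le_pow_left₀ (abs_nonneg _) (hET t ht) 2
    have h2 : Real.exp (-1) ≤ gw T t := Real.exp_le_exp.2 (by linarith)
    have h3 : 1 ≤ 3 * Real.exp (-1) := by
      rw [Real.exp_neg, ← div_eq_mul_inv, le_div_iff₀ (Real.exp_pos _)]
      linarith [Real.exp_one_lt_d9]
    have h4 := (h0 t).trans (b t)
    nlinarith [b t, mul_le_mul_of_nonneg_left (h3.trans (mul_le_mul_of_nonneg_left h2 (by norm_num : (0:ℝ) ≤ 3))) h4]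
  calc ∫ t in E, φ t ≤ ∫ t in E, 3 * (ψ t * gw T t) :=
        integral_mono_of_nonneg (ae_of_all _ h0) (a.const_mul 3).integrableOn
          ((ae_restrict_iff' hE).2 (ae_of_all _ k))
    _ ≤ ∫ t, 3 * (ψ t * gw T t) := setIntegral_le_integral (a.const_mul 3) (ae_of_all _ g0)
    _ ≤ 3 * M := by rw [integral_const_mul]; linarith

/-- a polynomial in the shifted variable, rewritten on the integers with the conjugate factor -/
lemma shift_ee (S : Finset ℕ) (u : ℕ → ℂ) (k : ℕ) (t : ℝ) :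
    ‖∑ p ∈ S, u p * nit t (p + k)‖ = ‖∑ n ∈ S.image (· + k), conj (u (n - k)) * ee t n‖ := by
  rw [sum_image fun a _ b _ h => Nat.add_right_cancel h, ← norm_conj, map_sum]
  congr 1
  exact sum_congr rfl fun p _ => by rw [map_mul, conj_nit, Nat.add_sub_cancel]

lemma sq_sum_le (S : Finset ℕ) (u : ℕ → ℂ) (k : ℕ) {W : ℝ} (hu : ∀ p ∈ S, ‖u p‖ ≤ W) :
    ∑ n ∈ S.image (· + k), ‖conj (u (n - k))‖ ^ 2 ≤ W ^ 2 * #S := by
  rw [sum_image fun a _ b _ h => Nat.add_right_cancel h, mul_comm, ← nsmul_eq_mul]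
  refine sum_le_card_nsmul _ _ _ fun p hp => ?_
  rw [norm_conj, Nat.add_sub_cancel]
  exact pow_le_pow_left₀ (norm_nonneg _) (hu p hp) 2

/-- one factor -/
lemma low_gen (S : Finset ℕ) (u : ℕ → ℂ) {W T : ℝ} {Y : ℕ} (hu : ∀ p ∈ S, ‖u p‖ ≤ W)
    (hY : ∀ p ∈ S, p + 2 ≤ Y) (hT : 2 ≤ T) :
    Mv T (fun t => ‖∑ p ∈ S, u p * nit t (p + 2)‖ ^ 2) (24 * ((T + Y) * (W ^ 2 * #S))) := by
  refine (mv_fin (S.image (· + 2)) (by simp) (fun n => u (n - 2)) hT).mono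
    (fun t => le_of_eq ?_) ?_
  · rw [sum_image fun a _ b _ h => Nat.add_right_cancel h]; simp
  · refine mul_le_mul_of_nonneg_left ?_ (by norm_num)
    refine le_trans ?_ (mul_le_mul_of_nonneg_left (sq_sum_le S u 2 hu) (by positivity))
    rw [mul_sum]
    refine sum_le_sum fun n hn => ?_
    obtain ⟨p, hp, rfl⟩ := mem_image.1 hn
    rw [norm_conj]
    have : ((p + 2 : ℕ) : ℝ) ≤ Y := by exact_mod_cast hY p hp
    gcongr

/-- three factors -/
lemma off_gen (S₁ S₂ S₃ : Finset ℕ) (u₁ u₂ u₃ : ℕ → ℂ) {W₁ W₂ W₃ T : ℝ} {Y₁ Y₂ Y₃ : ℕ}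
    (h₁ : ∀ p ∈ S₁, ‖u₁ p‖ ≤ W₁ ∧ p + 2 ≤ Y₁) (h₂ : ∀ p ∈ S₂, ‖u₂ p‖ ≤ W₂ ∧ p + 2 ≤ Y₂)
    (h₃ : ∀ p ∈ S₃, ‖u₃ p‖ ≤ W₃ ∧ p + 2 ≤ Y₃) (hT : 2 ≤ T) :
    Mv T (fun t => ‖(∑ p ∈ S₁, u₁ p * nit t (p + 2)) * (∑ p ∈ S₂, u₂ p * nit t (p + 2)) *
      ∑ p ∈ S₃, u₃ p * nit t (p + 2)‖ ^ 2) (24 * ((T + (Y₁ * Y₂ * Y₃ : ℕ)) * ((W₁ * W₂ * W₃) ^ 2 *
        ((Y₁ * Y₂ * Y₃ : ℕ) * (1 + Real.log (Y₁ * Y₂ * Y₃ : ℕ)) ^ 8)))) := by
  classical
  have hY : ∀ s ∈ S₁ ×ˢ S₂ ×ˢ S₃, (s.1 + 2) * (s.2.1 + 2) * (s.2.2 + 2) ≤ Y₁ * Y₂ * Y₃ :=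
    fun s hs => by
      simp only [mem_product] at hs
      exact Nat.mul_le_mul (Nat.mul_le_mul (h₁ _ hs.1).2 (h₂ _ hs.2.1).2) (h₃ _ hs.2.2).2
  have hu : ∀ s ∈ S₁ ×ˢ S₂ ×ˢ S₃, ‖u₁ s.1 * u₂ s.2.1 * u₃ s.2.2‖ ≤ W₁ * W₂ * W₃ := fun s hs => by
    simp only [mem_product] at hs
    have a := (h₁ _ hs.1).1
    have b := (h₂ _ hs.2.1).1
    have c := (h₃ _ hs.2.2).1
    have a' := (norm_nonneg _).trans a
    have b' := (norm_nonneg _).trans b
    rw [norm_mul, norm_mul]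
    gcongr
  refine (mv_idx (S₁ ×ˢ S₂ ×ˢ S₃) (fun s => (s.1 + 2) * (s.2.1 + 2) * (s.2.2 + 2))
    (fun s _ => by positivity) (fun s => u₁ s.1 * u₂ s.2.1 * u₃ s.2.2) hT).mono
    (fun t => le_of_eq ?_) ?_
  · congr 2
    rw [mul_assoc, sum_mul_sum S₂ S₃, sum_mul]
    simp only [sum_product, mul_sum]
    refine sum_congr rfl fun a _ => sum_congr rfl fun b _ => sum_congr rfl fun c _ => ?_
    rw [nit_mul t (by positivity) (by positivity), nit_mul t (by positivity) (by positivity)]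
    ring
  · refine mul_le_mul_of_nonneg_left ?_ (by norm_num)
    refine le_trans ?_ (mul_le_mul_of_nonneg_left (Lg.hhC _ _ hu hY ((S₁ ×ˢ S₂ ×ˢ S₃).image
      fun s => (s.1 + 2) * (s.2.1 + 2) * (s.2.2 + 2))) (by positivity))
    rw [mul_sum]
    refine sum_le_sum fun n hn => ?_
    obtain ⟨s, hs, rfl⟩ := mem_image.1 hn
    have : (((s.1 + 2) * (s.2.1 + 2) * (s.2.2 + 2) : ℕ) : ℝ) ≤ (Y₁ * Y₂ * Y₃ : ℕ) := by
      exact_mod_cast hY s hs
    gcongr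

/-- Halasz-Montgomery in the shifted variable -/
lemma hm_gen (S : Finset ℕ) (u : ℕ → ℂ) {W R : ℝ} {Y : ℕ} (hu : ∀ p ∈ S, ‖u p‖ ≤ W)
    (hY : ∀ p ∈ S, p + 2 ≤ Y) (h1 : 1 ≤ Y) (hR : 2 * R ≤ (Y : ℝ) ^ 7) {E : Set ℝ}
    (hE : MeasurableSet E) (hER : E ⊆ Set.Icc (-R) R) :
    ∫ t in E, ‖∑ p ∈ S, u p * nit t (p + 2)‖ ^ 2 ≤ 1024 * (W ^ 2 * #S) *
      (Y * (1 + Real.log Y) + volume.real E * (Y : ℝ) ^ (1 - 1 / 25600 : ℝ)) := by
  simp only [shift_ee]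
  refine (hm Y h1 _ (fun n hn => ?_) _ hR hE hER).trans ?_
  · obtain ⟨p, hp, rfl⟩ := mem_image.1 hn
    exact mem_Icc.2 ⟨by omega, hY p hp⟩
  · have := Real.log_natCast_nonneg Y
    have := sq_sum_le S u 2 hu
    gcongr

lemma mpar : ∀ᶠ X : ℕ in atTop, 2 ≤ P2 X ∧ P2 X ^ 3 ≤ P1 X ∧ 2 * P1 X + 2 ≤ X ∧ 4 ≤ LL X := by
  filter_upwards [par_nat (par_const_log 30), par_nat (par_log_pow 1 2 one_pos),
    par_nat (eventually_ge_atTop 4), eventually_ge_atTop 1] with X h1 h2 h3 h4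
  change 30 ≤ Real.log (LL X) at h1
  change 1 * Real.log (LL X) ^ 2 ≤ LL X ^ (1 : ℝ) at h2
  change 4 ≤ LL X at h3
  rw [Real.rpow_one] at h2
  have k3 : 3 ≤ ka X := by rw [ka]; linarith
  have k2 : ka X ^ 2 ≤ LL X := by rw [ka]; nlinarith
  refine ⟨Nat.le_floor ?_, Nat.le_floor ?_, ?_, h3⟩
  · have : 1 ≤ LL X / ka X ^ 2 := (one_le_div (by positivity)).2 k2
    have := Real.add_one_le_exp (LL X / ka X ^ 2)
    push_cast; linarith
  · have : (P2 X : ℝ) ≤ Real.exp (LL X / ka X ^ 2) := Nat.floor_le (Real.exp_pos _).le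
    push_cast
    refine (pow_le_pow_left₀ (by positivity) this 3).trans ?_
    rw [← Real.exp_nat_mul, Real.exp_le_exp, ← mul_div_assoc,
      div_le_div_iff₀ (by positivity) (by positivity)]
    push_cast
    have := mul_le_mul_of_nonneg_left k3 (show 0 ≤ LL X * ka X by positivity)
    nlinarith
  · have a : (P1 X : ℝ) ≤ Real.exp (LL X / 2) := (Nat.floor_le (Real.exp_pos _).le).trans
      (Real.exp_le_exp.2 (div_le_div_of_nonneg_left (by linarith) two_pos (by linarith)))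
    have b := Real.add_one_le_exp (LL X / 2)
    have c : Real.exp (LL X / 2) * Real.exp (LL X / 2) = X := by
      rw [← Real.exp_add, add_halves, LL, Real.exp_log (by exact_mod_cast h4)]
    have : (2 * P1 X + 2 : ℝ) ≤ X := by nlinarith
    exact_mod_cast this

lemma mem_PC {a b d r p : ℕ} (h : p ∈ PC a b d r) : a < p ∧ p ≤ b :=
  mem_Ioc.1 (mem_filter.1 (mem_filter.1 h).1).1

lemma card_PC (a b d r : ℕ) : #(PC a b d r) ≤ b - a :=
  ((card_filter_le _ _).trans (card_filter_le _ _)).trans (Nat.card_Ioc a b).le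

lemma log_le_LL {p X : ℕ} (h0 : 0 < p) (h : p ≤ X) : Real.log p ≤ LL X :=
  Real.log_le_log (by exact_mod_cast h0) (by exact_mod_cast h)

lemma dd_wt {P X d c : ℕ} (h : 2 * P ≤ X) : ∀ p ∈ PC P (2 * P) d c,
    ‖((Real.log p / P : ℝ) : ℂ)‖ ≤ LL X / P ∧ p + 2 ≤ 2 * P + 2 := fun p hp => by
  have a := mem_PC hp
  have b := Real.log_natCast_nonneg p
  rw [norm_real, Real.norm_of_nonneg (by positivity)]
  exact ⟨div_le_div_of_nonneg_right (log_le_LL (by omega) (by omega)) (by positivity), by omega⟩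

lemma d3_wt {N N' X d c : ℕ} (h0 : 0 < N) (h : N' ≤ X) : ∀ p ∈ PC N N' d c,
    ‖((Real.log p / (p + 2) : ℝ) : ℂ)‖ ≤ LL X / N ∧ p + 2 ≤ N' + 2 := fun p hp => by
  have a := mem_PC hp
  have b := Real.log_natCast_nonneg p
  have e : (N : ℝ) ≤ p := by exact_mod_cast a.1.le
  rw [norm_real, Real.norm_of_nonneg (by positivity)]
  exact ⟨div_le_div₀ (Real.log_natCast_nonneg X) (log_le_LL (by omega) (by omega))
    (by exact_mod_cast h0) (by linarith), by omega⟩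

theorem lowm : LOWM_s := by
  filter_upwards [mpar, par_nat (eventually_ge_atTop 360)] with X ⟨h2, h3, h1, h4⟩ hL d c
  change 360 ≤ LL X at hL
  have a2 : (2 : ℝ) ≤ P2 X := by exact_mod_cast h2
  have a3 : (P2 X : ℝ) ^ 3 ≤ P1 X := by exact_mod_cast h3
  have hT : (8 : ℝ) ≤ (P2 X : ℝ) ^ 3 := by
    have := pow_le_pow_left₀ (by norm_num) a2 3; linarith
  have w := dd_wt (X := X) (d := d) (c := c) (show 2 * P1 X ≤ X by omega)
  refine (mv_cut (low_gen _ _ (fun p hp => (w p hp).1) (fun p hp => (w p hp).2)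
    (T := (P2 X : ℝ) ^ 3) (by linarith)) (fun t => by positivity) (by linarith) measurableSet_Icc
    fun t ht => abs_le.2 ht).trans ?_
  have k : (#(PC (P1 X) (2 * P1 X) d c) : ℝ) ≤ P1 X := by
    exact_mod_cast (card_PC _ _ d c).trans (by omega)
  have p0 : (0 : ℝ) < P1 X := by linarith
  calc _ ≤ 3 * (24 * ((5 * P1 X) * ((LL X / P1 X) ^ 2 * P1 X))) := by
        gcongr; push_cast; linarith
    _ = 360 * LL X ^ 2 := by field_simp; ring
    _ ≤ LL X ^ 3 := by nlinarith [sq_nonneg (LL X)]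

theorem off : OFF_s := fun C => ⟨15, by
  filter_upwards [mpar, par_nat (eventually_ge_atTop (24 * (16 * (C + 2) : ℝ) ^ 2 * 7 ^ 8))]
    with X ⟨h2, h3, h1, h4⟩ hL d c₁ c₂ c₃ N N' T hN hC hX hT
  change _ ≤ LL X at hL
  have h5 : P2 X ≤ P1 X := (Nat.le_self_pow (by norm_num) _).trans h3
  have n0 : 0 < N := Nat.pos_of_ne_zero fun e => by rw [e] at hN; omega
  refine ((off_gen _ _ _ _ _ _ (dd_wt (X := X) (d := d) (c := c₁) (show 2 * P1 X ≤ X by omega))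
    (dd_wt (X := X) (d := d) (c := c₂) (show 2 * P2 X ≤ X by omega))
    (d3_wt (d := d) (c := c₃) n0 hX) hT).int_le fun t => by positivity).trans ?_
  set Y : ℕ := (2 * P1 X + 2) * (2 * P2 X + 2) * (N' + 2) with hY
  have y1 : Y ≤ 16 * (C + 2) * (P1 X * P2 X * N) :=
    calc Y ≤ (4 * P1 X) * (4 * P2 X) * ((C + 2) * N) :=
          Nat.mul_le_mul (Nat.mul_le_mul (by omega) (by omega)) (by nlinarith)
      _ = _ := by ring
  have y2 : Y ≤ X ^ 4 :=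
    calc Y ≤ X * X * (X * X) :=
          Nat.mul_le_mul (Nat.mul_le_mul h1 (by omega)) (by nlinarith)
      _ = _ := by ring
  have y3 : 1 + Real.log Y ≤ 7 * LL X := by
    have := log_le_LL (show 0 < Y by positivity) y2
    rw [LL, Nat.cast_pow, Real.log_pow] at this
    change Real.log Y ≤ (4 : ℕ) * LL X at this
    push_cast at this; linarith
  have y4 := Real.log_natCast_nonneg Y
  have p1 : (0 : ℝ) < P1 X := by exact_mod_cast (by omega : 0 < P1 X)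
  have p2 : (0 : ℝ) < P2 X := by exact_mod_cast (by omega : 0 < P2 X)
  have p3 : (0 : ℝ) < N := by exact_mod_cast n0
  have y5 : (Y : ℝ) ≤ 16 * (C + 2) * (P1 X * P2 X * N) := by exact_mod_cast y1
  set K : ℝ := 16 * (C + 2) with hK
  have k1 : 1 ≤ K := by have : (0 : ℝ) ≤ C := Nat.cast_nonneg C; linarith
  have t0 : 0 ≤ T := by linarith
  have l0 : 0 ≤ LL X := by linarith
  calc _ ≤ 24 * ((K * T + K * (P1 X * P2 X * N)) * ((LL X / P1 X * (LL X / P2 X) * (LL X / N)) ^ 2 *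
        (K * (P1 X * P2 X * N) * (7 * LL X) ^ 8))) := by
        gcongr; nlinarith
    _ = 24 * K ^ 2 * 7 ^ 8 * (LL X ^ 14 * (T / (P1 X * P2 X * N) + 1)) := by field_simp
    _ ≤ LL X * (LL X ^ 14 * (T / (P1 X * P2 X * N) + 1)) := by gcongr
    _ = _ := by ring⟩

lemma big_eq (X : ℝ) {V : ℝ} {nq : ℕ} (h : 0 < nq) (J : Finset ℕ) :
    {t : ℝ | |t| ≤ X ∧ V ≤ ‖AA nq J t‖} =
      {t : ℝ | |t| ≤ X ∧ V * nq ≤ ‖∑ n ∈ J.image (· + 4), conj (1 : ℂ) * ee t n‖} := by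
  ext t
  have h' : (0 : ℝ) < nq := by exact_mod_cast h
  have e := shift_ee J (fun _ => 1) 4 t
  simp only [Set.mem_ofPred_eq]
  rw [← e, AA, ← mul_sum, norm_mul, norm_real, Real.norm_of_nonneg (by positivity), one_div,
    le_inv_mul_iff₀ h', mul_comm]
  simp only [one_mul]

lemma big_vol (s : ℕ) : ∀ᶠ X : ℕ in atTop, ∀ (nq : ℕ) (J : Finset ℕ),
    (∀ q ∈ J, q + 4 ≤ Y1 X ∧ ArithmeticFunction.cardFactors (q + 4) ≤ s) →
    (Y1 X : ℝ) ≤ LL X * nq →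
    MeasurableSet {t : ℝ | |t| ≤ X ∧ 1 / EE X (13 / 100) ^ 3 ≤ ‖AA nq J t‖} ∧
    volume.real {t : ℝ | |t| ≤ X ∧ 1 / EE X (13 / 100) ^ 3 ≤ ‖AA nq J t‖} ≤
      Real.exp (LL X / 51200) := by
  filter_upwards [par_nat (par_const_rpow 3 (b := 3 / 20) (by norm_num)),
    par_nat (par_const_rpow 1 (b := 17 / 20) (by norm_num)),
    par_nat (par_rpow_exp 1 (s + 2 : ℕ) (b := 13 / 100) (c' := 1) (by norm_num) one_pos),
    par_nat (par_exp_exp 144 0 21 (a := 98 / 100) (b := 1) (c' := 1 / 51200) (by norm_num) one_pos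
      (by norm_num)), par_nat (eventually_gt_atTop 0), eventually_ge_atTop 2]
    with X h1 h2 h3 h4 l0 x2 nq J hJ hq
  change 3 ≤ LL X ^ (3 / 20 : ℝ) at h1
  change 1 ≤ LL X ^ (17 / 20 : ℝ) at h2
  change 1 * LL X ^ ((s + 2 : ℕ) : ℝ) ≤ Real.exp (1 * LL X ^ (13 / 100 : ℝ)) at h3
  change 144 * LL X ^ (0 : ℝ) * Real.exp (21 * LL X ^ (98 / 100 : ℝ)) ≤
    Real.exp (1 / 51200 * LL X ^ (1 : ℝ)) at h4
  change 0 < LL X at l0
  rw [Real.rpow_natCast, one_mul, one_mul] at h3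
  rw [Real.rpow_zero, Real.rpow_one, mul_one] at h4
  have e1 : LL X ^ (17 / 20 : ℝ) * LL X ^ (3 / 20 : ℝ) = LL X := by
    rw [← Real.rpow_add l0]; norm_num
  have e2 : LL X ^ (17 / 20 : ℝ) * LL X ^ (13 / 100 : ℝ) = LL X ^ (98 / 100 : ℝ) := by
    rw [← Real.rpow_add l0]; norm_num
  have a : Real.exp (LL X ^ (3 / 20 : ℝ) / 2) ≤ Y1 X := by
    have b := Real.add_one_le_exp (LL X ^ (3 / 20 : ℝ) / 2)
    have c : Real.exp (LL X ^ (3 / 20 : ℝ) / 2) * Real.exp (LL X ^ (3 / 20 : ℝ) / 2) =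
      EE X (3 / 20) := by rw [← Real.exp_add, add_halves, EE]
    have d : EE X (3 / 20) < Y1 X + 1 := Nat.lt_floor_add_one _
    nlinarith
  have y0 : (0 : ℝ) < Y1 X := (Real.exp_pos _).trans_le a
  have q0 : 0 < nq := Nat.pos_of_ne_zero fun e => by
    rw [e, Nat.cast_zero, mul_zero] at hq; linarith
  have q0' : (0 : ℝ) < nq := by exact_mod_cast q0
  have E0 : 0 < EE X (13 / 100) := Real.exp_pos _
  rw [big_eq _ q0]
  refine ⟨_root_.H84D.mom_meas _ _ _ _, ?_⟩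
  set j : ℕ := ⌈2 * LL X ^ (17 / 20 : ℝ)⌉₊ with hj
  have j1 : 2 * LL X ^ (17 / 20 : ℝ) ≤ j := Nat.le_ceil _
  have j2 : (j : ℝ) ≤ 3 * LL X ^ (17 / 20 : ℝ) := by
    have := Nat.ceil_lt_add_one (show 0 ≤ 2 * LL X ^ (17 / 20 : ℝ) by linarith); linarith
  have j3 : (j : ℝ) ≤ LL X := by nlinarith
  have b : (X : ℝ) ≤ (Y1 X : ℝ) ^ j := by
    refine le_trans ?_ (pow_le_pow_left₀ (Real.exp_pos _).le a j)
    rw [← Real.exp_nat_mul, ← Real.exp_log (show (0 : ℝ) < X by positivity), Real.exp_le_exp]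
    change LL X ≤ _
    nlinarith
  have c : (#(J.image (· + 4)) : ℝ) ≤ Y1 X := by
    have : J.image (· + 4) ⊆ Icc 1 (Y1 X) := fun n hn => by
      obtain ⟨q, hq, rfl⟩ := mem_image.1 hn
      exact mem_Icc.2 ⟨by omega, (hJ q hq).1⟩
    exact_mod_cast (card_le_card this).trans (by simp)
  refine (_root_.H84D.mom' (Y := Y1 X) (s := s) j (by simp) (fun n hn => ?_) (fun n hn => ?_)
    (fun n _ => by simp) (by exact_mod_cast x2) (by positivity)).trans ?_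
  · obtain ⟨q, hq, rfl⟩ := mem_image.1 hn
    exact_mod_cast (hJ q hq).1
  · obtain ⟨q, hq, rfl⟩ := mem_image.1 hn
    exact (hJ q hq).2
  have d : Y1 X / LL X ≤ nq := by rwa [div_le_iff₀' l0]
  calc _ ≤ 72 * ((Y1 X : ℝ) ^ j + (Y1 X : ℝ) ^ j) * LL X ^ (s * j) * (Y1 X : ℝ) ^ j /
        (1 / EE X (13 / 100) ^ 3 * (Y1 X / LL X)) ^ (2 * j) := by gcongr
    _ = 144 * (LL X ^ (s + 2) * EE X (13 / 100) ^ 6) ^ j := by
        simp only [pow_mul, mul_pow, div_pow, pow_add]; field_simp; ring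
    _ ≤ 144 * (EE X (13 / 100) * EE X (13 / 100) ^ 6) ^ j := by gcongr; exact h3
    _ = 144 * Real.exp (j * (7 * LL X ^ (13 / 100 : ℝ))) := by
        rw [← pow_succ', EE, ← Real.exp_nat_mul, ← Real.exp_nat_mul]; norm_num
    _ ≤ 144 * Real.exp (21 * LL X ^ (98 / 100 : ℝ)) := by
        have : 0 < LL X ^ (13 / 100 : ℝ) := by positivity
        exact mul_le_mul_of_nonneg_left (Real.exp_le_exp.2 (by nlinarith)) (by norm_num)
    _ ≤ _ := h4.trans (le_of_eq (by ring_nf))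

theorem hm3 : HM3_s := fun C s => ⟨4, by
  filter_upwards [big_vol s, mpar, par_nat (eventually_ge_atTop (4096 * (C + 2 : ℝ) ^ 2))]
    with X hv ⟨h2, h3, h1, h4⟩ hL d c N N' nq J hN hC hX hJ hq
  change _ ≤ LL X at hL
  obtain ⟨hm, hv⟩ := hv nq J hJ hq
  have n0 : 0 < N := Nat.pos_of_ne_zero fun e => by rw [e] at hN; omega
  have l0 : 0 ≤ LL X := by linarith
  rcases le_or_gt N' N with h | h
  · have : PC N N' d c = ∅ := card_eq_zero.1 (by have := card_PC N N' d c; omega)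
    simp only [D3, this, sum_empty, norm_zero]
    simpa using by positivity
  have w := d3_wt (d := d) (c := c) n0 hX
  have y1 : X ≤ (N' + 2) ^ 2 := hN.trans (Nat.pow_le_pow_left (by omega) 2)
  have y2 : 2 * X ≤ (N' + 2) ^ 7 :=
    calc 2 * X ≤ (N' + 2) ^ 5 * (N' + 2) ^ 2 :=
          Nat.mul_le_mul (le_trans (by omega) (Nat.le_self_pow (by norm_num) _)) y1
      _ = _ := by ring
  refine (hm_gen _ _ (fun p hp => (w p hp).1) (fun p hp => (w p hp).2) (by omega) (R := X)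
    (by exact_mod_cast y2) hm fun t ht => abs_le.1 ht.1).trans ?_
  set Y : ℕ := N' + 2 with hY
  have y0 : (0 : ℝ) < Y := by positivity
  have y3 : Real.log Y ≤ 2 * LL X := by
    have := log_le_LL (show 0 < Y by positivity) (show Y ≤ X ^ 2 by nlinarith)
    rwa [LL, Nat.cast_pow, Real.log_pow] at this
  have y4 : LL X ≤ 2 * Real.log Y := by
    have := log_le_LL (show 0 < X by omega) y1
    rwa [LL, Nat.cast_pow, Real.log_pow] at this
  have y5 : Real.exp (LL X / 51200) * (Y : ℝ) ^ (1 - 1 / 25600 : ℝ) ≤ Y := by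
    rw [Real.rpow_def_of_pos y0, ← Real.exp_add]
    exact (Real.exp_le_exp.2 (by linarith)).trans (Real.exp_log y0).le
  have p3 : (0 : ℝ) < N := by exact_mod_cast n0
  have y6 : (Y : ℝ) ≤ (C + 2) * N := by exact_mod_cast (show Y ≤ (C + 2) * N by nlinarith)
  have k : (#(PC N N' d c) : ℝ) ≤ (C + 2) * N := by
    refine le_trans ?_ y6
    exact_mod_cast (card_PC _ _ d c).trans (by omega)
  have y7 := Real.log_natCast_nonneg Y
  have y8 : Y * (1 + Real.log Y) + volume.real {t : ℝ | |t| ≤ X ∧ 1 / EE X (13 / 100) ^ 3 ≤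
      ‖AA nq J t‖} * (Y : ℝ) ^ (1 - 1 / 25600 : ℝ) ≤ (C + 2) * N * (4 * LL X) := by
    have := mul_le_mul_of_nonneg_right hv (Real.rpow_nonneg y0.le (1 - 1 / 25600))
    have := mul_le_mul_of_nonneg_right y6 (show 0 ≤ 4 * LL X by linarith)
    nlinarith
  calc _ ≤ 1024 * ((LL X / N) ^ 2 * ((C + 2) * N)) * ((C + 2) * N * (4 * LL X)) := by gcongr
    _ = 4096 * (C + 2) ^ 2 * LL X ^ 3 := by field_simp; ring
    _ ≤ LL X * LL X ^ 3 := by gcongr
    _ = _ := by ring⟩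

end Pool.Agent.H84D.MM
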