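import Mathlib

set_option autoImplicit false

namespace Pool.Agent.H84D

open Finset Complex MeasureTheory

theorem pc_ne {c : ℝ} (hc : 0 < c) (t : ℝ) : (c : ℂ) + t * I ≠ 0 := fun h => by
  have := congrArg Complex.re h
  simp at this
  exact hc.ne' this

theorem pc_sq (c t : ℝ) : ‖(c : ℂ) + t * I‖ ^ 2 = c ^ 2 + t ^ 2 := by
  rw [Complex.sq_norm, Complex.normSq_apply]
  simp
  ring

/-- the kernel `1 / (s (s+1))` at `s = c + i t` -/
noncomputable def pcK (s : ℂ) : ℂ := 1 / (s * (s + 1))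

theorem pcK_le {c : ℝ} (hc : 0 < c) (t : ℝ) : ‖pcK (c + t * I)‖ ≤ (c ^ 2 + t ^ 2)⁻¹ := by
  have h1 := pc_sq c t
  have h2 := pc_sq (c + 1) t
  have e : (c : ℂ) + t * I + 1 = ((c + 1 : ℝ) : ℂ) + t * I := by push_cast; ring
  rw [pcK, norm_div, norm_one, norm_mul, one_div, e]
  refine inv_anti₀ (by positivity) ?_
  have h4 := (sq_le_sq₀ (norm_nonneg _) (norm_nonneg _)).1 (by rw [h1, h2]; nlinarith :
    ‖(c : ℂ) + t * I‖ ^ 2 ≤ ‖((c + 1 : ℝ) : ℂ) + t * I‖ ^ 2)
  have h5 := mul_le_mul_of_nonneg_left h4 (norm_nonneg ((c : ℂ) + t * I))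
  nlinarith

theorem pcK_le4 {c : ℝ} (hc : 1 / 2 ≤ c) (t : ℝ) : ‖pcK (c + t * I)‖ ≤ 4 * (1 + t ^ 2)⁻¹ := by
  refine (pcK_le (by linarith) t).trans ?_
  rw [← div_eq_mul_inv, inv_eq_one_div, div_le_div_iff₀ (by positivity) (by positivity)]
  nlinarith [sq_nonneg t]

theorem pcK_cont {c : ℝ} (hc : 0 < c) : Continuous fun t : ℝ => pcK (c + t * I) := by
  refine Continuous.div continuous_const (by fun_prop) fun t => mul_ne_zero (pc_ne hc t) ?_
  have e : (c : ℂ) + t * I + 1 = ((c + 1 : ℝ) : ℂ) + t * I := by push_cast; ring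
  rw [e]
  exact pc_ne (by linarith) t

theorem pcK_int {c : ℝ} (hc : 1 / 2 ≤ c) : Integrable fun t : ℝ => pcK (c + t * I) :=
  (integrable_inv_one_add_sq.const_mul 4).mono' (pcK_cont (by linarith)).aestronglyMeasurable
    (Filter.Eventually.of_forall (pcK_le4 hc))

open scoped FourierTransform in
theorem pc_kernel {c : ℝ} (hc : 1 / 2 ≤ c) (u : ℝ) :
    ∫ t : ℝ, pcK (c + t * I) * cexp (-(t * I * u)) =
      2 * Real.pi * if u ≤ 0 then cexp (c * u) - cexp ((c + 1) * u) else 0 := by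
  have c0 : 0 < c := by linarith
  set φ : ℝ → ℂ := fun ξ => pcK (c + (-(2 * Real.pi) * ξ : ℝ) * I) with hφ
  set V : ℝ → ℂ := fun u => if u ≤ 0 then cexp (c * u) - cexp ((c + 1) * u) else 0 with hV
  have p0 : -(2 * Real.pi) ≠ 0 := neg_ne_zero.2 Real.two_pi_pos.ne'
  have φi : Integrable φ := (pcK_int hc).comp_mul_left' p0
  have Vc : Continuous V := Continuous.if_le (by fun_prop) continuous_const continuous_id
    continuous_const fun x hx => by simp [show x = 0 from hx]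
  have Vi : Integrable V := by
    have e : V = Set.indicator (Set.Iic 0) fun u : ℝ => cexp (c * u) - cexp ((c + 1) * u) := by
      ext u
      simp [hV, Set.indicator_apply]
    rw [e, integrable_indicator_iff measurableSet_Iic]
    exact (integrableOn_exp_mul_complex_Iic (by simpa using c0) 0).sub
      (integrableOn_exp_mul_complex_Iic (by simp; linarith) 0)
  have hF : 𝓕 V = φ := by
    ext ξ
    have e : ∀ v : ℝ, cexp (↑(-2 * Real.pi * v * ξ) * I) • V v =
        Set.indicator (Set.Iic 0) (fun v : ℝ =>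
          cexp (((c : ℂ) + (-(2 * Real.pi) * ξ : ℝ) * I) * v) -
            cexp (((c : ℂ) + (-(2 * Real.pi) * ξ : ℝ) * I + 1) * v)) v := by
      intro v
      simp only [hV, Set.indicator_apply, Set.mem_Iic]
      split_ifs
      · rw [smul_eq_mul, mul_sub, ← Complex.exp_add, ← Complex.exp_add]
        congr 2 <;> push_cast <;> ring
      · simp
    have r1 : 0 < ((c : ℂ) + (-(2 * Real.pi) * ξ : ℝ) * I).re := by simpa using c0
    have r2 : 0 < ((c : ℂ) + (-(2 * Real.pi) * ξ : ℝ) * I + 1).re := by simp; linarith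
    have n1 : (c : ℂ) + (-(2 * Real.pi) * ξ : ℝ) * I ≠ 0 := fun h => by
      rw [h] at r1; simp at r1
    have n2 : (c : ℂ) + (-(2 * Real.pi) * ξ : ℝ) * I + 1 ≠ 0 := fun h => by
      rw [h] at r2; simp at r2
    rw [Real.fourier_real_eq_integral_exp_smul]
    simp only [e]
    rw [integral_indicator measurableSet_Iic, integral_sub (integrableOn_exp_mul_complex_Iic r1 0)
      (integrableOn_exp_mul_complex_Iic r2 0), integral_exp_mul_complex_Iic r1,
      integral_exp_mul_complex_Iic r2, Complex.ofReal_zero, mul_zero, mul_zero, Complex.exp_zero,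
      div_sub_div _ _ n1 n2]
    simp only [hφ, pcK]
    congr 1
    ring
  have inv := congrFun (Vc.fourierInv_fourier_eq Vi (hF ▸ φi)) u
  rw [hF, Real.fourierInv_eq'] at inv
  have h2 := Measure.integral_comp_mul_left
    (fun t : ℝ => pcK (c + t * I) * cexp (-(t * I * u))) (-(2 * Real.pi))
  have h3 : ∫ x : ℝ, pcK (c + (-(2 * Real.pi) * x : ℝ) * I) *
      cexp (-((-(2 * Real.pi) * x : ℝ) * I * u)) = V u := by
    refine Eq.trans (integral_congr_ae (Filter.Eventually.of_forall fun ξ => ?_)) inv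
    simp only [smul_eq_mul, RCLike.inner_apply, conj_trivial, hφ]
    rw [mul_comm]
    congr 2
    push_cast
    ring
  rw [h3, abs_inv, abs_neg, abs_of_pos Real.two_pi_pos] at h2
  have q0 : (2 * Real.pi : ℂ) ≠ 0 := by exact_mod_cast Real.two_pi_pos.ne'
  change _ = 2 * Real.pi * V u
  rw [h2, Complex.real_smul]
  push_cast
  exact (mul_inv_cancel_left₀ q0 _).symm

theorem pc_term (b : ℕ → ℂ) (s : ℂ) {n : ℕ} (hn : n ≠ 0) :
    LSeries.term b s n = b n * cexp (-(s * Real.log n)) := by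
  rw [LSeries.term_of_ne_zero hn, Complex.cpow_def_of_ne_zero (Nat.cast_ne_zero.2 hn),
    Complex.exp_neg, div_eq_mul_inv, Complex.natCast_log, mul_comm s]

theorem pc_nterm (b : ℕ → ℂ) (c t : ℝ) (n : ℕ) :
    ‖LSeries.term b (c + t * I) n‖ = ‖LSeries.term b c n‖ := by
  simp [LSeries.norm_term_eq]

theorem pc_nexp (s : ℂ) {x : ℝ} (hx : 0 < x) : ‖cexp (s * Real.log x)‖ = x ^ s.re := by
  rw [Complex.norm_exp, Real.rpow_def_of_pos hx, mul_comm (Real.log x)]
  simp

theorem pc_Lle (b : ℕ → ℂ) {c : ℝ} (hs : LSeriesSummable b c) (t : ℝ) :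
    ‖LSeries b (c + t * I)‖ ≤ ∑' n, ‖LSeries.term b c n‖ := by
  have h : Summable fun n => ‖LSeries.term b (c + t * I) n‖ := by
    simp only [pc_nterm]; exact hs.norm
  refine (norm_tsum_le_tsum_norm h).trans (le_of_eq ?_)
  simp only [pc_nterm]

theorem pc_tcont (b : ℕ → ℂ) (c : ℝ) (n : ℕ) :
    Continuous fun t : ℝ => LSeries.term b (c + t * I) n := by
  rcases eq_or_ne n 0 with rfl | hn
  · simpa using continuous_const
  · simp only [pc_term b _ hn]
    fun_prop

theorem pc_Lcont (b : ℕ → ℂ) {c : ℝ} (hs : LSeriesSummable b c) :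
    Continuous fun t : ℝ => LSeries b (c + t * I) :=
  continuous_tsum (pc_tcont b c) hs.norm fun n t => (pc_nterm b c t n).le

theorem pc_perron (b : ℕ → ℂ) {c : ℝ} (hc : 1 / 2 ≤ c) (hs : LSeriesSummable b c) {x : ℕ}
    (hx' : 0 < x) :
    ∫ t : ℝ, pcK (c + t * I) * cexp ((c + t * I) * Real.log x) * LSeries b (c + t * I) =
      2 * Real.pi * ∑ n ∈ Icc 1 x, b n * (1 - n / x) := by
  have hx : (0 : ℝ) < x := by exact_mod_cast hx'
  set F : ℕ → ℝ → ℂ := fun n t =>
    pcK (c + t * I) * cexp ((c + t * I) * Real.log x) * LSeries.term b (c + t * I) n with hF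
  have nF : ∀ n t, ‖F n t‖ = (x : ℝ) ^ c * ‖LSeries.term b c n‖ * ‖pcK (c + t * I)‖ :=
    fun n t => by
      simp only [hF, norm_mul, pc_nterm, pc_nexp _ hx]
      simp
      ring
  have cF : ∀ n, Continuous (F n) := fun n =>
    ((pcK_cont (by linarith)).mul (by fun_prop)).mul (pc_tcont b c n)
  have iF : ∀ n, Integrable (F n) := fun n =>
    ((pcK_int hc).norm.const_mul _).mono' (cF n).aestronglyMeasurable
      (Filter.Eventually.of_forall fun t => (nF n t).le)
  have sF : Summable fun n => ∫ t, ‖F n t‖ := by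
    simp only [nF, integral_const_mul]
    exact (hs.norm.mul_left _).mul_right _
  have h1 := hasSum_integral_of_summable_integral_norm iF sF
  have x0 : (x : ℂ) ≠ 0 := by exact_mod_cast hx.ne'
  have eF : ∀ n, ∫ t, F n t = if n ∈ Icc 1 x then 2 * Real.pi * (b n * (1 - n / x)) else 0 :=
    fun n => by
      rcases eq_or_ne n 0 with rfl | hn
      · simp [hF]
      have hn0 : (0 : ℝ) < n := by exact_mod_cast Nat.pos_of_ne_zero hn
      have e : ∀ t : ℝ, F n t = b n * cexp (-(c * Real.log (n / x))) *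
          (pcK (c + t * I) * cexp (-(t * I * Real.log (n / x)))) := fun t => by
        simp only [hF, pc_term b _ hn]
        rw [Real.log_div hn0.ne' hx.ne', Complex.ofReal_sub]
        have : cexp ((c + t * I) * Real.log x) * cexp (-((c + t * I) * Real.log n)) =
            cexp (-(c * (Real.log n - Real.log x))) *
              cexp (-(t * I * (Real.log n - Real.log x))) := by
          rw [← Complex.exp_add, ← Complex.exp_add]
          congr 1
          ring
        linear_combination b n * pcK (c + t * I) * this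
      simp only [e]
      rw [integral_const_mul, pc_kernel hc]
      by_cases h : n ≤ x
      · have h3 : Real.log (n / x) ≤ 0 :=
          Real.log_nonpos (by positivity) ((div_le_one hx).2 (by exact_mod_cast h))
        have e1 : cexp (Real.log (n / x) : ℝ) = n / x := by
          rw [← Complex.ofReal_exp, Real.exp_log (by positivity)]; push_cast; rfl
        have e2 : cexp (-(c * Real.log (n / x))) * cexp (c * Real.log (n / x)) = 1 := by
          rw [← Complex.exp_add]; simp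
        rw [if_pos h3, if_pos (mem_Icc.2 ⟨Nat.pos_of_ne_zero hn, h⟩), add_mul, one_mul,
          Complex.exp_add, e1]
        linear_combination 2 * Real.pi * b n * (1 - n / x) * e2
      · have h3 : 0 < Real.log (n / x) :=
          Real.log_pos ((one_lt_div hx).2 (by exact_mod_cast not_le.1 h))
        rw [if_neg (not_le.2 h3), if_neg (fun h' => h (mem_Icc.1 h').2)]
        simp
  simp only [eF] at h1
  have h2 : HasSum (fun n : ℕ => if n ∈ Icc 1 x then 2 * Real.pi * (b n * (1 - n / x)) else 0)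
      (∑ n ∈ Icc 1 x, if n ∈ Icc 1 x then (2 * Real.pi * (b n * (1 - n / x)) : ℂ) else 0) :=
    hasSum_sum_of_ne_finset_zero fun n hn => if_neg hn
  rw [sum_congr rfl fun n hn => if_pos hn, ← mul_sum] at h2
  rw [h2.unique h1]
  simp only [hF, tsum_mul_left]
  rfl

theorem pc_tail (g : ℝ → ℂ) {K T : ℝ} (hT : 0 < T) (h : ∀ t, T < t → ‖g t‖ ≤ K * (t ^ 2)⁻¹) :
    ‖∫ t in Set.Ioi T, g t‖ ≤ K / T := by
  have h1 := (integrableOn_Ioi_rpow_of_lt (a := -2) (by norm_num) hT).const_mul K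
  refine (norm_integral_le_of_norm_le h1 ?_).trans (le_of_eq ?_)
  · refine (ae_restrict_iff' measurableSet_Ioi).2 (Filter.Eventually.of_forall fun t ht => ?_)
    refine (h t ht).trans (le_of_eq ?_)
    rw [Real.rpow_neg (hT.trans ht).le, Real.rpow_two]
  · rw [integral_const_mul, integral_Ioi_rpow_of_lt (by norm_num) hT,
      show (-2 : ℝ) + 1 = -1 by norm_num, Real.rpow_neg_one]
    field_simp

theorem pc_trunc (g : ℝ → ℂ) (hg : Integrable g) {K T : ℝ} (hT : 0 < T)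
    (h : ∀ t, T < |t| → ‖g t‖ ≤ K * (t ^ 2)⁻¹) :
    ‖∫ t, g t‖ ≤ ‖∫ t in (-T)..T, g t‖ + 2 * (K / T) := by
  have h1 := intervalIntegral.integral_Iic_add_Ioi (b := -T) hg.integrableOn hg.integrableOn
  have h2 := intervalIntegral.integral_interval_add_Ioi (a := -T) (b := T) hg.integrableOn
    hg.integrableOn
  have h3 := pc_tail g hT fun t ht => h t (ht.trans_le (le_abs_self t))
  have h4 := pc_tail (fun t => g (-t)) (K := K) hT fun t ht => by
    have := h (-t) (by rw [abs_neg]; exact ht.trans_le (le_abs_self t))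
    rwa [neg_sq] at this
  rw [integral_comp_neg_Ioi] at h4
  rw [← h1, ← h2]
  have h5 := norm_add_le (∫ t in Set.Iic (-T), g t)
    ((∫ t in (-T)..T, g t) + ∫ t in Set.Ioi T, g t)
  have h6 := norm_add_le (∫ t in (-T)..T, g t) (∫ t in Set.Ioi T, g t)
  linarith

/-- rectangle shift -/
theorem pc_rect (G : ℂ → ℂ) {a c T K₁ K₂ : ℝ} (hac : a ≤ c) (hT : 0 < T) (hK : 0 ≤ K₁)
    (hG : ∀ s : ℂ, a ≤ s.re → s.re ≤ c → |s.im| ≤ T → DifferentiableAt ℂ G s)
    (h1 : ∀ t : ℝ, |t| ≤ T → ‖G (a + t * I)‖ ≤ K₁ * (1 + t ^ 2)⁻¹)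
    (h2 : ∀ σ t : ℝ, a ≤ σ → σ ≤ c → |t| = T → ‖G (σ + t * I)‖ ≤ K₂) :
    ‖∫ t in (-T)..T, G (c + t * I)‖ ≤ K₁ * Real.pi + 2 * (K₂ * (c - a)) := by
  have hTT : -T ≤ T := by linarith
  have h := Complex.integral_boundary_rect_eq_zero_of_differentiableOn G ⟨a, -T⟩ ⟨c, T⟩
    (fun s hs => by
      rw [Complex.mem_reProdIm, Set.uIcc_of_le hac, Set.uIcc_of_le hTT] at hs
      exact (hG s hs.1.1 hs.1.2 (abs_le.2 hs.2)).differentiableWithinAt)
  simp only [smul_eq_mul] at h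
  have hb : ∀ t : ℝ, |t| = T → ‖∫ σ in a..c, G (σ + t * I)‖ ≤ K₂ * (c - a) := fun t ht => by
    have := intervalIntegral.norm_integral_le_of_norm_le_const (a := a) (b := c) (C := K₂)
      (f := fun σ : ℝ => G (σ + t * I)) fun σ hσ => by
        rw [Set.uIoc_of_le hac] at hσ
        exact h2 σ t hσ.1.le hσ.2 ht
    rwa [abs_of_nonneg (sub_nonneg.2 hac)] at this
  have b1 := hb (-T) (by rw [abs_neg, abs_of_pos hT])
  have b2 := hb T (abs_of_pos hT)
  have b3 : ‖∫ t in (-T)..T, G (a + t * I)‖ ≤ K₁ * Real.pi := by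
    have hi := integrable_inv_one_add_sq.const_mul K₁
    refine (intervalIntegral.norm_integral_le_of_norm_le hTT
      (Filter.Eventually.of_forall fun t ht => h1 t (abs_le.2 ⟨ht.1.le, ht.2⟩))
      hi.intervalIntegrable).trans ?_
    rw [intervalIntegral.integral_of_le hTT, ← integral_univ_inv_one_add_sq, ← integral_const_mul]
    exact setIntegral_le_integral hi (Filter.Eventually.of_forall fun t => by positivity)
  have e : I * ∫ t in (-T)..T, G (c + t * I) = I * (∫ t in (-T)..T, G (a + t * I)) -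
      (∫ σ in a..c, G (σ + (-T : ℝ) * I)) + ∫ σ in a..c, G (σ + T * I) := by
    linear_combination h
  have e2 : ‖∫ t in (-T)..T, G (c + t * I)‖ = ‖I * ∫ t in (-T)..T, G (c + t * I)‖ := by simp
  rw [e2, e]
  refine (norm_add_le _ _).trans ?_
  have := norm_sub_le (I * ∫ t in (-T)..T, G (a + t * I)) (∫ σ in a..c, G (σ + (-T : ℝ) * I))
  rw [norm_mul, Complex.norm_I, one_mul] at this
  linarith

theorem pc_riesz (b : ℕ → ℂ) (F : ℂ → ℂ) {δ η T M B : ℝ} (hδ : 0 < δ) (hδ1 : δ ≤ 1 / 2)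
    (hη : 0 < η) (hη1 : η ≤ 1 / 2) (hT : 1 ≤ T)
    (hs : LSeriesSummable b (1 + δ : ℝ))
    (hB : ∑' n, ‖LSeries.term b (1 + δ : ℝ) n‖ ≤ B)
    (hF : ∀ s : ℂ, 1 - η ≤ s.re → s.re ≤ 1 + δ → |s.im| ≤ T →
      DifferentiableAt ℂ F s ∧ ‖F s‖ ≤ M)
    (hE : ∀ s : ℂ, s.re = 1 + δ → |s.im| ≤ T → F s = LSeries b s) {x : ℕ} (hx' : 0 < x) :
    ‖∑ n ∈ Icc 1 x, b n * (1 - n / x)‖ ≤
      2 * M * (x : ℝ) ^ (1 - η) + (M + B) / T * (x : ℝ) ^ (1 + δ) := by
  have hx : (0 : ℝ) < x := by exact_mod_cast hx'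
  have hx1 : (1 : ℝ) ≤ x := by exact_mod_cast hx'
  have T0 : 0 < T := by linarith
  have hc : 1 / 2 ≤ 1 + δ := by linarith
  have M0 : 0 ≤ M := (norm_nonneg _).trans
    (hF 1 (by simp; linarith) (by simp; linarith) (by simp; linarith)).2
  have B0 : 0 ≤ B := (tsum_nonneg fun n => norm_nonneg _).trans hB
  have X0 : 0 ≤ (x : ℝ) ^ (1 + δ) := by positivity
  have Y0 : 0 ≤ (x : ℝ) ^ (1 - η) := by positivity
  set g : ℝ → ℂ := fun t => pcK ((1 + δ : ℝ) + t * I) * cexp (((1 + δ : ℝ) + t * I) * Real.log x) *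
    LSeries b ((1 + δ : ℝ) + t * I) with hg
  have ng : ∀ t, ‖g t‖ ≤ (x : ℝ) ^ (1 + δ) * B * ‖pcK ((1 + δ : ℝ) + t * I)‖ := fun t => by
    have h1 := (pc_Lle b hs t).trans hB
    have h2 : (((1 + δ : ℝ) : ℂ) + t * I).re = 1 + δ := by simp
    simp only [hg, norm_mul, pc_nexp _ hx, h2]
    refine (mul_le_mul_of_nonneg_left h1 (by positivity)).trans (le_of_eq ?_)
    ring
  have gi : Integrable g :=
    ((pcK_int hc).norm.const_mul _).mono'
      (((pcK_cont (by linarith)).mul (by fun_prop)).mul (pc_Lcont b hs)).aestronglyMeasurable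
      (Filter.Eventually.of_forall ng)
  have t1 := pc_trunc g gi (K := (x : ℝ) ^ (1 + δ) * B) T0 fun t ht => by
    refine (ng t).trans (mul_le_mul_of_nonneg_left ((pcK_le (by linarith) t).trans ?_)
      (by positivity))
    have : 0 < t ^ 2 := by rw [← sq_abs]; exact pow_pos (T0.trans ht) 2
    exact inv_anti₀ this (by nlinarith)
  set G : ℂ → ℂ := fun s => pcK s * cexp (s * Real.log x) * F s with hG
  have nG : ∀ σ t : ℝ, 1 - η ≤ σ → σ ≤ 1 + δ → |t| ≤ T →
      ‖G (σ + t * I)‖ ≤ (x : ℝ) ^ σ * M * ‖pcK (σ + t * I)‖ := fun σ t h1 h2 h3 => by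
    have h4 : ((σ : ℂ) + t * I).re = σ := by simp
    have h5 := (hF (σ + t * I) (by rwa [h4]) (by rwa [h4]) (by simpa using h3)).2
    simp only [hG, norm_mul, pc_nexp _ hx, h4]
    refine (mul_le_mul_of_nonneg_left h5 (by positivity)).trans (le_of_eq ?_)
    ring
  have t2 := pc_rect G (a := 1 - η) (c := 1 + δ) (K₁ := (x : ℝ) ^ (1 - η) * M * 4)
    (K₂ := (x : ℝ) ^ (1 + δ) * M / T) (by linarith) T0 (by positivity)
    (fun s h1 h2 h3 => by
      have n1 : s ≠ 0 := fun h => by rw [h] at h1; simp at h1; linarith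
      have n2 : s + 1 ≠ 0 := fun h => by
        have := congrArg Complex.re h
        simp at this
        linarith
      refine DifferentiableAt.mul (DifferentiableAt.mul ?_ (by fun_prop)) (hF s h1 h2 h3).1
      exact DifferentiableAt.div (by fun_prop) (by fun_prop) (mul_ne_zero n1 n2))
    (fun t ht => by
      refine (nG _ t le_rfl (by linarith) ht).trans ?_
      rw [mul_assoc _ 4]
      exact mul_le_mul_of_nonneg_left (pcK_le4 (by linarith) t) (by positivity))
    (fun σ t h1 h2 ht => by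
      refine (nG σ t h1 h2 ht.le).trans ?_
      rw [div_eq_mul_inv]
      refine mul_le_mul (mul_le_mul_of_nonneg_right (Real.rpow_le_rpow_of_exponent_le hx1 h2) M0)
        ((pcK_le (by linarith) t).trans (inv_anti₀ T0 ?_)) (norm_nonneg _) (by positivity)
      rw [← sq_abs t, ht]
      nlinarith)
  have e : ∫ t in (-T)..T, g t = ∫ t in (-T)..T, G ((1 + δ : ℝ) + t * I) := by
    refine intervalIntegral.integral_congr fun t ht => ?_
    rw [Set.uIcc_of_le (by linarith)] at ht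
    simp only [hg, hG]
    rw [hE _ (by simp) (by simpa using abs_le.2 ht)]
  rw [e, hg, pc_perron b hc hs hx', norm_mul] at t1
  have e2 : ‖(2 * Real.pi : ℂ)‖ = 2 * Real.pi := by
    simp [Real.pi_pos.le]
  rw [e2] at t1
  have p3 := Real.pi_gt_three
  have q1 : 0 ≤ (x : ℝ) ^ (1 + δ) * M / T := by positivity
  have q2 : 0 ≤ (x : ℝ) ^ (1 + δ) * B / T := by positivity
  have e3 : (M + B) / T * (x : ℝ) ^ (1 + δ) =
      (x : ℝ) ^ (1 + δ) * M / T + (x : ℝ) ^ (1 + δ) * B / T := by ring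
  rw [e3]
  refine le_of_mul_le_mul_left ?_ Real.two_pi_pos
  have q3 := mul_le_mul_of_nonneg_left (show 1 + δ - (1 - η) ≤ 1 by linarith) q1
  nlinarith [mul_nonneg q1 (show 0 ≤ Real.pi - 1 by linarith),
    mul_nonneg q2 (show 0 ≤ Real.pi - 1 by linarith)]

theorem pc_diff (b : ℕ → ℂ) (y h : ℕ) :
    (h : ℂ) * ∑ n ∈ Icc 1 y, b n = ∑ n ∈ Icc 1 (y + h), b n * ((y + h : ℕ) - n) -
      ∑ n ∈ Icc 1 y, b n * (y - n) - ∑ n ∈ Ioc y (y + h), b n * ((y + h : ℕ) - n) := by
  have e : ∀ m : ℕ, Icc 1 m = Ioc 0 m := fun m => by ext k; simp; omega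
  rw [e, e, ← sum_Ioc_consecutive _ (Nat.zero_le y) (Nat.le_add_right y h), mul_sum]
  have : ∑ n ∈ Ioc 0 y, b n * (((y + h : ℕ) : ℂ) - n) =
      ∑ n ∈ Ioc 0 y, (h : ℂ) * b n + ∑ n ∈ Ioc 0 y, b n * (y - n) := by
    rw [← sum_add_distrib]
    refine sum_congr rfl fun n _ => ?_
    push_cast
    ring
  rw [this]
  ring

/-- Smoothed Perron formula + rectangle shift + differencing (parameter-free). -/
theorem psC (b : ℕ → ℂ) (F : ℂ → ℂ) {δ η T M B D : ℝ} (hδ : 0 < δ) (hδ1 : δ ≤ 1 / 2)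
    (hη : 0 < η) (hη1 : η ≤ 1 / 2) (hT : 1 ≤ T)
    (hs : LSeriesSummable b (1 + δ : ℝ))
    (hB : ∑' n, ‖LSeries.term b (1 + δ : ℝ) n‖ ≤ B)
    (hF : ∀ s : ℂ, 1 - η ≤ s.re → s.re ≤ 1 + δ → |s.im| ≤ T →
      DifferentiableAt ℂ F s ∧ ‖F s‖ ≤ M)
    (hE : ∀ s : ℂ, s.re = 1 + δ → |s.im| ≤ T → F s = LSeries b s)
    {y h : ℕ} (h0 : 0 < h) (hy : h ≤ y) (hD : ∀ n ≤ 2 * y, ‖b n‖ ≤ D) :
    ‖∑ n ∈ Icc 1 y, b n‖ ≤
      8 * (y : ℝ) ^ 2 / h * (2 * M * (y : ℝ) ^ (-η) + (M + B) / T * (2 * y : ℝ) ^ δ) + h * D := by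
  have y0 : (0 : ℝ) < y := by exact_mod_cast h0.trans_le hy
  have hh : (0 : ℝ) < h := by exact_mod_cast h0
  have M0 : 0 ≤ M := (norm_nonneg _).trans
    (hF 1 (by simp; linarith) (by simp; linarith) (by simp; linarith)).2
  have B0 : 0 ≤ B := (tsum_nonneg fun n => norm_nonneg _).trans hB
  have D0 : 0 ≤ D := (norm_nonneg _).trans (hD 0 (Nat.zero_le _))
  set E := 2 * M * (y : ℝ) ^ (-η) + (M + B) / T * (2 * y : ℝ) ^ δ with hEE
  have R : ∀ x : ℕ, y ≤ x → x ≤ 2 * y → ‖∑ n ∈ Icc 1 x, b n * (x - n)‖ ≤ 4 * (y : ℝ) ^ 2 * E :=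
    fun x h1 h2 => by
      have x0 : 0 < x := (h0.trans_le hy).trans_le h1
      have hx : (0 : ℝ) < x := by exact_mod_cast x0
      have h1' : (y : ℝ) ≤ x := by exact_mod_cast h1
      have h2' : (x : ℝ) ≤ 2 * y := by exact_mod_cast h2
      have xc : (x : ℂ) ≠ 0 := by exact_mod_cast hx.ne'
      have e : ∑ n ∈ Icc 1 x, b n * ((x : ℂ) - n) = x * ∑ n ∈ Icc 1 x, b n * (1 - n / x) := by
        rw [mul_sum]
        refine sum_congr rfl fun n _ => ?_
        field_simp
      have r := pc_riesz b F hδ hδ1 hη hη1 hT hs hB hF hE x0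
      rw [sub_eq_add_neg 1 η, Real.rpow_add hx, Real.rpow_add hx, Real.rpow_one] at r
      have a1 : (x : ℝ) ^ (-η) ≤ (y : ℝ) ^ (-η) :=
        Real.rpow_le_rpow_of_nonpos y0 h1' (by linarith)
      have a2 : (x : ℝ) ^ δ ≤ (2 * y : ℝ) ^ δ := Real.rpow_le_rpow hx.le h2' hδ.le
      have a3 : 2 * M * (x : ℝ) ^ (-η) + (M + B) / T * (x : ℝ) ^ δ ≤ E := by
        rw [hEE]
        have : 0 ≤ (M + B) / T := by positivity
        gcongr
      have a4 : 0 ≤ 2 * M * (x : ℝ) ^ (-η) + (M + B) / T * (x : ℝ) ^ δ := by positivity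
      rw [e, norm_mul, Complex.norm_natCast]
      calc _ ≤ x * (x * (2 * M * (x : ℝ) ^ (-η) + (M + B) / T * (x : ℝ) ^ δ)) :=
            mul_le_mul_of_nonneg_left (r.trans (le_of_eq (by ring))) hx.le
        _ ≤ (2 * y) * ((2 * y) * E) := by gcongr
        _ = _ := by ring
  have r1 := R y le_rfl (by omega)
  have r2 := R (y + h) (by omega) (by omega)
  have r3 : ‖∑ n ∈ Ioc y (y + h), b n * (((y + h : ℕ) : ℂ) - n)‖ ≤ h * (D * h) := by
    refine (norm_sum_le _ _).trans ((sum_le_card_nsmul _ _ (D * h) fun n hn => ?_).trans ?_)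
    · obtain ⟨h1, h2⟩ := mem_Ioc.1 hn
      rw [norm_mul, ← Nat.cast_sub h2, Complex.norm_natCast]
      exact mul_le_mul (hD n (by omega)) (by exact_mod_cast (by omega : y + h - n ≤ h))
        (by positivity) D0
    · simp
  have r4 := congrArg norm (pc_diff b y h)
  rw [norm_mul, Complex.norm_natCast] at r4
  have r5 := (norm_sub_le _ _).trans (add_le_add ((norm_sub_le _ _).trans (add_le_add r2 r1)) r3)
  rw [← r4] at r5
  refine le_of_mul_le_mul_left (r5.trans (le_of_eq ?_)) hh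
  field_simp
  ring

end Pool.Agent.H84D
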