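import Pool.Agent.H84D.PsB
import Pool.Agent.H84D.PsC

/-! Primes in a residue class twisted by `n ^ (i t)`. -/

namespace Pool.Agent.MP_a96b63_al.H84D

open Finset Filter H5 Complex DirichletCharacter

lemma ps_nrm (t x : ℝ) : ‖Complex.exp (I * t * x)‖ = 1 := by
  rw [Complex.norm_exp]
  simp

lemma ps_tw (a : ℕ → ℂ) (t : ℝ) (s : ℂ) (n : ℕ) :
    LSeries.term (fun n => a n * Complex.exp (I * t * Real.log n)) s n =
      LSeries.term a (s - I * t) n := by
  rcases eq_or_ne n 0 with rfl | hn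
  · simp
  · have n0 : (n : ℂ) ≠ 0 := by exact_mod_cast hn
    rw [LSeries.term_of_ne_zero hn, LSeries.term_of_ne_zero hn, cpow_sub _ _ n0,
      cpow_def_of_ne_zero n0 (I * t), ← natCast_log, mul_comm (Real.log n : ℂ), div_div_eq_mul_div]

lemma ps_one : ∃ c K D : ℝ, 0 < c ∧ c ≤ 1 / 4 ∧ 1 ≤ K ∧ 0 ≤ D ∧
    ∀ (d : ℕ) [NeZero d] (χ : DirichletCharacter ℂ d) (t Λ L : ℝ) (y h : ℕ), 2 ≤ L → 10 ≤ |t| →
      d * (2 * |t|) ≤ Real.exp Λ → 0 < Λ → Λ ≤ L → c / Λ ≤ 1 / 2 → 0 < h → h ≤ y →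
      Real.log (2 * y) ≤ 3 * L →
        ‖∑ n ∈ Icc 1 y, χ n * (vm n : ℂ) * Complex.exp (I * t * Real.log n)‖ ≤
          8 * (y : ℝ) ^ 2 / h * (2 * (K * L ^ 2) * (y : ℝ) ^ (-(c / Λ)) +
            (K * L ^ 2 + (L + D)) / (|t| / 2) * (2 * y : ℝ) ^ (1 / L)) + h * (3 * L) := by
  obtain ⟨c, K, c0, c4, K1, hK⟩ := ps_zf
  obtain ⟨D, D0, hD⟩ := ps_vm
  refine ⟨c, K, D, c0, c4, K1, D0, fun d _ χ t Λ L y h L2 t1 hq Λ0 ΛL η2 h0 hy ly => ?_⟩
  have δ2 : 1 / L ≤ 1 / 2 := one_div_le_one_div_of_le two_pos L2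
  have δ0 : 0 < 1 / L := by positivity
  obtain ⟨hs, hv⟩ := hD (1 + 1 / L) (by linarith) (by linarith)
  have sum : ∀ s : ℂ, 1 < s.re → HasSum (LSeries.term
      (fun n => χ n * (vm n : ℂ) * Complex.exp (I * t * Real.log n)) s)
      (-(deriv (LFunction χ) (s - I * t) / LFunction χ (s - I * t))) := fun s hs => by
    have := ps_ld χ (s := s - I * t) (by simpa using hs)
    rwa [← funext (ps_tw _ t s)] at this
  have r0 : 1 < ((1 + 1 / L : ℝ) : ℂ).re := by
    rw [ofReal_re]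
    linarith
  refine Pool.Agent.H84D.psC _
    (fun s => -(deriv (LFunction χ) (s - I * t) / LFunction χ (s - I * t))) δ0 δ2 (by positivity) η2
    (by linarith) (sum _ r0).summable ?_ (fun s r1 r2 r3 => ?_)
    (fun s r _ => (sum s (by rw [r]; linarith)).tsum_eq.symm) h0 hy fun n hn => ?_
  · rw [add_sub_cancel_left, one_div_one_div] at hv
    refine le_trans (Summable.tsum_le_tsum (fun n => ?_) (sum _ r0).summable.norm hs) hv
    refine LSeries.norm_term_le _ ?_
    rw [norm_mul, ps_nrm, mul_one, norm_mul]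
    exact mul_le_of_le_one_left (norm_nonneg _) (χ.norm_le_one _)
  · have e1 : (s - I * t).im = s.im - t := by simp
    have e2 : (s - I * t).re = s.re := by simp
    have b1 := abs_sub_abs_le_abs_sub t s.im
    have b2 := abs_sub s.im t
    rw [abs_sub_comm] at b1
    have b3 : 5 ≤ |(s - I * t).im| := by rw [e1]; linarith
    obtain ⟨z0, z1⟩ := hK d χ Λ (s - I * t) b3 (le_trans (by
      rw [e1]
      gcongr
      linarith) hq) (by rw [e2]; exact r1) (by rw [e2]; linarith)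
    have ne : s - I * t ≠ 1 := fun e => by
      rw [e] at b3
      simp at b3
      linarith
    have an : AnalyticAt ℂ (LFunction χ) (s - I * t) :=
      DifferentiableOn.analyticAt (s := {1}ᶜ) (fun z hz =>
        (differentiableAt_LFunction χ z (.inl hz)).differentiableWithinAt)
        (isOpen_compl_singleton.mem_nhds ne)
    refine ⟨((an.deriv.differentiableAt.div an.differentiableAt z0).comp s
      (f := fun s => s - I * t) (by fun_prop)).neg, ?_⟩
    rw [norm_neg]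
    refine z1.trans ?_
    gcongr
  · rw [norm_mul, ps_nrm, mul_one, norm_mul, norm_real,
      Real.norm_of_nonneg ArithmeticFunction.vonMangoldt_nonneg]
    refine (mul_le_of_le_one_left ArithmeticFunction.vonMangoldt_nonneg
      (χ.norm_le_one _)).trans (ArithmeticFunction.vonMangoldt_le_log.trans ?_)
    rcases Nat.eq_zero_or_pos n with rfl | n0
    · simp
      linarith
    · exact (Real.log_le_log (by exact_mod_cast n0) (by exact_mod_cast hn)).trans ly

lemma ps_par {c L q u : ℝ} {B k : ℕ} (c0 : 0 < c) (c4 : c ≤ 1 / 4) (k1 : (1 : ℝ) ≤ k) (L3 : 3 ≤ L)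
    (hsm : (B + 1 + 2 * k) * Real.log L ^ 2 ≤ c / (2 * k) * L) (q0 : 0 < q) (hq : q ≤ L ^ B)
    (u0 : 0 < u) (hu : Real.log u * Real.log L ≤ c / (2 * k) * L) :
    ∃ Λ : ℝ, q * (2 * u) ≤ Real.exp Λ ∧ 0 < Λ ∧ Λ ≤ L ∧ c / Λ ≤ 1 / 2 ∧
      L * -(c / Λ) = -(k * Real.log L) := by
  have l1 : 1 ≤ Real.log L := by
    rw [Real.le_log_iff_exp_le (by linarith)]
    linarith [Real.exp_one_lt_d9]
  have a : Real.log q ≤ B * Real.log L := by
    rw [← Real.log_pow]
    exact Real.log_le_log q0 hq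
  generalize Real.log L = l at *
  have η0 : 0 < c / (2 * k) := by positivity
  have η1 : c / (2 * k) ≤ 1 / 2 := by rw [div_le_iff₀ (by positivity)]; linarith
  have e : c / (2 * (c / (2 * k)) * L / l) = k * l / L := by field_simp
  have b := mul_nonneg (Nat.cast_nonneg (α := ℝ) B) (sq_nonneg l)
  have b' := mul_nonneg (Nat.cast_nonneg (α := ℝ) k) (sq_nonneg l)
  have b2 := mul_le_mul_of_nonneg_right η1 (by linarith : 0 ≤ L)
  have b3 : l ≤ l ^ 2 := le_self_pow₀ l1 two_ne_zero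
  refine ⟨2 * (c / (2 * k)) * L / l, ?_, by positivity, ?_, ?_, by rw [e]; field_simp⟩
  · rw [← Real.log_le_iff_le_exp (by positivity), Real.log_mul q0.ne' (by positivity),
      Real.log_mul two_ne_zero u0.ne', le_div_iff₀ (by linarith)]
    have := mul_le_mul_of_nonneg_right a (by linarith : 0 ≤ l)
    have := mul_le_mul_of_nonneg_right (Real.log_two_lt_d9.le.trans (by norm_num : _ ≤ (1 : ℝ)))
      (by linarith : 0 ≤ l)
    nlinarith
  · rw [div_le_iff₀ (by linarith)]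
    nlinarith
  · rw [e, div_le_iff₀ (by linarith)]
    nlinarith [mul_le_mul_of_nonneg_left b3 (Nat.cast_nonneg (α := ℝ) k)]

lemma ps_chi (A B : ℕ) : ∃ (A₁ : ℕ) (η : ℝ), 0 < η ∧ η ≤ 1 / 2 ∧ ∀ᶠ N : ℕ in atTop,
    ∀ (y d : ℕ) [NeZero d] (χ : DirichletCharacter ℂ d) (t : ℝ), N ≤ y → y ≤ N ^ 2 →
      (d : ℝ) ≤ Real.log N ^ B → Real.log N ^ A₁ ≤ |t| →
      Real.log |t| * Real.log (Real.log N) ≤ η * Real.log N →
        ‖∑ n ∈ Icc 1 y, χ n * (vm n : ℂ) * Complex.exp (I * t * Real.log n)‖ ≤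
          y / Real.log N ^ A := by
  obtain ⟨c, K, D, c0, c4, K1, D0, hK⟩ := ps_one
  set k : ℕ := 2 * A + 6 with hk
  have k1 : (1 : ℝ) ≤ k := by exact_mod_cast (by omega : 1 ≤ k)
  have η0 : 0 < c / (2 * k) := by positivity
  have tl : Tendsto (fun N : ℕ => Real.log N) atTop atTop :=
    Real.tendsto_log_atTop.comp tendsto_natCast_atTop_atTop
  have sm : ∀ᶠ L : ℝ in atTop, (B + 1 + 2 * k) * Real.log L ^ 2 ≤ c / (2 * k) * L := by
    have := (Real.isLittleO_pow_log_id_atTop (n := 2)).bound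
      (c := c / (2 * k) / (B + 1 + 2 * k)) (by positivity)
    filter_upwards [this, eventually_ge_atTop 0] with L a b
    rw [Real.norm_of_nonneg (sq_nonneg _), id, Real.norm_of_nonneg b, div_mul_eq_mul_div,
      le_div_iff₀ (by positivity)] at a
    linarith
  refine ⟨k, _, η0, by rw [div_le_iff₀ (by positivity)]; linarith, ?_⟩
  filter_upwards [ev_log_ge (500 + K + D), tl.eventually sm, ev_log (A + 2) (c := 1) one_pos,
    eventually_gt_atTop 0] with N L5 hsm hN N0 y d _ χ t y1 y2 hd t1 t2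
  set L := Real.log N with hL
  have L1 : 1 ≤ L := by linarith
  have N0' : (0 : ℝ) < N := by exact_mod_cast N0
  have y1' : (N : ℝ) ≤ y := by exact_mod_cast y1
  have y0 : (0 : ℝ) < y := by linarith
  have Lk : L ≤ L ^ k := le_self_pow₀ L1 (by omega)
  obtain ⟨Λ, hq, Λ0, ΛL, η2, eη⟩ := ps_par c0 c4 k1 (by linarith) hsm
    (by exact_mod_cast NeZero.pos d) hd (by linarith) t2
  have a1 : 1 ≤ y / L ^ (A + 2) := by
    rw [le_div_iff₀ (by positivity)]
    rw [Real.rpow_one] at hN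
    linarith
  have a2 : y / L ^ (A + 2) ≤ y := div_le_self y0.le (one_le_pow₀ L1)
  have h1 := Nat.le_ceil (y / L ^ (A + 2))
  have h2 : (⌈y / L ^ (A + 2)⌉₊ : ℝ) ≤ 2 * (y / L ^ (A + 2)) := by
    linarith [Nat.ceil_lt_add_one (by linarith : 0 ≤ y / L ^ (A + 2))]
  have ly : Real.log (2 * y) ≤ 3 * L := by
    have := Real.log_le_log y0 (show (y : ℝ) ≤ N ^ 2 by exact_mod_cast y2)
    rw [Real.log_pow] at this
    rw [Real.log_mul two_ne_zero y0.ne']
    push_cast at this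
    linarith [Real.log_two_lt_d9]
  refine (hK d χ t Λ L y _ (by linarith) (by linarith) hq Λ0 ΛL η2
    (Nat.ceil_pos.2 (by linarith)) (Nat.ceil_le.2 a2) ly).trans ?_
  have p1 : (y : ℝ) ^ (-(c / Λ)) ≤ 1 / L ^ k := by
    refine (Real.rpow_le_rpow_of_nonpos N0' y1' (neg_nonpos.2 (by positivity))).trans_eq ?_
    rw [Real.rpow_def_of_pos N0', ← hL, eη, Real.exp_neg, Real.exp_nat_mul,
      Real.exp_log (by linarith), one_div]
  have p2 : (2 * y : ℝ) ^ (1 / L) ≤ 27 := by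
    rw [Real.rpow_def_of_pos (by positivity)]
    have : Real.log (2 * y) * (1 / L) ≤ (3 : ℕ) * 1 := by
      rw [mul_one_div, div_le_iff₀ (by linarith)]
      simpa using ly
    refine (Real.exp_le_exp.2 this).trans ?_
    rw [Real.exp_nat_mul]
    exact (pow_le_pow_left₀ (Real.exp_pos 1).le (b := 3)
      (by linarith [Real.exp_one_lt_d9]) 3).trans (by norm_num)
  have p3 : K * L ^ 2 + (L + D) ≤ L ^ 3 := by
    have a : L ≤ L ^ 2 := le_self_pow₀ L1 two_ne_zero
    have b := mul_le_mul_of_nonneg_right L5 (sq_nonneg L)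
    have c := le_mul_of_one_le_right D0 (L1.trans a)
    linarith [pow_succ' L 2]
  have p4 : K * L ^ 2 ≤ L ^ 3 := by linarith
  generalize ⌈y / L ^ (A + 2)⌉₊ = h at *
  calc _ ≤ 8 * (y : ℝ) ^ 2 / (y / L ^ (A + 2)) * (2 * L ^ 3 * (1 / L ^ k) +
        L ^ 3 / (L ^ k / 2) * 27) + 2 * (y / L ^ (A + 2)) * (3 * L) := by gcongr
    _ = 454 / L * (y / L ^ A) := by
        rw [hk]
        field_simp
        ring
    _ ≤ _ := mul_le_of_le_one_left (by positivity) ((div_le_one (by linarith)).2 (by linarith))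

lemma ps_ap {d c y : ℕ} [NeZero d] (hc : c.Coprime d) (u : ℕ → ℂ) {E : ℝ}
    (h : ∀ χ : DirichletCharacter ℂ d, ‖∑ n ∈ Icc 1 y, χ n * u n‖ ≤ E) :
    ‖∑ n ∈ Ioc 0 y, if n ≡ c [MOD d] then u n else 0‖ ≤ E := by
  classical
  have hφ : (0 : ℝ) < d.totient := by exact_mod_cast Nat.totient_pos.2 (NeZero.pos d)
  have hu : IsUnit (c : ZMod d) := (ZMod.isUnit_iff_coprime c d).2 hc
  have e : (d.totient : ℂ) * ∑ n ∈ Ioc 0 y, (if n ≡ c [MOD d] then u n else 0) =
      ∑ χ : DirichletCharacter ℂ d, χ (c : ZMod d)⁻¹ * ∑ n ∈ Icc 1 y, χ n * u n := by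
    simp only [mul_sum]
    rw [sum_comm]
    refine sum_congr rfl fun n _ => ?_
    simp only [← mul_assoc]
    rw [← sum_mul, DirichletCharacter.sum_char_inv_mul_char_eq ℂ hu]
    by_cases hn : n ≡ c [MOD d]
    · rw [if_pos hn, if_pos ((ZMod.natCast_eq_natCast_iff _ _ _).2 hn.symm)]
    · rw [if_neg hn, if_neg fun h' => hn ((ZMod.natCast_eq_natCast_iff _ _ _).1 h').symm]
      simp
  have b := (norm_sum_le _ _).trans (sum_le_card_nsmul univ
    (fun χ : DirichletCharacter ℂ d => ‖χ (c : ZMod d)⁻¹ * ∑ n ∈ Icc 1 y, χ n * u n‖) E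
    fun χ _ => by
      rw [norm_mul]
      exact (mul_le_of_le_one_left (norm_nonneg _) (χ.norm_le_one _)).trans (h χ))
  rw [← e, norm_mul, Complex.norm_natCast, nsmul_eq_mul, card_univ, ← Nat.card_eq_fintype_card,
    DirichletCharacter.card_eq_totient_of_hasEnoughRootsOfUnity] at b
  exact le_of_mul_le_mul_left b hφ

lemma ps_shift (t : ℝ) {N n : ℕ} (hN : 0 < N) (hn : N ≤ n) :
    ‖Complex.exp (I * t * Real.log (n + 2 : ℝ)) - Complex.exp (I * t * Real.log n)‖ ≤
      |t| * (2 / N) := by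
  have N0 : (0 : ℝ) < N := by exact_mod_cast hN
  have n1 : (N : ℝ) ≤ n := by exact_mod_cast hn
  have n0 : (0 : ℝ) < n := by linarith
  have e : Complex.exp (I * t * Real.log (n + 2 : ℝ)) - Complex.exp (I * t * Real.log n) =
      Complex.exp (I * t * Real.log n) *
        (Complex.exp (I * (t * Real.log ((n + 2) / n) : ℝ)) - 1) := by
    rw [mul_sub, ← Complex.exp_add, Real.log_div (by positivity) n0.ne', mul_one]
    congr 2
    push_cast
    ring
  rw [e, norm_mul, ps_nrm, one_mul]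
  refine Real.norm_exp_I_mul_ofReal_sub_one_le.trans ?_
  rw [Real.norm_eq_abs, abs_mul,
    abs_of_nonneg (Real.log_nonneg ((one_le_div n0).2 (by linarith)))]
  gcongr
  refine (Real.log_le_sub_one_of_pos (by positivity)).trans ?_
  rw [show ((n : ℝ) + 2) / n - 1 = 2 / n by field_simp; ring]
  gcongr

/-- primes in a class, twisted by `(p + 2) ^ (i t)`; `apl d c p = log p` for primes `p = c` mod `d` -/
theorem ps (A B : ℕ) : ∃ (A₁ : ℕ) (η : ℝ), 0 < η ∧ ∀ᶠ N : ℕ in atTop, ∀ (y d c : ℕ) (t : ℝ),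
    y ≤ N ^ 2 → 0 < d → (d : ℝ) ≤ Real.log N ^ B → c.Coprime d → Real.log N ^ A₁ ≤ |t| →
    Real.log |t| * Real.log (Real.log N) ≤ η * Real.log N →
      ‖∑ p ∈ Ioc N y, (apl d c p : ℂ) * Complex.exp (Complex.I * t * Real.log (p + 2 : ℝ))‖ ≤
        y / Real.log N ^ A := by
  obtain ⟨A₁, η, η0, η1, H⟩ := ps_chi (A + 1) B
  refine ⟨A₁, η, η0, ?_⟩
  filter_upwards [H, ev_log_ge 3, ev_log (A + 2) (c := 12) one_half_pos, eventually_gt_atTop 0]
    with N H L3 hN N0 y d c t y2 d0 hd hc t1 t2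
  have : NeZero d := ⟨d0.ne'⟩
  rcases le_or_gt y N with y1 | y1
  · rw [Ioc_eq_empty (by omega), sum_empty, norm_zero]
    positivity
  set L := Real.log N with hL
  have N0' : (0 : ℝ) < N := by exact_mod_cast N0
  have y1' : (N : ℝ) ≤ y := by exact_mod_cast y1.le
  have y0 : (0 : ℝ) < y := by linarith
  have l1 : 1 ≤ Real.log L := by
    rw [Real.le_log_iff_exp_le (by linarith)]
    linarith [Real.exp_one_lt_d9]
  have t0 : 1 ≤ |t| := (one_le_pow₀ (by linarith)).trans t1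
  rw [← Real.sqrt_eq_rpow] at hN
  have s0 : 0 < √(N : ℝ) := Real.sqrt_pos.2 N0'
  have tN : |t| ≤ √N := by
    rw [← Real.log_le_log_iff (by linarith) s0, Real.log_sqrt N0'.le]
    nlinarith [Real.log_nonneg t0]
  have ly : Real.log y ≤ 2 * L := by
    have := Real.log_le_log y0 (show (y : ℝ) ≤ N ^ 2 by exact_mod_cast y2)
    rwa [Real.log_pow] at this
  set v : ℕ → ℂ := fun n =>
    if n ≡ c [MOD d] then (vm n : ℂ) * Complex.exp (I * t * Real.log n) else 0 with hv
  have S : ∀ z : ℕ, N ≤ z → z ≤ N ^ 2 → ‖∑ n ∈ Ioc 0 z, v n‖ ≤ z / L ^ (A + 1) := fun z a b =>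
    ps_ap hc _ fun χ => by simpa only [← mul_assoc] using H z d χ t a b hd t1 t2
  have a1 := S y y1.le y2
  have a2 := (S N le_rfl (by omega)).trans (show (N : ℝ) / L ^ (A + 1) ≤ y / L ^ (A + 1) by gcongr)
  have a3 : ‖∑ n ∈ Ioc N y, v n‖ ≤ y / L ^ (A + 1) + y / L ^ (A + 1) := by
    rw [eq_sub_of_add_eq' (sum_Ioc_consecutive v (Nat.zero_le N) y1.le)]
    exact norm_sub_le_of_le a1 a2
  have a4 := norm_sum_le_of_le (Ioc N y) (f := fun p : ℕ => (apl d c p : ℂ) *
      Complex.exp (Complex.I * t * Real.log (p + 2 : ℝ)) - v p)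
    (n := fun p => (vm p - lam p) + 2 * L * (√N * (2 / N))) fun p hp => by
      obtain ⟨p1, p2⟩ := mem_Ioc.1 hp
      have b1 := sub_nonneg.2 (lam_le_vm p)
      simp only [hv, apl]
      split_ifs
      · rw [show ∀ a b x z : ℂ, a * x - b * z = -(b - a) * z + a * (x - z) from
          fun _ _ _ _ => by ring]
        refine norm_add_le_of_le ?_ ?_
        · rw [norm_mul, ps_nrm, mul_one, norm_neg, ← ofReal_sub, norm_real, Real.norm_of_nonneg b1]
        · rw [norm_mul, norm_real, Real.norm_of_nonneg (lam_nonneg p)]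
          refine mul_le_mul ((lam_le_log p).trans ((Real.log_le_log (by exact_mod_cast (by omega))
            (by exact_mod_cast p2)).trans ly)) ((ps_shift t N0 p1.le).trans ?_) (norm_nonneg _)
            (by linarith)
          gcongr
      · simp only [ofReal_zero, zero_mul, sub_zero, norm_zero]
        positivity
  have a5 : ∑ p ∈ Ioc N y, (vm p - lam p) ≤ 2 * √y * Real.log y :=
    (sum_le_sum_of_subset_of_nonneg (Ioc_subset_Ioc_left (Nat.zero_le N))
      fun p _ _ => sub_nonneg.2 (lam_le_vm p)).trans (sum_vm_sub_lam (by omega))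
  have a6 : √(y : ℝ) ≤ y / √N := by
    rw [le_div_iff₀ s0]
    nlinarith [Real.sqrt_le_sqrt y1', Real.mul_self_sqrt y0.le, Real.sqrt_nonneg (y : ℝ)]
  have a7 : (#(Ioc N y) : ℝ) ≤ y := by
    rw [Nat.card_Ioc]
    exact_mod_cast Nat.sub_le y N
  have a8 : √(N : ℝ) * (2 / N) = 2 / √N := by
    field_simp
    exact Real.sq_sqrt N0'.le
  rw [sum_sub_distrib, sum_add_distrib, sum_const, nsmul_eq_mul, a8] at a4
  have a9 : 8 * (y * L / √N) ≤ y / L ^ (A + 1) := by
    rw [← mul_div_assoc, div_le_div_iff₀ s0 (by positivity)]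
    nlinarith [mul_le_mul_of_nonneg_left hN y0.le, pow_succ L (A + 1), pow_pos (by linarith : 0 < L) (A + 2)]
  have b1 : 2 * √(y : ℝ) * Real.log y ≤ 4 * (y * L / √N) :=
    calc _ ≤ 2 * (y / √N) * (2 * L) := by gcongr
      _ = _ := by ring
  have b2 : (#(Ioc N y) : ℝ) * (2 * L * (2 / √N)) ≤ 4 * (y * L / √N) :=
    calc _ ≤ y * (2 * L * (2 / √N)) := by gcongr
      _ = _ := by ring
  have b3 := norm_add_le_of_le a4 a3
  rw [sub_add_cancel] at b3
  calc _ ≤ 3 * (y / L ^ (A + 1)) := by linarith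
    _ = 3 / L * (y / L ^ A) := by
        field_simp
        ring
    _ ≤ _ := mul_le_of_le_one_left (by positivity) ((div_le_one (by linarith)).2 L3)

lemma ps_abel (u : ℕ → ℂ) {N y : ℕ} (hN : 0 < N) (hy : N ≤ y) {ε : ℝ} (hε : 0 ≤ ε)
    (h : ∀ j, j ≤ y → ‖∑ n ∈ Ioc N j, u n‖ ≤ ε * j) :
    ‖∑ n ∈ Ioc N y, u n / (n + 2)‖ ≤ ε * (Real.log y - Real.log N) + ε := by
  have key : ∀ j, N ≤ j → j ≤ y →
      ‖∑ n ∈ Ioc N j, u n / (n + 2) - (∑ n ∈ Ioc N j, u n) / (j + 2)‖ ≤
        ε * (Real.log j - Real.log N) := by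
    intro j hj
    induction j, hj using Nat.le_induction with
    | base => simp
    | succ j hj ih =>
      intro hz
      have j0 : (0 : ℝ) < j := by exact_mod_cast hN.trans_le hj
      have n2 : (j + 2 : ℂ) ≠ 0 := by exact_mod_cast (by omega : j + 2 ≠ 0)
      have n3 : (j + 1 + 2 : ℂ) ≠ 0 := by exact_mod_cast (by omega : j + 1 + 2 ≠ 0)
      have e : ∑ n ∈ Ioc N (j + 1), u n / (n + 2) - (∑ n ∈ Ioc N (j + 1), u n) / ((j + 1 : ℕ) + 2) =
          (∑ n ∈ Ioc N j, u n / (n + 2) - (∑ n ∈ Ioc N j, u n) / (j + 2)) +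
            (∑ n ∈ Ioc N j, u n) / (((j + 2) * (j + 3) : ℝ) : ℂ) := by
        rw [sum_Ioc_succ_top hj, sum_Ioc_succ_top hj]
        push_cast
        rw [show (j + 3 : ℂ) = j + 1 + 2 by ring]
        field_simp
        ring
      have a := Real.one_sub_inv_le_log_of_pos (x := (j + 1) / j) (by positivity)
      rw [Real.log_div (by positivity) j0.ne', inv_div] at a
      have b : (j : ℝ) / ((j + 2) * (j + 3)) ≤ 1 - j / (j + 1) := by
        rw [one_sub_div (by positivity), div_le_div_iff₀ (by positivity) (by positivity)]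
        nlinarith
      rw [e]
      refine (norm_add_le_of_le (ih (by omega))
        (r₂ := ε * (j / ((j + 2) * (j + 3)))) ?_).trans ?_
      · rw [norm_div, norm_real, Real.norm_of_nonneg (by positivity), ← mul_div_assoc]
        gcongr
        exact h j (by omega)
      · push_cast
        nlinarith [mul_le_mul_of_nonneg_left (b.trans a) hε]
  have a : ‖(∑ n ∈ Ioc N y, u n) / (y + 2)‖ ≤ ε := by
    rw [norm_div, show (y + 2 : ℂ) = ((y + 2 : ℕ) : ℂ) by push_cast; rfl, Complex.norm_natCast,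
      div_le_iff₀ (by positivity)]
    refine (h y le_rfl).trans ?_
    push_cast
    nlinarith
  simpa using norm_add_le_of_le (key y hy le_rfl) a

/-- the same with the weight `1 / (p + 2)`: the bound for `D3` -/
theorem ps3 (A B : ℕ) : ∃ (A₁ : ℕ) (η : ℝ), 0 < η ∧ ∀ᶠ N : ℕ in atTop, ∀ (y d c : ℕ) (t : ℝ),
    y ≤ N ^ 2 → 0 < d → (d : ℝ) ≤ Real.log N ^ B → c.Coprime d → Real.log N ^ A₁ ≤ |t| →
    Real.log |t| * Real.log (Real.log N) ≤ η * Real.log N →
      ‖∑ p ∈ Ioc N y, (apl d c p : ℂ) / (p + 2) *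
        Complex.exp (Complex.I * t * Real.log (p + 2 : ℝ))‖ ≤ 1 / Real.log N ^ A := by
  obtain ⟨A₁, η, η0, H⟩ := ps (A + 2) B
  refine ⟨A₁, η, η0, ?_⟩
  filter_upwards [H, ev_log_ge 2, eventually_gt_atTop 0] with N H L2 N0 y d c t y2 d0 hd hc t1 t2
  rcases le_or_gt y N with y1 | y1
  · rw [Ioc_eq_empty (by omega), sum_empty, norm_zero]
    positivity
  have ly : Real.log y ≤ 2 * Real.log N := by
    have := Real.log_le_log (by exact_mod_cast N0.trans y1)
      (show (y : ℝ) ≤ N ^ 2 by exact_mod_cast y2)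
    rwa [Real.log_pow] at this
  have a := ps_abel (fun p => (apl d c p : ℂ) * Complex.exp (I * t * Real.log (p + 2 : ℝ))) N0
    y1.le (ε := 1 / Real.log N ^ (A + 2)) (by positivity) fun j hj => by
      rw [one_div_mul_eq_div]
      exact H j d c t (hj.trans y2) d0 hd hc t1 t2
  simp only [mul_div_right_comm] at a
  refine a.trans ?_
  set L := Real.log N
  calc _ ≤ 1 / L ^ (A + 2) * L ^ 2 := by
        rw [← mul_add_one]
        gcongr
        nlinarith
    _ = _ := by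
        field_simp
        ring

end Pool.Agent.MP_a96b63_al.H84D
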