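import Pool.Agent.H84D.MriD
import Pool.Agent.H84D.Ps

set_option autoImplicit false

/-! The supremum of the long prime factor in the low range. -/

namespace Pool.Agent.H84D

open Finset Filter Pool.Agent.MP_a96b63_al

theorem LL_top : Tendsto LL atTop atTop :=
  Real.tendsto_log_atTop.comp tendsto_natCast_atTop_atTop

theorem pow_le_sq_pow {L l : ℝ} (h0 : 0 ≤ L) (h : L ≤ 2 * l) (h2 : 2 ≤ l) (A : ℕ) :
    L ^ A ≤ l ^ (2 * A) := by
  rw [pow_mul]
  exact pow_le_pow_left₀ h0 (by nlinarith) A

theorem D3_eq (N N' d c : ℕ) (t : ℝ) : D3 N N' d c t =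
    ∑ p ∈ Ioc N N', (H5.apl d c p : ℂ) / (p + 2) *
      Complex.exp (Complex.I * t * Real.log (p + 2 : ℝ)) := by
  rw [D3, PC, PP, sum_filter, sum_filter]
  refine sum_congr rfl fun p _ => ?_
  rw [H5.apl, H5.lam, nit]
  split_ifs <;> simp

theorem log_P2_le (X : ℕ) (h : 0 < P2 X) : Real.log (P2 X) ≤ LL X / ka X ^ 2 := by
  rw [Real.log_le_iff_le_exp (by exact_mod_cast h)]
  exact Nat.floor_le (Real.exp_pos _).le

theorem sup3 : SUP3_s := by
  intro A B C
  obtain ⟨A₁, η, hη, h⟩ := MP_a96b63_al.H84D.ps3 (2 * A) (2 * B)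
  obtain ⟨N₀, hN₀⟩ := eventually_atTop.1 h
  refine ⟨A₁, ?_⟩
  filter_upwards [eventually_ge_atTop (N₀ ^ 2), LL_top.eventually_ge_atTop 4,
    (Real.tendsto_log_atTop.comp LL_top).eventually_ge_atTop (600 / η),
    (Real.tendsto_log_atTop.comp LL_top).eventually_ge_atTop 1, eventually_gt_atTop 0]
    with X hX hL hl hl1 hX0
  intro d c N N' hd hdB hc hXN _ hN' t ht1 ht2
  simp only [Function.comp] at hl hl1
  have L0 : 0 < LL X := by linarith
  rcases le_or_gt N' N with hle | hlt
  · rw [D3_eq, Ioc_eq_empty (not_lt.2 hle), sum_empty, norm_zero]; positivity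
  have hN : N₀ ≤ N := le_of_not_gt fun hh =>
    absurd (hX.trans hXN) (not_le.2 (Nat.pow_lt_pow_left hh two_ne_zero))
  have N0 : 0 < N := Nat.pos_of_ne_zero fun e => by rw [e] at hXN; simp at hXN; omega
  have N0' : (0 : ℝ) < N := by exact_mod_cast N0
  have a1 : LL X ≤ 2 * Real.log N := by
    have : Real.log X ≤ Real.log ((N : ℝ) ^ 2) :=
      Real.log_le_log (by exact_mod_cast hX0) (by exact_mod_cast hXN)
    rw [Real.log_pow] at this
    simpa [LL] using this
  have a2 : Real.log N ≤ LL X := Real.log_le_log N0' (by exact_mod_cast (hlt.le.trans hN'))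
  have a3 : 2 ≤ Real.log N := by linarith
  have t1 : 1 ≤ |t| := (one_le_pow₀ (by linarith)).trans ht1
  have p0 : 0 < P2 X := Nat.pos_of_ne_zero fun e => by
    rw [e] at ht2; simp at ht2; rw [ht2] at t1; simp at t1; linarith
  have a4 : Real.log |t| ≤ 300 * LL X / Real.log (LL X) ^ 2 := by
    have := Real.log_le_log (by linarith) ht2
    rw [Real.log_pow] at this
    have h2 := log_P2_le X p0
    have e : LL X / ka X ^ 2 = 100 * LL X / Real.log (LL X) ^ 2 := by
      rw [ka]; field_simp; norm_num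
    have e2 : 300 * LL X / Real.log (LL X) ^ 2 = 3 * (100 * LL X / Real.log (LL X) ^ 2) := by ring
    rw [e] at h2
    push_cast at this
    linarith
  have a5 : Real.log |t| * Real.log (Real.log N) ≤ η * Real.log N := by
    have b1 : Real.log (Real.log N) ≤ Real.log (LL X) := Real.log_le_log (by linarith) a2
    have b2 : 0 ≤ Real.log |t| := Real.log_nonneg t1
    have b3 : 0 < Real.log (LL X) := by linarith
    calc Real.log |t| * Real.log (Real.log N) ≤ Real.log |t| * Real.log (LL X) :=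
          mul_le_mul_of_nonneg_left b1 b2
      _ ≤ 300 * LL X / Real.log (LL X) ^ 2 * Real.log (LL X) :=
          mul_le_mul_of_nonneg_right a4 b3.le
      _ = 300 * LL X / Real.log (LL X) := by field_simp
      _ ≤ η * Real.log N := by
          rw [div_le_iff₀ b3]
          rw [div_le_iff₀ hη] at hl
          nlinarith [mul_le_mul hl a1 L0.le (by positivity)]
  rw [D3_eq]
  refine (hN₀ N hN N' d c t (hN'.trans hXN) hd (hdB.trans (pow_le_sq_pow L0.le a1 a3 B)) hc
    ((pow_le_pow_left₀ (by linarith) a2 A₁).trans ht1) a5).trans ?_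
  exact one_div_le_one_div_of_le (by positivity) (pow_le_sq_pow L0.le a1 a3 A)

end Pool.Agent.H84D
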