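import Pool.Agent.H84D.KerF
import Pool.Agent.H84D.Par

set_option autoImplicit false

namespace Pool.Agent.H84D

open Finset Filter

lemma s2_kap {Q h Y s β A y : ℝ} (rQ : 1 ≤ Q) (s0 : 0 < s) (s2 : s ^ 2 = Q) (rA : 0 < A)
    (ry : 0 < y) (rAy : Y < A * y) (rQh : Q * h ≤ Y) (rh4 : Q ^ 4 ≤ h) (hβ : β = s / y / (8 * A)) :
    (20 * (h * β) ^ 2 + Q ^ 6 / h ^ 2) ^ 2 ≤ 4 / Q := by
  have rQ0 : 0 < Q := by linarith
  have rh : 0 < h := lt_of_lt_of_le (by positivity) rh4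
  have β0 : 0 ≤ β := by rw [hβ]; positivity
  have β1 : β * (8 * Y) ≤ s := by
    have e : β * (8 * (A * y)) = s := by rw [hβ]; field_simp
    nlinarith
  have β3 : 20 * (h * β) ^ 2 ≤ 1 / Q := by
    have e1 : h * β * (8 * Q) ≤ s := by nlinarith
    have e2 : (h * β * (8 * Q)) ^ 2 ≤ s ^ 2 := by gcongr
    rw [le_div_iff₀ rQ0]
    have e3 : (20 * (h * β) ^ 2 * Q) * Q ≤ 1 * Q := by nlinarith [sq_nonneg (h * β * Q)]
    exact le_of_mul_le_mul_right e3 rQ0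
  have β4 : Q ^ 6 / h ^ 2 ≤ 1 / Q := by
    rw [div_le_div_iff₀ (by positivity) rQ0]
    have e1 : (Q ^ 4) ^ 2 ≤ h ^ 2 := by gcongr
    have e2 : Q ^ 7 ≤ Q ^ 8 := pow_le_pow_right₀ rQ (by norm_num)
    nlinarith
  have e : 20 * (h * β) ^ 2 + Q ^ 6 / h ^ 2 ≤ 2 / Q := by
    have : (2 : ℝ) / Q = 1 / Q + 1 / Q := by ring
    linarith
  refine (pow_le_pow_left₀ (by positivity) e 2).trans ?_
  rw [div_pow, div_le_div_iff₀ (by positivity) rQ0]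
  nlinarith

lemma s2_fin {Q Y s A y c Y2 T U g x XQ n : ℝ} (rQ0 : 0 < Q) (s2 : s ^ 2 = Q)
    (ry : 0 < y) (rY : 0 < Y) (rY2 : 0 < Y2) (hc : 0 ≤ c) (hg : 0 ≤ g) (hx : 0 ≤ x) (hX : 0 ≤ XQ)
    (hn : 0 ≤ n) (rAy2 : A * y ≤ 2 * Y) (rb4 : Y2 ≤ c * A) (t1 : U * Y ≤ 60 * T)
    (key : y * T ≤ (1 * (4 * y ^ 2 * g + x / (4 * (s / y) ^ 2) + 4 * y ^ 2 * XQ) +
      4 / Q * (4 * y ^ 2 * x)) * n) :
    U * Y2 * Q ≤ 120 * c * (4 * Q * g + 17 * x + 4 * Q * XQ) * n := by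
  set W := (4 * Q * g + 17 * x + 4 * Q * XQ) * n with hW
  have W0 : 0 ≤ W := by positivity
  have t2 : T * Q ≤ y * W := by
    have e : (1 * (4 * y ^ 2 * g + x / (4 * (s / y) ^ 2) + 4 * y ^ 2 * XQ) +
        4 / Q * (4 * y ^ 2 * x)) * n * Q =
        y * (y * ((4 * Q * g + (65 / 4) * x + 4 * Q * XQ) * n)) := by
      rw [div_pow, s2]; field_simp; ring
    have e2 := mul_le_mul_of_nonneg_right key rQ0.le
    rw [e, mul_assoc] at e2
    refine (le_of_mul_le_mul_left e2 ry).trans ?_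
    rw [hW]; gcongr; norm_num
  have t3 : y * Y2 ≤ 2 * c * Y := by nlinarith
  have t4 : (U * Y2 * Q) * Y ≤ (120 * c * W) * Y := by
    calc (U * Y2 * Q) * Y = (U * Y) * (Y2 * Q) := by ring
      _ ≤ (60 * T) * (Y2 * Q) := by gcongr
      _ = 60 * Y2 * (T * Q) := by ring
      _ ≤ 60 * Y2 * (y * W) := by gcongr
      _ = 60 * W * (y * Y2) := by ring
      _ ≤ 60 * W * (2 * c * Y) := by gcongr
      _ = _ := by ring
  have := le_of_mul_le_mul_right t4 rY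
  rw [hW] at this
  linarith

/-- the parameter-free bound -/
theorem s2_free (G : Finset (ℕ × ℕ)) (QQ : Finset ℕ) (J S : Finset ℤ) {Q Y Y2 c : ℕ} {XQ : ℝ}
    (hQ : 1 ≤ Q) (h5 : Q ^ 5 ≤ Y) (h4 : 16 * Q * Y2 ^ 4 < Y) (hY2 : 0 < Y2)
    (hG : ∀ z ∈ G, 0 < z.2 ∧ z.2 ≤ z.1 ∧ z.1 ≤ Y2 ∧ Y2 ≤ c * z.1)
    (hc : ∀ z ∈ G, z.1.Coprime (2 * z.2)) (hq : ∀ q ∈ QQ, q + 4 ≤ Y ∧ Y ≤ 60 * q)
    (hX : 0 ≤ XQ) (hXQ : ∀ d : ℕ, Q < d → d ≤ 8 * Y2 ^ 2 → (Xi G d : ℝ) ≤ XQ) :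
    S2 G QQ J (gg Q (Y / Q) S) * Y2 * Q ≤
      120 * c * (4 * Q * #G + 17 * Xi G 1 + 4 * Q * XQ) * #S := by
  rcases G.eq_empty_or_nonempty with rfl | hne
  · simp only [S2, image_empty, sum_empty, sum_const_zero, zero_mul]
    positivity
  obtain ⟨z0, hz0, hmin⟩ := G.exists_min_image Prod.fst hne
  obtain ⟨b1, b2, b3, b4⟩ := hG z0 hz0
  set A := z0.1 with hAdef
  have hA : 0 < A := by omega
  have hY2Y : Y2 ≤ Y := by
    have : Y2 ≤ Y2 ^ 4 := Nat.le_self_pow (by norm_num) _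
    nlinarith
  set y := Y / A + 1 with hy
  have hAy : Y < A * y := by rw [hy]; exact Nat.lt_mul_div_succ Y hA
  have hAy2 : A * y ≤ 2 * Y := by
    have := Nat.mul_div_le Y A
    rw [hy]; nlinarith
  set h := Y / Q with hh
  have hQh : Q * h ≤ Y := Nat.mul_div_le Y Q
  have hh4 : Q ^ 4 ≤ h := by
    rw [hh, Nat.le_div_iff_mul_le (by omega)]; simpa [pow_succ] using h5
  have hh3 : Q ^ 3 ≤ h := (Nat.pow_le_pow_right hQ (by norm_num)).trans hh4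
  have rQ : (1 : ℝ) ≤ Q := by exact_mod_cast hQ
  have rA : (0 : ℝ) < A := by exact_mod_cast hA
  have ry : (0 : ℝ) < y := by rw [hy]; positivity
  have rAy : (Y : ℝ) < A * y := by exact_mod_cast hAy
  have rAy2 : (A : ℝ) * y ≤ 2 * Y := by exact_mod_cast hAy2
  have rQh : (Q : ℝ) * h ≤ Y := by exact_mod_cast hQh
  have rh4 : (Q : ℝ) ^ 4 ≤ h := by exact_mod_cast hh4
  have r4 : 16 * (Q : ℝ) * (Y2 : ℝ) ^ 4 < Y := by exact_mod_cast h4
  have r5 : (Q : ℝ) ^ 5 ≤ Y := by exact_mod_cast h5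
  have rb4 : (Y2 : ℝ) ≤ c * A := by exact_mod_cast b4
  have rY2 : (0 : ℝ) < Y2 := by exact_mod_cast hY2
  have rQ0 : (0 : ℝ) < Q := by linarith
  have rY : (0 : ℝ) < Y := lt_of_lt_of_le (by positivity) r5
  have rh : (0 : ℝ) < h := lt_of_lt_of_le (by positivity) rh4
  set s := Real.sqrt Q with hs
  have s1 : 1 ≤ s := Real.one_le_sqrt.mpr rQ
  have s2 : s ^ 2 = Q := Real.sq_sqrt rQ0.le
  have s3 : s ≤ Q := by nlinarith
  have s0 : 0 < s := by linarith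
  have key := four G QQ J (f := ind S) (g := gg Q h S) (Y := Y2) (A := A) (y := y) (Q := Q)
    (η := s / y) (κ := 4 / Q) (κ' := 1) (XQ := XQ) (ind_fin S) (gg_fin (by exact_mod_cast rh) S) hA
    (fun z hz => ⟨hmin z hz, (hG z hz).2.2.1, (hG z hz).2.1.trans (hG z hz).2.2.1⟩) hc
    (fun q hq' => by have := (hq q hq').1; omega) (by positivity)
    (by
      have e : 16 * (s / y) * (Y2 : ℝ) ^ 4 = 16 * s * (Y2 : ℝ) ^ 4 / y := by ring
      rw [e, div_lt_iff₀ ry]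
      have : 16 * s * (Y2 : ℝ) ^ 4 ≤ 16 * Q * (Y2 : ℝ) ^ 4 := by gcongr
      linarith)
    (by positivity) zero_le_one hX
    (FT_gg_le hQ hh3 S)
    (fun t c d hd hdQ hcd ht => (FT_gg_near hQ hh3 S hd hdQ hcd ht).trans
      (mul_le_mul_of_nonneg_right (s2_kap rQ s0 s2 rA ry rAy rQh rh4 rfl) (by positivity)))
    hXQ
  rw [tsum_ind_sq] at key
  set T := ∑ q ∈ QQ, ∑ a ∈ G.image Prod.fst, ∑ m ∈ J,
    (if (a : ℤ) ∣ m then GG G (gg Q h S) q a m ^ 2 else 0) with hT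
  have t1 : S2 G QQ J (gg Q h S) * Y ≤ 60 * T := by
    rw [hT, S2, sum_mul, mul_sum]
    refine sum_le_sum fun q hq' => ?_
    rw [sum_mul, mul_sum]
    refine sum_le_sum fun a _ => ?_
    rw [sum_mul, mul_sum]
    refine sum_le_sum fun m _ => ?_
    split_ifs
    · have e : (Y : ℝ) ≤ 60 * q := by exact_mod_cast (hq q hq').2
      rw [div_mul_eq_mul_div, div_le_iff₀ (by positivity)]
      nlinarith [sq_nonneg (GG G (gg Q h S) q a m)]
    · simp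
  exact s2_fin rQ0 s2 ry rY rY2 (by positivity) (by positivity) (by positivity) hX
    (by positivity) rAy2 rb4 t1 key

theorem s2_le (c : ℕ) : ∃ C : ℕ, ∀ B a₀ : ℕ, 1 ≤ B → ∀ᶠ X : ℕ in atTop, ∀ D : Fm,
    Fam c B a₀ X D → ∀ G ⊆ D.F, ∀ S ⊆ Ioc (X : ℤ) (2 * X), ∀ J : Finset ℤ,
      c0 X D * S2 G D.QQ J (gg (QB B X) (hW B X) S) * QB B X ≤ LL X ^ C * X := by
  refine ⟨c + 2, fun B a₀ _ => ?_⟩
  filter_upwards [par_nat (eventually_ge_atTop (1 : ℝ)),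
    par_nat (eventually_ge_atTop (5520 * c : ℝ)),
    par_nat (par_rpow_exp 1 (5 * B : ℕ) (b := 3 / 20) (c' := 1) (by norm_num) one_pos),
    par_nat (par_exp_exp 17 (B : ℕ) 4 (a := 1 / 8) (b := 3 / 20) (c' := 1) (by norm_num)
      (by norm_num) one_pos),
    par_nat (par_rpow_exp 1 (B : ℕ) (b := 1 / 10) (c' := 1 / 10) (by norm_num) (by norm_num)),
    par_nat (par_rpow_exp 1 (B : ℕ) (b := 9 / 100) (c' := 1) (by norm_num) one_pos)]
    with X l1 l2 l3 l4 l5 l6 D hD G hG S hS J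
  rw [Real.rpow_natCast] at l3 l4 l5 l6
  rw [one_mul] at l3 l4 l5 l6
  rw [one_mul] at l3 l6
  change 1 ≤ LL X at l1
  change 5520 * (c : ℝ) ≤ LL X at l2
  change LL X ^ (5 * B) ≤ EE X (3 / 20) at l3
  change 17 * LL X ^ B * Real.exp (4 * LL X ^ (1 / 8 : ℝ)) ≤ EE X (3 / 20) at l4
  change LL X ^ B ≤ Real.exp (1 / 10 * LL X ^ (1 / 10 : ℝ)) at l5
  change LL X ^ B ≤ EE X (9 / 100) at l6
  have hLB : 1 ≤ LL X ^ B := one_le_pow₀ l1
  have hQ : 1 ≤ QB B X := Nat.le_floor (by simpa using hLB)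
  have hQL : (QB B X : ℝ) ≤ LL X ^ B := Nat.floor_le (by linarith)
  set Q := QB B X with hQdef
  have rQ : (1 : ℝ) ≤ Q := by exact_mod_cast hQ
  have rY2 : (1 : ℝ) ≤ D.Y2 := by exact_mod_cast hD.ypos
  have h5 : Q ^ 5 ≤ Y1 X := by
    refine Nat.le_floor ?_
    push_cast
    refine le_trans ?_ l3
    rw [mul_comm, pow_mul]; gcongr
  have h4 : 16 * Q * D.Y2 ^ 4 < Y1 X := by
    refine Nat.lt_of_succ_le (Nat.le_floor ?_)
    push_cast
    refine le_trans ?_ l4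
    have e1 : (D.Y2 : ℝ) ^ 4 ≤ Real.exp (4 * LL X ^ (1 / 8 : ℝ)) := by
      have e : Real.exp (4 * LL X ^ (1 / 8 : ℝ)) = EE X (1 / 8) ^ 4 := by
        rw [EE, ← Real.exp_nat_mul]; norm_num
      rw [e]; gcongr; exact hD.yle
    have e2 : (1 : ℝ) ≤ (D.Y2 : ℝ) ^ 4 := one_le_pow₀ rY2
    have e3 : (Q : ℝ) * (D.Y2 : ℝ) ^ 4 ≤ LL X ^ B * Real.exp (4 * LL X ^ (1 / 8 : ℝ)) := by gcongr
    have e4 : (1 : ℝ) ≤ (Q : ℝ) * (D.Y2 : ℝ) ^ 4 := one_le_mul_of_one_le_of_one_le rQ e2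
    linarith
  have hE : (Q : ℝ) ≤ EE X (9 / 100) := hQL.trans l6
  have hF : (Q : ℝ) * D.Y2 ≤ #D.F := by
    refine le_trans ?_ hD.many
    rw [mul_comm]
    gcongr
    refine hQL.trans (l5.trans_eq ?_)
    congr 1; ring
  have rF : (0 : ℝ) < #D.F := lt_of_lt_of_le (by positivity) hF
  have hLc : 1 ≤ LL X ^ c := one_le_pow₀ l1
  have hx : ∀ d : ℕ, 0 < d → d ≤ 8 * D.Y2 ^ 2 → ∀ e : ℝ, 0 < e → e ≤ d → e ≤ Q →
      (Xi G d : ℝ) ≤ 2 * LL X ^ c * (#D.F : ℝ) ^ 2 / (e * D.Y2) := by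
    intro d hd hd2 e he hed heQ
    have e1 := hD.xi d hd (by omega)
    have e2 : (Xi G d : ℝ) ≤ Xi D.F d := by exact_mod_cast Xi_mono hG d
    have e3 : (1 : ℝ) / d ≤ 1 / e := one_div_le_one_div_of_le he hed
    have e4 : 1 / EE X (9 / 100) ≤ 1 / e := one_div_le_one_div_of_le he (heQ.trans hE)
    rw [le_div_iff₀ (by positivity)]
    calc (Xi G d : ℝ) * (e * D.Y2) = e * (Xi G d * D.Y2) := by ring
      _ ≤ e * (Xi D.F d * D.Y2) := by gcongr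
      _ ≤ e * (LL X ^ c * (1 / e + 1 / e) * (#D.F : ℝ) ^ 2) := by
          refine mul_le_mul_of_nonneg_left (e1.trans ?_) he.le
          gcongr
      _ = _ := by field_simp; ring
  have hx1 := hx 1 one_pos (by nlinarith [hD.ypos]) 1 one_pos (by simp) rQ
  have key := s2_free G D.QQ J S (c := c)
    (XQ := 2 * LL X ^ c * (#D.F : ℝ) ^ 2 / (Q * D.Y2)) hQ h5 h4 hD.ypos
    (fun z hz => hD.size z (hG hz)) (fun z hz => hD.cop z (hG hz))
    (fun q hq => (hD.qpr q hq).2.2) (by positivity)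
    (fun d h1 h2 => hx d (by omega) h2 Q (by positivity) (by exact_mod_cast h1.le) le_rfl)
  have hS' : (#S : ℝ) ≤ X := by
    have := card_le_card hS
    rw [Int.card_Ioc] at this
    have e : (2 * (X : ℤ) - X).toNat = X := by omega
    rw [e] at this
    exact_mod_cast this
  have hG' : (#G : ℝ) ≤ #D.F := by exact_mod_cast card_le_card hG
  have hY1 : (1 : ℝ) ≤ Y1 X := by
    have : 1 ≤ Y1 X := by omega
    exact_mod_cast this
  have hq := hD.qmany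
  have rq : (0 : ℝ) < #D.QQ := by
    by_contra h0
    have : (#D.QQ : ℝ) = 0 := le_antisymm (not_lt.mp h0) (by positivity)
    rw [this] at hq; linarith
  change c0 X D * S2 G D.QQ J (gg Q (Y1 X / Q) S) * Q ≤ _
  set U := S2 G D.QQ J (gg Q (Y1 X / Q) S)
  set F : ℝ := (#D.F : ℝ)
  set y : ℝ := (D.Y2 : ℝ)
  set P := LL X ^ c
  have k2 : (4 * Q * #G + 17 * Xi G 1 + 4 * Q * (2 * P * F ^ 2 / (Q * y)) : ℝ) ≤
      46 * P * F ^ 2 / y := by
    have e1 : (Q : ℝ) * #G ≤ P * F ^ 2 / y := by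
      rw [le_div_iff₀ (by positivity)]
      calc (Q : ℝ) * #G * y = 1 * ((Q * y) * #G) := by ring
        _ ≤ P * (F * F) := by gcongr
        _ = _ := by ring
    have e2 : 4 * Q * (2 * P * F ^ 2 / (Q * y)) = 8 * (P * F ^ 2 / y) := by field_simp; ring
    have e3 : 2 * P * F ^ 2 / (1 * y) = 2 * (P * F ^ 2 / y) := by ring
    have e4 : 46 * P * F ^ 2 / y = 46 * (P * F ^ 2 / y) := by ring
    rw [e3] at hx1
    rw [e2, e4]; linarith
  have k3 : U * y * Q ≤ 120 * c * (46 * P * F ^ 2 / y) * X := key.trans (by gcongr)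
  calc c0 X D * U * Q = (Y1 X / #D.QQ) * (y / F ^ 2) * (U * y * Q) := by
        change (Y1 X : ℝ) * y ^ 2 / (#D.QQ * F ^ 2) * U * Q = _
        field_simp
    _ ≤ LL X * (y / F ^ 2) * (120 * c * (46 * P * F ^ 2 / y) * X) := by
        refine (mul_le_mul_of_nonneg_left k3 (by positivity)).trans ?_
        gcongr
        rwa [div_le_iff₀ rq]
    _ = P * LL X * (5520 * c) * X := by field_simp; ring
    _ ≤ P * LL X * LL X * X := by gcongr
    _ = _ := by simp only [P]; ring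

end Pool.Agent.H84D
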