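import Pool.Agent.H84D.Defs
import Pool.Agent.H84D.Par
import Pool.Agent.MP_48b1c3_nt.H54.Mertens

set_option autoImplicit false

/-! Additive characters, Ramanujan sums and the mean square of a sum over fractions. -/

namespace Pool.Agent.H84D.Ser

open Finset ArithmeticFunction

/-- `exp (2 π i n / d)` -/
noncomputable def ee (d : ℕ) (n : ℤ) : ℂ := Complex.exp (2 * Real.pi * Complex.I * (n / d))

theorem ee_add (d : ℕ) (a b : ℤ) : ee d (a + b) = ee d a * ee d b := by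
  unfold ee
  rw [← Complex.exp_add]
  congr 1
  push_cast
  ring

theorem ee_zero (d : ℕ) : ee d 0 = 1 := by simp [ee]

theorem ee_real (d : ℕ) (n : ℤ) :
    ee d n = Complex.exp (((2 * Real.pi * (n / d) : ℝ) : ℂ) * Complex.I) := by
  unfold ee
  congr 1
  push_cast
  ring

theorem norm_ee (d : ℕ) (n : ℤ) : ‖ee d n‖ = 1 := by
  rw [ee_real, Complex.norm_exp_ofReal_mul_I]

theorem re_ee (d : ℕ) (n : ℤ) : (ee d n).re = Real.cos (2 * Real.pi * (n / d)) := by
  rw [ee_real, Complex.exp_ofReal_mul_I_re]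

theorem conj_ee (d : ℕ) (n : ℤ) : (starRingEnd ℂ) (ee d n) = ee d (-n) := by
  unfold ee
  rw [← Complex.exp_conj]
  congr 1
  simp only [map_mul, map_div₀, Complex.conj_ofReal, Complex.conj_I, map_intCast, map_natCast,
    map_ofNat]
  push_cast
  ring

theorem ee_pow (d : ℕ) (a : ℤ) (i : ℕ) : ee d (a * i) = ee d a ^ i := by
  unfold ee
  rw [← Complex.exp_nat_mul]
  congr 1
  push_cast
  ring

theorem ee_eq_one {d : ℕ} (hd : 0 < d) (a : ℤ) : ee d a = 1 ↔ (d : ℤ) ∣ a := by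
  have hd' : (d : ℂ) ≠ 0 := by exact_mod_cast hd.ne'
  unfold ee
  rw [Complex.exp_eq_one_iff]
  constructor
  · rintro ⟨n, hn⟩
    rw [mul_comm (n : ℂ)] at hn
    have h := mul_left_cancel₀ Complex.two_pi_I_ne_zero hn
    rw [div_eq_iff hd'] at h
    exact ⟨n, by rw [mul_comm]; exact_mod_cast h⟩
  · rintro ⟨n, rfl⟩
    refine ⟨n, ?_⟩
    push_cast
    field_simp

theorem ee_congr {d : ℕ} (hd : 0 < d) {a b : ℤ} (h : (d : ℤ) ∣ a - b) : ee d a = ee d b := by
  have : a = b + (a - b) := by ring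
  rw [this, ee_add, (ee_eq_one hd _).2 h, mul_one]

theorem ee_scale {d g : ℕ} (hg : 0 < g) (a : ℤ) : ee (d * g) (a * g) = ee d a := by
  have hg' : (g : ℂ) ≠ 0 := by exact_mod_cast hg.ne'
  unfold ee
  congr 2
  push_cast
  rw [mul_div_mul_right _ _ hg']

theorem ee_pow_self {d : ℕ} (hd : 0 < d) (a : ℤ) : ee d a ^ d = 1 := by
  rw [← ee_pow]
  exact (ee_eq_one hd _).2 (dvd_mul_left _ _)

theorem sum_range_ee {d : ℕ} (hd : 0 < d) (a : ℤ) :
    ∑ i ∈ range d, ee d (a * i) = if (d : ℤ) ∣ a then (d : ℂ) else 0 := by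
  simp_rw [ee_pow]
  split_ifs with h
  · simp [(ee_eq_one hd a).2 h]
  · have h1 : ee d a ≠ 1 := fun e => h ((ee_eq_one hd a).1 e)
    rw [geom_sum_eq h1, ee_pow_self hd, sub_self, zero_div]

theorem norm_sum_range_ee {d : ℕ} (hd : 0 < d) {a : ℤ} (h : ¬ (d : ℤ) ∣ a) (m : ℕ) :
    ‖∑ i ∈ range m, ee d (a * i)‖ ≤ d := by
  have h1 : ee d a ≠ 1 := fun e => h ((ee_eq_one hd a).1 e)
  have e : ∑ i ∈ range m, ee d (a * i) = ∑ i ∈ range (m % d), ee d (a * i) := by
    simp_rw [ee_pow]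
    rw [geom_sum_eq h1, geom_sum_eq h1, pow_eq_pow_mod m (ee_pow_self hd a)]
  rw [e]
  refine (norm_sum_le _ _).trans ?_
  simp_rw [norm_ee]
  simp only [sum_const, card_range, nsmul_eq_mul, mul_one, Nat.cast_le]
  exact (Nat.mod_lt _ hd).le

theorem sum_Ioc_shift {M : Type*} [AddCommMonoid M] (X : ℕ) (f : ℤ → M) :
    ∑ k ∈ Ioc (X : ℤ) (2 * X), f k = ∑ i ∈ range X, f (X + 1 + i) := by
  symm
  refine sum_nbij' (fun i : ℕ => (X : ℤ) + 1 + i) (fun k => (k - X - 1).toNat) ?_ ?_ ?_ ?_ ?_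
  · intro i hi
    simp only [mem_range, mem_Ioc] at hi ⊢
    omega
  · intro i hi
    simp only [mem_range, mem_Ioc] at hi ⊢
    omega
  · intro i hi
    simp only [mem_range] at hi
    omega
  · intro i hi
    simp only [mem_Ioc] at hi
    omega
  · intro i _
    rfl

theorem norm_sum_Ioc_ee {d : ℕ} (hd : 0 < d) {a : ℤ} (h : ¬ (d : ℤ) ∣ a) (X : ℕ) :
    ‖∑ k ∈ Ioc (X : ℤ) (2 * X), ee d (a * k)‖ ≤ d := by
  rw [sum_Ioc_shift]
  simp_rw [mul_add a ((X : ℤ) + 1), ee_add]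
  rw [← mul_sum, norm_mul, norm_ee, one_mul]
  exact norm_sum_range_ee hd h X

theorem mem_un {d c : ℕ} : c ∈ un d ↔ c < d ∧ c.Coprime d := by simp [un]

theorem card_un (d : ℕ) : #(un d) = d.totient := by
  rw [Nat.totient_eq_card_coprime]
  unfold un
  congr 1
  exact filter_congr fun c _ => Nat.coprime_comm

/-- complex Ramanujan sums -/
noncomputable def rc (d : ℕ) (n : ℤ) : ℂ := ∑ u ∈ un d, ee d (u * n)

theorem re_rc (d : ℕ) (n : ℤ) : (rc d n).re = ram d n := by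
  unfold rc ram
  rw [Complex.re_sum]
  refine sum_congr rfl fun u _ => ?_
  rw [re_ee]
  push_cast
  rfl

theorem sum_rc {W : ℕ} (hW : 0 < W) (n : ℤ) :
    ∑ d ∈ W.divisors, rc d n = if (W : ℤ) ∣ n then (W : ℂ) else 0 := by
  rw [← sum_range_ee hW]
  unfold rc
  rw [sum_sigma']
  refine sum_nbij' (fun x => x.2 * (W / x.1)) (fun t => ⟨W / t.gcd W, t / t.gcd W⟩) ?_ ?_ ?_ ?_ ?_
  · rintro ⟨d, u⟩ hx
    simp only [mem_sigma, Nat.mem_divisors, mem_un, mem_range] at hx ⊢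
    obtain ⟨⟨⟨g, rfl⟩, h0⟩, hu, -⟩ := hx
    have hd : 0 < d := by omega
    have hg : 0 < g := Nat.pos_of_mul_pos_left hW
    rw [Nat.mul_div_cancel_left _ hd]
    exact Nat.mul_lt_mul_of_pos_right hu hg
  · intro t ht
    simp only [mem_sigma, Nat.mem_divisors, mem_un, mem_range] at ht ⊢
    have hg : 0 < t.gcd W := Nat.gcd_pos_of_pos_right _ hW
    exact ⟨⟨Nat.div_dvd_of_dvd (Nat.gcd_dvd_right _ _), hW.ne'⟩,
      Nat.div_lt_div_of_lt_of_dvd (Nat.gcd_dvd_right _ _) ht, Nat.coprime_div_gcd_div_gcd hg⟩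
  · rintro ⟨d, u⟩ hx
    simp only [mem_sigma, Nat.mem_divisors, mem_un] at hx
    obtain ⟨⟨⟨g, rfl⟩, h0⟩, hu, hc⟩ := hx
    have hd : 0 < d := by omega
    have hg : 0 < g := Nat.pos_of_mul_pos_left hW
    have e : (u * g).gcd (d * g) = g := by rw [Nat.gcd_mul_right, hc.gcd_eq_one, one_mul]
    simp only [Nat.mul_div_cancel_left _ hd, e, Nat.mul_div_cancel _ hg]
  · intro t _
    simp only
    rw [Nat.div_div_self (Nat.gcd_dvd_right _ _) hW.ne', Nat.div_mul_cancel (Nat.gcd_dvd_left _ _)]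
  · rintro ⟨d, u⟩ hx
    simp only [mem_sigma, Nat.mem_divisors, mem_un] at hx
    obtain ⟨⟨⟨g, rfl⟩, h0⟩, hu, hc⟩ := hx
    have hd : 0 < d := by omega
    have hg : 0 < g := Nat.pos_of_mul_pos_left hW
    simp only [Nat.mul_div_cancel_left _ hd]
    rw [← ee_scale hg]
    congr 1
    push_cast
    ring

theorem sum_ram {W : ℕ} (hW : 0 < W) (n : ℤ) :
    ∑ d ∈ W.divisors, ram d n = if (W : ℤ) ∣ n then (W : ℝ) else 0 := by
  have := congrArg Complex.re (sum_rc hW n)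
  rw [Complex.re_sum] at this
  simp_rw [re_rc] at this
  rw [this]
  split_ifs <;> simp

/-- `e ↦ e` on divisors of `n` -/
noncomputable def gA (n : ℤ) : ArithmeticFunction ℂ :=
  ⟨fun e => if (e : ℤ) ∣ n then (e : ℂ) else 0, by simp⟩

theorem gA_mult (n : ℤ) : (gA n).IsMultiplicative := by
  refine ⟨by simp [gA], fun {a b} hab => ?_⟩
  have hc : IsCoprime (a : ℤ) (b : ℤ) := Nat.isCoprime_iff_coprime.2 hab
  simp only [gA, coe_mk, Nat.cast_mul]
  by_cases ha : (a : ℤ) ∣ n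
  · by_cases hb : (b : ℤ) ∣ n
    · rw [if_pos (hc.mul_dvd ha hb), if_pos ha, if_pos hb]
    · rw [if_neg hb, if_neg fun h => hb ((dvd_mul_left _ _).trans h), mul_zero]
  · rw [if_neg ha, if_neg fun h => ha ((dvd_mul_right _ _).trans h), zero_mul]

theorem rc_eq {d : ℕ} (hd : 0 < d) (n : ℤ) :
    rc d n = ((moebius : ArithmeticFunction ℂ) * gA n) d := by
  have := (sum_eq_iff_sum_mul_moebius_eq (f := fun d => rc d n) (g := fun e => gA n e)).1
    (fun W hW => sum_rc hW n) d hd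
  rw [← this, mul_apply]
  simp

theorem ram_coe {d : ℕ} (hd : 0 < d) (n : ℤ) : (ram d n : ℂ) = rc d n := by
  have h := (sum_eq_iff_sum_mul_moebius_eq (f := fun d => (ram d n : ℂ))
    (g := fun e => gA n e)).1 (fun W hW => by
      rw [← Complex.ofReal_sum, sum_ram hW]
      simp only [gA, coe_mk]
      split_ifs <;> simp) d hd
  rw [← h, rc_eq hd, mul_apply]
  simp

theorem rc_mul {a b : ℕ} (ha : 0 < a) (hb : 0 < b) (hab : a.Coprime b) (n : ℤ) :
    rc (a * b) n = rc a n * rc b n := by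
  rw [rc_eq ha, rc_eq hb, rc_eq (Nat.mul_pos ha hb)]
  exact (isMultiplicative_moebius.intCast.mul (gA_mult n)).map_mul_of_coprime hab

theorem rc_pow {p : ℕ} (hp : p.Prime) (j : ℕ) (n : ℤ) :
    rc (p ^ (j + 1)) n = (if ((p ^ (j + 1) : ℕ) : ℤ) ∣ n then ((p ^ (j + 1) : ℕ) : ℂ) else 0) -
      if ((p ^ j : ℕ) : ℤ) ∣ n then ((p ^ j : ℕ) : ℂ) else 0 := by
  rw [← sum_rc (pow_pos hp.pos _), ← sum_rc (pow_pos hp.pos _), Nat.sum_divisors_prime_pow hp,
    Nat.sum_divisors_prime_pow hp, sum_range_succ _ (j + 1)]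
  ring

theorem rc_congr {d : ℕ} (hd : 0 < d) {a b : ℤ} (h : (d : ℤ) ∣ a - b) : rc d a = rc d b :=
  sum_congr rfl fun u _ => ee_congr hd (by rw [← mul_sub]; exact h.mul_left _)

theorem ram_congr {d : ℕ} (hd : 0 < d) {a b : ℤ} (h : (d : ℤ) ∣ a - b) : ram d a = ram d b := by
  rw [← re_rc, ← re_rc, rc_congr hd h]

theorem rc_unit {d : ℕ} (hd : 0 < d) {s : ℤ} (hs : IsCoprime s d) (n : ℤ) :
    rc d (s * n) = rc d n := by
  rw [rc_eq hd, rc_eq hd, mul_apply, mul_apply]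
  refine sum_congr rfl fun x hx => ?_
  have h1 : (x.2 : ℤ) ∣ d := by
    exact_mod_cast Nat.dvd_of_mem_divisors (Nat.snd_mem_divisors_of_mem_antidiagonal hx)
  have h2 : IsCoprime (x.2 : ℤ) s := (hs.of_isCoprime_of_dvd_right h1).symm
  have h3 : (x.2 : ℤ) ∣ s * n ↔ (x.2 : ℤ) ∣ n :=
    ⟨fun h => h2.dvd_of_dvd_mul_left h, fun h => h.mul_left _⟩
  simp only [gA, coe_mk, h3]

theorem not_dvd_cross {d d' u u' : ℕ} (hu : u ∈ un d) (hu' : u' ∈ un d')
    (h : ((d * d' : ℕ) : ℤ) ∣ (u : ℤ) * d' - u' * d) : d = d' ∧ u = u' := by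
  obtain ⟨h1, h2⟩ := mem_un.1 hu
  obtain ⟨h3, h4⟩ := mem_un.1 hu'
  push_cast at h
  have a1 : (d : ℤ) ∣ u * d' := by
    have := ((dvd_mul_right (d : ℤ) d').trans h).add (dvd_mul_left (d : ℤ) u')
    simpa using this
  have a2 : (d' : ℤ) ∣ u' * d := by
    have := (dvd_mul_left (d' : ℤ) u).sub ((dvd_mul_left (d' : ℤ) d).trans h)
    simpa using this
  have b1 : d ∣ d' := h2.symm.dvd_of_dvd_mul_left (by exact_mod_cast a1)
  have b2 : d' ∣ d := h4.symm.dvd_of_dvd_mul_left (by exact_mod_cast a2)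
  obtain rfl := Nat.dvd_antisymm b1 b2
  refine ⟨rfl, ?_⟩
  rw [← sub_mul] at h
  have h5 : (d : ℤ) ∣ u - u' := (mul_dvd_mul_iff_right (by omega)).1 h
  have := Int.eq_zero_of_dvd_of_natAbs_lt_natAbs h5 (by omega)
  omega

theorem mean_sq (X Q : ℕ) (T : Finset ℕ) (hT : T ⊆ Icc 1 Q) (γ : ℕ → ℕ → ℂ)
    (hγ : ∀ d u, ‖γ d u‖ ≤ 1) :
    ∑ k ∈ Ioc (X : ℤ) (2 * X), ‖∑ d ∈ T, ∑ u ∈ un d, γ d u * ee d (u * k)‖ ^ 2 ≤
      X * ∑ d ∈ T, ∑ u ∈ un d, ‖γ d u‖ ^ 2 + (Q : ℝ) ^ 6 := by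
  classical
  simp_rw [sum_sigma']
  have hc : (#(T.sigma un) : ℝ) ≤ (Q : ℝ) ^ 2 := by
    have : #(T.sigma un) ≤ #T * Q := by
      rw [card_sigma]
      refine sum_le_card_nsmul _ _ _ fun d hd => ?_
      rw [card_un]
      exact (Nat.totient_le d).trans (mem_Icc.1 (hT hd)).2
    have h2 : #T ≤ Q := by simpa using card_le_card hT
    have : #(T.sigma un) ≤ Q ^ 2 := this.trans (by rw [sq]; exact Nat.mul_le_mul_right _ h2)
    exact_mod_cast this
  generalize hP : T.sigma un = P at hc ⊢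
  have hm : ∀ x ∈ P, 0 < x.1 ∧ x.1 ≤ Q ∧ x.2 ∈ un x.1 := fun x hx => by
    rw [← hP, mem_sigma] at hx
    exact ⟨(mem_Icc.1 (hT hx.1)).1, (mem_Icc.1 (hT hx.1)).2, hx.2⟩
  have e1 : ∀ k : ℤ, ((‖∑ x ∈ P, γ x.1 x.2 * ee x.1 (x.2 * k)‖ ^ 2 : ℝ) : ℂ) =
      ∑ x ∈ P, ∑ y ∈ P, γ x.1 x.2 * (starRingEnd ℂ) (γ y.1 y.2) *
        (ee x.1 (x.2 * k) * ee y.1 (-(y.2 * k))) := fun k => by
    rw [← Complex.normSq_eq_norm_sq, ← Complex.mul_conj, map_sum, sum_mul_sum]
    refine sum_congr rfl fun x _ => sum_congr rfl fun y _ => ?_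
    rw [map_mul, conj_ee]
    ring
  have e2 : ∀ x ∈ P, ∀ y ∈ P, ‖∑ k ∈ Ioc (X : ℤ) (2 * X), γ x.1 x.2 * (starRingEnd ℂ) (γ y.1 y.2) *
        (ee x.1 (x.2 * k) * ee y.1 (-(y.2 * k)))‖ ≤
      (if y = x then X * ‖γ x.1 x.2‖ ^ 2 else 0) + (Q : ℝ) ^ 2 := fun x hx y hy => by
    rw [← mul_sum, norm_mul, norm_mul, Complex.norm_conj]
    obtain ⟨x1, x2, x3⟩ := hm x hx
    obtain ⟨y1, y2, y3⟩ := hm y hy
    split_ifs with h
    · subst h
      simp_rw [← ee_add, add_neg_cancel, ee_zero]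
      simp only [sum_const, Int.card_Ioc, nsmul_eq_mul, mul_one, Complex.norm_natCast]
      have : (2 * (X : ℤ) - X).toNat = X := by omega
      rw [this]
      nlinarith [sq_nonneg (Q : ℝ)]
    · have e : ∀ k : ℤ, ee x.1 (x.2 * k) * ee y.1 (-(y.2 * k)) =
          ee (x.1 * y.1) (((x.2 : ℤ) * y.1 - y.2 * x.1) * k) := fun k => by
        rw [← ee_scale y1 (x.2 * k), ← ee_scale x1 (-(y.2 * k)), mul_comm y.1 x.1, ← ee_add]
        congr 1
        ring
      simp_rw [e]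
      have hn := norm_sum_Ioc_ee (Nat.mul_pos x1 y1) (a := (x.2 : ℤ) * y.1 - y.2 * x.1) (fun hd => by
        obtain ⟨a, b⟩ := not_dvd_cross x3 y3 hd
        exact h (Sigma.ext a.symm (heq_of_eq b.symm))) X
      have h3 : ((x.1 * y.1 : ℕ) : ℝ) ≤ (Q : ℝ) ^ 2 := by
        have : x.1 * y.1 ≤ Q ^ 2 := by rw [sq]; exact Nat.mul_le_mul x2 y2
        exact_mod_cast this
      have h4 : ‖γ x.1 x.2‖ * ‖γ y.1 y.2‖ ≤ 1 :=
        mul_le_one₀ (hγ _ _) (norm_nonneg _) (hγ _ _)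
      rw [zero_add]
      exact (mul_le_of_le_one_left (norm_nonneg _) h4).trans (hn.trans h3)
  have e3 : ∑ k ∈ Ioc (X : ℤ) (2 * X), ‖∑ x ∈ P, γ x.1 x.2 * ee x.1 (x.2 * k)‖ ^ 2 ≤
      ∑ x ∈ P, ∑ y ∈ P, ((if y = x then X * ‖γ x.1 x.2‖ ^ 2 else 0) + (Q : ℝ) ^ 2) := by
    refine (Real.le_norm_self _).trans ?_
    rw [← Complex.norm_real, Complex.ofReal_sum]
    simp_rw [e1]
    rw [sum_comm]
    refine (norm_sum_le _ _).trans (sum_le_sum fun x hx => ?_)
    rw [sum_comm]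
    exact (norm_sum_le _ _).trans (sum_le_sum fun y hy => e2 x hx y hy)
  refine e3.trans ?_
  simp_rw [sum_add_distrib]
  rw [mul_sum]
  refine add_le_add (le_of_eq (sum_congr rfl fun x hx => by rw [sum_ite_eq', if_pos hx])) ?_
  simp only [sum_const, nsmul_eq_mul]
  calc (#P : ℝ) * (#P * (Q : ℝ) ^ 2) ≤ (Q : ℝ) ^ 2 * ((Q : ℝ) ^ 2 * (Q : ℝ) ^ 2) := by gcongr
    _ = (Q : ℝ) ^ 6 := by ring

end Pool.Agent.H84D.Ser

/-! Averages over reduced residues. -/

namespace Pool.Agent.H84D.Ser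

open Finset

variable {K : Type*} [Field K] [CharZero K]

/-- periodic functions -/
def Per (d : ℕ) (f : ℤ → K) : Prop := ∀ a b : ℤ, (d : ℤ) ∣ a - b → f a = f b

/-- the average over reduced residues -/
noncomputable def av (d : ℕ) (f : ℤ → K) : K := (∑ c ∈ un d, f c) / d.totient

theorem sum_hom {G H : Type*} [Group G] [Group H] [Fintype G] [Fintype H] (φ : G →* H)
    (hφ : Function.Surjective φ) (F : H → K) :
    (∑ g, F (φ g)) / Fintype.card G = (∑ h, F h) / Fintype.card H := by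
  classical
  have key : ∀ F : H → K, ∑ g, F (φ g) = (#{g | φ g = 1} : K) * ∑ h, F h := fun F => by
    rw [← sum_fiberwise' univ φ F, mul_sum]
    refine sum_congr rfl fun h _ => ?_
    rw [sum_const, nsmul_eq_mul, MonoidHom.card_fiber_eq_of_mem_range φ (hφ h) (hφ 1)]
  have h1 := key fun _ => 1
  simp only [sum_const, card_univ, nsmul_eq_mul, mul_one] at h1
  have h2 : (Fintype.card G : K) ≠ 0 := Nat.cast_ne_zero.2 Fintype.card_ne_zero
  rw [key F, h1, mul_div_mul_left _ _ (left_ne_zero_of_mul (h1 ▸ h2))]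

omit [CharZero K] in
theorem sum_un {d : ℕ} [NeZero d] (f : ℤ → K) :
    ∑ c ∈ un d, f c = ∑ u : (ZMod d)ˣ, f ((u : ZMod d).val : ℕ) := by
  symm
  refine sum_bij (fun u _ => (u : ZMod d).val) (fun u _ => ?_) (fun u _ v _ h => ?_)
    (fun c hc => ?_) fun u _ => rfl
  · exact mem_un.2 ⟨ZMod.val_lt _, ZMod.val_coe_unit_coprime u⟩
  · exact Units.ext (ZMod.val_injective _ h)
  · obtain ⟨h1, h2⟩ := mem_un.1 hc
    exact ⟨ZMod.unitOfCoprime c h2, mem_univ _, by
      rw [ZMod.coe_unitOfCoprime, ZMod.val_cast_of_lt h1]⟩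

theorem av_dvd {d W : ℕ} (hW : 0 < W) (h : d ∣ W) {f : ℤ → K} (hf : Per d f) :
    av W f = av d f := by
  have : NeZero W := ⟨hW.ne'⟩
  have : NeZero d := ⟨(Nat.pos_of_dvd_of_pos h hW).ne'⟩
  unfold av
  rw [sum_un, sum_un, ← ZMod.card_units_eq_totient, ← ZMod.card_units_eq_totient,
    ← sum_hom (ZMod.unitsMap h) (ZMod.unitsMap_surjective h)]
  congr 1
  refine sum_congr rfl fun u _ => hf _ _ ?_
  rw [← ZMod.intCast_zmod_eq_zero_iff_dvd]
  simp [ZMod.unitsMap_val]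

omit [CharZero K] in
theorem av_mul {a b : ℕ} (ha : 0 < a) (hb : 0 < b) (hab : a.Coprime b) {f g : ℤ → K}
    (hf : Per a f) (hg : Per b g) : av (a * b) (fun c => f c * g c) = av a f * av b g := by
  unfold av
  rw [Nat.totient_mul hab, Nat.cast_mul, div_mul_div_comm, sum_mul_sum, ← sum_product']
  congr 1
  refine sum_nbij' (fun c => (c % a, c % b)) (fun x => Nat.chineseRemainder hab x.1 x.2)
    ?_ ?_ ?_ ?_ ?_
  · intro c hc
    obtain ⟨-, h2⟩ := mem_un.1 hc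
    rw [Nat.coprime_mul_iff_right] at h2
    refine mem_product.2 ⟨mem_un.2 ⟨Nat.mod_lt _ ha, ?_⟩, mem_un.2 ⟨Nat.mod_lt _ hb, ?_⟩⟩
    · exact (ZMod.coprime_mod_iff_coprime _ _).2 h2.1
    · exact (ZMod.coprime_mod_iff_coprime _ _).2 h2.2
  · intro x hx
    obtain ⟨h1, h2⟩ := mem_product.1 hx
    refine mem_un.2 ⟨Nat.chineseRemainder_lt_mul hab _ _ ha.ne' hb.ne', ?_⟩
    have := (Nat.chineseRemainder hab x.1 x.2).2
    rw [Nat.coprime_mul_iff_right]
    exact ⟨(this.1.gcd_eq).trans (mem_un.1 h1).2, (this.2.gcd_eq).trans (mem_un.1 h2).2⟩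
  · intro c hc
    have := Nat.chineseRemainder_modEq_unique hab (Nat.mod_modEq c a).symm (Nat.mod_modEq c b).symm
    exact (this.eq_of_lt_of_lt (mem_un.1 hc).1
      (Nat.chineseRemainder_lt_mul hab _ _ ha.ne' hb.ne')).symm
  · intro x hx
    obtain ⟨h1, h2⟩ := mem_product.1 hx
    have := (Nat.chineseRemainder hab x.1 x.2).2
    exact Prod.ext (Eq.trans this.1 (Nat.mod_eq_of_lt (mem_un.1 h1).1))
      (Eq.trans this.2 (Nat.mod_eq_of_lt (mem_un.1 h2).1))
  · intro c _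
    exact congrArg₂ (· * ·) (hf c (c % a : ℕ) (Nat.mod_modEq c a).dvd)
      (hg c (c % b : ℕ) (Nat.mod_modEq c b).dvd)

theorem tot_ne {d : ℕ} (hd : 0 < d) : (d.totient : K) ≠ 0 :=
  Nat.cast_ne_zero.2 (Nat.totient_pos.2 hd).ne'

theorem av_const {d : ℕ} (hd : 0 < d) (a : K) : av d (fun _ => a) = a := by
  unfold av
  rw [sum_const, card_un, nsmul_eq_mul, mul_div_cancel_left₀ _ (tot_ne hd)]

/-- one averaging step -/
noncomputable def AA (d : ℕ) (h : ℤ → K) (t : ℤ) : K := av d fun c => h (t * (c + 2))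

/-- three averaging steps -/
noncomputable def BB (d : ℕ) (h : ℤ → K) : ℤ → K := AA d (AA d (AA d h))

omit [CharZero K] in
theorem Per.AA {e : ℕ} {h : ℤ → K} (hh : Per e h) (d : ℕ) : Per e (AA d h) := fun a b hab => by
  unfold Ser.AA
  congr 1
  funext c
  exact hh _ _ (by rw [← sub_mul]; exact hab.mul_right _)

omit [CharZero K] in
theorem Per.BB {e : ℕ} {h : ℤ → K} (hh : Per e h) (d : ℕ) : Per e (BB d h) :=
  ((hh.AA d).AA d).AA d

omit [Field K] [CharZero K] in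
theorem Per.step {e : ℕ} {h : ℤ → K} (hh : Per e h) (t : ℤ) : Per e fun c => h (t * (c + 2)) :=
  fun a b hab => hh _ _ (by
    rw [← mul_sub, add_sub_add_right_eq_sub]
    exact hab.mul_left _)

theorem AA_dvd {d W : ℕ} (hW : 0 < W) (h : d ∣ W) {f : ℤ → K} (hf : Per d f) :
    AA W f = AA d f := funext fun t => av_dvd hW h (hf.step t)

theorem BB_dvd {d W : ℕ} (hW : 0 < W) (h : d ∣ W) {f : ℤ → K} (hf : Per d f) :
    BB W f = BB d f := by
  unfold BB
  rw [AA_dvd hW h hf, AA_dvd hW h (hf.AA d), AA_dvd hW h ((hf.AA d).AA d)]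

omit [CharZero K] in
theorem AA_mul {a b : ℕ} (ha : 0 < a) (hb : 0 < b) (hab : a.Coprime b) {f g : ℤ → K}
    (hf : Per a f) (hg : Per b g) :
    AA (a * b) (fun c => f c * g c) = fun t => AA a f t * AA b g t :=
  funext fun t => av_mul ha hb hab (hf.step t) (hg.step t)

omit [CharZero K] in
theorem BB_mul {a b : ℕ} (ha : 0 < a) (hb : 0 < b) (hab : a.Coprime b) {f g : ℤ → K}
    (hf : Per a f) (hg : Per b g) :
    BB (a * b) (fun c => f c * g c) = fun t => BB a f t * BB b g t := by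
  unfold BB
  rw [AA_mul ha hb hab hf hg, AA_mul ha hb hab (hf.AA a) (hg.AA b),
    AA_mul ha hb hab ((hf.AA a).AA a) ((hg.AA b).AA b)]

theorem AA_const {d : ℕ} (hd : 0 < d) (a : K) : AA d (fun _ => a) = fun _ => a :=
  funext fun _ => av_const hd a

omit [CharZero K] in
theorem AA_sum {ι : Type*} (d : ℕ) (s : Finset ι) (a : ι → K) (f : ι → ℤ → K) :
    AA d (fun t => ∑ i ∈ s, a i * f i t) = fun t => ∑ i ∈ s, a i * AA d (f i) t := by
  funext t
  unfold AA av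
  rw [sum_comm, sum_div]
  refine sum_congr rfl fun i _ => ?_
  rw [← mul_sum, mul_div_assoc]

omit [CharZero K] in
theorem BB_sum {ι : Type*} (d : ℕ) (s : Finset ι) (a : ι → K) (f : ι → ℤ → K) :
    BB d (fun t => ∑ i ∈ s, a i * f i t) = fun t => ∑ i ∈ s, a i * BB d (f i) t := by
  unfold BB
  rw [AA_sum, AA_sum, AA_sum]

omit [CharZero K] in
theorem AA_lin (d : ℕ) (a b : K) (f g : ℤ → K) :
    AA d (fun t => a * f t + b * g t) = fun t => a * AA d f t + b * AA d g t := by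
  funext t
  unfold AA av
  rw [sum_add_distrib, ← mul_sum, ← mul_sum]
  ring

omit [CharZero K] in
theorem AA_scale (d : ℕ) (s : ℤ) (f : ℤ → K) :
    AA d (fun t => f (s * t)) = fun t => AA d f (s * t) := by
  funext t
  unfold AA
  simp_rw [mul_assoc]

omit [CharZero K] in
theorem BB_scale (d : ℕ) (s : ℤ) (f : ℤ → K) :
    BB d (fun t => f (s * t)) = fun t => BB d f (s * t) := by
  unfold BB
  rw [AA_scale, AA_scale d s (AA d f), AA_scale d s (AA d (AA d f))]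

theorem AA_map {L : Type*} [Field L] [CharZero L] (φ : K →+* L) (d : ℕ) (f : ℤ → K) :
    AA d (fun t => φ (f t)) = fun t => φ (AA d f t) := by
  funext t
  unfold AA av
  rw [map_div₀, map_sum, map_natCast]

theorem BB_map {L : Type*} [Field L] [CharZero L] (φ : K →+* L) (d : ℕ) (f : ℤ → K) :
    BB d (fun t => φ (f t)) = fun t => φ (BB d f t) := by
  unfold BB
  rw [AA_map, AA_map φ d (AA d f), AA_map φ d (AA d (AA d f))]

omit [CharZero K] in
theorem BB_eq (d : ℕ) (f : ℤ → K) (x : ℤ) : BB d f x = 1 / (d.totient : K) ^ 3 *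
    ∑ c₁ ∈ un d, ∑ c₂ ∈ un d, ∑ c₃ ∈ un d, f (x * (c₁ + 2) * (c₂ + 2) * (c₃ + 2)) := by
  unfold BB AA av
  simp_rw [← sum_div]
  ring

theorem AA_mono (d : ℕ) {f g : ℤ → ℝ} (h : ∀ t, f t ≤ g t) (t : ℤ) : AA d f t ≤ AA d g t :=
  div_le_div_of_nonneg_right (sum_le_sum fun _ _ => h _) (Nat.cast_nonneg _)

theorem AA_nonneg (d : ℕ) {f : ℤ → ℝ} (h : ∀ t, 0 ≤ f t) (t : ℤ) : 0 ≤ AA d f t :=
  div_nonneg (sum_nonneg fun _ _ => h _) (Nat.cast_nonneg _)

theorem norm_AA (d : ℕ) {f : ℤ → ℂ} {g : ℤ → ℝ} (h : ∀ t, ‖f t‖ ≤ g t) (t : ℤ) :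
    ‖AA d f t‖ ≤ AA d g t := by
  unfold AA av
  rw [norm_div, Complex.norm_natCast]
  exact div_le_div_of_nonneg_right ((norm_sum_le _ _).trans (sum_le_sum fun _ _ => h _))
    (Nat.cast_nonneg _)

theorem norm_AA_le {d : ℕ} (hd : 0 < d) {f : ℤ → ℂ} {a : ℝ} (h : ∀ t, ‖f t‖ ≤ a) (t : ℤ) :
    ‖AA d f t‖ ≤ a := by
  have := norm_AA d (g := fun _ => a) h t
  rwa [AA_const hd] at this

end Pool.Agent.H84D.Ser

/-! Local bounds for the mean square of one term of the singular series. -/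

namespace Pool.Agent.H84D.Ser

open Finset

/-- the Fourier coefficient of the product of three shifted units -/
noncomputable def rho (d : ℕ) (g : ℤ) : ℂ := BB d (ee d) g

/-- the correlation of two terms -/
noncomputable def SC (d : ℕ) (x x' Δ : ℤ) : ℂ :=
  ∑ u ∈ un d, ee d (u * Δ) * (rho d (-u * x) * rho d (u * x'))

theorem SC_eq (d : ℕ) (x x' Δ : ℤ) :
    SC d x x' Δ = BB d (fun t => BB d (fun t' => rc d (Δ - t + t')) x') x := by
  have h1 : ∀ t : ℤ, BB d (fun t' => rc d (Δ - t + t')) x' =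
      ∑ u ∈ un d, ee d (u * Δ) * rho d (u * x') * ee d (-u * t) := fun t => by
    have : (fun t' => rc d (Δ - t + t')) =
        fun t' => ∑ u ∈ un d, ee d (u * Δ) * ee d (-u * t) * ee d (u * t') := by
      funext t'
      refine sum_congr rfl fun u _ => ?_
      rw [← ee_add, ← ee_add]
      congr 1
      ring
    rw [this, BB_sum d (un d) _ fun (u : ℕ) t' => ee d (u * t')]
    refine sum_congr rfl fun u _ => ?_
    rw [BB_scale]
    unfold rho
    ring
  simp_rw [h1]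
  rw [BB_sum d (un d) _ fun (u : ℕ) t => ee d (-u * t)]
  refine sum_congr rfl fun u _ => ?_
  rw [BB_scale]
  unfold rho
  ring

theorem per_rc {d : ℕ} (hd : 0 < d) (s : ℤ) : Per d fun t' => rc d (s + t') :=
  fun a b h => rc_congr hd (by rwa [add_sub_add_left_eq_sub])

theorem per_BB_rc {d : ℕ} (hd : 0 < d) (Δ x' : ℤ) :
    Per d fun t => BB d (fun t' => rc d (Δ - t + t')) x' := fun a b h => by
  refine congrArg (fun f => BB d f x') (funext fun t' => rc_congr hd ?_)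
  have : Δ - a + t' - (Δ - b + t') = -(a - b) := by ring
  rw [this]
  exact h.neg_right

theorem SC_mul {a b : ℕ} (ha : 0 < a) (hb : 0 < b) (hab : a.Coprime b) (x x' Δ : ℤ) :
    SC (a * b) x x' Δ = SC a x x' Δ * SC b x x' Δ := by
  simp_rw [SC_eq, rc_mul ha hb hab, BB_mul ha hb hab (per_rc ha _) (per_rc hb _)]
  rw [BB_mul ha hb hab (per_BB_rc ha Δ x') (per_BB_rc hb Δ x')]

/-- indicator of the multiples of `e` -/
noncomputable def dv (e : ℕ) (t : ℤ) : ℝ := if (e : ℤ) ∣ t then 1 else 0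

theorem dv_nonneg (e : ℕ) (t : ℤ) : 0 ≤ dv e t := by
  unfold dv
  split_ifs <;> norm_num

theorem dv_unit {e : ℕ} {s : ℤ} (hs : IsCoprime s e) (t : ℤ) : dv e (s * t) = dv e t := by
  have : (e : ℤ) ∣ s * t ↔ (e : ℤ) ∣ t :=
    ⟨fun h => hs.symm.dvd_of_dvd_mul_left h, fun h => h.mul_left _⟩
  simp only [dv, this]

theorem AA_dv_unit {d e : ℕ} (hd : 0 < d) (he : e ∣ d) {g : ℤ} (hg : IsCoprime g d) :
    AA d (dv e) g ≤ d / d.totient / e := by
  have hge : IsCoprime g e := hg.of_isCoprime_of_dvd_right (by exact_mod_cast he)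
  obtain ⟨m, rfl⟩ := he
  have he : 0 < e := Nat.pos_of_mul_pos_right hd
  unfold AA av
  simp_rw [dv_unit hge]
  rw [div_right_comm, Nat.cast_mul, mul_div_cancel_left₀ _ (by positivity)]
  refine div_le_div_of_nonneg_right ?_ (Nat.cast_nonneg _)
  unfold dv
  rw [sum_boole, Nat.cast_le]
  refine (card_le_card_of_injOn (t := range m) (fun c => c / e) (fun c hc => ?_)
    fun c hc c' hc' h => ?_).trans_eq (card_range m)
  · simp only [coe_filter, Set.mem_ofPred_eq, mem_un, coe_range, Set.mem_Iio] at hc ⊢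
    exact Nat.div_lt_of_lt_mul hc.1.1
  · simp only [coe_filter, Set.mem_ofPred_eq] at hc hc' h
    have h1 : c ≡ c' [MOD e] := by
      rw [Nat.modEq_iff_dvd]
      simpa using hc'.2.sub hc.2
    rw [← Nat.div_add_mod c e, ← Nat.div_add_mod c' e, h, h1]

theorem dv_mul {e : ℕ} (he : 0 < e) (t n : ℤ) :
    dv e (t * n) ≤ ∑ x ∈ e.divisorsAntidiagonal, dv x.1 t * dv x.2 n := by
  have h0 : ∀ x ∈ e.divisorsAntidiagonal, 0 ≤ dv x.1 t * dv x.2 n := fun x _ =>
    mul_nonneg (dv_nonneg _ _) (dv_nonneg _ _)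
  by_cases h : (e : ℤ) ∣ t * n
  · obtain ⟨a, b, ha, hb, hab⟩ := exists_dvd_and_dvd_of_dvd_mul h
    refine le_trans ?_ (single_le_sum h0 (a := (a.natAbs, b.natAbs)) ?_)
    · simp [dv, h, ha, hb]
    · rw [Nat.mem_divisorsAntidiagonal, ← Int.natAbs_mul, ← hab]
      exact ⟨Int.natAbs_natCast e, he.ne'⟩
  · rw [dv, if_neg h]
    exact sum_nonneg h0

theorem AA_AA_dv {d e : ℕ} (hd : 0 < d) (he : e ∣ d) {g : ℤ} (hg : IsCoprime g d) :
    AA d (AA d (dv e)) g ≤ #e.divisors * (d / d.totient) ^ 2 / e := by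
  have he0 := Nat.pos_of_dvd_of_pos he hd
  have h1 : ∀ t, AA d (dv e) t ≤
      ∑ x ∈ e.divisorsAntidiagonal, d / d.totient / x.2 * dv x.1 t := fun t => by
    have h2 : AA d (dv e) t ≤ AA d (fun n => ∑ x ∈ e.divisorsAntidiagonal, dv x.1 t * dv x.2 n) 1 :=
      div_le_div_of_nonneg_right (sum_le_sum fun c _ => by
        simp only [one_mul]
        exact dv_mul he0 _ _) (Nat.cast_nonneg _)
    rw [AA_sum] at h2
    refine h2.trans (sum_le_sum fun x hx => ?_)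
    rw [mul_comm]
    exact mul_le_mul_of_nonneg_right (AA_dv_unit hd
      ((Nat.dvd_of_mem_divisors (Nat.snd_mem_divisors_of_mem_antidiagonal hx)).trans he)
      isCoprime_one_left) (dv_nonneg _ _)
  refine (AA_mono d h1 g).trans ?_
  rw [AA_sum]
  beta_reduce
  rw [Nat.sum_divisorsAntidiagonal fun a b => (d : ℝ) / d.totient / b * AA d (dv a) g,
    mul_div_assoc, ← nsmul_eq_mul]
  refine sum_le_card_nsmul _ _ _ fun a ha => ?_
  obtain ⟨b, rfl⟩ := Nat.dvd_of_mem_divisors ha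
  have ha0 : 0 < a := Nat.pos_of_mul_pos_right he0
  have hb0 : 0 < b := Nat.pos_of_mul_pos_left he0
  rw [Nat.mul_div_cancel_left _ ha0]
  refine (mul_le_mul_of_nonneg_left (AA_dv_unit hd ((dvd_mul_right a b).trans he) hg)
    (by positivity)).trans_eq ?_
  push_cast
  field_simp

theorem AA_ee (d : ℕ) (t : ℤ) : AA d (ee d) t = ee d (2 * t) * rc d t / d.totient := by
  unfold AA av rc
  rw [mul_sum]
  refine congrArg (· / (d.totient : ℂ)) (sum_congr rfl fun c _ => ?_)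
  rw [← ee_add]
  exact congrArg (ee d) (by ring)

theorem norm_rho {d : ℕ} (hd : 0 < d) (g : ℤ) : ‖rho d g‖ ≤ 1 :=
  norm_AA_le hd (norm_AA_le hd (norm_AA_le hd fun t => (norm_ee d t).le)) g

theorem conj_rho (d : ℕ) (g : ℤ) : (starRingEnd ℂ) (rho d g) = rho d (-g) := by
  have h := congrFun (BB_map (starRingEnd ℂ) d (ee d)) g
  have h2 := congrFun (BB_scale d (-1) (ee d)) g
  simp only [conj_ee, neg_one_mul] at h h2
  unfold rho
  rw [← h, h2]

theorem kap_le {p : ℕ} (hp : p.Prime) (j : ℕ) :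
    ((p ^ (j + 1) : ℕ) : ℝ) / (p ^ (j + 1)).totient ≤ 2 := by
  have h2 := hp.two_le
  rw [div_le_iff₀ (by exact_mod_cast Nat.totient_pos.2 (by positivity)),
    Nat.totient_prime_pow_succ hp]
  have : p ^ (j + 1) ≤ 2 * (p ^ j * (p - 1)) := by
    rw [pow_succ, mul_left_comm]
    exact Nat.mul_le_mul_left _ (by omega)
  exact_mod_cast this

theorem norm_rc_pow {p : ℕ} (hp : p.Prime) (j : ℕ) (t : ℤ) :
    ‖rc (p ^ (j + 1)) t‖ ≤
      (p ^ (j + 1) : ℕ) * dv (p ^ (j + 1)) t + (p ^ j : ℕ) * dv (p ^ j) t := by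
  rw [rc_pow hp]
  refine (norm_sub_le _ _).trans (add_le_add ?_ ?_) <;>
  · unfold dv
    split_ifs <;> simp

theorem norm_rho_pow {p : ℕ} (hp : p.Prime) (j : ℕ) {g : ℤ} (hg : IsCoprime g (p ^ (j + 1) : ℕ)) :
    ‖rho (p ^ (j + 1)) g‖ ≤ 16 * (j + 2) / (p ^ (j + 1) : ℕ) := by
  have hk := kap_le hp j
  have hd : 0 < p ^ (j + 1) := pow_pos hp.pos _
  have a1 := AA_AA_dv hd dvd_rfl hg
  have a2 := AA_AA_dv hd (pow_dvd_pow p j.le_succ) hg
  rw [Nat.divisors_prime_pow hp, card_map, card_range] at a1 a2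
  have hp0 : (0 : ℝ) < p := by exact_mod_cast hp.pos
  have hq : ((p ^ j : ℕ) : ℝ) = (p ^ (j + 1) : ℕ) / p := by
    push_cast
    rw [pow_succ, mul_div_cancel_right₀ _ hp0.ne']
  generalize hd' : p ^ (j + 1) = d at *
  have h1 : ∀ t, ‖AA d (ee d) t‖ ≤
      d / d.totient * dv d t + (p ^ j : ℕ) / d.totient * dv (p ^ j) t := fun t => by
    rw [AA_ee, norm_div, norm_mul, norm_ee, one_mul, Complex.norm_natCast, div_mul_eq_mul_div,
      div_mul_eq_mul_div, ← add_div, ← hd']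
    exact div_le_div_of_nonneg_right (norm_rc_pow hp j t) (Nat.cast_nonneg _)
  have h2 := norm_AA d (norm_AA d h1) g
  rw [AA_lin, AA_lin] at h2
  have hd0 : (0 : ℝ) < d := by exact_mod_cast hd
  have hk0 : (0 : ℝ) ≤ d / d.totient := by positivity
  refine h2.trans ((add_le_add (mul_le_mul_of_nonneg_left a1 hk0)
    (mul_le_mul_of_nonneg_left a2 (by positivity))).trans ?_)
  rw [hq, div_right_comm (d : ℝ) p]
  generalize (d : ℝ) / d.totient = k at *
  have h3 : k ^ 3 ≤ 2 ^ 3 := pow_le_pow_left₀ hk0 hk 3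
  have h4 : k * (((j + 1 + 1 : ℕ) : ℝ) * k ^ 2 / d) + k / p * (((j + 1 : ℕ) : ℝ) * k ^ 2 / (d / p)) =
      k ^ 3 * (2 * j + 3) / d := by
    push_cast
    field_simp
    ring
  rw [h4]
  refine div_le_div_of_nonneg_right ?_ hd0.le
  nlinarith [(Nat.cast_nonneg j : (0 : ℝ) ≤ j)]

theorem cop_un {d u : ℕ} (hu : u ∈ un d) : IsCoprime (u : ℤ) d :=
  Nat.isCoprime_iff_coprime.2 (mem_un.1 hu).2

theorem norm_SC_pow {p : ℕ} (hp : p.Prime) (j : ℕ) {x x' : ℤ}
    (hx : IsCoprime x (p ^ (j + 1) : ℕ)) (hx' : IsCoprime x' (p ^ (j + 1) : ℕ)) (Δ : ℤ) :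
    ‖SC (p ^ (j + 1)) x x' Δ‖ ≤ 256 * (j + 2) ^ 2 / (p ^ (j + 1) : ℕ) := by
  have hd : (0 : ℝ) < (p ^ (j + 1) : ℕ) := by exact_mod_cast pow_pos hp.pos _
  unfold SC
  refine (norm_sum_le _ _).trans ((sum_le_card_nsmul _ _
    ((16 * (j + 2) / (p ^ (j + 1) : ℕ)) * (16 * (j + 2) / (p ^ (j + 1) : ℕ)) : ℝ)
    fun u hu => ?_).trans ?_)
  · rw [norm_mul, norm_ee, one_mul, norm_mul]
    exact mul_le_mul (norm_rho_pow hp j ((cop_un hu).neg_left.mul_left hx))
      (norm_rho_pow hp j ((cop_un hu).mul_left hx')) (norm_nonneg _) (by positivity)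
  · rw [card_un, nsmul_eq_mul]
    refine (mul_le_mul_of_nonneg_right (Nat.cast_le.2 (Nat.totient_le _))
      (by positivity)).trans_eq ?_
    field_simp
    norm_num

theorem AA_ee_prime {p : ℕ} (hp : p.Prime) : AA p (ee p) = fun t =>
    (p / p.totient : ℂ) * (dv p t : ℂ) + (-1 / p.totient : ℂ) * ee p (2 * t) := by
  funext t
  have h := rc_pow hp 0 t
  simp only [zero_add, pow_one, pow_zero, Nat.cast_one, one_dvd, if_true] at h
  rw [AA_ee, h]
  unfold dv
  split_ifs with h1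
  · rw [(ee_eq_one hp.pos _).2 (h1.mul_left 2)]
    push_cast
    ring
  · push_cast
    ring

theorem rho_prime {p : ℕ} (hp : p.Prime) (h2 : p ≠ 2) : ∃ α : ℂ, ‖α‖ ≤ 20 / p ∧
    ∀ g : ℤ, IsCoprime g p → ‖rho p g - α‖ ≤ 4 / (p : ℝ) ^ 2 := by
  have hk := kap_le hp 0
  rw [zero_add, pow_one] at hk
  have hp0 : (0 : ℝ) < p := by exact_mod_cast hp.pos
  have ht : (0 : ℝ) < p.totient := by exact_mod_cast Nat.totient_pos.2 hp.pos
  have hb : (1 : ℝ) / p.totient ≤ 2 / p := by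
    rw [div_le_div_iff₀ ht hp0]
    rw [div_le_iff₀ ht] at hk
    linarith
  have hb1 : (1 : ℝ) / p.totient ≤ 1 :=
    (div_le_one ht).2 (by exact_mod_cast Nat.totient_pos.2 hp.pos)
  have c2 : IsCoprime (2 : ℤ) p :=
    Nat.isCoprime_iff_coprime.2 ((Nat.coprime_primes Nat.prime_two hp).2 h2.symm)
  obtain ⟨D, hD⟩ : ∃ D : ℤ → ℂ, D = fun t => (dv p t : ℂ) := ⟨_, rfl⟩
  have hD1 : AA p D = fun t => ((AA p (dv p) t : ℝ) : ℂ) := hD ▸ AA_map Complex.ofRealHom p (dv p)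
  have hD2 : AA p (AA p D) = fun t => ((AA p (AA p (dv p)) t : ℝ) : ℂ) :=
    hD1 ▸ AA_map Complex.ofRealHom p (AA p (dv p))
  have u0 : ∀ s : ℤ, IsCoprime s p → (fun t => D (s * t)) = D := fun s hs => by
    simp only [hD, dv_unit hs]
  have u1 : ∀ s : ℤ, IsCoprime s p → (fun t => AA p D (s * t)) = AA p D := fun s hs => by
    rw [← AA_scale, u0 s hs]
  have u2 : ∀ s : ℤ, IsCoprime s p → (fun t => AA p (AA p D) (s * t)) = AA p (AA p D) :=
    fun s hs => by rw [← AA_scale, u1 s hs]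
  have e1 : AA p (ee p) = fun t => (p / p.totient : ℂ) * D t + (-1 / p.totient : ℂ) * ee p (2 * t) :=
    hD ▸ AA_ee_prime hp
  have e2 : AA p (AA p (ee p)) = fun t => (p / p.totient : ℂ) * AA p D t +
      (-1 / p.totient : ℂ) * AA p (ee p) (2 * t) := by
    conv_lhs => rw [e1, AA_lin, AA_scale]
  have e3 : ∀ t, rho p t = (p / p.totient : ℂ) * AA p (AA p D) t +
      (-1 / p.totient : ℂ) * AA p (AA p (ee p)) (2 * t) := fun t => by
    unfold rho BB
    conv_lhs => rw [e2, AA_lin, AA_scale p 2 (AA p (ee p))]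
  refine ⟨(p / p.totient : ℂ) * AA p (AA p D) 1 +
    (-1 / p.totient : ℂ) * ((p / p.totient : ℂ) * AA p D 1), ?_, fun g hg => ?_⟩
  · have a1 := AA_AA_dv hp.pos dvd_rfl isCoprime_one_left
    have a2 := AA_dv_unit hp.pos dvd_rfl isCoprime_one_left
    rw [hp.divisors, card_pair hp.one_lt.ne] at a1
    have n1 := AA_nonneg p (dv_nonneg p)
    have n2 := AA_nonneg p n1
    refine (norm_add_le _ _).trans ?_
    rw [hD2, hD1]
    simp only [norm_mul, norm_div, Complex.norm_natCast, norm_neg, norm_one, Complex.norm_real,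
      Real.norm_of_nonneg (n1 1), Real.norm_of_nonneg (n2 1)]
    have hk0 : (0 : ℝ) ≤ p / p.totient := by positivity
    generalize (p : ℝ) / p.totient = k at *
    have b1 : AA p (AA p (dv p)) 1 ≤ 8 / p := a1.trans (div_le_div_of_nonneg_right (by
      push_cast
      nlinarith) hp0.le)
    have b2 : AA p (dv p) 1 ≤ 2 / p := a2.trans (div_le_div_of_nonneg_right hk hp0.le)
    calc _ ≤ 2 * (8 / (p : ℝ)) + 1 * (2 * (2 / p)) := by
          have := n1 1
          have := n2 1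
          gcongr
      _ = 20 / p := by ring
  · have v2 := congrFun (u2 g hg) 1
    have v1 := congrFun (u1 (2 * g) (c2.mul_left hg)) 1
    simp only [mul_one] at v1 v2
    rw [e3, e2]
    simp only [v1, v2]
    have : ∀ a b c s : ℂ, a + s * (b + s * c) - (a + s * b) = s * (s * c) := fun a b c s => by ring
    rw [this]
    simp only [norm_mul, norm_div, Complex.norm_natCast, norm_neg, norm_one]
    have := norm_AA_le hp.pos (fun t => (norm_ee p t).le) (2 * (2 * g))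
    calc _ ≤ 2 / (p : ℝ) * (2 / p * 1) := by gcongr
      _ = _ := by ring

theorem norm_SC_prime {p : ℕ} (hp : p.Prime) (h2 : p ≠ 2) {x x' : ℤ}
    (hx : IsCoprime x p) (hx' : IsCoprime x' p) (Δ : ℤ) :
    ‖SC p x x' Δ‖ ≤ 576 / (p : ℝ) ^ 2 + 400 / p * dv p Δ := by
  obtain ⟨α, h1, h3⟩ := rho_prime hp h2
  have hp1 : (1 : ℝ) ≤ p := by exact_mod_cast hp.pos
  have e : SC p x x' Δ = α * α * rc p Δ +
      ∑ u ∈ un p, ee p (u * Δ) * ((rho p (-u * x) - α) * (rho p (u * x') - α) +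
        α * (rho p (-u * x) - α) + α * (rho p (u * x') - α)) := by
    unfold SC rc
    rw [mul_sum, ← sum_add_distrib]
    exact sum_congr rfl fun u _ => by ring
  have hr := norm_rc_pow hp 0 Δ
  simp only [zero_add, pow_one, pow_zero, Nat.cast_one, one_mul] at hr
  have hr1 : dv 1 Δ = 1 := by simp [dv]
  have hd := dv_nonneg p Δ
  rw [e]
  refine (norm_add_le _ _).trans ?_
  have b1 : ‖α * α * rc p Δ‖ ≤ 20 / p * (20 / p) * (p * dv p Δ + 1) := by
    rw [norm_mul, norm_mul, ← hr1]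
    gcongr
  have b2 := (norm_sum_le _ _).trans (sum_le_card_nsmul (un p) (fun u => ‖ee p (u * Δ) *
      ((rho p (-u * x) - α) * (rho p (u * x') - α) + α * (rho p (-u * x) - α) +
        α * (rho p (u * x') - α))‖) (4 / (p : ℝ) ^ 2 * (4 / (p : ℝ) ^ 2) +
          20 / p * (4 / (p : ℝ) ^ 2) + 20 / p * (4 / (p : ℝ) ^ 2)) fun u hu => by
    have c1 := h3 _ ((cop_un hu).neg_left.mul_left hx)
    have c2 := h3 _ ((cop_un hu).mul_left hx')
    rw [norm_mul, norm_ee, one_mul]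
    refine (norm_add₃_le).trans ?_
    rw [norm_mul, norm_mul, norm_mul]
    gcongr)
  rw [card_un, nsmul_eq_mul] at b2
  have b3 := b2.trans (mul_le_mul_of_nonneg_right (Nat.cast_le.2 (Nat.totient_le p))
    (by positivity))
  refine (add_le_add b1 b3).trans ?_
  have b4 : 16 / (p : ℝ) ^ 3 ≤ 16 / (p : ℝ) ^ 2 :=
    div_le_div_of_nonneg_left (by norm_num) (by positivity) (pow_le_pow_right₀ hp1 (by norm_num))
  calc _ = 560 / (p : ℝ) ^ 2 + 16 / (p : ℝ) ^ 3 + 400 / p * dv p Δ := by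
        field_simp
        ring
    _ ≤ 560 / (p : ℝ) ^ 2 + 16 / (p : ℝ) ^ 2 + 400 / p * dv p Δ := by gcongr
    _ = _ := by ring

end Pool.Agent.H84D.Ser

/-! The multiplicative majorant and its tail. -/

namespace Pool.Agent.H84D.Ser

open Finset ArithmeticFunction

/-- the local factor -/
noncomputable def loc (p j : ℕ) : ℝ := (j + 1) ^ 2 / (p : ℝ) ^ max j 2

/-- the multiplicative majorant -/
noncomputable def sK (K : ℝ) : ArithmeticFunction ℝ :=
  ⟨fun d => if d = 0 then 0 else d.factorization.prod fun p j => K * loc p j, by simp⟩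

theorem sK_apply (K : ℝ) {d : ℕ} (hd : d ≠ 0) :
    sK K d = d.factorization.prod fun p j => K * loc p j := if_neg hd

theorem sK_mult (K : ℝ) : (sK K).IsMultiplicative := by
  rw [IsMultiplicative.iff_ne_zero]
  refine ⟨by rw [sK_apply K one_ne_zero]; simp, fun {a b} ha hb hab => ?_⟩
  rw [sK_apply K ha, sK_apply K hb, sK_apply K (mul_ne_zero ha hb), Nat.factorization_mul ha hb,
    Finsupp.prod_add_index_of_disjoint hab.disjoint_primeFactors]

theorem sK_nonneg {K : ℝ} (hK : 0 ≤ K) (d : ℕ) : 0 ≤ sK K d := by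
  rcases eq_or_ne d 0 with rfl | hd
  · simp
  · rw [sK_apply K hd]
    exact prod_nonneg fun p _ => mul_nonneg hK (by unfold loc; positivity)

theorem sK_pow (K : ℝ) {p : ℕ} (hp : p.Prime) (j : ℕ) :
    sK K (p ^ (j + 1)) = K * loc p (j + 1) := by
  rw [sK_apply K (pow_pos hp.pos _).ne', hp.factorization_pow, Finsupp.prod,
    Finsupp.support_single _ j.succ_ne_zero, prod_singleton, Finsupp.single_eq_same]

theorem sK_three (K : ℝ) (d : ℕ) : sK (3 * K) d = 3 ^ #d.primeFactors * sK K d := by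
  rcases eq_or_ne d 0 with rfl | hd
  · simp
  · rw [sK_apply _ hd, sK_apply _ hd, Finsupp.prod, Finsupp.prod, Nat.support_factorization,
      ← prod_const, ← prod_mul_distrib]
    exact prod_congr rfl fun p _ => mul_assoc _ _ _

open Classical in
/-- the part of the majorant that sees the shift -/
noncomputable def bA (K : ℝ) (Δ : ℤ) : ArithmeticFunction ℝ :=
  ⟨fun e => if Squarefree e ∧ e.Coprime 6 then dv e Δ * (e * sK K e) else 0, by simp⟩

open Classical in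
theorem bA_apply (K : ℝ) (Δ : ℤ) (e : ℕ) :
    bA K Δ e = if Squarefree e ∧ e.Coprime 6 then dv e Δ * (e * sK K e) else 0 := rfl

theorem dv_cop {a b : ℕ} (hab : a.Coprime b) (n : ℤ) : dv (a * b) n = dv a n * dv b n := by
  have hc : IsCoprime (a : ℤ) (b : ℤ) := Nat.isCoprime_iff_coprime.2 hab
  simp only [dv, Nat.cast_mul]
  by_cases ha : (a : ℤ) ∣ n
  · by_cases hb : (b : ℤ) ∣ n
    · rw [if_pos (hc.mul_dvd ha hb), if_pos ha, if_pos hb, mul_one]
    · rw [if_neg hb, if_neg fun h => hb ((dvd_mul_left _ _).trans h), mul_zero]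
  · rw [if_neg ha, if_neg fun h => ha ((dvd_mul_right _ _).trans h), zero_mul]

theorem bA_mult (K : ℝ) (Δ : ℤ) : (bA K Δ).IsMultiplicative := by
  refine ⟨by simp [bA_apply, dv, (sK_mult K).map_one], fun {a b} hab => ?_⟩
  simp only [bA_apply, Nat.squarefree_mul hab, Nat.coprime_mul_iff_left, dv_cop hab,
    (sK_mult K).map_mul_of_coprime hab, Nat.cast_mul]
  by_cases ha : Squarefree a ∧ a.Coprime 6
  · by_cases hb : Squarefree b ∧ b.Coprime 6
    · rw [if_pos ha, if_pos hb, if_pos ⟨⟨ha.1, hb.1⟩, ha.2, hb.2⟩]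
      ring
    · rw [if_neg hb, if_neg fun h => hb ⟨h.1.2, h.2.2⟩, mul_zero]
  · rw [if_neg ha, if_neg fun h => ha ⟨h.1.1, h.2.1⟩, zero_mul]

theorem bA_nonneg {K : ℝ} (hK : 0 ≤ K) (Δ : ℤ) (e : ℕ) : 0 ≤ bA K Δ e := by
  rw [bA_apply]
  split_ifs
  · exact mul_nonneg (dv_nonneg _ _) (mul_nonneg e.cast_nonneg (sK_nonneg hK e))
  · exact le_rfl

theorem norm_SC_le (x x' Δ : ℤ) (d : ℕ) : 0 < d → IsCoprime x d → IsCoprime x' d →
    ‖SC d x x' Δ‖ ≤ (bA 768 Δ * sK 768) d := by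
  have hm := (bA_mult 768 Δ).mul (sK_mult 768)
  induction d using Nat.recOnPosPrimePosCoprime with
  | zero => exact fun h => absurd h (lt_irrefl _)
  | one =>
    intro _ _ _
    have : un 1 = {0} := by decide
    rw [hm.map_one, SC, this, sum_singleton, norm_mul, norm_mul, norm_ee, one_mul]
    exact mul_le_one₀ (norm_rho one_pos _) (norm_nonneg _) (norm_rho one_pos _)
  | coprime a b ha hb hab iha ihb =>
    intro _ hx hx'
    rw [Nat.cast_mul, IsCoprime.mul_right_iff] at hx hx'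
    rw [SC_mul (by omega) (by omega) hab, norm_mul, hm.map_mul_of_coprime hab]
    exact mul_le_mul (iha (by omega) hx.1 hx'.1) (ihb (by omega) hx.2 hx'.2) (norm_nonneg _)
      ((norm_nonneg _).trans (iha (by omega) hx.1 hx'.1))
  | prime_pow p n hp hn =>
    intro hd hx hx'
    obtain ⟨j, rfl⟩ : ∃ j, n = j + 1 := ⟨n - 1, by omega⟩
    have hp0 : (0 : ℝ) < p := by exact_mod_cast hp.pos
    have h1 : sK 768 (p ^ (j + 1)) ≤ (bA 768 Δ * sK 768) (p ^ (j + 1)) := by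
      rw [mul_apply]
      refine le_trans (le_of_eq ?_) (single_le_sum (f := fun x : ℕ × ℕ => bA 768 Δ x.1 * sK 768 x.2)
        (fun x _ => mul_nonneg (bA_nonneg (by norm_num) _ _) (sK_nonneg (by norm_num) _))
        (a := (1, p ^ (j + 1))) (by simp [hp.ne_zero]))
      rw [(bA_mult 768 Δ).map_one, one_mul]
    have h2 := norm_SC_pow hp j hx hx' Δ
    rw [sK_pow _ hp, loc] at h1
    rcases j with _ | j
    · by_cases h3 : p ≤ 3
      · refine h2.trans (le_trans ?_ h1)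
        have : (p : ℝ) ≤ 3 := by exact_mod_cast h3
        norm_num
        rw [← mul_div_assoc, div_le_div_iff₀ hp0 (by positivity)]
        nlinarith
      · rw [zero_add, pow_one] at *
        have h6 : p.Coprime 6 := by
          rw [show 6 = 2 * 3 from rfl, Nat.coprime_mul_iff_right]
          exact ⟨(Nat.coprime_primes hp Nat.prime_two).2 (by omega),
            (Nat.coprime_primes hp Nat.prime_three).2 (by omega)⟩
        have h4 := sK_pow 768 hp 0
        rw [zero_add, pow_one, loc] at h4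
        refine (norm_SC_prime hp (by omega) hx hx' Δ).trans ?_
        rw [mul_apply, Nat.sum_divisorsAntidiagonal fun a b => bA 768 Δ a * sK 768 b,
          hp.sum_divisors, Nat.div_self hp.pos, Nat.div_one, (bA_mult 768 Δ).map_one,
          (sK_mult 768).map_one, bA_apply, if_pos ⟨hp.prime.squarefree, h6⟩, h4]
        have h5 := dv_nonneg p Δ
        have e : dv p Δ * (p * (768 * ((((1 : ℕ) : ℝ) + 1) ^ 2 / (p : ℝ) ^ max 1 2))) * 1 +
            1 * (768 * ((((1 : ℕ) : ℝ) + 1) ^ 2 / (p : ℝ) ^ max 1 2)) =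
            3072 / (p : ℝ) ^ 2 + 3072 / p * dv p Δ := by
          norm_num
          field_simp
          ring
        rw [e]
        gcongr <;> norm_num
    · refine h2.trans (le_trans ?_ h1)
      rw [max_eq_left (by omega), ← mul_div_assoc]
      push_cast
      refine div_le_div_of_nonneg_right ?_ (by positivity)
      nlinarith [sq_nonneg ((j : ℝ) + 3)]

/-- fourth root -/
noncomputable def w4 (e : ℕ) : ℝ := (e : ℝ) ^ ((4 : ℕ) : ℝ)⁻¹

theorem w4_nonneg (e : ℕ) : 0 ≤ w4 e := Real.rpow_nonneg e.cast_nonneg _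

theorem w4_mul (a b : ℕ) : w4 (a * b) = w4 a * w4 b := by
  unfold w4
  rw [Nat.cast_mul, Real.mul_rpow a.cast_nonneg b.cast_nonneg]

theorem w4_pow (a i : ℕ) : w4 (a ^ i) = w4 a ^ i := by
  unfold w4
  rw [Nat.cast_pow, Real.rpow_pow_comm a.cast_nonneg]

theorem w4_four (a : ℕ) : w4 a ^ 4 = a := Real.rpow_inv_natCast_pow a.cast_nonneg (by norm_num)

theorem w4_mono {a b : ℕ} (h : a ≤ b) : w4 a ≤ w4 b :=
  Real.rpow_le_rpow a.cast_nonneg (Nat.cast_le.2 h) (by positivity)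

/-- the weighted majorant -/
noncomputable def tK (K : ℝ) : ArithmeticFunction ℝ := ⟨fun d => sK K d * w4 d, by simp⟩

theorem tK_apply (K : ℝ) (d : ℕ) : tK K d = sK K d * w4 d := rfl

theorem tK_mult (K : ℝ) : (tK K).IsMultiplicative := by
  refine ⟨by simp [tK_apply, w4, (sK_mult K).map_one], fun {a b} hab => ?_⟩
  simp only [tK_apply, (sK_mult K).map_mul_of_coprime hab, w4_mul]
  ring

theorem tK_nonneg {K : ℝ} (hK : 0 ≤ K) (d : ℕ) : 0 ≤ tK K d :=
  mul_nonneg (sK_nonneg hK d) (w4_nonneg d)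

theorem tK_pow {K : ℝ} (hK : 0 ≤ K) {p : ℕ} (hp : p.Prime) (i : ℕ) :
    tK K (p ^ (i + 1)) ≤ K * (5 * (((i + 2 : ℕ) : ℝ) ^ 2 * (3 / 5) ^ (i + 2))) * (1 / w4 p ^ 6) := by
  rw [tK_apply, sK_pow K hp, loc, w4_pow]
  have h4 := w4_four p
  have h0 := w4_nonneg p
  have h2 : (2 : ℝ) ≤ p := by exact_mod_cast hp.two_le
  rw [← h4] at h2 ⊢
  generalize w4 p = s at *
  have h1 : 1187 / 1000 ≤ s := by
    by_contra h
    have := pow_le_pow_left₀ h0 (not_le.1 h).le 4
    norm_num at this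
    linarith
  have hs : 0 < s := by linarith
  have h3 : 1 / s ^ 3 ≤ 3 / 5 := by
    rw [div_le_div_iff₀ (by positivity) (by norm_num)]
    have := pow_le_pow_left₀ (by norm_num) h1 3
    norm_num at this
    linarith
  have key : s ^ (i + 1) / (s ^ 4) ^ max (i + 1) 2 ≤ 5 * (3 / 5) ^ (i + 2) * (1 / s ^ 6) := by
    rcases i with _ | k
    · have e : s ^ (0 + 1) / (s ^ 4) ^ max (0 + 1) 2 = 1 / s * (1 / s ^ 6) := by
        norm_num
        field_simp
      rw [e]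
      refine mul_le_mul_of_nonneg_right ?_ (by positivity)
      rw [div_le_iff₀ hs]
      norm_num
      linarith
    · have e : s ^ (k + 1 + 1) / (s ^ 4) ^ max (k + 1 + 1) 2 = (1 / s ^ 3) ^ k * (1 / s ^ 6) := by
        rw [max_eq_left (by omega), div_pow, one_pow]
        field_simp
        ring
      rw [e]
      refine mul_le_mul_of_nonneg_right ((pow_le_pow_left₀ (by positivity) h3 k).trans ?_)
        (by positivity)
      rw [show k + 1 + 2 = k + 3 from rfl, pow_add]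
      nlinarith [pow_pos (show (0 : ℝ) < 3 / 5 by norm_num) k]
  calc _ = K * ((i + 2 : ℕ) : ℝ) ^ 2 * (s ^ (i + 1) / (s ^ 4) ^ max (i + 1) 2) := by
        push_cast
        ring
    _ ≤ K * ((i + 2 : ℕ) : ℝ) ^ 2 * (5 * (3 / 5) ^ (i + 2) * (1 / s ^ 6)) := by gcongr
    _ = _ := by ring

theorem sum_tK {K : ℝ} (hK : 0 ≤ K) : ∃ M : ℝ, ∀ Q : ℕ, ∑ e ∈ Ioc 0 Q, tK K e ≤ M := by
  have s1 : Summable fun i : ℕ => ((i + 2 : ℕ) : ℝ) ^ 2 * (3 / 5) ^ (i + 2) :=
    (summable_nat_add_iff (f := fun i : ℕ => (i : ℝ) ^ 2 * (3 / 5) ^ i) 2).2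
      (summable_pow_mul_geometric_of_norm_lt_one 2 (by norm_num))
  have s2 : Summable fun n : ℕ => 1 / w4 n ^ 6 := by
    refine (Real.summable_one_div_nat_rpow (p := ((4 : ℕ) : ℝ)⁻¹ * (6 : ℕ))).2 (by norm_num)
      |>.congr fun n => ?_
    rw [Real.rpow_mul n.cast_nonneg, Real.rpow_natCast, w4]
  obtain ⟨A, hA0, hA⟩ : ∃ A : ℝ, 0 ≤ A ∧ ∀ j : ℕ,
      ∑ i ∈ range j, ((i + 2 : ℕ) : ℝ) ^ 2 * (3 / 5) ^ (i + 2) ≤ A :=
    ⟨_, tsum_nonneg fun _ => by positivity, fun j => s1.sum_le_tsum _ fun _ _ => by positivity⟩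
  have hm := isMultiplicative_zeta.natCast.mul (tK_mult K)
  have key : ∀ n : ℕ, ((zeta : ArithmeticFunction ℝ) * tK K) n ≤
      Real.exp (K * (5 * A) * ∑ p ∈ n.primeFactors, 1 / w4 p ^ 6) := fun n => by
    induction n using Nat.recOnPosPrimePosCoprime with
    | zero => simp
    | one => simp [hm.map_one]
    | coprime a b ha hb hab iha ihb =>
      rw [hm.map_mul_of_coprime hab, hab.primeFactors_mul, sum_union hab.disjoint_primeFactors,
        mul_add, Real.exp_add]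
      refine mul_le_mul iha ihb ?_ (Real.exp_nonneg _)
      rw [coe_zeta_mul_apply]
      exact sum_nonneg fun _ _ => tK_nonneg hK _
    | prime_pow p n hp hn =>
      rw [coe_zeta_mul_apply, Nat.sum_divisors_prime_pow hp, sum_range_succ', pow_zero,
        (tK_mult K).map_one, Nat.primeFactors_prime_pow hn.ne' hp, sum_singleton]
      refine le_trans (add_le_add_left ?_ _) (Real.add_one_le_exp _)
      refine (sum_le_sum fun i _ => tK_pow hK hp i).trans ?_
      rw [← sum_mul, ← mul_sum, ← mul_sum]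
      have := hA n
      have := w4_nonneg p
      gcongr
  refine ⟨Real.exp (K * (5 * A) * ∑' n : ℕ, 1 / w4 n ^ 6), fun Q => ?_⟩
  have h1 := key Q.factorial
  rw [coe_zeta_mul_apply] at h1
  refine (sum_le_sum_of_subset_of_nonneg (fun e he => ?_) fun _ _ _ => tK_nonneg hK _).trans
    (h1.trans (Real.exp_le_exp.2 (mul_le_mul_of_nonneg_left
      (s2.sum_le_tsum _ fun n _ => ?_) (by positivity))))
  · exact Nat.mem_divisors.2 ⟨Nat.dvd_factorial (mem_Ioc.1 he).1 (mem_Ioc.1 he).2,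
      Q.factorial_ne_zero⟩
  · have := w4_nonneg n
    positivity

theorem sum_tail : ∃ M : ℝ, 0 < M ∧ ∀ (Q w : ℕ) (T : Finset ℕ), 0 < w → T ⊆ Ioc 0 Q →
    (∀ d ∈ T, w ≤ d) → ∑ d ∈ T, (sK (3 * 768) * sK 768) d ≤ M / w4 w := by
  obtain ⟨A, hA⟩ := sum_tK (K := 3 * 768) (by norm_num)
  obtain ⟨B, hB⟩ := sum_tK (K := 768) (by norm_num)
  have n1 := tK_nonneg (K := 3 * 768) (by norm_num)
  have n2 := tK_nonneg (K := 768) (by norm_num)
  have hA0 : 0 ≤ A := by simpa using hA 0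
  have hB0 : 0 ≤ B := by simpa using hB 0
  refine ⟨A * B + 1, by positivity, fun Q w T hw hT hd => ?_⟩
  have hw0 : 0 < w4 w := Real.rpow_pos_of_pos (by exact_mod_cast hw) _
  rw [le_div_iff₀ hw0, sum_mul]
  have h1 : ∀ d ∈ T, (sK (3 * 768) * sK 768) d * w4 w ≤ (tK (3 * 768) * tK 768) d := fun d h => by
    rw [mul_apply, mul_apply, sum_mul]
    refine sum_le_sum fun x hx => ?_
    have := w4_mono (hd d h)
    rw [← (Nat.mem_divisorsAntidiagonal.1 hx).1, w4_mul] at this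
    refine (mul_le_mul_of_nonneg_left this (mul_nonneg (sK_nonneg (by norm_num) _)
      (sK_nonneg (by norm_num) _))).trans_eq ?_
    rw [tK_apply, tK_apply]
    ring
  refine (sum_le_sum h1).trans ((sum_le_sum_of_subset_of_nonneg hT fun d _ _ => ?_).trans ?_)
  · rw [mul_apply]
    exact sum_nonneg fun x _ => mul_nonneg (n1 _) (n2 _)
  · rw [sum_Ioc_mul_eq_sum_prod_filter]
    refine (sum_le_sum_of_subset_of_nonneg (filter_subset _ _) fun x _ _ =>
      mul_nonneg (n1 _) (n2 _)).trans ?_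
    rw [sum_product' _ _ fun a b => tK (3 * 768) a * tK 768 b, ← sum_mul_sum]
    exact (mul_le_mul (hA Q) (hB Q) (sum_nonneg fun _ _ => n2 _) hA0).trans (by linarith)

end Pool.Agent.H84D.Ser

/-! The lower bound for the main part of the singular series. -/

namespace Pool.Agent.H84D.Ser

open Finset

theorem dv_le_one (e : ℕ) (t : ℤ) : dv e t ≤ 1 := by
  unfold dv
  split_ifs <;> norm_num

/-- the local condition -/
noncomputable def hl (z : ℤ) (p : ℕ) (t : ℤ) : ℝ := (1 - dv p t) * (1 - dv p (z - 2 * t))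

theorem hl_nonneg (z : ℤ) (p : ℕ) (t : ℤ) : 0 ≤ hl z p t :=
  mul_nonneg (sub_nonneg.2 (dv_le_one _ _)) (sub_nonneg.2 (dv_le_one _ _))

theorem hl_eq_one {z t : ℤ} {p : ℕ} (h1 : ¬ (p : ℤ) ∣ t) (h2 : ¬ (p : ℤ) ∣ z - 2 * t) :
    hl z p t = 1 := by simp [hl, dv, h1, h2]

theorem dv_congr {e : ℕ} {a b : ℤ} (h : (e : ℤ) ∣ a - b) : dv e a = dv e b := by
  simp only [dv, dvd_iff_dvd_of_dvd_sub h]

theorem per_hl (z : ℤ) (p : ℕ) : Per p (hl z p) := fun a b h => by
  unfold hl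
  rw [dv_congr h, dv_congr (a := z - 2 * a) (b := z - 2 * b)]
  have : z - 2 * a - (z - 2 * b) = -2 * (a - b) := by ring
  rw [this]
  exact h.mul_left _

theorem cop_of_primes {W : ℕ} (hW : 0 < W) {t : ℤ} (h : ∀ p ∈ W.primeFactors, ¬ (p : ℤ) ∣ t) :
    IsCoprime t W := by
  rw [Int.isCoprime_iff_gcd_eq_one, Int.gcd_eq_natAbs, Int.natAbs_natCast]
  exact Nat.coprime_of_dvd fun p hp h1 h2 =>
    h p (Nat.mem_primeFactors.2 ⟨hp, h2, hW.ne'⟩) (Int.natCast_dvd.2 h1)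

theorem last_step {W : ℕ} (hW : 0 < W) (z t : ℤ) :
    1 / (W.totient : ℝ) * ∏ p ∈ W.primeFactors, hl z p t ≤ AA W (fun s => dv W (z - s)) t := by
  by_cases h : ∀ p ∈ W.primeFactors, ¬ (p : ℤ) ∣ t ∧ ¬ (p : ℤ) ∣ z - 2 * t
  · obtain ⟨a, b, hab⟩ := cop_of_primes hW fun p hp => (h p hp).1
    have hW' : (0 : ℤ) < W := by exact_mod_cast hW
    obtain ⟨c, hc⟩ := Int.eq_ofNat_of_zero_le (Int.emod_nonneg ((z - 2 * t) * a) hW'.ne')
    have h1 : (W : ℤ) ∣ z - t * (c + 2) := by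
      rw [← hc, Int.emod_def]
      exact ⟨(z - 2 * t) * b + t * ((z - 2 * t) * a / W), by linear_combination -(z - 2 * t) * hab⟩
    have h2 : c ∈ un W := by
      refine mem_un.2 ⟨?_, Nat.isCoprime_iff_coprime.1 (cop_of_primes hW fun p hp h3 => ?_)⟩
      · have := Int.emod_lt_of_pos ((z - 2 * t) * a) hW'
        omega
      · have h4 := ((Int.natCast_dvd_natCast.2 (Nat.dvd_of_mem_primeFactors hp)).trans h1).add
          (h3.mul_left t)
        have e : z - t * (c + 2) + t * c = z - 2 * t := by ring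
        exact (h p hp).2 (e ▸ h4)
    rw [prod_eq_one fun p hp => hl_eq_one (h p hp).1 (h p hp).2, mul_one]
    refine div_le_div_of_nonneg_right (le_trans (le_of_eq ?_) (single_le_sum
      (f := fun c : ℕ => dv W (z - t * (c + 2))) (fun _ _ => dv_nonneg _ _) h2)) (Nat.cast_nonneg _)
    rw [dv, if_pos h1]
  · simp only [not_forall] at h
    obtain ⟨p, hp, h1⟩ := h
    rw [prod_eq_zero hp, mul_zero]
    · exact AA_nonneg _ (fun _ => dv_nonneg _ _) _
    · unfold hl dv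
      split_ifs with h2 h3 h3
      · simp
      · simp
      · simp
      · exact absurd ⟨h2, h3⟩ h1

theorem per_prod {P : Finset ℕ} {h : ℕ → ℤ → ℝ} (hh : ∀ p, Per p (h p)) :
    Per (∏ p ∈ P, p) fun t => ∏ p ∈ P, h p t := fun a b hab =>
  prod_congr rfl fun p hp => hh p a b
    ((Int.natCast_dvd_natCast.2 (dvd_prod_of_mem (fun p => p) hp)).trans hab)

theorem AA_prod {h : ℕ → ℤ → ℝ} (hh : ∀ p, Per p (h p)) (P : Finset ℕ) : (∀ p ∈ P, p.Prime) →
    AA (∏ p ∈ P, p) (fun t => ∏ p ∈ P, h p t) = fun t => ∏ p ∈ P, AA p (h p) t := by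
  induction P using Finset.induction_on with
  | empty => exact fun _ => AA_const one_pos 1
  | insert q P hq ih =>
    intro hP
    have h1 : ∀ p ∈ P, p.Prime := fun p hp => hP p (mem_insert_of_mem hp)
    have h2 := hP q (mem_insert_self _ _)
    simp only [prod_insert hq]
    rw [AA_mul h2.pos (prod_pos fun p hp => (h1 p hp).pos) (Nat.Coprime.prod_right fun p hp =>
      (Nat.coprime_primes h2 (h1 p hp)).2 fun e => hq (e ▸ hp)) (hh q) (per_prod hh), ih h1]

theorem AA_dv_shift {p : ℕ} (z : ℤ) {g : ℤ} (hg : IsCoprime g p) :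
    AA p (fun s => dv p (z - s)) g ≤ 1 / p.totient := by
  refine div_le_div_of_nonneg_right ?_ (Nat.cast_nonneg _)
  unfold dv
  rw [sum_boole, Nat.cast_le_one, card_le_one]
  intro c hc c' hc'
  simp only [mem_filter, mem_un] at hc hc'
  have h1 : (p : ℤ) ∣ g * (c' - c) := by
    have e : z - g * (c + 2) - (z - g * (c' + 2)) = g * (c' - c) := by ring
    exact e ▸ hc.2.sub hc'.2
  exact (Nat.modEq_iff_dvd.2 (hg.symm.dvd_of_dvd_mul_left h1)).eq_of_lt_of_lt hc.1.1 hc'.1.1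

theorem loc_big {p : ℕ} (hp : p.Prime) (h5 : 5 ≤ p) (z : ℤ) {x : ℤ} (hx : IsCoprime x p) :
    (1 - 2 / ((p : ℝ) - 1)) * (1 - 1 / ((p : ℝ) - 1)) ≤ AA p (AA p (hl z p)) x := by
  have ht : (p.totient : ℝ) = p - 1 := by
    rw [Nat.totient_prime hp, Nat.cast_pred hp.pos]
  have h5' : (5 : ℝ) ≤ p := by exact_mod_cast h5
  have c2 : IsCoprime (2 : ℤ) p :=
    Nat.isCoprime_iff_coprime.2 ((Nat.coprime_primes Nat.prime_two hp).2 (by omega))
  have a0 : ∀ g : ℤ, IsCoprime g p → AA p (dv p) g ≤ 1 / ((p : ℝ) - 1) := fun g hg => by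
    refine (AA_dv_unit hp.pos dvd_rfl hg).trans_eq ?_
    rw [div_right_comm, div_self (by positivity), ht]
  have k0 : 0 ≤ 1 - 2 / ((p : ℝ) - 1) := by
    rw [sub_nonneg, div_le_one (by linarith)]
    linarith
  have a1 : ∀ t, (1 - 2 / ((p : ℝ) - 1)) * 1 + -(1 - 2 / ((p : ℝ) - 1)) * dv p t ≤
      AA p (hl z p) t := fun t => by
    by_cases h : (p : ℤ) ∣ t
    · rw [dv, if_pos h]
      have := AA_nonneg p (hl_nonneg z p) t
      linarith
    · have ht' : IsCoprime t p := cop_of_primes hp.pos fun q hq => by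
        rwa [hp.primeFactors, mem_singleton] at hq ▸ h
      have b1 := a0 t ht'
      have b2 := AA_dv_shift z (c2.mul_left ht')
      have b3 := AA_mono p (f := fun s => 1 * (1 * (1 : ℝ) + -1 * dv p s) + -1 * dv p (z - 2 * s))
        (g := hl z p) (fun s => by
          unfold hl
          nlinarith [mul_nonneg (dv_nonneg p s) (dv_nonneg p (z - 2 * s))]) t
      rw [AA_lin, AA_lin, AA_const hp.pos, AA_scale p 2 fun s => dv p (z - s)] at b3
      rw [ht] at b2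
      rw [dv, if_neg h]
      have e : 2 / ((p : ℝ) - 1) = 1 / ((p : ℝ) - 1) + 1 / ((p : ℝ) - 1) := by ring
      beta_reduce at b3
      linarith
  refine le_trans ?_ (AA_mono p a1 x)
  rw [AA_lin, AA_const hp.pos]
  have := mul_le_mul_of_nonneg_left (a0 x hx) k0
  beta_reduce
  linarith

theorem exp_le_of {a r : ℝ} (ha : 0 ≤ a) (h : 1 ≤ a * (r + 1)) : Real.exp (-r) ≤ a := by
  rw [Real.exp_neg, inv_le_iff_one_le_mul₀ (Real.exp_pos r)]
  exact h.trans (mul_le_mul_of_nonneg_left (Real.add_one_le_exp r) ha)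

theorem loc_ge {p : ℕ} (hp : p.Prime) {z x : ℤ} (hx : IsCoprime x p) (h2 : ¬ 2 ∣ z)
    (h3 : ¬ 3 ∣ z - 2 * x) : Real.exp (-(10 * (1 / p))) ≤ AA p (AA p (hl z p)) x := by
  have hd : ¬ (p : ℤ) ∣ x := fun h =>
    (Nat.prime_iff_prime_int.1 hp).not_isUnit (hx.symm.isUnit_of_dvd h)
  rcases lt_or_ge p 5 with h5 | h5
  · have h4 : p = 2 ∨ p = 3 := by
      have := hp.two_le
      interval_cases p
      · simp
      · simp
      · exact absurd hp (by norm_num)
    rcases h4 with rfl | rfl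
    · have u : un 2 = {1} := by decide
      have e : hl z 2 (x * 3 * 3) = 1 := hl_eq_one (by omega) (by omega)
      refine (exp_le_of zero_le_one (by norm_num)).trans_eq ?_
      simp only [AA, av, u, sum_singleton, Nat.totient_two]
      norm_num
      exact e.symm
    · have u : un 3 = {1, 2} := by decide
      have t : Nat.totient 3 = 2 := by decide
      have e : hl z 3 (x * 4 * 4) = 1 := hl_eq_one (by omega) (by omega)
      refine (exp_le_of (a := 1 / 4) (by norm_num) (by norm_num)).trans ?_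
      simp only [AA, av, u, t, sum_pair (show (1 : ℕ) ≠ 2 by norm_num)]
      norm_num
      linarith [hl_nonneg z 3 (x * 3 * 3), hl_nonneg z 3 (x * 3 * 4), hl_nonneg z 3 (x * 4 * 3)]
  · refine le_trans ?_ (loc_big hp h5 z hx)
    have h5' : (5 : ℝ) ≤ p := by exact_mod_cast h5
    have h1 : (0 : ℝ) < p - 1 := by linarith
    have e : (1 - 2 / ((p : ℝ) - 1)) * (1 - 1 / ((p : ℝ) - 1)) = (p - 3) * (p - 2) / (p - 1) ^ 2 := by
      field_simp
      ring
    rw [e]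
    refine exp_le_of (div_nonneg (mul_nonneg (by linarith) (by linarith)) (by positivity)) ?_
    have e2 : 10 * (1 / (p : ℝ)) + 1 = (p + 10) / p := by
      field_simp
      ring
    rw [e2, div_mul_div_comm, one_le_div (by positivity)]
    nlinarith [mul_nonneg (sub_nonneg.2 h5') (sub_nonneg.2 h5')]

theorem main_ge {W : ℕ} (hW : 0 < W) {z x : ℤ} (hx : IsCoprime x W) (h2 : ¬ 2 ∣ z)
    (h3 : ¬ 3 ∣ z - 2 * x) : Real.exp (-(10 * ∑ p ∈ W.primeFactors, 1 / (p : ℝ))) ≤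
      ∑ d ∈ W.divisors, BB d (fun t => ram d (z - t)) x := by
  have e1 : ∑ d ∈ W.divisors, BB d (fun t => ram d (z - t)) x =
      W * BB W (fun t => dv W (z - t)) x := by
    have a := congrFun (BB_sum W W.divisors (fun _ => 1) fun d t => ram d (z - t)) x
    have b := congrFun (BB_sum W {0} (fun _ => (W : ℝ)) fun _ t => dv W (z - t)) x
    simp only [one_mul, sum_ram hW] at a
    simp only [sum_singleton] at b
    rw [← b]
    simp only [dv, mul_ite, mul_one, mul_zero]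
    rw [a]
    refine sum_congr rfl fun d hd => (congrFun (BB_dvd hW (Nat.dvd_of_mem_divisors hd)
      fun a b h => ram_congr (Nat.pos_of_mem_divisors hd) ?_) x).symm
    rw [sub_sub_sub_cancel_left]
    exact dvd_sub_comm.1 h
  have hP : ∀ p ∈ W.primeFactors, p.Prime := fun p => Nat.prime_of_mem_primeFactors
  have e2 : AA W (AA W fun t => ∏ p ∈ W.primeFactors, hl z p t) x =
      ∏ p ∈ W.primeFactors, AA p (AA p (hl z p)) x := by
    rw [AA_dvd hW W.prod_primeFactors_dvd (per_prod (per_hl z)), AA_prod (per_hl z) _ hP,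
      AA_dvd hW W.prod_primeFactors_dvd (per_prod fun p => (per_hl z p).AA p),
      AA_prod (fun p => (per_hl z p).AA p) _ hP]
  have b1 := AA_mono W (AA_mono W (last_step hW z)) x
  have b2 := AA_sum W {0} (fun _ => 1 / (W.totient : ℝ))
    fun _ t => ∏ p ∈ W.primeFactors, hl z p t
  have b3 := AA_sum W {0} (fun _ => 1 / (W.totient : ℝ))
    fun _ => AA W fun t => ∏ p ∈ W.primeFactors, hl z p t
  simp only [sum_singleton] at b2 b3
  rw [b2, b3] at b1
  beta_reduce at b1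
  rw [e2] at b1
  have b4 : Real.exp (-(10 * ∑ p ∈ W.primeFactors, 1 / (p : ℝ))) ≤
      ∏ p ∈ W.primeFactors, AA p (AA p (hl z p)) x := by
    rw [mul_sum, ← sum_neg_distrib, Real.exp_sum]
    exact prod_le_prod (fun _ _ => Real.exp_nonneg _) fun p hp => loc_ge (hP p hp)
      (hx.of_isCoprime_of_dvd_right (Int.natCast_dvd_natCast.2 (Nat.dvd_of_mem_primeFactors hp)))
      h2 h3
  rw [e1]
  refine le_trans ?_ (mul_le_mul_of_nonneg_left b1 W.cast_nonneg)
  rw [← mul_assoc]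
  refine b4.trans (le_mul_of_one_le_left ((Real.exp_nonneg _).trans b4) ?_)
  rw [mul_one_div, one_le_div (by exact_mod_cast Nat.totient_pos.2 hW)]
  exact Nat.cast_le.2 W.totient_le

theorem mert : ∃ C : ℝ, ∀ w : ℕ, 2 ≤ w →
    ∑ p ∈ w.factorial.primeFactors, 1 / (p : ℝ) ≤ Real.log (Real.log w) + C := by
  obtain ⟨C, -, h⟩ := MP_48b1c3_nt.H54.mertens2
  refine ⟨C, fun w hw => ?_⟩
  have h1 := (abs_le.1 (h w (by exact_mod_cast hw))).2
  refine (sum_le_sum_of_subset_of_nonneg (t := MP_48b1c3_nt.H54.PI 0 w) (fun p hp => ?_)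
    fun _ _ _ => by positivity).trans (by linarith)
  have h2 := Nat.prime_of_mem_primeFactors hp
  exact MP_48b1c3_nt.H54.mem_PI.2 ⟨by exact_mod_cast h2.pos,
    by exact_mod_cast h2.dvd_factorial.1 (Nat.dvd_of_mem_primeFactors hp), h2⟩

end Pool.Agent.H84D.Ser

/-! The singular series is large on average over a set of positive density. -/

namespace Pool.Agent.H84D.Ser

open Finset Filter

section

variable {ι : Type*} (La : Finset ι) (x y : ι → ℤ)

/-- one term of the singular series -/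
noncomputable def TL (d : ℕ) (k : ℤ) : ℝ :=
  1 / (#La : ℝ) * ∑ l ∈ La, BB d (fun t => ram d (k - y l - t)) (x l)

/-- its Fourier coefficients -/
noncomputable def ga (d u : ℕ) : ℂ :=
  1 / (#La : ℂ) * ∑ l ∈ La, ee d (-u * y l) * rho d (-u * x l)

theorem TL_eq {d : ℕ} (hd : 0 < d) (k : ℤ) :
    (TL La x y d k : ℂ) = ∑ u ∈ un d, ga La x y d u * ee d (u * k) := by
  have h1 : ∀ l, ((BB d (fun t => ram d (k - y l - t)) (x l) : ℝ) : ℂ) =
      ∑ u ∈ un d, ee d (-u * y l) * rho d (-u * x l) * ee d (u * k) := fun l => by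
    have a := congrFun (BB_map Complex.ofRealHom d fun t => ram d (k - y l - t)) (x l)
    have b : (fun t => Complex.ofRealHom (ram d (k - y l - t))) =
        fun t => ∑ u ∈ un d, ee d (-u * y l) * ee d (u * k) * ee d (-u * t) := by
      funext t
      rw [Complex.ofRealHom_eq_coe, ram_coe hd]
      refine sum_congr rfl fun u _ => ?_
      rw [← ee_add, ← ee_add]
      exact congrArg (ee d) (by ring)
    rw [b, BB_sum d (un d) _ fun (u : ℕ) t => ee d (-u * t)] at a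
    refine a.symm.trans (sum_congr rfl fun u _ => ?_)
    rw [BB_scale]
    unfold rho
    ring
  unfold TL ga
  push_cast
  simp_rw [h1, mul_assoc, ← mul_sum, sum_mul, mul_assoc]
  rw [sum_comm]

theorem norm_ga (hL : La.Nonempty) {d : ℕ} (hd : 0 < d) (u : ℕ) : ‖ga La x y d u‖ ≤ 1 := by
  have h0 : (0 : ℝ) < #La := by exact_mod_cast hL.card_pos
  unfold ga
  rw [norm_mul, norm_div, norm_one, Complex.norm_natCast, one_div, inv_mul_le_iff₀ h0,
    ← nsmul_eq_mul]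
  refine (norm_sum_le _ _).trans (sum_le_card_nsmul _ _ _ fun l _ => ?_)
  rw [norm_mul, norm_ee, one_mul]
  exact norm_rho hd _

theorem sum_ga (d : ℕ) : ∑ u ∈ un d, ‖ga La x y d u‖ ^ 2 ≤
    1 / (#La : ℝ) ^ 2 * ∑ l ∈ La, ∑ l' ∈ La, ‖SC d (x l) (x l') (y l' - y l)‖ := by
  have h1 : ((∑ u ∈ un d, ‖ga La x y d u‖ ^ 2 : ℝ) : ℂ) =
      1 / (#La : ℂ) ^ 2 * ∑ l ∈ La, ∑ l' ∈ La, SC d (x l) (x l') (y l' - y l) := by
    rw [Complex.ofReal_sum]
    simp_rw [← Complex.normSq_eq_norm_sq, ← Complex.mul_conj]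
    unfold SC
    simp_rw [sum_comm (s := La) (t := un d), mul_sum (s := un d)]
    refine sum_congr rfl fun u _ => ?_
    unfold ga
    rw [map_mul, map_sum, map_div₀, map_one, map_natCast, mul_mul_mul_comm, sum_mul_sum]
    refine congrArg₂ (· * ·) (by ring) (sum_congr rfl fun l _ => sum_congr rfl fun l' _ => ?_)
    rw [map_mul, conj_ee, conj_rho, mul_mul_mul_comm, ← ee_add]
    exact congrArg₂ (· * ·) (congrArg (ee d) (by ring))
      (congrArg (_ * ·) (congrArg (rho d) (by ring)))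
  refine (Real.le_norm_self _).trans ?_
  rw [← Complex.norm_real, h1, norm_mul, norm_div, norm_one, norm_pow, Complex.norm_natCast]
  exact mul_le_mul_of_nonneg_left ((norm_sum_le _ _).trans (sum_le_sum fun l _ => norm_sum_le _ _))
    (by positivity)

theorem sum_ga_le (hL : La.Nonempty) {c : ℝ} (hc : 0 ≤ c) {d : ℕ} (hd : 0 < d)
    (hx : ∀ l ∈ La, IsCoprime (x l) d)
    (hy : ∀ e, e ∣ d → Squarefree e → e.Coprime 6 → ∀ n : ℤ,
      (∑ l ∈ La, dv e (y l - n)) * e ≤ c * 3 ^ #e.primeFactors * #La) :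
    ∑ u ∈ un d, ‖ga La x y d u‖ ^ 2 ≤ c * (sK (3 * 768) * sK 768) d := by
  have h0 : (0 : ℝ) < #La := by exact_mod_cast hL.card_pos
  refine (sum_ga La x y d).trans ?_
  rw [one_div, inv_mul_le_iff₀ (by positivity), sq, mul_assoc, ← nsmul_eq_mul]
  refine sum_le_card_nsmul _ _ _ fun l hl => ?_
  refine (sum_le_sum fun l' hl' => norm_SC_le _ _ _ d hd (hx l hl) (hx l' hl')).trans ?_
  simp_rw [ArithmeticFunction.mul_apply]
  rw [sum_comm, mul_sum, mul_sum]
  refine sum_le_sum fun v hv => ?_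
  rw [← sum_mul, ← mul_assoc, ← mul_assoc]
  refine mul_le_mul_of_nonneg_right ?_ (sK_nonneg (by norm_num) _)
  have n1 := sK_nonneg (K := 768) (by norm_num) v.1
  rw [sK_three]
  by_cases h : Squarefree v.1 ∧ v.1.Coprime 6
  · simp_rw [bA_apply, if_pos h]
    rw [← sum_mul, ← mul_assoc]
    refine (mul_le_mul_of_nonneg_right (hy v.1 (Nat.dvd_of_mem_divisors
      (Nat.fst_mem_divisors_of_mem_antidiagonal hv)) h.1 h.2 (y l)) n1).trans_eq (by ring)
  · simp_rw [bA_apply, if_neg h]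
    rw [sum_const_zero]
    positivity

end

theorem choose_w (c δ : ℝ) (hδ : 0 < δ) (M : ℝ) : ∃ (w : ℕ) (m : ℝ), 0 < w ∧ 0 < m ∧
    m ≤ Real.exp (-(10 * ∑ p ∈ w.factorial.primeFactors, 1 / (p : ℝ))) ∧
    c * (M / w4 w) ≤ m ^ 2 * δ / 4 := by
  obtain ⟨C, hC⟩ := mert
  obtain ⟨w, h1, h2⟩ := ((tendsto_natCast_atTop_atTop.eventually (par_log_pow
    (4 * c * M * Real.exp (20 * C) / δ) 20 (e := ((4 : ℕ) : ℝ)⁻¹) (by norm_num))).and
      (eventually_ge_atTop 2)).exists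
  have hl : 0 < Real.log w := Real.log_pos (by exact_mod_cast h2)
  have hw0 : 0 < w4 w := Real.rpow_pos_of_pos (by exact_mod_cast (by omega : 0 < w)) _
  refine ⟨w, Real.exp (-(10 * (Real.log (Real.log w) + C))), by omega, Real.exp_pos _,
    Real.exp_le_exp.2 (by linarith [hC w h2]), ?_⟩
  have e : Real.exp (-(10 * (Real.log (Real.log w) + C))) ^ 2 =
      1 / (Real.log w ^ 20 * Real.exp (20 * C)) := by
    rw [← Real.exp_nat_mul, ← Real.exp_log (pow_pos hl 20), ← Real.exp_add, Real.log_pow, one_div,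
      ← Real.exp_neg]
    congr 1
    push_cast
    ring
  rw [e, ← mul_div_assoc, div_le_iff₀ hw0]
  refine le_trans (le_of_eq ?_) (mul_le_mul_of_nonneg_left h1 (by positivity))
  field_simp

theorem abstract (c δ : ℝ) (hc : 0 ≤ c) (hδ : 0 < δ) : ∃ (W : ℕ) (η : ℝ), 0 < η ∧
    ∀ (ι : Type) (La : Finset ι) (x y : ι → ℤ) (Q X : ℕ) (S : Finset ℤ), La.Nonempty → W ≤ Q →
      (Q : ℝ) ^ 6 ≤ η * X → (∀ l ∈ La, ∀ d : ℕ, 0 < d → d ≤ Q → IsCoprime (x l) d) →
      (∀ e, e ≤ Q → Squarefree e → e.Coprime 6 → ∀ n : ℤ,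
        (∑ l ∈ La, dv e (y l - n)) * e ≤ c * 3 ^ #e.primeFactors * #La) →
      S ⊆ Ioc (X : ℤ) (2 * X) → (∀ k ∈ S, ∀ l ∈ La, ¬ 2 ∣ k - y l ∧ ¬ 3 ∣ k - y l - 2 * x l) →
      δ * X ≤ #S → η * X ≤ ∑ k ∈ S, ∑ d ∈ Icc 1 Q, TL La x y d k := by
  obtain ⟨M, -, hM⟩ := sum_tail
  obtain ⟨w, m, hw, hm, h1, h2⟩ := choose_w c δ hδ M
  have hm1 : m ≤ 1 := h1.trans (Real.exp_le_one_iff.2 (neg_nonpos.2 (by positivity)))
  refine ⟨w.factorial, m ^ 2 * δ / 4, by positivity,
    fun ι La x y Q X S hL hW hQ hx hy hS hk hd => ?_⟩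
  have h0 : (0 : ℝ) < #La := by exact_mod_cast hL.card_pos
  obtain ⟨T, hT⟩ : ∃ T, T = (Icc 1 Q).filter fun d => ¬ d ∣ w.factorial := ⟨_, rfl⟩
  have hT1 : T ⊆ Icc 1 Q := hT ▸ filter_subset _ _
  have hT2 : ∀ d ∈ T, 0 < d ∧ d ≤ Q ∧ w ≤ d := fun d h => by
    rw [hT, mem_filter, mem_Icc] at h
    exact ⟨h.1.1, h.1.2, not_lt.1 fun h3 => h.2 (Nat.dvd_factorial h.1.1 h3.le)⟩
  have e1 : ∀ k, ∑ d ∈ Icc 1 Q, TL La x y d k =
      ∑ d ∈ w.factorial.divisors, TL La x y d k + ∑ d ∈ T, TL La x y d k := fun k => by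
    rw [hT, ← sum_filter_add_sum_filter_not (Icc 1 Q) fun d => d ∣ w.factorial]
    congr 2
    ext d
    simp only [mem_filter, mem_Icc, Nat.mem_divisors]
    exact ⟨fun h => ⟨h.2, w.factorial_ne_zero⟩, fun h => ⟨⟨Nat.pos_of_dvd_of_pos h.1 w.factorial_pos,
      (Nat.le_of_dvd w.factorial_pos h.1).trans hW⟩, h.1⟩⟩
  have b1 : ∀ k ∈ S, m ≤ ∑ d ∈ w.factorial.divisors, TL La x y d k := fun k hk' => by
    unfold TL
    rw [← mul_sum, sum_comm, one_div, le_inv_mul_iff₀ h0, ← nsmul_eq_mul]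
    exact card_nsmul_le_sum _ _ _ fun l hl => h1.trans (main_ge w.factorial_pos
      (hx l hl _ w.factorial_pos hW) (hk k hk' l hl).1 (hk k hk' l hl).2)
  have b2 := mean_sq X Q T hT1 (fun d u => if d = 0 then 0 else ga La x y d u) fun d u => by
    split_ifs with h
    · simp
    · exact norm_ga La x y hL (Nat.pos_of_ne_zero h) u
  have b3 : ∑ d ∈ T, ∑ u ∈ un d, ‖if d = 0 then 0 else ga La x y d u‖ ^ 2 ≤ m ^ 2 * δ / 4 := by
    refine (sum_le_sum fun d h => ?_).trans (((mul_sum _ _ _).symm.trans_le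
      (mul_le_mul_of_nonneg_left (hM Q w T hw hT1 fun d h => (hT2 d h).2.2) hc)).trans h2)
    obtain ⟨a1, a2, -⟩ := hT2 d h
    simp_rw [if_neg a1.ne']
    exact sum_ga_le La x y hL hc a1 (fun l hl => hx l hl d a1 a2)
      fun e he => hy e ((Nat.le_of_dvd a1 he).trans a2)
  have b4 : ∑ k ∈ S, (∑ d ∈ T, TL La x y d k) ^ 2 ≤ m ^ 2 * δ / 2 * X := by
    refine (sum_le_sum_of_subset_of_nonneg hS fun _ _ _ => sq_nonneg _).trans
      ((le_of_eq (sum_congr rfl fun k _ => ?_)).trans (b2.trans ?_))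
    · rw [← sq_abs, ← Real.norm_eq_abs, ← Complex.norm_real, Complex.ofReal_sum]
      congr 2
      refine sum_congr rfl fun d h => ?_
      simp_rw [if_neg (hT2 d h).1.ne']
      exact TL_eq La x y (hT2 d h).1 k
    · have := mul_le_mul_of_nonneg_left b3 (Nat.cast_nonneg X)
      linarith
  have b5 : ∑ k ∈ S, (m ^ 2 / 2 - (∑ d ∈ T, TL La x y d k) ^ 2 / 2) ≤
      m * ∑ k ∈ S, ∑ d ∈ Icc 1 Q, TL La x y d k := by
    rw [mul_sum]
    refine sum_le_sum fun k hk' => ?_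
    rw [e1]
    nlinarith [mul_le_mul_of_nonneg_left (b1 k hk') hm.le, sq_nonneg (m + ∑ d ∈ T, TL La x y d k)]
  rw [sum_sub_distrib, sum_const, nsmul_eq_mul, ← sum_div] at b5
  have b6 : m * (m * δ / 4 * X) ≤ m * ∑ k ∈ S, ∑ d ∈ Icc 1 Q, TL La x y d k := by
    nlinarith [mul_le_mul_of_nonneg_left hd (sq_nonneg m)]
  refine le_trans ?_ (le_of_mul_le_mul_left b6 hm)
  have : 0 ≤ m * δ / 4 * X := by positivity
  nlinarith

theorem cop_of_rough {t d : ℕ} {E : ℝ} (hd : (d : ℝ) ≤ E) (hd0 : 0 < d)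
    (h : ∀ p : ℕ, p.Prime → p ∣ t → p ∣ d → E < p) : IsCoprime (t : ℤ) d :=
  Nat.isCoprime_iff_coprime.2 (Nat.coprime_of_dvd fun p hp h1 h2 =>
    absurd (h p hp h1 h2) (not_lt.2 ((Nat.cast_le.2 (Nat.le_of_dvd hd0 h2)).trans hd)))

end Pool.Agent.H84D.Ser

namespace Pool.Agent.H84D

open Finset Filter Ser

/-- BLOCK SERIES (section 5) -/
theorem series (c : ℕ) {δ : ℝ} (hδ : 0 < δ) : ∃ η : ℝ, 0 < η ∧ ∀ B a₀ : ℕ, 1 ≤ B →
    a₀ = 1 ∨ a₀ = 2 → ∀ᶠ X : ℕ in atTop, ∀ D : Fm, Fam c B a₀ X D → ∀ S ⊆ Ioc (X : ℤ) (2 * X),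
      (∀ k ∈ S, k % 2 = 1 ∧ k % 3 ≠ a₀) → δ * X ≤ #S → η * X ≤ ∑ k ∈ S, SS D (QB B X) k := by
  obtain ⟨W, η, hη, H⟩ := abstract c δ c.cast_nonneg hδ
  refine ⟨η, hη, fun B a₀ hB ha => ?_⟩
  filter_upwards [par_nat (eventually_ge_atTop (W : ℝ)), par_nat (eventually_ge_atTop (1 : ℝ)),
    par_nat (par_rpow_exp 1 B (b := 11 / 100) (c' := 1) (by norm_num) one_pos),
    par_nat (par_rpow_exp (1 / η) ((B * 6 : ℕ) : ℝ) (b := 1) (c' := 1) one_pos one_pos),
    eventually_gt_atTop 0] with X x1 x2 x3 x4 x5 D hD S hS hk hd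
  rw [one_mul, one_mul, Real.rpow_natCast] at x3
  rw [one_mul, Real.rpow_one, Real.rpow_natCast, Real.exp_log (by exact_mod_cast x5), one_div,
    inv_mul_le_iff₀ hη, pow_mul] at x4
  have q1 : (QB B X : ℝ) ≤ Real.log X ^ B := Nat.floor_le (by unfold LL; positivity)
  have q2 : W ≤ QB B X := Nat.le_floor (x1.trans (le_self_pow₀ x2 (by omega)))
  have q3 : (QB B X : ℝ) ≤ EE X (11 / 100) := q1.trans x3
  have q4 : (QB B X : ℝ) ≤ EE X (7 / 50) :=
    q3.trans (Real.exp_le_exp.2 (Real.rpow_le_rpow_of_exponent_le x2 (by norm_num)))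
  have q5 : (QB B X : ℝ) ^ 6 ≤ η * X := (pow_le_pow_left₀ (Nat.cast_nonneg _) q1 6).trans x4
  have f1 : D.F.Nonempty := by
    have h1 : (0 : ℝ) < D.Y2 := by exact_mod_cast hD.ypos
    exact card_pos.1 (Nat.cast_pos.1 ((mul_pos h1 (Real.exp_pos _)).trans_le hD.many))
  have f2 : D.QQ.Nonempty := by
    have h1 : 0 < Y1 X := Nat.floor_pos.2 (Real.one_le_exp (Real.rpow_nonneg (by
      unfold LL; linarith) _))
    have h2 := (Nat.cast_pos.2 h1).trans_le hD.qmany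
    exact card_pos.1 (Nat.cast_pos.1 (pos_of_mul_pos_right h2 (zero_le_one.trans x2)))
  have key := H ((ℕ × ℕ) × ℕ) (D.F ×ˢ D.QQ) (fun l => (((l.2 + 4) * l.1.1 : ℕ) : ℤ))
    (fun l => ((8 * (l.2 + 2) * l.1.2 : ℕ) : ℤ)) (QB B X) X S (f1.product f2) q2 q5 ?_ ?_ hS ?_ hd
  · refine key.trans_eq (sum_congr rfl fun k _ => sum_congr rfl fun d _ => ?_)
    unfold TL sd
    rw [card_product, Nat.cast_mul, sum_product]
    refine congrArg (_ * ·) (sum_congr rfl fun z _ => sum_congr rfl fun q _ => ?_)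
    rw [BB_eq]
    refine congrArg (_ * ·) (sum_congr rfl fun c₁ _ => sum_congr rfl fun c₂ _ =>
      sum_congr rfl fun c₃ _ => congrArg (ram d) ?_)
    unfold val
    push_cast
    ring
  · intro l hl d d0 dQ
    obtain ⟨l1, l2⟩ := mem_product.1 hl
    have dQ' : (d : ℝ) ≤ QB B X := Nat.cast_le.2 dQ
    rw [Nat.cast_mul]
    exact (cop_of_rough (dQ'.trans q4) d0 fun p hp h _ => hD.qr _ l2 p hp h).mul_left
      (cop_of_rough (dQ'.trans q3) d0 fun p hp h _ => hD.ra _ l1 p hp h)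
  · intro e eQ e1 e2 n
    have e0 : 0 < e := Nat.pos_of_ne_zero e1.ne_zero
    have e3 : e.Coprime 2 := e2.coprime_dvd_right (by norm_num)
    rw [card_product, Nat.cast_mul, mul_left_comm, ← nsmul_eq_mul, sum_product, sum_mul]
    refine sum_le_card_nsmul _ _ _ fun z hz => ?_
    have c1 : IsCoprime ((8 * z.2 : ℕ) : ℤ) e := by
      refine cop_of_rough ((Nat.cast_le.2 eQ).trans q3) e0 fun p hp h h' => ?_
      have p2 : p ≠ 2 := fun h2 => by
        subst h2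
        exact absurd (e3.symm.eq_one_of_dvd h') (by norm_num)
      rcases (Nat.Prime.dvd_mul hp).1 h with h8 | h8
      · exact absurd ((Nat.prime_dvd_prime_iff_eq hp Nat.prime_two).1
          (hp.dvd_of_dvd_pow (n := 3) h8)) p2
      · exact (hD.rb z hz p hp h8).resolve_left p2
    unfold dv
    rw [sum_boole]
    rcases (D.QQ.filter fun q => (e : ℤ) ∣ ((8 * (q + 2) * z.2 : ℕ) : ℤ) - n).eq_empty_or_nonempty
      with h | ⟨r, hr⟩
    · simp only [h, card_empty, Nat.cast_zero, zero_mul]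
      positivity
    · refine le_trans (mul_le_mul_of_nonneg_right (Nat.cast_le.2 (card_le_card fun q hq => ?_))
        e.cast_nonneg) (hD.qap e r e1 e2 eQ)
      rw [mem_filter] at hq hr ⊢
      refine ⟨hq.1, Nat.modEq_iff_dvd.2 (c1.symm.dvd_of_dvd_mul_left ?_)⟩
      have e4 : ((8 * (r + 2) * z.2 : ℕ) : ℤ) - n - (((8 * (q + 2) * z.2 : ℕ) : ℤ) - n) =
          ((8 * z.2 : ℕ) : ℤ) * (r - q) := by
        push_cast
        ring
      exact e4 ▸ hr.2.sub hq.2
  · intro k hk' l hl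
    obtain ⟨l1, l2⟩ := mem_product.1 hl
    obtain ⟨k1, k2⟩ := hk k hk'
    have m1 := hD.md _ l1
    have m2 := (hD.qpr _ l2).2.1
    obtain ⟨s, hs⟩ : ∃ s, l.2 = 6 * s + 1 := ⟨l.2 / 6, by omega⟩
    have e1 : 8 * (l.2 + 2) * l.1.2 = 24 * ((2 * s + 1) * l.1.2) := by
      rw [hs]
      ring
    have e2 : (l.2 + 4) * l.1.1 = 6 * (s * l.1.1) + 5 * l.1.1 := by
      rw [hs]
      ring
    simp only [e1, e2]
    omega

end Pool.Agent.H84D
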