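import Pool.Agent.H84D.MriD
import Pool.Agent.H84D.Par

set_option autoImplicit false

/-! The suprema of the two short prime factors. -/

namespace Pool.Agent.H84D

open Finset Filter

/-- the exponential sum over primes -/
noncomputable def VS (P : ℕ) (θ t : ℝ) : ℂ :=
  ∑ p ∈ PP P (2 * P), (Real.log p : ℂ) * Complex.exp (2 * Real.pi * Complex.I * (θ * p)) *
    nit t (p + 2)

/-- the bound for the exponential sum -/
def VG_s : Prop := ∃ C : ℕ, 1 ≤ C ∧ ∀ (K P : ℕ) (θ t : ℝ), 3 ≤ K →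
  (C : ℝ) * K ^ C * 8 ^ K ≤ Real.log P → (P : ℝ) ^ 3 ≤ |t| → |t| ≤ (P : ℝ) ^ K →
    ‖VS P θ t‖ ≤ C * P * Real.log P ^ C * Real.exp (-(Real.log P / (C * K ^ C * 8 ^ K)))

theorem orth {d : ℕ} (hd : 0 < d) (m : ℤ) :
    ∑ j ∈ range d, Complex.exp (2 * Real.pi * Complex.I * (j * m / d)) =
      if (d : ℤ) ∣ m then (d : ℂ) else 0 := by
  have d0 : (d : ℂ) ≠ 0 := by exact_mod_cast hd.ne'
  have e : ∀ j : ℕ, Complex.exp (2 * Real.pi * Complex.I * (j * m / d)) =
      Complex.exp (2 * Real.pi * Complex.I * (m / d)) ^ j := fun j => by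
    rw [← Complex.exp_nat_mul]; congr 1; ring
  simp only [e]
  split_ifs with h
  · obtain ⟨k, rfl⟩ := h
    have : Complex.exp (2 * Real.pi * Complex.I * (((d * k : ℤ) : ℂ) / d)) = 1 := by
      rw [← Complex.exp_int_mul_two_pi_mul_I k]; congr 1; push_cast; field_simp
    simp only [this, one_pow, sum_const, card_range, nsmul_eq_mul, mul_one]
  · have hne : Complex.exp (2 * Real.pi * Complex.I * (m / d)) ≠ 1 := fun h1 => by
      obtain ⟨n, hn⟩ := Complex.exp_eq_one_iff.1 h1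
      have h2 : (m : ℂ) / d = n := mul_left_cancel₀ Complex.two_pi_I_ne_zero (by rw [hn]; ring)
      rw [div_eq_iff d0] at h2
      exact h ⟨n, by exact_mod_cast h2.trans (mul_comm _ _)⟩
    have : Complex.exp (2 * Real.pi * Complex.I * (m / d)) ^ d = 1 := by
      rw [← Complex.exp_nat_mul, ← Complex.exp_int_mul_two_pi_mul_I m]; congr 1; field_simp
    rw [geom_sum_eq hne, this, sub_self, zero_div]

theorem DD_le {P d : ℕ} (c : ℕ) (hd : 0 < d) (t : ℝ) {M : ℝ} (h : ∀ θ, ‖VS P θ t‖ ≤ M) :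
    ‖DD P d c t‖ ≤ M / P := by
  have d0 : (d : ℂ) ≠ 0 := by exact_mod_cast hd.ne'
  have e : DD P d c t = ∑ j ∈ range d, (1 / (d * P) : ℝ) *
      Complex.exp (2 * Real.pi * Complex.I * ((-(j * c / d) : ℝ) : ℂ)) * VS P (j / d) t := by
    simp only [VS, mul_sum]
    rw [sum_comm, DD, PC, sum_filter]
    refine sum_congr rfl fun p _ => ?_
    have o := orth hd ((p : ℤ) - c)
    have : ∀ j ∈ range d, ((1 / (d * P) : ℝ) : ℂ) *
        Complex.exp (2 * Real.pi * Complex.I * ((-(j * c / d) : ℝ) : ℂ)) *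
        ((Real.log p : ℂ) * Complex.exp (2 * Real.pi * Complex.I * (((j / d : ℝ) : ℂ) * p)) *
          nit t (p + 2)) = ((1 / (d * P) : ℝ) : ℂ) * (Real.log p : ℂ) * nit t (p + 2) *
        Complex.exp (2 * Real.pi * Complex.I * (j * ((p : ℤ) - c : ℤ) / d)) := fun j _ => by
      rw [show 2 * Real.pi * Complex.I * (j * ((p : ℤ) - c : ℤ) / d) =
        2 * Real.pi * Complex.I * ((-(j * c / d) : ℝ) : ℂ) +
          2 * Real.pi * Complex.I * (((j / d : ℝ) : ℂ) * p) by push_cast; ring, Complex.exp_add]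
      ring
    rw [sum_congr rfl this, ← mul_sum, o]
    have i : p ≡ c [MOD d] ↔ (d : ℤ) ∣ (p : ℤ) - c := by
      rw [Nat.ModEq.comm, Nat.modEq_iff_dvd]
    by_cases hc : p ≡ c [MOD d]
    · rw [if_pos hc, if_pos (i.1 hc)]
      push_cast
      field_simp
    · rw [if_neg hc, if_neg (mt i.2 hc), mul_zero]
  rw [e]
  refine (norm_sum_le_of_le _ (n := fun _ => 1 / (d * P) * M) fun j _ => ?_).trans (le_of_eq ?_)
  · rw [norm_mul, norm_mul, Complex.norm_real, Real.norm_of_nonneg (by positivity),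
      Complex.norm_exp]
    simp only [Complex.mul_re, Complex.I_re, Complex.I_im, Complex.ofReal_re, Complex.ofReal_im,
      Complex.mul_im, Complex.re_ofNat, Complex.im_ofNat, mul_zero, zero_mul, add_zero, sub_zero,
      mul_one, Real.exp_zero]
    exact mul_le_mul_of_nonneg_left (h _) (by positivity)
  · have : (d : ℝ) ≠ 0 := by exact_mod_cast hd.ne'
    rw [sum_const, card_range, nsmul_eq_mul]
    field_simp

theorem log_fl_exp {y : ℝ} (hy : 0 ≤ y) :
    y - 1 ≤ Real.log (⌊Real.exp y⌋₊ : ℕ) ∧ Real.log (⌊Real.exp y⌋₊ : ℕ) ≤ y ∧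
      0 < (⌊Real.exp y⌋₊ : ℝ) := by
  have h1 : 1 ≤ Real.exp y := Real.one_le_exp hy
  have h2 : (1 : ℝ) ≤ ⌊Real.exp y⌋₊ := by exact_mod_cast Nat.one_le_floor_iff _ |>.2 h1
  have h3 := Nat.lt_floor_add_one (Real.exp y)
  refine ⟨?_, (Real.log_le_iff_le_exp (by linarith)).2 (Nat.floor_le (by linarith)), by linarith⟩
  rw [Real.le_log_iff_exp_le (by linarith), Real.exp_sub, div_le_iff₀ (Real.exp_pos _)]
  nlinarith [Real.add_one_le_exp (1 : ℝ)]

/-- the common numerics: `y` is the logarithm of the length -/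
theorem sup_gen (hV : VG_s) (A : ℕ) : ∀ᶠ L : ℝ in atTop, ∀ (y t : ℝ) (d c : ℕ), 0 < d →
    L / (Real.log L / 10) ^ 2 ≤ y → y ≤ L → (⌊Real.exp y⌋₊ : ℝ) ^ 3 ≤ |t| →
    Real.log |t| ≤ 3 * (Real.log L / 10) * y → ‖DD ⌊Real.exp y⌋₊ d c t‖ ≤ 1 / L ^ A := by
  obtain ⟨C, C1, h⟩ := hV
  have C1' : (1 : ℝ) ≤ C := by exact_mod_cast C1
  filter_upwards [par_const_log 20, eventually_ge_atTop (1 : ℝ),
    par_poly (64 * C * (A + C + 1)) (C + 1) 2 (show (0.624 : ℝ) < 1 by norm_num),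
    eventually_ge_atTop (C : ℝ)] with L l20 L1 hp hC y t d c hd y1 y2 t1 t2
  rw [Real.rpow_one] at hp
  set l := Real.log L with hl
  have L0 : 0 < L := by linarith
  have l0 : 0 < l := by linarith
  set K := ⌈3 * (l / 10)⌉₊ + 1 with hK
  have K1 : 3 * (l / 10) + 1 ≤ K := by
    rw [hK]; push_cast; linarith [Nat.le_ceil (3 * (l / 10))]
  have K2 : (K : ℝ) ≤ 3 * (l / 10) + (2 : ℕ) := by
    rw [hK]; push_cast; linarith [Nat.ceil_lt_add_one (show 0 ≤ 3 * (l / 10) by positivity)]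
  have K3 : (K : ℝ) ≤ l := by push_cast at K2; linarith
  have K4 : 3 ≤ K := by exact_mod_cast (show (3 : ℝ) ≤ K by linarith)
  have e8 := par_eight_pow L1 K2
  have r1 : 1 ≤ L ^ (0.624 : ℝ) := Real.one_le_rpow L1 (by norm_num)
  have e1 : L / (l / 10) ^ 2 = 100 * (L / l ^ 2) := by field_simp; norm_num
  rw [e1] at y1
  set W : ℝ := C * K ^ C * 8 ^ K with hW
  have W1 : 1 ≤ W := one_le_mul_of_one_le_of_one_le
    (one_le_mul_of_one_le_of_one_le C1' (one_le_pow₀ (by linarith))) (one_le_pow₀ (by norm_num))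
  have A1 : (1 : ℝ) ≤ A + C + 1 := by linarith [(A.cast_nonneg : (0 : ℝ) ≤ A)]
  have W2 : W * ((A + C + 1) * l) ≤ L / l ^ 2 := by
    refine le_trans ?_ hp
    calc W * ((A + C + 1) * l) ≤ C * l ^ C * (8 ^ 2 * L ^ (0.624 : ℝ)) * ((A + C + 1) * l) := by
          rw [hW]; gcongr
      _ = _ := by ring
  have W3 : W ≤ L / l ^ 2 ∧ l ≤ L / l ^ 2 := by
    have : 1 ≤ (A + C + 1) * l := one_le_mul_of_one_le_of_one_le A1 (by linarith)
    have h2 : l ≤ (A + C + 1) * l := le_mul_of_one_le_left l0.le A1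
    constructor <;> nlinarith
  obtain ⟨f1, f2, f3⟩ := log_fl_exp (y := y) (by linarith [W3.2])
  set P := ⌊Real.exp y⌋₊ with hP
  have t0 : 0 < |t| := lt_of_lt_of_le (by positivity) t1
  have t3 : |t| ≤ (P : ℝ) ^ K := by
    rw [← Real.log_le_log_iff t0 (by positivity), Real.log_pow]
    have : (3 * (l / 10) + 1) * (y - 1) ≤ K * Real.log P :=
      mul_le_mul K1 f1 (by linarith [W3.2]) (by positivity)
    nlinarith [W3.2]
  refine (DD_le c hd t fun θ => h K P θ t K4 (by linarith [W3.1, W3.2]) t1 t3).trans ?_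
  have g1 : Real.exp (-(Real.log P / W)) ≤ 1 / L ^ (A + C + 1) := by
    rw [one_div, ← Real.exp_log (pow_pos L0 _), ← Real.exp_neg, Real.exp_le_exp, neg_le_neg_iff,
      Real.log_pow, le_div_iff₀ (by linarith)]
    push_cast
    linarith [W3.2]
  have g0 : 0 ≤ Real.log P := by linarith [W3.2]
  calc C * P * Real.log P ^ C * Real.exp (-(Real.log P / W)) / P
      = C * Real.log P ^ C * Real.exp (-(Real.log P / W)) := by field_simp
    _ ≤ L * L ^ C * (1 / L ^ (A + C + 1)) := by gcongr; linarith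
    _ = 1 / L ^ A := by field_simp; ring

theorem ka_facts : ∀ᶠ X : ℕ in atTop, 1 ≤ ka X ∧ 1 ≤ LL X ∧ 0 < X := by
  filter_upwards [par_nat (par_const_log 10), par_nat (eventually_ge_atTop (1 : ℝ)),
    eventually_gt_atTop 0] with X h1 h2 h3
  exact ⟨by rw [ka, LL]; linarith, h2, h3⟩

theorem sup1 (hV : VG_s) : SUP1_s := by
  intro A
  filter_upwards [par_nat (sup_gen hV A), ka_facts] with X h ⟨k1, L1, X0⟩ d c hd t t1 t2
  have f := (log_fl_exp (y := LL X / ka X) (by positivity)).2.2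
  refine h (LL X / ka X) t d c hd ?_ (div_le_self (by linarith) k1) t1 ?_
  · exact div_le_div_of_nonneg_left (by change 0 ≤ LL X; linarith) (by linarith)
      (by change ka X ≤ ka X ^ 2; nlinarith)
  · have : Real.log |t| ≤ LL X := Real.log_le_log (lt_of_lt_of_le (by positivity) t1) t2
    have e : 3 * ka X * (LL X / ka X) = 3 * LL X := by field_simp
    change _ ≤ 3 * ka X * _
    linarith

theorem sup2 (hV : VG_s) : SUP2_s := by
  intro A
  filter_upwards [par_nat (sup_gen hV A), ka_facts] with X h ⟨k1, L1, X0⟩ d c hd t t1 t2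
  have f := (log_fl_exp (y := LL X / ka X ^ 2) (by positivity)).2.2
  have f1 := (log_fl_exp (y := LL X / ka X) (by positivity)).2.1
  refine h (LL X / ka X ^ 2) t d c hd le_rfl (div_le_self (by linarith) (one_le_pow₀ k1)) t1 ?_
  have := Real.log_le_log (lt_of_lt_of_le (by positivity) t1) t2
  rw [Real.log_pow] at this
  have e : 3 * ka X * (LL X / ka X ^ 2) = 3 * (LL X / ka X) := by field_simp
  change _ ≤ 3 * ka X * _
  change Real.log (P1 X) ≤ _ at f1
  push_cast at this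
  linarith

end Pool.Agent.H84D
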