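import Pool.Agent.H84D.MriD
import Pool.Agent.H84D.Vdc

/-! Derivative tests for the exponential sums of type I and type II. -/

namespace Pool.Agent.H84D.V45
open Finset ComplexConjugate _root_.H84D.Vdc

/-- the summand of `VS` -/
noncomputable def ff (θ t : ℝ) (n : ℕ) : ℂ :=
  Complex.exp (2 * Real.pi * Complex.I * (θ * n)) * nit t (n + 2)

lemma vd_abs (k : ℕ) (hk : k ≠ 0) (F : ℕ → ℝ → ℝ)
    (hF : ∀ i x, 0 < x → HasDerivAt (F i) (F (i + 1) x) x)
    (hA : AntitoneOn (F (k + 1)) (Set.Ioi 0)) {b l ρ M W ω : ℝ} (hb : 0 < b) (L : ℕ) (hl : 0 < l)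
    (hρ : 1 ≤ ρ) (h0 : F (k + 1) b ≤ l) (h1 : l ≤ ρ * F (k + 1) (b + L + 2)) (hM : 0 ≤ M)
    (hM1 : 1 ≤ 2 * l * M ^ k) (hW : 0 ≤ W) (hW1 : 2 * l * W ^ k ≤ 1) (o0 : 0 < ω) (o1 : ω ≤ 1)
    (o2 : 2 ^ (k + 3) * ρ ≤ (ω ^ 2 ^ k) ^ (k + 1) * W) :
    ‖∑ j ∈ range L, zE (F 0 (b + 2 + j))‖ ≤ 5 * (L + M) * ω := by
  obtain ⟨V, V0, hV⟩ : ∃ V : ℝ, 0 < V ∧ 2 * l * V ^ k = 1 :=
    ⟨(2 * l)⁻¹ ^ (k : ℝ)⁻¹, by positivity, by
      rw [Real.rpow_inv_natCast_pow (by positivity) hk, mul_inv_cancel₀ (by positivity)]⟩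
  have l2 : 0 < 2 * l := by positivity
  have VM : V ≤ M := le_of_pow_le_pow_left₀ hk hM (le_of_mul_le_mul_left (hV.trans_le hM1) l2)
  have WV : W ≤ V := le_of_pow_le_pow_left₀ hk V0.le (le_of_mul_le_mul_left (hW1.trans hV.ge) l2)
  set η := ω ^ 2 ^ k with hη
  have e0 : 0 < η := by positivity
  have e1 : η ≤ 1 := pow_le_one₀ o0.le o1
  have e2 : 2 ^ (k + 3) * ρ ≤ η ^ (k + 1) * V := o2.trans (by gcongr)
  have e3 : η ^ (k + 1) ≤ η := pow_le_of_le_one e0.le e1 (by omega)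
  have e4 : (8 : ℝ) ≤ 2 ^ (k + 3) := by
    have : (1 : ℝ) ≤ 2 ^ k := one_le_pow₀ one_le_two
    rw [pow_add]; linarith
  have e5 : 8 ≤ η * V := by nlinarith
  have e6 : 8 ≤ V := by nlinarith
  have H1 : (⌊V⌋₊ : ℝ) ≤ V := Nat.floor_le V0.le
  have H2 : V / 2 ≤ ⌊V⌋₊ := by linarith [Nat.lt_floor_add_one V]
  set H := ⌊V⌋₊
  have H0 : (0 : ℝ) < H := by linarith
  have := z_blocks (fun j => zE (F 0 (b + 2 + j))) (H := H) (by exact_mod_cast H0)
    (B := 5 * H * ω) (by positivity) L ?_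
  · refine this.trans ?_
    rw [show ((L : ℝ) / H + 1) * (5 * H * ω) = 5 * (L + H) * ω by field_simp]
    gcongr; linarith
  intro m n hn hmn
  have hmn : (m : ℝ) + n ≤ L := by exact_mod_cast hmn
  have hm0 : (0 : ℝ) ≤ m := m.cast_nonneg
  have hn0 : (0 : ℝ) ≤ n := n.cast_nonneg
  have := z_vdc H (η := η) (by nlinarith) (b := b + m) (by linarith) k ω F n o0 o1 le_rfl hF hA hn
    ?_ ?_
  · refine le_trans (le_of_eq ?_) this
    congr 1
    refine sum_congr rfl fun j _ => ?_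
    push_cast; congr 2; ring
  · have a := hA (show 0 < b + m + n + 2 by linarith) (show 0 < b + L + 2 by linarith) (by linarith)
    have a1 : l / ρ ≤ F (k + 1) (b + m + n + 2) := by
      rw [div_le_iff₀' (by linarith)]; exact h1.trans (by gcongr)
    calc 2 = l / ρ * (2 ^ (k + 3) * ρ * V ^ k / 2 ^ (k + 1)) := by
          field_simp; linear_combination (-2 * 2 ^ (k + 1)) * hV
      _ ≤ l / ρ * (η ^ (k + 1) * V * V ^ k / 2 ^ (k + 1)) := by gcongr
      _ = l / ρ * (η * (V / 2)) ^ (k + 1) := by rw [mul_pow, div_pow]; ring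
      _ ≤ _ := by
          have : 0 < l / ρ := by positivity
          gcongr; linarith
  · have a := hA hb (show 0 < b + m by linarith) (by linarith)
    calc _ ≤ l * V ^ k := by gcongr; linarith
      _ = _ := by linarith

/-- the same for either sign of the top derivative -/
lemma vd_sgn (k : ℕ) (hk : k ≠ 0) (F : ℕ → ℝ → ℝ)
    (hF : ∀ i x, 0 < x → HasDerivAt (F i) (F (i + 1) x) x) {s : ℝ} {Ψ : ℝ → ℝ}
    (hs : ∀ x, 0 < x → F (k + 1) x = s * Ψ x)
    (hA : AntitoneOn Ψ (Set.Ioi 0)) {b l ρ M W ω : ℝ} (hb : 0 < b) (L : ℕ) (hl : 0 < l)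
    (hρ : 1 ≤ ρ) (h0 : |s| * Ψ b ≤ l) (h1 : l ≤ ρ * (|s| * Ψ (b + L + 2))) (hM : 0 ≤ M)
    (hM1 : 1 ≤ 2 * l * M ^ k) (hW : 0 ≤ W) (hW1 : 2 * l * W ^ k ≤ 1) (o0 : 0 < ω) (o1 : ω ≤ 1)
    (o2 : 2 ^ (k + 3) * ρ ≤ (ω ^ 2 ^ k) ^ (k + 1) * W) :
    ‖∑ j ∈ range L, zE (F 0 (b + 2 + j))‖ ≤ 5 * (L + M) * ω := by
  have bL : 0 < b + L + 2 := by positivity
  rcases le_total 0 s with h | h
  · rw [abs_of_nonneg h] at h0 h1
    refine vd_abs k hk F hF (fun x hx y hy hxy => ?_) hb L hl hρ (by rwa [hs b hb])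
      (by rwa [hs _ bL]) hM hM1 hW hW1 o0 o1 o2
    rw [hs x hx, hs y hy]
    exact mul_le_mul_of_nonneg_left (hA hx hy hxy) h
  · rw [abs_of_nonpos h] at h0 h1
    have := vd_abs k hk (fun i x => -F i x) (fun i x hx => (hF i x hx).neg)
      (fun x hx y hy hxy => ?_) hb L hl hρ (by rwa [hs b hb, ← neg_mul])
      (by rwa [hs _ bL, ← neg_mul]) hM hM1 hW hW1 o0 o1 o2
    · rwa [← Complex.norm_conj, map_sum, sum_congr rfl fun j _ => zE_conj _]
    · show -F (k + 1) y ≤ -F (k + 1) x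
      rw [hs x hx, hs y hy, ← neg_mul, ← neg_mul]
      exact mul_le_mul_of_nonneg_left (hA hx hy hxy) (by linarith)

/-- derivatives of a linear function -/
def lin (θ : ℝ) : ℕ → ℝ → ℝ
  | 0, x => θ * x
  | 1, _ => θ
  | _ + 2, _ => 0

lemma lin_deriv (θ : ℝ) (i : ℕ) (x : ℝ) : HasDerivAt (lin θ i) (lin θ (i + 1) x) x := by
  match i with
  | 0 => exact ((hasDerivAt_id x).const_mul θ).congr_deriv (mul_one θ)
  | 1 => exact hasDerivAt_const x θ
  | i + 2 => exact hasDerivAt_const x 0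

lemma sh_deriv (c : ℝ) {α : ℝ} (hα : 0 ≤ α) (i : ℕ) (x : ℝ) (hx : 0 < x) :
    HasDerivAt (fun x => zF c i (x + α)) (zF c (i + 1) (x + α)) x :=
  (zF_deriv c i (x + α) (by linarith)).comp_add_const x α

lemma ff_eq (θ t : ℝ) {d : ℕ} (hd : 0 < d) (m : ℕ) : ff θ t (d * m) =
    zE (t / (2 * Real.pi) * Real.log d) *
      zE (lin (θ * d) 0 m + zF (t / (2 * Real.pi)) 0 (m + 2 / d)) := by
  have d0 : (0 : ℝ) < d := by exact_mod_cast hd
  have e : Real.log ((d * m + 2 : ℕ) : ℝ) = Real.log d + Real.log (m + 2 / d) := by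
    rw [← Real.log_mul d0.ne' (by positivity)]
    congr 1; push_cast; field_simp
  have p : (Real.pi : ℂ) ≠ 0 := by exact_mod_cast Real.pi_ne_zero
  rw [← zE_add, ff, nit, ← Complex.exp_add, zE, e]
  congr 1
  simp only [lin, zF]
  push_cast; field_simp; ring

/-- the numerical side conditions -/
lemma num {K : ℕ} {l : ℝ} (hK : 3 ≤ K) (hl : ((160 : ℕ) : ℝ) * K ^ 160 * 8 ^ K ≤ l) :
    9 ≤ l ∧ ((3 * K + 2).factorial : ℝ) * 2 ^ (3 * K + 4) ≤ Real.exp (l / 3) ∧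
      (2 : ℝ) ^ (3 * K + 1 + 3) * 8 ^ (3 * K + 3) ≤
        (Real.exp (-(l / ((160 : ℕ) * K ^ 160 * 8 ^ K))) ^ 2 ^ (3 * K + 1)) ^ (3 * K + 1 + 1) *
          Real.exp (l / (3 * (3 * K + 1))) := by
  have k3 : (3 : ℝ) ≤ K := by exact_mod_cast hK
  have a : (K : ℝ) ^ 2 ≤ K ^ 160 := pow_le_pow_right₀ (by linarith) (by norm_num)
  have b : (8 : ℝ) ^ 3 ≤ 8 ^ K := pow_le_pow_right₀ (by norm_num) hK
  generalize (K : ℝ) ^ 160 = G at a hl
  push_cast at hl ⊢
  have c : 81920 * (K : ℝ) ^ 2 ≤ l := by nlinarith [sq_nonneg (K : ℝ)]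
  have e2 : (2 : ℝ) ≤ Real.exp 1 := by linarith [Real.add_one_le_exp 1]
  have e8 : (8 : ℝ) ≤ Real.exp 3 := by
    have := pow_le_pow_left₀ two_pos.le e2 3
    rw [← Real.exp_nat_mul] at this; norm_num at this ⊢; exact this
  refine ⟨by nlinarith, ?_, ?_⟩
  · have f : ((3 * K + 2).factorial : ℝ) ≤ Real.exp (3 * K + 1) ^ (3 * K + 2) := by
      refine le_trans (by exact_mod_cast Nat.factorial_le_pow _)
        (pow_le_pow_left₀ (b := Real.exp (3 * K + 1)) (a := ((3 * K + 2 : ℕ) : ℝ)) (by positivity) ?_ _)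
      push_cast; linarith [Real.add_one_le_exp (3 * K + 1 : ℝ)]
    calc _ ≤ Real.exp (3 * K + 1) ^ (3 * K + 2) * Real.exp 1 ^ (3 * K + 4) := by gcongr
      _ ≤ _ := by
        rw [← Real.exp_nat_mul, ← Real.exp_nat_mul, ← Real.exp_add, Real.exp_le_exp]
        push_cast; nlinarith
  · calc _ ≤ Real.exp 1 ^ (3 * K + 1 + 3) * Real.exp 3 ^ (3 * K + 3) := by gcongr
      _ ≤ _ := by
        rw [← Real.exp_nat_mul, ← Real.exp_nat_mul, ← Real.exp_nat_mul, ← Real.exp_nat_mul,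
          ← Real.exp_add, ← Real.exp_add, Real.exp_le_exp]
        have l0 : 0 ≤ l := by nlinarith
        have G0 : 0 < G := by nlinarith
        have g : ((3 * K + 1 + 1 : ℕ) : ℝ) * (((2 ^ (3 * K + 1) : ℕ) : ℝ) *
            -(l / (160 * G * 8 ^ K))) = -(l * ((3 * K + 2) / (80 * G))) := by
          push_cast
          rw [pow_succ, pow_mul]; norm_num; field_simp; ring
        have g1 : (3 * K + 2) / (80 * G) ≤ 1 / (20 * K : ℝ) := by
          rw [div_le_div_iff₀ (by positivity) (by positivity)]; nlinarith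
        have g2 : l / (10 * K) ≤ l / (3 * (3 * K + 1)) :=
          div_le_div_of_nonneg_left l0 (by positivity) (by linarith)
        have g3 : 17 * (K : ℝ) ≤ l / (20 * K) := by rw [le_div_iff₀ (by positivity)]; nlinarith
        have g4 := mul_le_mul_of_nonneg_left g1 l0
        have g5 : l / (10 * K) = l / (20 * K) + l * (1 / (20 * K)) := by field_simp; ring
        rw [g]; push_cast; linarith

lemma core {K : ℕ} {l M A s : ℝ} (hK : 3 ≤ K) (hl : ((160 : ℕ) : ℝ) * K ^ 160 * 8 ^ K ≤ l)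
    (hM : Real.exp (l / 3) ≤ M) (A1 : M ≤ A) (A2 : A ≤ (3 * K + 2) * M ^ (3 * K))
    (F : ℕ → ℝ → ℝ) (hF : ∀ i x, 0 < x → HasDerivAt (F i) (F (i + 1) x) x) {Ψ : ℝ → ℝ}
    (hs : ∀ x, 0 < x → F (3 * K + 1 + 1) x = s * Ψ x) (hA : AntitoneOn Ψ (Set.Ioi 0))
    (h0 : |s| * Ψ (M / 2) ≤ A * (3 * K + 1).factorial * 2 ^ (3 * K + 3) / M ^ (3 * K + 2))
    (h1 : A * (3 * K + 1).factorial / 4 ^ (3 * K + 3) / M ^ (3 * K + 2) ≤ |s| * Ψ (3 * M))
    {a b : ℕ} (ha : M ≤ a + 1) (hb : b ≤ 2 * M) :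
    ‖∑ m ∈ Ioc a b, zE (F 0 m)‖ ≤
      (160 : ℕ) * M * Real.exp (-(l / ((160 : ℕ) * K ^ 160 * 8 ^ K))) := by
  obtain ⟨l9, n1, n2⟩ := num hK hl
  have M4 : 4 ≤ M := by linarith [Real.add_one_le_exp (l / 3)]
  have M0 : 0 < M := by linarith
  rcases le_or_gt b a with h | h
  · rw [Ioc_eq_empty (by omega), sum_empty, norm_zero]; positivity
  obtain ⟨L, rfl⟩ := Nat.exists_eq_add_of_le h.le
  have e : ∑ m ∈ Ioc a (a + L), zE (F 0 m) = ∑ j ∈ range L, zE (F 0 ((a : ℝ) - 1 + 2 + j)) := by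
    rw [← Ico_add_one_add_one_eq_Ioc, sum_Ico_eq_sum_range, show a + L + 1 - (a + 1) = L by omega]
    refine sum_congr rfl fun j _ => ?_
    push_cast; congr 2; ring
  push_cast at hb
  have a0 : (0 : ℝ) ≤ a := a.cast_nonneg
  have L0 : (0 : ℝ) ≤ L := L.cast_nonneg
  have A0 : 0 < A := by linarith
  have f1 : (1 : ℝ) ≤ (3 * K + 1).factorial := by exact_mod_cast Nat.factorial_pos _
  have t1 : (1 : ℝ) ≤ 2 ^ (3 * K + 3) := one_le_pow₀ one_le_two
  rw [e]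
  refine (vd_sgn (3 * K + 1) (by omega) F hF hs hA (b := (a : ℝ) - 1) (by linarith) L
    (l := A * (3 * K + 1).factorial * 2 ^ (3 * K + 3) / M ^ (3 * K + 2)) (ρ := 8 ^ (3 * K + 3))
    (by positivity) (one_le_pow₀ (by norm_num)) (le_trans (mul_le_mul_of_nonneg_left
      (hA (show 0 < M / 2 by linarith) (show 0 < (a : ℝ) - 1 by linarith) (by linarith))
      (abs_nonneg _)) h0) ?_ M0.le ?_ (Real.exp_pos _).le ?_ (Real.exp_pos _)
    (Real.exp_le_one_iff.2 (neg_nonpos.2 (div_nonneg (by linarith) (by positivity)))) n2).trans ?_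
  · refine le_trans (le_of_eq ?_) (mul_le_mul_of_nonneg_left (h1.trans (mul_le_mul_of_nonneg_left
      (hA (show 0 < (a : ℝ) - 1 + L + 2 by linarith) (show 0 < 3 * M by linarith) (by linarith))
      (abs_nonneg _))) (by positivity))
    rw [show (8 : ℝ) = 2 * 4 by norm_num, mul_pow]; field_simp
  · rw [show 2 * (A * (3 * K + 1).factorial * 2 ^ (3 * K + 3) / M ^ (3 * K + 2)) * M ^ (3 * K + 1) =
      2 * (A * ((3 * K + 1).factorial * 2 ^ (3 * K + 3))) / M by field_simp; ring, one_le_div M0]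
    nlinarith [one_le_mul_of_one_le_of_one_le f1 t1]
  · rw [← Real.exp_nat_mul, show ((3 * K + 1 : ℕ) : ℝ) * (l / (3 * (3 * K + 1))) = l / 3 by
      push_cast; field_simp]
    calc _ ≤ 2 * ((3 * K + 2) * M ^ (3 * K) * (3 * K + 1).factorial * 2 ^ (3 * K + 3) /
          M ^ (3 * K + 2)) * M := by gcongr
      _ = ((3 * K + 2).factorial * 2 ^ (3 * K + 4)) / M := by
          rw [Nat.factorial_succ (3 * K + 1)]; push_cast; field_simp; ring
      _ ≤ 1 := (div_le_one M0).2 (n1.trans hM)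
  · gcongr ?_ * _
    push_cast; linarith

/-- the quotient of a difference of powers -/
noncomputable def Ps (n : ℕ) (u v : ℝ) : ℝ := u * v * ∑ i ∈ range n, u ^ i * v ^ (n - 1 - i)

lemma Ps_mono (n : ℕ) {u v u' v' : ℝ} (hu : 0 ≤ u) (hv : 0 ≤ v) (h : u ≤ u') (h' : v ≤ v') :
    Ps n u v ≤ Ps n u' v' := by
  have := hu.trans h
  have := hv.trans h'
  unfold Ps; gcongr

lemma Ps_self (n : ℕ) (w : ℝ) : Ps (n + 1) w w = (n + 1) * w ^ (n + 2) := by
  rw [Ps, sum_congr rfl (g := fun _ => w ^ n) fun i hi => by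
    rw [← pow_add]; congr 1; have := mem_range.1 hi; omega]
  simp; ring

lemma Ps_eq (n : ℕ) {x y : ℝ} (hx : x ≠ 0) (hy : y ≠ 0) :
    1 / x ^ n - 1 / y ^ n = (y - x) * Ps n (1 / x) (1 / y) := by
  rw [← one_div_pow, ← one_div_pow, ← geom_sum₂_mul, Ps]
  field_simp

/-- both derivative tests, one constant -/
theorem vd : ∃ C : ℕ, 1 ≤ C ∧ ∀ (K P : ℕ) (θ t : ℝ), 3 ≤ K →
    (C : ℝ) * K ^ C * 8 ^ K ≤ Real.log P → (P : ℝ) ^ 3 ≤ |t| → |t| ≤ (P : ℝ) ^ K →
    ∀ d a b : ℕ, 0 < d → d ^ 3 ≤ P ^ 2 → P ≤ d * (a + 1) → d * b ≤ 2 * P →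
      ‖∑ m ∈ Ioc a b, ff θ t (d * m)‖ ≤
          C * (P / d) * Real.exp (-(Real.log P / (C * K ^ C * 8 ^ K))) ∧
        ∀ e : ℕ, e ≠ d → d ≤ 2 * e → e ≤ 2 * d →
          ‖∑ m ∈ Ioc a b, ff θ t (d * m) * conj (ff θ t (e * m))‖ ≤
            C * (P / d) * Real.exp (-(Real.log P / (C * K ^ C * 8 ^ K))) := by
  refine ⟨160, by norm_num, fun K P θ t hK hl t1 t2 d a b hd h3 ha hb => ?_⟩
  have l9 := (num hK hl).1
  have P0 : (0 : ℝ) < P := by
    rcases Nat.eq_zero_or_pos P with rfl | h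
    · norm_num at l9
    · exact_mod_cast h
  have P8 : (8 : ℝ) ≤ P := by linarith [Real.log_le_sub_one_of_pos P0]
  have d1 : (1 : ℝ) ≤ d := by exact_mod_cast hd
  have d0 : (0 : ℝ) < d := by linarith
  obtain ⟨M, hM⟩ : ∃ M : ℝ, M = P / d := ⟨_, rfl⟩
  have eP : (P : ℝ) = d * M := by rw [hM]; field_simp
  have M0 : 0 < M := by rw [hM]; positivity
  have PM : (P : ℝ) ≤ M ^ 3 := by
    have : (d : ℝ) ^ 3 ≤ P ^ 2 := by exact_mod_cast h3
    rw [hM, div_pow, le_div_iff₀ (by positivity)]; nlinarith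
  have MP : M ≤ P := by nlinarith
  have eM : Real.exp (Real.log P / 3) ≤ M := le_of_pow_le_pow_left₀ three_ne_zero M0.le (by
    rwa [← Real.exp_nat_mul, show ((3 : ℕ) : ℝ) * (Real.log P / 3) = Real.log P by
      push_cast; ring, Real.exp_log P0])
  have M4 : 4 ≤ M := by linarith [Real.add_one_le_exp (Real.log P / 3)]
  have ha' : M ≤ a + 1 := by rw [hM, div_le_iff₀' d0]; exact_mod_cast ha
  have hb' : (b : ℝ) ≤ 2 * M := by rw [hM, ← mul_div_assoc, le_div_iff₀' d0]; exact_mod_cast hb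
  have pi3 := Real.pi_gt_three
  have pi4 := Real.pi_le_four
  rw [← hM]
  obtain ⟨c, hc⟩ : ∃ c : ℝ, c = t / (2 * Real.pi) := ⟨_, rfl⟩
  have c0 : |c| = |t| / (2 * Real.pi) := by rw [hc, abs_div, abs_of_pos (a := 2 * Real.pi) (by linarith)]
  have c1 : (P : ℝ) ^ 3 / 8 ≤ |c| := by
    rw [c0]; exact div_le_div₀ (abs_nonneg _) t1 (by linarith) (by linarith)
  have c2 : |c| ≤ M ^ (3 * K) := by
    rw [c0, pow_mul]
    exact (div_le_self (abs_nonneg _) (by linarith)).trans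
      (t2.trans (pow_le_pow_left₀ P0.le PM K))
  have al0 : (0 : ℝ) < 2 / d := by positivity
  have al2 : (2 : ℝ) / d ≤ 2 := div_le_self two_pos.le d1
  have sa : |c * (-1) ^ (3 * K + 1) * (3 * K + 1).factorial| = |c| * (3 * K + 1).factorial := by
    rw [abs_mul, abs_mul, abs_neg_one_pow, mul_one, Nat.abs_cast]
  have K0 : (0 : ℝ) ≤ K := K.cast_nonneg
  refine ⟨?_, fun e ne h1 h2 => ?_⟩
  · simp only [ff_eq θ t hd, ← mul_sum, norm_mul, zE_norm, one_mul, ← hc]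
    refine core (A := |c|) (s := c * (-1) ^ (3 * K + 1) * (3 * K + 1).factorial)
      (Ψ := fun x => 1 / (x + 2 / d) ^ (3 * K + 2)) hK hl eM
      (by nlinarith [mul_le_mul_of_nonneg_left (show 8 ≤ (P : ℝ) ^ 2 by nlinarith) P0.le])
      (by nlinarith [abs_nonneg c]) (fun i x => lin (θ * d) i x + zF c i (x + 2 / d))
      (fun i x hx => (lin_deriv _ i x).add (sh_deriv c al0.le i x hx))
      (fun x _ => by simp only [lin, zF]; ring) (fun x hx y _ hxy => ?_) ?_ ?_ ha' hb'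
    · have : 0 < x := hx
      show 1 / _ ≤ 1 / _
      gcongr
    · rw [sa]
      calc _ ≤ |c| * (3 * K + 1).factorial * (2 / (M / 2) ^ (3 * K + 2)) := by
            gcongr <;> linarith
        _ = _ := by rw [div_pow]; field_simp; ring
    · rw [sa]
      calc _ = |c| * (3 * K + 1).factorial * ((1 / 4) / (4 * M) ^ (3 * K + 2)) := by
            rw [mul_pow]; field_simp; ring
        _ ≤ _ := by gcongr <;> linarith
  have he : 0 < e := by omega
  have e1 : (1 : ℝ) ≤ e := by exact_mod_cast he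
  have be0 : (0 : ℝ) < 2 / e := by positivity
  have be2 : (2 : ℝ) / e ≤ 2 := div_le_self two_pos.le e1
  have g : ∀ m : ℕ, ff θ t (d * m) * conj (ff θ t (e * m)) = zE (c * Real.log d - c * Real.log e) *
      zE (lin (θ * d - θ * e) 0 m + (zF c 0 (m + 2 / d) - zF c 0 (m + 2 / e))) := fun m => by
    rw [ff_eq θ t hd, ff_eq θ t he, ← hc, ← zE_add, ← zE_add, zE_conj, ← zE_add, ← zE_add]
    congr 1; simp only [lin]; ring
  have D1 : 1 / (d : ℝ) ^ 2 ≤ |(2 : ℝ) / e - 2 / d| := by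
    have a : (1 : ℝ) ≤ |(d : ℝ) - e| := by
      have : (1 : ℤ) ≤ |(d : ℤ) - e| := Int.one_le_abs (by omega)
      exact_mod_cast this
    have b : (e : ℝ) ≤ 2 * d := by exact_mod_cast h2
    rw [show (2 : ℝ) / e - 2 / d = 2 / (d * e) * (d - e) by field_simp, abs_mul,
      abs_of_pos (by positivity)]
    refine le_trans ?_ (le_mul_of_one_le_right (by positivity) a)
    rw [div_le_div_iff₀ (by positivity) (by positivity)]; nlinarith
  have D2 : |(2 : ℝ) / e - 2 / d| ≤ M := abs_le.2 ⟨by linarith, by linarith⟩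
  simp only [g, ← mul_sum, norm_mul, zE_norm, one_mul]
  refine core (A := |c| * |(2 : ℝ) / e - 2 / d| * (3 * K + 2) / M)
    (s := c * (-1) ^ (3 * K + 1) * (3 * K + 1).factorial * (2 / e - 2 / d))
    (Ψ := fun x => Ps (3 * K + 1 + 1) (1 / (x + 2 / d)) (1 / (x + 2 / e))) hK hl eM ?_ ?_
    (fun i x => lin (θ * d - θ * e) i x + (zF c i (x + 2 / d) - zF c i (x + 2 / e)))
    (fun i x hx => (lin_deriv _ i x).add
      ((sh_deriv c al0.le i x hx).sub (sh_deriv c be0.le i x hx)))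
    (fun x hx => ?_) (fun x hx y hy hxy => ?_) ?_ ?_ ha' hb'
  · have : M ^ 2 ≤ |c| * |(2 : ℝ) / e - 2 / d| :=
      calc M ^ 2 ≤ (P : ℝ) / 8 * M ^ 2 := by nlinarith [sq_nonneg M]
        _ = (P : ℝ) ^ 3 / 8 * (1 / (d : ℝ) ^ 2) := by rw [eP]; field_simp
        _ ≤ _ := by gcongr
    rw [le_div_iff₀ M0]; nlinarith [sq_nonneg M]
  · calc _ ≤ M ^ (3 * K) * M * (3 * K + 2) / M := by gcongr
      _ = _ := by field_simp
  · have := Ps_eq (3 * K + 1 + 1) (show x + 2 / d ≠ 0 by positivity)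
      (show x + 2 / e ≠ 0 by positivity)
    simp only [lin, zF]
    linear_combination (c * (-1) ^ (3 * K + 1) * (3 * K + 1).factorial) * this
  · have : 0 < x := hx
    have : 0 < y := hy
    exact Ps_mono _ (by positivity) (by positivity) (by gcongr) (by gcongr)
  · rw [abs_mul, sa]
    have := (Ps_mono (3 * K + 1 + 1) (u := 1 / (M / 2 + 2 / d)) (v := 1 / (M / 2 + 2 / e))
      (u' := 1 / (M / 2)) (v' := 1 / (M / 2)) (by positivity) (by positivity)
      (by gcongr; linarith) (by gcongr; linarith)).trans_eq (Ps_self _ _)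
    refine (mul_le_mul_of_nonneg_left this (by positivity)).trans_eq ?_
    rw [one_div_div, div_pow]; push_cast; field_simp; ring
  · rw [abs_mul, sa]
    have := (Ps_self _ _).symm.trans_le (Ps_mono (3 * K + 1 + 1) (u' := 1 / (3 * M + 2 / d))
      (v' := 1 / (3 * M + 2 / e)) (u := 1 / (4 * M)) (v := 1 / (4 * M)) (by positivity)
      (by positivity) (by gcongr; linarith) (by gcongr; linarith))
    refine le_trans (le_of_eq ?_) (mul_le_mul_of_nonneg_left this (by positivity))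
    rw [one_div_pow, mul_pow]; push_cast; field_simp; ring

end Pool.Agent.H84D.V45
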