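import Pool.Agent.H84D.VgA85
import Pool.Agent.H84D.Vd45
import Pool.Agent.H84D.MriS

set_option autoImplicit false

/-! The exponential sum over primes from the two derivative tests. -/

namespace Pool.Agent.H84D.Vg85

open Finset ArithmeticFunction ComplexConjugate

theorem norm_ff (θ t : ℝ) (n : ℕ) : ‖V45.ff θ t n‖ = 1 := by
  rw [V45.ff, nit, norm_mul, Complex.norm_exp, Complex.norm_exp]
  simp [-Complex.natCast_log]

/-- the summand cut at `P` -/
noncomputable def zc (P : ℕ) (θ t : ℝ) (n : ℕ) : ℂ := if P < n then V45.ff θ t n else 0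

theorem norm_zc (P : ℕ) (θ t : ℝ) (n : ℕ) : ‖zc P θ t n‖ ≤ 1 := by
  rw [zc]; split_ifs
  · exact (norm_ff _ _ _).le
  · simp

theorem zc_mul (P : ℕ) (θ t : ℝ) {d : ℕ} (hd : 0 < d) (k : ℕ) :
    zc P θ t (d * k) = if P / d < k then V45.ff θ t (d * k) else 0 := by
  simp only [zc, Nat.div_lt_iff_lt_mul hd, mul_comm k d]

theorem VS_sub (P : ℕ) (θ t : ℝ) :
    ‖VS P θ t‖ ≤ ‖∑ n ∈ Ioc 0 (2 * P), (vonMangoldt n : ℂ) * zc P θ t n‖ +
      ∑ n ∈ Ioc 0 (2 * P) with ¬ n.Prime, vonMangoldt n := by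
  have e : VS P θ t = ∑ n ∈ Ioc 0 (2 * P), (vonMangoldt n : ℂ) * zc P θ t n -
      ∑ n ∈ Ioc 0 (2 * P) with ¬ n.Prime, (vonMangoldt n : ℂ) * zc P θ t n := by
    rw [← sum_filter_add_sum_filter_not (Ioc 0 (2 * P)) Nat.Prime, add_sub_cancel_right, VS, PP]
    have : (Ioc P (2 * P)).filter Nat.Prime =
        ((Ioc 0 (2 * P)).filter Nat.Prime).filter fun n => P < n := by
      ext n; simp only [mem_filter, mem_Ioc]
      constructor
      · rintro ⟨⟨a, b⟩, c⟩; exact ⟨⟨⟨by omega, b⟩, c⟩, a⟩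
      · rintro ⟨⟨⟨_, b⟩, c⟩, a⟩; exact ⟨⟨a, b⟩, c⟩
    rw [this, sum_filter]
    refine sum_congr rfl fun p hp => ?_
    rw [zc, vonMangoldt_apply_prime (mem_filter.1 hp).2, V45.ff]
    split_ifs
    · ring
    · simp
  rw [e]
  refine (norm_sub_le _ _).trans (add_le_add le_rfl (norm_sum_le_of_le _ fun n _ => ?_))
  rw [norm_mul, Complex.norm_real, Real.norm_of_nonneg vonMangoldt_nonneg]
  exact mul_le_of_le_one_right vonMangoldt_nonneg (norm_zc _ _ _ _)

theorem vg : VG_s := by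
  obtain ⟨C, C1, h⟩ := V45.vd
  refine ⟨192 * C, by omega, fun K P θ t K3 hl t1 t2 => ?_⟩
  have C1' : (1 : ℝ) ≤ C := by exact_mod_cast C1
  have K3' : (3 : ℝ) ≤ K := by exact_mod_cast K3
  set l := Real.log P with hl'
  set W : ℝ := C * K ^ C * 8 ^ K with hW
  have e8 : (512 : ℝ) ≤ 8 ^ K := by
    calc (512 : ℝ) = 8 ^ 3 := by norm_num
      _ ≤ 8 ^ K := pow_le_pow_right₀ (by norm_num) K3
  have W1 : 512 ≤ W := by
    have : 1 ≤ (C : ℝ) * K ^ C := one_le_mul_of_one_le_of_one_le C1' (one_le_pow₀ (by linarith))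
    nlinarith
  have W2 : 192 * W ≤ ((192 * C : ℕ) : ℝ) * K ^ (192 * C) * 8 ^ K := by
    have : (K : ℝ) ^ C ≤ K ^ (192 * C) := pow_le_pow_right₀ (by linarith) (by omega)
    push_cast
    calc 192 * W = 192 * C * K ^ C * 8 ^ K := by ring
      _ ≤ _ := by gcongr
  have l1 : 192 * W ≤ l := W2.trans hl
  have P0 : (0 : ℝ) < P := by
    rcases Nat.eq_zero_or_pos P with e | e
    · rw [hl', e] at l1; simp at l1; linarith
    · exact_mod_cast e
  have eP : Real.exp l = P := Real.exp_log P0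
  have P1 : 32768 ≤ P := by
    have := Real.add_one_le_exp l
    exact_mod_cast (show (32768 : ℝ) ≤ P by linarith)
  set x := Real.exp (-(l / (2 * W))) with hx
  have x0 : 0 < x := Real.exp_pos _
  have x1 : x ≤ 1 := Real.exp_le_one_iff.2 (neg_nonpos.2 (by apply div_nonneg <;> linarith))
  have x2 : Real.exp (-(l / W)) = x ^ 2 := by
    rw [hx, ← Real.exp_nat_mul]; congr 1; push_cast; field_simp
  have hv := h K P θ t K3 (by linarith) t1 t2
  clear h
  rw [← hW, x2] at hv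
  obtain ⟨u1, u2, u3⟩ := log_fl_exp (y := l / 3) (by linarith)
  set U := ⌊Real.exp (l / 3)⌋₊ with hU
  have U0 : 0 < U := by exact_mod_cast u3
  have U3 : U ^ 3 ≤ P := by
    have : (U : ℝ) ^ 3 ≤ P := by
      rw [← Real.log_le_log_iff (by positivity) P0, Real.log_pow]; push_cast; linarith
    exact_mod_cast this
  have UU : U * U ≤ P := le_trans (by rw [← sq]; exact Nat.pow_le_pow_right U0 (by norm_num)) U3
  set R := Nat.sqrt (2 * P) + 1 with hR
  have r1 : 2 * P < R * R := Nat.lt_succ_sqrt _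
  have r2 : Nat.sqrt (2 * P) * Nat.sqrt (2 * P) ≤ 2 * P := Nat.sqrt_le _
  have r3 : 1 ≤ Nat.sqrt (2 * P) := Nat.le_sqrt.2 (by omega)
  have r4 : R * R ≤ 8 * P := by rw [hR]; nlinarith
  have r5 : R ≤ 2 * P := by
    by_contra hh
    have : 2 * P * (2 * P) ≤ R * R := Nat.mul_le_mul (by omega) (by omega)
    nlinarith
  have r6 : (2 * R) ^ 3 ≤ P ^ 2 := by
    refine (Nat.pow_le_pow_iff_left two_ne_zero).1 ?_
    calc ((2 * R) ^ 3) ^ 2 = 64 * (R * R) ^ 3 := by ring
      _ ≤ 64 * (8 * P) ^ 3 := by gcongr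
      _ = 32768 * P ^ 3 := by ring
      _ ≤ P * P ^ 3 := by gcongr
      _ = _ := by ring
  have iU : 2 / (U : ℝ) ≤ 6 * x ^ 2 := by
    have a1 : 1 / (U : ℝ) ≤ Real.exp 1 * Real.exp (-(l / W)) := by
      rw [one_div, ← Real.exp_log u3, ← Real.exp_neg, ← Real.exp_add, Real.exp_le_exp]
      have : l / W ≤ l / 3 := div_le_div_of_nonneg_left (by linarith) (by norm_num) (by linarith)
      linarith
    rw [x2] at a1
    have a2 := Real.exp_one_lt_d9
    have : 2 / (U : ℝ) = 2 * (1 / U) := by ring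
    nlinarith [sq_nonneg x]
  have key := vau (zc P θ t) (norm_zc P θ t) (N := 2 * P) (U := U) (R := R) (J := Nat.log 2 R + 1)
    (fun n hn => if_neg (not_lt.2 (hn.trans ((Nat.le_mul_self U).trans UU)))) U0 (by omega) (Nat.lt_pow_succ_log_self (by norm_num) R)
    r5 r1.le (ε := C * x ^ 2) (E := (C + 3) * x) (by positivity) (by positivity)
    (by rw [mul_pow]; nlinarith [sq_nonneg x, mul_nonneg (sq_nonneg x) (sq_nonneg (C : ℝ))])
    (fun d a hd hdU => ?_) (fun D d e hD hDR hd he hde => ?_)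
  · have L1 : Real.log ((2 * P : ℕ) : ℝ) ≤ 2 * l := by
      push_cast
      rw [Real.log_mul two_ne_zero P0.ne']
      linarith [Real.log_two_lt_d9]
    have L0 : 0 ≤ Real.log ((2 * P : ℕ) : ℝ) := Real.log_natCast_nonneg _
    have J1 : ((Nat.log 2 R + 1 : ℕ) : ℝ) ≤ 5 * l := by
      have a1 : ((2 : ℝ)) ^ Nat.log 2 R ≤ ((2 * P : ℕ) : ℝ) := by
        exact_mod_cast (Nat.pow_log_le_self 2 (by omega : R ≠ 0)).trans r5
      have a2 := Real.log_le_log (by positivity) a1
      rw [Real.log_pow] at a2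
      have := Real.log_two_gt_d9
      have a3 : (0 : ℝ) ≤ Nat.log 2 R := Nat.cast_nonneg _
      push_cast at a2 L1 ⊢
      nlinarith
    have pp : ∑ n ∈ Ioc 0 (2 * P) with ¬ n.Prime, vonMangoldt n ≤ 8 * (P * l ^ 2 * x) := by
      have a1 := Chebyshev.psi_sub_theta_le (x := ((2 * P : ℕ) : ℝ))
        (by exact_mod_cast (by omega : 1 ≤ 2 * P))
      rw [Chebyshev.psi_sub_theta_eq_sum_not_prime, Nat.floor_natCast] at a1
      have a2 : √((2 * P : ℕ) : ℝ) ≤ 2 * (P * x) := by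
        rw [Real.sqrt_le_iff]
        refine ⟨by positivity, ?_⟩
        have a3 : 1 ≤ P * x ^ 2 := by
          rw [← x2, ← eP, ← Real.exp_add]
          refine Real.one_le_exp ?_
          have : l / W ≤ l := div_le_self (by linarith) (by linarith)
          linarith
        push_cast
        nlinarith
      calc _ ≤ 2 * √((2 * P : ℕ) : ℝ) * Real.log ((2 * P : ℕ) : ℝ) := a1
        _ ≤ 2 * (2 * (P * x)) * (2 * l ^ 2) := by
            have : l ≤ l ^ 2 := le_self_pow₀ (by linarith) two_ne_zero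
            gcongr; linarith
        _ = _ := by ring
    have main : ‖VS P θ t‖ ≤ 192 * C * (P * l ^ 2 * x) := by
      refine (VS_sub P θ t).trans ?_
      have a1 : ((2 * P : ℕ) : ℝ) * Real.log ((2 * P : ℕ) : ℝ) *
          (2 * ((1 + Real.log ((2 * P : ℕ) : ℝ)) * (C * x ^ 2)) +
            2 * (((Nat.log 2 R + 1 : ℕ) : ℝ) * ((C + 3) * x))) ≤
          2 * P * (2 * l) * (2 * (3 * l * (C * x)) + 2 * (5 * l * (4 * C * x))) := by
        have c1 : ((2 * P : ℕ) : ℝ) ≤ 2 * P := by push_cast; rfl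
        have c2 : 1 + Real.log ((2 * P : ℕ) : ℝ) ≤ 3 * l := by linarith
        have c3 : x ^ 2 ≤ x := by nlinarith
        have c4 : (C : ℝ) + 3 ≤ 4 * C := by linarith
        have c5 : 0 ≤ l := by linarith
        gcongr
      have a2 : 0 ≤ P * l ^ 2 * x := by positivity
      have a3 : 2 * P * (2 * l) * (2 * (3 * l * (C * x)) + 2 * (5 * l * (4 * C * x))) =
        184 * (C * (P * l ^ 2 * x)) := by ring
      have a4 := le_mul_of_one_le_left a2 C1'
      rw [mul_assoc 192]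
      linarith
    refine main.trans ?_
    have b1 : l ^ 2 ≤ l ^ (192 * C) := pow_le_pow_right₀ (by linarith) (by omega)
    have b2 : x ≤ Real.exp (-(l / (((192 * C : ℕ) : ℝ) * K ^ (192 * C) * 8 ^ K))) :=
      Real.exp_le_exp.2 (neg_le_neg (div_le_div_of_nonneg_left (by linarith) (by linarith)
        (by linarith)))
    calc 192 * C * (P * l ^ 2 * x) = ((192 * C : ℕ) : ℝ) * P * l ^ 2 * x := by push_cast; ring
      _ ≤ _ := by gcongr
  · have d3 : d ^ 3 ≤ P ^ 2 := by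
      calc d ^ 3 ≤ (U * U) ^ 3 := by gcongr
        _ = (U ^ 3) ^ 2 := by ring
        _ ≤ _ := by gcongr
    have e : ∑ k ∈ Ioc a (2 * P / d), zc P θ t (d * k) =
        ∑ k ∈ Ioc (max a (P / d)) (2 * P / d), V45.ff θ t (d * k) := by
      simp only [zc_mul P θ t hd, ← sum_filter]
      congr 1
      ext k; simp only [mem_filter, mem_Ioc, max_lt_iff]; tauto
    rw [e]
    refine (hv d _ _ hd d3 ((Nat.lt_mul_div_succ P hd).le.trans (Nat.mul_le_mul_left _
      (Nat.succ_le_succ (le_max_right _ _)))) (Nat.mul_div_le _ _)).1.trans ?_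
    have : (0 : ℝ) ≤ C * (P / d) * x ^ 2 := by positivity
    have e2 : ((2 * P : ℕ) : ℝ) / d * (C * x ^ 2) = 2 * (C * (P / d) * x ^ 2) := by push_cast; ring
    linarith
  · rw [mem_Ico] at hd he
    have d0 : 0 < d := by omega
    have e0 : 0 < e := by omega
    have d3 : d ^ 3 ≤ P ^ 2 := le_trans (Nat.pow_le_pow_left (by omega) 3) r6
    have e1 : ∑ k ∈ Ioc 0 (min (2 * P / d) (2 * P / e)),
        zc P θ t (d * k) * (starRingEnd ℂ) (zc P θ t (e * k)) =
        ∑ k ∈ Ioc (max (P / d) (P / e)) (min (2 * P / d) (2 * P / e)),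
          V45.ff θ t (d * k) * conj (V45.ff θ t (e * k)) := by
      have : Ioc (max (P / d) (P / e)) (min (2 * P / d) (2 * P / e)) =
          (Ioc 0 (min (2 * P / d) (2 * P / e))).filter fun k => P / d < k ∧ P / e < k := by
        ext k; simp only [mem_filter, mem_Ioc, max_lt_iff]
        constructor
        · rintro ⟨a, b⟩; exact ⟨⟨(Nat.zero_le _).trans_lt a.1, b⟩, a⟩
        · rintro ⟨⟨_, b⟩, a⟩; exact ⟨a, b⟩
      rw [this, sum_filter]
      refine sum_congr rfl fun k _ => ?_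
      rw [zc_mul P θ t d0, zc_mul P θ t e0]
      by_cases h1 : P / d < k <;> by_cases h2 : P / e < k <;> simp [h1, h2]
    rw [e1]
    refine ((hv d _ _ d0 d3 ((Nat.lt_mul_div_succ P d0).le.trans (Nat.mul_le_mul_left _
      (Nat.succ_le_succ (le_max_left _ _)))) ((Nat.mul_le_mul_left _ (min_le_left _ _)).trans
        (Nat.mul_div_le _ _))).2 e hde.symm (by omega) (by omega)).trans ?_
    have a1 : (P : ℝ) / d ≤ P / D :=
      div_le_div_of_nonneg_left P0.le (by exact_mod_cast hD) (by exact_mod_cast hd.1)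
    have a2 : (0 : ℝ) ≤ C * (P / D) * x ^ 2 := by positivity
    have a3 : C * ((P : ℝ) / d) * x ^ 2 ≤ C * (P / D) * x ^ 2 := by gcongr
    have e2 : ((2 * P : ℕ) : ℝ) / D * (C * x ^ 2) = 2 * (C * (P / D) * x ^ 2) := by push_cast; ring
    linarith

end Pool.Agent.H84D.Vg85
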