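import Pool.Agent.H84D.Block
import Pool.Agent.H84D.Real
import Pool.Agent.H84D.FamG
import Pool.Agent.H84D.Mass
import Pool.Agent.H84D.Good
import Pool.Agent.H84D.Dirty
import Pool.Agent.H84D.Minor
import Pool.Agent.H84D.Cs
import Pool.Agent.H84D.Hh
import Pool.Agent.H84D.S2Le
import Pool.Agent.H84D.Df
import Pool.Agent.H84D.Ser
import Pool.Agent.H84D.Maj
import Pool.Agent.H84D.Mr
import Pool.Agent.H84D.Mri
import Pool.Agent.H84D.MriS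
import Pool.Agent.H84D.MriS3
import Pool.Agent.H84D.MriM
import Pool.Agent.H84D.Long
import Pool.Agent.H84D.Vg85

set_option autoImplicit false

/-! Assembly of the density one theorem. -/

namespace Pool.Agent.H84D

open Finset Filter Pool.Agent.MP_a96b63_al

theorem mr (c B a₀ A : ℕ) (hc : 1 ≤ c) :
    ∀ᶠ X : ℕ in atTop, ∀ D : Fm, Fam c B a₀ X D → MR c B A X D :=
  mr_of (fun c B a₀ A hc => long c B a₀ A hc)
    (mri (sup1 Vg85.vg) (sup2 Vg85.vg) sup3 MM.off MM.lowm MM.hm3) c B a₀ A hc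

theorem major (c B a₀ : ℕ) (hc : 1 ≤ c) : ∀ᶠ X : ℕ in atTop, ∀ D : Fm, Fam c B a₀ X D →
    ∀ S ⊆ Ioc (X : ℤ) (2 * X),
      |TT c X D D.F (cv (QB B X) (hW B X) S) - ∑ k ∈ S, SS D (QB B X) k| ≤ X / LL X := by
  obtain ⟨A, h⟩ := major_of_mr c B a₀
  filter_upwards [h, mr c B a₀ A hc] with X h1 h2 D hD
  exact h1 D hD (h2 D hD)

theorem minor (c : ℕ) : ∃ B₀ : ℕ, ∀ B a₀ : ℕ, B₀ ≤ B → ∀ᶠ X : ℕ in atTop, ∀ D : Fm,
    Fam c B a₀ X D → ∀ S ⊆ Ioc (X : ℤ) (2 * X),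
      |TT c X D (good D (QB B X)) (gg (QB B X) (hW B X) S)| ≤ X / LL X :=
  minor_of c (fun B a₀ => cs_of c B a₀ (hh3_sq c B a₀)) (s2_le c) (df_le c) gg_le gg_supp

theorem block {δ : ℝ} (hδ : 0 < δ) {a₀ : ℕ} (ha : a₀ = 1 ∨ a₀ = 2) : ∀ᶠ X : ℕ in atTop,
    ({k : ℕ | X < k ∧ k ≤ 2 * X ∧ k % 2 = 1 ∧ k % 3 ≠ a₀ ∧ ¬ V2 k}.ncard : ℝ) ≤ δ * X :=
  block_of fam mass good_card (fun hh => cv_le hh) dirty minor major
    (fun c _ hδ => series c hδ) hδ ha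

theorem density {ε : ℝ} (hε : 0 < ε) : ∀ᶠ N : ℕ in atTop,
    ({y : ℕ | 1 ≤ y ∧ y ≤ N ∧ ¬ ∃ x, Squarefree x ∧ IsGnu x y}.ncard : ℝ) ≤ ε * N :=
  density_of_block (fun h _ ha => block h ha) hε

end Pool.Agent.H84D
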