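import Pool.Agent.H84D.Defs

set_option autoImplicit false

/-! Definitions for the major arcs. -/

namespace Pool.Agent.H84D

open Finset

/-- primes in `(a, b]` in one residue class -/
def PC (a b d r : ℕ) : Finset ℕ := (PP a b).filter fun p => p ≡ r [MOD d]

/-- the window sum over one piece `I` of the primes `q` with frozen shift `s` -/
noncomputable def RS (c B X : ℕ) (D : Fm) (a d c₁ c₂ c₃ : ℕ) (I : Finset ℕ) (s k : ℤ) : ℝ :=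
  1 / (#D.QQ : ℝ) * ∑ q ∈ I, ∑ p₁ ∈ PC (P1 X) (2 * P1 X) d c₁, ∑ p₂ ∈ PC (P2 X) (2 * P2 X) d c₂,
    ∑ p₃ ∈ PC (N3 X D) (N4 c X D) d c₃, Real.log p₁ / P1 X * (Real.log p₂ / P2 X) *
      (((q + 4) * a * (p₁ + 2) * (p₂ + 2) : ℕ) * Real.log p₃) *
        psi (hW B X) (((q + 4) * a * (p₁ + 2) * (p₂ + 2) * (p₃ + 2) : ℕ) + s - k)

/-- the statement for one piece -/
def MR (c B A X : ℕ) (D : Fm) : Prop :=
  ∀ z ∈ D.F, ∀ d c₁ c₂ c₃ : ℕ, 0 < d → d ≤ QB B X → c₁.Coprime d → c₂.Coprime d → c₃.Coprime d →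
    ∀ I ⊆ D.QQ, ∀ s : ℤ, 0 ≤ s → s ≤ 8 * Y1 X * D.Y2 →
      ∑ k ∈ Ioc (X : ℤ) (2 * X),
        |RS c B X D z.1 d c₁ c₂ c₃ I s k - #I / #D.QQ / (d.totient : ℝ) ^ 3| ≤
          X * (#I / #D.QQ / LL X ^ A + 1 / EE X (13 / 100))

end Pool.Agent.H84D
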