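import Pool.Agent.H84D.Mdef

set_option autoImplicit false

/-! Definitions and row statements for the Dirichlet polynomial integral. -/

namespace Pool.Agent.H84D

open Finset Filter MeasureTheory

/-- `n ^ (i t)` -/
noncomputable def nit (t : ℝ) (n : ℕ) : ℂ := Complex.exp (Complex.I * t * Real.log n)

/-- the short prime factors -/
noncomputable def DD (P d c : ℕ) (t : ℝ) : ℂ :=
  ∑ p ∈ PC P (2 * P) d c, ((Real.log p / P : ℝ) : ℂ) * nit t (p + 2)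

/-- the long prime factor -/
noncomputable def D3 (N N' d c : ℕ) (t : ℝ) : ℂ :=
  ∑ p ∈ PC N N' d c, ((Real.log p / (p + 2) : ℝ) : ℂ) * nit t (p + 2)

/-- the factor of the piece `I` -/
noncomputable def AA (nq : ℕ) (I : Finset ℕ) (t : ℝ) : ℂ :=
  ∑ q ∈ I, ((1 / nq : ℝ) : ℂ) * nit t (q + 4)

/-- Gaussian weight (equal to `Ch.gw`) -/
noncomputable def gwt (T t : ℝ) : ℝ := Real.exp (-(t ^ 2 / T ^ 2))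

/-- high range -/
def SUP1_s : Prop := ∀ A : ℕ, ∀ᶠ X : ℕ in atTop, ∀ d c : ℕ, 0 < d → ∀ t : ℝ,
  (P1 X : ℝ) ^ 3 ≤ |t| → |t| ≤ X → ‖DD (P1 X) d c t‖ ≤ 1 / LL X ^ A

/-- middle range -/
def SUP2_s : Prop := ∀ A : ℕ, ∀ᶠ X : ℕ in atTop, ∀ d c : ℕ, 0 < d → ∀ t : ℝ,
  (P2 X : ℝ) ^ 3 ≤ |t| → |t| ≤ (P1 X : ℝ) ^ 3 → ‖DD (P2 X) d c t‖ ≤ 1 / LL X ^ A

/-- low range -/
def SUP3_s : Prop := ∀ A B C : ℕ, ∃ A₁ : ℕ, ∀ᶠ X : ℕ in atTop, ∀ d c N N' : ℕ, 0 < d →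
  (d : ℝ) ≤ LL X ^ B → c.Coprime d → X ≤ N ^ 2 → N' ≤ C * N → N' ≤ X → ∀ t : ℝ,
  LL X ^ A₁ ≤ |t| → |t| ≤ (P2 X : ℝ) ^ 3 → ‖D3 N N' d c t‖ ≤ 1 / LL X ^ A

/-- mean value of the product of the three prime factors -/
def OFF_s : Prop := ∀ C : ℕ, ∃ E : ℕ, ∀ᶠ X : ℕ in atTop, ∀ (d c₁ c₂ c₃ N N' : ℕ) (T : ℝ),
  X ≤ N ^ 2 → N' ≤ C * N → N' ≤ X → 2 ≤ T →
  ∫ t : ℝ, ‖DD (P1 X) d c₁ t * DD (P2 X) d c₂ t * D3 N N' d c₃ t‖ ^ 2 * gwt T t ≤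
    LL X ^ E * (T / ((P1 X : ℝ) * P2 X * N) + 1)

/-- mean value of the first prime factor in the low range -/
def LOWM_s : Prop := ∀ᶠ X : ℕ in atTop, ∀ d c : ℕ,
  ∫ t in Set.Icc (-(P2 X : ℝ) ^ 3) ((P2 X : ℝ) ^ 3), ‖DD (P1 X) d c t‖ ^ 2 ≤ LL X ^ 3

/-- the long prime factor on the set of large values of `AA` -/
def HM3_s : Prop := ∀ C s : ℕ, ∃ E : ℕ, ∀ᶠ X : ℕ in atTop, ∀ (d c N N' nq : ℕ) (I : Finset ℕ),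
  X ≤ N ^ 2 → N' ≤ C * N → N' ≤ X →
  (∀ q ∈ I, q + 4 ≤ Y1 X ∧ ArithmeticFunction.cardFactors (q + 4) ≤ s) →
  (Y1 X : ℝ) ≤ LL X * nq →
  ∫ t in {t : ℝ | |t| ≤ X ∧ 1 / EE X (13 / 100) ^ 3 ≤ ‖AA nq I t‖}, ‖D3 N N' d c t‖ ^ 2 ≤ LL X ^ E

/-- the integral of section 4 -/
def MRI_s : Prop := ∀ A B C s : ℕ, ∃ A₁ : ℕ, ∀ᶠ X : ℕ in atTop,
  ∀ (d c₁ c₂ c₃ N N' nq : ℕ) (I : Finset ℕ) (T T₁ : ℝ), 0 < d → (d : ℝ) ≤ LL X ^ B →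
  c₃.Coprime d → X ≤ N ^ 2 → N' ≤ C * N → N' ≤ X →
  (∀ q ∈ I, q + 4 ≤ Y1 X ∧ ArithmeticFunction.cardFactors (q + 4) ≤ s) →
  (Y1 X : ℝ) ≤ LL X * nq → 2 ≤ T → T ≤ X / LL X →
  T ≤ (P1 X : ℝ) * P2 X * N * EE X (13 / 100) → LL X ^ A₁ ≤ T₁ →
  ∫ t in {t : ℝ | T₁ ≤ |t|},
      ‖AA nq I t * DD (P1 X) d c₁ t * DD (P2 X) d c₂ t * D3 N N' d c₃ t‖ ^ 2 * gwt T t ≤
    ((#I : ℝ) / nq) ^ 2 / LL X ^ A + 1 / EE X (13 / 100) ^ 4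

end Pool.Agent.H84D
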