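import Pool.Agent.MP_a96b63_al.V.SW
import Pool.Agent.MP_f0209c_nt.Cplx

/-! Landau's lemma on the logarithmic derivative. -/

namespace Pool.Agent.MP_a96b63_al.H84D
open Complex Set Metric Filter Topology ComplexConjugate Pool.Agent.MP_f0209c_nt

lemma ps_cauchy {l : ℂ → ℂ} {c : ℂ} {R r δ M : ℝ} (hl : DifferentiableOn ℂ l (ball c R)) (d0 : 0 < δ)
    (hR : r + δ < R) (hM : ∀ z, ‖z - c‖ ≤ r + δ → ‖l z‖ ≤ M) {z : ℂ} (hz : ‖z - c‖ ≤ r) :
    ‖deriv l z‖ ≤ M / δ := by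
  have a : ∀ w ∈ closedBall z δ, ‖w - c‖ ≤ r + δ := fun w hw => by
    linarith [mem_closedBall_iff_norm.1 hw, norm_sub_le_norm_sub_add_norm_sub w z c]
  exact norm_deriv_le_of_forall_mem_sphere_norm_le d0 ((hl.mono
    (closure_ball_subset_closedBall.trans fun w hw => mem_ball_iff_norm.2
      ((a w hw).trans_lt hR))).diffContOnCl) fun w hw => hM w (a w (sphere_subset_closedBall hw))

lemma ps_fac {f g : ℂ → ℂ} {c : ℂ} {ρ : ℕ → ℂ} {J : Finset ℕ}
    (hg : DifferentiableOn ℂ g (ball c (39 / 10))) (hJ : ∀ j ∈ J, ρ j ∈ ball c (38 / 10))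
    (e : ∀ s ∈ ball c (39 / 10), f s = (∏ j ∈ J, (s - ρ j)) * g s)
    {A : ℝ} (hA : 1 ≤ A)
    (hM : ∀ z ∈ ball c (39 / 10), ‖f z‖ ≤ Real.exp A) (hm : Real.exp (-A) ≤ ‖f c‖) :
    (J.card : ℝ) ≤ 160 * A ∧ ((∀ z ∈ ball c (38 / 10), g z ≠ 0) →
      ∃ l : ℂ → ℂ, DifferentiableOn ℂ l (ball c (38 / 10)) ∧
      (∀ s ∈ ball c (38 / 10), g s = g c * exp (l s)) ∧ ∀ s, ‖s - c‖ ≤ 37 / 10 →
        ‖deriv l s‖ ≤ 10 ^ 9 * A) := by
  have hsub : ball c (38 / 10) ⊆ ball c (39 / 10) := ball_subset_ball (by norm_num)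
  set N : ℕ := J.card with hN
  have hN0 : (0 : ℝ) ≤ N := by positivity
  have mx : ∀ {F : ℂ → ℂ} {M : ℝ}, DifferentiableOn ℂ F (ball c (39 / 10)) →
      (∀ w, ‖w - c‖ = 385 / 100 → ‖F w‖ ≤ M) → ∀ z ∈ ball c (38 / 10), ‖F z‖ ≤ M :=
    fun hF h z hz => norm_le_of_forall_mem_frontier_norm_le (U := ball c (385 / 100)) isBounded_ball
      (hF.mono (closure_ball_subset_closedBall.trans
        (closedBall_subset_ball (by norm_num)))).diffContOnCl (fun w hw => h w (by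
          rwa [frontier_ball c (by norm_num), mem_sphere_iff_norm] at hw))
      (subset_closure (ball_subset_ball (by norm_num) hz))
  have inb : ∀ w, ‖w - c‖ = 385 / 100 → w ∈ ball c (39 / 10) := fun w hw => by
    rw [mem_ball_iff_norm, hw]; norm_num
  have c0 : c ∈ ball c (38 / 10) := mem_ball_self (by norm_num)
  have lo₀ : Real.exp (-A) ≤ (38 / 10) ^ N * ‖g c‖ := by
    rw [e c (hsub c0), norm_mul] at hm
    refine hm.trans (mul_le_mul_of_nonneg_right ?_ (norm_nonneg _))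
    rw [norm_prod, hN, ← Finset.prod_const]
    refine Finset.prod_le_prod (fun _ _ => norm_nonneg _) fun j hj => ?_
    rw [norm_sub_rev]; exact (mem_ball_iff_norm.1 (hJ j hj)).le
  have cnt : (N : ℝ) ≤ 160 * A := by
    have a := mx (F := fun s => (∏ j ∈ J, ((385 / 100) ^ 2 - conj (ρ j - c) * (s - c)) /
      (385 / 100)) * g s) (M := Real.exp A) (DifferentiableOn.mul (by fun_prop) hg)
      (fun w hw => le_trans (le_of_eq (by
        rw [e w (inb w hw), norm_mul, norm_mul, norm_prod, norm_prod]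
        congr 1
        refine Finset.prod_congr rfl fun j _ => ?_
        have b : ((385 / 100 : ℂ)) ^ 2 = (w - c) * conj (w - c) := by
          rw [mul_conj', hw]; push_cast; ring
        rw [b, show (w - c) * conj (w - c) - conj (ρ j - c) * (w - c) =
          (w - c) * conj (w - ρ j) by simp only [map_sub]; ring, norm_div, norm_mul, norm_conj, hw]
        norm_num)) (hM w (inb w hw))) c c0
    simp only [sub_self, mul_zero, sub_zero, Finset.prod_const, norm_mul, norm_pow] at a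
    rw [← hN, show ‖((385 / 100 : ℂ)) ^ 2 / (385 / 100)‖ = 385 / 100 by norm_num] at a
    have b : Real.exp (1 / 80) * (38 / 10) ≤ 385 / 100 := by
      have := Real.add_one_le_exp (-(1 / 80))
      rw [Real.exp_neg, le_inv_comm₀ (by norm_num) (Real.exp_pos _)] at this
      norm_num at this ⊢; linarith
    have d := (mul_le_mul_of_nonneg_right (pow_le_pow_left₀ (by positivity) b N)
      (norm_nonneg (g c))).trans a
    rw [mul_pow, mul_assoc, ← Real.exp_nat_mul] at d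
    have := (mul_le_mul_of_nonneg_left lo₀ (Real.exp_pos _).le).trans d
    rw [← Real.exp_add, Real.exp_le_exp] at this
    linarith
  refine ⟨cnt, fun g0 => ?_⟩
  have e3 : (5 : ℝ) ≤ Real.exp 2 := by
    have := Real.quadratic_le_exp_of_nonneg (x := 2) (by norm_num)
    linarith
  have e2 : Real.exp (-4) ≤ 5 / 100 := by
    rw [Real.exp_neg, inv_le_comm₀ (Real.exp_pos _) (by norm_num),
      show (4 : ℝ) = 2 + 2 by norm_num, Real.exp_add]
    nlinarith
  have up : ∀ z ∈ ball c (38 / 10), ‖g z‖ ≤ Real.exp (A + 4 * N) := mx hg fun w hw => by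
    have h1 : Real.exp (-4) ^ N ≤ ‖∏ j ∈ J, (w - ρ j)‖ := by
      rw [norm_prod, hN, ← Finset.prod_const]
      refine Finset.prod_le_prod (fun _ _ => (Real.exp_pos _).le) fun j hj => e2.trans ?_
      have a1 := mem_ball_iff_norm.1 (hJ j hj)
      have a2 := norm_sub_le_norm_sub_add_norm_sub w (ρ j) c
      linarith
    have h2 := hM w (inb w hw)
    rw [e w (inb w hw), norm_mul] at h2
    have h3 : Real.exp (-4) ^ N * ‖g w‖ ≤ Real.exp A :=
      (mul_le_mul_of_nonneg_right h1 (norm_nonneg _)).trans h2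
    rw [← Real.exp_nat_mul, ← le_div_iff₀' (Real.exp_pos _), ← Real.exp_sub] at h3
    exact h3.trans (le_of_eq (by ring_nf))
  have lo : Real.exp (-(A + 2 * N)) ≤ ‖g c‖ := by
    have h3 : Real.exp (-A) ≤ Real.exp 2 ^ N * ‖g c‖ := lo₀.trans (mul_le_mul_of_nonneg_right
      (pow_le_pow_left₀ (by norm_num) (by linarith) N) (norm_nonneg _))
    rw [← Real.exp_nat_mul, ← div_le_iff₀' (Real.exp_pos _), ← Real.exp_sub] at h3
    exact le_trans (le_of_eq (by ring_nf)) h3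
  obtain ⟨l, hl, l0, el⟩ := exists_log (by norm_num) (hg.mono hsub) g0
  have hre : ∀ z ∈ ball c (38 / 10), (l z).re ≤ 1000 * A := fun z hz => by
    have h1 := up z hz
    rw [el z hz, norm_mul, norm_exp] at h1
    have h2 : Real.exp (-(A + 2 * N)) * Real.exp (l z).re ≤ Real.exp (A + 4 * N) :=
      (mul_le_mul_of_nonneg_right lo (Real.exp_pos _).le).trans h1
    rw [← Real.exp_add, Real.exp_le_exp] at h2
    linarith
  have hmap : ∀ z ∈ ball (0 : ℂ) (38 / 10), c + z ∈ ball c (38 / 10) := fun z hz => by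
    simpa using hz
  have b0 : ∀ s, ‖s - c‖ ≤ 373 / 100 + 3 / 100 → ‖l s‖ ≤ 188000 * A := fun s hs => by
    have hbc := borelCaratheodory_zero (f := fun z => l (c + z)) (M := 1000 * A)
      (R := 38 / 10) (z := s - c) (by positivity) (hl.comp (by fun_prop) hmap)
      (fun z hz => hre _ (hmap z hz)) (by norm_num) (by rw [mem_ball_zero_iff]; linarith)
      (by simpa using l0)
    simp only [add_sub_cancel] at hbc
    refine hbc.trans ?_
    rw [div_le_iff₀ (by linarith)]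
    nlinarith
  have b1 : ∀ s, ‖s - c‖ ≤ 37 / 10 + 3 / 100 → ‖deriv l s‖ ≤ 188000 * A / (3 / 100) := fun s hs =>
    ps_cauchy hl (by norm_num) (by norm_num) b0 (by linarith)
  exact ⟨l, hl, el, fun s hs => (b1 s (by linarith)).trans (by linarith)⟩

lemma ps_ex {f : ℂ → ℂ} {c : ℂ} (hf : DifferentiableOn ℂ f (ball c (39 / 10))) {A : ℝ} (hA : 1 ≤ A)
    (hM : ∀ z ∈ ball c (39 / 10), ‖f z‖ ≤ Real.exp A) (hm : Real.exp (-A) ≤ ‖f c‖) :
    ∃ (n : ℕ) (ρ : ℕ → ℂ) (g : ℂ → ℂ), DifferentiableOn ℂ g (ball c (39 / 10)) ∧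
      (∀ j ∈ Finset.range n, ρ j ∈ ball c (38 / 10)) ∧
      (∀ s ∈ ball c (39 / 10), f s = (∏ j ∈ Finset.range n, (s - ρ j)) * g s) ∧
      ∀ z ∈ ball c (38 / 10), g z ≠ 0 := by
  by_contra h
  have key : ∀ n : ℕ, ∃ (ρ : ℕ → ℂ) (g : ℂ → ℂ), DifferentiableOn ℂ g (ball c (39 / 10)) ∧
      (∀ j ∈ Finset.range n, ρ j ∈ ball c (38 / 10)) ∧
      ∀ s ∈ ball c (39 / 10), f s = (∏ j ∈ Finset.range n, (s - ρ j)) * g s := by
    intro n
    induction n with
    | zero => exact ⟨fun _ => 0, f, hf, by simp, by simp⟩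
    | succ n ih =>
      obtain ⟨ρ, g, hg, h1, h2⟩ := ih
      obtain ⟨z, hz, z0⟩ : ∃ z ∈ ball c (38 / 10), g z = 0 := by
        by_contra q
        exact h ⟨n, ρ, g, hg, h1, h2, fun z hz z0 => q ⟨z, hz, z0⟩⟩
      have hz' : z ∈ ball c (39 / 10) := ball_subset_ball (by norm_num) hz
      refine ⟨fun j => if j = n then z else ρ j, dslope g z,
        (differentiableOn_dslope (isOpen_ball.mem_nhds hz')).2 hg, fun j hj => ?_, fun s hs => ?_⟩
      · dsimp only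
        split_ifs with q
        · exact hz
        · exact h1 j (Finset.mem_range.2 (by have := Finset.mem_range.1 hj; omega))
      · have := sub_smul_dslope g z s
        rw [z0, sub_zero, smul_eq_mul] at this
        have e : ∏ j ∈ Finset.range n, (s - if j = n then z else ρ j) =
            ∏ j ∈ Finset.range n, (s - ρ j) :=
          Finset.prod_congr rfl fun j hj => by rw [if_neg (Finset.mem_range.1 hj).ne]
        dsimp only
        rw [h2 s hs, Finset.prod_range_succ, if_pos rfl, ← this, e]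
        ring
  obtain ⟨n, hn⟩ := exists_nat_gt (160 * A)
  obtain ⟨ρ, g, hg, h1, h2⟩ := key n
  have := (ps_fac hg h1 h2 hA hM hm).1
  rw [Finset.card_range] at this
  linarith

lemma ps_lan0 {f : ℂ → ℂ} {c : ℂ} (hf : DifferentiableOn ℂ f (ball c (39 / 10))) {A : ℝ}
    (hA : 1 ≤ A) (hM : ∀ z ∈ ball c (39 / 10), ‖f z‖ ≤ Real.exp A) (hm : Real.exp (-A) ≤ ‖f c‖) :
    ∃ (n : ℕ) (ρ : ℕ → ℂ), (n : ℝ) ≤ 160 * A ∧
      (∀ j ∈ Finset.range n, f (ρ j) = 0 ∧ ‖ρ j - c‖ < 39 / 10) ∧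
      (∀ z, ‖z - c‖ ≤ 37 / 10 → f z = 0 → ∃ j ∈ Finset.range n, ρ j = z) ∧
      ∀ s, ‖s - c‖ ≤ 37 / 10 → f s ≠ 0 →
        ‖deriv f s / f s - ∑ j ∈ Finset.range n, (s - ρ j)⁻¹‖ ≤ 10 ^ 9 * A := by
  obtain ⟨n, ρ, g, hg, h1, h2, g0⟩ := ps_ex hf hA hM hm
  obtain ⟨cnt, H⟩ := ps_fac hg h1 h2 hA hM hm
  obtain ⟨l, hl, el, bd⟩ := H g0
  rw [Finset.card_range] at cnt
  have hsub : ball c (38 / 10) ⊆ ball c (39 / 10) := ball_subset_ball (by norm_num)
  have inb : ∀ s, ‖s - c‖ ≤ 37 / 10 → s ∈ ball c (38 / 10) := fun s hs =>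
    mem_ball_iff_norm.2 (by linarith)
  refine ⟨n, ρ, cnt, fun j hj => ⟨?_, mem_ball_iff_norm.1 (hsub (h1 j hj))⟩, fun z hz z0 => ?_,
    fun s hs s0 => ?_⟩
  · rw [h2 _ (hsub (h1 j hj)), Finset.prod_eq_zero hj (sub_self _), zero_mul]
  · rw [h2 z (hsub (inb z hz)), mul_eq_zero] at z0
    obtain ⟨j, hj, e⟩ := Finset.prod_eq_zero_iff.1 (z0.resolve_right (g0 z (inb z hz)))
    exact ⟨j, hj, (sub_eq_zero.1 e).symm⟩
  · have m : ball c (38 / 10) ∈ 𝓝 s := isOpen_ball.mem_nhds (inb s hs)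
    have ne : ∀ j ∈ Finset.range n, s - ρ j ≠ 0 := fun j hj q => s0 (by
      rw [h2 s (hsub (inb s hs)), Finset.prod_eq_zero hj q, zero_mul])
    have d := hl.differentiableAt m
    have A0 : g c ≠ 0 := g0 c (mem_ball_self (by norm_num))
    have e : ∀ z ∈ ball c (38 / 10), f z = g c * (∏ j ∈ Finset.range n, (z - ρ j)) * exp (l z) :=
      fun z hz => by rw [h2 z (hsub hz), el z hz]; ring
    have : logDeriv f s = ∑ j ∈ Finset.range n, (s - ρ j)⁻¹ + deriv l s := by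
      rw [(logDeriv_congr_nhds (eventually_of_mem m e)).eq_of_nhds,
        logDeriv_mul (f := fun s => g c * ∏ j ∈ Finset.range n, (s - ρ j))
          (g := fun s => exp (l s)) s
          (mul_ne_zero A0 (Finset.prod_ne_zero_iff.2 ne)) (exp_ne_zero _) (by fun_prop) d.cexp,
        logDeriv_const_mul s (g c) A0,
        logDeriv_prod (f := fun j s => s - ρ j) ne fun _ _ => by fun_prop]
      congr 1
      · exact Finset.sum_congr rfl fun j _ => by simp [logDeriv_apply]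
      · rw [logDeriv_apply, d.hasDerivAt.cexp.deriv]; field_simp
    rw [logDeriv_apply] at this
    rw [this, add_sub_cancel_left]
    exact bd s hs

/-- Landau's lemma on a disc of radius `3 / 2` -/
lemma ps_landau {f : ℂ → ℂ} {c : ℂ} (hf : DifferentiableOn ℂ f (ball c (3 / 2))) {A : ℝ}
    (hA : 1 ≤ A) (hM : ∀ z ∈ ball c (3 / 2), ‖f z‖ ≤ Real.exp A) (hm : Real.exp (-A) ≤ ‖f c‖) :
    ∃ (n : ℕ) (ρ : ℕ → ℂ), (n : ℝ) ≤ 160 * A ∧
      (∀ j ∈ Finset.range n, f (ρ j) = 0 ∧ ‖ρ j - c‖ < 3 / 2) ∧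
      (∀ z, ‖z - c‖ ≤ 7 / 5 → f z = 0 → ∃ j ∈ Finset.range n, ρ j = z) ∧
      ∀ s, ‖s - c‖ ≤ 7 / 5 → f s ≠ 0 →
        ‖deriv f s / f s - ∑ j ∈ Finset.range n, (s - ρ j)⁻¹‖ ≤ 10 ^ 10 * A := by
  have nr : ∀ z : ℂ, ‖c + 5 / 13 * z - c‖ = 5 / 13 * ‖z‖ := fun z => by
    rw [add_sub_cancel_left, norm_mul]; norm_num
  have mp : ∀ z ∈ ball (0 : ℂ) (39 / 10), c + 5 / 13 * z ∈ ball c (3 / 2) := fun z hz => by
    rw [mem_ball_iff_norm, nr]
    linarith [mem_ball_zero_iff.1 hz]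
  obtain ⟨n, ρ, cnt, h1, h2, h3⟩ := ps_lan0 (f := fun z => f (c + 5 / 13 * z)) (c := 0)
    (hf.comp (by fun_prop) mp) hA (fun z hz => hM _ (mp z hz)) (by simpa using hm)
  have bk : ∀ s : ℂ, c + 5 / 13 * (13 / 5 * (s - c)) = s := fun s => by ring
  have nb : ∀ s : ℂ, ‖s - c‖ ≤ 7 / 5 → ‖13 / 5 * (s - c) - 0‖ ≤ 37 / 10 := fun s hs => by
    rw [sub_zero, norm_mul, show ‖(13 / 5 : ℂ)‖ = 13 / 5 by norm_num]
    linarith
  refine ⟨n, fun j => c + 5 / 13 * ρ j, cnt, fun j hj => ⟨(h1 j hj).1, ?_⟩, fun z hz z0 => ?_,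
    fun s hs s0 => ?_⟩
  · have := (h1 j hj).2
    rw [sub_zero] at this
    rw [nr]; linarith
  · obtain ⟨j, hj, e⟩ := h2 _ (nb z hz) (by simp only [bk]; exact z0)
    exact ⟨j, hj, by simp only [e, bk]⟩
  · have a := h3 _ (nb s hs) (by simp only [bk]; exact s0)
    have d : HasDerivAt (fun z => f (c + 5 / 13 * z)) (deriv f s * (5 / 13)) (13 / 5 * (s - c)) := by
      have d1 : HasDerivAt f (deriv f s) (c + 5 / 13 * (13 / 5 * (s - c))) := by
        rw [bk]
        exact (hf.differentiableAt (isOpen_ball.mem_nhds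
          (mem_ball_iff_norm.2 (by linarith)))).hasDerivAt
      have d2 : HasDerivAt (fun z : ℂ => c + 5 / 13 * z) (5 / 13) (13 / 5 * (s - c)) := by
        simpa using ((hasDerivAt_id (13 / 5 * (s - c))).const_mul (5 / 13 : ℂ)).const_add c
      exact HasDerivAt.comp (h := fun z : ℂ => c + 5 / 13 * z) _ d1 d2
    rw [d.deriv] at a
    simp only [bk] at a
    have e : deriv f s / f s - ∑ j ∈ Finset.range n, (s - (c + 5 / 13 * ρ j))⁻¹ = 13 / 5 *
        (deriv f s * (5 / 13) / f s - ∑ j ∈ Finset.range n, (13 / 5 * (s - c) - ρ j)⁻¹) := by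
      rw [mul_sub, Finset.mul_sum]
      congr 1
      · ring
      · refine Finset.sum_congr rfl fun j _ => ?_
        rw [show s - (c + 5 / 13 * ρ j) = (13 / 5)⁻¹ * (13 / 5 * (s - c) - ρ j) by ring, mul_inv,
          inv_inv]
    rw [e, norm_mul, show ‖(13 / 5 : ℂ)‖ = 13 / 5 by norm_num]
    linarith

end Pool.Agent.MP_a96b63_al.H84D
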