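import Pool.Agent.H84D.PsA

/-! The classical zero-free region of Dirichlet L-functions away from the real axis. -/

namespace Pool.Agent.MP_a96b63_al.H84D
open Complex Set Metric Filter Topology ComplexConjugate Pool.Agent.MP_f0209c_nt
open DirichletCharacter MP_48b1c3_nt.H54 H5

lemma ps_up : ∃ K : ℝ, 1 ≤ K ∧ ∀ (q : ℕ) [NeZero q] (χ : DirichletCharacter ℂ q) (s : ℂ),
    1 / 2 ≤ s.re → 1 ≤ |s.im| → ‖LFunction χ s‖ ≤ K * q * ‖s‖ := by
  obtain ⟨C, C0, hC⟩ := norm_LFunction_le one_pos le_rfl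
  obtain ⟨D, D1, hD⟩ := zeta_upper
  refine ⟨C + D, by linarith, fun q _ χ s h1 h2 => ?_⟩
  have q0 : (0 : ℝ) ≤ q * ‖s‖ := by positivity
  by_cases hχ : χ = 1
  · have s1 : s ≠ 1 := fun e => by simp [e] at h2; linarith
    have z : ‖riemannZeta s‖ ≤ D * ‖s‖ := by
      rcases le_total 0 s.im with d | d
      · exact hD s (by linarith) (by rwa [abs_of_nonneg d] at h2)
      · have := hD (conj s) (by simp; linarith) (by rw [abs_of_nonpos d] at h2; simpa using h2)
        rwa [riemannZeta_conj, norm_conj, norm_conj] at this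
    have p : ‖∏ p ∈ q.primeFactors, (1 - (p : ℂ) ^ (-s))‖ ≤ q := by
      have a : ((∏ p ∈ q.primeFactors, p : ℕ) : ℝ) ≤ q := by
        exact_mod_cast Nat.le_of_dvd (NeZero.pos q) (Nat.prod_primeFactors_dvd q)
      refine le_trans ?_ a
      rw [norm_prod, Nat.cast_prod]
      refine Finset.prod_le_prod (fun _ _ => norm_nonneg _) fun p hp => ?_
      have hp2 := (Nat.prime_of_mem_primeFactors hp).two_le
      have hp2' : (2 : ℝ) ≤ p := by exact_mod_cast hp2
      have b : ‖(p : ℂ) ^ (-s)‖ ≤ 1 := by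
        rw [norm_natCast_cpow_of_pos (by omega)]
        exact Real.rpow_le_one_of_one_le_of_nonpos (by linarith) (by simp; linarith)
      have := norm_sub_le (1 : ℂ) ((p : ℂ) ^ (-s))
      rw [norm_one] at this
      linarith
    rw [hχ, show LFunction (1 : DirichletCharacter ℂ q) s = LFunctionTrivChar q s from rfl,
      LFunctionTrivChar_eq_mul_riemannZeta s1, norm_mul]
    have := mul_le_mul p z (norm_nonneg _) (by positivity)
    nlinarith
  · have := hC q χ hχ s (by linarith)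
    rw [Real.rpow_one] at this
    nlinarith

lemma ps_one_le {q : ℕ} [NeZero q] {u Λ : ℝ} (hu : 3 ≤ |u|) (h : q * |u| ≤ Real.exp Λ) : 1 ≤ Λ := by
  have q1 : (1 : ℝ) ≤ q := by exact_mod_cast NeZero.pos q
  rw [← Real.exp_le_exp]
  nlinarith [Real.exp_one_lt_d9]

lemma ps_loc : ∃ K : ℝ, 1 ≤ K ∧ ∀ (q : ℕ) [NeZero q] (χ : DirichletCharacter ℂ q) (u Λ : ℝ),
    3 ≤ |u| → q * |u| ≤ Real.exp Λ → ∃ (n : ℕ) (ρ : ℕ → ℂ), (n : ℝ) ≤ K * Λ ∧
      (∀ j ∈ Finset.range n, LFunction χ (ρ j) = 0 ∧ |(ρ j).im - u| < 3 / 2) ∧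
      (∀ z : ℂ, z.im = u → 3 / 5 ≤ z.re → z.re ≤ 2 → LFunction χ z = 0 →
        ∃ j ∈ Finset.range n, ρ j = z) ∧
      ∀ s : ℂ, s.im = u → 3 / 5 ≤ s.re → s.re ≤ 2 → LFunction χ s ≠ 0 →
        ‖deriv (LFunction χ) s / LFunction χ s - ∑ j ∈ Finset.range n, (s - ρ j)⁻¹‖ ≤ K * Λ := by
  obtain ⟨K, K1, hK⟩ := ps_up
  have l0 : 0 ≤ Real.log (3 * K) := Real.log_nonneg (by linarith)
  refine ⟨10 ^ 10 * (Real.log (3 * K) + 1), by linarith, fun q _ χ u Λ hu hq => ?_⟩
  have L1 := ps_one_le hu hq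
  set c : ℂ := 2 + u * I with hc
  have box : ∀ z : ℂ, ‖z - c‖ < 3 / 2 → |z.re - 2| < 3 / 2 ∧ |z.im - u| < 3 / 2 := fun z hz =>
    ⟨lt_of_le_of_lt (by simpa [hc] using abs_re_le_norm (z - c)) hz,
      lt_of_le_of_lt (by simpa [hc] using abs_im_le_norm (z - c)) hz⟩
  have im1 : ∀ z : ℂ, ‖z - c‖ < 3 / 2 → 1 ≤ |z.im| := fun z hz => by
    have := abs_sub_abs_le_abs_sub u z.im
    rw [abs_sub_comm] at this
    linarith [(box z hz).2]
  have near : ∀ z : ℂ, z.im = u → 3 / 5 ≤ z.re → z.re ≤ 2 → ‖z - c‖ ≤ 7 / 5 := fun z a b d => by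
    rw [show z - c = ((z.re - 2 : ℝ) : ℂ) from Complex.ext (by simp [hc]) (by simp [hc, a]),
      norm_real, Real.norm_eq_abs, abs_le]
    constructor <;> linarith
  obtain ⟨n, ρ, cnt, h1, h2, h3⟩ := ps_landau (f := LFunction χ) (c := c)
    (fun z hz => (differentiableAt_LFunction χ z (.inl fun e => by
      have := im1 z (mem_ball_iff_norm.1 hz)
      simp [e] at this
      linarith)).differentiableWithinAt)
    (A := Real.log (3 * K) + Λ) (by linarith) (fun z hz => by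
      have a := mem_ball_iff_norm.1 hz
      have b := abs_lt.1 (box z a).1
      have d := norm_le_abs_re_add_abs_im z
      have e := abs_sub_abs_le_abs_sub z.im u
      rw [abs_of_nonneg (by linarith : 0 ≤ z.re)] at d
      refine (hK q χ z (by linarith) (im1 z a)).trans ?_
      rw [Real.exp_add, Real.exp_log (by linarith)]
      calc K * q * ‖z‖ ≤ K * q * (3 * |u|) := by
            gcongr
            linarith [(box z a).2]
        _ = 3 * K * (q * |u|) := by ring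
        _ ≤ _ := by gcongr)
    (by
      have a := le_norm_LFunction χ (s := c) (by simp [hc]) (by simp [hc])
      have b : Real.exp (-(Real.log (3 * K) + Λ)) ≤ Real.exp (-1) := Real.exp_le_exp.2 (by linarith)
      have d := Real.exp_neg_one_lt_d9
      have e : c.re = 2 := by simp [hc]
      rw [e] at a
      linarith)
  have m : Real.log (3 * K) + Λ ≤ (Real.log (3 * K) + 1) * Λ := by nlinarith
  refine ⟨n, ρ, by nlinarith, fun j hj => ⟨(h1 j hj).1, (box _ (h1 j hj).2).2⟩,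
    fun z a b d => h2 z (near z a b d), fun s a b d e => (h3 s (near s a b d) e).trans ?_⟩
  nlinarith

/-- the terms of the series of the von Mangoldt function at a real point -/
noncomputable def ps_r (σ : ℝ) (n : ℕ) : ℝ := ‖LSeries.term (fun n => (vm n : ℂ)) σ n‖

lemma ps_r_eq (σ : ℝ) (n : ℕ) : LSeries.term (fun n => (vm n : ℂ)) σ n = ps_r σ n := by
  rcases eq_or_ne n 0 with rfl | hn
  · simp [ps_r]
  · rw [ps_r, LSeries.norm_term_eq, if_neg hn, LSeries.term_of_ne_zero hn, norm_real,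
      Real.norm_of_nonneg ArithmeticFunction.vonMangoldt_nonneg, ofReal_re, ofReal_div,
      ofReal_cpow (Nat.cast_nonneg n), ofReal_natCast]

lemma ps_vm : ∃ K : ℝ, 0 ≤ K ∧ ∀ σ : ℝ, 1 < σ → σ ≤ 2 →
    Summable (ps_r σ) ∧ ∑' n, ps_r σ n ≤ 1 / (σ - 1) + K := by
  obtain ⟨C, C0, hC⟩ := zeta_bound 0
  obtain ⟨D, D0, hD⟩ := zH_le one_pos le_rfl
  refine ⟨2 * C + 2 * D, by positivity, fun σ h1 h2 => ?_⟩
  have r1 : 1 < (σ : ℂ).re := by simpa using h1
  have hs := ArithmeticFunction.LSeriesSummable_vonMangoldt r1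
  refine ⟨hs.norm, ?_⟩
  have e : ((∑' n, ps_r σ n : ℝ) : ℂ) = LSeries (fun n => (vm n : ℂ)) σ := by
    rw [ofReal_tsum, LSeries]
    exact tsum_congr fun n => (ps_r_eq σ n).symm
  have e2 : LSeries (fun n => (vm n : ℂ)) σ =
      LSeries (fun n => (Real.log n : ℂ) ^ 0 * ((vm n : ℂ) - 1)) σ + riemannZeta σ := by
    rw [← LSeries_one_eq_riemannZeta r1, ← LSeries_add (zeta_summable 0 σ r1)
      (LSeriesSummable_one_iff.2 r1)]
    congr 1
    funext n
    simp
  have a := hC σ r1 (by simpa using h2)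
  have b := hD σ (by simp; linarith) (by simp; linarith)
  have s1 : (σ : ℂ) ≠ 1 := fun e => by simp [e] at r1
  have d : ‖(1 / ((σ : ℂ) - 1))‖ = 1 / (σ - 1) := by
    rw [norm_div, norm_one, ← ofReal_one, ← ofReal_sub, norm_real, Real.norm_of_nonneg (by linarith)]
  have sq : √2 ≤ 2 := Real.sqrt_le_iff.2 ⟨by norm_num, by norm_num⟩
  simp only [ofReal_im, abs_zero, zero_add, Real.rpow_one] at a b
  have f := norm_add_le_of_le a (norm_add_le_of_le d.le b)
  rw [← zeta_eq_zH s1, ← e2, ← e, norm_real] at f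
  nlinarith [le_abs_self (∑' n, ps_r σ n), Real.norm_eq_abs (∑' n, ps_r σ n)]

/-- the twisted von Mangoldt series is the logarithmic derivative -/
lemma ps_ld {q : ℕ} [NeZero q] (χ : DirichletCharacter ℂ q) {s : ℂ} (hs : 1 < s.re) :
    HasSum (LSeries.term (fun n => χ n * (vm n : ℂ)) s)
      (-(deriv (LFunction χ) s / LFunction χ s)) := by
  have a := (LSeriesSummable_twist_vonMangoldt χ hs).hasSum
  have b := LSeries_twist_vonMangoldt_eq χ hs
  rw [deriv_LFunction_eq_deriv_LSeries χ hs, LFunction_eq_LSeries χ hs, ← neg_div, ← b]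
  exact a

lemma ps_term {q : ℕ} (χ : DirichletCharacter ℂ q) (σ u : ℝ) (n : ℕ) :
    LSeries.term (fun n => χ n * (vm n : ℂ)) (σ + u * I) n =
      ps_r σ n * (χ n * (n : ℂ) ^ (-(u * I))) := by
  rw [← ps_r_eq]
  rcases eq_or_ne n 0 with rfl | hn
  · simp
  · have n0 : (n : ℂ) ≠ 0 := by exact_mod_cast hn
    rw [LSeries.term_of_ne_zero hn, LSeries.term_of_ne_zero hn, cpow_add _ _ n0, cpow_neg]
    ring

lemma ps_341 {q : ℕ} [NeZero q] (χ : DirichletCharacter ℂ q) {σ : ℝ} (h1 : 1 < σ)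
    (hs : Summable (ps_r σ)) (u : ℝ) :
    4 * (deriv (LFunction χ) (σ + u * I) / LFunction χ (σ + u * I)).re +
      (deriv (LFunction (χ ^ 2)) (σ + (2 * u : ℝ) * I) /
        LFunction (χ ^ 2) (σ + (2 * u : ℝ) * I)).re ≤ 3 * ∑' n, ps_r σ n := by
  have a := hasSum_re (ps_ld χ (s := σ + u * I) (by simpa using h1))
  have b := hasSum_re (ps_ld (χ ^ 2) (s := σ + (2 * u : ℝ) * I) (by simpa using h1))
  have c := ((hs.hasSum.mul_left 3).add (a.mul_left 4)).add b
  have d := c.nonneg fun n => by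
    rcases eq_or_ne n 0 with rfl | hn
    · simp [ps_r]
    have n0 : (n : ℂ) ≠ 0 := by exact_mod_cast hn
    set z : ℂ := χ n * (n : ℂ) ^ (-(u * I)) with hz
    have e : (χ ^ 2) n * (n : ℂ) ^ (-((2 * u : ℝ) * I)) = z ^ 2 := by
      rw [hz, MulChar.pow_apply' χ two_ne_zero, show -(((2 * u : ℝ) : ℂ) * I) =
        -(u * I) + -(u * I) by push_cast; ring, cpow_add _ _ n0]
      ring
    have z1 : ‖z‖ ≤ 1 := by
      rw [hz, norm_mul, norm_natCast_cpow_of_pos (Nat.pos_of_ne_zero hn)]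
      simpa using χ.norm_le_one n
    have z2 : z.re ^ 2 + z.im ^ 2 ≤ 1 := by
      have := pow_le_one₀ (n := 2) (norm_nonneg z) z1
      rw [Complex.sq_norm, normSq_apply] at this
      linarith
    have r0 : 0 ≤ ps_r σ n := norm_nonneg _
    have z3 : (z ^ 2).re = z.re ^ 2 - z.im ^ 2 := by simp [sq]
    rw [ps_term, ps_term, e, ← hz, re_ofReal_mul, re_ofReal_mul, z3]
    nlinarith [mul_nonneg r0 (sq_nonneg (1 + z.re)), mul_nonneg r0 (sub_nonneg.2 z2)]
  rw [neg_re, neg_re] at d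
  linarith

lemma ps_free : ∃ c : ℝ, 0 < c ∧ c ≤ 1 / 4 ∧ ∀ (q : ℕ) [NeZero q] (χ : DirichletCharacter ℂ q)
    (Λ : ℝ) (z : ℂ), 3 ≤ |z.im| → q * |z.im| ≤ Real.exp Λ → LFunction χ z = 0 →
      z.re ≤ 1 - c / Λ := by
  obtain ⟨K, K1, hK⟩ := ps_loc
  obtain ⟨D, D0, hD⟩ := ps_vm
  set E := 6 * K + 3 * D with hE
  have E1 : 1 ≤ E := by linarith
  have c4 : 1 / (14 * E) ≤ 1 / 4 := one_div_le_one_div_of_le (by norm_num) (by linarith)
  refine ⟨1 / (14 * E), by positivity, c4, fun q _ χ Λ z hu hq z0 => ?_⟩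
  have L1 := ps_one_le hu hq
  by_contra hz
  rw [not_le] at hz
  have lt1 : ∀ (ψ : DirichletCharacter ℂ q) (w : ℂ), 1 ≤ |w.im| → LFunction ψ w = 0 → w.re < 1 :=
    fun ψ w a b => not_le.1 fun d => LFunction_ne_zero_of_one_le_re ψ (.inr fun e => by
      simp [e] at a
      linarith) d b
  have M1 : 1 ≤ E * Λ := one_le_mul_of_one_le_of_one_le E1 L1
  set δ := 1 / (2 * (E * Λ)) with hδ
  have δ0 : 0 < δ := by positivity
  have δ1 : δ ≤ 1 := by rw [hδ, div_le_one (by positivity)]; linarith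
  obtain ⟨hs, hv⟩ := hD (1 + δ) (by linarith) (by linarith)
  have low : ∀ (ψ : DirichletCharacter ℂ q) (u M : ℝ), 3 ≤ |u| → q * |u| ≤ Real.exp M →
      ∃ (n : ℕ) (ρ : ℕ → ℂ), (∀ j ∈ Finset.range n, 0 ≤ ((1 + δ : ℝ) + u * I - ρ j)⁻¹.re) ∧
        (∀ w : ℂ, w.im = u → 3 / 5 ≤ w.re → w.re ≤ 2 → LFunction ψ w = 0 →
          ∃ j ∈ Finset.range n, ρ j = w) ∧
        ∑ j ∈ Finset.range n, ((1 + δ : ℝ) + u * I - ρ j)⁻¹.re - K * M ≤
          (deriv (LFunction ψ) ((1 + δ : ℝ) + u * I) / LFunction ψ ((1 + δ : ℝ) + u * I)).re := by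
    intro ψ u M a b
    obtain ⟨n, ρ, -, h1, h2, h3⟩ := hK q ψ u M a b
    refine ⟨n, ρ, fun j hj => ?_, h2, ?_⟩
    · have := lt1 ψ (ρ j) (by
        have := abs_sub_abs_le_abs_sub u (ρ j).im
        rw [abs_sub_comm] at this
        linarith [(h1 j hj).2]) (h1 j hj).1
      rw [inv_re]
      exact div_nonneg (by simp; linarith) (normSq_nonneg _)
    · have := h3 ((1 + δ : ℝ) + u * I) (by simp) (by simp; linarith) (by simp; linarith)
        (LFunction_ne_zero_of_one_le_re ψ (.inr fun e => by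
          have := congrArg re e
          simp at this
          linarith) (by simp; linarith))
      have d := (abs_le.1 ((abs_re_le_norm _).trans this)).1
      rw [sub_re, re_sum] at d
      linarith
  obtain ⟨n, ρ, a1, a2, a3⟩ := low χ z.im Λ hu hq
  obtain ⟨n', ρ', b1, -, b3⟩ := low (χ ^ 2) (2 * z.im) (2 * Λ)
    (by rw [abs_mul, abs_two]; linarith) (by
      rw [abs_mul, abs_two, two_mul Λ, Real.exp_add]
      nlinarith [Real.add_one_le_exp Λ, Real.exp_pos Λ])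
  have z1 := lt1 χ z (by linarith) z0
  have cl : 1 / (14 * E) / Λ ≤ 1 / 4 := (div_le_self (by positivity) L1).trans c4
  obtain ⟨j, hj, ej⟩ := a2 z rfl (by linarith) (by linarith) z0
  have s1 := Finset.single_le_sum a1 hj
  have s2 := Finset.sum_nonneg b1
  have e : ((1 + δ : ℝ) + z.im * I - ρ j : ℂ)⁻¹.re = (1 + δ - z.re)⁻¹ := by
    rw [ej, show ((1 + δ : ℝ) + z.im * I - z : ℂ) = ((1 + δ - z.re : ℝ) : ℂ) from
      Complex.ext (by simp) (by simp), ← ofReal_inv, ofReal_re]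
  have m := ps_341 χ (σ := 1 + δ) (by linarith) hs z.im
  rw [add_sub_cancel_left, hδ, one_div_one_div] at hv
  have t : (4 / (7 * (E * Λ)))⁻¹ < (1 + δ - z.re)⁻¹ := by
    refine inv_strictAnti₀ (by linarith) ?_
    have : 4 / (7 * (E * Λ)) = δ + 1 / (14 * E) / Λ := by rw [hδ]; field_simp; norm_num
    linarith
  rw [inv_div] at t
  simp only [e] at s1
  have : D ≤ D * Λ := le_mul_of_one_le_right D0 L1
  have : E * Λ = 6 * (K * Λ) + 3 * (D * Λ) := by rw [hE]; ring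
  linarith

/-- ZF: zero-free region and bound for the logarithmic derivative -/
theorem ps_zf : ∃ c K : ℝ, 0 < c ∧ c ≤ 1 / 4 ∧ 1 ≤ K ∧
    ∀ (q : ℕ) [NeZero q] (χ : DirichletCharacter ℂ q) (Λ : ℝ) (s : ℂ), 5 ≤ |s.im| →
      q * |s.im| ≤ Real.exp Λ → 1 - c / Λ ≤ s.re → s.re ≤ 2 →
        LFunction χ s ≠ 0 ∧ ‖deriv (LFunction χ) s / LFunction χ s‖ ≤ K * Λ ^ 2 := by
  obtain ⟨K, K1, hK⟩ := ps_loc
  obtain ⟨c, c0, c4, hc⟩ := ps_free
  have k0 : 0 < 4 / c := by positivity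
  refine ⟨c / 4, K * (1 + 4 / c), by positivity, by linarith, by nlinarith,
    fun q _ χ Λ s hu hq h1 h2 => ?_⟩
  have L1 := ps_one_le (u := s.im) (by linarith) hq
  have p0 : 0 < c / Λ := by positivity
  have p1 : c / Λ ≤ 1 / 4 := (div_le_self c0.le L1).trans c4
  have e1 : c / 4 / Λ = c / Λ / 4 := by ring
  have e2 : c / (2 * Λ) = c / Λ / 2 := by field_simp
  have ne : LFunction χ s ≠ 0 := fun z => by linarith [hc q χ Λ s (by linarith) hq z]
  refine ⟨ne, ?_⟩
  obtain ⟨n, ρ, cnt, a1, -, a3⟩ := hK q χ s.im Λ (by linarith) hq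
  have b := a3 s rfl (by linarith) h2 ne
  have d := norm_sum_le_of_le (Finset.range n) (f := fun j => (s - ρ j)⁻¹)
    (n := fun _ => 4 / c * Λ) fun j hj => by
      obtain ⟨z0, z1⟩ := a1 j hj
      have t1 := abs_sub_abs_le_abs_sub (ρ j).im s.im
      have t2 := abs_sub_abs_le_abs_sub s.im (ρ j).im
      rw [abs_sub_comm] at t2
      have := hc q χ (2 * Λ) (ρ j) (by linarith) (by
        have : (q : ℝ) * |(ρ j).im| ≤ q * (2 * |s.im|) := by
          gcongr
          linarith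
        rw [two_mul Λ, Real.exp_add]
        nlinarith [Real.add_one_le_exp Λ, Real.exp_pos Λ]) z0
      rw [norm_inv, show 4 / c * Λ = (c / Λ / 4)⁻¹ by field_simp]
      refine inv_anti₀ (by positivity) (le_trans ?_ (re_le_norm _))
      rw [sub_re]
      linarith
  rw [Finset.sum_const, Finset.card_range, nsmul_eq_mul] at d
  have f := norm_add_le_of_le b d
  rw [sub_add_cancel] at f
  have g := mul_le_mul_of_nonneg_right cnt (show 0 ≤ 4 / c * Λ by positivity)
  have h : K * Λ ≤ K * Λ ^ 2 := by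
    gcongr
    nlinarith
  nlinarith

end Pool.Agent.MP_a96b63_al.H84D
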