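import Pool.Agent.H84D.Defs
import Pool.Agent.H84D.Par

set_option autoImplicit false

/-! Sizes of the parameters. -/

namespace Pool.Agent.H84D

open Finset Filter Pool.Agent.MP_a96b63_al

lemma siz_L (C : ℝ) : ∀ᶠ X : ℕ in atTop, C ≤ LL X := par_nat (eventually_ge_atTop C)

lemma siz_ka (C : ℝ) : ∀ᶠ X : ℕ in atTop, C ≤ ka X := by
  filter_upwards [par_nat (par_const_log (10 * C))] with X h
  unfold ka LL; linarith

lemma siz_exp_L {X : ℕ} (h : 1 ≤ LL X) : Real.exp (LL X) = X := by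
  refine Real.exp_log (Nat.cast_pos.2 (Nat.pos_of_ne_zero fun h0 => ?_))
  rw [h0] at h; simp [LL] at h; linarith

lemma siz_pow_EE (C : ℝ) (A : ℕ) {θ : ℝ} (hθ : 0 < θ) :
    ∀ᶠ X : ℕ in atTop, C * LL X ^ A ≤ EE X θ := by
  filter_upwards [par_nat (par_rpow_exp C A hθ one_pos)] with X h
  rwa [Real.rpow_natCast, one_mul] at h

lemma siz_EE_EE (C : ℝ) (A n : ℕ) {θ θ' : ℝ} (h : θ < θ') (hθ : 0 < θ') :
    ∀ᶠ X : ℕ in atTop, C * LL X ^ A * EE X θ ^ n ≤ EE X θ' := by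
  filter_upwards [par_nat (par_exp_exp C A n h hθ one_pos)] with X h
  rwa [Real.rpow_natCast, one_mul, Real.exp_nat_mul] at h

lemma one_le_EE (X : ℕ) (θ : ℝ) : 1 ≤ EE X θ :=
  Real.one_le_exp (Real.rpow_nonneg (Real.log_natCast_nonneg X) θ)

lemma Y1_le (X : ℕ) : (Y1 X : ℝ) ≤ EE X (3 / 20) := Nat.floor_le (Real.exp_pos _).le

lemma le_two_Y1 (X : ℕ) : EE X (3 / 20) ≤ 2 * Y1 X := by
  have h1 : EE X (3 / 20) < Y1 X + 1 := Nat.lt_floor_add_one _
  have h2 : (1 : ℝ) ≤ Y1 X := by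
    exact_mod_cast (Nat.one_le_floor_iff _).2 (one_le_EE X (3 / 20))
  linarith

/-- `C L ^ A (EE θ) ^ n ≤ Y₁` for `θ < 3 / 20` -/
lemma siz_Y1 (C : ℝ) (A n : ℕ) {θ : ℝ} (h : θ < 3 / 20) :
    ∀ᶠ X : ℕ in atTop, C * LL X ^ A * EE X θ ^ n ≤ Y1 X := by
  filter_upwards [siz_EE_EE (2 * C) A n h (by norm_num)] with X h
  have := le_two_Y1 X
  nlinarith

lemma P1_le (X : ℕ) : (P1 X : ℝ) ≤ Real.exp (LL X / ka X) := Nat.floor_le (Real.exp_pos _).le

lemma P2_le (X : ℕ) : (P2 X : ℝ) ≤ Real.exp (LL X / ka X ^ 2) := Nat.floor_le (Real.exp_pos _).le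

lemma siz_Y1_P2 : ∀ᶠ X : ℕ in atTop, Y1 X ≤ P2 X := by
  filter_upwards [par_nat (par_poly 1 0 2 (show (3 / 20 : ℝ) < 1 by norm_num)), siz_ka 1,
    siz_L 1] with X h hk hL
  refine Nat.floor_le_floor (Real.exp_le_exp.2 ?_)
  simp only [one_mul, pow_zero, mul_one, Real.rpow_one] at h
  refine h.trans ?_
  have e : Real.log (Real.log X) = 10 * ka X := by unfold ka LL; ring
  rw [e]
  exact div_le_div_of_nonneg_left (by unfold LL at hL; linarith) (by positivity) (by nlinarith)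

lemma ka_le {X : ℕ} (h : 1 ≤ LL X) : 10 * ka X ≤ LL X := by
  have := Real.log_le_sub_one_of_pos (show 0 < LL X by linarith)
  unfold ka; linarith

lemma siz_P2_P1 : ∀ᶠ X : ℕ in atTop, 2 * P2 X ≤ P1 X := by
  filter_upwards [siz_ka 2, siz_L 1] with X hk hL
  refine Nat.le_floor ?_
  have h1 := P2_le X
  have h2 := ka_le hL
  have h3 : LL X / ka X ^ 2 + 1 ≤ LL X / ka X := by
    rw [div_add_one (by positivity), div_le_div_iff₀ (by positivity) (by positivity)]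
    have : 0 ≤ ka X * (ka X * (LL X / 2 - ka X)) := by
      refine mul_nonneg (by linarith) (mul_nonneg (by linarith) (by linarith))
    have : 0 ≤ LL X * (ka X * (ka X / 2 - 1)) := by
      refine mul_nonneg (by linarith) (mul_nonneg (by linarith) (by linarith))
    nlinarith
  have h4 := Real.exp_le_exp.2 h3
  rw [Real.exp_add] at h4
  have h5 : (2 : ℝ) ≤ Real.exp 1 := by have := Real.add_one_le_exp (1 : ℝ); linarith
  have h6 := Real.exp_pos (LL X / ka X ^ 2)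
  push_cast
  nlinarith

/-- `C P₁ ^ n ≤ X` -/
lemma siz_P1_X (C : ℝ) (n : ℕ) : ∀ᶠ X : ℕ in atTop, C * (P1 X : ℝ) ^ n ≤ X := by
  filter_upwards [siz_ka (2 * n + 1), siz_L 1, siz_L (2 * C)] with X hk hL hC
  have hn : (0 : ℝ) ≤ n := Nat.cast_nonneg n
  have h1 : (P1 X : ℝ) ^ n ≤ Real.exp (LL X / 2) := by
    refine (pow_le_pow_left₀ (Nat.cast_nonneg _) (P1_le X) n).trans ?_
    rw [← Real.exp_nat_mul, Real.exp_le_exp, mul_div_assoc', div_le_div_iff₀ (by linarith) two_pos]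
    nlinarith
  have h2 : C ≤ Real.exp (LL X / 2) := by
    have := Real.add_one_le_exp (LL X / 2); linarith
  calc C * (P1 X : ℝ) ^ n ≤ Real.exp (LL X / 2) * Real.exp (LL X / 2) :=
        mul_le_mul h2 h1 (by positivity) (Real.exp_pos _).le
    _ = X := by rw [← Real.exp_add, add_halves, siz_exp_L hL]

lemma Fam.F_ne {c B a₀ X : ℕ} {D : Fm} (h : Fam c B a₀ X D) : D.F.Nonempty := by
  have h1 : (0 : ℝ) < D.Y2 := by exact_mod_cast h.ypos
  have h2 : (0 : ℝ) < #D.F := (mul_pos h1 (Real.exp_pos _)).trans_le h.many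
  exact card_pos.1 (by exact_mod_cast h2)

lemma Fam.c_pos {c B a₀ X : ℕ} {D : Fm} (h : Fam c B a₀ X D) : 1 ≤ c := by
  obtain ⟨z, hz⟩ := h.F_ne
  have h1 := (h.size z hz).2.2.2
  have h2 := h.ypos
  rcases Nat.eq_zero_or_pos c with rfl | h3
  · omega
  · exact h3

lemma Y1_pos (X : ℕ) : 1 ≤ Y1 X := (Nat.one_le_floor_iff _).2 (one_le_EE X (3 / 20))

lemma Fam.QQ_ne {c B a₀ X : ℕ} {D : Fm} (h : Fam c B a₀ X D) : D.QQ.Nonempty := by
  refine nonempty_iff_ne_empty.2 fun h0 => ?_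
  have h1 := h.qmany
  have h2 : (1 : ℝ) ≤ Y1 X := by exact_mod_cast Y1_pos X
  rw [h0] at h1
  simp only [card_empty, Nat.cast_zero, mul_zero] at h1
  linarith

lemma N3_mul_le (X : ℕ) (D : Fm) : N3 X D * (20 * Y1 X * D.Y2 * P1 X * P2 X) ≤ X :=
  Nat.div_mul_le_self _ _

/-- the chain of sizes -/
structure Siz (c X : ℕ) (D : Fm) : Prop where
  y21 : D.Y2 ≤ Y1 X
  y12 : Y1 X ≤ P2 X
  p21 : 2 * P2 X ≤ P1 X
  p13 : 2 * P1 X ≤ N3 X D
  n34 : N3 X D ≤ N4 c X D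
  n4X : N4 c X D ≤ X

theorem siz (c B a₀ : ℕ) : ∀ᶠ X : ℕ in atTop, ∀ D : Fm, Fam c B a₀ X D → Siz c X D := by
  filter_upwards [siz_Y1 1 0 1 (show (1 / 8 : ℝ) < 3 / 20 by norm_num),
    siz_Y1 (1000 * c) 0 0 (show (1 / 8 : ℝ) < 3 / 20 by norm_num), siz_Y1_P2, siz_P2_P1,
    siz_P1_X 40 5] with X h1 h2 h3 h4 h5 D hD
  simp only [pow_zero, pow_one, mul_one, one_mul] at h1 h2
  have a1 : D.Y2 ≤ Y1 X := by exact_mod_cast hD.yle.trans h1
  have a2 : 1000 * c ≤ Y1 X := by exact_mod_cast h2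
  have a3 : 40 * P1 X ^ 5 ≤ X := by exact_mod_cast h5
  have a4 := hD.ypos
  have a5 := Y1_pos X
  have a6 : 0 < P2 X := by omega
  have a7 : 0 < P1 X := by omega
  refine ⟨a1, h3, h4, ?_, ?_, ?_⟩
  · refine (Nat.le_div_iff_mul_le (by positivity)).2 (le_trans ?_ a3)
    calc 2 * P1 X * (20 * Y1 X * D.Y2 * P1 X * P2 X) ≤
          2 * P1 X * (20 * P1 X * P1 X * P1 X * P1 X) := by gcongr <;> omega
      _ = _ := by ring
  · have := hD.c_pos
    unfold N4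
    nlinarith
  · refine le_trans ?_ (N3_mul_le X D)
    calc N4 c X D = N3 X D * (20 * (1000 * c) * 1 * 1 * 1) := by unfold N4; ring
      _ ≤ _ := by gcongr <;> omega

end Pool.Agent.H84D
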