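import Mathlib

/-!
Definitions for the localised trace bound (section 3b of the density-one argument).
-/

open Finset

namespace Pool.Agent.H84D

/-- `1[a ∣ m] * (1[al ∣ m] - 1/al)`. -/
noncomputable def txi (a al : ℕ) (m : ℤ) : ℝ :=
  if (a : ℤ) ∣ m then (if (al : ℤ) ∣ m then 1 else 0) - 1 / (al : ℝ) else 0

/-- Hypotheses on the sets `QQ` (of `q`, with `al = q + 4`, `be = q + 2`) and `F` (pairs `(a, b)`). -/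
structure TrHyp (QQ : Finset ℕ) (F : Finset (ℕ × ℕ)) (Y1 Y2 z s : ℕ) (φ : ℝ) : Prop where
  qle : ∀ q ∈ QQ, q + 4 ≤ Y1
  qrough : ∀ q ∈ QQ, ∀ p : ℕ, p.Prime → p ∣ q + 4 → z ≤ p
  qom : ∀ q ∈ QQ, (q + 4).primeFactorsList.length ≤ s
  apos : ∀ x ∈ F, 0 < x.1
  ale : ∀ x ∈ F, x.1 ≤ Y2
  ble : ∀ x ∈ F, x.2 ≤ Y2
  cop : ∀ x ∈ F, Nat.Coprime x.1 (2 * x.2)
  aom : ∀ x ∈ F, x.1.primeFactorsList.length ≤ s
  z3 : 3 ≤ z
  zY : Y2 < z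
  Yle : Y2 ≤ Y1
  fib : ∀ a : ℕ, ((F.filter fun x => x.1 = a).card : ℝ) ≤ φ

/-- One step of a walk: `(q, (a, b), (a, b'))`. -/
abbrev TStep := ℕ × (ℕ × ℕ) × (ℕ × ℕ)

/-- The set of steps. -/
def tW (QQ : Finset ℕ) (F : Finset (ℕ × ℕ)) : Finset TStep :=
  QQ ×ˢ ((F ×ˢ F).filter fun p => p.1.1 = p.2.1)

/-- `al = q + 4`. -/
def tal (w : TStep) : ℕ := w.1 + 4

/-- the common first coordinate `a`. -/
def ta (w : TStep) : ℕ := w.2.1.1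

/-- the shift `8 be b`. -/
def tsh (w : TStep) : ℤ := 8 * ((w.1 : ℤ) + 2) * (w.2.1.2 : ℤ)

/-- the shift `8 be b'`. -/
def tsh' (w : TStep) : ℤ := 8 * ((w.1 : ℤ) + 2) * (w.2.2.2 : ℤ)

/-- `G * 1[G ∣ c]`. -/
noncomputable def gw (G : ℕ) (c : ℤ) : ℝ := if (G : ℤ) ∣ c then (G : ℝ) else 0

end Pool.Agent.H84D
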