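import Pool.Agent.H84D.TrDefs

/-! The three step counts of the localised trace bound. -/

open Finset

namespace Pool.Agent.H84D

variable {QQ : Finset ℕ} {F : Finset (ℕ × ℕ)} {Y1 Y2 z s : ℕ} {φ : ℝ}

theorem tr_card_cong (Q : Finset ℕ) (Y d : ℕ) (_hd : 0 < d) (h1 : ∀ q ∈ Q, q ≤ Y)
    (h2 : ∀ q ∈ Q, ∀ q' ∈ Q, (d : ℤ) ∣ (q : ℤ) - q') : (d : ℝ) * Q.card ≤ Y + d := by
  have h3 : Q.card ≤ (range (Y / d + 1)).card := by
    refine Finset.card_le_card_of_injOn (fun q => q / d) (fun q hq => ?_) (fun q hq q' hq' h => ?_)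
    · simp only [coe_range, Set.mem_Iio]
      exact Nat.lt_succ_of_le (Nat.div_le_div_right (h1 q hq))
    · have h4 : q' ≡ q [MOD d] := (Nat.modEq_iff_dvd).2 (h2 q hq q' hq')
      have h5 : q / d = q' / d := h
      rw [← Nat.div_add_mod q d, ← Nat.div_add_mod q' d, h5, h4]
  rw [card_range] at h3
  have h4 : d * Q.card ≤ Y + d := by
    calc d * Q.card ≤ d * (Y / d + 1) := Nat.mul_le_mul_left _ h3
      _ = d * (Y / d) + d := by ring
      _ ≤ Y + d := Nat.add_le_add_right (Nat.mul_div_le Y d) _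
  exact_mod_cast h4

theorem gw_nonneg (G : ℕ) (c : ℤ) : 0 ≤ gw G c := by
  unfold gw; split_ifs <;> positivity

theorem tr_phi_nonneg (h : TrHyp QQ F Y1 Y2 z s φ) : 0 ≤ φ :=
  (Nat.cast_nonneg _).trans (h.fib 0)

theorem tr_sum_tW (h : TrHyp QQ F Y1 Y2 z s φ) (f : ℕ → ℕ × ℕ → ℝ) (hf : ∀ q x, 0 ≤ f q x) :
    ∑ w ∈ tW QQ F, f w.1 w.2.1 ≤ φ * ∑ x ∈ F, ∑ q ∈ QQ, f q x := by
  unfold tW
  rw [Finset.sum_product, Finset.sum_comm (s := F), Finset.mul_sum]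
  refine Finset.sum_le_sum fun q _ => ?_
  rw [Finset.sum_filter, Finset.sum_product, Finset.mul_sum]
  refine Finset.sum_le_sum fun x _ => ?_
  have e : ∑ y ∈ F, (if x.1 = y.1 then f q x else 0)
      = ((F.filter fun y => y.1 = x.1).card : ℝ) * f q x := by
    rw [← Finset.sum_filter, Finset.sum_const, nsmul_eq_mul]
    rw [Finset.filter_congr (fun y _ => (eq_comm : x.1 = y.1 ↔ y.1 = x.1))]
  exact e.le.trans (mul_le_mul_of_nonneg_right (h.fib x.1) (hf q x))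

theorem tr_cong_a (h : TrHyp QQ F Y1 Y2 z s φ) {x : ℕ × ℕ} (hx : x ∈ F) {G : ℕ} (hG : G ∣ x.1)
    {c : ℤ} {q q' : ℕ} (h1 : (G : ℤ) ∣ c - 8 * ((q : ℤ) + 2) * (x.2 : ℤ))
    (h2 : (G : ℤ) ∣ c - 8 * ((q' : ℤ) + 2) * (x.2 : ℤ)) : (G : ℤ) ∣ (q : ℤ) - q' := by
  have hc : Nat.Coprime G (2 * x.2) := Nat.Coprime.coprime_dvd_left hG (h.cop x hx)
  have hc2 : Nat.Coprime G 2 := Nat.Coprime.coprime_mul_right_right hc
  have hc3 : Nat.Coprime G (2 * (2 * (2 * x.2))) :=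
    Nat.Coprime.mul_right hc2 (Nat.Coprime.mul_right hc2 hc)
  have h3 : (G : ℤ) ∣ ((q : ℤ) - q') * ((2 * (2 * (2 * x.2)) : ℕ) : ℤ) := by
    have e : ((q : ℤ) - q') * ((2 * (2 * (2 * x.2)) : ℕ) : ℤ)
        = c - 8 * ((q' : ℤ) + 2) * (x.2 : ℤ) - (c - 8 * ((q : ℤ) + 2) * (x.2 : ℤ)) := by
      push_cast; ring
    rw [e]; exact dvd_sub h2 h1
  exact (Nat.isCoprime_iff_coprime.2 hc3).dvd_of_dvd_mul_right h3

theorem tr_cop_of_primes {m n y z : ℕ} (hyz : y < z) (hm : ∀ p : ℕ, p.Prime → p ∣ m → p ≤ y)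
    (hn : ∀ p : ℕ, p.Prime → p ∣ n → z ≤ p) : Nat.Coprime m n := by
  refine Nat.coprime_of_dvd fun p hp h1 h2 => ?_
  have := hm p hp h1
  have := hn p hp h2
  omega

theorem tr_a_primes (h : TrHyp QQ F Y1 Y2 z s φ) {x : ℕ × ℕ} (hx : x ∈ F) (p : ℕ) (_hp : p.Prime)
    (hd : p ∣ x.1) : p ≤ Y2 := (Nat.le_of_dvd (h.apos x hx) hd).trans (h.ale x hx)

/-- `q` in one class modulo `e` and modulo a divisor of `a` -/
theorem tr_count (h : TrHyp QQ F Y1 Y2 z s φ) {x : ℕ × ℕ} (hx : x ∈ F) {G e : ℕ} (hG : G ∣ x.1)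
    (c : ℤ) (T : Finset ℕ) (hT : T ⊆ QQ) (he : ∀ q ∈ T, e ∣ q + 4)
    (hc : ∀ q ∈ T, (G : ℤ) ∣ c - 8 * ((q : ℤ) + 2) * (x.2 : ℤ)) (he0 : 0 < e) :
    ((G : ℝ) * e) * T.card ≤ Y1 + G * e := by
  have hG0 : 0 < G := Nat.pos_of_dvd_of_pos hG (h.apos x hx)
  have := tr_card_cong T Y1 (G * e) (Nat.mul_pos hG0 he0)
    (fun q hq => (Nat.le_add_right q 4).trans (h.qle q (hT hq))) (fun q hq q' hq' => by
      have hcop : Nat.Coprime G e := tr_cop_of_primes h.zY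
        (fun p hp hd => tr_a_primes h hx p hp (hd.trans hG))
        (fun p hp hd => h.qrough q (hT hq) p hp (hd.trans (he q hq)))
      have h1 := tr_cong_a h hx hG (hc q hq) (hc q' hq')
      have h2 : (e : ℤ) ∣ (q : ℤ) - q' := by
        have a1 : (e : ℤ) ∣ ((q + 4 : ℕ) : ℤ) := Int.natCast_dvd_natCast.2 (he q hq)
        have a2 : (e : ℤ) ∣ ((q' + 4 : ℕ) : ℤ) := Int.natCast_dvd_natCast.2 (he q' hq')
        have e : (q : ℤ) - q' = ((q + 4 : ℕ) : ℤ) - ((q' + 4 : ℕ) : ℤ) := by push_cast; ring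
        rw [e]; exact dvd_sub a1 a2
      push_cast
      exact (Nat.isCoprime_iff_coprime.2 hcop).mul_dvd h1 h2)
  exact_mod_cast this

theorem stepA (h : TrHyp QQ F Y1 Y2 z s φ) (Lam : ℕ) (c : ℤ) :
    ∑ w ∈ tW QQ F, gw (Nat.gcd (ta w) Lam) (c - tsh w)
      ≤ (F.card : ℝ) * φ * ((Y1 : ℝ) + Y2) := by
  refine (tr_sum_tW h (fun q x => gw (Nat.gcd x.1 Lam) (c - 8 * ((q : ℤ) + 2) * (x.2 : ℤ)))
    (fun _ _ => gw_nonneg _ _)).trans ?_
  have : ∑ x ∈ F, ∑ q ∈ QQ, gw (Nat.gcd x.1 Lam) (c - 8 * ((q : ℤ) + 2) * (x.2 : ℤ))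
      ≤ ∑ _x ∈ F, ((Y1 : ℝ) + Y2) := by
    refine Finset.sum_le_sum fun x hx => ?_
    unfold gw
    rw [← Finset.sum_filter, Finset.sum_const, nsmul_eq_mul]
    have h1 := tr_count h hx (Nat.gcd_dvd_left x.1 Lam) (e := 1) c _ (Finset.filter_subset _ QQ)
      (fun _ _ => one_dvd _) (fun q hq => (Finset.mem_filter.1 hq).2) one_pos
    have h2 : (Nat.gcd x.1 Lam : ℝ) ≤ Y2 := by
      exact_mod_cast (Nat.gcd_le_left Lam (h.apos x hx)).trans (h.ale x hx)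
    simp only [Nat.cast_one, mul_one] at h1
    linarith
  rw [Finset.sum_const, nsmul_eq_mul] at this
  calc _ ≤ φ * ((F.card : ℝ) * ((Y1 : ℝ) + Y2)) :=
        mul_le_mul_of_nonneg_left this (tr_phi_nonneg h)
    _ = _ := by ring

theorem stepB (h : TrHyp QQ F Y1 Y2 z s φ) (Lam LB : ℕ) (c : ℤ) (hLB : LB ≠ 0) :
    ∑ w ∈ (tW QQ F).filter (fun w => ¬ Nat.Coprime (tal w) LB),
        gw (Nat.gcd (ta w) Lam) (c - tsh w)
      ≤ (LB.primeFactors.card : ℝ) * ((F.card : ℝ) * φ * ((Y1 : ℝ) / z + Y2)) := by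
  rw [Finset.sum_filter]
  refine (tr_sum_tW h (fun q x => if ¬ Nat.Coprime (q + 4) LB then
    gw (Nat.gcd x.1 Lam) (c - 8 * ((q : ℤ) + 2) * (x.2 : ℤ)) else 0)
    (fun _ _ => by split_ifs; exacts [le_rfl, gw_nonneg _ _])).trans ?_
  have hz : (0 : ℝ) < z := by have := h.z3; positivity
  have : ∑ x ∈ F, ∑ q ∈ QQ, (if ¬ Nat.Coprime (q + 4) LB then
      gw (Nat.gcd x.1 Lam) (c - 8 * ((q : ℤ) + 2) * (x.2 : ℤ)) else 0)
      ≤ ∑ _x ∈ F, (LB.primeFactors.card : ℝ) * ((Y1 : ℝ) / z + Y2) := by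
    refine Finset.sum_le_sum fun x hx => ?_
    calc _ ≤ ∑ q ∈ QQ, ∑ p ∈ LB.primeFactors, (if p ∣ q + 4 then
            gw (Nat.gcd x.1 Lam) (c - 8 * ((q : ℤ) + 2) * (x.2 : ℤ)) else 0) := by
          refine Finset.sum_le_sum fun q _ => ?_
          have hnn : ∀ p ∈ LB.primeFactors, 0 ≤ (if p ∣ q + 4 then
              gw (Nat.gcd x.1 Lam) (c - 8 * ((q : ℤ) + 2) * (x.2 : ℤ)) else 0) :=
            fun p _ => by split_ifs; exacts [gw_nonneg _ _, le_rfl]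
          by_cases hq : Nat.Coprime (q + 4) LB
          · rw [if_neg (not_not.2 hq)]; exact Finset.sum_nonneg hnn
          · rw [if_pos hq]
            obtain ⟨p, hp, h1, h2⟩ := Nat.Prime.not_coprime_iff_dvd.1 hq
            have := Finset.single_le_sum hnn (Nat.mem_primeFactors.2 ⟨hp, h2, hLB⟩)
            rwa [if_pos h1] at this
      _ = ∑ p ∈ LB.primeFactors, ∑ q ∈ QQ, (if p ∣ q + 4 then
            gw (Nat.gcd x.1 Lam) (c - 8 * ((q : ℤ) + 2) * (x.2 : ℤ)) else 0) := Finset.sum_comm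
      _ ≤ ∑ _p ∈ LB.primeFactors, ((Y1 : ℝ) / z + Y2) := by
          refine Finset.sum_le_sum fun p hp => ?_
          have hpp := Nat.prime_of_mem_primeFactors hp
          set G := Nat.gcd x.1 Lam with hG
          set T := QQ.filter (fun q => p ∣ q + 4 ∧
            (G : ℤ) ∣ c - 8 * ((q : ℤ) + 2) * (x.2 : ℤ)) with hT
          have e : ∑ q ∈ QQ, (if p ∣ q + 4 then
              gw G (c - 8 * ((q : ℤ) + 2) * (x.2 : ℤ)) else 0) = T.card * (G : ℝ) := by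
            rw [hT, ← nsmul_eq_mul, ← Finset.sum_const, Finset.sum_filter]
            refine Finset.sum_congr rfl fun q _ => ?_
            unfold gw
            by_cases a1 : p ∣ q + 4 <;>
              by_cases a2 : (G : ℤ) ∣ c - 8 * ((q : ℤ) + 2) * (x.2 : ℤ) <;> simp [a1, a2]
          rw [e]
          rcases T.eq_empty_or_nonempty with h0 | ⟨q0, hq0⟩
          · rw [h0]; simp only [card_empty, Nat.cast_zero, zero_mul]; positivity
          · have hq0' := Finset.mem_filter.1 hq0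
            have hzp : (z : ℝ) ≤ p := by exact_mod_cast h.qrough q0 hq0'.1 p hpp hq0'.2.1
            have h1 := tr_count h hx (Nat.gcd_dvd_left x.1 Lam) (e := p) c T
              (Finset.filter_subset _ QQ) (fun q hq => (Finset.mem_filter.1 hq).2.1)
              (fun q hq => (Finset.mem_filter.1 hq).2.2) hpp.pos
            have h2 : (G : ℝ) ≤ Y2 := by
              exact_mod_cast (Nat.gcd_le_left Lam (h.apos x hx)).trans (h.ale x hx)
            have hp0 : (0 : ℝ) < p := hz.trans_le hzp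
            have h3 : (T.card : ℝ) * G ≤ Y1 / p + G := by
              rw [← hG] at h1
              rw [div_add' _ _ _ hp0.ne', le_div_iff₀ hp0]; linarith
            have h4 : (Y1 : ℝ) / p ≤ Y1 / z := by gcongr
            linarith
      _ = _ := by rw [Finset.sum_const, nsmul_eq_mul]
  rw [Finset.sum_const, nsmul_eq_mul] at this
  calc _ ≤ φ * ((F.card : ℝ) * ((LB.primeFactors.card : ℝ) * ((Y1 : ℝ) / z + Y2))) :=
        mul_le_mul_of_nonneg_left this (tr_phi_nonneg h)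
    _ = _ := by ring

theorem tr_sum_gcd (Y LA : ℕ) (hLA : LA ≠ 0) (g : ℕ → ℕ) (A : Finset ℕ) (hA : A ⊆ Ioc 0 Y)
    (h1 : ∀ a ∈ A, g a ∣ a) (h2 : ∀ a ∈ A, g a ∣ LA) :
    ∑ a ∈ A, (1 + (g a : ℝ)) ≤ Y * (1 + (LA.divisors.card : ℝ)) := by
  have e1 : ∑ a ∈ A, (g a : ℝ) ≤ ∑ a ∈ Ioc 0 Y, ∑ d ∈ LA.divisors, if d ∣ a then (d : ℝ) else 0 := by
    have hnn : ∀ a : ℕ, ∀ d ∈ LA.divisors, 0 ≤ (if d ∣ a then (d : ℝ) else 0) :=
      fun a d _ => by split_ifs <;> positivity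
    refine le_trans (Finset.sum_le_sum fun a ha => ?_)
      (Finset.sum_le_sum_of_subset_of_nonneg hA fun a _ _ => Finset.sum_nonneg (hnn a))
    have := Finset.single_le_sum (hnn a) (Nat.mem_divisors.2 ⟨h2 a ha, hLA⟩)
    rwa [if_pos (h1 a ha)] at this
  have e2 : ∑ a ∈ Ioc 0 Y, ∑ d ∈ LA.divisors, (if d ∣ a then (d : ℝ) else 0)
      ≤ ∑ _d ∈ LA.divisors, (Y : ℝ) := by
    rw [Finset.sum_comm]
    refine Finset.sum_le_sum fun d _ => ?_
    rw [← Finset.sum_filter, Finset.sum_const, nsmul_eq_mul, Nat.Ioc_filter_dvd_card_eq_div]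
    exact_mod_cast Nat.div_mul_le_self Y d
  have e3 : (A.card : ℝ) ≤ Y := by
    have := Finset.card_le_card hA
    rw [Nat.card_Ioc] at this
    exact_mod_cast this
  rw [Finset.sum_const, nsmul_eq_mul] at e2
  rw [Finset.sum_add_distrib, Finset.sum_const, nsmul_eq_mul]
  linarith

theorem stepC (h : TrHyp QQ F Y1 Y2 z s φ) (Lam LA LB : ℕ) (c : ℤ) (hLA : LA ≠ 0) (hLB : LB ≠ 0)
    (hdvd : Lam ∣ LA * LB) (hA : ∀ p : ℕ, p.Prime → p ∣ LA → p ≤ Y2)
    (hB : ∀ p : ℕ, p.Prime → p ∣ LB → z ≤ p) :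
    ∑ w ∈ (tW QQ F).filter (fun w => Nat.gcd (tal w) Lam ≠ 1),
        gw (Nat.gcd (ta w * tal w) Lam) (c - tsh w)
      ≤ (LB.divisors.card : ℝ) * ((Y1 : ℝ) * φ * Y2 * (1 + (LA.divisors.card : ℝ))) := by
  rw [Finset.sum_filter]
  refine (tr_sum_tW h (fun q x => if Nat.gcd (q + 4) Lam ≠ 1 then
    gw (Nat.gcd (x.1 * (q + 4)) Lam) (c - 8 * ((q : ℤ) + 2) * (x.2 : ℤ)) else 0)
    (fun _ _ => by split_ifs; exacts [gw_nonneg _ _, le_rfl])).trans ?_
  -- first step: sort by the value of the gcd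
  have s1 : ∀ x ∈ F, ∑ q ∈ QQ, (if Nat.gcd (q + 4) Lam ≠ 1 then
      gw (Nat.gcd (x.1 * (q + 4)) Lam) (c - 8 * ((q : ℤ) + 2) * (x.2 : ℤ)) else 0)
      ≤ ∑ e ∈ LB.divisors, if e ≠ 1 ∧ (e : ℤ) ∣ c + 16 * (x.2 : ℤ) then
          (Y1 : ℝ) * (1 + (Nat.gcd x.1 Lam : ℝ)) else 0 := by
    intro x hx
    have hmap : ∀ q ∈ QQ, Nat.gcd (q + 4) Lam ∈ LB.divisors := by
      intro q hq
      refine Nat.mem_divisors.2 ⟨?_, hLB⟩
      have hc : Nat.Coprime LA (Nat.gcd (q + 4) Lam) := tr_cop_of_primes h.zY hA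
        (fun p hp hd => h.qrough q hq p hp (hd.trans (Nat.gcd_dvd_left _ _)))
      exact hc.symm.dvd_of_dvd_mul_left ((Nat.gcd_dvd_right _ _).trans hdvd)
    rw [← Finset.sum_fiberwise_of_maps_to hmap]
    refine Finset.sum_le_sum fun e he => ?_
    set G := Nat.gcd x.1 Lam with hG
    set T := QQ.filter (fun q => Nat.gcd (q + 4) Lam = e ∧ e ≠ 1 ∧
      ((G * e : ℕ) : ℤ) ∣ c - 8 * ((q : ℤ) + 2) * (x.2 : ℤ)) with hT
    have e1 : ∑ q ∈ QQ.filter (fun q => Nat.gcd (q + 4) Lam = e),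
        (if Nat.gcd (q + 4) Lam ≠ 1 then
          gw (Nat.gcd (x.1 * (q + 4)) Lam) (c - 8 * ((q : ℤ) + 2) * (x.2 : ℤ)) else 0)
        = T.card * ((G : ℝ) * e) := by
      rw [hT, ← nsmul_eq_mul, ← Finset.sum_const, Finset.sum_filter, Finset.sum_filter]
      refine Finset.sum_congr rfl fun q hq => ?_
      have hc : Nat.Coprime x.1 (q + 4) :=
        tr_cop_of_primes h.zY (tr_a_primes h hx) (h.qrough q hq)
      by_cases a1 : Nat.gcd (q + 4) Lam = e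
      · have a0 : Nat.gcd (x.1 * (q + 4)) Lam = G * e := by rw [hc.mul_gcd, a1]
        rw [if_pos a1, a0]
        unfold gw
        by_cases a2 : e = 1
        · rw [if_neg (not_not.2 (a1.trans a2)), if_neg (fun hh => hh.2.1 a2)]
        · have a4 : Nat.gcd (q + 4) Lam ≠ 1 := fun hh => a2 (a1.symm.trans hh)
          by_cases a3 : ((G * e : ℕ) : ℤ) ∣ c - 8 * ((q : ℤ) + 2) * (x.2 : ℤ)
          · rw [if_pos a4, if_pos a3, if_pos ⟨a1, a2, a3⟩]; push_cast; ring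
          · rw [if_pos a4, if_neg a3, if_neg (fun hh => a3 hh.2.2)]
      · rw [if_neg a1, if_neg (fun hh => a1 hh.1)]
    rw [e1]
    rcases T.eq_empty_or_nonempty with h0 | ⟨q0, hq0⟩
    · rw [h0]; simp only [card_empty, Nat.cast_zero, zero_mul]
      split_ifs <;> positivity
    · have hq0' := Finset.mem_filter.1 hq0
      have he4 : ∀ q ∈ T, e ∣ q + 4 := fun q hq => by
        rw [← (Finset.mem_filter.1 hq).2.1]; exact Nat.gcd_dvd_left _ _
      have he0 : 0 < e := Nat.pos_of_mem_divisors he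
      have h1 := tr_count h hx (Nat.gcd_dvd_left x.1 Lam) (e := e) c T
        (Finset.filter_subset _ QQ) he4
        (fun q hq => (Int.natCast_dvd_natCast.2 (Dvd.intro e rfl)).trans
          (Finset.mem_filter.1 hq).2.2.2) he0
      have h2 : (e : ℤ) ∣ c + 16 * (x.2 : ℤ) := by
        have a1 : (e : ℤ) ∣ c - 8 * ((q0 : ℤ) + 2) * (x.2 : ℤ) :=
          (Int.natCast_dvd_natCast.2 (Dvd.intro_left G rfl)).trans hq0'.2.2.2
        have a2 : (e : ℤ) ∣ ((q0 + 4 : ℕ) : ℤ) := Int.natCast_dvd_natCast.2 (he4 q0 hq0)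
        have e : c + 16 * (x.2 : ℤ) = c - 8 * ((q0 : ℤ) + 2) * (x.2 : ℤ)
            + ((q0 + 4 : ℕ) : ℤ) * (8 * (x.2 : ℤ)) := by push_cast; ring
        rw [e]; exact dvd_add a1 (a2.mul_right (8 * (x.2 : ℤ)))
      have h3 : (e : ℝ) ≤ Y1 := by
        exact_mod_cast (Nat.le_of_dvd (Nat.succ_pos _) (he4 q0 hq0)).trans (h.qle q0 hq0'.1)
      rw [if_pos ⟨hq0'.2.2.1, h2⟩]
      rw [← hG] at h1
      have h4 : (G : ℝ) * e ≤ G * Y1 := by gcongr
      linarith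
  -- second step: `b` is determined by `a`
  have s2 : ∀ e ∈ LB.divisors, ∑ x ∈ F, (if e ≠ 1 ∧ (e : ℤ) ∣ c + 16 * (x.2 : ℤ) then
      (Y1 : ℝ) * (1 + (Nat.gcd x.1 Lam : ℝ)) else 0)
      ≤ (Y1 : ℝ) * (Y2 * (1 + (LA.divisors.card : ℝ))) := by
    intro e he
    rw [← Finset.sum_filter, ← Finset.mul_sum]
    refine mul_le_mul_of_nonneg_left ?_ (Nat.cast_nonneg _)
    set U := F.filter (fun x => e ≠ 1 ∧ (e : ℤ) ∣ c + 16 * (x.2 : ℤ)) with hU
    have hinj : Set.InjOn Prod.fst (U : Set (ℕ × ℕ)) := by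
      intro x hx y hy hxy
      have hx' := Finset.mem_filter.1 (Finset.mem_coe.1 hx)
      have hy' := Finset.mem_filter.1 (Finset.mem_coe.1 hy)
      have heB := Nat.dvd_of_mem_divisors he
      have hc : Nat.Coprime 16 e := tr_cop_of_primes (y := 2) (z := z) (by have := h.z3; omega)
        (fun p hp hd => Nat.le_of_dvd two_pos (hp.dvd_of_dvd_pow (n := 4) (by simpa using hd)))
        (fun p hp hd => hB p hp (hd.trans heB))
      have hez : z ≤ e :=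
        (hB _ (Nat.minFac_prime hx'.2.1) ((Nat.minFac_dvd e).trans heB)).trans
          (Nat.minFac_le (Nat.pos_of_mem_divisors he))
      have a1 : (e : ℤ) ∣ ((16 : ℕ) : ℤ) * ((y.2 : ℤ) - x.2) := by
        have e : ((16 : ℕ) : ℤ) * ((y.2 : ℤ) - x.2)
            = c + 16 * (y.2 : ℤ) - (c + 16 * (x.2 : ℤ)) := by push_cast; ring
        rw [e]; exact dvd_sub hy'.2.2 hx'.2.2
      have a2 : x.2 ≡ y.2 [MOD e] := (Nat.modEq_iff_dvd).2
        ((Nat.isCoprime_iff_coprime.2 hc.symm).dvd_of_dvd_mul_left a1)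
      have b1 := h.ble x hx'.1
      have b2 := h.ble y hy'.1
      have b3 := h.zY
      exact Prod.ext hxy (a2.eq_of_lt_of_lt (by omega) (by omega))
    rw [← Finset.sum_image (f := fun a => 1 + (Nat.gcd a Lam : ℝ)) hinj]
    refine tr_sum_gcd Y2 LA hLA (fun a => Nat.gcd a Lam) _ (fun a ha => ?_)
      (fun a _ => Nat.gcd_dvd_left _ _) (fun a ha => ?_)
    · obtain ⟨x, hx, rfl⟩ := Finset.mem_image.1 ha
      have hx' := (Finset.mem_filter.1 hx).1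
      exact Finset.mem_Ioc.2 ⟨h.apos x hx', h.ale x hx'⟩
    · obtain ⟨x, hx, rfl⟩ := Finset.mem_image.1 ha
      have hx' := (Finset.mem_filter.1 hx).1
      have hc : Nat.Coprime (Nat.gcd x.1 Lam) LB := tr_cop_of_primes h.zY
        (fun p hp hd => tr_a_primes h hx' p hp (hd.trans (Nat.gcd_dvd_left _ _))) hB
      exact hc.dvd_of_dvd_mul_right ((Nat.gcd_dvd_right _ _).trans hdvd)
  have s3 := (Finset.sum_le_sum s1).trans
    ((Finset.sum_comm.le).trans (Finset.sum_le_sum s2))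
  rw [Finset.sum_const, nsmul_eq_mul] at s3
  calc _ ≤ φ * ((LB.divisors.card : ℝ) * ((Y1 : ℝ) * (Y2 * (1 + (LA.divisors.card : ℝ))))) :=
        mul_le_mul_of_nonneg_left s3 (tr_phi_nonneg h)
    _ = _ := by ring

end Pool.Agent.H84D
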