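import Pool.Agent.H84D.TrWalk
import Pool.Agent.H84D.TrStep

/-!
The induction along the walk.
-/

open Finset

namespace Pool.Agent.H84D

/-- majorant of the centred indicator -/
noncomputable def teta (a al : ℕ) (m : ℤ) : ℝ :=
  (if (a : ℤ) ∣ m then 1 else 0) / (al : ℝ) + (if ((a * al : ℕ) : ℤ) ∣ m then 1 else 0)

/-- majorant of the weight of a walk -/
noncomputable def twa : ℤ → List TStep → ℤ → ℝ
  | _, [], _ => 1
  | k, w :: l, u => teta (ta w) (tal w) (u + (k - tsh w)) * twa (tnx k w) l u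

theorem teta_nonneg (a al : ℕ) (m : ℤ) : 0 ≤ teta a al m := by
  unfold teta
  split_ifs <;> positivity

theorem twa_nonneg (l : List TStep) (k u : ℤ) : 0 ≤ twa k l u := by
  induction l generalizing k with
  | nil => simp [twa]
  | cons w l ih => exact mul_nonneg (teta_nonneg _ _ _) (ih _)

theorem abs_txi_le_teta {a al : ℕ} (hc : Nat.Coprime a al) (m : ℤ) :
    |txi a al m| ≤ teta a al m := by
  have h3 : 0 ≤ 1 / (al : ℝ) := by positivity
  by_cases h1 : (a : ℤ) ∣ m
  · by_cases h2 : (al : ℤ) ∣ m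
    · have h4 : ((a * al : ℕ) : ℤ) ∣ m := by
        push_cast
        exact (Nat.isCoprime_iff_coprime.2 hc).mul_dvd h1 h2
      simp only [txi, teta, if_pos h1, if_pos h2, if_pos h4]
      rw [abs_le]; constructor <;> linarith
    · have h5 : (0 : ℝ) ≤ if ((a * al : ℕ) : ℤ) ∣ m then 1 else 0 := by
        split_ifs <;> norm_num
      simp only [txi, teta, if_pos h1, if_neg h2]
      rw [abs_le]; constructor <;> linarith
  · simp only [txi, if_neg h1, abs_zero]
    exact teta_nonneg _ _ _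

theorem abs_twt_le_twa (H : ℕ) (l : List TStep) (hl : ∀ w ∈ l, Nat.Coprime (ta w) (tal w))
    (k u : ℤ) : |twt H k l u| ≤ twa k l u := by
  induction l generalizing k with
  | nil => simp [twt, twa]
  | cons w l ih =>
    rw [twt, twa, abs_mul]
    refine mul_le_mul ?_ (ih (fun w' hw' => hl w' (List.mem_cons_of_mem _ hw')) _)
      (abs_nonneg _) (teta_nonneg _ _ _)
    unfold tst
    split_ifs
    · exact abs_txi_le_teta (hl w (List.mem_cons_self ..)) _
    · rw [abs_zero]; exact teta_nonneg _ _ _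

theorem walk_le (W : Finset TStep) (N Y2 z s n : ℕ) (lam B Hl : ℝ) (hN0 : 0 < N)
    (hN : ∀ w ∈ W, ta w * tal w ∣ N) (hlam : 0 ≤ lam) (hB : 0 ≤ B) (hHl : 0 < Hl)
    (hlow : ∀ w ∈ W, Hl ≤ (ta w : ℝ) * tal w)
    (hW : ∀ w ∈ W, 0 < ta w ∧ ta w ≤ Y2 ∧ (∀ p : ℕ, p.Prime → p ∣ tal w → z ≤ p) ∧
      (ta w).primeFactorsList.length ≤ s ∧ (tal w).primeFactorsList.length ≤ s)
    (hstep : ∀ (Lam LA LB : ℕ) (c : ℤ), LA ≠ 0 → LB ≠ 0 → Lam ∣ LA * LB →
      (∀ p : ℕ, p.Prime → p ∣ LA → p ≤ Y2) → (∀ p : ℕ, p.Prime → p ∣ LB → z ≤ p) →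
      LA.primeFactorsList.length ≤ n * s → LB.primeFactorsList.length ≤ n * s →
      ∑ w ∈ W, lam ^ (if Nat.Coprime (tal w) LB then 0 else 1) *
        (gw (Nat.gcd (ta w) Lam) (c - tsh w) + gw (Nat.gcd (ta w * tal w) Lam) (c - tsh w))
        ≤ Hl * B)
    (j : ℕ) (i LA LB Lam : ℕ) (u0 k : ℤ) (hij : i + j ≤ n) (hLA : LA ≠ 0) (hLB : LB ≠ 0)
    (hdvd : Lam ∣ LA * LB) (hA : ∀ p : ℕ, p.Prime → p ∣ LA → p ≤ Y2)
    (hBz : ∀ p : ℕ, p.Prime → p ∣ LB → z ≤ p) (oA : LA.primeFactorsList.length ≤ i * s)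
    (oB : LB.primeFactorsList.length ≤ i * s) (hLN : Lam ∣ N) :
    ∑ l ∈ tL W j, lam ^ told LB l *
        ∑ u ∈ range N, (if (Lam : ℤ) ∣ (u : ℤ) + u0 then 1 else 0) * twa k l u
      ≤ (N : ℝ) / Lam * B ^ j := by
  induction j generalizing i LA LB Lam u0 k with
  | zero =>
    simp only [tL, Finset.sum_singleton, told, twa, pow_zero, one_mul, mul_one]
    exact (sum_ind_dvd (Nat.pos_of_dvd_of_pos hLN hN0) hLN u0).le
  | succ j ih =>
    have hLam : 0 < Lam := Nat.pos_of_dvd_of_pos hLN hN0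
    have hLam' : (0 : ℝ) < Lam := by exact_mod_cast hLam
    have aux : ∀ w ∈ W, ∀ x : ℕ, x ∣ ta w * tal w →
        ∑ l ∈ tL W j, lam ^ told (LB * tal w) l *
          ∑ u ∈ range N, (if (Lam : ℤ) ∣ (u : ℤ) + u0 then 1 else 0) *
            ((if (x : ℤ) ∣ (u : ℤ) + (k - tsh w) then 1 else 0) * twa (tnx k w) l u)
        ≤ (N : ℝ) / Lam * B ^ j * (gw (Nat.gcd x Lam) (k - u0 - tsh w) / x) := by
      intro w hw x hx
      obtain ⟨w1, w2, w3, w4, w5⟩ := hW w hw
      have hxN : x ∣ N := hx.trans (hN w hw)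
      have hx0 : 0 < x := Nat.pos_of_dvd_of_pos hxN hN0
      have hx0' : (0 : ℝ) < x := by exact_mod_cast hx0
      obtain ⟨u1, hu1⟩ := crt_two Lam x u0 (k - tsh w)
      have ec : k - tsh w - u0 = k - u0 - tsh w := by ring
      rw [ec] at hu1
      by_cases hg : ((Nat.gcd x Lam : ℕ) : ℤ) ∣ k - u0 - tsh w
      · have h1 := ih (i + 1) (LA * ta w) (LB * tal w) (Nat.lcm Lam x) u1 (tnx k w) (by omega)
          (Nat.mul_ne_zero hLA w1.ne') (Nat.mul_ne_zero hLB (tal_pos w).ne')
          (Nat.lcm_dvd (hdvd.trans ⟨ta w * tal w, by ring⟩) (hx.trans ⟨LA * LB, by ring⟩))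
          (fun p hp hd => ((Nat.Prime.dvd_mul hp).1 hd).elim (hA p hp)
            fun h => (Nat.le_of_dvd w1 h).trans w2)
          (fun p hp hd => ((Nat.Prime.dvd_mul hp).1 hd).elim (hBz p hp) (w3 p hp))
          (by rw [om_mul hLA w1.ne', Nat.add_mul, one_mul]; omega)
          (by rw [om_mul hLB (tal_pos w).ne', Nat.add_mul, one_mul]; omega)
          (Nat.lcm_dvd hLN hxN)
        have e1 : ∀ (u : ℤ) (y : ℝ), (if (Lam : ℤ) ∣ u + u0 then (1 : ℝ) else 0) *
            ((if (x : ℤ) ∣ u + (k - tsh w) then 1 else 0) * y)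
            = (if ((Nat.lcm Lam x : ℕ) : ℤ) ∣ u + u1 then 1 else 0) * y := by
          intro u y
          have h2 := hu1 u
          by_cases a1 : (Lam : ℤ) ∣ u + u0 <;> by_cases a2 : (x : ℤ) ∣ u + (k - tsh w)
          · rw [if_pos a1, if_pos a2, if_pos (h2.1 ⟨a1, a2⟩).2, one_mul]
          · rw [if_neg a2, if_neg fun h => a2 (h2.2 ⟨hg, h⟩).2]; simp
          · rw [if_neg a1, if_neg (show ¬ ((Nat.lcm Lam x : ℕ) : ℤ) ∣ u + u1 from
              fun h => a1 (h2.2 ⟨hg, h⟩).1)]; simp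
          · rw [if_neg a1, if_neg (show ¬ ((Nat.lcm Lam x : ℕ) : ℤ) ∣ u + u1 from
              fun h => a1 (h2.2 ⟨hg, h⟩).1)]; simp
        simp only [e1]
        refine h1.trans (le_of_eq ?_)
        have e2 : ((Nat.gcd x Lam : ℕ) : ℝ) * (Nat.lcm Lam x : ℕ) = x * Lam := by
          rw [Nat.lcm_comm]; exact_mod_cast Nat.gcd_mul_lcm x Lam
        have e3 : (0 : ℝ) < (Nat.lcm Lam x : ℕ) := by exact_mod_cast Nat.lcm_pos hLam hx0
        rw [gw, if_pos hg]
        have e4 : ((Nat.gcd x Lam : ℕ) : ℝ) = x * Lam / (Nat.lcm Lam x : ℕ) := by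
          rw [eq_div_iff e3.ne', e2]
        rw [e4]
        field_simp
      · have e1 : ∀ (u : ℤ) (y : ℝ), (if (Lam : ℤ) ∣ u + u0 then (1 : ℝ) else 0) *
            ((if (x : ℤ) ∣ u + (k - tsh w) then 1 else 0) * y) = 0 := by
          intro u y
          by_cases a1 : (Lam : ℤ) ∣ u + u0
          · rw [if_neg (show ¬ (x : ℤ) ∣ u + (k - tsh w) from
              fun a2 => hg ((hu1 u).1 ⟨a1, a2⟩).1)]; simp
          · rw [if_neg a1, zero_mul]
        simp only [e1, gw, if_neg hg]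
        simp
    have hs := hstep Lam LA LB (k - u0) hLA hLB hdvd hA hBz
      (oA.trans (Nat.mul_le_mul_right s (by omega))) (oB.trans (Nat.mul_le_mul_right s (by omega)))
    rw [sum_tL_succ]
    have hC : 0 ≤ (N : ℝ) / Lam * B ^ j := by positivity
    calc _ ≤ ∑ w ∈ W, (N : ℝ) / Lam * B ^ j / Hl *
            (lam ^ (if Nat.Coprime (tal w) LB then 0 else 1) *
            (gw (Nat.gcd (ta w) Lam) (k - u0 - tsh w)
              + gw (Nat.gcd (ta w * tal w) Lam) (k - u0 - tsh w))) := by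
          refine Finset.sum_le_sum fun w hw => ?_
          have a1 := aux w hw (ta w) (Dvd.intro _ rfl)
          have a2 := aux w hw (ta w * tal w) dvd_rfl
          have w1 : (0 : ℝ) < ta w := by exact_mod_cast (hW w hw).1
          have w2 : (0 : ℝ) < tal w := by exact_mod_cast tal_pos w
          set o : ℝ := lam ^ (if Nat.Coprime (tal w) LB then 0 else 1) with ho
          have ho0 : 0 ≤ o := by positivity
          set g1 := gw (Nat.gcd (ta w) Lam) (k - u0 - tsh w) with hg1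
          set g2 := gw (Nat.gcd (ta w * tal w) Lam) (k - u0 - tsh w) with hg2
          have g10 : 0 ≤ g1 := gw_nonneg _ _
          have g20 : 0 ≤ g2 := gw_nonneg _ _
          set C := (N : ℝ) / Lam * B ^ j with hCdef
          have e : ∑ l ∈ tL W j, lam ^ told LB (w :: l) * ∑ u ∈ range N,
                (if (Lam : ℤ) ∣ (u : ℤ) + u0 then 1 else 0) * twa k (w :: l) u
              = o * ((∑ l ∈ tL W j, lam ^ told (LB * tal w) l *
                ∑ u ∈ range N, (if (Lam : ℤ) ∣ (u : ℤ) + u0 then 1 else 0) *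
                ((if (ta w : ℤ) ∣ (u : ℤ) + (k - tsh w) then 1 else 0) * twa (tnx k w) l u))
                  / tal w + ∑ l ∈ tL W j, lam ^ told (LB * tal w) l *
                ∑ u ∈ range N, (if (Lam : ℤ) ∣ (u : ℤ) + u0 then 1 else 0) *
                ((if ((ta w * tal w : ℕ) : ℤ) ∣ (u : ℤ) + (k - tsh w) then 1 else 0) *
                  twa (tnx k w) l u)) := by
            rw [Finset.sum_div, ← Finset.sum_add_distrib, Finset.mul_sum]
            refine Finset.sum_congr rfl fun l _ => ?_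
            rw [told, pow_add, ← ho, mul_div_assoc, ← mul_add, mul_assoc, Finset.sum_div,
              ← Finset.sum_add_distrib]
            congr 2
            refine Finset.sum_congr rfl fun u _ => ?_
            rw [twa, teta]; ring
          rw [e]
          have b1 : C * (g1 / ta w) / tal w ≤ C / Hl * g1 := by
            rw [show C * (g1 / ta w) / tal w = C / (ta w * tal w) * g1 by field_simp]
            gcongr
            exact hlow w hw
          have b2 : C * (g2 / (ta w * tal w : ℕ)) ≤ C / Hl * g2 := by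
            push_cast
            rw [show C * (g2 / (ta w * tal w)) = C / (ta w * tal w) * g2 by field_simp]
            gcongr
            exact hlow w hw
          have b3 := div_le_div_of_nonneg_right a1 w2.le
          calc _ ≤ o * (C / Hl * g1 + C / Hl * g2) :=
                mul_le_mul_of_nonneg_left (add_le_add (b3.trans b1) (a2.trans b2)) ho0
            _ = _ := by ring
      _ ≤ (N : ℝ) / Lam * B ^ j / Hl * (Hl * B) := by
          rw [← Finset.mul_sum]
          exact mul_le_mul_of_nonneg_left hs (by positivity)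
      _ = (N : ℝ) / Lam * B ^ (j + 1) := by rw [pow_succ]; field_simp

end Pool.Agent.H84D
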