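import Mathlib

/-!
Sums of periodic functions on the integers, and small arithmetic lemmas.
-/

open Finset

namespace Pool.Agent.H84D

theorem per_shift_one {φ : ℤ → ℝ} {P : ℕ} (h : Function.Periodic φ (P : ℤ)) (A : ℤ) :
    ∑ i ∈ range P, φ (A + 1 + i) = ∑ i ∈ range P, φ (A + i) := by
  have h1 := Finset.sum_range_succ (fun i : ℕ => φ (A + i)) P
  have h2 := Finset.sum_range_succ' (fun i : ℕ => φ (A + i)) P
  have h3 : φ (A + P) = φ A := h A
  have h4 : ∑ i ∈ range P, φ (A + ((i + 1 : ℕ) : ℤ)) = ∑ i ∈ range P, φ (A + 1 + i) :=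
    Finset.sum_congr rfl fun i _ => by congr 1; push_cast; ring
  simp only [Nat.cast_zero, add_zero] at h2
  rw [h4] at h2
  linarith

theorem per_shift {φ : ℤ → ℝ} {P : ℕ} (h : Function.Periodic φ (P : ℤ)) (A : ℤ) :
    ∑ i ∈ range P, φ (A + i) = ∑ i ∈ range P, φ i := by
  induction A using Int.induction_on with
  | zero => simp
  | succ n ih => rw [per_shift_one h, ih]
  | pred n ih =>
    rw [← ih, ← per_shift_one h (-(n : ℤ) - 1)]
    exact Finset.sum_congr rfl fun i _ => by congr 1; ring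

theorem per_mul {φ : ℤ → ℝ} {P : ℕ} (h : Function.Periodic φ (P : ℤ)) (A : ℤ) (c : ℕ) :
    ∑ i ∈ range (P * c), φ (A + i) = c * ∑ i ∈ range P, φ i := by
  induction c with
  | zero => simp
  | succ c ih =>
    rw [Nat.mul_succ, Finset.sum_range_add, ih]
    have : ∑ i ∈ range P, φ (A + ((P * c + i : ℕ) : ℤ)) = ∑ i ∈ range P, φ i := by
      rw [← per_shift h (A + (P * c : ℕ))]
      exact Finset.sum_congr rfl fun i _ => by congr 1; push_cast; ring
    rw [this]; push_cast; ring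

theorem per_two {φ : ℤ → ℝ} {P N : ℕ} (h : Function.Periodic φ (P : ℤ))
    (h' : Function.Periodic φ (N : ℤ)) :
    (N : ℝ) * ∑ i ∈ range P, φ i = P * ∑ i ∈ range N, φ i := by
  rw [← per_mul h 0 N, ← per_mul h' 0 P, Nat.mul_comm]

theorem per_le {φ : ℤ → ℝ} {P N : ℕ} (hP : 0 < P) (hN : 0 < N) (h : Function.Periodic φ (P : ℤ))
    (h' : Function.Periodic φ (N : ℤ)) (hb : ∀ u, |φ u| ≤ 1) (A : ℤ) (len : ℕ) :
    |∑ i ∈ range len, φ (A + i)| ≤ (len : ℝ) / N * |∑ i ∈ range N, φ i| + P := by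
  have hP' : (0 : ℝ) < P := by exact_mod_cast hP
  have hN' : (0 : ℝ) < N := by exact_mod_cast hN
  have e : len = P * (len / P) + len % P := (Nat.div_add_mod len P).symm
  have hr : len % P < P := Nat.mod_lt _ hP
  set c := len / P with hc
  set ρ := len % P with hρ
  have h1 : ∑ i ∈ range len, φ (A + i)
      = c * ∑ i ∈ range P, φ i + ∑ i ∈ range ρ, φ (A + ((P * c + i : ℕ) : ℤ)) := by
    conv_lhs => rw [e]
    rw [Finset.sum_range_add, per_mul h]
  have h2 : |∑ i ∈ range ρ, φ (A + ((P * c + i : ℕ) : ℤ))| ≤ P := by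
    refine (Finset.abs_sum_le_sum_abs _ _).trans ?_
    refine (Finset.sum_le_sum fun i _ => hb _).trans ?_
    simp only [Finset.sum_const, Finset.card_range, nsmul_eq_mul, mul_one]
    exact_mod_cast hr.le
  have h3 : ∑ i ∈ range P, φ i = P / N * ∑ i ∈ range N, φ i := by
    have := per_two h h'
    field_simp
    linarith
  have h4 : (c : ℝ) * P ≤ len := by
    have : c * P ≤ len := Nat.div_mul_le_self len P
    exact_mod_cast this
  rw [h1]
  refine (abs_add_le _ _).trans (add_le_add ?_ h2)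
  rw [h3, ← mul_assoc, abs_mul, abs_of_nonneg (by positivity)]
  refine mul_le_mul_of_nonneg_right ?_ (abs_nonneg _)
  rw [← mul_div_assoc]
  gcongr

theorem ind_periodic (d : ℕ) (c : ℤ) (M : ℤ) (hM : (d : ℤ) ∣ M) :
    Function.Periodic (fun u : ℤ => if (d : ℤ) ∣ u + c then (1 : ℝ) else 0) M := by
  intro u
  have : (d : ℤ) ∣ u + M + c ↔ (d : ℤ) ∣ u + c := by
    rw [show u + M + c = u + c + M by ring]
    exact dvd_add_left hM
  simp only [this]

theorem sum_ind_one {d : ℕ} (hd : 0 < d) (c : ℤ) :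
    ∑ i ∈ range d, (if (d : ℤ) ∣ (i : ℤ) + c then (1 : ℝ) else 0) = 1 := by
  have h := per_shift (ind_periodic d 0 d dvd_rfl) c
  have e : ∑ i ∈ range d, (if (d : ℤ) ∣ (i : ℤ) + c then (1 : ℝ) else 0)
      = ∑ i ∈ range d, (if (d : ℤ) ∣ c + (i : ℤ) + 0 then (1 : ℝ) else 0) :=
    Finset.sum_congr rfl fun i _ => by rw [add_zero, add_comm]
  rw [e, h, Finset.sum_eq_single 0]
  · simp
  · intro i hi h0
    rw [if_neg]
    rw [add_zero, Int.natCast_dvd_natCast]
    exact Nat.not_dvd_of_pos_of_lt (Nat.pos_of_ne_zero h0) (Finset.mem_range.1 hi)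
  · intro h0
    exact absurd (Finset.mem_range.2 hd) h0

theorem sum_ind_dvd {d N : ℕ} (hd : 0 < d) (hN : d ∣ N) (c : ℤ) :
    ∑ i ∈ range N, (if (d : ℤ) ∣ (i : ℤ) + c then (1 : ℝ) else 0) = (N : ℝ) / d := by
  obtain ⟨e, rfl⟩ := hN
  have h := per_mul (ind_periodic d c d dvd_rfl) 0 e
  simp only [zero_add] at h
  rw [h, sum_ind_one hd]
  have : (d : ℝ) ≠ 0 := by exact_mod_cast hd.ne'
  push_cast
  field_simp

theorem sum_centred_zero {ψ : ℤ → ℝ} {M d : ℕ} (hd : 0 < d) (hψ : Function.Periodic ψ (M : ℤ))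
    (hc : Nat.Coprime d M) (t : ℤ) :
    ∑ i ∈ range (M * d), ψ i * ((if (d : ℤ) ∣ (i : ℤ) + t then 1 else 0) - 1 / (d : ℝ)) = 0 := by
  let S : ℤ → ℝ := fun t => ∑ i ∈ range (M * d), ψ i * (if (d : ℤ) ∣ (i : ℤ) + t then 1 else 0)
  have hψ' : Function.Periodic ψ ((M * d : ℕ) : ℤ) := by
    intro u
    have h2 := (hψ.int_mul (d : ℤ)) u
    rw [← h2]; congr 1; push_cast; ring
  have p1 : Function.Periodic S (d : ℤ) := by
    intro t
    refine Finset.sum_congr rfl fun i _ => ?_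
    have : (d : ℤ) ∣ (i : ℤ) + (t + d) ↔ (d : ℤ) ∣ (i : ℤ) + t := by
      rw [← add_assoc]; exact dvd_add_left dvd_rfl
    simp only [this]
  have p2 : Function.Periodic S (M : ℤ) := by
    intro t
    have hper : Function.Periodic
        (fun u : ℤ => ψ u * (if (d : ℤ) ∣ u + t then (1 : ℝ) else 0)) ((M * d : ℕ) : ℤ) := by
      intro u
      have h3 := ind_periodic d t ((M * d : ℕ) : ℤ) (by push_cast; exact Dvd.intro_left _ rfl) u
      simp only at h3 ⊢
      rw [hψ' u, h3]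
    have h4 := per_shift hper (M : ℤ)
    show ∑ i ∈ range (M * d), ψ i * (if (d : ℤ) ∣ (i : ℤ) + (t + M) then 1 else 0) = S t
    refine Eq.trans (Finset.sum_congr rfl fun i _ => ?_) h4
    rw [add_comm (M : ℤ) i, hψ i, show (i : ℤ) + (t + M) = i + M + t by ring]
  obtain ⟨x, y, hxy⟩ : IsCoprime (d : ℤ) (M : ℤ) := Nat.isCoprime_iff_coprime.2 hc
  have p3 : Function.Periodic S 1 := by
    rw [← hxy]
    exact (p1.int_mul x).add_period (p2.int_mul y)
  have p4 : ∀ j : ℕ, S (t + j) = S t := by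
    intro j
    have := (p3.int_mul (j : ℤ)) t
    simpa using this
  have h5 : (d : ℝ) * S t = ∑ i ∈ range (M * d), ψ i := by
    have e1 : ∑ j ∈ range d, S (t + j) = d * S t := by
      simp only [p4, Finset.sum_const, Finset.card_range, nsmul_eq_mul]
    rw [← e1]
    show ∑ j ∈ range d, ∑ i ∈ range (M * d),
      ψ i * (if (d : ℤ) ∣ (i : ℤ) + (t + j) then 1 else 0) = _
    rw [Finset.sum_comm]
    refine Finset.sum_congr rfl fun i _ => ?_
    rw [← Finset.mul_sum]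
    have := sum_ind_one hd ((i : ℤ) + t)
    have e2 : ∑ j ∈ range d, (if (d : ℤ) ∣ (i : ℤ) + (t + j) then (1 : ℝ) else 0)
        = ∑ j ∈ range d, (if (d : ℤ) ∣ (j : ℤ) + (i + t) then (1 : ℝ) else 0) :=
      Finset.sum_congr rfl fun j _ => by rw [show (i : ℤ) + (t + j) = j + (i + t) by ring]
    rw [e2, this, mul_one]
  have hd' : (d : ℝ) ≠ 0 := by exact_mod_cast hd.ne'
  simp only [mul_sub, Finset.sum_sub_distrib]
  rw [← Finset.sum_mul, ← h5]
  show S t - _ = 0
  field_simp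
  ring

theorem crt_two (L x : ℕ) (u0 t : ℤ) : ∃ u1 : ℤ, ∀ u : ℤ,
    ((L : ℤ) ∣ u + u0 ∧ (x : ℤ) ∣ u + t) ↔
      (((Nat.gcd x L : ℕ) : ℤ) ∣ t - u0 ∧ ((Nat.lcm L x : ℕ) : ℤ) ∣ u + u1) := by
  by_cases h : ((Nat.gcd x L : ℕ) : ℤ) ∣ t - u0
  · obtain ⟨e, he⟩ := h
    have hb := Nat.gcd_eq_gcd_ab x L
    refine ⟨u0 + L * (Nat.gcdB x L * e), fun u => ?_⟩
    have e1 : (L : ℤ) ∣ u + u0 ↔ (L : ℤ) ∣ u + (u0 + L * (Nat.gcdB x L * e)) := by
      rw [← add_assoc]; exact (dvd_add_left (Dvd.intro _ rfl)).symm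
    have e2 : (x : ℤ) ∣ u + t ↔ (x : ℤ) ∣ u + (u0 + L * (Nat.gcdB x L * e)) := by
      have : u + t = u + (u0 + L * (Nat.gcdB x L * e)) + x * (Nat.gcdA x L * e) := by
        have : t = u0 + (x * Nat.gcdA x L + L * Nat.gcdB x L) * e := by rw [← hb]; linarith
        rw [this]; ring
      rw [this]; exact dvd_add_left (Dvd.intro _ rfl)
    rw [e1, e2]
    constructor
    · rintro ⟨h1, h2⟩
      refine ⟨⟨e, he⟩, ?_⟩
      rw [Int.natCast_dvd] at h1 h2 ⊢
      exact Nat.lcm_dvd h1 h2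
    · rintro ⟨_, h2⟩
      exact ⟨(Int.natCast_dvd_natCast.2 (Nat.dvd_lcm_left L x)).trans h2,
        (Int.natCast_dvd_natCast.2 (Nat.dvd_lcm_right L x)).trans h2⟩
  · refine ⟨0, fun u => ⟨fun ⟨h1, h2⟩ => absurd ?_ h, fun h1 => absurd h1.1 h⟩⟩
    have a1 := (Int.natCast_dvd_natCast.2 (Nat.gcd_dvd_right x L)).trans h1
    have a2 := (Int.natCast_dvd_natCast.2 (Nat.gcd_dvd_left x L)).trans h2
    have := dvd_sub a2 a1
    rwa [show u + t - (u + u0) = t - u0 by ring] at this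

theorem om_mul {a b : ℕ} (ha : a ≠ 0) (hb : b ≠ 0) :
    (a * b).primeFactorsList.length = a.primeFactorsList.length + b.primeFactorsList.length := by
  rw [(Nat.perm_primeFactorsList_mul ha hb).length_eq, List.length_append]

theorem tau_le_two_pow (n : ℕ) : n.divisors.card ≤ 2 ^ n.primeFactorsList.length := by
  induction n using Nat.recOnMul with
  | zero => simp
  | one => simp
  | prime p hp => rw [hp.divisors, Nat.primeFactorsList_prime hp]; exact Finset.card_le_two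
  | mul a b iha ihb =>
    by_cases ha : a = 0
    · simp [ha]
    by_cases hb : b = 0
    · simp [hb]
    rw [Nat.divisors_mul, om_mul ha hb, pow_add]
    exact Finset.card_mul_le.trans (Nat.mul_le_mul iha ihb)

theorem omega_le_om (n : ℕ) : n.primeFactors.card ≤ n.primeFactorsList.length :=
  List.toFinset_card_le _

end Pool.Agent.H84D
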