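import Mathlib

/-!
A quadratic form of a real symmetric kernel is bounded through the trace of an even power.
-/

open Finset Matrix

namespace Pool.Agent.H84D

theorem abs_le_theta (l θ : ℝ) (hθ : 0 < θ) (m : ℕ) (hm : 1 ≤ m) :
    |l| ≤ θ * (1 + l ^ (2 * m) / θ ^ (2 * m)) := by
  have h0 : 0 ≤ l ^ (2 * m) / θ ^ (2 * m) := by
    apply div_nonneg
    · rw [pow_mul]; positivity
    · positivity
  by_cases h : |l| ≤ θ
  · nlinarith
  · push Not at h
    have h1 : 1 ≤ |l| / θ := by rw [le_div_iff₀ hθ]; linarith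
    have h2 : |l| / θ ≤ (|l| / θ) ^ (2 * m) := le_self_pow₀ h1 (by omega)
    have h3 : (|l| / θ) ^ (2 * m) = l ^ (2 * m) / θ ^ (2 * m) := by
      rw [div_pow, pow_mul |l|, sq_abs, ← pow_mul]
    rw [h3, div_le_iff₀ hθ] at h2
    nlinarith

theorem quad_le_trace {ι : Type*} [Fintype ι] [DecidableEq ι] (A : Matrix ι ι ℝ)
    (hA : A.IsHermitian) (m : ℕ) (hm : 1 ≤ m) (θ : ℝ) (hθ : 0 < θ) (x : ι → ℝ) :
    |x ⬝ᵥ A *ᵥ x| ≤ θ * (1 + (A ^ (2 * m)).trace / θ ^ (2 * m)) * (x ⬝ᵥ x) := by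
  set U : Matrix ι ι ℝ := (hA.eigenvectorUnitary : Matrix ι ι ℝ) with hU
  set l : ι → ℝ := hA.eigenvalues with hl
  have h1 : star U * U = 1 := Unitary.coe_star_mul_self hA.eigenvectorUnitary
  have h2 : U * star U = 1 := Unitary.coe_mul_star_self hA.eigenvectorUnitary
  have hs : A = U * diagonal l * star U := by
    have := hA.spectral_theorem
    rw [Unitary.conjStarAlgAut_apply] at this
    simpa [hU, hl] using this
  have hp : ∀ n : ℕ, A ^ n = U * diagonal (fun i => l i ^ n) * star U := by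
    intro n
    induction n with
    | zero => simp [h2]
    | succ n ih =>
      rw [pow_succ, ih]
      conv_lhs => rw [hs]
      calc U * diagonal (fun i => l i ^ n) * star U * (U * diagonal l * star U)
          = U * (diagonal (fun i => l i ^ n) * (star U * U) * diagonal l) * star U := by
            simp only [Matrix.mul_assoc]
        _ = U * diagonal (fun i => l i ^ (n + 1)) * star U := by
            rw [h1, Matrix.mul_one, diagonal_mul_diagonal]
            simp only [pow_succ]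
  have htr : (A ^ (2 * m)).trace = ∑ i, l i ^ (2 * m) := by
    rw [hp, trace_mul_comm, ← Matrix.mul_assoc, h1, Matrix.one_mul, trace_diagonal]
  set y : ι → ℝ := star U *ᵥ x with hy
  have hT : star U = Uᵀ := by
    ext i j; simp [Matrix.star_apply]
  have hxU : x ᵥ* U = y := by
    rw [hy, hT, mulVec_transpose]
  have hq : x ⬝ᵥ A *ᵥ x = ∑ i, l i * y i ^ 2 := by
    conv_lhs => rw [hs]
    rw [← mulVec_mulVec, ← mulVec_mulVec, dotProduct_mulVec, hxU, ← hy]
    simp only [dotProduct, mulVec_diagonal]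
    exact Finset.sum_congr rfl fun i _ => by ring
  have hn : x ⬝ᵥ x = ∑ i, y i ^ 2 := by
    have : x ⬝ᵥ x = x ⬝ᵥ (U * star U) *ᵥ x := by rw [h2, one_mulVec]
    rw [this, ← mulVec_mulVec, dotProduct_mulVec, hxU, ← hy]
    simp only [dotProduct]
    exact Finset.sum_congr rfl fun i _ => by ring
  rw [hq, hn, htr, Finset.mul_sum]
  refine (Finset.abs_sum_le_sum_abs _ _).trans (Finset.sum_le_sum fun i _ => ?_)
  rw [abs_mul, abs_of_nonneg (sq_nonneg (y i))]
  refine mul_le_mul_of_nonneg_right ?_ (sq_nonneg _)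
  refine (abs_le_theta (l i) θ hθ m hm).trans ?_
  have : l i ^ (2 * m) ≤ ∑ j, l j ^ (2 * m) :=
    Finset.single_le_sum (f := fun j => l j ^ (2 * m))
      (fun j _ => by rw [pow_mul]; positivity) (Finset.mem_univ i)
  gcongr

/-- iterated kernel on the finite set `I` -/
noncomputable def tKp (K : ℤ → ℤ → ℝ) (I : Finset ℤ) : ℕ → ℤ → ℤ → ℝ
  | 0, k, k' => if k = k' then 1 else 0
  | n + 1, k, k' => ∑ j ∈ I, K k j * tKp K I n j k'

theorem ker_le_trace (K : ℤ → ℤ → ℝ) (I : Finset ℤ) (hK : ∀ k j, K k j = K j k)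
    (m : ℕ) (hm : 1 ≤ m) (θ : ℝ) (hθ : 0 < θ) (x : ℤ → ℝ) :
    |∑ k ∈ I, ∑ j ∈ I, x k * K k j * x j|
      ≤ θ * (1 + (∑ k ∈ I, tKp K I (2 * m) k k) / θ ^ (2 * m)) * ∑ k ∈ I, x k ^ 2 := by
  let A : Matrix I I ℝ := Matrix.of fun i j => K i j
  have hA : A.IsHermitian := by
    ext i j
    simp [A, hK (i : ℤ) j]
  have hp : ∀ (n : ℕ) (i j : I), (A ^ n) i j = tKp K I n i j := by
    intro n
    induction n with
    | zero =>
      intro i j
      simp only [pow_zero, tKp, Matrix.one_apply, Subtype.ext_iff]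
    | succ n ih =>
      intro i j
      rw [pow_succ', Matrix.mul_apply, tKp, ← Finset.sum_coe_sort I]
      exact Finset.sum_congr rfl fun k _ => by rw [ih]; rfl
  have h := quad_le_trace A hA m hm θ hθ (fun i => x i)
  have e1 : (fun i : I => x i) ⬝ᵥ A *ᵥ (fun i : I => x i)
      = ∑ k ∈ I, ∑ j ∈ I, x k * K k j * x j := by
    rw [← Finset.sum_coe_sort I]
    simp only [dotProduct, mulVec]
    refine Finset.sum_congr rfl fun k _ => ?_
    rw [← Finset.sum_coe_sort I, Finset.mul_sum]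
    exact Finset.sum_congr rfl fun j _ => by simp [A, mul_assoc]
  have e2 : (fun i : I => x i) ⬝ᵥ (fun i : I => x i) = ∑ k ∈ I, x k ^ 2 := by
    rw [← Finset.sum_coe_sort I]
    simp only [dotProduct, sq]
  have e3 : (A ^ (2 * m)).trace = ∑ k ∈ I, tKp K I (2 * m) k k := by
    rw [← Finset.sum_coe_sort I]
    simp only [Matrix.trace, Matrix.diag, hp]
  rwa [e1, e2, e3] at h

end Pool.Agent.H84D
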