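import Pool.Agent.H84D.TrInd

/-!
The mean of the trace over the translates.
-/

open Finset

namespace Pool.Agent.H84D

variable {QQ : Finset ℕ} {F : Finset (ℕ × ℕ)} {Y1 Y2 z s : ℕ} {φ : ℝ}

theorem mem_tW {w : TStep} (hw : w ∈ tW QQ F) :
    w.1 ∈ QQ ∧ w.2.1 ∈ F ∧ w.2.2 ∈ F ∧ w.2.1.1 = w.2.2.1 := by
  rw [tW, Finset.mem_product, Finset.mem_filter, Finset.mem_product] at hw
  exact ⟨hw.1, hw.2.1.1, hw.2.1.2, hw.2.2⟩

theorem tW_cop (h : TrHyp QQ F Y1 Y2 z s φ) {w w' : TStep} (hw : w ∈ tW QQ F)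
    (hw' : w' ∈ tW QQ F) : Nat.Coprime (ta w') (tal w) :=
  tr_cop_of_primes h.zY (tr_a_primes h (mem_tW hw').2.1) (h.qrough _ (mem_tW hw).1)

theorem tW_card (h : TrHyp QQ F Y1 Y2 z s φ) :
    ((tW QQ F).card : ℝ) ≤ (F.card : ℝ) * φ * Y1 := by
  have h1 := tr_sum_tW h (fun _ _ => 1) (fun _ _ => zero_le_one)
  simp only [Finset.sum_const, nsmul_eq_mul, mul_one] at h1
  have h2 : QQ.card ≤ Y1 := by
    rw [← Finset.card_range Y1]
    exact Finset.card_le_card fun q hq => Finset.mem_range.2 (by have := h.qle q hq; omega)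
  have h3 : (QQ.card : ℝ) ≤ Y1 := by exact_mod_cast h2
  have h4 := tr_phi_nonneg h
  calc _ ≤ φ * ((F.card : ℝ) * QQ.card) := h1
    _ ≤ φ * ((F.card : ℝ) * Y1) := by gcongr
    _ = _ := by ring

theorem step_all (h : TrHyp QQ F Y1 Y2 z s φ) (K : ℕ) (NF ε : ℝ) (hNF0 : 0 < NF)
    (hNF : (F.card : ℝ) ≤ NF) (hε : 0 < ε) (hY : 0 < Y1)
    (h1 : (K : ℝ) * (1 / (z : ℝ) + (Y2 : ℝ) / Y1) + 4 ^ K * ((Y2 : ℝ) / NF) ≤ ε)
    (Lam LA LB : ℕ) (c : ℤ) (hLA : LA ≠ 0) (hLB : LB ≠ 0) (hdvd : Lam ∣ LA * LB)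
    (hA : ∀ p : ℕ, p.Prime → p ∣ LA → p ≤ Y2) (hB : ∀ p : ℕ, p.Prime → p ∣ LB → z ≤ p)
    (oA : LA.primeFactorsList.length ≤ K) (oB : LB.primeFactorsList.length ≤ K) :
    ∑ w ∈ tW QQ F, (1 / ε) ^ (if Nat.Coprime (tal w) LB then 0 else 1) *
        (gw (Nat.gcd (ta w) Lam) (c - tsh w) + gw (Nat.gcd (ta w * tal w) Lam) (c - tsh w))
      ≤ 8 * (NF * φ * Y1) := by
  have hφ := tr_phi_nonneg h
  have hY' : (0 : ℝ) < Y1 := by exact_mod_cast hY
  have hz' : (0 : ℝ) < z := by have := h.z3; positivity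
  have hYle : (Y2 : ℝ) ≤ Y1 := by exact_mod_cast h.Yle
  have sA := stepA h Lam c
  have sB := stepB h Lam LB c hLB
  have sC := stepC h Lam LA LB c hLA hLB hdvd hA hB
  rw [Finset.sum_filter] at sB sC
  have pt : ∀ w ∈ tW QQ F, (1 / ε) ^ (if Nat.Coprime (tal w) LB then 0 else 1) *
        (gw (Nat.gcd (ta w) Lam) (c - tsh w) + gw (Nat.gcd (ta w * tal w) Lam) (c - tsh w))
      ≤ 2 * gw (Nat.gcd (ta w) Lam) (c - tsh w) + 1 / ε *
        (2 * (if ¬ Nat.Coprime (tal w) LB then gw (Nat.gcd (ta w) Lam) (c - tsh w) else 0) +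
          (if Nat.gcd (tal w) Lam ≠ 1 then gw (Nat.gcd (ta w * tal w) Lam) (c - tsh w) else 0)) := by
    intro w hw
    have g1 := gw_nonneg (Nat.gcd (ta w) Lam) (c - tsh w)
    have g2 := gw_nonneg (Nat.gcd (ta w * tal w) Lam) (c - tsh w)
    have e0 : 0 < 1 / ε := by positivity
    by_cases hg : Nat.gcd (tal w) Lam = 1
    · have e : Nat.gcd (ta w * tal w) Lam = Nat.gcd (ta w) Lam :=
        Nat.Coprime.gcd_mul_right_cancel _ hg
      rw [e, if_neg (not_not.2 hg)]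
      by_cases hn : Nat.Coprime (tal w) LB
      · rw [if_pos hn, if_neg (not_not.2 hn)]; simp [two_mul]
      · rw [if_neg hn, if_pos hn, pow_one]; nlinarith
    · have hn : ¬ Nat.Coprime (tal w) LB := fun hn => hg
        (((tr_cop_of_primes h.zY hA (h.qrough _ (mem_tW hw).1)).symm.mul_right
          hn).coprime_dvd_right hdvd)
      rw [if_neg hn, if_pos hn, if_pos hg, pow_one]
      nlinarith [mul_nonneg e0.le g1]
  refine (Finset.sum_le_sum pt).trans ?_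
  rw [Finset.sum_add_distrib, ← Finset.mul_sum, ← Finset.mul_sum, Finset.sum_add_distrib,
    ← Finset.mul_sum]
  have o1 : (LB.primeFactors.card : ℝ) ≤ K := by exact_mod_cast (omega_le_om LB).trans oB
  have o2 : (LB.divisors.card : ℝ) ≤ 2 ^ K := by
    exact_mod_cast (tau_le_two_pow LB).trans (Nat.pow_le_pow_right two_pos oB)
  have o3 : (LA.divisors.card : ℝ) ≤ 2 ^ K := by
    exact_mod_cast (tau_le_two_pow LA).trans (Nat.pow_le_pow_right two_pos oA)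
  have o4 : (1 : ℝ) ≤ 2 ^ K := one_le_pow₀ one_le_two
  have o5 : (4 : ℝ) ^ K = 2 ^ K * 2 ^ K := by rw [← mul_pow]; norm_num
  set D := NF * φ * Y1 with hD
  have hD0 : 0 ≤ D := by positivity
  have a1 : (F.card : ℝ) * φ * ((Y1 : ℝ) + Y2) ≤ 2 * D := by
    calc _ ≤ NF * φ * ((Y1 : ℝ) + Y1) := by gcongr
      _ = 2 * D := by rw [hD]; ring
  have a2 : (LB.primeFactors.card : ℝ) * ((F.card : ℝ) * φ * ((Y1 : ℝ) / z + Y2))
      ≤ D * ((K : ℝ) * (1 / (z : ℝ) + (Y2 : ℝ) / Y1)) := by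
    calc _ ≤ (K : ℝ) * (NF * φ * ((Y1 : ℝ) / z + Y2)) := by gcongr
      _ = _ := by rw [hD]; field_simp
  have a3 : (LB.divisors.card : ℝ) * ((Y1 : ℝ) * φ * Y2 * (1 + (LA.divisors.card : ℝ)))
      ≤ 2 * (D * (4 ^ K * ((Y2 : ℝ) / NF))) := by
    calc _ ≤ (2 : ℝ) ^ K * ((Y1 : ℝ) * φ * Y2 * (2 ^ K + 2 ^ K)) := by gcongr
      _ = _ := by rw [hD, o5]; field_simp; ring
  have a4 : D * ((K : ℝ) * (1 / (z : ℝ) + (Y2 : ℝ) / Y1)) + D * (4 ^ K * ((Y2 : ℝ) / NF))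
      ≤ D * ε := by
    rw [← mul_add]; exact mul_le_mul_of_nonneg_left h1 hD0
  have a5 : 1 / ε * (2 * (D * ε)) = 2 * D := by field_simp
  have a6 := mul_le_mul_of_nonneg_left
    (show 2 * (∑ w ∈ tW QQ F, if ¬ Nat.Coprime (tal w) LB then
        gw (Nat.gcd (ta w) Lam) (c - tsh w) else 0) + (∑ w ∈ tW QQ F,
        if Nat.gcd (tal w) Lam ≠ 1 then gw (Nat.gcd (ta w * tal w) Lam) (c - tsh w) else 0)
      ≤ 2 * (D * ε) by linarith) (show 0 ≤ 1 / ε by positivity)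
  linarith

theorem tnx_mem (h : TrHyp QQ F Y1 Y2 z s φ) {w : TStep} (hw : w ∈ tW QQ F) :
    0 ≤ tsh w ∧ tsh w ≤ 8 * ((Y1 * Y2 : ℕ) : ℤ) ∧ 0 ≤ tsh' w ∧ tsh' w ≤ 8 * ((Y1 * Y2 : ℕ) : ℤ) := by
  obtain ⟨h1, h2, h3, _⟩ := mem_tW hw
  have a1 : (w.1 : ℤ) + 2 ≤ Y1 := by have := h.qle _ h1; omega
  have a2 : (w.2.1.2 : ℤ) ≤ Y2 := by exact_mod_cast h.ble _ h2
  have a3 : (w.2.2.2 : ℤ) ≤ Y2 := by exact_mod_cast h.ble _ h3
  unfold tsh tsh'
  push_cast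
  refine ⟨by positivity, ?_, by positivity, ?_⟩ <;> rw [mul_assoc] <;> gcongr

theorem trace_mean (h : TrHyp QQ F Y1 Y2 z s φ) (r : ℕ) (NF ε Hl : ℝ) (hNF0 : 0 < NF)
    (hNF : (F.card : ℝ) ≤ NF) (hε : 0 < ε) (hε1 : ε ≤ 1) (hY : 0 < Y1) (hHl : 0 < Hl)
    (hlow : ∀ q ∈ QQ, ∀ x ∈ F, Hl ≤ (x.1 : ℝ) * ((q : ℝ) + 4))
    (h1 : ((2 * (s + 1) * r * s : ℕ) : ℝ) * (1 / (z : ℝ) + (Y2 : ℝ) / Y1)
      + 4 ^ (2 * (s + 1) * r * s) * ((Y2 : ℝ) / NF) ≤ ε) (A0 : ℤ) (len : ℕ) :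
    ∑ i ∈ range len, ∑ k ∈ Ico (0 : ℤ) (9 * ((Y1 * Y2 : ℕ) : ℤ)),
        tKp (tker (tW QQ F) (Y1 * Y2) (A0 + i)) (Ico (0 : ℤ) (9 * ((Y1 * Y2 : ℕ) : ℤ)))
          (2 * (s + 1) * r) k k
      ≤ 9 * ((Y1 : ℝ) * Y2) * (len * ((8 * (NF * φ * Y1) / Hl) ^ (2 * (s + 1) * r) * ε ^ (2 * r))
        + ((tW QQ F).card : ℝ) ^ (2 * (s + 1) * r) * ((Y1 : ℝ) * Y2) ^ (2 * (s + 1) * r)) := by
  set W := tW QQ F with hWdef
  set H := Y1 * Y2 with hH
  set n := 2 * (s + 1) * r with hn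
  set I := Ico (0 : ℤ) (9 * (H : ℤ)) with hI
  set B := 8 * (NF * φ * Y1) / Hl with hBdef
  have hφ := tr_phi_nonneg h
  have hB0 : 0 ≤ B := by positivity
  have hapos : ∀ w ∈ W, 0 < ta w := fun w hw => h.apos _ (mem_tW hw).2.1
  set N := ∏ w ∈ W, ta w * tal w with hNdef
  have hN0 : 0 < N := Finset.prod_pos fun w hw => Nat.mul_pos (hapos w hw) (tal_pos w)
  have hN0' : (0 : ℝ) < N := by exact_mod_cast hN0
  have hN : ∀ w ∈ W, ta w * tal w ∣ N := fun w hw => Finset.dvd_prod_of_mem _ hw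
  have hN2 : ∀ w ∈ W, ta w ∣ N ∧ tal w ∣ N := fun w hw =>
    ⟨(Dvd.intro _ rfl).trans (hN w hw), (Dvd.intro_left _ rfl).trans (hN w hw)⟩
  have hIm : ∀ w ∈ W, ∀ k : ℤ, 0 ≤ k - tsh w → k - tsh w < H → tnx k w ∈ I := by
    intro w hw k k1 k2
    obtain ⟨_, _, b3, b4⟩ := tnx_mem h hw
    rw [hI, Finset.mem_Ico, tnx]
    constructor <;> linarith
  have hlam : (1 : ℝ) ≤ 1 / ε := by rw [le_div_iff₀ hε]; linarith
  have hwalk : ∀ k : ℤ, ∑ l ∈ tL W n, (1 / ε) ^ told 1 l * ∑ u ∈ range N, twa k l u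
      ≤ N * B ^ n := by
    intro k
    have := walk_le W N Y2 z s n (1 / ε) B Hl hN0 hN (by linarith) hB0 hHl
      (fun w hw => by
        have := hlow _ (mem_tW hw).1 _ (mem_tW hw).2.1
        unfold ta tal; push_cast; exact this)
      (fun w hw => ⟨hapos w hw, h.ale _ (mem_tW hw).2.1, h.qrough _ (mem_tW hw).1,
        h.aom _ (mem_tW hw).2.1, h.qom _ (mem_tW hw).1⟩)
      (fun Lam LA LB c a1 a2 a3 a4 a5 a6 a7 => by
        have := step_all h (n * s) NF ε hNF0 hNF hε hY h1 Lam LA LB c a1 a2 a3 a4 a5 a6 a7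
        refine this.trans (le_of_eq ?_)
        rw [hBdef]; field_simp)
      n 0 1 1 1 0 k (by omega) one_ne_zero one_ne_zero (by simp)
      (fun p hp hd => absurd (Nat.dvd_one.1 hd) hp.ne_one)
      (fun p hp hd => absurd (Nat.dvd_one.1 hd) hp.ne_one) (by simp) (by simp) (one_dvd _)
    simpa using this
  have hone : ∀ k : ℤ, ∀ l ∈ tL W n, |∑ i ∈ range len, twt H k l (A0 + i)|
      ≤ (len : ℝ) / N * ε ^ (2 * r) * ((1 / ε) ^ told 1 l * ∑ u ∈ range N, twa k l u)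
        + ((Y1 : ℝ) * Y2) ^ n := by
    intro k l hl
    obtain ⟨l1, l2⟩ := mem_tL hl
    have p0 : 0 < tpa l * tpb l := Nat.mul_pos (tpa_pos fun w hw => hapos w (l2 w hw)) (tpb_pos l)
    have p1 := twt_periodic H ((tpa l * tpb l : ℕ) : ℤ) l (fun w hw =>
      ⟨Int.natCast_dvd_natCast.2 ((ta_dvd_tpa hw).mul_right _),
        Int.natCast_dvd_natCast.2 ((tal_dvd_tpb hw).mul_left _)⟩) k
    have p2 := twt_periodic H (N : ℤ) l (fun w hw =>
      ⟨Int.natCast_dvd_natCast.2 (hN2 w (l2 w hw)).1,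
        Int.natCast_dvd_natCast.2 (hN2 w (l2 w hw)).2⟩) k
    have p3 := per_le p0 hN0 p1 p2 (abs_twt_le H l k) A0 len
    have p4 : tpa l * tpb l ≤ H ^ n := by
      rw [← l1]
      refine tp_le fun w hw => ?_
      rw [hH, Nat.mul_comm Y1]
      exact Nat.mul_le_mul (h.ale _ (mem_tW (l2 w hw)).2.1) (h.qle _ (mem_tW (l2 w hw)).1)
    have p5 : ((tpa l * tpb l : ℕ) : ℝ) ≤ ((Y1 : ℝ) * Y2) ^ n := by
      have : ((tpa l * tpb l : ℕ) : ℝ) ≤ ((H ^ n : ℕ) : ℝ) := by exact_mod_cast p4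
      rw [hH] at this
      push_cast at this ⊢
      exact this
    refine p3.trans (add_le_add ?_ p5)
    rw [mul_assoc]
    refine mul_le_mul_of_nonneg_left ?_ (by positivity)
    have t0 : 0 ≤ ∑ u ∈ range N, twa k l u := Finset.sum_nonneg fun u _ => twa_nonneg _ _ _
    by_cases hok : tok 1 l
    · have c1 := old_count s l (fun w hw => (omega_le_om _).trans (h.qom _ (mem_tW (l2 w hw)).1))
        1 ∅ hok (by simp) (by simp) (by simp)
      have c2 : 2 * r ≤ told 1 l := by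
        rw [Finset.card_empty, zero_add, l1, hn] at c1
        refine Nat.le_of_mul_le_mul_left (c := s + 1) ?_ (Nat.succ_pos s)
        calc (s + 1) * (2 * r) = 2 * (s + 1) * r := by ring
          _ ≤ _ := c1
      have c3 : (1 / ε) ^ (2 * r) ≤ (1 / ε) ^ told 1 l := pow_le_pow_right₀ hlam c2
      have c4 : ε ^ (2 * r) * (1 / ε) ^ (2 * r) = 1 := by
        rw [← mul_pow, mul_one_div_cancel hε.ne', one_pow]
      have c5 : |∑ i ∈ range N, twt H k l i| ≤ ∑ u ∈ range N, twa k l u :=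
        (Finset.abs_sum_le_sum_abs _ _).trans (Finset.sum_le_sum fun u _ =>
          abs_twt_le_twa H l (fun w hw => tW_cop h (l2 w hw) (l2 w hw)) k u)
      calc _ ≤ ε ^ (2 * r) * ((1 / ε) ^ (2 * r) * ∑ u ∈ range N, twa k l u) := by
            rw [← mul_assoc, c4, one_mul]; exact c5
        _ ≤ _ := by gcongr
    · have c1 := vanish H W N hN2 hapos (fun w hw w' hw' => (tW_cop h hw hw').symm) l l2 1 1 k
        (fun _ => 1) one_pos one_pos (fun _ => rfl) (fun _ => rfl) (by simp) hok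
      simp only [one_mul] at c1
      rw [c1, abs_zero]
      positivity
  have hk : ∀ k ∈ I, ∑ i ∈ range len, tKp (tker W H (A0 + i)) I n k k
      ≤ len * (B ^ n * ε ^ (2 * r)) + (W.card : ℝ) ^ n * ((Y1 : ℝ) * Y2) ^ n := by
    intro k _
    simp only [tKp_eq W H _ I hIm]
    rw [Finset.sum_comm]
    calc _ ≤ ∑ l ∈ tL W n, ((len : ℝ) / N * ε ^ (2 * r) *
            ((1 / ε) ^ told 1 l * ∑ u ∈ range N, twa k l u) + ((Y1 : ℝ) * Y2) ^ n) := by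
          refine Finset.sum_le_sum fun l hl => le_trans ?_ (hone k l hl)
          by_cases he : ten k l = k
          · simp only [if_pos he]; exact le_abs_self _
          · simp only [if_neg he, Finset.sum_const_zero]; exact abs_nonneg _
      _ ≤ (len : ℝ) / N * ε ^ (2 * r) * (N * B ^ n)
            + (W.card : ℝ) ^ n * ((Y1 : ℝ) * Y2) ^ n := by
          rw [Finset.sum_add_distrib, sum_tL_const, ← Finset.mul_sum]
          exact add_le_add (mul_le_mul_of_nonneg_left (hwalk k) (by positivity)) le_rfl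
      _ = _ := by field_simp
  rw [Finset.sum_comm]
  refine (Finset.sum_le_sum hk).trans (le_of_eq ?_)
  rw [Finset.sum_const, nsmul_eq_mul, hI, Int.card_Ico]
  congr 1
  have : (9 * (H : ℤ) - 0).toNat = 9 * (Y1 * Y2) := by rw [hH]; omega
  rw [this]; push_cast; ring

end Pool.Agent.H84D
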