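import Pool.Agent.H84D.TrDefs
import Pool.Agent.H84D.TrSpec
import Pool.Agent.H84D.TrPer

/-!
Walks: expansion of the iterated kernel, vanishing of the period mean, the number of old steps.
-/

open Finset

namespace Pool.Agent.H84D

/-- lists of length `n` over `W` -/
def tL (W : Finset TStep) : ℕ → Finset (List TStep)
  | 0 => {[]}
  | n + 1 => (W ×ˢ tL W n).image fun p => p.1 :: p.2

theorem sum_tL_succ (W : Finset TStep) (n : ℕ) (f : List TStep → ℝ) :
    ∑ l ∈ tL W (n + 1), f l = ∑ w ∈ W, ∑ l ∈ tL W n, f (w :: l) := by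
  rw [tL, Finset.sum_image, Finset.sum_product]
  intro p _ q _ h
  simp only [List.cons.injEq] at h
  exact Prod.ext h.1 h.2

theorem mem_tL {W : Finset TStep} {n : ℕ} {l : List TStep} (h : l ∈ tL W n) :
    l.length = n ∧ ∀ w ∈ l, w ∈ W := by
  induction n generalizing l with
  | zero =>
    rw [tL, Finset.mem_singleton] at h
    subst h; simp
  | succ n ih =>
    rw [tL, Finset.mem_image] at h
    obtain ⟨p, hp, rfl⟩ := h
    rw [Finset.mem_product] at hp
    obtain ⟨h1, h2⟩ := ih hp.2
    refine ⟨by simp [h1], fun w hw => ?_⟩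
    rcases List.mem_cons.1 hw with rfl | hw
    · exact hp.1
    · exact h2 w hw

theorem sum_tL_const (W : Finset TStep) (n : ℕ) (c : ℝ) :
    ∑ _l ∈ tL W n, c = (W.card : ℝ) ^ n * c := by
  induction n with
  | zero => simp [tL]
  | succ n ih =>
    rw [sum_tL_succ W n (fun _ => c)]
    simp only [ih]
    rw [Finset.sum_const, nsmul_eq_mul]; ring

/-- the next vertex -/
def tnx (k : ℤ) (w : TStep) : ℤ := k - tsh w + tsh' w

/-- the weight of one step -/
noncomputable def tst (H : ℕ) (k : ℤ) (w : TStep) (u : ℤ) : ℝ :=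
  if 0 ≤ k - tsh w ∧ k - tsh w < H then txi (ta w) (tal w) (u + (k - tsh w)) else 0

/-- the weight of a walk -/
noncomputable def twt (H : ℕ) : ℤ → List TStep → ℤ → ℝ
  | _, [], _ => 1
  | k, w :: l, u => tst H k w u * twt H (tnx k w) l u

/-- the end point of a walk -/
def ten : ℤ → List TStep → ℤ
  | k, [] => k
  | k, w :: l => ten (tnx k w) l

/-- the localised kernel -/
noncomputable def tker (W : Finset TStep) (H : ℕ) (u k j : ℤ) : ℝ :=
  ∑ w ∈ W, if j = tnx k w then tst H k w u else 0

theorem tKp_eq (W : Finset TStep) (H : ℕ) (u : ℤ) (I : Finset ℤ)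
    (hI : ∀ w ∈ W, ∀ k : ℤ, 0 ≤ k - tsh w → k - tsh w < H → tnx k w ∈ I) (n : ℕ) (k k' : ℤ) :
    tKp (tker W H u) I n k k' = ∑ l ∈ tL W n, if ten k l = k' then twt H k l u else 0 := by
  induction n generalizing k with
  | zero => simp [tKp, tL, ten, twt]
  | succ n ih =>
    rw [tKp, sum_tL_succ]
    simp only [tker, Finset.sum_mul]
    rw [Finset.sum_comm]
    refine Finset.sum_congr rfl fun w hw => ?_
    simp only [ite_mul, zero_mul, Finset.sum_ite_eq', ten, twt]
    by_cases ht : 0 ≤ k - tsh w ∧ k - tsh w < H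
    · rw [if_pos (hI w hw k ht.1 ht.2), ih, Finset.mul_sum]
      refine Finset.sum_congr rfl fun l _ => ?_
      split_ifs <;> simp
    · have : tst H k w u = 0 := by rw [tst, if_neg ht]
      simp [this]

theorem txi_periodic (a al : ℕ) (c M : ℤ) (h1 : (a : ℤ) ∣ M) (h2 : (al : ℤ) ∣ M) :
    Function.Periodic (fun u => txi a al (u + c)) M := by
  intro u
  have e : u + M + c = u + c + M := by ring
  have e1 : (a : ℤ) ∣ u + c + M ↔ (a : ℤ) ∣ u + c := dvd_add_left h1
  have e2 : (al : ℤ) ∣ u + c + M ↔ (al : ℤ) ∣ u + c := dvd_add_left h2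
  simp only [txi, e, e1, e2]

theorem tst_periodic (H : ℕ) (k : ℤ) (w : TStep) (M : ℤ) (h1 : (ta w : ℤ) ∣ M)
    (h2 : (tal w : ℤ) ∣ M) : Function.Periodic (tst H k w) M := by
  intro u
  have := txi_periodic (ta w) (tal w) (k - tsh w) M h1 h2 u
  simp only at this
  simp only [tst, this]

theorem twt_periodic (H : ℕ) (M : ℤ) (l : List TStep)
    (h : ∀ w ∈ l, (ta w : ℤ) ∣ M ∧ (tal w : ℤ) ∣ M) (k : ℤ) :
    Function.Periodic (twt H k l) M := by
  induction l generalizing k with
  | nil => intro u; simp [twt]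
  | cons w l ih =>
    intro u
    have h1 := h w (List.mem_cons_self ..)
    rw [twt, twt, tst_periodic H k w M h1.1 h1.2 u,
      ih (fun w' hw' => h w' (List.mem_cons_of_mem _ hw')) _ u]

theorem tal_pos (w : TStep) : 0 < tal w := by unfold tal; omega

theorem tal_gt (w : TStep) : 1 < tal w := by unfold tal; omega

theorem abs_txi_le (a : ℕ) {al : ℕ} (h : 0 < al) (m : ℤ) : |txi a al m| ≤ 1 := by
  have h1 : (1 : ℝ) ≤ al := by exact_mod_cast h
  have h2 : 1 / (al : ℝ) ≤ 1 := by rw [div_le_one (by linarith)]; exact h1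
  have h3 : 0 ≤ 1 / (al : ℝ) := by positivity
  unfold txi
  split_ifs <;> rw [abs_le] <;> constructor <;> linarith

theorem abs_twt_le (H : ℕ) (l : List TStep) (k u : ℤ) : |twt H k l u| ≤ 1 := by
  induction l generalizing k with
  | nil => simp [twt]
  | cons w l ih =>
    rw [twt, abs_mul]
    refine mul_le_one₀ ?_ (abs_nonneg _) (ih _)
    unfold tst
    split_ifs
    · exact abs_txi_le _ (tal_pos w) _
    · simp

/-- product of the first moduli -/
def tpa (l : List TStep) : ℕ := (l.map ta).prod

/-- product of the second moduli -/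
def tpb (l : List TStep) : ℕ := (l.map tal).prod

theorem ta_dvd_tpa {l : List TStep} {w : TStep} (h : w ∈ l) : ta w ∣ tpa l :=
  List.dvd_prod (List.mem_map_of_mem h)

theorem tal_dvd_tpb {l : List TStep} {w : TStep} (h : w ∈ l) : tal w ∣ tpb l :=
  List.dvd_prod (List.mem_map_of_mem h)

theorem tpb_pos (l : List TStep) : 0 < tpb l := by
  induction l with
  | nil => simp [tpb]
  | cons w l ih => exact Nat.mul_pos (tal_pos w) ih

theorem tpa_pos {l : List TStep} (h : ∀ w ∈ l, 0 < ta w) : 0 < tpa l := by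
  induction l with
  | nil => simp [tpa]
  | cons w l ih =>
    exact Nat.mul_pos (h w (List.mem_cons_self ..))
      (ih fun w' hw' => h w' (List.mem_cons_of_mem _ hw'))

theorem cop_tpa {x : ℕ} {l : List TStep} (h : ∀ w ∈ l, Nat.Coprime x (ta w)) :
    Nat.Coprime x (tpa l) := by
  induction l with
  | nil => simp [tpa]
  | cons w l ih =>
    exact Nat.Coprime.mul_right (h w (List.mem_cons_self ..))
      (ih fun w' hw' => h w' (List.mem_cons_of_mem _ hw'))

theorem tp_le {l : List TStep} {H : ℕ} (h : ∀ w ∈ l, ta w * tal w ≤ H) :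
    tpa l * tpb l ≤ H ^ l.length := by
  induction l with
  | nil => simp [tpa, tpb]
  | cons w l ih =>
    have h1 := h w (List.mem_cons_self ..)
    have h2 := ih fun w' hw' => h w' (List.mem_cons_of_mem _ hw')
    calc tpa (w :: l) * tpb (w :: l) = (ta w * tal w) * (tpa l * tpb l) := by
          simp only [tpa, tpb, List.map_cons, List.prod_cons]; ring
      _ ≤ H * H ^ l.length := Nat.mul_le_mul h1 h2
      _ = H ^ (w :: l).length := by rw [List.length_cons, pow_succ']

/-- every second modulus meets another one -/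
def tok : ℕ → List TStep → Prop
  | _, [] => True
  | LB, w :: l => ¬ Nat.Coprime (tal w) (LB * tpb l) ∧ tok (LB * tal w) l

/-- the number of old steps -/
def told : ℕ → List TStep → ℕ
  | _, [] => 0
  | LB, w :: l => (if Nat.Coprime (tal w) LB then 0 else 1) + told (LB * tal w) l

theorem vanish (H : ℕ) (W : Finset TStep) (N : ℕ)
    (hN : ∀ w ∈ W, ta w ∣ N ∧ tal w ∣ N) (hapos : ∀ w ∈ W, 0 < ta w)
    (hc : ∀ w ∈ W, ∀ w' ∈ W, Nat.Coprime (tal w) (ta w')) (l : List TStep) (hl : ∀ w ∈ l, w ∈ W)
    (LA LB : ℕ) (k : ℤ) (ψ : ℤ → ℝ) (hLA : 0 < LA) (hLB : 0 < LB)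
    (hψ : Function.Periodic ψ ((LA * LB : ℕ) : ℤ)) (hψN : Function.Periodic ψ (N : ℤ))
    (hcA : ∀ w ∈ W, Nat.Coprime (tal w) LA) (hok : ¬ tok LB l) :
    ∑ i ∈ range N, ψ i * twt H k l i = 0 := by
  induction l generalizing LA LB k ψ with
  | nil => exact absurd trivial hok
  | cons w l ih =>
    have hw : w ∈ W := hl w (List.mem_cons_self ..)
    have hl' : ∀ w' ∈ l, w' ∈ W := fun w' hw' => hl w' (List.mem_cons_of_mem _ hw')
    have hwN : (ta w : ℤ) ∣ N ∧ (tal w : ℤ) ∣ N :=
      ⟨Int.natCast_dvd_natCast.2 (hN w hw).1, Int.natCast_dvd_natCast.2 (hN w hw).2⟩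
    have hmul : ∀ {f : ℤ → ℝ} {P Q : ℕ}, Function.Periodic f (P : ℤ) → P ∣ Q →
        Function.Periodic f (Q : ℤ) := by
      rintro f P Q hf ⟨e, rfl⟩ u
      rw [← (hf.int_mul (e : ℤ)) u]; congr 1; push_cast; ring
    by_cases h1 : Nat.Coprime (tal w) (LB * tpb l)
    · by_cases ht : 0 ≤ k - tsh w ∧ k - tsh w < H
      · set t := k - tsh w with htdef
        set M := LA * LB * (ta w * (tpa l * tpb l)) with hM
        let χ : ℤ → ℝ := fun u =>
          ψ u * (if (ta w : ℤ) ∣ u + t then 1 else 0) * twt H (tnx k w) l u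
        have hχ : Function.Periodic χ (M : ℤ) := by
          intro u
          have a1 := hmul hψ (Dvd.intro _ hM.symm) u
          have a2 := ind_periodic (ta w) t (M : ℤ) (Int.natCast_dvd_natCast.2
            (Dvd.dvd.mul_left (Dvd.intro _ rfl) _)) u
          have a3 := twt_periodic H (M : ℤ) l (fun w' hw' => ⟨Int.natCast_dvd_natCast.2
            ((((ta_dvd_tpa hw').mul_right _).mul_left _).mul_left _), Int.natCast_dvd_natCast.2
            ((((tal_dvd_tpb hw').mul_left _).mul_left _).mul_left _)⟩) (tnx k w) u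
          simp only at a2
          simp only [χ, a1, a2, a3]
        have hco : Nat.Coprime (tal w) M := by
          refine Nat.Coprime.mul_right (Nat.Coprime.mul_right (hcA w hw)
            (Nat.Coprime.coprime_mul_right_right h1)) (Nat.Coprime.mul_right (hc w hw w hw)
            (Nat.Coprime.mul_right (cop_tpa fun w' hw' => hc w hw w' (hl' w' hw'))
            (Nat.Coprime.coprime_mul_left_right h1)))
        have hz := sum_centred_zero (tal_pos w) hχ hco t
        have hF : ∀ u : ℤ, ψ u * twt H k (w :: l) u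
            = χ u * ((if (tal w : ℤ) ∣ u + t then 1 else 0) - 1 / (tal w : ℝ)) := by
          intro u
          simp only [twt, tst, χ, txi, ← htdef, if_pos ht]
          split_ifs <;> ring
        have hp1 : Function.Periodic (fun u => ψ u * twt H k (w :: l) u)
            ((M * tal w : ℕ) : ℤ) := by
          intro u
          have a1 := hmul hχ (Dvd.intro (tal w) rfl) u
          have a2 := ind_periodic (tal w) t ((M * tal w : ℕ) : ℤ)
            (Int.natCast_dvd_natCast.2 (Dvd.intro_left _ rfl)) u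
          simp only at a2
          simp only [hF, a1, a2]
        have hp2 : Function.Periodic (fun u => ψ u * twt H k (w :: l) u) (N : ℤ) := by
          intro u
          have a1 := twt_periodic H (N : ℤ) (w :: l) (fun w' hw' =>
            ⟨Int.natCast_dvd_natCast.2 (hN w' (hl w' hw')).1,
              Int.natCast_dvd_natCast.2 (hN w' (hl w' hw')).2⟩) k u
          simp only [hψN u, a1]
        have h2 := per_two hp1 hp2
        simp only [hF] at h2 ⊢
        rw [hz, mul_zero] at h2
        have hMpos : 0 < M * tal w :=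
          Nat.mul_pos (Nat.mul_pos (Nat.mul_pos hLA hLB) (Nat.mul_pos (hapos w hw)
            (Nat.mul_pos (tpa_pos fun w' hw' => hapos w' (hl' w' hw')) (tpb_pos l)))) (tal_pos w)
        have : ((M * tal w : ℕ) : ℝ) ≠ 0 := by exact_mod_cast hMpos.ne'
        exact (mul_eq_zero.1 h2.symm).resolve_left this
      · simp only [twt, tst, if_neg ht, zero_mul, mul_zero, Finset.sum_const_zero]
    · have h2 : ¬ tok (LB * tal w) l := fun h2 => hok ⟨h1, h2⟩
      have := ih hl' (LA * ta w) (LB * tal w) (tnx k w) (fun u => ψ u * tst H k w u)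
        (Nat.mul_pos hLA (hapos w hw)) (Nat.mul_pos hLB (tal_pos w)) ?_ ?_
        (fun w' hw' => Nat.Coprime.mul_right (hcA w' hw') (hc w' hw' w hw)) h2
      · simpa only [twt, mul_assoc] using this
      · intro u
        have a1 := hmul hψ (show LA * LB ∣ LA * ta w * (LB * tal w) from
          ⟨ta w * tal w, by ring⟩) u
        have a2 := tst_periodic H k w ((LA * ta w * (LB * tal w) : ℕ) : ℤ)
          (Int.natCast_dvd_natCast.2 ⟨LA * (LB * tal w), by ring⟩)
          (Int.natCast_dvd_natCast.2 ⟨LA * ta w * LB, by ring⟩) u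
        simp only [a1, a2]
      · intro u
        simp only [hψN u, tst_periodic H k w (N : ℤ) hwN.1 hwN.2 u]

theorem card_meet_le (S : Finset ℕ) (x : ℕ) (hx : x ≠ 0)
    (hS : ∀ y ∈ S, ∀ y' ∈ S, y ≠ y' → Nat.Coprime y y') :
    (S.filter fun y => ¬ Nat.Coprime y x).card ≤ x.primeFactors.card := by
  refine Finset.card_le_card_of_injOn (fun y => (Nat.gcd y x).minFac) ?_ ?_
  · intro y hy
    rw [Finset.mem_coe, Finset.mem_filter] at hy
    exact Finset.mem_coe.2 (Nat.mem_primeFactors.2 ⟨Nat.minFac_prime hy.2,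
      (Nat.minFac_dvd _).trans (Nat.gcd_dvd_right _ _), hx⟩)
  · intro y hy y' hy' h
    rw [Finset.mem_coe, Finset.mem_filter] at hy hy'
    by_contra hne
    have hp := Nat.minFac_prime hy.2
    have d1 : (Nat.gcd y x).minFac ∣ y := (Nat.minFac_dvd _).trans (Nat.gcd_dvd_left _ _)
    have d2 : (Nat.gcd y x).minFac ∣ y' := by
      simp only at h
      rw [h]; exact (Nat.minFac_dvd _).trans (Nat.gcd_dvd_left _ _)
    exact hp.ne_one (Nat.eq_one_of_dvd_coprimes (hS y hy.1 y' hy'.1 hne) d1 d2)

theorem old_count (s : ℕ) (l : List TStep) (hl : ∀ w ∈ l, (tal w).primeFactors.card ≤ s)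
    (LB : ℕ) (S : Finset ℕ) (hok : tok LB l)
    (hS : ∀ y ∈ S, ∀ y' ∈ S, y ≠ y' → Nat.Coprime y y') (hd : ∀ y ∈ S, y ∣ LB)
    (hm : ∀ y ∈ S, ¬ Nat.Coprime y (tpb l)) :
    S.card + l.length ≤ (s + 1) * told LB l := by
  induction l generalizing LB S with
  | nil =>
    have : S = ∅ := Finset.eq_empty_of_forall_notMem fun y hy => hm y hy (by simp [tpb])
    simp [this]
  | cons w l ih =>
    have hl' : ∀ w' ∈ l, (tal w').primeFactors.card ≤ s :=
      fun w' hw' => hl w' (List.mem_cons_of_mem _ hw')
    have hb : tpb (w :: l) = tal w * tpb l := by simp [tpb]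
    rw [told, List.length_cons]
    by_cases hn : Nat.Coprime (tal w) LB
    · have hc : ∀ y ∈ S, Nat.Coprime (tal w) y := fun y hy => hn.coprime_dvd_right (hd y hy)
      have hni : tal w ∉ S := fun h => by
        have := hc _ h
        rw [Nat.coprime_self] at this
        exact absurd this (tal_gt w).ne'
      have := ih hl' (LB * tal w) (insert (tal w) S) hok.2 ?_ ?_ ?_
      · rw [Finset.card_insert_of_notMem hni] at this
        rw [if_pos hn, zero_add]; omega
      · intro y hy y' hy' hne
        rcases Finset.mem_insert.1 hy with rfl | hy <;> rcases Finset.mem_insert.1 hy' with h | h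
        · exact absurd h.symm hne
        · exact hc _ h
        · rw [h]; exact (hc _ hy).symm
        · exact hS y hy y' h hne
      · intro y hy
        rcases Finset.mem_insert.1 hy with rfl | hy
        · exact Dvd.intro_left _ rfl
        · exact (hd y hy).mul_right _
      · intro y hy hco
        rcases Finset.mem_insert.1 hy with rfl | hy
        · exact hok.1 (hn.mul_right hco)
        · exact hm y hy (hb ▸ ((hc y hy).symm.mul_right hco))
    · have h1 := ih hl' (LB * tal w) (S.filter fun y => Nat.Coprime y (tal w)) hok.2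
        (fun y hy y' hy' => hS y (Finset.mem_filter.1 hy).1 y' (Finset.mem_filter.1 hy').1)
        (fun y hy => (hd y (Finset.mem_filter.1 hy).1).mul_right _)
        (fun y hy hco => hm y (Finset.mem_filter.1 hy).1
          (hb ▸ ((Finset.mem_filter.1 hy).2.mul_right hco)))
      have h2 := (card_meet_le S (tal w) (tal_pos w).ne' hS).trans (hl w (List.mem_cons_self ..))
      have h3 := Finset.card_filter_add_card_filter_not (s := S) fun y => Nat.Coprime y (tal w)
      rw [if_neg hn, Nat.mul_add]
      omega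

end Pool.Agent.H84D
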