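import Pool.Agent.MP_e3ece1_pr.Vaughan

set_option autoImplicit false

/-! Vaughan's identity against an arbitrary bounded test function. -/

namespace Pool.Agent.H84D.Vg85

open Finset ArithmeticFunction Pool.Agent.MP_e3ece1_pr

theorem twist (f g : ArithmeticFunction ℝ) (z : ℕ → ℂ) (N : ℕ) :
    ∑ n ∈ Ioc 0 N, ((f * g) n : ℂ) * z n =
      ∑ d ∈ Ioc 0 N, (f d : ℂ) * ∑ k ∈ Ioc 0 (N / d), (g k : ℂ) * z (d * k) := by
  simp only [ArithmeticFunction.mul_apply]
  push_cast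
  simp only [sum_mul, mul_sum]
  rw [sum_sigma', sum_sigma']
  refine sum_nbij' (fun x => ⟨x.2.1, x.2.2⟩) (fun x => ⟨x.1 * x.2, (x.1, x.2)⟩) ?_ ?_ ?_ ?_ ?_
  · rintro ⟨n, d, k⟩ h
    simp only [mem_sigma, mem_Ioc, Nat.mem_divisorsAntidiagonal] at h ⊢
    obtain ⟨⟨h1, h2⟩, rfl, h4⟩ := h
    have hd : 0 < d := Nat.pos_of_ne_zero (left_ne_zero_of_mul h4)
    have hk : 0 < k := Nat.pos_of_ne_zero (right_ne_zero_of_mul h4)
    refine ⟨⟨hd, le_trans (Nat.le_mul_of_pos_right d hk) h2⟩, hk, ?_⟩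
    rw [Nat.le_div_iff_mul_le hd, mul_comm]
    exact h2
  · rintro ⟨d, k⟩ h
    simp only [mem_sigma, mem_Ioc, Nat.mem_divisorsAntidiagonal] at h ⊢
    obtain ⟨⟨h1, h2⟩, h3, h4⟩ := h
    rw [Nat.le_div_iff_mul_le h1, mul_comm] at h4
    exact ⟨⟨Nat.mul_pos h1 h3, h4⟩, trivial, (Nat.mul_pos h1 h3).ne'⟩
  · rintro ⟨n, d, k⟩ h
    simp only [mem_sigma, mem_Ioc, Nat.mem_divisorsAntidiagonal] at h
    obtain ⟨_, rfl, _⟩ := h
    rfl
  · rintro ⟨d, k⟩ _
    rfl
  · rintro ⟨n, d, k⟩ h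
    simp only [mem_sigma, mem_Ioc, Nat.mem_divisorsAntidiagonal] at h
    obtain ⟨_, rfl, _⟩ := h
    ring

theorem abel (z : ℕ → ℂ) {c : ℕ → ℝ} (hc : Monotone c) (h0 : 0 ≤ c 0) (b : ℕ) {E : ℝ}
    (h : ∀ a, ‖∑ k ∈ Ioc a b, z k‖ ≤ E) : ‖∑ k ∈ Ioc 0 b, (c k : ℂ) * z k‖ ≤ c b * E := by
  have key : ∀ n a, a + n = b →
      ‖∑ k ∈ Ioc a b, ((c k - c a : ℝ) : ℂ) * z k‖ ≤ (c b - c a) * E := by
    intro n
    induction n with
    | zero => intro a ha; rw [← ha]; simp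
    | succ n ih =>
      intro a ha
      have e : ∑ k ∈ Ioc a b, ((c k - c a : ℝ) : ℂ) * z k =
          ∑ k ∈ Ioc (a + 1) b, ((c k - c (a + 1) : ℝ) : ℂ) * z k +
            ((c (a + 1) - c a : ℝ) : ℂ) * ∑ k ∈ Ioc a b, z k := by
        have e1 : ∑ k ∈ Ioc (a + 1) b, ((c k - c (a + 1) : ℝ) : ℂ) * z k =
            ∑ k ∈ Ioc a b, ((c k - c (a + 1) : ℝ) : ℂ) * z k := by
          refine sum_subset (Ioc_subset_Ioc_left (Nat.le_succ a)) fun k h1 h2 => ?_
          rw [mem_Ioc] at h1 h2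
          rw [show k = a + 1 by omega]; simp
        rw [e1, mul_sum, ← sum_add_distrib]
        exact sum_congr rfl fun k _ => by push_cast; ring
      have m := sub_nonneg.2 (hc (Nat.le_succ a))
      rw [e]
      refine (norm_add_le _ _).trans ?_
      rw [norm_mul, Complex.norm_real, Real.norm_of_nonneg m]
      have := ih (a + 1) (by omega)
      have := mul_le_mul_of_nonneg_left (h a) m
      linarith
  have e : ∑ k ∈ Ioc 0 b, (c k : ℂ) * z k =
      ∑ k ∈ Ioc 0 b, ((c k - c 0 : ℝ) : ℂ) * z k + (c 0 : ℂ) * ∑ k ∈ Ioc 0 b, z k := by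
    rw [mul_sum, ← sum_add_distrib]
    exact sum_congr rfl fun k _ => by push_cast; ring
  rw [e]
  refine (norm_add_le _ _).trans ?_
  rw [norm_mul, Complex.norm_real, Real.norm_of_nonneg h0]
  have := key b 0 (by omega)
  have := mul_le_mul_of_nonneg_left (h 0) h0
  linarith

theorem harm (N : ℕ) : ∑ d ∈ Ioc 0 N, (1 / d : ℝ) ≤ 1 + Real.log N := by
  have := harmonic_le_one_add_log N
  rw [harmonic_eq_sum_Icc] at this
  rw [show Ioc 0 N = Icc 1 N from rfl]
  simpa using this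

theorem tI (z : ℕ → ℂ) (N Y : ℕ) {ε : ℝ} (hε : 0 ≤ ε)
    (h : ∀ d a, 0 < d → d ≤ Y → ‖∑ k ∈ Ioc a (N / d), z (d * k)‖ ≤ N / d * ε)
    {f : ℕ → ℝ} {A : ℝ} (hA : 0 ≤ A) (hf : ∀ d, d ≤ Y → |f d| ≤ A) (hf0 : ∀ d, Y < d → f d = 0)
    {c : ℕ → ℝ} (hc : Monotone c) (h0 : 0 ≤ c 0) :
    ‖∑ d ∈ Ioc 0 N, (f d : ℂ) * ∑ k ∈ Ioc 0 (N / d), (c k : ℂ) * z (d * k)‖ ≤
      A * c N * (N * ε) * (1 + Real.log N) := by
  have hN : 0 ≤ c N := h0.trans (hc (Nat.zero_le N))
  refine (norm_sum_le _ _).trans (le_trans ?_ (mul_le_mul_of_nonneg_left (harm N) (by positivity)))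
  rw [mul_sum]
  refine sum_le_sum fun d hd => ?_
  have hd0 := (mem_Ioc.mp hd).1
  rcases le_or_gt d Y with h1 | h1
  · rw [norm_mul, Complex.norm_real, Real.norm_eq_abs]
    have := (abel (fun k => z (d * k)) hc h0 (N / d) fun a => h d a hd0 h1).trans
      (mul_le_mul_of_nonneg_right (hc (Nat.div_le_self N d)) (by positivity))
    refine (mul_le_mul (hf d h1) this (norm_nonneg _) hA).trans (le_of_eq ?_)
    ring
  · rw [hf0 d h1]; simp; positivity

theorem blk (z : ℕ → ℂ) (hz : ∀ n, ‖z n‖ ≤ 1) (N D : ℕ) (hD : 0 < D) {ε : ℝ} (hε : 0 ≤ ε)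
    {I : Finset ℕ} (hI : I ⊆ Ico D (2 * D))
    (h : ∀ d ∈ I, ∀ e ∈ I, d ≠ e → ‖∑ k ∈ Ioc 0 (min (N / d) (N / e)),
      z (d * k) * (starRingEnd ℂ) (z (e * k))‖ ≤ N / D * ε)
    {a b : ℕ → ℝ} {A B : ℝ} (ha : ∀ d ∈ I, |a d| ≤ A) (hb : ∀ k, k ≤ N → |b k| ≤ B) (hA : 0 ≤ A) :
    ‖∑ d ∈ I, (a d : ℂ) * ∑ k ∈ Ioc 0 (N / d), (b k : ℂ) * z (d * k)‖ ^ 2 ≤
      (A * B) ^ 2 * ((N : ℝ) ^ 2 * (1 / D + ε)) := by
  classical
  set K := N / D with hK
  have hKd : ∀ d ∈ I, N / d ≤ K := fun d hd =>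
    Nat.div_le_div_left (mem_Ico.mp (hI hd)).1 hD
  set T : ℕ → ℂ := fun k => ∑ d ∈ I, if k ≤ N / d then (a d : ℂ) * z (d * k) else 0 with hT
  have e1 : ∑ d ∈ I, (a d : ℂ) * ∑ k ∈ Ioc 0 (N / d), (b k : ℂ) * z (d * k) =
      ∑ k ∈ Ioc 0 K, (b k : ℂ) * T k := by
    simp only [hT, mul_sum]
    rw [sum_comm]
    refine sum_congr rfl fun d hd => ?_
    have : Ioc 0 (N / d) = (Ioc 0 K).filter fun k => k ≤ N / d := by
      ext k
      have := hKd d hd
      simp only [mem_Ioc, mem_filter]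
      omega
    rw [this, sum_filter]
    refine sum_congr rfl fun k _ => ?_
    split_ifs
    · ring
    · simp
  have hKN : K ≤ N := Nat.div_le_self _ _
  have e2 : ‖∑ k ∈ Ioc 0 K, (b k : ℂ) * T k‖ ≤ B * ∑ k ∈ Ioc 0 K, ‖T k‖ := by
    refine (norm_sum_le _ _).trans ?_
    rw [mul_sum]
    refine sum_le_sum fun k hk => ?_
    rw [norm_mul, Complex.norm_real, Real.norm_eq_abs]
    exact mul_le_mul_of_nonneg_right (hb k ((mem_Ioc.mp hk).2.trans hKN)) (norm_nonneg _)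
  have e3 : (∑ k ∈ Ioc 0 K, ‖T k‖) ^ 2 ≤ K * ∑ k ∈ Ioc 0 K, ‖T k‖ ^ 2 := by
    have := sq_sum_le_card_mul_sum_sq (s := Ioc 0 K) (f := fun k => ‖T k‖)
    rwa [Nat.card_Ioc, Nat.sub_zero] at this
  have e4 : ((∑ k ∈ Ioc 0 K, ‖T k‖ ^ 2 : ℝ) : ℂ) =
      ∑ d ∈ I, ∑ e ∈ I, ((a d * a e : ℝ) : ℂ) *
        ∑ k ∈ Ioc 0 (min (N / d) (N / e)), z (d * k) * (starRingEnd ℂ) (z (e * k)) := by
    push_cast
    simp only [← Complex.mul_conj', hT, map_sum, sum_mul_sum]
    rw [sum_comm]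
    refine sum_congr rfl fun d hd => ?_
    rw [sum_comm]
    refine sum_congr rfl fun e he => ?_
    have : Ioc 0 (min (N / d) (N / e)) = (Ioc 0 K).filter fun k => k ≤ N / d ∧ k ≤ N / e := by
      ext k
      have := hKd d hd
      simp only [mem_Ioc, mem_filter, le_min_iff]
      omega
    rw [this, sum_filter, mul_sum]
    refine sum_congr rfl fun k _ => ?_
    by_cases h1 : k ≤ N / d <;> by_cases h2 : k ≤ N / e <;> simp [h1, h2]
    ring
  have hcardI : (I.card : ℝ) ≤ D := by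
    have := card_le_card hI
    rw [Nat.card_Ico] at this
    exact_mod_cast (by omega : I.card ≤ D)
  have hDR : (0 : ℝ) < D := by exact_mod_cast hD
  have hKD : (K : ℝ) ≤ N / D := Nat.cast_div_le
  have hK0 : (0 : ℝ) ≤ K := Nat.cast_nonneg _
  have e5 : ∑ k ∈ Ioc 0 K, ‖T k‖ ^ 2 ≤ A ^ 2 * (D * (K + D * (N / D * ε))) := by
    have : ∑ k ∈ Ioc 0 K, ‖T k‖ ^ 2 = ‖((∑ k ∈ Ioc 0 K, ‖T k‖ ^ 2 : ℝ) : ℂ)‖ := by
      rw [Complex.norm_real, Real.norm_eq_abs, abs_of_nonneg (sum_nonneg fun _ _ => sq_nonneg _)]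
    rw [this, e4]
    refine (norm_sum_le _ _).trans ?_
    calc _ ≤ ∑ d ∈ I, A ^ 2 * (K + D * (N / D * ε)) := by
          refine sum_le_sum fun d hd => (norm_sum_le _ _).trans ?_
          calc _ ≤ ∑ e ∈ I, A ^ 2 * ((if d = e then (K : ℝ) else 0) + N / D * ε) := by
                refine sum_le_sum fun e he => ?_
                rw [norm_mul, Complex.norm_real, Real.norm_eq_abs, abs_mul, sq]
                refine mul_le_mul (mul_le_mul (ha d hd) (ha e he) (abs_nonneg _) hA) ?_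
                  (norm_nonneg _) (by positivity)
                split_ifs with hde
                · refine (norm_sum_le_of_le _ (n := fun _ => 1) fun k _ => ?_).trans ?_
                  · rw [norm_mul, Complex.norm_conj]
                    exact mul_le_one₀ (hz _) (norm_nonneg _) (hz _)
                  simp only [sum_const, Nat.card_Ioc, Nat.sub_zero, nsmul_eq_mul, mul_one]
                  have : min (N / d) (N / e) ≤ K := (min_le_left _ _).trans (hKd d hd)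
                  have : ((min (N / d) (N / e) : ℕ) : ℝ) ≤ K := by exact_mod_cast this
                  have : (0 : ℝ) ≤ N / D * ε := by positivity
                  linarith
                · rw [zero_add]; exact h d hd e he hde
            _ ≤ _ := by
                rw [← mul_sum, sum_add_distrib, sum_ite_eq, if_pos hd, sum_const, nsmul_eq_mul]
                gcongr
      _ ≤ _ := by
          rw [sum_const, nsmul_eq_mul, mul_left_comm]
          exact mul_le_mul_of_nonneg_left (mul_le_mul_of_nonneg_right hcardI (by positivity))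
            (sq_nonneg _)
  rw [e1]
  calc _ ≤ (B * ∑ k ∈ Ioc 0 K, ‖T k‖) ^ 2 := pow_le_pow_left₀ (norm_nonneg _) e2 2
    _ = B ^ 2 * (∑ k ∈ Ioc 0 K, ‖T k‖) ^ 2 := by ring
    _ ≤ B ^ 2 * (K * (A ^ 2 * (D * (K + D * (N / D * ε))))) := by
        refine mul_le_mul_of_nonneg_left (e3.trans ?_) (sq_nonneg _)
        exact mul_le_mul_of_nonneg_left e5 hK0
    _ ≤ B ^ 2 * (N / D * (A ^ 2 * (D * (N / D + D * (N / D * ε))))) := by gcongr
    _ = _ := by field_simp

theorem tII (z : ℕ → ℂ) (hz : ∀ n, ‖z n‖ ≤ 1) (N U R J : ℕ) (hU : 0 < U) (hJ : R < 2 ^ J)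
    {ε : ℝ} (hε : 0 ≤ ε)
    (h : ∀ D d e, 0 < D → D ≤ R → d ∈ Ico D (2 * D) → e ∈ Ico D (2 * D) → d ≠ e →
      ‖∑ k ∈ Ioc 0 (min (N / d) (N / e)), z (d * k) * (starRingEnd ℂ) (z (e * k))‖ ≤ N / D * ε)
    {a b : ℕ → ℝ} {A B E : ℝ}
    (ha : ∀ d, d ≤ R → |a d| ≤ A) (hB : 0 ≤ B) (hb : ∀ k, k ≤ N → |b k| ≤ B) (hA : 0 ≤ A)
    (hE0 : 0 ≤ E) (hE : 2 / U + ε ≤ E ^ 2) :
    ‖∑ d ∈ Ioc U R, (a d : ℂ) * ∑ k ∈ Ioc 0 (N / d), (b k : ℂ) * z (d * k)‖ ≤
      J * (A * B * (N * E)) := by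
  rw [← sum_fiberwise_of_maps_to (t := range J) (g := fun d => Nat.log 2 d) (fun d hd => by
    have := mem_Ioc.mp hd
    rw [mem_range]
    exact Nat.log_lt_of_lt_pow (by omega) (by omega))]
  refine (norm_sum_le _ _).trans ?_
  calc _ ≤ ∑ _j ∈ range J, A * B * (N * E) := by
        refine sum_le_sum fun j _ => ?_
        rcases ((Ioc U R).filter fun d => Nat.log 2 d = j).eq_empty_or_nonempty with he | ⟨d₀, hd₀⟩
        · rw [he, sum_empty, norm_zero]
          positivity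
        have hsub : ((Ioc U R).filter fun d => Nat.log 2 d = j) ⊆ Ico (2 ^ j) (2 * 2 ^ j) := by
          intro d hd
          obtain ⟨h1, rfl⟩ := mem_filter.mp hd
          have := mem_Ioc.mp h1
          rw [mem_Ico, ← pow_succ']
          exact ⟨Nat.pow_log_le_self 2 (by omega), Nat.lt_pow_succ_log_self (by norm_num) d⟩
        have h1 := mem_Ico.mp (hsub hd₀)
        have h2 := mem_Ioc.mp (mem_filter.mp hd₀).1
        have hD : 0 < 2 ^ j := by positivity
        have := blk z hz N (2 ^ j) hD hε hsub (fun d hd e he hde =>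
          h (2 ^ j) d e hD (by omega) (hsub hd) (hsub he) hde) (a := a) (b := b) (A := A)
          (fun d hd => ha d (mem_Ioc.mp (mem_filter.mp hd).1).2) hb hA
        refine (sq_le_sq₀ (norm_nonneg _) (by positivity)).mp (this.trans ?_)
        rw [mul_pow (A * B), mul_pow (N : ℝ)]
        refine mul_le_mul_of_nonneg_left (mul_le_mul_of_nonneg_left (le_trans ?_ hE)
          (sq_nonneg _)) (sq_nonneg _)
        have h3 : (U : ℝ) ≤ 2 * ((2 ^ j : ℕ) : ℝ) := by exact_mod_cast (by omega : U ≤ 2 * 2 ^ j)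
        have hUR : (0 : ℝ) < U := by exact_mod_cast hU
        have h5 : 1 / ((2 ^ j : ℕ) : ℝ) ≤ 2 / U := by
          rw [div_le_div_iff₀ (by positivity) hUR]
          linarith
        gcongr
    _ = _ := by rw [sum_const, card_range, nsmul_eq_mul]

/-- the test function vanishes up to `U` -/
theorem vau (z : ℕ → ℂ) (hz : ∀ n, ‖z n‖ ≤ 1) {N U R J : ℕ} (hz0 : ∀ n, n ≤ U → z n = 0)
    (hU : 0 < U) (hUN : U * U ≤ N) (hJ : R < 2 ^ J) (hRN : R ≤ N) (hNR : N ≤ R * R)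
    {ε E : ℝ} (hε : 0 ≤ ε) (hE0 : 0 ≤ E) (hE : 2 / U + ε ≤ E ^ 2)
    (h1 : ∀ d a, 0 < d → d ≤ U * U → ‖∑ k ∈ Ioc a (N / d), z (d * k)‖ ≤ N / d * ε)
    (h2 : ∀ D d e, 0 < D → D ≤ R → d ∈ Ico D (2 * D) → e ∈ Ico D (2 * D) → d ≠ e →
      ‖∑ k ∈ Ioc 0 (min (N / d) (N / e)), z (d * k) * (starRingEnd ℂ) (z (e * k))‖ ≤ N / D * ε) :
    ‖∑ n ∈ Ioc 0 N, (vonMangoldt n : ℂ) * z n‖ ≤
      N * Real.log N * (2 * ((1 + Real.log N) * ε) + 2 * (J * E)) := by
  set L := Real.log N with hL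
  have hL0 : 0 ≤ L := Real.log_natCast_nonneg N
  have hUU : U ≤ U * U := Nat.le_mul_self U
  let S : ArithmeticFunction ℝ → ℂ := fun f => ∑ n ∈ Ioc 0 N, (f n : ℂ) * z n
  have Sadd : ∀ f g, S (f + g) = S f + S g := by
    intro f g
    simp only [S, ArithmeticFunction.add_apply, Complex.ofReal_add, add_mul, sum_add_distrib]
  have hid := congrArg S (vaughan U R)
  simp only [Sadd] at hid
  have b1 : S (lo vonMangoldt U) = 0 := by
    refine sum_eq_zero fun n _ => ?_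
    rw [lo_apply]
    split_ifs with h
    · rw [hz0 n h, mul_zero]
    · simp
  have b2 : ‖S (lo mob U * log)‖ ≤ N * L * ((1 + L) * ε) := by
    simp only [S]
    rw [twist]
    refine (tI z N U hε (fun d a h h' => h1 d a h (h'.trans hUU)) zero_le_one (f := lo mob U)
      (fun d hd => ?_) (fun d hd => ?_) log_mono (by simp)).trans (le_of_eq (by ring))
    · rw [lo_apply, if_pos hd]
      exact abs_mob_le d
    · rw [lo_apply, if_neg (by omega)]
  have b3 : ‖S (lo mob U * lo vonMangoldt U * zet)‖ ≤ N * L * ((1 + L) * ε) := by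
    simp only [S]
    rw [twist]
    have e : ∀ d, ∑ k ∈ Ioc 0 (N / d), (zet k : ℂ) * z (d * k) =
        ∑ k ∈ Ioc 0 (N / d), (((fun _ => 1 : ℕ → ℝ) k : ℝ) : ℂ) * z (d * k) := by
      intro d
      refine sum_congr rfl fun k hk => ?_
      unfold zet
      rw [natCoe_apply, zeta_apply_ne (mem_Ioc.mp hk).1.ne', Nat.cast_one]
    simp only [e]
    exact (tI z N (U * U) hε h1 hL0 (f := (lo mob U * lo vonMangoldt U : ArithmeticFunction ℝ))
      (fun d hd => (gamma_bound U d).trans (log_mono (hd.trans hUN)))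
      (fun d hd => gamma_zero hd) monotone_const zero_le_one).trans (le_of_eq (by ring))
  have b4 : ‖S (lo (hi mob U) R * (hi vonMangoldt U * zet))‖ ≤ N * L * (J * E) := by
    simp only [S]
    rw [twist, ← sum_subset (Ioc_subset_Ioc (Nat.zero_le U) hRN)]
    · refine (tII z hz N U R J hU hJ hε h2 (A := 1) (B := L) (fun d _ => ?_) hL0
        (fun k hk => (beta_bound U k).trans (log_mono hk)) zero_le_one hE0 hE).trans (le_of_eq ?_)
      · rw [lo_apply, hi_apply]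
        split_ifs
        · exact abs_mob_le d
        all_goals simp
      · ring
    · intro d _ hd
      rw [lo_apply, hi_apply]
      rw [mem_Ioc] at hd
      split_ifs
      · omega
      all_goals simp
  have b5 : ‖S ((hi vonMangoldt U * zet) * hi (hi mob U) R)‖ ≤ N * L * (J * E) := by
    simp only [S]
    rw [twist, ← sum_subset (Ioc_subset_Ioc (Nat.zero_le U) hRN)]
    · refine (tII z hz N U R J hU hJ hε h2 (A := L) (B := 1)
        (fun k hk => (beta_bound U k).trans (log_mono (hk.trans hRN))) zero_le_one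
        (fun d _ => ?_) hL0 hE0 hE).trans (le_of_eq ?_)
      · rw [hi_apply, hi_apply]
        split_ifs
        · exact abs_mob_le d
        all_goals simp
      · ring
    · intro k _ hk
      rw [mem_Ioc] at hk
      by_cases hkU : k ≤ U
      · rw [beta_zero hkU]
        simp
      · rw [sum_eq_zero, mul_zero]
        intro d hd
        have hk0 : 0 < k := by omega
        have h1 := (Nat.le_div_iff_mul_le hk0).mp (mem_Ioc.mp hd).2
        rw [hi_apply, if_neg, Complex.ofReal_zero, zero_mul]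
        intro hRd
        have : R * R < d * k := Nat.mul_lt_mul'' hRd (by omega)
        omega
  have hfin : S vonMangoldt = S (lo mob U * log) +
      (S (lo (hi mob U) R * (hi vonMangoldt U * zet)) +
        S ((hi vonMangoldt U * zet) * hi (hi mob U) R)) - S (lo mob U * lo vonMangoldt U * zet) := by
    rw [b1, zero_add] at hid
    rw [← hid]
    ring
  show ‖S vonMangoldt‖ ≤ _
  rw [hfin]
  refine (norm_sub_le _ _).trans ?_
  have t1 := norm_add_le (S (lo mob U * log))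
    (S (lo (hi mob U) R * (hi vonMangoldt U * zet)) +
        S ((hi vonMangoldt U * zet) * hi (hi mob U) R))
  have t2 := norm_add_le (S (lo (hi mob U) R * (hi vonMangoldt U * zet)))
    (S ((hi vonMangoldt U * zet) * hi (hi mob U) R))
  linarith

end Pool.Agent.H84D.Vg85
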